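import Mathlib

/-! The Prekopa-Leindler inequality. -/

namespace Pool.Agent.Lib.MP_fedf83_gt.B

open MeasureTheory Set
open scoped ENNReal Pointwise

theorem bm1_compact {A B C : Set ℝ} (hA : IsCompact A) (hB : IsCompact B) (hA0 : A.Nonempty)
    (hB0 : B.Nonempty) (h : ∀ a ∈ A, ∀ b ∈ B, a + b ∈ C) : volume A + volume B ≤ volume C := by
  obtain ⟨a, ha, ha'⟩ := hA.exists_isGreatest hA0
  obtain ⟨b, hb, hb'⟩ := hB.exists_isLeast hB0
  let A' := (fun x => x + -b) ⁻¹' A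
  let B' := ((fun x => x + -a) ⁻¹' B) \ {a + b}
  have h1 : volume A' = volume A := measure_preimage_add_right _ _ _
  have h2 : volume B' = volume B := by
    rw [measure_sdiff_null (by simp), measure_preimage_add_right]
  have hm : MeasurableSet B' :=
    ((measurable_add_const _) hB.measurableSet).diff (measurableSet_singleton _)
  have hd : Disjoint A' B' := by
    refine disjoint_left.2 fun x hx hx' => hx'.2 ?_
    have := ha' hx
    have := hb' hx'.1
    simp only [mem_singleton_iff]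
    linarith
  rw [← h1, ← h2, ← measure_union hd hm]
  refine measure_mono ?_
  rintro x (hx | hx)
  · have := h _ hx b hb
    simpa using this
  · have := h a ha _ hx.1
    simpa using this

theorem bm1 {A B C : Set ℝ} (hA : MeasurableSet A) (hB : MeasurableSet B) (hA0 : A.Nonempty)
    (hB0 : B.Nonempty) (h : ∀ a ∈ A, ∀ b ∈ B, a + b ∈ C) : volume A + volume B ≤ volume C := by
  obtain ⟨a, ha⟩ := hA0
  obtain ⟨b, hb⟩ := hB0
  rw [hA.measure_eq_iSup_isCompact, hB.measure_eq_iSup_isCompact]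
  have key : ∀ K ⊆ A, IsCompact K → ∀ L ⊆ B, IsCompact L → volume K + volume L ≤ volume C := by
    intro K hK hK' L hL hL'
    refine le_trans ?_ (bm1_compact (hK'.insert a) (hL'.insert b) (insert_nonempty _ _)
      (insert_nonempty _ _) fun x hx y hy => h x (insert_subset ha hK hx) y (insert_subset hb hL hy))
    gcongr <;> exact subset_insert _ _
  refine ENNReal.iSup_add_iSup_le fun K L => ?_
  by_cases h1 : K ⊆ A ∧ IsCompact K
  · by_cases h2 : L ⊆ B ∧ IsCompact L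
    · simpa [h1, h2] using key K h1.1 h1.2 L h2.1 h2.2
    · have : (⨆ (_ : L ⊆ B) (_ : IsCompact L), volume L) = 0 := by
        simp only [ENNReal.iSup_eq_zero]; intro a b; exact absurd ⟨a, b⟩ h2
      rw [this]
      simpa [h1] using key K h1.1 h1.2 ∅ (empty_subset _) isCompact_empty
  · have : (⨆ (_ : K ⊆ A) (_ : IsCompact K), volume K) = 0 := by
      simp only [ENNReal.iSup_eq_zero]; intro a b; exact absurd ⟨a, b⟩ h1
    rw [this, zero_add]
    refine iSup₂_le fun h2 h3 => ?_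
    simpa using key ∅ (empty_subset _) isCompact_empty L h2 h3

theorem bm1_smul {A B C : Set ℝ} (hA : MeasurableSet A) (hB : MeasurableSet B) (hA0 : A.Nonempty)
    (hB0 : B.Nonempty) {θ : ℝ} (h0 : 0 < θ) (h1 : θ < 1)
    (h : ∀ a ∈ A, ∀ b ∈ B, (1 - θ) • a + θ • b ∈ C) :
    ENNReal.ofReal (1 - θ) * volume A + ENNReal.ofReal θ * volume B ≤ volume C := by
  have h2 : 0 < 1 - θ := by linarith
  have := bm1 (hA.const_smul₀ (1 - θ)) (hB.const_smul₀ θ) hA0.smul_set hB0.smul_set (C := C) (by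
    rintro _ ⟨a, ha, rfl⟩ _ ⟨b, hb, rfl⟩
    exact h a ha b hb)
  rwa [Measure.addHaar_smul_of_nonneg _ h2.le, Measure.addHaar_smul_of_nonneg _ h0.le,
    Module.finrank_self, pow_one, pow_one] at this

theorem layer {X : Type*} [MeasurableSpace X] (μ : Measure X) {f : X → ℝ≥0∞} (hf : Measurable f) :
    ∫⁻ x, min (f x) 1 ∂μ = ∫⁻ t in Ioo (0 : ℝ) 1, μ {x | ENNReal.ofReal t < f x} := by
  have h1 : ∀ x, min (f x) 1 = ENNReal.ofReal (min (f x) 1).toReal := fun x =>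
    (ENNReal.ofReal_toReal (by simp)).symm
  rw [lintegral_congr h1, lintegral_eq_lintegral_meas_lt μ
    (Filter.Eventually.of_forall fun x => ENNReal.toReal_nonneg)
    (hf.min measurable_const).ennreal_toReal.aemeasurable]
  rw [← lintegral_indicator measurableSet_Ioi, ← lintegral_indicator measurableSet_Ioo]
  congr with t
  by_cases h0 : 0 < t
  · have e : ∀ x, t < (min (f x) 1).toReal ↔ ENNReal.ofReal t < f x ∧ t < 1 := by
      intro x
      rw [← ENNReal.ofReal_lt_iff_lt_toReal h0.le (by simp), lt_min_iff, ENNReal.ofReal_lt_one]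
    by_cases h1 : t < 1
    · simp [indicator, h0, h1, e]
    · simp [indicator, h0, h1, e]
  · simp [indicator, h0]

theorem geom_le_arith (a b : ℝ≥0∞) {θ : ℝ} (h0 : 0 < θ) (h1 : θ < 1) :
    a ^ (1 - θ) * b ^ θ ≤ ENNReal.ofReal (1 - θ) * a + ENNReal.ofReal θ * b := by
  have h2 : 0 < 1 - θ := by linarith
  rcases eq_or_ne a ⊤ with rfl | ha
  · rw [ENNReal.mul_top (by simpa using h1)]; simp
  rcases eq_or_ne b ⊤ with rfl | hb
  · rw [ENNReal.mul_top (by simpa using h0)]; simp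
  lift a to NNReal using ha
  lift b to NNReal using hb
  have := NNReal.geom_mean_le_arith_mean2_weighted ⟨1 - θ, h2.le⟩ ⟨θ, h0.le⟩ a b
    (NNReal.eq (show 1 - θ + θ = 1 by ring))
  rw [← ENNReal.coe_rpow_of_nonneg _ h2.le, ← ENNReal.coe_rpow_of_nonneg _ h0.le,
    ENNReal.ofReal_eq_coe_nnreal h2.le, ENNReal.ofReal_eq_coe_nnreal h0.le]
  exact_mod_cast this

/-- The Prekopa-Leindler property of a measure. -/
def PL {X : Type*} [AddCommGroup X] [Module ℝ X] [MeasurableSpace X] (μ : Measure X) : Prop :=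
  ∀ θ : ℝ, 0 < θ → θ < 1 → ∀ f g h : X → ℝ≥0∞, Measurable f → Measurable g → Measurable h →
    (∀ x y, f x ^ (1 - θ) * g y ^ θ ≤ h ((1 - θ) • x + θ • y)) →
    (∫⁻ x, f x ∂μ) ^ (1 - θ) * (∫⁻ x, g x ∂μ) ^ θ ≤ ∫⁻ x, h x ∂μ

theorem pl_norm {θ : ℝ} (h0 : 0 < θ) (h1 : θ < 1) {f g h : ℝ → ℝ≥0∞} (hf : Measurable f)
    (hg : Measurable g) (hh : Measurable h)
    (H : ∀ x y, f x ^ (1 - θ) * g y ^ θ ≤ h ((1 - θ) • x + θ • y))
    (hf1 : ∃ x, 1 ≤ f x) (hg1 : ∃ x, 1 ≤ g x) :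
    (∫⁻ x, min (f x) 1) ^ (1 - θ) * (∫⁻ x, min (g x) 1) ^ θ ≤ ∫⁻ x, h x := by
  have h2 : 0 < 1 - θ := by linarith
  refine (geom_le_arith _ _ h0 h1).trans (le_trans ?_ (lintegral_mono fun x => min_le_left (h x) 1))
  have mf : ∀ {f : ℝ → ℝ≥0∞}, Measurable fun t : ℝ => volume {x | ENNReal.ofReal t < f x} := by
    intro f
    refine Antitone.measurable fun s t hst => measure_mono fun x hx => ?_
    exact lt_of_le_of_lt (ENNReal.ofReal_le_ofReal hst) hx
  rw [layer _ hf, layer _ hg, layer _ hh, ← lintegral_const_mul _ mf, ← lintegral_const_mul _ mf,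
    ← lintegral_add_left (mf.const_mul _)]
  refine setLIntegral_mono' measurableSet_Ioo fun t ht => ?_
  have t1 : ENNReal.ofReal t < 1 := ENNReal.ofReal_lt_one.2 ht.2
  refine bm1_smul (measurableSet_lt measurable_const hf) (measurableSet_lt measurable_const hg)
    (hf1.imp fun x hx => t1.trans_le hx) (hg1.imp fun x hx => t1.trans_le hx) h0 h1 ?_
  intro a ha b hb
  refine lt_of_lt_of_le ?_ (H a b)
  calc ENNReal.ofReal t = ENNReal.ofReal t ^ (1 - θ) * ENNReal.ofReal t ^ θ := by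
        rw [← ENNReal.rpow_add_of_nonneg _ _ h2.le h0.le]; simp
    _ < _ := ENNReal.mul_lt_mul (ENNReal.rpow_lt_rpow ha h2) (ENNReal.rpow_lt_rpow hb h0)

theorem pl_trunc {θ : ℝ} (h0 : 0 < θ) (h1 : θ < 1) {f g h : ℝ → ℝ≥0∞} (hf : Measurable f)
    (hg : Measurable g) (hh : Measurable h)
    (H : ∀ x y, f x ^ (1 - θ) * g y ^ θ ≤ h ((1 - θ) • x + θ • y)) {a b : ℝ≥0∞}
    (a0 : a ≠ 0) (a1 : a ≠ ⊤) (b0 : b ≠ 0) (b1 : b ≠ ⊤)
    (hf1 : ∃ x, a ≤ f x) (hg1 : ∃ x, b ≤ g x) :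
    (∫⁻ x, min (f x) a) ^ (1 - θ) * (∫⁻ x, min (g x) b) ^ θ ≤ ∫⁻ x, h x := by
  have h2 : 0 < 1 - θ := by linarith
  set c := a ^ (1 - θ) * b ^ θ with hc
  have c0 : c ≠ 0 := by simp [hc, a0, b0, a1, b1]
  have c1 : c ≠ ⊤ := ENNReal.mul_ne_top (ENNReal.rpow_ne_top_of_nonneg h2.le a1)
    (ENNReal.rpow_ne_top_of_nonneg h0.le b1)
  have key := pl_norm h0 h1 (f := fun x => f x / a) (g := fun x => g x / b)
    (h := fun x => h x / c) (hf.div_const _) (hg.div_const _) (hh.div_const _) (by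
      intro x y
      rw [ENNReal.div_rpow_of_nonneg _ _ h2.le, ENNReal.div_rpow_of_nonneg _ _ h0.le,
        ← ENNReal.mul_div_mul_comm (Or.inr (ENNReal.rpow_ne_top_of_nonneg h0.le b1))
          (Or.inl (ENNReal.rpow_ne_top_of_nonneg h2.le a1))]
      gcongr
      exact H x y)
    (hf1.imp fun x hx => by rwa [ENNReal.le_div_iff_mul_le (Or.inl a0) (Or.inl a1), one_mul])
    (hg1.imp fun x hx => by rwa [ENNReal.le_div_iff_mul_le (Or.inl b0) (Or.inl b1), one_mul])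
  have e : ∀ {f : ℝ → ℝ≥0∞} {a : ℝ≥0∞}, Measurable f → a ≠ 0 → a ≠ ⊤ →
      ∫⁻ x, min (f x) a = a * ∫⁻ x, min (f x / a) 1 := by
    intro f a hf a0 a1
    rw [← lintegral_const_mul _ ((hf.div_const _).min measurable_const)]
    congr with x
    rw [mul_min, mul_one, ENNReal.mul_div_cancel a0 a1]
  have e2 : ∫⁻ x, h x = c * ∫⁻ x, h x / c := by
    rw [← lintegral_const_mul _ (hh.div_const _)]
    congr with x
    rw [ENNReal.mul_div_cancel c0 c1]
  rw [e hf a0 a1, e hg b0 b1, e2, ENNReal.mul_rpow_of_nonneg _ _ h2.le,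
    ENNReal.mul_rpow_of_nonneg _ _ h0.le, mul_mul_mul_comm]
  gcongr

theorem exists_trunc {f : ℝ → ℝ≥0∞} (hf : Measurable f) {r : ℝ≥0∞} (hr : r < ∫⁻ x, f x) :
    ∃ a : ℝ≥0∞, a ≠ 0 ∧ a ≠ ⊤ ∧ (∃ x, a ≤ f x) ∧ r < ∫⁻ x, min (f x) a := by
  obtain ⟨u, hu, hu1, hu2⟩ : ∃ u : ℕ → ℝ≥0∞, StrictMono u ∧ (∀ n, u n ∈ Ioo 0 (⨆ x, f x)) ∧
      Filter.Tendsto u Filter.atTop (nhds (⨆ x, f x)) := by
    refine exists_seq_strictMono_tendsto' ?_
    by_contra h
    have h0 : ∀ x, f x = 0 := fun x =>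
      le_antisymm ((le_iSup f x).trans (not_lt.1 h)) (by simp)
    simp [h0] at hr
  have h1 : ∫⁻ x, f x = ⨆ n, ∫⁻ x, min (f x) (u n) := by
    rw [← lintegral_iSup (fun n => hf.min measurable_const)
      (fun m n hmn x => min_le_min_left _ (hu.monotone hmn))]
    congr with x
    have : ⨆ n, u n = ⨆ x, f x :=
      tendsto_nhds_unique (tendsto_atTop_iSup hu.monotone) hu2
    have e := inf_iSup_eq (a := f x) (f := u)
    rw [this, inf_of_le_left (le_iSup f x)] at e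
    exact e
  rw [h1, lt_iSup_iff] at hr
  obtain ⟨n, hn⟩ := hr
  obtain ⟨x, hx⟩ := lt_iSup_iff.1 (hu1 n).2
  exact ⟨u n, (hu1 n).1.ne', (hu1 n).2.ne_top, ⟨x, hx.le⟩, hn⟩

theorem pl_real : PL (volume : Measure ℝ) := by
  intro θ h0 h1 f g h hf hg hh H
  have h2 : 0 < 1 - θ := by linarith
  refine ENNReal.mul_le_of_forall_lt fun p hp q hq => ?_
  have hp' : p ^ (1 - θ)⁻¹ < ∫⁻ x, f x := (ENNReal.rpow_inv_lt_iff h2).2 hp
  have hq' : q ^ θ⁻¹ < ∫⁻ x, g x := (ENNReal.rpow_inv_lt_iff h0).2 hq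
  obtain ⟨a, a0, a1, a2, a3⟩ := exists_trunc hf hp'
  obtain ⟨b, b0, b1, b2, b3⟩ := exists_trunc hg hq'
  refine le_trans ?_ (pl_trunc h0 h1 hf hg hh H a0 a1 b0 b1 a2 b2)
  gcongr
  · exact ((ENNReal.rpow_inv_lt_iff h2).1 a3).le
  · exact ((ENNReal.rpow_inv_lt_iff h0).1 b3).le

theorem PL.prod {X Y : Type*} [AddCommGroup X] [Module ℝ X] [MeasurableSpace X]
    [AddCommGroup Y] [Module ℝ Y] [MeasurableSpace Y] {μ : Measure X} {ν : Measure Y}
    [SFinite ν] (hμ : PL μ) (hν : PL ν) : PL (μ.prod ν) := by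
  intro θ h0 h1 f g h hf hg hh H
  rw [lintegral_prod _ hf.aemeasurable, lintegral_prod _ hg.aemeasurable,
    lintegral_prod _ hh.aemeasurable]
  refine hμ θ h0 h1 _ _ _ hf.lintegral_prod_right' hg.lintegral_prod_right'
    hh.lintegral_prod_right' fun x y => ?_
  exact hν θ h0 h1 _ _ _ (hf.comp measurable_prodMk_left) (hg.comp measurable_prodMk_left)
    (hh.comp measurable_prodMk_left) fun a b => H (x, a) (y, b)

theorem PL.of_mp {X Y : Type*} [AddCommGroup X] [Module ℝ X] [MeasurableSpace X]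
    [AddCommGroup Y] [Module ℝ Y] [MeasurableSpace Y] {μ : Measure X} {ν : Measure Y}
    (hμ : PL μ) (e : X → Y) (he : MeasurePreserving e μ ν)
    (hl : ∀ (a b : ℝ) (x y : X), e (a • x + b • y) = a • e x + b • e y) : PL ν := by
  intro θ h0 h1 f g h hf hg hh H
  rw [← he.lintegral_comp hf, ← he.lintegral_comp hg, ← he.lintegral_comp hh]
  refine hμ θ h0 h1 _ _ _ (hf.comp he.measurable) (hg.comp he.measurable)
    (hh.comp he.measurable) fun x y => ?_
  rw [hl]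
  exact H _ _

theorem pl_pi : ∀ n : ℕ, PL (volume : Measure (Fin n → ℝ))
  | 0 => by
    intro θ h0 h1 f g h hf hg hh H
    have : (volume : Measure (Fin 0 → ℝ)) = Measure.dirac 0 := Measure.volume_pi_eq_dirac 0
    rw [this, lintegral_dirac, lintegral_dirac, lintegral_dirac]
    simpa using H 0 0
  | n + 1 => by
    refine (pl_real.prod (pl_pi n)).of_mp _
      (volume_preserving_piFinSuccAbove (fun _ : Fin (n + 1) => ℝ) 0).symm ?_
    intro a b x y
    ext i
    refine Fin.cases ?_ (fun i => ?_) i <;> simp [Fin.insertNthEquiv]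

theorem pl_euclidean (n : ℕ) : PL (volume : Measure (EuclideanSpace ℝ (Fin n))) :=
  (pl_pi n).of_mp _ (PiLp.volume_preserving_toLp (Fin n)) (by intro a b x y; simp)

end Pool.Agent.Lib.MP_fedf83_gt.B
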