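import Pool.Agent.Lib.MP_fedf83_gt.BTail

namespace Pool.Agent.Lib.MP_fedf83_gt.B

open MeasureTheory Module Set Filter Topology
open scoped ENNReal Pointwise

variable {n : ℕ}

theorem good_diam (hn : 1 ≤ n) {K : Set (E n)} (hK : IsBody K) {ν δ θ T : ℝ} (hν : 0 < ν)
    (y : ℝ × E n) {p q : E n}
    (hp : (T, T • p) - y ∉ bad K ν δ θ) (hq : (T, T • q) - y ∉ bad K ν δ θ) :
    (1 + ν) * ‖(δ * T / 2) • (p - q)‖ * (sigma (n - 1) K).toReal / (n * (volume K).toReal) ≤
      θ + δ * (T - y.1) * (ν - 1) / 2 := by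
  have hκ : 0 < 1 + ν := by linarith
  have M0 : MM K (1 + ν) 0 ≠ 0 := by rw [MM_zero]; exact ZZ_ne_zero hK hκ
  have M1 : MM K (1 + ν) 0 ≠ ⊤ := by rw [MM_zero]; exact ZZ_ne_top hK hκ
  have key : ∀ p : E n, (T, T • p) - y ∉ bad K ν δ θ →
      ex (-θ - ν * (δ * (T - y.1))) * MM K (1 + ν) 0 ≤ MM K (1 + ν) (δ • ((T, T • p) - y)) := by
    intro p hp
    have h1 : ex (-θ) * HD K ν 0 ≤ HD K ν (δ • ((T, T • p) - y)) := (not_le.1 hp).le
    rw [HD_zero, HD] at h1
    rw [← ENNReal.mul_le_mul_iff_right (ex_ne_zero (ν * (δ • ((T, T • p) - y)).1)) (ex_ne_top _),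
      ← mul_assoc, ← ex_add]
    refine le_trans (le_of_eq ?_) h1
    congr 2
    simp
  have h1 := key p hp
  have h2 := key q hq
  have h3 := MM_neg hK.1.measurableSet (1 + ν) (δ • ((T, T • q) - y))
  have h4 := MM_logConcave hK (1 + ν) (θ := 1 / 2) (by norm_num) (by norm_num)
    (δ • ((T, T • p) - y)) (-(δ • ((T, T • q) - y)))
  have e : (1 - 1 / 2 : ℝ) • δ • (((T, T • p) : ℝ × E n) - y) +
      (1 / 2 : ℝ) • -(δ • ((T, T • q) - y)) = (0, (δ * T / 2) • (p - q)) := by
    ext1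
    · simp; ring
    · simp only [Prod.snd_add, Prod.smul_snd, Prod.snd_sub, Prod.snd_neg]
      module
  rw [e, h3] at h4
  have h5 := h4.trans (MM_horiz hn hK hκ _)
  have h6 : ex (-θ - δ * (T - y.1) * (ν - 1) / 2) * MM K (1 + ν) 0 ≤
      MM K (1 + ν) (δ • ((T, T • p) - y)) ^ (1 - 1 / 2 : ℝ) *
      (ex ((1 + ν) * (δ • (((T, T • q) : ℝ × E n) - y)).1) *
        MM K (1 + ν) (δ • ((T, T • q) - y))) ^ (1 / 2 : ℝ) := by
    refine le_trans (le_of_eq ?_) (mul_le_mul' (ENNReal.rpow_le_rpow h1 (by norm_num))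
      (ENNReal.rpow_le_rpow (mul_le_mul_right h2 _) (by norm_num)))
    rw [← mul_assoc (ex _) (ex _), ← ex_add, ENNReal.mul_rpow_of_nonneg _ _ (by norm_num),
      ENNReal.mul_rpow_of_nonneg _ _ (by norm_num), mul_mul_mul_comm, ex_rpow, ex_rpow, ← ex_add,
      ← ENNReal.rpow_add_of_nonneg _ _ (by norm_num) (by norm_num)]
    congr 1
    · congr 1
      simp; ring
    · norm_num
  have h7 := h6.trans h5
  rw [ENNReal.mul_le_mul_iff_left M0 M1, ex_le_ex] at h7
  linarith

theorem exists_good (hn : 1 ≤ n) {K : Set (E n)} (hK : IsBody K) {ν ε η : ℝ} (hν : 1 ≤ ν)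
    (h0 : 0 < ε) (h1 : ε < 1) (hη1 : η ≤ 1)
    (hη : (Real.exp (-(ε / 2 * (1 + ε))) / (1 - ε / 2)) ^ (n + 1) +
      2 * (Real.exp (ε * (1 - ε)) / (1 + ε)) ^ (n + 1) < η) :
    ∃ S ⊆ K, MeasurableSet S ∧ ENNReal.ofReal (1 - η) * volume K ≤ volume S ∧
      ∀ p ∈ S, ∀ q ∈ S, ‖p - q‖ * (sigma (n - 1) K).toReal ≤
        ((ν - 1) ^ 2 / ν + 2 * (1 + ε) / (1 - ε)) / (1 + ν) * n * (volume K).toReal := by
  have hKm := hK.1.measurableSet
  have ν0 : 0 < ν := by linarith
  set δ := ε / 2 with hδ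
  set θ := δ * (1 + ε) * (n + 1) with hθ
  set a := (1 - ε) * (n + 1) with ha
  have mB := measurableSet_bad hKm ν δ θ
  have mA : ∀ a : ℝ, MeasurableSet {w : ℝ × E n | w.1 < a} := fun a =>
    measurableSet_lt measurable_fst measurable_const
  have mB' : Measurable ((bad K ν δ θ).indicator (1 : ℝ × E n → ℝ≥0∞)) :=
    measurable_one.indicator mB
  have mA' : ∀ a : ℝ, Measurable ({w : ℝ × E n | w.1 < a}.indicator (1 : ℝ × E n → ℝ≥0∞)) :=
    fun a => measurable_one.indicator (mA a)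
  have m1 := measurable_wt hKm 1
  have m2 := measurable_wt hKm ν
  have mA1 := mA' a
  have mA2 := mA' (a / ν)
  have Z0 : ZZ K ν * ZZ K 1 ≠ 0 := mul_ne_zero (ZZ_ne_zero hK ν0) (ZZ_ne_zero hK one_pos)
  have Z1 : ZZ K ν * ZZ K 1 ≠ ⊤ := ENNReal.mul_ne_top (ZZ_ne_top hK ν0) (ZZ_ne_top hK one_pos)
  have η0 : 0 < η := by
    refine lt_of_le_of_lt ?_ hη
    have : 0 < 1 - δ := by linarith
    positivity
  obtain ⟨y, hy, T, hT, h⟩ := select hK ν0 (η := ENNReal.ofReal η)
    (β := fun p => (bad K ν δ θ).indicator 1 (p.1 - p.2) +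
      {w : ℝ × E n | w.1 < a}.indicator 1 p.1 + {w : ℝ × E n | w.1 < a / ν}.indicator 1 p.2)
    (by fun_prop) (by
      have e : ∀ y : ℝ × E n, ∫⁻ x, wt K ν y * (wt K 1 x * ((bad K ν δ θ).indicator 1 (x - y) +
          {w : ℝ × E n | w.1 < a}.indicator 1 x + {w : ℝ × E n | w.1 < a / ν}.indicator 1 y)) =
          (∫⁻ x, wt K ν y * (wt K 1 x * (bad K ν δ θ).indicator 1 (x - y))) +
          wt K ν y * (∫⁻ x, wt K 1 x * {w : ℝ × E n | w.1 < a}.indicator 1 x) +
          wt K ν y * {w : ℝ × E n | w.1 < a / ν}.indicator 1 y * ZZ K 1 := by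
        intro y
        change _ = _ + _ + _ * ∫⁻ x, wt K 1 x
        rw [← lintegral_const_mul _ (by fun_prop), ← lintegral_const_mul _ (by fun_prop),
          ← lintegral_add_left (by fun_prop), ← lintegral_add_left (by fun_prop)]
        congr with x
        ring
      simp only [e]
      rw [lintegral_add_left, lintegral_add_left, pair_int hKm ν mB',
        lintegral_mul_const _ m2, lintegral_mul_const _ (by fun_prop)]
      · have b1 := bad_tail hK ν0 (δ := δ) (by positivity) (by linarith) θ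
        have b2 := small_tail hKm one_pos h0 a
        have b3 := small_tail hKm ν0 h0 (a / ν)
        have q1 : Real.exp (-θ) / (1 - δ) ^ (n + 1) =
            (Real.exp (-(δ * (1 + ε))) / (1 - δ)) ^ (n + 1) := by
          rw [div_pow, ← Real.exp_nat_mul]; congr 2; rw [hθ]; push_cast; ring
        have q2 : Real.exp (ε * 1 * a) / (1 + ε) ^ (n + 1) =
            (Real.exp (ε * (1 - ε)) / (1 + ε)) ^ (n + 1) := by
          rw [div_pow, ← Real.exp_nat_mul]; congr 2; rw [ha]; push_cast; ring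
        have q3 : ε * ν * (a / ν) = ε * 1 * a := by field_simp
        rw [q1] at b1
        rw [q3] at b3
        rw [q2] at b2 b3
        have : 0 < 1 - δ := by linarith
        set u := (Real.exp (-(δ * (1 + ε))) / (1 - δ)) ^ (n + 1)
        set v := (Real.exp (ε * (1 - ε)) / (1 + ε)) ^ (n + 1)
        have u0 : 0 ≤ u := by positivity
        have v0 : 0 ≤ v := by positivity
        calc _ ≤ ENNReal.ofReal u * (ZZ K ν * ZZ K 1) + ZZ K ν * (ENNReal.ofReal v * ZZ K 1) +
              ENNReal.ofReal v * ZZ K ν * ZZ K 1 := by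
              gcongr
              exact le_rfl
          _ = ENNReal.ofReal (u + 2 * v) * (ZZ K ν * ZZ K 1) := by
              rw [two_mul, ENNReal.ofReal_add u0 (by positivity), ENNReal.ofReal_add v0 v0]
              ring
          _ < _ := by
              rw [ENNReal.mul_lt_mul_iff_left Z0 Z1, ENNReal.ofReal_lt_ofReal_iff η0]
              exact hη
      · exact Measurable.lintegral_prod_right (f := fun y x =>
          wt K ν y * (wt K 1 x * (bad K ν δ θ).indicator 1 (x - y))) (by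
            unfold Function.uncurry; fun_prop)
      · refine Measurable.add ?_ (by fun_prop)
        exact Measurable.lintegral_prod_right (f := fun y x =>
          wt K ν y * (wt K 1 x * (bad K ν δ θ).indicator 1 (x - y))) (by
            unfold Function.uncurry; fun_prop))
  have hle : ENNReal.ofReal η * volume K ≤ volume K :=
    mul_le_of_le_one_left' (ENNReal.ofReal_le_one.2 hη1)
  have hTa : a ≤ T := by
    by_contra hc
    refine absurd (h.trans_le hle) (not_lt.2 ?_)
    rw [← setLIntegral_one]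
    refine lintegral_mono fun x => ?_
    dsimp only
    rw [indicator_of_mem (show (T, T • x) ∈ {w : ℝ × E n | w.1 < a} from not_le.1 hc)]
    exact le_add_right (le_add_left le_rfl)
  have hya : a / ν ≤ y.1 := by
    by_contra hc
    refine absurd (h.trans_le hle) (not_lt.2 ?_)
    rw [← setLIntegral_one]
    refine lintegral_mono fun x => ?_
    dsimp only
    rw [indicator_of_mem (show y ∈ {w : ℝ × E n | w.1 < a / ν} from not_le.1 hc)]
    exact le_add_left le_rfl
  let B : Set (E n) := {x | (T, T • x) - y ∈ bad K ν δ θ}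
  have mBB : MeasurableSet B :=
    (by fun_prop : Measurable fun x : E n => ((T, T • x) : ℝ × E n) - y) mB
  have hB : volume (B ∩ K) ≤ ENNReal.ofReal η * volume K := by
    refine le_trans ?_ h.le
    rw [← Measure.restrict_apply mBB, ← lintegral_indicator_one mBB]
    refine lintegral_mono fun x => ?_
    refine le_add_right (le_add_right (le_of_eq ?_))
    by_cases hx : x ∈ B
    · rw [indicator_of_mem hx, indicator_of_mem (show _ ∈ bad K ν δ θ from hx)]; rfl
    · rw [indicator_of_notMem hx, indicator_of_notMem (show _ ∉ bad K ν δ θ from hx)]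
  refine ⟨K \ B, sdiff_subset, hKm.diff mBB, ?_, ?_⟩
  · have e := measure_inter_add_sdiff (μ := volume) K mBB
    rw [inter_comm] at e
    refine ENNReal.le_of_add_le_add_left (a := ENNReal.ofReal η * volume K)
      (ENNReal.mul_ne_top (by simp) hK.1.measure_ne_top) ?_
    rw [← add_mul, ← ENNReal.ofReal_add η0.le (by linarith), add_sub_cancel, ENNReal.ofReal_one,
      one_mul]
    calc volume K = volume (B ∩ K) + volume (K \ B) := e.symm
      _ ≤ _ := by gcongr
  · intro p hp q hq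
    have g := good_diam hn hK ν0 y hp.2 hq.2
    have V0 := vol_toReal_pos hK
    have n0 : (0 : ℝ) < n := by exact_mod_cast hn
    have δ0 : 0 < δ := by positivity
    rw [norm_smul, Real.norm_eq_abs, abs_of_pos (by positivity), div_le_iff₀ (by positivity)] at g
    set X := ‖p - q‖ * (sigma (n - 1) K).toReal
    set W := n * (volume K).toReal with hW
    have W0 : 0 < W := by positivity
    have e1 : 0 < 1 - ε := by linarith
    have g1 : (1 + ν) * T * X ≤ (2 * (1 + ε) * (n + 1) + (T - y.1) * (ν - 1)) * W := by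
      have : δ / 2 * ((1 + ν) * T * X) ≤
          δ / 2 * ((2 * (1 + ε) * (n + 1) + (T - y.1) * (ν - 1)) * W) := by
        calc _ = (1 + ν) * (δ * T / 2 * ‖p - q‖) * (sigma (n - 1) K).toReal := by
              simp only [X]; ring
          _ ≤ _ := g
          _ = _ := by rw [hθ]; ring
      exact le_of_mul_le_mul_left this (by positivity)
    have g2 : 2 * (1 + ε) * (n + 1) + (T - y.1) * (ν - 1) ≤
        ((ν - 1) ^ 2 / ν + 2 * (1 + ε) / (1 - ε)) * T := by
      have c1 : 2 * (1 + ε) * (n + 1) = 2 * (1 + ε) / (1 - ε) * a := by rw [ha]; field_simp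
      have c2 : (ν - 1) / ν ≤ 2 * (1 + ε) / (1 - ε) := by
        have : (ν - 1) / ν ≤ 1 := by rw [div_le_one ν0]; linarith
        have : 1 ≤ 2 * (1 + ε) / (1 - ε) := by rw [le_div_iff₀ e1]; linarith
        linarith
      have c3 : a / ν * (ν - 1) ≤ y.1 * (ν - 1) := by gcongr
      have c4 : (ν - 1) ^ 2 / ν = (ν - 1) - (ν - 1) / ν := by field_simp
      have c5 : a / ν * (ν - 1) = (ν - 1) / ν * a := by ring
      have c6 := mul_le_mul_of_nonneg_left hTa (sub_nonneg.2 c2)
      rw [c1, c4]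
      nlinarith
    rw [mul_assoc, ← hW, div_mul_eq_mul_div, le_div_iff₀ (by linarith)]
    have g3 : T * (X * (1 + ν)) ≤ T * (((ν - 1) ^ 2 / ν + 2 * (1 + ε) / (1 - ε)) * W) := by
      have := mul_le_mul_of_nonneg_right g2 W0.le
      linarith
    exact le_of_mul_le_mul_left g3 hT

theorem cover_lower (hn : 1 ≤ n) {S : Set (E n)} (hS : MeasurableSet S) {Δ : ℝ≥0∞} (h0 : Δ ≠ 0)
    (h1 : Δ ≠ ⊤) (h : ∀ v : E n, ‖v‖ = 1 → ∀ x, volume {t : ℝ | x + t • v ∈ S} ≤ Δ)
    {ι : Type} [Countable ι] (G : ι → Set (E n)) (hG : ∀ i, MeasurableSet (G i))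
    (hc : S ⊆ ⋃ i, G i) : volume S ≤ Δ * ∑' i, sigma (n - 1) (G i) := by
  have key : ∀ i, volume (G i ∩ S) ≤ Δ * sigma (n - 1) (G i) := by
    intro i
    unfold sigma
    rw [ENNReal.mul_iInf_of_ne h0 h1]
    refine le_iInf fun L => ?_
    rw [ENNReal.mul_iInf_of_ne h0 h1]
    refine le_iInf fun hL => ?_
    obtain ⟨h1, v, hv, hvL⟩ := exists_normal hn L hL
    have hv0 : v ≠ 0 := by rintro rfl; simp at hv
    have := le_proj L hv0 hvL h1 (K := G i) ((hG i).inter hS) Δ
      (fun x hx => ⟨x, hx.1, 0, by simp⟩)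
      (fun x => le_trans (measure_mono fun t ht => ht.2) (h v hv x))
    rw [← ofReal_norm, hv] at this
    simpa [projVol] using this
  calc volume S ≤ volume (⋃ i, G i ∩ S) := by
        refine measure_mono fun x hx => ?_
        obtain ⟨i, hi⟩ := mem_iUnion.1 (hc hx)
        exact mem_iUnion.2 ⟨i, hi, hx⟩
    _ ≤ ∑' i, volume (G i ∩ S) := measure_iUnion_le _
    _ ≤ ∑' i, Δ * sigma (n - 1) (G i) := ENNReal.tsum_le_tsum key
    _ = _ := ENNReal.tsum_mul_left

theorem chord_le_of_diam {S : Set (E n)} {Δ : ℝ} (h : ∀ p ∈ S, ∀ q ∈ S, ‖p - q‖ ≤ Δ)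
    (v : E n) (hv : ‖v‖ = 1) (x : E n) : volume {t : ℝ | x + t • v ∈ S} ≤ ENNReal.ofReal Δ := by
  refine (Real.volume_le_diam _).trans (Metric.ediam_le_of_forall_dist_le fun s hs t ht => ?_)
  have := h _ hs _ ht
  rwa [add_sub_add_left_eq_sub, ← sub_smul, norm_smul, hv, mul_one] at this

theorem sigma_toReal_pos (hn : 1 ≤ n) {K : Set (E n)} (hK : IsBody K) :
    0 < (sigma (n - 1) K).toReal := by
  refine ENNReal.toReal_pos (fun h => vol_ne_zero hK ?_) (sigma_lt_top hn hK.1).ne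
  obtain ⟨T, hT⟩ := hK.1.isBounded.exists_norm_le
  have := cover_lower hn hK.1.measurableSet (Δ := ENNReal.ofReal (2 * |T| + 1))
    (by simp; positivity) (by simp) (chord_le_of_diam fun p hp q hq => by
      linarith [norm_sub_le p q, hT p hp, hT q hq, le_abs_self T])
    (ι := Unit) (fun _ => K) (fun _ => hK.1.measurableSet) (by simp [iUnion_const])
  simpa [h] using this

/-- From a large subset with short chords to a lower bound for the constant. -/
theorem le_cst_of_good (hn : 1 ≤ n) {a β : ℝ} (hβ : 0 < β)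
    (h : ∀ K : Set (E n), IsBody K → ∃ S ⊆ K, MeasurableSet S ∧
      ENNReal.ofReal a * volume K ≤ volume S ∧
      ∀ v : E n, ‖v‖ = 1 → ∀ x, volume {t : ℝ | x + t • v ∈ S} ≤
        ENNReal.ofReal (β * n * (volume K).toReal / (sigma (n - 1) K).toReal)) :
    ENNReal.ofReal (a / (β * n)) ≤ cst n (n - 1) := by
  refine le_cst fun K hK ι _ G hG hc => ?_
  obtain ⟨S, hS, hm, h1, h2⟩ := h K hK
  have V0 := vol_toReal_pos hK
  have σ0 := sigma_toReal_pos hn hK
  have n0 : (0 : ℝ) < n := by exact_mod_cast hn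
  have σ1 := (sigma_lt_top hn hK.1).ne
  have hΔ : 0 < β * n * (volume K).toReal / (sigma (n - 1) K).toReal := by positivity
  have h3 := h1.trans (cover_lower hn hm (by simpa using hΔ) (by simp) h2 G
    (fun i => (hG i).1.measurableSet) (hS.trans hc))
  rw [ENNReal.le_div_iff_mul_le (Or.inl (by rintro h; simp [h] at σ0)) (Or.inl σ1),
    ← ENNReal.mul_le_mul_iff_right (a := ENNReal.ofReal
      (β * n * (volume K).toReal / (sigma (n - 1) K).toReal)) (by simpa using hΔ) (by simp)]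
  refine le_trans (le_of_eq ?_) h3
  rw [← mul_assoc, ← ENNReal.ofReal_mul hΔ.le]
  conv_lhs => rw [← ENNReal.ofReal_toReal σ1]
  conv_rhs => rw [← ENNReal.ofReal_toReal hK.1.measure_ne_top]
  rw [← ENNReal.ofReal_mul' σ0.le, ← ENNReal.ofReal_mul' V0.le]
  congr 1
  simp only [ENNReal.toReal_ofReal σ0.le]
  field_simp

theorem asymptotic {γ : ℝ} (hγ : γ < (1 + √2) / 2) :
    ∃ N : ℕ, ∀ n ≥ N, ENNReal.ofReal (γ / n) ≤ cst n (n - 1) := by
  have s2 : √2 * √2 = 2 := Real.mul_self_sqrt (by norm_num)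
  have s0 : 1 < √2 := by rw [Real.lt_sqrt (by norm_num)]; norm_num
  set ν := 1 + √2 with hν
  let β : ℝ → ℝ := fun ε => ((ν - 1) ^ 2 / ν + 2 * (1 + ε) / (1 - ε)) / (1 + ν)
  have hβ0 : β 0 = 2 / ν := by
    simp only [β, hν]
    field_simp
    nlinarith
  have hc : ContinuousAt (fun ε => (1 - ε) / β ε) 0 := by
    refine ContinuousAt.div (by fun_prop) ?_ (by rw [hβ0]; positivity)
    simp only [β]
    exact ContinuousAt.div_const (ContinuousAt.add continuousAt_const
      (ContinuousAt.div (by fun_prop) (by fun_prop) (by norm_num))) _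
  have h1 : γ < (1 - 0) / β 0 := by rw [hβ0]; simpa using hγ
  obtain ⟨ε, hε, h0, h2⟩ : ∃ ε, γ < (1 - ε) / β ε ∧ 0 < ε ∧ ε < 1 := by
    have e1 : ∀ᶠ ε in 𝓝[>] (0 : ℝ), γ < (1 - ε) / β ε :=
      (hc.eventually (lt_mem_nhds h1)).filter_mono nhdsWithin_le_nhds
    exact (e1.and (Ioo_mem_nhdsGT one_pos)).exists
  have e1 : 0 < 1 - ε := by linarith
  have β0 : 0 < β ε := by simp only [β]; positivity
  have q1 : Real.exp (-(ε / 2 * (1 + ε))) / (1 - ε / 2) < 1 := by
    rw [div_lt_one (by linarith), Real.exp_neg, inv_lt_comm₀ (Real.exp_pos _) (by linarith)]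
    refine lt_of_lt_of_le ?_ (Real.add_one_le_exp _)
    rw [inv_lt_iff_one_lt_mul₀ (by linarith)]
    nlinarith [mul_pos h0 e1, mul_pos (mul_pos h0 h0) e1]
  have q2 : Real.exp (ε * (1 - ε)) / (1 + ε) < 1 := by
    rw [div_lt_one (by linarith)]
    have a := Real.add_one_le_exp (-(ε * (1 - ε)))
    have b : Real.exp (-(ε * (1 - ε))) * Real.exp (ε * (1 - ε)) = 1 := by
      rw [← Real.exp_add]; simp
    have c := Real.exp_pos (ε * (1 - ε))
    by_contra hc
    have hc := not_lt.1 hc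
    have d : 0 < -(ε * (1 - ε)) + 1 := by nlinarith
    have : (-(ε * (1 - ε)) + 1) * (1 + ε) ≤ 1 := by
      exact le_of_le_of_eq (mul_le_mul a hc (by linarith) (Real.exp_pos _).le) b
    nlinarith [mul_pos (mul_pos h0 h0) h0]
  have t1 := tendsto_pow_atTop_nhds_zero_of_lt_one
    (div_nonneg (Real.exp_pos _).le (by linarith)) q1
  have t2 := tendsto_pow_atTop_nhds_zero_of_lt_one
    (div_nonneg (Real.exp_pos _).le (by linarith)) q2
  have t3 := (t1.add (t2.const_mul 2)).comp (tendsto_add_atTop_nat 1)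
  simp only [mul_zero, add_zero] at t3
  obtain ⟨N, hN⟩ := eventually_atTop.1 (t3.eventually (gt_mem_nhds h0))
  refine ⟨max N 1, fun n hn => ?_⟩
  have hn1 : 1 ≤ n := le_of_max_le_right hn
  have n0 : (0 : ℝ) < n := by exact_mod_cast hn1
  refine le_trans ?_ (le_cst_of_good hn1 (a := 1 - ε) β0 fun K hK => ?_)
  · apply ENNReal.ofReal_le_ofReal
    rw [← div_div]
    gcongr
  · obtain ⟨S, s1, s2, s3, s4⟩ := exists_good hn1 hK (ν := ν) (by linarith) h0 h2 h2.le
      (hN n (le_of_max_le_left hn))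
    refine ⟨S, s1, s2, s3, chord_le_of_diam fun p hp q hq => ?_⟩
    rw [le_div_iff₀ (sigma_toReal_pos hn1 hK)]
    exact s4 p hp q hq

end Pool.Agent.Lib.MP_fedf83_gt.B
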