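import Pool.Agent.Lib.MP_fedf83_gt.BThin
import Pool.Agent.Lib.MP_fedf83_gt.PL

namespace Pool.Agent.Lib.MP_fedf83_gt.B

open MeasureTheory Module Set
open scoped ENNReal Pointwise

variable {n : ℕ}

instance haar_prod : (volume : Measure (ℝ × E n)).IsAddHaarMeasure :=
  inferInstanceAs ((volume : Measure ℝ).prod (volume : Measure (E n))).IsAddHaarMeasure

/-- The open-ended cone over `K`. -/
def cone (K : Set (E n)) : Set (ℝ × E n) := {p | 0 < p.1 ∧ p.1⁻¹ • p.2 ∈ K}

theorem measurableSet_cone {K : Set (E n)} (hK : MeasurableSet K) : MeasurableSet (cone K) :=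
  (measurableSet_lt measurable_const measurable_fst).inter
    ((measurable_fst.inv.smul measurable_snd) hK)

theorem cone_comb {K : Set (E n)} (hK : Convex ℝ K) {p q : ℝ × E n} (hp : p ∈ cone K)
    (hq : q ∈ cone K) {a b : ℝ} (ha : 0 < a) (hb : 0 < b) : a • p + b • q ∈ cone K := by
  obtain ⟨p0, p1⟩ := hp
  obtain ⟨q0, q1⟩ := hq
  have ht : 0 < a * p.1 + b * q.1 := by positivity
  refine ⟨ht, ?_⟩
  have := hK p1 q1 (a := a * p.1 / (a * p.1 + b * q.1)) (b := b * q.1 / (a * p.1 + b * q.1))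
    (by positivity) (by positivity) (by field_simp)
  convert this using 1
  simp only [Prod.fst_add, Prod.smul_fst, smul_eq_mul, Prod.snd_add, Prod.smul_snd, smul_add,
    smul_smul]
  congr 2 <;> field_simp

/-- Exponential weight. -/
noncomputable def ex (t : ℝ) : ℝ≥0∞ := ENNReal.ofReal (Real.exp t)

theorem ex_add (s t : ℝ) : ex (s + t) = ex s * ex t := by
  rw [ex, Real.exp_add, ENNReal.ofReal_mul (Real.exp_pos _).le]; rfl

theorem ex_rpow (t θ : ℝ) : ex t ^ θ = ex (θ * t) := by
  rw [ex, ENNReal.ofReal_rpow_of_pos (Real.exp_pos _), ← Real.exp_mul, mul_comm]; rfl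

theorem ex_zero : ex 0 = 1 := by simp [ex]

theorem ex_ne_zero (t : ℝ) : ex t ≠ 0 := by simp [ex, Real.exp_pos]

theorem ex_ne_top (t : ℝ) : ex t ≠ ⊤ := by simp [ex]

theorem ex_le_ex {s t : ℝ} : ex s ≤ ex t ↔ s ≤ t := by
  rw [ex, ex, ENNReal.ofReal_le_ofReal_iff (Real.exp_pos _).le, Real.exp_le_exp]

@[fun_prop]
theorem measurable_ex : Measurable ex := by unfold ex; fun_prop

/-- The integrand of the weighted covariogram. -/
noncomputable def Mi (K : Set (E n)) (κ : ℝ) (d w : ℝ × E n) : ℝ≥0∞ :=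
  {w | w ∈ cone K ∧ w - d ∈ cone K}.indicator (fun w => ex (-(κ * w.1))) w

/-- The weighted covariogram of the cone. -/
noncomputable def MM (K : Set (E n)) (κ : ℝ) (d : ℝ × E n) : ℝ≥0∞ := ∫⁻ w, Mi K κ d w

theorem measurable_Mi {K : Set (E n)} (hK : MeasurableSet K) (κ : ℝ) :
    Measurable (Function.uncurry (Mi K κ)) := by
  have h : MeasurableSet {p : (ℝ × E n) × (ℝ × E n) | p.2 ∈ cone K ∧ p.2 - p.1 ∈ cone K} :=
    (measurable_snd (measurableSet_cone hK)).inter
      ((measurable_snd.sub measurable_fst) (measurableSet_cone hK))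
  have : Function.uncurry (Mi K κ) =
      {p : (ℝ × E n) × (ℝ × E n) | p.2 ∈ cone K ∧ p.2 - p.1 ∈ cone K}.indicator
        (fun p => ex (-(κ * p.2.1))) := by
    ext p
    simp [Mi, Function.uncurry, indicator]
  rw [this]
  exact Measurable.indicator (by fun_prop) h

theorem measurable_Mi' {K : Set (E n)} (hK : MeasurableSet K) (κ : ℝ) (d : ℝ × E n) :
    Measurable (Mi K κ d) := (measurable_Mi hK κ).comp measurable_prodMk_left

theorem measurable_MM {K : Set (E n)} (hK : MeasurableSet K) (κ : ℝ) : Measurable (MM K κ) :=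
  (measurable_Mi hK κ).lintegral_prod_right

theorem MM_logConcave {K : Set (E n)} (hK : IsBody K) (κ : ℝ) {θ : ℝ} (h0 : 0 < θ) (h1 : θ < 1)
    (d e : ℝ × E n) : MM K κ d ^ (1 - θ) * MM K κ e ^ θ ≤ MM K κ ((1 - θ) • d + θ • e) := by
  have hm := measurable_Mi' hK.1.measurableSet κ
  have h2 : 0 < 1 - θ := by linarith
  refine (pl_real.prod (pl_euclidean n)) θ h0 h1 _ _ _ (hm _) (hm _) (hm _) fun x y => ?_
  unfold Mi
  by_cases hx : x ∈ {w | w ∈ cone K ∧ w - d ∈ cone K}
  · by_cases hy : y ∈ {w | w ∈ cone K ∧ w - e ∈ cone K}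
    · have : (1 - θ) • x + θ • y ∈
          {w | w ∈ cone K ∧ w - ((1 - θ) • d + θ • e) ∈ cone K} := by
        refine ⟨cone_comb hK.2.1 hx.1 hy.1 h2 h0, ?_⟩
        convert cone_comb hK.2.1 hx.2 hy.2 h2 h0 using 1
        module
      rw [indicator_of_mem hx, indicator_of_mem hy, indicator_of_mem this, ex_rpow, ex_rpow,
        ← ex_add, ex_le_ex]
      simp only [Prod.fst_add, Prod.smul_fst, smul_eq_mul]
      exact le_of_eq (by ring)
    · rw [indicator_of_notMem hy, ENNReal.zero_rpow_of_pos h0]; simp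
  · rw [indicator_of_notMem hx, ENNReal.zero_rpow_of_pos h2]; simp

theorem MM_neg {K : Set (E n)} (hK : MeasurableSet K) (κ : ℝ) (d : ℝ × E n) :
    MM K κ (-d) = ex (κ * d.1) * MM K κ d := by
  unfold MM
  rw [← lintegral_sub_right_eq_self _ d, ← lintegral_const_mul _ (measurable_Mi' hK κ d)]
  congr with w
  unfold Mi
  by_cases hw : w ∈ {w | w ∈ cone K ∧ w - d ∈ cone K}
  · rw [indicator_of_mem hw, indicator_of_mem (by simpa using hw.symm), ← ex_add]
    congr 1
    simp only [Prod.fst_sub]; ring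
  · rw [indicator_of_notMem hw, indicator_of_notMem (by simpa [and_comm] using hw), mul_zero]

theorem lintegral_smul_arg {V : Type*} [NormedAddCommGroup V] [NormedSpace ℝ V]
    [MeasurableSpace V] [BorelSpace V] [FiniteDimensional ℝ V] (μ : Measure V)
    [μ.IsAddHaarMeasure] {f : V → ℝ≥0∞} (hf : Measurable f) {t : ℝ} (ht : 0 < t) :
    ∫⁻ z, f z ∂μ = ENNReal.ofReal (t ^ finrank ℝ V) * ∫⁻ x, f (t • x) ∂μ := by
  rw [← lintegral_map hf (measurable_const_smul t), Measure.map_addHaar_smul μ ht.ne',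
    lintegral_smul_measure, smul_eq_mul, ← mul_assoc, ← ENNReal.ofReal_mul (by positivity),
    abs_of_pos (by positivity), mul_inv_cancel₀ (by positivity)]
  simp

theorem slice {K : Set (E n)} (hK : MeasurableSet K) {φ : ℝ × E n → ℝ≥0∞} (hφ : Measurable φ) :
    ∫⁻ w, (cone K).indicator φ w =
      ∫⁻ t in Ioi (0 : ℝ), ENNReal.ofReal (t ^ n) * ∫⁻ x in K, φ (t, t • x) := by
  have hm := hφ.indicator (measurableSet_cone hK)
  rw [Measure.volume_eq_prod, lintegral_prod _ hm.aemeasurable,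
    ← lintegral_indicator measurableSet_Ioi]
  congr with t
  by_cases ht : 0 < t
  · rw [indicator_of_mem (show t ∈ Ioi 0 from ht),
      lintegral_smul_arg volume (f := fun y => (cone K).indicator φ (t, y))
        (hm.comp measurable_prodMk_left) ht, ← lintegral_indicator hK]
    simp only [finrank_euclideanSpace, Fintype.card_fin]
    congr with x
    by_cases hx : x ∈ K
    · rw [indicator_of_mem hx, indicator_of_mem]
      exact ⟨ht, by simpa [smul_smul, ht.ne'] using hx⟩
    · rw [indicator_of_notMem hx, indicator_of_notMem]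
      rintro ⟨-, h⟩
      exact hx (by simpa [smul_smul, ht.ne'] using h)
  · rw [indicator_of_notMem (show t ∉ Ioi 0 from ht)]
    have : ∀ x : E n, (cone K).indicator φ (t, x) = 0 := fun x =>
      indicator_of_notMem (fun h => ht h.1) _
    simp [this]

theorem gamma_int (k : ℕ) {κ : ℝ} (hκ : 0 < κ) :
    ∫⁻ t in Ioi (0 : ℝ), ENNReal.ofReal (t ^ k) * ex (-(κ * t)) =
      ENNReal.ofReal (k.factorial / κ ^ (k + 1)) := by
  have h := Real.integral_rpow_mul_exp_neg_mul_Ioi (a := (k : ℝ) + 1) (by positivity) hκ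
  rw [Real.Gamma_nat_eq_factorial, add_sub_cancel_right, ← Nat.cast_succ, Real.rpow_natCast] at h
  simp only [Real.rpow_natCast] at h
  have hne : ∫ t in Ioi (0 : ℝ), t ^ k * Real.exp (-(κ * t)) ≠ 0 := by
    rw [h]; positivity
  have h2 := ofReal_integral_eq_lintegral_ofReal (Integrable.of_integral_ne_zero hne)
    (by
      filter_upwards [ae_restrict_mem measurableSet_Ioi] with t ht
      have : 0 < t := ht
      positivity)
  rw [h] at h2
  rw [show (k.factorial : ℝ) / κ ^ (k + 1) = (1 / κ) ^ k.succ * k.factorial by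
    rw [one_div, inv_pow]; field_simp, h2]
  refine setLIntegral_congr_fun measurableSet_Ioi fun t ht => ?_
  have : 0 < t := ht
  simp only [ex]
  rw [ENNReal.ofReal_mul (by positivity)]

/-- Total weight of the cone. -/
noncomputable def ZZ (K : Set (E n)) (κ : ℝ) : ℝ≥0∞ :=
  ∫⁻ w, (cone K).indicator (fun w => ex (-(κ * w.1))) w

theorem ZZ_eq {K : Set (E n)} (hK : MeasurableSet K) {κ : ℝ} (hκ : 0 < κ) :
    ZZ K κ = ENNReal.ofReal (n.factorial / κ ^ (n + 1)) * volume K := by
  rw [ZZ, slice hK (by fun_prop), ← gamma_int n hκ, ← lintegral_mul_const _ (by fun_prop)]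
  congr with t
  simp [mul_assoc]

theorem MM_zero (K : Set (E n)) (κ : ℝ) : MM K κ 0 = ZZ K κ := by
  unfold MM ZZ Mi
  simp

theorem sdiff_shift_ge (L : Submodule ℝ (E n)) {w : E n} (hw : w ≠ 0) (hwL : w ∈ Lᗮ)
    (hL : finrank ℝ Lᗮ = 1) {Q K' : Set (E n)} (hQ : IsCompact Q) (hQc : Convex ℝ Q) {r : ℝ}
    (h : ∀ k ∈ K', k ∈ Q ∧ k + r • w ∈ Q) :
    ‖w‖ₑ * (ENNReal.ofReal r * volume (L.orthogonalProjectionOnto '' K')) ≤
      volume {z | z ∈ Q ∧ z - r • w ∉ Q} := by
  refine proj_le L hw hwL hL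
    (hQ.measurableSet.inter ((measurable_sub_const _) hQ.measurableSet).compl) _ fun k hk => ?_
  let I : Set ℝ := {τ | k + τ • w ∈ Q}
  have hI : IsCompact I := by
    have : Topology.IsClosedEmbedding fun τ : ℝ => k + τ • w :=
      (Homeomorph.addLeft k).isClosedEmbedding.comp (isClosedEmbedding_smul_left hw)
    exact this.isCompact_preimage hQ
  have hIc : Convex ℝ I := by
    intro a ha b hb s t hs ht hst
    have := hQc ha hb hs ht hst
    change k + (s • a + t • b) • w ∈ Q
    convert this using 1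
    have e : k = s • k + t • k := by rw [← add_smul, hst, one_smul]
    conv_lhs => rw [e]
    simp only [smul_eq_mul]
    module
  have h0 : (0 : ℝ) ∈ I := by simpa [I] using (h k hk).1
  have hr : r ∈ I := (h k hk).2
  obtain ⟨α, hα, hα'⟩ := hI.exists_isLeast ⟨0, h0⟩
  have : Ico α (α + r) ⊆ {t : ℝ | k + t • w ∈ {z | z ∈ Q ∧ z - r • w ∉ Q}} := by
    intro t ht
    refine ⟨hIc.ordConnected.out hα hr ⟨ht.1, by linarith [ht.2, hα' h0]⟩, fun h' => ?_⟩
    have : t - r ∈ I := by
      change k + (t - r) • w ∈ Q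
      convert h' using 1
      module
    linarith [hα' this, ht.2]
  refine le_trans ?_ (measure_mono this)
  simp

theorem vol_proj_affine (L : Submodule ℝ (E n)) (K : Set (E n)) {a : ℝ} (ha : 0 ≤ a) (x : E n) :
    volume (L.orthogonalProjectionOnto '' ((fun k => a • k + x) '' K)) =
      ENNReal.ofReal (a ^ finrank ℝ L) * volume (L.orthogonalProjectionOnto '' K) := by
  have : L.orthogonalProjectionOnto '' ((fun k => a • k + x) '' K) =
      (fun y => y + L.orthogonalProjectionOnto x) '' (a • (L.orthogonalProjectionOnto '' K)) := by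
    rw [← image_smul, image_image, image_image, image_image]
    simp
  rw [this, image_add_right, measure_preimage_add_right, Measure.addHaar_smul_of_nonneg _ ha]

theorem MM_step (hn : 1 ≤ n) {K : Set (E n)} (hK : IsBody K) {κ : ℝ} (hκ : 0 < κ) {x0 : E n}
    {ε : ℝ} (hb : Metric.closedBall x0 ε ⊆ K) {w : E n} (hw : w ≠ 0) {r ρ : ℝ} (hr : 0 < r)
    (hρ : 0 < ρ) (h : r * ‖w‖ ≤ ρ * ε) :
    MM K κ (0, r • w) + ‖w‖ₑ * (ENNReal.ofReal r * sigma (n - 1) K) *
      (ex (-(κ * ρ)) * ENNReal.ofReal ((n - 1).factorial / κ ^ n)) ≤ MM K κ 0 := by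
  have hKm := hK.1.measurableSet
  have hc := measurableSet_cone hKm
  let D : Set (ℝ × E n) := {p | p ∈ cone K ∧ p - (0, r • w) ∉ cone K}
  have hD : MeasurableSet D := hc.inter ((measurable_sub_const _) hc).compl
  have h1 : MM K κ 0 = MM K κ (0, r • w) + ∫⁻ p, D.indicator (fun w => ex (-(κ * w.1))) p := by
    unfold MM
    rw [← lintegral_add_left (measurable_Mi' hKm κ _)]
    congr with p
    unfold Mi
    by_cases h1 : p ∈ cone K <;> by_cases h2 : p - (0, r • w) ∈ cone K <;>
      simp [indicator, D, h1, h2]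
  rw [h1]
  gcongr
  have hm : Measurable (D.indicator (fun w => ex (-(κ * w.1)))) :=
    Measurable.indicator (by fun_prop) hD
  rw [Measure.volume_eq_prod, lintegral_prod _ hm.aemeasurable,
    ← lintegral_add_right_eq_self _ ρ]
  have hg := gamma_int (n - 1) hκ
  rw [show n - 1 + 1 = n by omega] at hg
  rw [← hg, ← lintegral_const_mul _ (by fun_prop), ← lintegral_const_mul _ (by fun_prop),
    ← lintegral_indicator measurableSet_Ioi]
  refine lintegral_mono fun t => ?_
  by_cases ht : 0 < t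
  swap
  · rw [indicator_of_notMem (show t ∉ Ioi 0 from ht)]; simp
  rw [indicator_of_mem (show t ∈ Ioi 0 from ht)]
  have ht' : 0 < t + ρ := by linarith
  let L : Submodule ℝ (E n) := (ℝ ∙ w)ᗮ
  have h1 : w ∈ Lᗮ := Submodule.le_orthogonal_orthogonal _ (Submodule.mem_span_singleton_self w)
  have h2 : finrank ℝ Lᗮ = 1 := by
    rw [Submodule.orthogonal_orthogonal, finrank_span_singleton hw]
  have hmem : ∀ k ∈ K, ∀ y ∈ K, t • k + ρ • y ∈ (t + ρ) • K := by
    intro k hk y hy
    have hc : Convex ℝ K := hK.2.1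
    refine ⟨_, hc hk hy (show 0 ≤ t / (t + ρ) by positivity) (show 0 ≤ ρ / (t + ρ) by positivity)
      (by field_simp), ?_⟩
    simp only [smul_add, smul_smul]
    congr 2 <;> field_simp
  have hε : 0 ≤ ε := by
    have : 0 ≤ ρ * ε := le_trans (by positivity) h
    exact nonneg_of_mul_nonneg_right this hρ |> fun h => h
  have key := sdiff_shift_ge L hw h1 h2 (Q := (t + ρ) • K) (K' := (fun k => t • k + ρ • x0) '' K)
    (hK.1.smul _) (hK.2.1.smul _) (r := r) (by
      rintro _ ⟨k, hk, rfl⟩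
      refine ⟨hmem k hk x0 (hb (Metric.mem_closedBall_self hε)), ?_⟩
      have : x0 + (r / ρ) • w ∈ K := by
        apply hb
        rw [mem_closedBall_iff_norm, add_sub_cancel_left, norm_smul, Real.norm_eq_abs,
          abs_of_pos (by positivity), div_mul_eq_mul_div, div_le_iff₀ hρ]
        linarith
      convert hmem k hk _ this using 1
      rw [smul_add, smul_smul, mul_div_cancel₀ _ hρ.ne', add_assoc])
  rw [vol_proj_affine L K ht.le, finrank_orth_span hw] at key
  have h3 : ∫⁻ y : E n, D.indicator (fun w => ex (-(κ * w.1))) (t + ρ, y) =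
      ex (-(κ * (t + ρ))) * volume {z | z ∈ (t + ρ) • K ∧ z - r • w ∉ (t + ρ) • K} := by
    have hQ := (hK.1.smul (t + ρ)).measurableSet
    have hQ' : MeasurableSet {z | z ∈ (t + ρ) • K ∧ z - r • w ∉ (t + ρ) • K} :=
      hQ.inter ((measurable_sub_const _) hQ).compl
    rw [← lintegral_indicator_const hQ']
    congr with y
    have e : ((t + ρ, y) : ℝ × E n) ∈ D ↔
        y ∈ {z | z ∈ (t + ρ) • K ∧ z - r • w ∉ (t + ρ) • K} := by
      simp [D, cone, ht', mem_smul_set_iff_inv_smul_mem₀ ht'.ne']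
    by_cases hy : y ∈ {z | z ∈ (t + ρ) • K ∧ z - r • w ∉ (t + ρ) • K}
    · rw [indicator_of_mem hy, indicator_of_mem (e.2 hy)]
    · rw [indicator_of_notMem hy, indicator_of_notMem (fun h => hy (e.1 h))]
  rw [h3]
  refine le_trans ?_ (mul_le_mul_right key _)
  have hs : sigma (n - 1) K ≤ volume (L.orthogonalProjectionOnto '' K) :=
    iInf₂_le (f := fun (L : Submodule ℝ (E n)) (_ : finrank ℝ L = n - 1) =>
      volume (L.orthogonalProjectionOnto '' K)) _ (finrank_orth_span hw)
  rw [show -(κ * (t + ρ)) = -(κ * ρ) + -(κ * t) by ring, ex_add]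
  calc _ = ex (-(κ * ρ)) * ex (-(κ * t)) * (‖w‖ₑ * (ENNReal.ofReal r *
        (ENNReal.ofReal (t ^ (n - 1)) * sigma (n - 1) K))) := by ring
    _ ≤ _ := by gcongr

end Pool.Agent.Lib.MP_fedf83_gt.B
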