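import Pool.Agent.Lib.MP_fedf83_gt.BCore

namespace Pool.Agent.Lib.MP_fedf83_gt.B

open MeasureTheory Module Set

variable {n : ℕ}

theorem exists_jac (Φ : (Fin n → ℝ) ≃L[ℝ] EuclideanSpace ℝ (Fin n)) :
    ∃ D : ENNReal, D ≠ 0 ∧ D ≠ ⊤ ∧ ∀ A : Set (Fin n → ℝ), volume (Φ '' A) = D * volume A := by
  let e : EuclideanSpace ℝ (Fin n) ≃L[ℝ] (Fin n → ℝ) := EuclideanSpace.equiv (Fin n) ℝ
  let T : (Fin n → ℝ) ≃L[ℝ] (Fin n → ℝ) := Φ.trans e
  refine ⟨ENNReal.ofReal |LinearMap.det (T : (Fin n → ℝ) →ₗ[ℝ] (Fin n → ℝ))|, ?_, by simp, ?_⟩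
  · have := (T.toLinearEquiv.isUnit_det').ne_zero
    simpa using this
  · intro A
    have h1 : Φ '' A = (MeasurableEquiv.toLp 2 (Fin n → ℝ)).symm ⁻¹' (T '' A) := by
      ext x
      simp only [mem_image, mem_preimage]
      constructor
      · rintro ⟨a, ha, rfl⟩; exact ⟨a, ha, rfl⟩
      · rintro ⟨a, ha, h⟩
        refine ⟨a, ha, e.injective h⟩
    rw [h1, (EuclideanSpace.volume_preserving_symm_measurableEquiv_toLp
      (Fin n)).measure_preimage_equiv]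
    exact Measure.addHaar_image_linearMap volume (T : (Fin n → ℝ) →ₗ[ℝ] (Fin n → ℝ)) A

/-- A body in coordinates. -/
def IsBodyC (K : Set (Fin n → ℝ)) : Prop :=
  IsCompact K ∧ Convex ℝ K ∧ (interior K).Nonempty

theorem IsBodyC.image (Φ : (Fin n → ℝ) ≃L[ℝ] EuclideanSpace ℝ (Fin n)) {K : Set (Fin n → ℝ)}
    (h : IsBodyC K) : IsBody (Φ '' K) := by
  refine ⟨h.1.image Φ.continuous, h.2.1.linear_image Φ.toLinearEquiv.toLinearMap, ?_⟩
  have := Φ.toHomeomorph.image_interior K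
  simp only [ContinuousLinearEquiv.coe_toHomeomorph] at this
  rw [← this]
  exact h.2.2.image _

theorem fiber_image (Φ : (Fin n → ℝ) ≃L[ℝ] EuclideanSpace ℝ (Fin n)) (C : Set (Fin n → ℝ))
    (x v : Fin n → ℝ) : {t : ℝ | Φ x + t • Φ v ∈ Φ '' C} = {t : ℝ | x + t • v ∈ C} := by
  ext t
  simp only [mem_ofPred_eq]
  rw [← map_smul, ← map_add, Φ.injective.mem_set_image]

/-- The covering bound in coordinates. -/
theorem cst_le_coords (hn : 1 ≤ n) (Φ : (Fin n → ℝ) ≃L[ℝ] EuclideanSpace ℝ (Fin n))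
    {ι : Type} [Countable ι] {K : Set (Fin n → ℝ)} (hK : IsBodyC K)
    (G : ι → Set (Fin n → ℝ)) (hG : ∀ i, IsBodyC (G i)) (hc : K ⊆ ⋃ i, G i)
    (cost : ι → ENNReal)
    (hcost : ∀ i, ∃ v : Fin n → ℝ, v ≠ 0 ∧ ∃ C : Set (Fin n → ℝ), MeasurableSet C ∧
      (∀ x ∈ G i, 1 ≤ volume {t : ℝ | x + t • v ∈ C}) ∧ volume C ≤ ‖Φ v‖ₑ * cost i)
    (a : ENNReal)
    (hlow : ∀ v : Fin n → ℝ, ‖Φ v‖ = 1 → ∃ C : Set (Fin n → ℝ),
      MeasurableSet C ∧ (∀ x ∈ C, ∃ k ∈ K, ∃ t : ℝ, x = k + t • v) ∧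
      (∀ x, volume {t : ℝ | x + t • v ∈ C} ≤ 1) ∧ a ≤ volume C) :
    cst n (n - 1) ≤ (∑' i, cost i) / a := by
  obtain ⟨D, hD0, hDt, hD⟩ := exists_jac Φ
  have hme : MeasurableEmbedding Φ := Φ.toHomeomorph.measurableEmbedding
  have h1 := cst_le_of_cover (l := n - 1) (hK.image Φ) (fun i => Φ '' G i)
    (fun i => (hG i).image Φ) (by rw [← image_iUnion]; exact image_mono hc)
  have h2 : ∀ i, sigma (n - 1) (Φ '' G i) ≤ D * cost i := by
    intro i
    obtain ⟨v, hv, C, hC, c1, c2⟩ := hcost i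
    have hv' : Φ v ≠ 0 := by simpa using hv
    have := sigma_le hv' (K := Φ '' G i) (hme.measurableSet_image.2 hC) (by
      rintro _ ⟨x, hx, rfl⟩
      rw [fiber_image]; exact c1 x hx)
    rw [hD] at this
    have h3 : ‖Φ v‖ₑ * sigma (n - 1) (Φ '' G i) ≤ ‖Φ v‖ₑ * (D * cost i) := by
      refine this.trans ?_
      rw [mul_left_comm]
      gcongr
    exact (ENNReal.mul_le_mul_iff_right (by simpa using hv) (by simp)).1 h3
  have h3 : D * a ≤ sigma (n - 1) (Φ '' K) := by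
    refine le_sigma hn _ fun v hv => ?_
    obtain ⟨v, rfl⟩ := Φ.surjective v
    obtain ⟨C, hC, c1, c2, c3⟩ := hlow v hv
    refine ⟨Φ '' C, hme.measurableSet_image.2 hC, ?_, ?_, ?_⟩
    · rintro _ ⟨x, hx, rfl⟩
      obtain ⟨k, hk, t, rfl⟩ := c1 x hx
      exact ⟨Φ k, mem_image_of_mem _ hk, t, by simp⟩
    · intro x
      obtain ⟨x, rfl⟩ := Φ.surjective x
      rw [fiber_image]; exact c2 x
    · rw [hD]; gcongr
  refine h1.trans ?_
  calc (∑' i, sigma (n - 1) (Φ '' G i)) / sigma (n - 1) (Φ '' K)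
      ≤ (∑' i, D * cost i) / (D * a) := by
        gcongr with i
        exact h2 i
    _ = _ := by rw [ENNReal.tsum_mul_left, ENNReal.mul_div_mul_left _ _ hD0 hDt]

/-- Front faces have disjoint shadows. -/
theorem front_lower {ι : Type*} (S : Finset ι) (K : Set (Fin n → ℝ)) (v : Fin n → ℝ)
    (g : ι → (Fin n → ℝ) → ℝ) (c : ι → ℝ) (hc : ∀ i ∈ S, 0 < c i)
    (hg : ∀ i ∈ S, ∀ x t, g i (x + t • v) = g i x + t * c i)
    (F : ι → Set (Fin n → ℝ)) (hFK : ∀ i ∈ S, F i ⊆ K) (hF0 : ∀ i ∈ S, ∀ x ∈ F i, g i x = 0)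
    (hF1 : ∀ i ∈ S, ∀ j ∈ S, i ≠ j → ∀ x ∈ F i, 0 < g j x)
    (D : ι → Set (Fin n → ℝ)) (hDm : ∀ i ∈ S, MeasurableSet (D i))
    (hD : ∀ i ∈ S, ∀ x ∈ D i, ∃ f ∈ F i, ∃ τ : ℝ, 0 ≤ τ ∧ τ ≤ 1 ∧ x = f + τ • v) :
    ∃ C : Set (Fin n → ℝ),
      MeasurableSet C ∧ (∀ x ∈ C, ∃ k ∈ K, ∃ t : ℝ, x = k + t • v) ∧
      (∀ x, volume {t : ℝ | x + t • v ∈ C} ≤ 1) ∧ ∑ i ∈ S, volume (D i) ≤ volume C := by
  have key : ∀ i ∈ S, ∀ j ∈ S, ∀ f ∈ F i, ∀ f' ∈ F j, ∀ s : ℝ, f' = f + s • v → i = j ∧ s = 0 := by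
    intro i hi j hj f hf f' hf' s hs
    by_cases hij : i = j
    · subst hij
      refine ⟨rfl, ?_⟩
      have h1 := hg i hi f s
      rw [← hs, hF0 i hi f hf, hF0 i hi f' hf'] at h1
      have := hc i hi
      have h2 : s * c i = 0 := by linarith
      rcases mul_eq_zero.1 h2 with h | h
      · exact h
      · linarith
    · exfalso
      have h1 := hg i hi f s
      rw [← hs, hF0 i hi f hf] at h1
      have h2 := hg j hj f s
      rw [← hs, hF0 j hj f' hf'] at h2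
      have h3 := hF1 i hi j hj hij f hf
      have h4 := hF1 j hj i hi (Ne.symm hij) f' hf'
      have h5 := hc i hi
      have h6 := hc j hj
      have h7 : 0 < s := by
        by_contra h
        have := mul_nonneg (neg_nonneg.2 (not_lt.1 h)) h5.le
        linarith
      have := mul_pos h7 h6
      linarith
  refine ⟨⋃ i ∈ S, D i, Finset.measurableSet_biUnion _ hDm, ?_, ?_, ?_⟩
  · intro x hx
    obtain ⟨i, hi, hx⟩ := mem_iUnion₂.1 hx
    obtain ⟨f, hf, τ, -, -, h⟩ := hD i hi x hx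
    exact ⟨f, hFK i hi hf, τ, h⟩
  · intro x
    rcases eq_empty_or_nonempty {t : ℝ | x + t • v ∈ ⋃ i ∈ S, D i} with h | ⟨t0, h⟩
    · rw [h]; simp
    · obtain ⟨i, hi, hx⟩ := mem_iUnion₂.1 h
      obtain ⟨f, hf, τ, -, -, h⟩ := hD i hi _ hx
      have : {t : ℝ | x + t • v ∈ ⋃ i ∈ S, D i} ⊆ Icc (t0 - τ) (t0 - τ + 1) := by
        intro t ht
        obtain ⟨j, hj, hy⟩ := mem_iUnion₂.1 ht
        obtain ⟨f', hf', τ', h0, h1, h'⟩ := hD j hj _ hy
        have e : f' = f + (t - τ' - (t0 - τ)) • v := by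
          have e1 : f' = x + t • v - τ' • v := by rw [h']; abel
          have e2 : f = x + t0 • v - τ • v := by rw [h]; abel
          rw [e1, e2]; module
        have := (key i hi j hj f hf f' hf' _ e).2
        constructor <;> linarith
      refine (measure_mono this).trans ?_
      simp
  · rw [measure_biUnion_finset _ hDm]
    intro i hi j hj hij
    refine disjoint_left.2 fun x hx hy => hij ?_
    obtain ⟨f, hf, τ, -, -, h⟩ := hD i hi _ hx
    obtain ⟨f', hf', τ', -, -, h'⟩ := hD j hj _ hy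
    have e : f' = f + (τ - τ') • v := by
      have e1 : f' = x - τ' • v := by rw [h']; abel
      rw [e1, h]; module
    exact (key i hi j hj f hf f' hf' _ e).1

end Pool.Agent.Lib.MP_fedf83_gt.B
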