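import Pool.Agent.Lib.MP_fedf83_gt.Defs

namespace Pool.Agent.Lib.MP_fedf83_gt.B

open MeasureTheory Module Set

set_option linter.unusedSectionVars false

/-- Euclidean space. -/
abbrev E (n : ℕ) := EuclideanSpace ℝ (Fin n)

/-- Local name for the constant. -/
noncomputable abbrev cst (n l : ℕ) : ENNReal := c n l

section general
variable {V : Type*} [NormedAddCommGroup V] [InnerProductSpace ℝ V] [FiniteDimensional ℝ V]
  [MeasurableSpace V] [BorelSpace V]

theorem measurable_fiber (L : Submodule ℝ V) (v : V) {S : Set V} (hS : MeasurableSet S) :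
    Measurable fun y : L => volume {t : ℝ | (y : V) + t • v ∈ S} := by
  have hm : MeasurableSet {p : L × ℝ | (p.1 : V) + p.2 • v ∈ S} := by
    have : Continuous fun p : L × ℝ => (p.1 : V) + p.2 • v := by fun_prop
    exact this.measurable hS
  exact measurable_measure_prodMk_left hm

theorem vol_eq_lintegral (L : Submodule ℝ V) {v : V} (hv : v ≠ 0) (hvL : v ∈ Lᗮ)
    (hL : finrank ℝ Lᗮ = 1) {S : Set V} (hS : MeasurableSet S) :
    volume S = ‖v‖ₑ * ∫⁻ y : L, volume {t : ℝ | (y : V) + t • v ∈ S} := by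
  have h := (L.measurePreserving_measurableEquivProd (0 : V)).symm
  rw [InnerProductSpace.euclideanHausdorffMeasure_eq_volume] at h
  rw [← h.measure_preimage_equiv, Measure.volume_eq_prod,
    Measure.prod_apply ((L.measurableEquivProd (0 : V)).symm.measurable hS),
    ← lintegral_const_mul _ (measurable_fiber L v hS)]
  congr with y
  let v' : Lᗮ := ⟨v, hvL⟩
  have hv' : v' ≠ 0 := fun h => hv (congrArg Subtype.val h)
  rw [volume_eq_of_finrank_eq_one hL hv', Measure.smul_apply, Measure.map_apply (by fun_prop)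
    (measurable_prodMk_left ((L.measurableEquivProd (0 : V)).symm.measurable hS)), smul_eq_mul]
  have : (fun x : ℝ => x • v') ⁻¹' (Prod.mk y ⁻¹' ((L.measurableEquivProd (0 : V)).symm ⁻¹' S)) =
      {t : ℝ | (y : V) + t • v ∈ S} := by
    ext t
    simp [v']
  rw [this]
  rfl

theorem exists_decomp (L : Submodule ℝ V) {v : V} (hv : v ≠ 0) (hvL : v ∈ Lᗮ)
    (hL : finrank ℝ Lᗮ = 1) (x : V) :
    ∃ s : ℝ, x = (L.orthogonalProjectionOnto x : V) + s • v := by
  let v' : Lᗮ := ⟨v, hvL⟩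
  have hv' : v' ≠ 0 := fun h => hv (congrArg Subtype.val h)
  have hx : x - L.starProjection x ∈ Lᗮ := L.sub_starProjection_mem_orthogonal x
  obtain ⟨s, hs⟩ := (finrank_eq_one_iff_of_nonzero' v' hv').1 hL ⟨_, hx⟩
  refine ⟨s, ?_⟩
  have : s • v = x - L.starProjection x := congrArg Subtype.val hs
  rw [this, Submodule.starProjection_apply]
  abel

theorem proj_add_smul (L : Submodule ℝ V) {v : V} (hvL : v ∈ Lᗮ) (x : V) (t : ℝ) :
    L.orthogonalProjectionOnto (x + t • v) = L.orthogonalProjectionOnto x := by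
  rw [map_add, map_smul, (Submodule.orthogonalProjectionOnto_eq_zero_iff).2 hvL]
  simp

theorem fiber_shift (x v : V) (s : ℝ) (C : Set V) :
    volume {t : ℝ | (x + s • v) + t • v ∈ C} = volume {t : ℝ | x + t • v ∈ C} := by
  have : {t : ℝ | (x + s • v) + t • v ∈ C} = (fun t => s + t) ⁻¹' {t : ℝ | x + t • v ∈ C} := by
    ext t
    simp [add_smul, add_assoc]
  rw [this, measure_preimage_add]

theorem proj_le (L : Submodule ℝ V) {v : V} (hv : v ≠ 0) (hvL : v ∈ Lᗮ)
    (hL : finrank ℝ Lᗮ = 1) {K C : Set V} (hC : MeasurableSet C) (a : ENNReal)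
    (h : ∀ x ∈ K, a ≤ volume {t : ℝ | x + t • v ∈ C}) :
    ‖v‖ₑ * (a * volume (L.orthogonalProjectionOnto '' K)) ≤ volume C := by
  rw [vol_eq_lintegral L hv hvL hL hC]
  gcongr
  refine le_trans ?_ (mul_meas_ge_le_lintegral (measurable_fiber L v hC) a)
  gcongr
  rintro _ ⟨x, hx, rfl⟩
  obtain ⟨s, hs⟩ := exists_decomp L hv hvL hL x
  have := h x hx
  rw [hs, fiber_shift] at this
  exact this

theorem le_proj (L : Submodule ℝ V) {v : V} (hv : v ≠ 0) (hvL : v ∈ Lᗮ)
    (hL : finrank ℝ Lᗮ = 1) {K C : Set V} (hC : MeasurableSet C) (a : ENNReal)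
    (h1 : ∀ x ∈ C, ∃ k ∈ K, ∃ t : ℝ, x = k + t • v)
    (h2 : ∀ x, volume {t : ℝ | x + t • v ∈ C} ≤ a) :
    volume C ≤ ‖v‖ₑ * (a * volume (L.orthogonalProjectionOnto '' K)) := by
  rw [vol_eq_lintegral L hv hvL hL hC]
  gcongr
  set A := toMeasurable volume (L.orthogonalProjectionOnto '' K)
  have hA : MeasurableSet A := measurableSet_toMeasurable _ _
  calc ∫⁻ y : L, volume {t : ℝ | (y : V) + t • v ∈ C}
      ≤ ∫⁻ y : L, A.indicator (fun _ => a) y := by
        refine lintegral_mono fun y => ?_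
        by_cases hy : y ∈ A
        · simp [hy, h2]
        · have : {t : ℝ | (y : V) + t • v ∈ C} = ∅ := by
            ext t
            simp only [mem_ofPred_eq, mem_empty_iff_false, iff_false]
            intro ht
            obtain ⟨k, hk, s, hs⟩ := h1 _ ht
            apply hy
            refine subset_toMeasurable _ _ ⟨k, hk, ?_⟩
            rw [← proj_add_smul L hvL k s, ← hs, proj_add_smul L hvL]
            simp
          simp [this]
    _ = a * volume A := by rw [lintegral_indicator_const hA]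
    _ = _ := by rw [measure_toMeasurable]

end general

variable {n : ℕ}

theorem finrank_orth_span {v : EuclideanSpace ℝ (Fin n)} (hv : v ≠ 0) :
    finrank ℝ (ℝ ∙ v)ᗮ = n - 1 := by
  have h := (ℝ ∙ v).finrank_add_finrank_orthogonal
  rw [finrank_span_singleton hv, finrank_euclideanSpace, Fintype.card_fin] at h
  omega

/-- Upper bound for the least hyperplane shadow. -/
theorem sigma_le {v : EuclideanSpace ℝ (Fin n)} (hv : v ≠ 0)
    {K C : Set (EuclideanSpace ℝ (Fin n))} (hC : MeasurableSet C)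
    (h : ∀ x ∈ K, 1 ≤ volume {t : ℝ | x + t • v ∈ C}) :
    ‖v‖ₑ * sigma (n - 1) K ≤ volume C := by
  have h1 : v ∈ (ℝ ∙ v)ᗮᗮ := Submodule.le_orthogonal_orthogonal _ (Submodule.mem_span_singleton_self v)
  have h2 : finrank ℝ (ℝ ∙ v)ᗮᗮ = 1 := by
    rw [Submodule.orthogonal_orthogonal, finrank_span_singleton hv]
  have := proj_le (ℝ ∙ v)ᗮ hv h1 h2 hC 1 h
  rw [one_mul] at this
  refine le_trans ?_ this
  gcongr
  unfold sigma
  exact iInf₂_le (f := fun (L : Submodule ℝ (EuclideanSpace ℝ (Fin n))) (_ : finrank ℝ L = n - 1) =>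
    volume (L.orthogonalProjectionOnto '' K)) _ (finrank_orth_span hv)

theorem exists_normal (hn : 1 ≤ n) (L : Submodule ℝ (EuclideanSpace ℝ (Fin n)))
    (hL : finrank ℝ L = n - 1) :
    finrank ℝ Lᗮ = 1 ∧ ∃ v : EuclideanSpace ℝ (Fin n), ‖v‖ = 1 ∧ v ∈ Lᗮ := by
  have h := L.finrank_add_finrank_orthogonal
  rw [hL, finrank_euclideanSpace, Fintype.card_fin] at h
  have h1 : finrank ℝ Lᗮ = 1 := by omega
  refine ⟨h1, ?_⟩
  have : Nontrivial Lᗮ := (Module.finrank_pos_iff (R := ℝ)).1 (by omega)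
  obtain ⟨w, hw⟩ := exists_norm_eq Lᗮ zero_le_one
  exact ⟨w, hw, w.2⟩

/-- Lower bound for the least hyperplane shadow. -/
theorem le_sigma (hn : 1 ≤ n) {K : Set (EuclideanSpace ℝ (Fin n))} (a : ENNReal)
    (h : ∀ v : EuclideanSpace ℝ (Fin n), ‖v‖ = 1 → ∃ C : Set (EuclideanSpace ℝ (Fin n)),
      MeasurableSet C ∧ (∀ x ∈ C, ∃ k ∈ K, ∃ t : ℝ, x = k + t • v) ∧
      (∀ x, volume {t : ℝ | x + t • v ∈ C} ≤ 1) ∧ a ≤ volume C) :
    a ≤ sigma (n - 1) K := by
  refine le_iInf₂ fun L hL => ?_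
  obtain ⟨h1, v, hv, hvL⟩ := exists_normal hn L hL
  obtain ⟨C, hC, c1, c2, c3⟩ := h v hv
  have hv0 : v ≠ 0 := by rintro rfl; simp at hv
  have := le_proj L hv0 hvL h1 hC 1 c1 c2
  rw [← ofReal_norm, hv] at this
  simpa [projVol] using c3.trans this

/-- Upper bound for the constant from one covering indexed by a countable type. -/
theorem cst_le_of_cover {l : ℕ} {ι : Type} [Countable ι] {K : Set (EuclideanSpace ℝ (Fin n))}
    (hK : IsBody K) (G : ι → Set (EuclideanSpace ℝ (Fin n))) (hG : ∀ i, IsBody (G i))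
    (hc : K ⊆ ⋃ i, G i) : cst n l ≤ (∑' i, sigma l (G i)) / sigma l K := by
  unfold cst c
  exact iInf₂_le_of_le K hK (iInf₂_le_of_le ι inferInstance (iInf_le_of_le G (iInf₂_le hG hc)))

theorem le_cst {l : ℕ} {a : ENNReal} (h : ∀ (K : Set (E n)), IsBody K → ∀ (ι : Type) [Countable ι]
    (G : ι → Set (E n)), (∀ i, IsBody (G i)) → K ⊆ ⋃ i, G i →
      a ≤ (∑' i, sigma l (G i)) / sigma l K) : a ≤ cst n l := by
  unfold cst c
  exact le_iInf₂ fun K hK => le_iInf₂ fun ι _ => le_iInf fun G => le_iInf₂ fun hG hc =>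
    h K hK ι G hG hc

end Pool.Agent.Lib.MP_fedf83_gt.B
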