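import Pool.Agent.Lib.MP_fedf83_gt.BAsym

namespace Pool.Agent.Lib.MP_fedf83_gt.B

open MeasureTheory Module Set Filter Topology
open scoped ENNReal Pointwise

variable {n : ℕ}

/-- A centre of bounded asymmetry, by Helly's theorem. -/
theorem exists_center (hn : 1 ≤ n) {K : Set (E n)} (hK : IsBody K) :
    ∃ o ∈ interior K, ∀ x ∈ K, o - (n : ℝ)⁻¹ • (x - o) ∈ K := by
  classical
  have n0 : (0 : ℝ) < n := by exact_mod_cast hn
  obtain ⟨z, hz⟩ := hK.2.2
  let F : K → Set (E n) := fun x => (fun k => ((n : ℝ) + 1)⁻¹ • ((n : ℝ) • k + x.1)) '' K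
  have hc : ∀ x, Convex ℝ (F x) := by
    rintro x _ ⟨a, ha, rfl⟩ _ ⟨b, hb, rfl⟩ s t hs ht hst
    refine ⟨_, hK.2.1 ha hb hs ht hst, ?_⟩
    obtain rfl : t = 1 - s := by linarith
    module
  have hk : ∀ x, IsCompact (F x) := fun x => hK.1.image (by fun_prop)
  obtain ⟨o, ho⟩ := Convex.helly_theorem_compact' (𝕜 := ℝ) hc hk fun I hI => by
    rw [finrank_euclideanSpace, Fintype.card_fin] at hI
    have hI' : (I.card : ℝ) ≤ n + 1 := by exact_mod_cast hI
    refine ⟨((n : ℝ) + 1)⁻¹ • (∑ i ∈ I, i.1 + ((n : ℝ) + 1 - I.card) • z), ?_⟩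
    simp only [mem_iInter]
    intro i hi
    have hcard : ((I.erase i).card : ℝ) = I.card - 1 := by
      rw [Finset.card_erase_of_mem hi, Nat.cast_sub (Finset.card_pos.2 ⟨i, hi⟩)]; simp
    refine ⟨(n : ℝ)⁻¹ • (∑ j ∈ I.erase i, j.1 + ((n : ℝ) + 1 - I.card) • z), ?_, ?_⟩
    · have h := hK.2.1.sum_mem (t := Finset.insertNone (I.erase i))
        (w := fun j => j.elim (((n : ℝ) + 1 - I.card) / n) fun _ => (n : ℝ)⁻¹)
        (z := fun j => j.elim z fun j => j.1)
        (by rintro (_ | j) _ <;> simp only [Option.elim]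
            · exact div_nonneg (by linarith) n0.le
            · positivity)
        (by rw [Finset.sum_insertNone]
            simp only [Option.elim, Finset.sum_const, nsmul_eq_mul, hcard]
            field_simp
            ring)
        (by rintro (_ | j) _
            · exact interior_subset hz
            · exact j.2)
      rw [Finset.sum_insertNone] at h
      simp only [Option.elim] at h
      convert h using 1
      rw [smul_add, Finset.smul_sum, smul_smul, add_comm, div_eq_inv_mul]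
    · dsimp only
      rw [smul_smul, mul_inv_cancel₀ n0.ne', one_smul, ← Finset.add_sum_erase I _ hi]
      congr 1
      abel
  have key : ∀ x ∈ K, o - (n : ℝ)⁻¹ • (x - o) ∈ K := by
    intro x hx
    obtain ⟨k, hk, e⟩ := mem_iInter.1 ho ⟨x, hx⟩
    convert hk using 1
    rw [← e]
    match_scalars <;> field_simp <;> ring
  refine ⟨o, ?_, key⟩
  have := hK.2.1.combo_interior_self_mem_interior hz (key z (interior_subset hz))
    (a := ((n : ℝ) + 1)⁻¹) (b := n * ((n : ℝ) + 1)⁻¹) (by positivity) (by positivity)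
    (by field_simp; ring)
  convert this using 1
  match_scalars <;> field_simp <;> ring

/-- The properties of the gauge of a well centred convex body. -/
structure Gau (K : Set (E n)) (g : E n → ℝ) : Prop where
  cont : Continuous g
  add : ∀ x y, g (x + y) ≤ g x + g y
  hom : ∀ c : ℝ, 0 ≤ c → ∀ x, g (c • x) = c * g x
  mem : ∀ x, x ∈ K ↔ g x ≤ 1
  neg : ∀ x, g (-x) ≤ n * g x
  pos : ∀ x, x ≠ 0 → 0 < g x

theorem exists_gau (hn : 1 ≤ n) {K : Set (E n)} (hK : IsBody K) (h0 : (0 : E n) ∈ interior K)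
    (h : ∀ x ∈ K, -((n : ℝ)⁻¹ • x) ∈ K) : Gau K (gauge K) := by
  have n0 : (0 : ℝ) < n := by exact_mod_cast hn
  have hn0 : K ∈ 𝓝 (0 : E n) := mem_interior_iff_mem_nhds.1 h0
  have ha : Absorbent ℝ K := absorbent_nhds_zero hn0
  have hm : ∀ x, x ∈ K ↔ gauge K x ≤ 1 := fun x => by
    rw [gauge_le_one_iff_mem_closure hK.2.1 hn0, hK.1.isClosed.closure_eq]
  have hh : ∀ c : ℝ, 0 ≤ c → ∀ x, gauge K (c • x) = c * gauge K x := fun c hc x => by
    rw [gauge_smul_of_nonneg hc, smul_eq_mul]
  have hp : ∀ x, x ≠ 0 → 0 < gauge K x := fun x hx =>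
    (gauge_pos ha ((NormedSpace.isVonNBounded_iff ℝ).2 hK.1.isBounded)).2 hx
  refine ⟨continuous_gauge hK.2.1 hn0, gauge_add_le hK.2.1 ha, hh, hm, fun x => ?_, hp⟩
  rcases eq_or_ne x 0 with rfl | hx
  · simp
  have p := hp x hx
  have h1 : (gauge K x)⁻¹ • x ∈ K := by
    rw [hm, hh _ (by positivity), inv_mul_cancel₀ p.ne']
  have h2 := (hm _).1 (h _ h1)
  rw [smul_smul, ← smul_neg, hh _ (by positivity), ← mul_inv, inv_mul_le_iff₀ (by positivity)] at h2
  simpa using h2

namespace Gau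

variable {K : Set (E n)} {g : E n → ℝ}

theorem zero (h : Gau K g) : g 0 = 0 := by simpa using h.hom 0 le_rfl 0

theorem nonneg (h : Gau K g) (x : E n) : 0 ≤ g x := by
  rcases eq_or_ne x 0 with rfl | hx
  · exact h.zero.ge
  · exact (h.pos x hx).le

theorem sub_le (h : Gau K g) {x y : E n} (hx : x ∈ K) (hy : y ∈ K) : g (x - y) ≤ n + 1 := by
  have := h.add x (-y)
  have h1 := h.neg y
  have h2 := (h.mem x).1 hx
  have h3 := mul_le_mul_of_nonneg_left ((h.mem y).1 hy) (Nat.cast_nonneg (α := ℝ) n)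
  rw [sub_eq_add_neg]
  linarith

theorem support (h : Gau K g) {p : E n} (hp : g p = 1) :
    ∃ f : E n →ₗ[ℝ] ℝ, f p = 1 ∧ ∀ x, f x ≤ g x := by
  have p0 : p ≠ 0 := by rintro rfl; simp [h.zero] at hp
  obtain ⟨f, h1, h2⟩ := exists_extension_of_le_sublinear (LinearPMap.mkSpanSingleton p (1 : ℝ) p0) g
    (fun c hc x => h.hom c hc.le x) h.add (by
      rintro ⟨x, hx⟩
      obtain ⟨c, rfl⟩ := Submodule.mem_span_singleton.1 hx
      rw [LinearPMap.mkSpanSingleton'_apply]
      rcases le_total 0 c with hc | hc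
      · simp [h.hom c hc, hp]
      · simpa using hc.trans (h.nonneg _))
  refine ⟨f, ?_, h2⟩
  exact (h1 ⟨p, Submodule.mem_span_singleton_self p⟩).trans
    (LinearPMap.mkSpanSingleton_apply ℝ ℝ p0 _)

theorem vol_le (h : Gau K g) {t : ℝ} (ht : 0 < t) :
    volume {x | g x ≤ t} = ENNReal.ofReal (t ^ n) * volume K := by
  have : {x | g x ≤ t} = t • K := by
    ext x
    rw [mem_smul_set_iff_inv_smul_mem₀ ht.ne', h.mem, h.hom _ (by positivity),
      inv_mul_le_iff₀ ht, mul_one]
    rfl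
  rw [this, Measure.addHaar_smul_of_nonneg _ ht.le, finrank_euclideanSpace, Fintype.card_fin]

end Gau

theorem one_add_pow_le (n : ℕ) {ρ : ℝ} (h0 : 0 < ρ) (h1 : ρ ≤ 1) :
    (1 + ρ) ^ n ≤ 2 ^ n * ρ + 1 := by
  suffices (1 + ρ) ^ n ≤ (2 ^ n - 1) * ρ + 1 by linarith
  induction n with
  | zero => simp
  | succ k ih =>
    have : (0 : ℝ) ≤ 2 ^ k - 1 := sub_nonneg.2 (one_le_pow₀ (by norm_num))
    rw [pow_succ, pow_succ]
    nlinarith [mul_le_mul_of_nonneg_right ih (by linarith : 0 ≤ 1 + ρ),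
      mul_le_mul_of_nonneg_left h1 (by positivity : 0 ≤ (2 ^ k - 1) * ρ)]

/-- The second difference of `g` at `z` with step `u`. -/
def sd (g : E n → ℝ) (u z : E n) : ℝ := g (z + u) + g (z - u) - 2 * g z

namespace Gau

variable {K : Set (E n)} {g : E n → ℝ}

theorem sd_nonneg (h : Gau K g) (u z : E n) : 0 ≤ sd g u z := by
  have h1 := h.add (z + u) (z - u)
  have h2 := h.hom 2 (by norm_num) z
  rw [show z + u + (z - u) = (2 : ℝ) • z by module] at h1
  unfold sd
  linarith

theorem sd_smul (h : Gau K g) (u z : E n) {t : ℝ} (h0 : 0 ≤ t) (h1 : t ≤ 1) :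
    t * sd g u z ≤ sd g u (t • z) := by
  have a1 := h.add (((1 + t) / 2) • (t • z + u)) (((1 - t) / 2) • (t • z - u))
  have a2 := h.add (((1 - t) / 2) • (t • z + u)) (((1 + t) / 2) • (t • z - u))
  rw [h.hom _ (by linarith), h.hom _ (by linarith)] at a1 a2
  rw [show ((1 + t) / 2) • (t • z + u) + ((1 - t) / 2) • (t • z - u) = t • (z + u) by module,
    h.hom _ h0] at a1
  rw [show ((1 - t) / 2) • (t • z + u) + ((1 + t) / 2) • (t • z - u) = t • (z - u) by module,
    h.hom _ h0] at a2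
  unfold sd
  rw [h.hom _ h0]
  linarith

theorem sd_lip (h : Gau K g) (u : E n) {z p : E n} {L : ℝ} (h1 : g (z - p) ≤ L)
    (h2 : g (p - z) ≤ L) : sd g u p ≤ sd g u z + 4 * L := by
  have a1 := h.add (z + u) (p - z)
  have a2 := h.add (z - u) (p - z)
  have a3 := h.add p (z - p)
  rw [show z + u + (p - z) = p + u by abel] at a1
  rw [show z - u + (p - z) = p - u by abel] at a2
  rw [show p + (z - p) = z by abel] at a3
  unfold sd
  linarith

theorem continuous_sd (h : Gau K g) : Continuous fun q : E n × E n => sd g q.1 q.2 := by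
  have := h.cont
  unfold sd
  fun_prop

theorem lintegral_sd (h : Gau K g) (hK : IsBody K) {u : E n} {ρ : ℝ} (h0 : 0 < ρ) (h1 : ρ ≤ 1)
    (a : g u ≤ ρ) (b : g (-u) ≤ ρ) :
    ∫⁻ z in K, ENNReal.ofReal (sd g u z) ≤ ENNReal.ofReal (2 ^ (n + 1) * ρ ^ 2) * volume K := by
  have hc := h.cont
  have hm := hK.1.measurableSet
  let ψ : E n → ℝ := fun z => g z - g (z - u) + ρ
  have ψ0 : ∀ z, 0 ≤ ψ z := fun z => by
    have := h.add z (-u)
    rw [← sub_eq_add_neg] at this
    simp only [ψ]; linarith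
  have ψ1 : ∀ z, ψ z ≤ 2 * ρ := fun z => by
    have := h.add (z - u) u
    rw [sub_add_cancel] at this
    simp only [ψ]; linarith
  have mψ : Measurable fun z => ENNReal.ofReal (ψ z) := by simp only [ψ]; fun_prop
  let T : Set (E n) := {x | g x ≤ 1 + ρ}
  have mT : MeasurableSet T := measurableSet_le hc.measurable measurable_const
  have hKT : K ⊆ T := fun x hx => ((h.mem x).1 hx).trans (by linarith)
  have fin : ∫⁻ z in K, ENNReal.ofReal (ψ z) ≠ ⊤ := by
    refine ne_top_of_le_ne_top (b := ENNReal.ofReal (2 * ρ) * volume K)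
      (ENNReal.mul_ne_top ENNReal.ofReal_ne_top hK.1.measure_ne_top) ?_
    rw [← setLIntegral_const]
    exact lintegral_mono fun z => ENNReal.ofReal_le_ofReal (ψ1 z)
  have hv : volume (T \ K) ≤ ENNReal.ofReal (2 ^ n * ρ) * volume K := by
    rw [measure_sdiff hKT hm.nullMeasurableSet hK.1.measure_ne_top, h.vol_le (by linarith),
      tsub_le_iff_right]
    calc ENNReal.ofReal ((1 + ρ) ^ n) * volume K ≤
          ENNReal.ofReal (2 ^ n * ρ + 1) * volume K := by
          gcongr
          exact one_add_pow_le n h0 h1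
      _ = _ := by rw [ENNReal.ofReal_add (by positivity) zero_le_one, add_mul]; simp
  refine ENNReal.le_of_add_le_add_right fin ?_
  rw [← lintegral_add_right _ mψ]
  calc ∫⁻ z in K, ENNReal.ofReal (sd g u z) + ENNReal.ofReal (ψ z)
      = ∫⁻ z, K.indicator (fun z => ENNReal.ofReal (ψ (z + u))) z := by
        rw [lintegral_indicator hm]
        congr with z
        rw [← ENNReal.ofReal_add (h.sd_nonneg u z) (ψ0 z)]
        congr 1
        simp only [ψ, sd, add_sub_cancel_right]
        ring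
    _ ≤ ∫⁻ z, T.indicator (fun z => ENNReal.ofReal (ψ z)) (z + u) := by
        refine lintegral_mono fun z => ?_
        by_cases hz : z ∈ K
        · rw [indicator_of_mem hz, indicator_of_mem]
          have := h.add z u
          have := (h.mem z).1 hz
          change g (z + u) ≤ 1 + ρ
          linarith
        · simp [hz]
    _ = ∫⁻ z in T, ENNReal.ofReal (ψ z) := by
        rw [lintegral_add_right_eq_self (fun z => T.indicator (fun z => ENNReal.ofReal (ψ z)) z) u,
          lintegral_indicator mT]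
    _ = (∫⁻ z in T \ K, ENNReal.ofReal (ψ z)) + ∫⁻ z in K, ENNReal.ofReal (ψ z) := by
        rw [← lintegral_union hm disjoint_sdiff_left, sdiff_union_of_subset hKT]
    _ ≤ _ := by
        gcongr
        calc ∫⁻ z in T \ K, ENNReal.ofReal (ψ z) ≤ ∫⁻ _ in T \ K, ENNReal.ofReal (2 * ρ) :=
              lintegral_mono fun z => ENNReal.ofReal_le_ofReal (ψ1 z)
          _ ≤ ENNReal.ofReal (2 * ρ) * (ENNReal.ofReal (2 ^ n * ρ) * volume K) := by
              rw [setLIntegral_const]; gcongr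
          _ = _ := by
              rw [← mul_assoc, ← ENNReal.ofReal_mul (by positivity)]
              congr 2
              ring

end Gau

end Pool.Agent.Lib.MP_fedf83_gt.B
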