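import Pool.Agent.Lib.MP_fedf83_gt.BGauge

namespace Pool.Agent.Lib.MP_fedf83_gt.B

open MeasureTheory Module Set Filter Topology
open scoped ENNReal Pointwise

variable {n : ℕ}

/-- The second difference at scale `r`, integrated over all directions in `K`. -/
noncomputable def DD (K : Set (E n)) (g : E n → ℝ) (r : ℝ) (z : E n) : ℝ≥0∞ :=
  ∫⁻ w in K, ENNReal.ofReal (sd g (r • w) z)

namespace Gau

variable {K : Set (E n)} {g : E n → ℝ}

theorem measurable_sd (h : Gau K g) (r : ℝ) :
    Measurable fun q : E n × E n => ENNReal.ofReal (sd g (r • q.2) q.1) :=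
  ENNReal.measurable_ofReal.comp
    (h.continuous_sd.comp (by fun_prop : Continuous fun q : E n × E n => (r • q.2, q.1))).measurable

theorem measurable_sd' (h : Gau K g) (r : ℝ) (z : E n) :
    Measurable fun w : E n => ENNReal.ofReal (sd g (r • w) z) :=
  (h.measurable_sd r).comp measurable_prodMk_left

theorem measurable_DD (h : Gau K g) (r : ℝ) : Measurable (DD K g r) :=
  Measurable.lintegral_prod_right (f := fun z w => ENNReal.ofReal (sd g (r • w) z))
    (h.measurable_sd r)

theorem lintegral_DD (hn : 1 ≤ n) (h : Gau K g) (hK : IsBody K) {r : ℝ} (h0 : 0 < r)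
    (h1 : n * r ≤ 1) :
    ∫⁻ z in K, DD K g r z ≤ ENNReal.ofReal (2 ^ (n + 1) * (n * r) ^ 2) * volume K * volume K := by
  have n1 : (1 : ℝ) ≤ n := by exact_mod_cast hn
  unfold DD
  rw [lintegral_lintegral_swap (h.measurable_sd r).aemeasurable, ← setLIntegral_const]
  refine setLIntegral_mono' hK.1.measurableSet fun w hw => ?_
  have a := (h.mem w).1 hw
  have b := h.neg w
  have c := h.nonneg w
  refine h.lintegral_sd hK (by positivity) h1 ?_ ?_
  · rw [h.hom _ h0.le]; nlinarith
  · rw [← smul_neg, h.hom _ h0.le]; nlinarith [mul_le_mul_of_nonneg_left a (by linarith : (0 : ℝ) ≤ n)]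

theorem DD_smul (h : Gau K g) (r : ℝ) (z : E n) {t : ℝ} (h0 : 0 ≤ t) (h1 : t ≤ 1) :
    ENNReal.ofReal t * DD K g r z ≤ DD K g r (t • z) := by
  unfold DD
  rw [← lintegral_const_mul _ (h.measurable_sd' r z)]
  refine lintegral_mono fun w => ?_
  dsimp only
  rw [← ENNReal.ofReal_mul h0]
  exact ENNReal.ofReal_le_ofReal (h.sd_smul _ _ h0 h1)

theorem DD_lip (h : Gau K g) (r : ℝ) {z p : E n} {L : ℝ} (h1 : g (z - p) ≤ L)
    (h2 : g (p - z) ≤ L) : DD K g r p ≤ DD K g r z + ENNReal.ofReal (4 * L) * volume K := by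
  unfold DD
  rw [← setLIntegral_const, ← lintegral_add_right _ measurable_const]
  refine lintegral_mono fun w => ?_
  exact (ENNReal.ofReal_le_ofReal (h.sd_lip _ h1 h2)).trans ENNReal.ofReal_add_le

theorem half_shift (h : Gau K g) (hK : IsBody K) {F : E n → ℝ≥0∞} {a : E n} (ha : g a ≤ 1 / 2) :
    ∫⁻ u in {x | g x ≤ 1 / 2}, F (u + a) ≤ ∫⁻ w in K, F w := by
  rw [← lintegral_indicator hK.1.measurableSet,
    ← lintegral_indicator (measurableSet_le h.cont.measurable measurable_const),
    ← lintegral_add_right_eq_self (fun z => K.indicator F z) a]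
  refine lintegral_mono fun z => ?_
  by_cases hz : z ∈ {x | g x ≤ 1 / 2}
  · rw [indicator_of_mem hz, indicator_of_mem]
    have := h.add z a
    have : g z ≤ 1 / 2 := hz
    rw [h.mem]
    linarith
  · rw [indicator_of_notMem hz]; simp

theorem no_kink (h : Gau K g) (hK : IsBody K) {r A : ℝ} (hA : 0 ≤ A) {p w : E n} (hp : g p = 1)
    {f : E n →ₗ[ℝ] ℝ} (f1 : f p = 1) (f2 : ∀ x, f x ≤ g x) (fw : f w = 0) (w1 : g w ≤ 1 / 2)
    (w2 : g (-w) ≤ 1 / 2) (hD : DD K g r p ≤ ENNReal.ofReal A * volume K) :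
    g (p + r • w) ≤ 1 + 2 ^ n * A := by
  have V0 := vol_ne_zero hK
  have V1 : volume K ≠ ⊤ := hK.1.measure_ne_top
  have key : ENNReal.ofReal (2 * (g (p + r • w) - 1)) * volume {x | g x ≤ 1 / 2} ≤
      DD K g r p + DD K g r p := by
    refine le_trans ?_ (add_le_add (h.half_shift hK w1) (h.half_shift hK w2))
    have mm : Measurable fun u : E n => ENNReal.ofReal (sd g (r • (u + w)) p) :=
      (h.measurable_sd' r p).comp (measurable_add_const w)
    rw [← setLIntegral_const, ← lintegral_add_left mm]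
    refine lintegral_mono fun u => ?_
    refine le_trans (ENNReal.ofReal_le_ofReal ?_) ENNReal.ofReal_add_le
    have a1 := h.add (p + r • (u + w)) (p - r • (u + -w))
    rw [show p + r • (u + w) + (p - r • (u + -w)) = (2 : ℝ) • (p + r • w) by module,
      h.hom _ (by norm_num)] at a1
    have a2 := f2 (p - r • (u + w))
    have a3 := f2 (p + r • (u + -w))
    simp only [map_sub, map_add, map_smul, map_neg, fw, f1, smul_eq_mul] at a2 a3
    unfold sd
    linarith
  rw [h.vol_le (by norm_num), ← mul_assoc] at key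
  have k2 := key.trans (add_le_add hD hD)
  rw [← add_mul, ENNReal.mul_le_mul_iff_left V0 V1, ← ENNReal.ofReal_add hA hA,
    ← ENNReal.ofReal_mul' (by positivity), ENNReal.ofReal_le_ofReal_iff (by positivity),
    one_div, inv_pow, ← div_eq_mul_inv, div_le_iff₀ (by positivity)] at k2
  linarith

/-- Points near the boundary with a large second difference. -/
def kink (K : Set (E n)) (g : E n → ℝ) (r δ A : ℝ) : Set (E n) :=
  {z | 1 - δ < g z ∧ g z ≤ 1 ∧ ENNReal.ofReal A * volume K ≤ DD K g r z}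

theorem measurableSet_kink (h : Gau K g) (r δ A : ℝ) : MeasurableSet (kink K g r δ A) :=
  (measurableSet_lt measurable_const h.cont.measurable).inter
    ((measurableSet_le h.cont.measurable measurable_const).inter
      (measurableSet_le measurable_const (h.measurable_DD r)))

theorem vol_kink (hn : 1 ≤ n) (h : Gau K g) (hK : IsBody K) {r A : ℝ} {m : ℕ} (hm : 1 ≤ m)
    (h0 : 0 < r) (h1 : n * r ≤ 1) (hA : 0 < A) :
    volume (kink K g r (1 / (2 * m)) A) ≤
      ENNReal.ofReal (2 ^ (2 * n + 2) * (n * r) ^ 2 / (A * m)) * volume K := by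
  have V0 := vol_ne_zero hK
  have V1 : volume K ≠ ⊤ := hK.1.measure_ne_top
  have m1 : (1 : ℝ) ≤ m := by exact_mod_cast hm
  set δ : ℝ := 1 / (2 * m) with hδ
  have δ0 : 0 < δ := by positivity
  have δ1 : δ ≤ 1 / 2 := by rw [hδ]; gcongr; linarith
  have q0 : 0 < 1 - δ := by linarith
  have q1 : 1 - δ ≤ 1 := by linarith
  set B := kink K g r δ A
  have mB : MeasurableSet B := h.measurableSet_kink r δ A
  let P : ℕ → Set (E n) := fun k => (1 - δ) ^ k • B
  have hP : ∀ k, ∀ z ∈ P k, (1 - δ) ^ (k + 1) < g z ∧ g z ≤ (1 - δ) ^ k := by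
    rintro k _ ⟨z, hz, rfl⟩
    dsimp only
    rw [h.hom _ (by positivity), pow_succ]
    exact ⟨mul_lt_mul_of_pos_left hz.1 (by positivity), mul_le_of_le_one_right (by positivity) hz.2.1⟩
  have half : ∀ k ∈ Finset.range m, 1 / 2 ≤ (1 - δ) ^ k := by
    intro k hk
    have := one_add_mul_le_pow (a := -δ) (by linarith) k
    have hk' : (k : ℝ) ≤ m := by exact_mod_cast (Finset.mem_range.1 hk).le
    have e : m * δ = 1 / 2 := by rw [hδ]; field_simp
    rw [← sub_eq_add_neg] at this
    nlinarith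
  let M : Set (E n) := {z | ENNReal.ofReal (A / 2) * volume K ≤ DD K g r z}
  have mM : MeasurableSet M := measurableSet_le measurable_const (h.measurable_DD r)
  have s1 : ⋃ k ∈ Finset.range m, P k ⊆ M ∩ K := by
    intro z hz
    obtain ⟨k, hk, hz⟩ := mem_iUnion₂.1 hz
    have q2 : (1 - δ) ^ k ≤ 1 := pow_le_one₀ q0.le q1
    refine ⟨?_, (h.mem z).2 ((hP k z hz).2.trans q2)⟩
    obtain ⟨y, hy, rfl⟩ := hz
    refine le_trans ?_ (h.DD_smul r y (by positivity) q2)
    refine le_trans ?_ (mul_le_mul_right hy.2.2 _)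
    rw [← mul_assoc, ← ENNReal.ofReal_mul (by positivity)]
    gcongr
    nlinarith [half k hk]
  have s2 : volume (⋃ k ∈ Finset.range m, P k) = ∑ k ∈ Finset.range m, volume (P k) := by
    refine measure_biUnion_finset ?_ fun k _ => mB.const_smul₀ _
    intro i _ j _ hij
    refine disjoint_left.2 fun z hi hj => ?_
    rcases lt_or_gt_of_ne hij with hl | hl
    · have := pow_le_pow_of_le_one q0.le q1 (show i + 1 ≤ j from hl)
      linarith [(hP i z hi).1, (hP j z hj).2]
    · have := pow_le_pow_of_le_one q0.le q1 (show j + 1 ≤ i from hl)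
      linarith [(hP j z hj).1, (hP i z hi).2]
  have s3 : ENNReal.ofReal (m * (1 / 2) ^ n) * volume B ≤ volume (M ∩ K) := by
    refine le_trans ?_ (s2.ge.trans (measure_mono s1))
    rw [ENNReal.ofReal_mul (by positivity), mul_assoc, ENNReal.ofReal_natCast, ← nsmul_eq_mul]
    conv_lhs => rw [← Finset.card_range m]
    refine Finset.card_nsmul_le_sum _ _ _ fun k hk => ?_
    simp only [P]
    rw [Measure.addHaar_smul_of_nonneg _ (by positivity), finrank_euclideanSpace, Fintype.card_fin]
    gcongr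
    exact half k hk
  have s4 : ENNReal.ofReal (A / 2) * volume K * volume (M ∩ K) ≤
      ENNReal.ofReal (2 ^ (n + 1) * (n * r) ^ 2) * volume K * volume K := by
    refine le_trans ?_ (h.lintegral_DD hn hK h0 h1)
    rw [← Measure.restrict_apply mM]
    exact mul_meas_ge_le_lintegral (h.measurable_DD r) _
  have s5 := (mul_le_mul_right s3 _).trans s4
  rw [mul_right_comm, ENNReal.mul_le_mul_iff_left V0 V1, ← mul_assoc,
    ← ENNReal.ofReal_mul (by positivity)] at s5
  have c0 : 0 < A / 2 * (m * (1 / 2) ^ n) := by positivity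
  rw [← ENNReal.mul_le_mul_iff_right (a := ENNReal.ofReal (A / 2 * (m * (1 / 2) ^ n)))
    (by simpa using c0) ENNReal.ofReal_ne_top]
  refine s5.trans (le_of_eq ?_)
  rw [← mul_assoc, ← ENNReal.ofReal_mul c0.le]
  congr 2
  rw [one_div, inv_pow]
  field_simp
  ring

end Gau

theorem gain {J Q : Set (E n)} (hJ : IsCompact J) (hJc : Convex ℝ J) (hQ : MeasurableSet Q)
    {w : E n} (hw : w ≠ 0) {a l : ℝ} (ha : 0 ≤ a) (hl : 0 < l)
    (h : ∀ k ∈ Q, k ∈ J ∧ k + a • w ∈ J)
    (hc : ∀ x, volume {t : ℝ | x + t • w ∈ Q} ≤ ENNReal.ofReal l) :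
    ENNReal.ofReal (1 + a / l) * volume Q ≤ volume J := by
  let L : Submodule ℝ (E n) := (ℝ ∙ w)ᗮ
  have h1 : w ∈ Lᗮ := Submodule.le_orthogonal_orthogonal _ (Submodule.mem_span_singleton_self w)
  have h2 : finrank ℝ Lᗮ = 1 := by
    rw [Submodule.orthogonal_orthogonal, finrank_span_singleton hw]
  have s1 := sdiff_shift_ge L hw h1 h2 hJ hJc h
  have s2 := le_proj L hw h1 h2 (K := Q) hQ _ (fun x hx => ⟨x, hx, 0, by simp⟩) hc
  have mT : MeasurableSet {z : E n | z - a • w ∈ J} := (measurable_sub_const _) hJ.measurableSet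
  have s3 : volume Q ≤ volume (J ∩ {z : E n | z - a • w ∈ J}) := by
    rw [← measure_preimage_add_right _ (a • w) (J ∩ _)]
    exact measure_mono fun k hk => ⟨(h k hk).2, by simpa using (h k hk).1⟩
  rw [← measure_inter_add_sdiff J mT, ENNReal.ofReal_add zero_le_one (by positivity), add_mul,
    ENNReal.ofReal_one, one_mul]
  refine add_le_add s3 (le_trans ?_ s1)
  refine (mul_le_mul_right s2 _).trans (le_of_eq ?_)
  rw [mul_left_comm, ← mul_assoc (ENNReal.ofReal (a / l)), ← ENNReal.ofReal_mul (by positivity),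
    div_mul_cancel₀ _ hl.ne']

theorem vol_affine (K : Set (E n)) {a : ℝ} (ha : 0 ≤ a) (x : E n) :
    volume ((fun k => a • k + x) '' K) = ENNReal.ofReal (a ^ n) * volume K := by
  have : (fun k => a • k + x) '' K = (fun y => y + x) '' (a • K) := by
    rw [← image_smul, image_image]
  rw [this, image_add_right, measure_preimage_add_right, Measure.addHaar_smul_of_nonneg _ ha,
    finrank_euclideanSpace, Fintype.card_fin]

theorem chord_bound (hn : 1 ≤ n) {K : Set (E n)} (hK : IsBody K) {v p : E n} (hv : ‖v‖ = 1)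
    {l μ : ℝ} (hl : 0 ≤ l) (hμ : 0 ≤ μ) (hp : p ∈ K) (hq : p + l • v ∈ K)
    (h : ∀ s : ℝ, 0 < s → s < 1 → ENNReal.ofReal (1 + s * μ) *
      (ENNReal.ofReal ((1 - s) ^ n) * volume K) ≤ volume {z | z ∈ K ∧ z - (s * l) • v ∈ K}) :
    l * (sigma (n - 1) K).toReal ≤ (n - μ) * (volume K).toReal := by
  have V0 := vol_toReal_pos hK
  have σ0 := sigma_toReal_pos hn hK
  have σ1 := (sigma_lt_top hn hK.1).ne
  have V1 : volume K ≠ ⊤ := hK.1.measure_ne_top
  have hv0 : v ≠ 0 := by rintro rfl; simp at hv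
  let L : Submodule ℝ (E n) := (ℝ ∙ v)ᗮ
  have h1 : v ∈ Lᗮ := Submodule.le_orthogonal_orthogonal _ (Submodule.mem_span_singleton_self v)
  have h2 : finrank ℝ Lᗮ = 1 := by
    rw [Submodule.orthogonal_orthogonal, finrank_span_singleton hv0]
  have hσ : sigma (n - 1) K ≤ volume (L.orthogonalProjectionOnto '' K) := by
    unfold sigma
    exact iInf₂_le (f := fun (L : Submodule ℝ (E n)) (_ : finrank ℝ L = n - 1) =>
      volume (L.orthogonalProjectionOnto '' K)) _ (finrank_orth_span hv0)
  set V := (volume K).toReal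
  set σ := (sigma (n - 1) K).toReal
  have key : ∀ s : ℝ, 0 < s → s < 1 → (1 - n * s) * (μ * V + l * σ) ≤ n * V := by
    intro s s0 s1
    have e1 : 0 < 1 - s := by linarith
    have a1 := sdiff_shift_ge L hv0 h1 h2 hK.1 hK.2.1 (r := s * l)
      (K' := (fun k => (1 - s) • k + s • p) '' K) (by
        rintro _ ⟨k, hk, rfl⟩
        refine ⟨hK.2.1 hk hp e1.le s0.le (by ring), ?_⟩
        convert hK.2.1 hk hq e1.le s0.le (by ring) using 1
        module)
    rw [vol_proj_affine L K e1.le, finrank_orth_span hv0, ← ofReal_norm, hv, ENNReal.ofReal_one,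
      one_mul] at a1
    have mT : MeasurableSet {z : E n | z - (s * l) • v ∈ K} :=
      (measurable_sub_const _) hK.1.measurableSet
    have a2 := measure_inter_add_sdiff (μ := volume) K mT
    have a3 : ENNReal.ofReal (1 + s * μ) * (ENNReal.ofReal ((1 - s) ^ n) * volume K) +
        ENNReal.ofReal (s * l) * (ENNReal.ofReal ((1 - s) ^ (n - 1)) * sigma (n - 1) K) ≤
        volume K := by
      refine le_trans (add_le_add (h s s0 s1) (le_trans ?_ a1)) a2.le
      gcongr
    have a4 := ENNReal.toReal_mono V1 a3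
    rw [ENNReal.toReal_add (by finiteness) (by finiteness)] at a4
    simp only [ENNReal.toReal_mul] at a4
    rw [ENNReal.toReal_ofReal (by positivity), ENNReal.toReal_ofReal (by positivity),
      ENNReal.toReal_ofReal (by positivity), ENNReal.toReal_ofReal (by positivity)] at a4
    change (1 + s * μ) * ((1 - s) ^ n * V) + s * l * ((1 - s) ^ (n - 1) * σ) ≤ V at a4
    have b1 : 1 - n * s ≤ (1 - s) ^ n := by
      have := one_add_mul_le_pow (a := -s) (by linarith) n
      rw [← sub_eq_add_neg] at this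
      linarith
    have b2 : 1 - n * s ≤ (1 - s) ^ (n - 1) :=
      b1.trans (pow_le_pow_of_le_one e1.le (by linarith) (Nat.sub_le _ _))
    have c1 := mul_le_mul_of_nonneg_right b1 (by positivity : 0 ≤ (1 + s * μ) * V)
    have c2 := mul_le_mul_of_nonneg_right b2 (by positivity : 0 ≤ s * l * σ)
    refine le_of_mul_le_mul_left ?_ s0
    nlinarith
  have lim : Tendsto (fun s : ℝ => (1 - n * s) * (μ * V + l * σ)) (𝓝[>] 0)
      (𝓝 ((1 - n * 0) * (μ * V + l * σ))) :=
    (Continuous.tendsto (by fun_prop) _).mono_left nhdsWithin_le_nhds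
  have := le_of_tendsto lim (eventually_of_mem (Ioo_mem_nhdsGT one_pos) fun s hs => key s hs.1 hs.2)
  linarith

theorem chord_basic (hn : 1 ≤ n) {K : Set (E n)} (hK : IsBody K) {v p : E n} (hv : ‖v‖ = 1)
    {l : ℝ} (hl : 0 ≤ l) (hp : p ∈ K) (hq : p + l • v ∈ K) :
    l * (sigma (n - 1) K).toReal ≤ n * (volume K).toReal := by
  have := chord_bound hn hK hv hl le_rfl hp hq fun s s0 s1 => by
    have e1 : 0 < 1 - s := by linarith
    rw [mul_zero, add_zero, ENNReal.ofReal_one, one_mul, ← vol_affine K e1.le (s • (p + l • v))]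
    refine measure_mono ?_
    rintro _ ⟨k, hk, rfl⟩
    refine ⟨hK.2.1 hk hq e1.le s0.le (by ring), ?_⟩
    convert hK.2.1 hk hp e1.le s0.le (by ring) using 1
    module
  simpa using this

theorem chord_par (hn : 1 ≤ n) {K : Set (E n)} (hK : IsBody K) {v p w : E n} (hv : ‖v‖ = 1)
    (hw : w ≠ 0) {l a b : ℝ} (hl : 0 ≤ l) (ha : 0 ≤ a) (hb : 0 < b) (hp : p ∈ K)
    (hq : p + l • v ∈ K) (hp' : p + a • w ∈ K) (hq' : p + l • v + a • w ∈ K)
    (hc : ∀ x, volume {t : ℝ | x + t • w ∈ K} ≤ ENNReal.ofReal b) :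
    l * (sigma (n - 1) K).toReal ≤ (n - a / b) * (volume K).toReal := by
  refine chord_bound hn hK hv hl (by positivity) hp hq fun s s0 s1 => ?_
  have e1 : 0 < 1 - s := by linarith
  rw [← vol_affine K e1.le (s • (p + l • v)), ← mul_div_assoc]
  refine gain ?_ ?_ (hK.1.image (by fun_prop)).measurableSet hw (by positivity) hb ?_ ?_
  · exact hK.1.inter_right (hK.1.isClosed.preimage (by fun_prop))
  · refine hK.2.1.inter ?_
    intro x hx y hy c d hc hd hcd
    have := hK.2.1 hx hy hc hd hcd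
    obtain rfl : d = 1 - c := by linarith
    change c • x + (1 - c) • y - (s * l) • v ∈ K
    convert this using 1
    module
  · rintro _ ⟨k, hk, rfl⟩
    refine ⟨⟨hK.2.1 hk hq e1.le s0.le (by ring), ?_⟩, ?_, ?_⟩
    · convert hK.2.1 hk hp e1.le s0.le (by ring) using 1
      module
    · convert hK.2.1 hk hq' e1.le s0.le (by ring) using 1
      module
    · convert hK.2.1 hk hp' e1.le s0.le (by ring) using 1
      module
  · refine fun x => le_trans (measure_mono fun t ht => ?_) (hc x)
    obtain ⟨k, hk, e⟩ := ht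
    change x + t • w ∈ K
    rw [← e]
    exact hK.2.1 hk hq e1.le s0.le (by ring)

end Pool.Agent.Lib.MP_fedf83_gt.B
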