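import Pool.Agent.Lib.MP_fedf83_gt.BCoord

namespace Pool.Agent.Lib.MP_fedf83_gt.B

open MeasureTheory Module Set

/-- Closed standard prism. -/
def prismC : Set (Fin 3 → ℝ) := {w | 0 ≤ w 0 ∧ 0 ≤ w 1 ∧ w 0 + w 1 ≤ 1 ∧ 0 ≤ w 2 ∧ w 2 ≤ 1}

/-- Open standard prism. -/
def prismO : Set (Fin 3 → ℝ) := {w | 0 < w 0 ∧ 0 < w 1 ∧ w 0 + w 1 < 1 ∧ 0 < w 2 ∧ w 2 < 1}

theorem isOpen_prismO : IsOpen prismO := by
  unfold prismO
  simp only [ofPred_and]
  refine IsOpen.inter ?_ (IsOpen.inter ?_ (IsOpen.inter ?_ (IsOpen.inter ?_ ?_))) <;>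
    exact isOpen_lt (by fun_prop) (by fun_prop)

theorem isClosed_prismC : IsClosed prismC := by
  unfold prismC
  simp only [ofPred_and]
  refine IsClosed.inter ?_ (IsClosed.inter ?_ (IsClosed.inter ?_ (IsClosed.inter ?_ ?_))) <;>
    exact isClosed_le (by fun_prop) (by fun_prop)

theorem prismC_subset : prismC ⊆ Icc 0 1 := by
  rintro w ⟨h0, h1, h2, h3, h4⟩
  constructor <;> intro i <;> fin_cases i <;> simp <;> linarith

theorem isBodyC_prismC : IsBodyC prismC := by
  refine ⟨isCompact_Icc.of_isClosed_subset isClosed_prismC prismC_subset, ?_, ?_⟩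
  · rintro x ⟨h0, h1, h2, h3, h4⟩ y ⟨g0, g1, g2, g3, g4⟩ a b ha hb hab
    simp only [prismC, mem_ofPred_eq, Pi.add_apply, Pi.smul_apply, smul_eq_mul]
    refine ⟨by positivity, by positivity, by nlinarith, by positivity, by nlinarith⟩
  · have : prismO ⊆ interior prismC := by
      refine interior_maximal ?_ isOpen_prismO
      rintro w ⟨h0, h1, h2, h3, h4⟩
      exact ⟨h0.le, h1.le, h2.le, h3.le, h4.le⟩
    exact ⟨fun _ => 1 / 3, this (by simp only [prismO, mem_ofPred_eq]; norm_num)⟩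

/-- The half-turn of the unit cube. -/
def refl3 (w : Fin 3 → ℝ) : Fin 3 → ℝ := fun i => (![fun x => 1 - x, fun x => 1 - x, id] i) (w i)

theorem refl3_mp : MeasurePreserving refl3 := by
  have := measurePreserving_pi (fun _ : Fin 3 => (volume : Measure ℝ)) (fun _ => volume)
    (f := fun i : Fin 3 => (![fun x : ℝ => 1 - x, fun x => 1 - x, id] i)) (by
      intro i
      fin_cases i
      · exact Measure.measurePreserving_sub_left volume 1
      · exact Measure.measurePreserving_sub_left volume 1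
      · exact MeasurePreserving.id _)
  exact this

theorem null_diag : volume {w : Fin 3 → ℝ | w 0 + w 1 = 1} = 0 := by
  let f : (Fin 3 → ℝ) →ₗ[ℝ] ℝ := 
    LinearMap.proj (R := ℝ) (φ := fun _ : Fin 3 => ℝ) 0 + LinearMap.proj (R := ℝ) (φ := fun _ : Fin 3 => ℝ) 1
  let s : AffineSubspace ℝ (Fin 3 → ℝ) := AffineSubspace.comap f.toAffineMap
    (AffineSubspace.mk' 1 ⊥)
  have h1 : {w : Fin 3 → ℝ | w 0 + w 1 = 1} = s := by
    ext w; simp [s, f, AffineSubspace.mem_mk', sub_eq_zero]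
  rw [h1]
  apply Measure.addHaar_affineSubspace
  intro h
  have : (0 : Fin 3 → ℝ) ∈ (s : Set (Fin 3 → ℝ)) := by rw [h]; trivial
  rw [← h1] at this
  simp at this

theorem vol_prismC : volume prismC ≤ 1 / 2 := by
  let B : Set (Fin 3 → ℝ) := prismC ∩ {w | w 0 + w 1 < 1}
  have hB : MeasurableSet B := isClosed_prismC.measurableSet.inter
    (isOpen_lt (by fun_prop) (by fun_prop)).measurableSet
  have h1 : volume prismC ≤ volume B := by
    have : prismC ⊆ B ∪ {w : Fin 3 → ℝ | w 0 + w 1 = 1} := by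
      intro w hw
      rcases hw.2.2.1.lt_or_eq with h | h
      · exact Or.inl ⟨hw, h⟩
      · exact Or.inr h
    refine (measure_mono this).trans ((measure_union_le _ _).trans ?_)
    rw [null_diag, add_zero]
  have h2 : volume (refl3 ⁻¹' B) = volume B := refl3_mp.measure_preimage hB.nullMeasurableSet
  have h3 : Disjoint B (refl3 ⁻¹' B) := by
    refine disjoint_left.2 fun w hw hw' => ?_
    have a := hw.2
    have b := hw'.2
    simp [refl3] at a b
    linarith
  have h4 : B ∪ refl3 ⁻¹' B ⊆ Icc 0 1 := by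
    rintro w (hw | hw)
    · exact prismC_subset hw.1
    · obtain ⟨h0, h1, h2, h3, h4⟩ := hw.1
      simp [refl3] at h0 h1 h2 h3 h4
      constructor <;> intro i <;> fin_cases i <;> simp <;> linarith
  have h5 := measure_mono (μ := volume) h4
  rw [measure_union h3 (refl3_mp.measurable hB), h2, Real.volume_Icc_pi] at h5
  simp only [Pi.one_apply, Pi.zero_apply, sub_zero, ENNReal.ofReal_one, Finset.prod_const_one]
    at h5
  refine h1.trans ?_
  rw [ENNReal.le_div_iff_mul_le (by simp) (by simp), mul_two]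
  exact h5

theorem vol_prismO : 1 / 2 ≤ volume prismO := by
  have hB : MeasurableSet prismO := isOpen_prismO.measurableSet
  have h2 : volume (refl3 ⁻¹' prismO) = volume prismO :=
    refl3_mp.measure_preimage hB.nullMeasurableSet
  have h4 : (univ.pi fun _ : Fin 3 => Ioo (0 : ℝ) 1) ⊆
      (prismO ∪ refl3 ⁻¹' prismO) ∪ {w : Fin 3 → ℝ | w 0 + w 1 = 1} := by
    intro w hw
    have a0 := hw 0 trivial
    have a1 := hw 1 trivial
    have a2 := hw 2 trivial
    rcases lt_trichotomy (w 0 + w 1) 1 with h | h | h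
    · exact Or.inl (Or.inl ⟨a0.1, a1.1, h, a2.1, a2.2⟩)
    · exact Or.inr h
    · refine Or.inl (Or.inr ?_)
      simp only [prismO, refl3, mem_preimage, mem_ofPred_eq]
      simp
      exact ⟨a0.2, a1.2, by linarith, a2.1, a2.2⟩
  have h5 := (measure_mono (μ := volume) h4).trans (measure_union_le _ _)
  rw [null_diag, add_zero, Real.volume_pi_Ioo] at h5
  have h6 := h5.trans (measure_union_le _ _)
  rw [h2] at h6
  simp only [sub_zero, ENNReal.ofReal_one, Finset.prod_const_one] at h6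
  rw [ENNReal.div_le_iff (by simp) (by simp), mul_two]
  exact h6

/-- The linear map with columns `a`, `b`, `v`. -/
def lin3 (a b v : Fin 3 → ℝ) : (Fin 3 → ℝ) →ₗ[ℝ] (Fin 3 → ℝ) :=
  Matrix.toLin' (Matrix.of ![a, b, v]).transpose

/-- The determinant with columns `a`, `b`, `v`. -/
def det3 (a b v : Fin 3 → ℝ) : ℝ :=
  a 0 * b 1 * v 2 - a 0 * b 2 * v 1 - a 1 * b 0 * v 2 + a 1 * b 2 * v 0 + a 2 * b 0 * v 1
    - a 2 * b 1 * v 0

theorem lin3_apply (a b v w : Fin 3 → ℝ) : lin3 a b v w = w 0 • a + w 1 • b + w 2 • v := by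
  ext i
  simp [lin3, Matrix.mulVec, dotProduct, Fin.sum_univ_three, mul_comm]

theorem lin3_det (a b v : Fin 3 → ℝ) : LinearMap.det (lin3 a b v) = det3 a b v := by
  rw [lin3, LinearMap.det_toLin', Matrix.det_transpose, Matrix.det_fin_three]
  simp [det3]

/-- The affine image of a set of parameters. -/
def aff3 (p a b v : Fin 3 → ℝ) (S : Set (Fin 3 → ℝ)) : Set (Fin 3 → ℝ) :=
  (fun x => p + x) '' (lin3 a b v '' S)

theorem mem_aff3 {p a b v x : Fin 3 → ℝ} {S : Set (Fin 3 → ℝ)} :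
    x ∈ aff3 p a b v S ↔ ∃ w ∈ S, x = p + w 0 • a + w 1 • b + w 2 • v := by
  simp only [aff3, image_image, mem_image, lin3_apply]
  constructor <;> rintro ⟨w, hw, rfl⟩ <;> exact ⟨w, hw, by abel⟩

theorem vol_aff3 (p a b v : Fin 3 → ℝ) (S : Set (Fin 3 → ℝ)) :
    volume (aff3 p a b v S) = ENNReal.ofReal |det3 a b v| * volume S := by
  rw [aff3, image_add_left, measure_preimage_add, Measure.addHaar_image_linearMap, lin3_det]

theorem isOpenMap_lin3 {a b v : Fin 3 → ℝ} (h : det3 a b v ≠ 0) : IsOpenMap (lin3 a b v) := by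
  rw [← lin3_det] at h
  exact LinearMap.isOpenMap_of_finiteDimensional _
    (LinearMap.equivOfDetNeZero _ h).surjective

theorem isOpen_aff3 (p : Fin 3 → ℝ) {a b v : Fin 3 → ℝ} (h : det3 a b v ≠ 0)
    {S : Set (Fin 3 → ℝ)} (hS : IsOpen S) : IsOpen (aff3 p a b v S) :=
  isOpenMap_add_left p _ (isOpenMap_lin3 h _ hS)

theorem isBodyC_aff3 (p : Fin 3 → ℝ) {a b v : Fin 3 → ℝ} (h : det3 a b v ≠ 0) :
    IsBodyC (aff3 p a b v prismC) := by
  obtain ⟨h1, h2, w, hw⟩ := isBodyC_prismC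
  refine ⟨(h1.image (lin3 a b v).continuous_of_finiteDimensional).image (by fun_prop),
    (h2.linear_image _).translate p, ?_⟩
  have : aff3 p a b v (interior prismC) ⊆ interior (aff3 p a b v prismC) :=
    interior_maximal (image_mono (image_mono interior_subset)) (isOpen_aff3 p h isOpen_interior)
  exact ⟨_, this ⟨_, ⟨w, hw, rfl⟩, rfl⟩⟩

theorem fiber_aff3 (p a b v : Fin 3 → ℝ) {x : Fin 3 → ℝ} (hx : x ∈ aff3 p a b v prismC) :
    1 ≤ volume {t : ℝ | x + t • v ∈ aff3 p a b v prismC} := by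
  obtain ⟨w, ⟨h0, h1, h2, h3, h4⟩, rfl⟩ := mem_aff3.1 hx
  have : Icc (-w 2) (1 - w 2) ⊆
      {t : ℝ | p + w 0 • a + w 1 • b + w 2 • v + t • v ∈ aff3 p a b v prismC} := by
    intro t ht
    refine mem_aff3.2 ⟨![w 0, w 1, w 2 + t], ?_, ?_⟩
    · simp only [prismC, mem_ofPred_eq]
      simp
      exact ⟨h0, h1, h2, by linarith [ht.1], by linarith [ht.2]⟩
    · simp [add_smul, add_assoc]
  refine le_trans ?_ (measure_mono this)
  simp

end Pool.Agent.Lib.MP_fedf83_gt.B
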