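import Pool.Agent.Lib.MP_fedf83_gt.BKink

namespace Pool.Agent.Lib.MP_fedf83_gt.B

open MeasureTheory Module Set Filter Topology
open scoped ENNReal Pointwise

variable {n : ℕ}

namespace Gau

variable {K : Set (E n)} {g : E n → ℝ}

theorem chord_w (h : Gau K g) {w : E n} (hw : g w = 1 / 2) (x : E n) :
    volume {t : ℝ | x + t • w ∈ K} ≤ ENNReal.ofReal (2 * (n + 1)) := by
  refine (Real.volume_le_diam _).trans (Metric.ediam_le_of_forall_dist_le fun s hs t ht => ?_)
  have key : ∀ s t : ℝ, x + s • w ∈ K → x + t • w ∈ K → s - t ≤ 2 * (n + 1) := by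
    intro s t hs ht
    rcases le_total s t with hl | hl
    · have : (0 : ℝ) ≤ n := Nat.cast_nonneg n
      linarith
    · have := h.sub_le hs ht
      rw [add_sub_add_left_eq_sub, ← sub_smul, h.hom _ (by linarith), hw] at this
      linarith
  rw [Real.dist_eq, abs_le]
  exact ⟨by linarith [key t s ht hs], key s t hs ht⟩

theorem exists_dir (hn : 3 ≤ n) (h : Gau K g) (f₁ f₂ : E n →ₗ[ℝ] ℝ) :
    ∃ w : E n, w ≠ 0 ∧ f₁ w = 0 ∧ f₂ w = 0 ∧ g w = 1 / 2 ∧ g (-w) ≤ 1 / 2 := by
  obtain ⟨w, hw, w0⟩ : ∃ w ∈ LinearMap.ker (f₁.prod f₂), w ≠ 0 := by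
    refine (Submodule.ne_bot_iff _).1 (LinearMap.ker_ne_bot_of_finrank_lt ?_)
    simp
    omega
  have h1 : f₁ w = 0 := congrArg Prod.fst hw
  have h2 : f₂ w = 0 := congrArg Prod.snd hw
  have key : ∀ w : E n, w ≠ 0 → f₁ w = 0 → f₂ w = 0 → g (-w) ≤ g w →
      ∃ w : E n, w ≠ 0 ∧ f₁ w = 0 ∧ f₂ w = 0 ∧ g w = 1 / 2 ∧ g (-w) ≤ 1 / 2 := by
    intro w w0 h1 h2 h3
    have p := h.pos w w0
    refine ⟨(2 * g w)⁻¹ • w, smul_ne_zero (by positivity) w0, by simp [h1], by simp [h2], ?_, ?_⟩
    · rw [h.hom _ (by positivity)]; field_simp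
    · rw [← smul_neg, h.hom _ (by positivity), inv_mul_le_iff₀ (by positivity)]; linarith
  rcases le_total (g (-w)) (g w) with hl | hl
  · exact key w w0 h1 h2 hl
  · exact key (-w) (neg_ne_zero.2 w0) (by simp [h1]) (by simp [h2]) (by simpa using hl)

theorem kink_end (h : Gau K g) (hK : IsBody K) {r A c : ℝ} (hA : 0 < A) {p q : E n} (hp : g p = 1)
    (hq : q ∈ K) (hD : ENNReal.ofReal (2 * A) * volume K ≤ DD K g r p) (c0 : 0 ≤ c) (c1 : c ≤ 1)
    (hc : c * (4 * (n + 1)) ≤ A) : p + c • (q - p) ∈ kink K g r (A / 2) A := by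
  have hpK : p ∈ K := (h.mem p).2 hp.le
  have a1 : g (p + c • (q - p) - p) ≤ A / 4 := by
    rw [add_sub_cancel_left, h.hom _ c0]
    nlinarith [mul_le_mul_of_nonneg_left (h.sub_le hq hpK) c0]
  have a2 : g (p - (p + c • (q - p))) ≤ A / 4 := by
    rw [show p - (p + c • (q - p)) = c • (p - q) by module, h.hom _ c0]
    nlinarith [mul_le_mul_of_nonneg_left (h.sub_le hpK hq) c0]
  refine ⟨?_, (h.mem _).1 ?_, ?_⟩
  · have := h.add (p + c • (q - p)) (p - (p + c • (q - p)))
    rw [add_sub_cancel, hp] at this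
    linarith
  · convert hK.2.1 hpK hq (sub_nonneg.2 c1) c0 (by ring) using 1
    module
  · have := hD.trans (h.DD_lip r a1 a2)
    rw [two_mul, ENNReal.ofReal_add hA.le hA.le, add_mul, show 4 * (A / 4) = A by ring] at this
    exact ENNReal.le_of_add_le_add_right
      (ENNReal.mul_ne_top ENNReal.ofReal_ne_top hK.1.measure_ne_top) this

theorem good (hn : 3 ≤ n) (h : Gau K g) (hK : IsBody K) {θ r : ℝ} (θ0 : 0 < θ) (r0 : 0 < r)
    (r1 : r ≤ 1) (hθ : 2 ^ (n + 3) * n * (n + 1) * θ ≤ 1) (v : E n) (hv : ‖v‖ = 1) (x : E n) :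
    volume {t : ℝ | x + t • v ∈ K \ kink K g r (θ * r / 2) (θ * r)} ≤
      ENNReal.ofReal ((1 - θ * r / (4 * (n + 1))) * n * (volume K).toReal /
        (sigma (n - 1) K).toReal) := by
  have hn1 : 1 ≤ n := by omega
  have n3 : (3 : ℝ) ≤ n := by exact_mod_cast hn
  have V0 := vol_toReal_pos hK
  have σ0 := sigma_toReal_pos hn1 hK
  have hv0 : v ≠ 0 := by rintro rfl; simp at hv
  have θ1 : θ * n ≤ 1 := by
    have : (1 : ℝ) ≤ 2 ^ (n + 3) := one_le_pow₀ (by norm_num)
    have : (1 : ℝ) ≤ 2 ^ (n + 3) * (n + 1) := by nlinarith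
    nlinarith [mul_le_mul_of_nonneg_right this (by positivity : 0 ≤ θ * n)]
  set ε := θ * r / (4 * (n + 1)) with hε
  have ε0 : 0 < ε := by positivity
  have εe : ε * (4 * (n + 1)) = θ * r := by rw [hε]; field_simp
  have ε1 : ε ≤ 1 := by
    rw [hε, div_le_one (by positivity)]
    nlinarith [mul_le_mul_of_nonneg_left r1 θ0.le]
  let I : Set ℝ := {t | x + t • v ∈ K}
  have hI : IsCompact I := by
    have : Topology.IsClosedEmbedding fun τ : ℝ => x + τ • v :=
      (Homeomorph.addLeft x).isClosedEmbedding.comp (isClosedEmbedding_smul_left hv0)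
    exact this.isCompact_preimage hK.1
  rcases I.eq_empty_or_nonempty with hI0 | hI0
  · refine le_trans (measure_mono (t := I) fun t ht => ht.1) ?_
    simp [hI0]
  obtain ⟨α, hα, hα'⟩ := hI.exists_isLeast hI0
  obtain ⟨β, hβ, hβ'⟩ := hI.exists_isGreatest hI0
  have hc : Continuous fun t : ℝ => g (x + t • v) := h.cont.comp (by fun_prop)
  have gp : g (x + α • v) = 1 := by
    refine le_antisymm ((h.mem _).1 hα) ?_
    refine ge_of_tendsto ((hc.tendsto α).mono_left (nhdsWithin_le_nhds (s := Iio α))) ?_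
    refine eventually_of_mem self_mem_nhdsWithin fun t ht => ?_
    by_contra hh
    exact absurd (hα' ((h.mem _).2 (not_le.1 hh).le)) (not_le.2 ht)
  have gq : g (x + β • v) = 1 := by
    refine le_antisymm ((h.mem _).1 hβ) ?_
    refine ge_of_tendsto ((hc.tendsto β).mono_left (nhdsWithin_le_nhds (s := Ioi β))) ?_
    refine eventually_of_mem self_mem_nhdsWithin fun t ht => ?_
    by_contra hh
    exact absurd (hβ' ((h.mem _).2 (not_le.1 hh).le)) (not_le.2 ht)
  have l0 : 0 ≤ β - α := sub_nonneg.2 (hα' hβ)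
  have e : x + β • v = x + α • v + (β - α) • v := by module
  have basic := chord_basic hn1 hK hv l0 hα (e ▸ hβ)
  have fin : (1 - ε) * (β - α) ≤ (1 - ε) * n * (volume K).toReal / (sigma (n - 1) K).toReal := by
    rw [le_div_iff₀ σ0, mul_assoc, mul_assoc]
    exact mul_le_mul_of_nonneg_left basic (by linarith)
  by_cases kp : ENNReal.ofReal (2 * (θ * r)) * volume K ≤ DD K g r (x + α • v)
  · refine le_trans (measure_mono (t := Icc (α + ε * (β - α)) β) fun t ht => ⟨?_, hβ' ht.1⟩) ?_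
    · by_contra hh
      have hh := not_le.1 hh
      have t0 := hα' ht.1
      have l1 : 0 < β - α := by
        rcases l0.eq_or_lt with h0 | h0
        · rw [← h0] at hh; linarith
        · exact h0
      have c1 : (t - α) / (β - α) ≤ ε := by rw [div_le_iff₀ l1]; linarith
      have := h.kink_end hK (by positivity) gp hβ kp (c := (t - α) / (β - α))
        (div_nonneg (by linarith) l0) (c1.trans ε1) (by rw [← εe]; gcongr)
      refine ht.2 ?_
      convert this using 1
      rw [add_sub_add_left_eq_sub, ← sub_smul, smul_smul, div_mul_cancel₀ _ l1.ne']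
      module
    · rw [Real.volume_Icc]
      exact ENNReal.ofReal_le_ofReal (by linarith)
  by_cases kq : ENNReal.ofReal (2 * (θ * r)) * volume K ≤ DD K g r (x + β • v)
  · refine le_trans (measure_mono (t := Icc α (β - ε * (β - α))) fun t ht => ⟨hα' ht.1, ?_⟩) ?_
    · by_contra hh
      have hh := not_le.1 hh
      have t0 := hβ' ht.1
      have l1 : 0 < β - α := by
        rcases l0.eq_or_lt with h0 | h0
        · rw [← h0] at hh; linarith
        · exact h0
      have c1 : (β - t) / (β - α) ≤ ε := by rw [div_le_iff₀ l1]; linarith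
      have := h.kink_end hK (by positivity) gq hα kq (c := (β - t) / (β - α))
        (div_nonneg (by linarith) l0) (c1.trans ε1) (by rw [← εe]; gcongr)
      refine ht.2 ?_
      convert this using 1
      rw [add_sub_add_left_eq_sub, ← sub_smul, smul_smul,
        show (β - t) / (β - α) * (α - β) = t - β by field_simp; ring]
      module
    · rw [Real.volume_Icc]
      exact ENNReal.ofReal_le_ofReal (by linarith)
  obtain ⟨f₁, a1, a2⟩ := h.support gp
  obtain ⟨f₂, b1, b2⟩ := h.support gq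
  obtain ⟨w, w0, w1, w2, w3, w4⟩ := h.exists_dir hn f₁ f₂
  have p1 := h.no_kink hK (by positivity) gp a1 a2 w1 w3.le w4 (not_le.1 kp).le
  have q1 := h.no_kink hK (by positivity) gq b1 b2 w2 w3.le w4 (not_le.1 kq).le
  set τ := 2 ^ n * (2 * (θ * r)) with hτ
  have τ0 : 0 < τ := by positivity
  have sc : ∀ z, g z ≤ 1 + τ → (1 + τ)⁻¹ • z ∈ K := fun z hz => by
    rw [h.mem, h.hom _ (by positivity), inv_mul_le_iff₀ (by positivity), mul_one]
    exact hz
  have par := chord_par hn1 hK hv w0 (p := (1 + τ)⁻¹ • (x + α • v)) (l := (1 + τ)⁻¹ * (β - α))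
    (a := (1 + τ)⁻¹ * r) (b := 2 * (n + 1)) (by positivity) (by positivity) (by positivity)
    (sc _ (by linarith)) (by convert sc (x + β • v) (by linarith) using 1; module)
    (by convert sc _ p1 using 1; module) (by convert sc _ q1 using 1; module) (h.chord_w w3)
  refine le_trans (measure_mono (t := Icc α β) fun t ht => ⟨hα' ht.1, hβ' ht.1⟩) ?_
  rw [Real.volume_Icc]
  refine ENNReal.ofReal_le_ofReal ?_
  rw [le_div_iff₀ σ0]
  rw [mul_assoc, inv_mul_le_iff₀ (by positivity), ← mul_assoc] at par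
  refine par.trans (mul_le_mul_of_nonneg_right ?_ V0.le)
  have e1 : (1 + τ) * (n - (1 + τ)⁻¹ * r / (2 * (n + 1))) =
      n + τ * n - 2 * (r / (4 * (n + 1))) := by field_simp; ring
  have e2 : τ * n ≤ r / (4 * (n + 1)) := by
    rw [le_div_iff₀ (by positivity), hτ]
    have := mul_le_mul_of_nonneg_left hθ r0.le
    rw [pow_add] at this
    linarith
  have e3 : ε * n ≤ r / (4 * (n + 1)) := by
    rw [le_div_iff₀ (by positivity), mul_right_comm, εe]
    nlinarith [mul_le_mul_of_nonneg_left θ1 r0.le]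
  rw [e1]
  linarith

end Gau

theorem sigma_translate (l : ℕ) (K : Set (E n)) (o : E n) :
    sigma l ((fun k => k + o) '' K) = sigma l K := by
  unfold sigma projVol
  refine iInf_congr fun L => iInf_congr fun _ => ?_
  simpa using vol_proj_affine L K zero_le_one o

theorem strict (hn : 3 ≤ n) : ∃ γ : ℝ, 1 < γ ∧ ENNReal.ofReal (γ / n) ≤ cst n (n - 1) := by
  have hn1 : 1 ≤ n := by omega
  have n3 : (3 : ℝ) ≤ n := by exact_mod_cast hn
  set θ : ℝ := 1 / (2 ^ (n + 3) * n * (n + 1)) with hθ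
  have θ0 : 0 < θ := by positivity
  have θe : 2 ^ (n + 3) * n * (n + 1) * θ = 1 := by rw [hθ]; field_simp
  obtain ⟨m, hm⟩ := exists_nat_gt (max (n / θ) (2 ^ (2 * n + 4) * n ^ 2 * (n + 1) / θ ^ 2))
  have m1 := (le_max_left _ _).trans_lt hm
  have m2 := (le_max_right _ _).trans_lt hm
  have m0 : (0 : ℝ) < m := lt_trans (by positivity) m1
  set r : ℝ := 1 / (θ * m) with hr
  have r0 : 0 < r := by positivity
  have r1 : n * r ≤ 1 := by
    rw [hr, mul_one_div, div_le_one (by positivity)]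
    rw [div_lt_iff₀ θ0] at m1
    linarith
  have r2 : r ≤ 1 := by nlinarith
  have e1 : θ * r * m = 1 := by rw [hr]; field_simp
  have e2 : θ * r / 2 = 1 / (2 * m) := by rw [hr]; field_simp
  set ε := θ * r / (4 * (n + 1)) with hε
  set η := 2 ^ (2 * n + 2) * (n * r) ^ 2 with hη
  have η0 : 0 < η := by positivity
  have θ1 : θ ≤ 1 := by
    have : (1 : ℝ) ≤ 2 ^ (n + 3) := one_le_pow₀ (by norm_num)
    have : (1 : ℝ) ≤ 2 ^ (n + 3) * n := by nlinarith
    have : (1 : ℝ) ≤ 2 ^ (n + 3) * n * (n + 1) := by nlinarith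
    nlinarith
  have ε1 : ε < 1 := by
    rw [hε, div_lt_one (by positivity)]
    nlinarith [mul_le_mul_of_nonneg_left r2 θ0.le]
  have hηε : η < ε := by
    rw [hε, lt_div_iff₀ (by positivity), hη]
    rw [div_lt_iff₀ (by positivity)] at m2
    have := mul_lt_mul_of_pos_right m2 (by positivity : 0 < r ^ 2)
    have e3 : m * θ ^ 2 * r ^ 2 = θ * r * (θ * r * m) := by ring
    rw [e3, e1, show 2 * n + 4 = 2 * n + 2 + 2 by ring, pow_add] at this
    linarith
  refine ⟨(1 - η) / (1 - ε), by rw [one_lt_div (by linarith)]; linarith, ?_⟩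
  rw [div_div]
  refine le_cst_of_good hn1 (by linarith) fun K hK => ?_
  obtain ⟨o, o1, o2⟩ := exists_center hn1 hK
  let K₀ : Set (E n) := (fun k => k + -o) '' K
  have hK₀ : IsBody K₀ := by
    refine ⟨hK.1.image (by fun_prop), by simpa [K₀, add_comm] using hK.2.1.translate (-o), ?_⟩
    exact hK.2.2.image _ |>.mono ((Homeomorph.addRight (-o)).image_interior K).le
  have h0 : (0 : E n) ∈ interior K₀ :=
    ((Homeomorph.addRight (-o)).image_interior K).le ⟨o, o1, by simp⟩
  have h := exists_gau hn1 hK₀ h0 (by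
    rintro _ ⟨k, hk, rfl⟩
    exact ⟨_, o2 k hk, by module⟩)
  have hV : volume K₀ = volume K := by
    simp only [K₀]; rw [image_add_right, measure_preimage_add_right]
  have hσ : sigma (n - 1) K₀ = sigma (n - 1) K := sigma_translate _ _ _
  have mB := h.measurableSet_kink r (θ * r / 2) (θ * r)
  have mS := hK₀.1.measurableSet.diff mB
  refine ⟨(fun k => k + -o) ⁻¹' (K₀ \ Gau.kink K₀ (gauge K₀) r (θ * r / 2) (θ * r)), ?_,
    (measurable_add_const _) mS, ?_, fun v hv x => ?_⟩
  · rintro z ⟨⟨k, hk, e⟩, -⟩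
    rwa [← add_right_cancel e]
  · rw [measure_preimage_add_right, ← hV]
    have hB := h.vol_kink hn1 hK₀ (m := m) (by exact_mod_cast m0) r0 r1 (A := θ * r)
      (by positivity)
    rw [e1, div_one, ← e2] at hB
    refine ENNReal.le_of_add_le_add_left (a := ENNReal.ofReal η * volume K₀)
      (ENNReal.mul_ne_top ENNReal.ofReal_ne_top hK₀.1.measure_ne_top) ?_
    rw [← add_mul, ← ENNReal.ofReal_add η0.le (by linarith), add_sub_cancel, ENNReal.ofReal_one,
      one_mul]
    calc volume K₀ = _ := (measure_inter_add_sdiff K₀ mB).symm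
      _ ≤ _ := add_le_add ((measure_mono inter_subset_right).trans hB) le_rfl
  · have := h.good hn hK₀ θ0 r0 r2 θe.le v hv (x + -o)
    rw [hV, hσ] at this
    convert this using 3
    ext t
    simp only [mem_preimage]
    rw [add_right_comm]

theorem uniform :
    ∃ γ : ℝ, 1 < γ ∧ ∀ n : ℕ, 3 ≤ n → ENNReal.ofReal (γ / n) ≤ cst n (n - 1) := by
  have s0 : 1.4 < √2 := by rw [Real.lt_sqrt (by norm_num)]; norm_num
  obtain ⟨N, hN⟩ := asymptotic (γ := 1.2) (by linarith)
  have key : ∀ M : ℕ, ∃ γ : ℝ, 1 < γ ∧ ∀ n : ℕ, 3 ≤ n → n < M →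
      ENNReal.ofReal (γ / n) ≤ cst n (n - 1) := by
    intro M
    induction M with
    | zero => exact ⟨2, by norm_num, fun n _ h => absurd h (by omega)⟩
    | succ M ih =>
      obtain ⟨γ, h1, h2⟩ := ih
      by_cases hM : 3 ≤ M
      · obtain ⟨γ', h3, h4⟩ := strict hM
        refine ⟨min γ γ', lt_min h1 h3, fun n a b => ?_⟩
        rcases Nat.lt_succ_iff_lt_or_eq.1 b with b | rfl
        · refine le_trans (ENNReal.ofReal_le_ofReal ?_) (h2 n a b)
          gcongr; exact min_le_left _ _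
        · refine le_trans (ENNReal.ofReal_le_ofReal ?_) h4
          gcongr; exact min_le_right _ _
      · exact ⟨γ, h1, fun n a b => h2 n a (by omega)⟩
  obtain ⟨γ, h1, h2⟩ := key N
  refine ⟨min γ 1.2, lt_min h1 (by norm_num), fun n a => ?_⟩
  rcases lt_or_ge n N with b | b
  · refine le_trans (ENNReal.ofReal_le_ofReal ?_) (h2 n a b)
    gcongr; exact min_le_left _ _
  · refine le_trans (ENNReal.ofReal_le_ofReal ?_) (hN n b)
    gcongr; exact min_le_right _ _

end Pool.Agent.Lib.MP_fedf83_gt.B
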