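import Pool.Agent.Lib.MP_fedf83_gt.BCore

namespace Pool.Agent.Lib.MP_fedf83_gt.B

open MeasureTheory Module Set
open scoped InnerProductSpace

variable {n : ℕ}

/-- Splitting off the first coordinate. -/
noncomputable def split (n : ℕ) : E (n + 1) ≃L[ℝ] ℝ × E n :=
  LinearEquiv.toContinuousLinearEquiv
    { toFun := fun z => (z 0, WithLp.toLp 2 fun i => z i.succ)
      invFun := fun p => WithLp.toLp 2 (Fin.cons p.1 p.2.ofLp)
      map_add' := fun x y => by ext <;> simp
      map_smul' := fun a x => by ext <;> simp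
      left_inv := fun w => by
        ext i
        refine Fin.cases ?_ (fun i => ?_) i <;> simp
      right_inv := fun x => by ext <;> simp }

theorem split_fst (z : E (n + 1)) : (split n z).1 = z 0 := rfl

theorem split_snd (z : E (n + 1)) (i : Fin n) : (split n z).2 i = z i.succ := rfl

theorem inner_split (z w : E (n + 1)) :
    ⟪z, w⟫_ℝ = (split n z).1 * (split n w).1 + ⟪(split n z).2, (split n w).2⟫_ℝ := by
  simp [PiLp.inner_apply, Fin.sum_univ_succ, split_fst, split_snd, mul_comm]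

theorem norm_split (z : E (n + 1)) : ‖z‖ ^ 2 = (split n z).1 ^ 2 + ‖(split n z).2‖ ^ 2 := by
  rw [← real_inner_self_eq_norm_sq, ← real_inner_self_eq_norm_sq, inner_split, sq]

theorem split_mp : MeasurePreserving (split n) := by
  have h1 := PiLp.volume_preserving_ofLp (Fin (n + 1))
  have h2 := volume_preserving_piFinSuccAbove (fun _ : Fin (n + 1) => ℝ) 0
  have h3 := (MeasurePreserving.id (volume : Measure ℝ)).prod (PiLp.volume_preserving_toLp (Fin n))
  exact h3.comp (h2.comp h1)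

/-- The prism over `K`. -/
def prodI (K : Set (E n)) (a b : ℝ) : Set (E (n + 1)) := split n ⁻¹' (Icc a b ×ˢ K)

theorem isBody_prodI {K : Set (E n)} (hK : IsBody K) {a b : ℝ} (hab : a < b) :
    IsBody (prodI K a b) := by
  refine ⟨(split n).toHomeomorph.isCompact_preimage.2 (isCompact_Icc.prod hK.1),
    ((convex_Icc a b).prod hK.2.1).linear_preimage (split n).toLinearEquiv.toLinearMap, ?_⟩
  obtain ⟨x, hx⟩ := hK.2.2
  have h := (split n).toHomeomorph.preimage_interior (Icc a b ×ˢ K)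
  simp only [ContinuousLinearEquiv.coe_toHomeomorph] at h
  refine ⟨(split n).symm ((a + b) / 2, x), ?_⟩
  rw [prodI, ← h, mem_preimage, ContinuousLinearEquiv.apply_symm_apply, interior_prod_eq,
    interior_Icc]
  exact ⟨⟨by linarith, by linarith⟩, hx⟩

theorem prodI_cover {K : Set (E n)} {ι : Type} {F : ι → Set (E n)} (h : K ⊆ ⋃ i, F i)
    (a b : ℝ) : prodI K a b ⊆ ⋃ i, prodI (F i) a b := by
  intro z hz
  obtain ⟨i, h⟩ := mem_iUnion.1 (h hz.2)
  exact mem_iUnion.2 ⟨i, hz.1, h⟩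

/-! ### Frames -/

theorem vol_frame {l : ℕ} (U : E l →ₗᵢ[ℝ] E n) (K : Set (E n)) :
    volume ((LinearMap.range U.toLinearMap).orthogonalProjectionOnto '' K) =
      volume (LinearMap.adjoint U.toLinearMap '' K) := by
  let e : E l ≃ₗᵢ[ℝ] LinearMap.range U.toLinearMap := U.equivRange
  rw [← MeasurePreserving.measure_preimage_equiv (f := e.toHomeomorph.toMeasurableEquiv)
    e.measurePreserving]
  congr 1
  have key : ∀ x, (LinearMap.range U.toLinearMap).orthogonalProjectionOnto x =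
      e (LinearMap.adjoint U.toLinearMap x) := by
    intro x
    apply Subtype.ext
    change (LinearMap.range U.toLinearMap).starProjection x = U (LinearMap.adjoint U.toLinearMap x)
    refine Submodule.eq_starProjection_of_mem_of_inner_eq_zero ⟨_, rfl⟩ ?_
    rintro _ ⟨y, rfl⟩
    rw [inner_sub_left]
    change _ - ⟪U _, U y⟫_ℝ = 0
    rw [U.inner_map_map, LinearMap.adjoint_inner_left, sub_self]
  ext y
  simp only [mem_preimage, mem_image, key]
  constructor
  · rintro ⟨x, hx, h⟩; exact ⟨x, hx, e.injective h⟩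
  · rintro ⟨x, hx, rfl⟩; exact ⟨x, hx, rfl⟩

theorem sigma_le_frame {l : ℕ} (U : E l →ₗᵢ[ℝ] E n) (K : Set (E n)) :
    sigma l K ≤ volume (LinearMap.adjoint U.toLinearMap '' K) := by
  rw [← vol_frame]
  unfold sigma
  refine iInf₂_le (f := fun (L : Submodule ℝ (E n)) (_ : finrank ℝ L = l) =>
    volume (L.orthogonalProjectionOnto '' K)) _ ?_
  rw [LinearMap.finrank_range_of_inj U.injective]; simp

theorem le_sigma_frame {l : ℕ} (K : Set (E n)) (a : ENNReal)
    (h : ∀ U : E l →ₗᵢ[ℝ] E n, a ≤ volume (LinearMap.adjoint U.toLinearMap '' K)) :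
    a ≤ sigma l K := by
  refine le_iInf₂ fun L hL => ?_
  let e : E l ≃ₗᵢ[ℝ] L := ((stdOrthonormalBasis ℝ L).reindex (finCongr hL)).repr.symm
  let U : E l →ₗᵢ[ℝ] E n := L.subtypeₗᵢ.comp e.toLinearIsometry
  have : LinearMap.range U.toLinearMap = L := by
    ext x
    constructor
    · rintro ⟨y, rfl⟩; exact (e y).2
    · intro hx
      exact ⟨e.symm ⟨x, hx⟩, by simp [U]⟩
  have h2 := h U
  rw [← vol_frame] at h2
  clear_value U
  clear e
  subst this
  exact h2

theorem sigma_prodI_le_same {l : ℕ} (K : Set (E n)) (a b : ℝ) :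
    sigma l (prodI K a b) ≤ sigma l K := by
  refine le_sigma_frame K _ fun U => ?_
  let U' : E l →ₗᵢ[ℝ] E (n + 1) :=
    { toLinearMap := (split n).symm.toLinearEquiv.toLinearMap ∘ₗ (LinearMap.inr ℝ ℝ (E n)) ∘ₗ
        U.toLinearMap
      norm_map' := fun y => by
        rw [← sq_eq_sq₀ (norm_nonneg _) (norm_nonneg _), norm_split]
        simp }
  refine (sigma_le_frame U' _).trans (measure_mono ?_)
  rintro _ ⟨z, hz, rfl⟩
  refine ⟨_, hz.2, ?_⟩
  refine ext_inner_right ℝ fun y => ?_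
  rw [LinearMap.adjoint_inner_left, LinearMap.adjoint_inner_left, inner_split]
  simp [U']

theorem exists_tilt {l : ℕ} (hl : l ≤ n) (B : E l →ₗ[ℝ] E n) (s : E l)
    (h : ∀ y y', ⟪s, y⟫_ℝ * ⟪s, y'⟫_ℝ + ⟪B y, B y'⟫_ℝ = ⟪y, y'⟫_ℝ) :
    ∃ w : E n, ‖w‖ ≤ 1 ∧ ∀ y, ‖B y + ⟪s, y⟫_ℝ • w‖ = ‖y‖ := by
  suffices H : ∃ (w : E n) (lam : ℝ), 0 ≤ lam ∧ 2 * lam + ‖w‖ ^ 2 = 1 ∧
      ∀ y, ⟪B y, w⟫_ℝ = lam * ⟪s, y⟫_ℝ ∨ s = 0 by
    obtain ⟨w, lam, h0, h1, h2⟩ := H
    refine ⟨w, by nlinarith [norm_nonneg w], fun y => ?_⟩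
    rw [← sq_eq_sq₀ (norm_nonneg _) (norm_nonneg _), norm_add_sq_real, inner_smul_right,
      norm_smul, mul_pow, Real.norm_eq_abs, sq_abs]
    have h3 := h y y
    rw [real_inner_self_eq_norm_sq, real_inner_self_eq_norm_sq] at h3
    rcases h2 y with h2 | h2
    · rw [h2]
      linear_combination h3 + ⟪s, y⟫_ℝ ^ 2 * h1
    · subst h2
      simpa using h3
  have hs := h s s
  rw [real_inner_self_eq_norm_sq, real_inner_self_eq_norm_sq] at hs
  by_cases h0 : s = 0
  · exact ⟨0, 1 / 2, by norm_num, by simp, fun y => Or.inr h0⟩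
  have hs0 : 0 < ‖s‖ ^ 2 := by positivity
  have hs1 : ‖s‖ ^ 2 ≤ 1 := by
    by_contra hc
    nlinarith [sq_nonneg ‖B s‖]
  rcases hs1.lt_or_eq with h1 | h1
  · set c := √(1 - ‖s‖ ^ 2) with hc
    have c0 : 0 < c := Real.sqrt_pos.2 (by linarith)
    have c2 : c ^ 2 = 1 - ‖s‖ ^ 2 := Real.sq_sqrt (by linarith)
    refine ⟨(c * (1 + c))⁻¹ • B s, c / (1 + c), by positivity, ?_, fun y => Or.inl ?_⟩
    · rw [norm_smul, mul_pow, Real.norm_eq_abs, sq_abs]
      have : ‖B s‖ ^ 2 = (1 - c ^ 2) * c ^ 2 := by rw [c2]; linarith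
      rw [this]
      field_simp
      ring
    · rw [inner_smul_right]
      have h3 := h y s
      rw [real_inner_self_eq_norm_sq, real_inner_comm s y] at h3
      have : ⟪B y, B s⟫_ℝ = c ^ 2 * ⟪s, y⟫_ℝ := by rw [c2]; linarith
      rw [this]
      field_simp
  · have hBs : B s = 0 := by
      rw [h1] at hs
      have : ‖B s‖ ^ 2 = 0 := by linarith
      simpa using this
    have hker : 0 < finrank ℝ (LinearMap.ker B) :=
      (Module.finrank_pos_iff (R := ℝ)).2 ⟨⟨⟨s, hBs⟩, 0, fun h => h0 (congrArg Subtype.val h)⟩⟩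
    have h2 := B.finrank_range_add_finrank_ker
    have h3 := (LinearMap.range B).finrank_add_finrank_orthogonal
    simp only [finrank_euclideanSpace, Fintype.card_fin] at h2 h3
    have : Nontrivial (LinearMap.range B)ᗮ := (Module.finrank_pos_iff (R := ℝ)).1 (by omega)
    obtain ⟨w, hw⟩ := exists_norm_eq (LinearMap.range B)ᗮ zero_le_one
    refine ⟨w, 0, le_rfl, by simpa using Or.inl hw, fun y => Or.inl ?_⟩
    rw [zero_mul]
    exact w.2 _ ⟨y, rfl⟩

theorem le_sigma_prodI_same {l : ℕ} (hl : l ≤ n) (K : Set (E n)) {T : ℝ}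
    (hT : ∀ x ∈ K, ‖x‖ ≤ T) : sigma l K ≤ sigma l (prodI K (-T) T) := by
  refine le_sigma_frame _ _ fun U' => ?_
  let B : E l →ₗ[ℝ] E n := (LinearMap.snd ℝ ℝ (E n)) ∘ₗ (split n).toLinearEquiv.toLinearMap ∘ₗ
    U'.toLinearMap
  let s : E l := LinearMap.adjoint U'.toLinearMap ((split n).symm (1, 0))
  have hs : ∀ y, ⟪s, y⟫_ℝ = (split n (U' y)).1 := by
    intro y
    rw [LinearMap.adjoint_inner_left, inner_split]
    simp
  obtain ⟨w, hw, hw'⟩ := exists_tilt hl B s (by
    intro y y'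
    rw [hs, hs, ← U'.inner_map_map, inner_split]
    rfl)
  let U : E l →ₗᵢ[ℝ] E n :=
    { toLinearMap := B + (innerₛₗ ℝ s).smulRight w
      norm_map' := fun y => by simpa using hw' y }
  refine (sigma_le_frame U _).trans (measure_mono ?_)
  rintro _ ⟨x, hx, rfl⟩
  refine ⟨(split n).symm (⟪x, w⟫_ℝ, x), ?_, ?_⟩
  · rw [prodI, mem_preimage, ContinuousLinearEquiv.apply_symm_apply]
    refine ⟨abs_le.1 ((abs_real_inner_le_norm _ _).trans ?_), hx⟩
    have := hT x hx
    nlinarith [norm_nonneg x]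
  · refine ext_inner_right ℝ fun y => ?_
    rw [LinearMap.adjoint_inner_left, LinearMap.adjoint_inner_left, inner_split]
    simp only [ContinuousLinearEquiv.apply_symm_apply, U, LinearMap.add_apply,
      LinearMap.smulRight_apply, innerₛₗ_apply_apply, inner_add_right, inner_smul_right, hs]
    simp [B]
    ring

theorem cst_succ_same {l : ℕ} (hl : l ≤ n) : cst (n + 1) l ≤ cst n l := by
  refine le_cst fun K hK I _ F hF hc => ?_
  obtain ⟨T, hT⟩ := hK.1.isBounded.exists_norm_le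
  have hT' : ∀ x ∈ K, ‖x‖ ≤ |T| + 1 := fun x hx => by linarith [hT x hx, le_abs_self T]
  have hlt : -(|T| + 1) < |T| + 1 := by linarith [abs_nonneg T]
  refine (cst_le_of_cover (isBody_prodI hK hlt) (fun i => prodI (F i) (-(|T| + 1)) (|T| + 1))
      (fun i => isBody_prodI (hF i) hlt) (prodI_cover hc _ _)).trans ?_
  gcongr with i
  · exact sigma_prodI_le_same _ _ _
  · exact le_sigma_prodI_same hl K hT'

end Pool.Agent.Lib.MP_fedf83_gt.B
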