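import Pool.Agent.Lib.MP_fedf83_gt.BCone

namespace Pool.Agent.Lib.MP_fedf83_gt.B

open MeasureTheory Module Set Filter Topology
open scoped ENNReal Pointwise

variable {n : ℕ}

theorem vol_ne_zero {K : Set (E n)} (hK : IsBody K) : volume K ≠ 0 :=
  (Measure.measure_pos_of_nonempty_interior _ hK.2.2).ne'

theorem vol_toReal_pos {K : Set (E n)} (hK : IsBody K) : 0 < (volume K).toReal :=
  ENNReal.toReal_pos (vol_ne_zero hK) hK.1.measure_ne_top

theorem ZZ_ne_zero {K : Set (E n)} (hK : IsBody K) {κ : ℝ} (hκ : 0 < κ) : ZZ K κ ≠ 0 := by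
  rw [ZZ_eq hK.1.measurableSet hκ]
  refine mul_ne_zero ?_ (vol_ne_zero hK)
  simp only [ne_eq, ENNReal.ofReal_eq_zero, not_le]
  positivity

theorem ZZ_ne_top {K : Set (E n)} (hK : IsBody K) {κ : ℝ} (hκ : 0 < κ) : ZZ K κ ≠ ⊤ := by
  rw [ZZ_eq hK.1.measurableSet hκ]
  exact ENNReal.mul_ne_top (by simp) hK.1.measure_ne_top

theorem exists_closedBall {K : Set (E n)} (hK : IsBody K) :
    ∃ x0 ε, 0 < ε ∧ Metric.closedBall x0 ε ⊆ K := by
  obtain ⟨x, hx⟩ := hK.2.2
  obtain ⟨ε, h0, h⟩ := Metric.nhds_basis_closedBall.mem_iff.1 (mem_interior_iff_mem_nhds.1 hx)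
  exact ⟨x, ε, h0, h⟩

theorem MM_horiz (hn : 1 ≤ n) {K : Set (E n)} (hK : IsBody K) {κ : ℝ} (hκ : 0 < κ) (w : E n) :
    MM K κ (0, w) ≤
      ex (-(κ * ‖w‖ * (sigma (n - 1) K).toReal / (n * (volume K).toReal))) * MM K κ 0 := by
  rcases eq_or_ne w 0 with rfl | hw
  · simp [ex_zero, Prod.mk_zero_zero]
  obtain ⟨x0, ε, hε, hb⟩ := exists_closedBall hK
  set A := κ * ‖w‖ * (sigma (n - 1) K).toReal / (n * (volume K).toReal) with hA
  have V0 := vol_toReal_pos hK
  have A0 : 0 ≤ A := by positivity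
  have M0 : MM K κ 0 ≠ 0 := by rw [MM_zero]; exact ZZ_ne_zero hK hκ
  have M1 : MM K κ 0 ≠ ⊤ := by rw [MM_zero]; exact ZZ_ne_top hK hκ
  have key : ∀ ρ : ℝ, 0 < ρ → MM K κ (0, w) ≤ ex (-(A * Real.exp (-(κ * ρ)))) * MM K κ 0 := by
    intro ρ hρ
    have w0 : 0 < ‖w‖ := norm_pos_iff.2 hw
    set r := min (1 / 2) (ρ * ε / ‖w‖) with hr
    have r0 : 0 < r := lt_min (by norm_num) (by positivity)
    have r1 : r < 1 := (min_le_left _ _).trans_lt (by norm_num)
    have r2 : r * ‖w‖ ≤ ρ * ε := (le_div_iff₀ w0).1 (min_le_right _ _)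
    have h1 := MM_step hn hK hκ hb hw r0 hρ r2
    set x := r * (A * Real.exp (-(κ * ρ))) with hx
    have x0 : 0 ≤ x := by positivity
    have h2 : ‖w‖ₑ * (ENNReal.ofReal r * sigma (n - 1) K) *
        (ex (-(κ * ρ)) * ENNReal.ofReal ((n - 1).factorial / κ ^ n)) =
        ENNReal.ofReal x * MM K κ 0 := by
      rw [MM_zero, ZZ_eq hK.1.measurableSet hκ, ← ENNReal.ofReal_toReal hK.1.measure_ne_top,
        ← ENNReal.ofReal_toReal (sigma_lt_top hn hK.1).ne, ← ofReal_norm, ex,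
        ← ENNReal.ofReal_mul r0.le, ← ENNReal.ofReal_mul w0.le,
        ← ENNReal.ofReal_mul (Real.exp_pos _).le, ← ENNReal.ofReal_mul (by positivity),
        ← ENNReal.ofReal_mul (by positivity), ← ENNReal.ofReal_mul x0]
      congr 1
      obtain ⟨m, rfl⟩ : ∃ m, n = m + 1 := ⟨n - 1, by omega⟩
      rw [hx, hA, Nat.factorial_succ]
      simp only [Nat.add_sub_cancel]
      push_cast
      field_simp
      ring
    rw [h2] at h1
    have h3 : MM K κ (0, r • w) ≤ ex (-x) * MM K κ 0 := by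
      have : MM K κ 0 ≤ ex (-x) * MM K κ 0 + ENNReal.ofReal x * MM K κ 0 := by
        rw [← add_mul]
        refine le_mul_of_one_le_left' ?_
        rw [ex, ← ENNReal.ofReal_add (Real.exp_pos _).le x0, ENNReal.one_le_ofReal]
        linarith [Real.add_one_le_exp (-x)]
      exact ENNReal.le_of_add_le_add_right (ENNReal.mul_ne_top (by simp) M1) (h1.trans this)
    have h4 := MM_logConcave hK κ r0 r1 0 (0, w)
    simp only [smul_zero, zero_add, Prod.smul_mk] at h4
    have h5 : ex (-x) * MM K κ 0 =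
        MM K κ 0 ^ (1 - r) * (ex (-(A * Real.exp (-(κ * ρ)))) * MM K κ 0) ^ r := by
      rw [ENNReal.mul_rpow_of_nonneg _ _ r0.le, ex_rpow, mul_left_comm,
        ← ENNReal.rpow_add_of_nonneg _ _ (by linarith) r0.le]
      simp [hx]
    have h6 := h4.trans h3
    rw [h5, ENNReal.mul_le_mul_iff_right (by simp [M0, M1])
      (ENNReal.rpow_ne_top_of_nonneg (by linarith) M1), ENNReal.rpow_le_rpow_iff r0] at h6
    exact h6
  have hc : Continuous fun ρ : ℝ => ex (-(A * Real.exp (-(κ * ρ)))) := by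
    unfold ex
    exact ENNReal.continuous_ofReal.comp (by fun_prop)
  have ht : Tendsto (fun ρ : ℝ => ex (-(A * Real.exp (-(κ * ρ)))) * MM K κ 0) (𝓝[>] 0)
      (𝓝 (ex (-A) * MM K κ 0)) := by
    have := (hc.tendsto 0).mono_left (nhdsWithin_le_nhds (s := Ioi 0))
    simp only [mul_zero, neg_zero, Real.exp_zero, mul_one] at this
    exact ENNReal.Tendsto.mul_const this (Or.inr M1)
  exact ge_of_tendsto ht (eventually_mem_nhdsWithin.mono fun ρ hρ => key ρ hρ)

/-- Density of the difference of two independent points of the cone. -/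
noncomputable def HD (K : Set (E n)) (ν : ℝ) (d : ℝ × E n) : ℝ≥0∞ := ex (ν * d.1) * MM K (1 + ν) d

/-- Weight on the cone. -/
noncomputable def wt (K : Set (E n)) (κ : ℝ) (w : ℝ × E n) : ℝ≥0∞ :=
  (cone K).indicator (fun w => ex (-(κ * w.1))) w

theorem measurable_wt {K : Set (E n)} (hK : MeasurableSet K) (κ : ℝ) : Measurable (wt K κ) :=
  Measurable.indicator (by fun_prop) (measurableSet_cone hK)

theorem measurable_HD {K : Set (E n)} (hK : MeasurableSet K) (ν : ℝ) : Measurable (HD K ν) :=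
  Measurable.mul (by fun_prop) (measurable_MM hK _)

theorem pair_int {K : Set (E n)} (hK : MeasurableSet K) (ν : ℝ) {ψ : ℝ × E n → ℝ≥0∞}
    (hψ : Measurable ψ) :
    ∫⁻ y, ∫⁻ x, wt K ν y * (wt K 1 x * ψ (x - y)) = ∫⁻ d, ψ d * HD K ν d := by
  have m1 := measurable_wt hK 1
  have m2 := measurable_wt hK ν
  rw [lintegral_lintegral_swap (by fun_prop)]
  have : ∀ x : ℝ × E n, ∫⁻ y, wt K ν y * (wt K 1 x * ψ (x - y)) =
      ∫⁻ d, wt K ν (x - d) * (wt K 1 x * ψ d) := by
    intro x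
    rw [← lintegral_sub_left_eq_self _ x]
    simp
  simp only [this]
  rw [lintegral_lintegral_swap (by fun_prop)]
  congr with d
  rw [HD, MM, ← lintegral_const_mul _ (measurable_Mi' hK _ _),
    ← lintegral_const_mul _ ((measurable_Mi' hK _ _).const_mul _)]
  congr with x
  unfold wt Mi
  by_cases h1 : x ∈ cone K
  · by_cases h2 : x - d ∈ cone K
    · rw [indicator_of_mem h1, indicator_of_mem h2, 
        indicator_of_mem (show x ∈ {w | w ∈ cone K ∧ w - d ∈ cone K} from ⟨h1, h2⟩),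
        ← mul_assoc, ← ex_add, ← ex_add, mul_comm]
      congr 2
      simp only [Prod.fst_sub]; ring
    · simp [indicator, h2]
  · simp [indicator, h1]

theorem int_HD {K : Set (E n)} (hK : MeasurableSet K) (ν : ℝ) :
    ∫⁻ d, HD K ν d = ZZ K ν * ZZ K 1 := by
  have := pair_int hK ν (ψ := fun _ => 1) measurable_const
  simp only [mul_one, one_mul] at this
  rw [← this]
  simp only [lintegral_const_mul _ (measurable_wt hK 1)]
  rw [lintegral_mul_const _ (measurable_wt hK ν)]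
  rfl

theorem HD_four {K : Set (E n)} (hK : IsBody K) (ν : ℝ) {δ : ℝ} (h0 : 0 < δ) (h1 : δ < 1)
    (d : ℝ × E n) : HD K ν d * HD K ν 0 ≤ HD K ν ((1 - δ) • d) * HD K ν (δ • d) := by
  have a := MM_logConcave hK (1 + ν) h0 h1 d 0
  have b := MM_logConcave hK (1 + ν) h0 h1 0 d
  simp only [smul_zero, add_zero, zero_add] at a b
  have e : ∀ x : ℝ≥0∞, x = x ^ (1 - δ) * x ^ δ := fun x => by
    rw [← ENNReal.rpow_add_of_nonneg _ _ (by linarith) h0.le]; simp
  unfold HD
  rw [mul_mul_mul_comm, mul_mul_mul_comm (ex _) (MM K _ ((1 - δ) • d)), ← ex_add, ← ex_add]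
  refine mul_le_mul' ?_ ?_
  · rw [ex_le_ex]; simp; exact le_of_eq (by ring)
  · calc _ = (MM K (1 + ν) d ^ (1 - δ) * MM K (1 + ν) d ^ δ) *
          (MM K (1 + ν) 0 ^ (1 - δ) * MM K (1 + ν) 0 ^ δ) := by rw [← e, ← e]
      _ = (MM K (1 + ν) d ^ (1 - δ) * MM K (1 + ν) 0 ^ δ) *
          (MM K (1 + ν) 0 ^ (1 - δ) * MM K (1 + ν) d ^ δ) := by ring
      _ ≤ _ := mul_le_mul' a b

/-- The differences at which the density has dropped too fast. -/
def bad (K : Set (E n)) (ν δ θ : ℝ) : Set (ℝ × E n) := {d | HD K ν (δ • d) ≤ ex (-θ) * HD K ν 0}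

theorem measurableSet_bad {K : Set (E n)} (hK : MeasurableSet K) (ν δ θ : ℝ) :
    MeasurableSet (bad K ν δ θ) :=
  measurableSet_le ((measurable_HD hK ν).comp (measurable_const_smul δ)) measurable_const

theorem HD_zero (K : Set (E n)) (ν : ℝ) : HD K ν 0 = MM K (1 + ν) 0 := by simp [HD, ex_zero]

theorem bad_tail {K : Set (E n)} (hK : IsBody K) {ν δ : ℝ} (hν : 0 < ν) (h0 : 0 < δ) (h1 : δ < 1)
    (θ : ℝ) : ∫⁻ d, (bad K ν δ θ).indicator 1 d * HD K ν d ≤
      ENNReal.ofReal (Real.exp (-θ) / (1 - δ) ^ (n + 1)) * (ZZ K ν * ZZ K 1) := by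
  have hm := measurable_HD hK.1.measurableSet ν
  have H0 : HD K ν 0 ≠ 0 := by rw [HD_zero, MM_zero]; exact ZZ_ne_zero hK (by linarith)
  have H1 : HD K ν 0 ≠ ⊤ := by rw [HD_zero, MM_zero]; exact ZZ_ne_top hK (by linarith)
  have h2 : 0 < 1 - δ := by linarith
  have h3 : ∀ d, (bad K ν δ θ).indicator 1 d * HD K ν d ≤ ex (-θ) * HD K ν ((1 - δ) • d) := by
    intro d
    by_cases hd : d ∈ bad K ν δ θ
    · rw [indicator_of_mem hd, Pi.one_apply, one_mul, ← ENNReal.mul_le_mul_iff_left H0 H1]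
      refine (HD_four hK ν h0 h1 d).trans ?_
      rw [mul_comm (ex _), mul_assoc]
      gcongr
      exact hd
    · simp [hd]
  refine (lintegral_mono h3).trans (le_of_eq ?_)
  rw [lintegral_const_mul _ (by fun_prop), ← int_HD hK.1.measurableSet,
    lintegral_smul_arg volume hm h2, ← mul_assoc, ← ENNReal.ofReal_mul (by positivity)]
  simp only [finrank_prod, finrank_self, finrank_euclideanSpace, Fintype.card_fin]
  rw [add_comm 1 n, div_mul_cancel₀ _ (by positivity)]
  rfl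

theorem small_tail {K : Set (E n)} (hK : MeasurableSet K) {κ x : ℝ} (hκ : 0 < κ) (hx : 0 < x)
    (a : ℝ) : ∫⁻ w, wt K κ w * {w : ℝ × E n | w.1 < a}.indicator 1 w ≤
      ENNReal.ofReal (Real.exp (x * κ * a) / (1 + x) ^ (n + 1)) * ZZ K κ := by
  have h3 : ∀ w, wt K κ w * {w : ℝ × E n | w.1 < a}.indicator 1 w ≤
      ex (x * κ * a) * wt K ((1 + x) * κ) w := by
    intro w
    by_cases h1 : w ∈ {w : ℝ × E n | w.1 < a}
    · by_cases h2 : w ∈ cone K
      · rw [indicator_of_mem h1, Pi.one_apply, mul_one, wt, wt, indicator_of_mem h2,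
          indicator_of_mem h2, ← ex_add, ex_le_ex]
        have : w.1 < a := h1
        nlinarith [mul_pos hx hκ]
      · simp [wt, h2]
    · simp [h1]
  refine (lintegral_mono h3).trans (le_of_eq ?_)
  rw [lintegral_const_mul _ (measurable_wt hK _)]
  change _ * ZZ K _ = _
  rw [ZZ_eq hK hκ, ZZ_eq hK (by positivity), ← mul_assoc, ← mul_assoc, ex,
    ← ENNReal.ofReal_mul (by positivity), ← ENNReal.ofReal_mul (by positivity)]
  congr 2
  rw [mul_pow]
  field_simp

theorem select {K : Set (E n)} (hK : IsBody K) {ν : ℝ} (hν : 0 < ν)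
    {β : (ℝ × E n) × (ℝ × E n) → ℝ≥0∞} (hβ : Measurable β) {η : ℝ≥0∞}
    (h : ∫⁻ y, ∫⁻ x, wt K ν y * (wt K 1 x * β (x, y)) < η * (ZZ K ν * ZZ K 1)) :
    ∃ y ∈ cone K, ∃ T : ℝ, 0 < T ∧ ∫⁻ x in K, β ((T, T • x), y) < η * volume K := by
  by_contra hc
  push Not at hc
  refine absurd h (not_lt.2 ?_)
  have hKm := hK.1.measurableSet
  have h1 : ∀ y, wt K ν y * (η * ZZ K 1) ≤ ∫⁻ x, wt K ν y * (wt K 1 x * β (x, y)) := by
    intro y
    have m1 := measurable_wt hKm 1
    rw [lintegral_const_mul _ (by fun_prop)]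
    by_cases hy : y ∈ cone K
    swap
    · simp [wt, hy]
    gcongr
    have e : ∀ x, wt K 1 x * β (x, y) =
        (cone K).indicator (fun x => ex (-(1 * x.1)) * β (x, y)) x := by
      intro x
      by_cases hx : x ∈ cone K <;> simp [wt, hx]
    simp only [e]
    rw [slice hKm (by fun_prop), ZZ, slice hKm (by fun_prop),
      ← lintegral_const_mul _ (by fun_prop)]
    refine setLIntegral_mono' measurableSet_Ioi fun T hT => ?_
    dsimp only
    rw [setLIntegral_const, lintegral_const_mul _ (by fun_prop), mul_left_comm,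
      mul_left_comm η]
    gcongr
    exact hc y hy T hT
  refine le_trans (le_of_eq ?_) (lintegral_mono h1)
  rw [lintegral_mul_const _ (measurable_wt hKm ν), mul_left_comm]
  rfl

end Pool.Agent.Lib.MP_fedf83_gt.B
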