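import Mathlib

namespace Pool.Agent.Lib.MP_fedf83_gt.B

/-- The excess height of the wedge with squared midpoint parameter `T`. -/
noncomputable def del (T : ℝ) : ℝ := (T + T ^ 2) / 196 + 12 * T ^ 3 / 38416 + 1 / 100000

theorem del_pos {T : ℝ} (h : 0 ≤ T) : 0 < del T := by unfold del; positivity

theorem poly_aux {T S : ℝ} (hT : 0 ≤ T) (hT1 : T ≤ 1) (hS : 0 ≤ S) (hS1 : S ≤ 1) :
    T * S * (119 / 100 + T + S) ^ 2 + 2 * ((1 + S) * T * (T + T ^ 2 + 62 / 1000 * T ^ 3 + 2 / 1000)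
      + (1 + T) * S * (S + S ^ 2 + 62 / 1000 * S ^ 3 + 2 / 1000)) ≤
      12 * (T ^ 3 + S ^ 3) + 99 / 100 * (T + T ^ 2 + S + S ^ 2) := by
  have a1 : T * S ≤ (T ^ 2 + S ^ 2) / 2 := by nlinarith [sq_nonneg (T - S)]
  have a2 : T ^ 2 * S + T * S ^ 2 ≤ T ^ 3 + S ^ 3 := by
    nlinarith [mul_nonneg (add_nonneg hT hS) (sq_nonneg (T - S))]
  have a3 : T ^ 3 * S ≤ T ^ 3 := mul_le_of_le_one_right (by positivity) hS1
  have a4 : T * S ^ 3 ≤ S ^ 3 := mul_le_of_le_one_left (by positivity) hT1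
  have b1 : T ^ 4 ≤ T ^ 3 := pow_le_pow_of_le_one hT hT1 (by norm_num)
  have b2 : S ^ 4 ≤ S ^ 3 := pow_le_pow_of_le_one hS hS1 (by norm_num)
  have a5 : 2 * (T ^ 2 * S ^ 2) ≤ T ^ 4 + S ^ 4 := by nlinarith [sq_nonneg (T ^ 2 - S ^ 2)]
  have a6 : T ^ 4 * S ≤ T ^ 4 := mul_le_of_le_one_right (by positivity) hS1
  have a7 : T * S ^ 4 ≤ S ^ 4 := mul_le_of_le_one_left (by positivity) hT1
  have a8 : T * S ≤ T := mul_le_of_le_one_right hT hS1
  have a9 : T * S ≤ S := mul_le_of_le_one_left hS hT1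
  have c1 : 0 ≤ T * (98 / 100 - 172 / 100 * T + 136 / 100 * T ^ 2) :=
    mul_nonneg hT (by nlinarith [sq_nonneg (T - 63 / 100)])
  have c2 : 0 ≤ S * (98 / 100 - 172 / 100 * S + 136 / 100 * S ^ 2) :=
    mul_nonneg hS (by nlinarith [sq_nonneg (S - 63 / 100)])
  have d1 : 0 ≤ T ^ 3 := by positivity
  have d2 : 0 ≤ S ^ 3 := by positivity
  have d3 : 0 ≤ T ^ 2 := by positivity
  have d4 : 0 ≤ S ^ 2 := by positivity
  nlinarith

theorem main_ineq {t s P Q : ℝ} (ht : t ^ 2 ≤ 1) (hs : s ^ 2 ≤ 1)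
    (hP : 995 / 1000 ≤ P) (hP1 : P ≤ 1 + t ^ 2) (hQ : 995 / 1000 ≤ Q) (hQ1 : Q ≤ 1 + s ^ 2) :
    (Q * t ^ 2 + P * s ^ 2) / 196 + 19 / 1000000 ≤
      del (t ^ 2) * (1 + P * Q / 196 + t * s / 7 - Q * t ^ 2 / 98) +
      del (s ^ 2) * (1 + P * Q / 196 - t * s / 7 - P * s ^ 2 / 98) := by
  set T := t ^ 2 with hT
  set S := s ^ 2 with hS
  have T0 : 0 ≤ T := sq_nonneg _
  have S0 : 0 ≤ S := sq_nonneg _
  have dT := del_pos T0
  have dS := del_pos S0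
  have h1 : Q * T ≤ (1 + S) * T := by gcongr
  have h2 : P * S ≤ (1 + T) * S := by gcongr
  have h3 : 99 / 100 ≤ P * Q := by nlinarith
  have h4 : 99 / 100 * (T + T ^ 2 + S + S ^ 2) / 196 ≤ (del T + del S) * (P * Q) := by
    have : (T + T ^ 2 + S + S ^ 2) / 196 ≤ del T + del S := by
      unfold del
      have : 0 ≤ T ^ 3 := by positivity
      have : 0 ≤ S ^ 3 := by positivity
      linarith
    calc _ = (T + T ^ 2 + S + S ^ 2) / 196 * (99 / 100) := by ring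
      _ ≤ _ := by gcongr
  have e1 : del T ≤ (T + T ^ 2 + 62 / 1000 * T ^ 3 + 2 / 1000) / 196 := by
    unfold del
    have : 0 ≤ T ^ 3 := by positivity
    linarith
  have e2 : del S ≤ (S + S ^ 2 + 62 / 1000 * S ^ 3 + 2 / 1000) / 196 := by
    unfold del
    have : 0 ≤ S ^ 3 := by positivity
    linarith
  have h5 : del T * (Q * T) ≤ (T + T ^ 2 + 62 / 1000 * T ^ 3 + 2 / 1000) / 196 * ((1 + S) * T) := by
    have : 0 ≤ Q * T := by positivity
    gcongr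
  have h6 : del S * (P * S) ≤ (S + S ^ 2 + 62 / 1000 * S ^ 3 + 2 / 1000) / 196 * ((1 + T) * S) := by
    have : 0 ≤ P * S := by positivity
    gcongr
  set W := (1 + T + S) + 12 / 196 * (T ^ 2 + T * S + S ^ 2) with hW
  have hW0 : 0 ≤ W := by positivity
  have hW1 : W ≤ 119 / 100 + T + S := by
    have : T ^ 2 ≤ 1 := pow_le_one₀ T0 ht
    have : S ^ 2 ≤ 1 := pow_le_one₀ S0 hs
    have : T * S ≤ 1 := mul_le_one₀ ht S0 hs
    linarith
  have hd : del T - del S = (T - S) * W / 196 := by unfold del; rw [hW]; ring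
  have h7 : -((T - S) ^ 2 / 196) - T * S * W ^ 2 / 38416 ≤ t * s / 7 * (del T - del S) := by
    rw [hd]
    have : T * S = (t * s) ^ 2 := by rw [hT, hS]; ring
    rw [this]
    nlinarith [sq_nonneg ((T - S) / 14 + t * s * W / 196)]
  have h8 : T * S * W ^ 2 ≤ T * S * (119 / 100 + T + S) ^ 2 := by gcongr
  have h9 := poly_aux T0 ht S0 hs
  have h10 : del T + del S = (T + T ^ 2 + S + S ^ 2) / 196 + 12 * (T ^ 3 + S ^ 3) / 38416
      + 2 / 100000 := by unfold del; ring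
  nlinarith

/-- The covering inequality. -/
theorem cover_ineq {x y Z t s : ℝ} (hy : |y| ≤ Z) (hx : |x| ≤ 1 - Z)
    (ht : |t| ≤ 1) (hs : |s| ≤ 1) {P Q a b : ℝ}
    (hP : P = 1 + t ^ 2 - 1 / 10 ^ 8) (hQ : Q = 1 + s ^ 2 - 1 / 10 ^ 8)
    (ha : a = Z - t / 7 * x) (hb : b = 1 - Z - s / 7 * y)
    (h1 : |y - P / 14 * x - t * a| ≤ a / 10000) (h2 : |-x - Q / 14 * y - s * b| ≤ b / 10000) :
    a ≤ 1 / 2 + del (t ^ 2) ∨ b ≤ 1 / 2 + del (s ^ 2) := by
  by_contra hcon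
  push Not at hcon
  obtain ⟨ca, cb⟩ := hcon
  have t2 : t ^ 2 ≤ 1 := by rw [← sq_abs]; exact pow_le_one₀ (abs_nonneg _) ht
  have s2 : s ^ 2 ≤ 1 := by rw [← sq_abs]; exact pow_le_one₀ (abs_nonneg _) hs
  have T0 := sq_nonneg t
  have S0 := sq_nonneg s
  have hP0 : 995 / 1000 ≤ P := by linarith
  have hQ0 : 995 / 1000 ≤ Q := by linarith
  have hP2 : P ≤ 2 := by linarith
  have hQ2 : Q ≤ 2 := by linarith
  have key := main_ineq t2 s2 hP0 (by linarith) hQ0 (by linarith)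
  set e := y - P / 14 * x - t * a with he
  set f := -x - Q / 14 * y - s * b with hf
  have dT := del_pos T0
  have dS := del_pos S0
  have hab : a + b ≤ 8 / 7 := by
    have i1 : |t * x| ≤ |x| := by
      rw [abs_mul]; exact mul_le_of_le_one_left (abs_nonneg _) ht
    have i2 : |s * y| ≤ |y| := by
      rw [abs_mul]; exact mul_le_of_le_one_left (abs_nonneg _) hs
    have := (abs_le.1 (i1.trans hx)).1
    have := (abs_le.1 (i2.trans hy)).1
    rw [ha, hb]; linarith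
  have hts : |t * s| ≤ 1 := by rw [abs_mul]; exact mul_le_one₀ ht (abs_nonneg _) hs
  have hts' := abs_le.1 hts
  have PQ0 : 0 ≤ P * Q := by positivity
  have c1 : 0 < 1 + P * Q / 196 + t * s / 7 - Q * t ^ 2 / 98 := by
    have : Q * t ^ 2 ≤ 2 := by nlinarith
    linarith
  have c2 : 0 < 1 + P * Q / 196 - t * s / 7 - P * s ^ 2 / 98 := by
    have : P * s ^ 2 ≤ 2 := by nlinarith
    linarith
  have id1 : (a - 1 / 2) * (1 + P * Q / 196 + t * s / 7 - Q * t ^ 2 / 98) +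
      (b - 1 / 2) * (1 + P * Q / 196 - t * s / 7 - P * s ^ 2 / 98) =
      (Q * t ^ 2 + P * s ^ 2) / 196 + ((t + P / 14 * s) * f + (Q / 14 * t - s) * e) / 7 := by
    have : a + b = 1 - t / 7 * x - s / 7 * y := by rw [ha, hb]; ring
    rw [he, hf]
    linear_combination (1 + P * Q / 196) * this
  have b1 : |t + P / 14 * s| ≤ 8 / 7 := by
    have : |P / 14 * s| ≤ 1 / 7 := by
      rw [abs_mul, abs_of_nonneg (by positivity : 0 ≤ P / 14)]
      nlinarith [abs_nonneg s]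
    linarith [abs_add_le t (P / 14 * s)]
  have b2 : |Q / 14 * t - s| ≤ 8 / 7 := by
    have : |Q / 14 * t| ≤ 1 / 7 := by
      rw [abs_mul, abs_of_nonneg (by positivity : 0 ≤ Q / 14)]
      nlinarith [abs_nonneg t]
    linarith [abs_sub (Q / 14 * t) s]
  have b3 : (t + P / 14 * s) * f ≤ 8 / 7 * (b / 10000) := by
    refine (le_abs_self _).trans ?_
    rw [abs_mul]; gcongr
  have b4 : (Q / 14 * t - s) * e ≤ 8 / 7 * (a / 10000) := by
    refine (le_abs_self _).trans ?_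
    rw [abs_mul]; gcongr
  have m1 := mul_lt_mul_of_pos_right (show del (t ^ 2) < a - 1 / 2 by linarith) c1
  have m2 := mul_lt_mul_of_pos_right (show del (s ^ 2) < b - 1 / 2 by linarith) c2
  linarith

/-- Polynomial majorant of the cost density. -/
noncomputable def hh (T : ℝ) : ℝ :=
  9975 / 10000 - 4959 / 1000000 * T + 1839 / 100000 * T ^ 2 + 11 / 10000 * T ^ 3
    + 74 / 1000000 * T ^ 4

theorem inv_sqrt_le {u : ℝ} (hu : 0 ≤ u) : 1 ≤ (1 - u / 2 + 3 / 8 * u ^ 2) * √(1 + u) := by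
  have h0 : 0 < 1 - u / 2 + 3 / 8 * u ^ 2 := by nlinarith [sq_nonneg (u - 2 / 3)]
  have h1 : 1 ≤ (1 - u / 2 + 3 / 8 * u ^ 2) ^ 2 * (1 + u) := by
    have : (1 - u / 2 + 3 / 8 * u ^ 2) ^ 2 * (1 + u) - 1 =
        u ^ 3 * (5 / 8 - 15 / 64 * u + 9 / 64 * u ^ 2) := by ring
    have h2 : 0 ≤ 5 / 8 - 15 / 64 * u + 9 / 64 * u ^ 2 := by nlinarith [sq_nonneg (u - 1)]
    have := mul_nonneg (pow_nonneg hu 3) h2
    linarith
  have h2 : (1 - u / 2 + 3 / 8 * u ^ 2) * √(1 + u) =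
      √((1 - u / 2 + 3 / 8 * u ^ 2) ^ 2 * (1 + u)) := by
    rw [Real.sqrt_mul (sq_nonneg _), Real.sqrt_sq h0.le]
  rw [h2]
  exact Real.one_le_sqrt.2 h1

theorem cost_le {T P : ℝ} (h0 : 0 ≤ T) (h1 : T ≤ 1) (hP : P = 1 + T - 1 / 10 ^ 8) :
    4 * (1 / 2 + del T) ^ 2 ≤ hh T * √(1 + (P / 14) ^ 2 + 2 * (T / 49)) := by
  set u := (1 - 1 / 5000 ^ 2 + 10 * T + T ^ 2) / 196 with hu
  have u0 : 0 ≤ u := by rw [hu]; nlinarith [sq_nonneg T]
  have hle : √(1 + u) ≤ √(1 + (P / 14) ^ 2 + 2 * (T / 49)) := by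
    apply Real.sqrt_le_sqrt
    rw [hu, hP]; nlinarith
  have hm : 4 * (1 / 2 + del T) ^ 2 * (1 - u / 2 + 3 / 8 * u ^ 2) ≤ hh T := by
    have p5 : T ^ 5 ≤ T ^ 4 := pow_le_pow_of_le_one h0 h1 (by norm_num)
    have p6 : T ^ 6 ≤ T ^ 4 := pow_le_pow_of_le_one h0 h1 (by norm_num)
    have p7 : T ^ 7 ≤ T ^ 4 := pow_le_pow_of_le_one h0 h1 (by norm_num)
    have p8 : T ^ 8 ≤ T ^ 4 := pow_le_pow_of_le_one h0 h1 (by norm_num)
    have p9 : T ^ 9 ≤ T ^ 4 := pow_le_pow_of_le_one h0 h1 (by norm_num)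
    have p10 : T ^ 10 ≤ T ^ 4 := pow_le_pow_of_le_one h0 h1 (by norm_num)
    have q2 : 0 ≤ T ^ 2 := by positivity
    have q3 : 0 ≤ T ^ 3 := by positivity
    have q4 : 0 ≤ T ^ 4 := by positivity
    rw [hu]; unfold del hh
    ring_nf
    ring_nf at p5 p6 p7 p8 p9 p10 q2 q3 q4
    linarith
  have hi := inv_sqrt_le u0
  have hA : 0 ≤ 4 * (1 / 2 + del T) ^ 2 := by positivity
  have hpos : 0 ≤ hh T := le_trans (mul_nonneg hA (by nlinarith [sq_nonneg (u - 2 / 3)])) hm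
  calc 4 * (1 / 2 + del T) ^ 2 ≤ 4 * (1 / 2 + del T) ^ 2 *
        ((1 - u / 2 + 3 / 8 * u ^ 2) * √(1 + u)) := le_mul_of_one_le_right hA hi
    _ = (4 * (1 / 2 + del T) ^ 2 * (1 - u / 2 + 3 / 8 * u ^ 2)) * √(1 + u) := by ring
    _ ≤ _ := by gcongr

/-- An antiderivative of a slightly larger polynomial. -/
noncomputable def HH (t : ℝ) : ℝ :=
  99750001 / 100000000 * t - 4959 / 1000000 * t ^ 3 / 3 + 1839 / 100000 * t ^ 5 / 5
    + 11 / 10000 * t ^ 7 / 7 + 74 / 1000000 * t ^ 9 / 9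

theorem tele (t : ℝ) : hh (t ^ 2) / 5000 ≤ HH (t + 1 / 10000) - HH (t - 1 / 10000) := by
  have q2 : 0 ≤ t ^ 2 := by positivity
  have q4 : 0 ≤ t ^ 4 := by positivity
  have q6 : 0 ≤ t ^ 6 := by positivity
  unfold hh HH
  ring_nf
  ring_nf at q2 q4 q6
  linarith

/-- Midpoint parameter of the `k`-th wedge. -/
noncomputable def tm (k : ℕ) : ℝ := -1 + k / 5000 + 1 / 10000

theorem sum_hh : ∑ k ∈ Finset.range 10000, hh (tm k ^ 2) / 5000 ≤ 2 * (9997 / 10000) := by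
  have h : ∑ k ∈ Finset.range 10000, hh (tm k ^ 2) / 5000 ≤
      ∑ k ∈ Finset.range 10000, (HH (-1 + ((k + 1 : ℕ) : ℝ) / 5000) - HH (-1 + (k : ℝ) / 5000)) := by
    refine Finset.sum_le_sum fun k _ => ?_
    have := tele (tm k)
    have e1 : tm k + 1 / 10000 = -1 + ((k + 1 : ℕ) : ℝ) / 5000 := by
      unfold tm; push_cast; ring
    have e2 : tm k - 1 / 10000 = -1 + (k : ℝ) / 5000 := by unfold tm; ring
    rwa [e1, e2] at this
  rw [Finset.sum_range_sub (fun k : ℕ => HH (-1 + (k : ℝ) / 5000))] at h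
  refine h.trans ?_
  unfold HH
  norm_num

end Pool.Agent.Lib.MP_fedf83_gt.B
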