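import Pool.Agent.Lib.MP_fedf83_gt.BPrism
import Pool.Agent.Lib.MP_fedf83_gt.BTetraAlg

namespace Pool.Agent.Lib.MP_fedf83_gt.B

open MeasureTheory Module Set

theorem exists_diag {n : ℕ} (c : Fin n → ℝ) (hc : ∀ i, c i ≠ 0) :
    ∃ Φ : (Fin n → ℝ) ≃L[ℝ] EuclideanSpace ℝ (Fin n), ∀ w i, Φ w i = c i * w i := by
  let e : (Fin n → ℝ) ≃ₗ[ℝ] EuclideanSpace ℝ (Fin n) :=
    { toFun := fun w => WithLp.toLp 2 fun i => c i * w i
      invFun := fun x i => x i / c i
      map_add' := fun x y => by ext i; simp [mul_add]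
      map_smul' := fun a x => by ext i; simp [mul_left_comm]
      left_inv := fun w => by ext i; simp [hc i]
      right_inv := fun x => by ext i; simp [mul_div_cancel₀, hc i] }
  exact ⟨e.toContinuousLinearEquiv, fun w i => rfl⟩

theorem exists_phi3 : ∃ Φ : (Fin 3 → ℝ) ≃L[ℝ] EuclideanSpace ℝ (Fin 3),
    ∀ w, ‖Φ w‖ = √(w 0 ^ 2 + w 1 ^ 2 + 2 * w 2 ^ 2) := by
  obtain ⟨Φ, h⟩ := exists_diag ![1, 1, √2] (by
    intro i; fin_cases i <;> simp)
  refine ⟨Φ, fun w => ?_⟩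
  rw [EuclideanSpace.norm_eq]
  simp [Fin.sum_univ_three, h, mul_pow]

/-- The tetrahedron in coordinates. -/
def tet : Set (Fin 3 → ℝ) := {w | 0 ≤ w 2 - w 1 ∧ 0 ≤ w 2 + w 1 ∧ 0 ≤ 1 - w 2 - w 0 ∧ 0 ≤ 1 - w 2 + w 0}

theorem isBodyC_tet : IsBodyC tet := by
  refine ⟨?_, ?_, ?_⟩
  · refine (isCompact_Icc (a := fun _ => (-1 : ℝ)) (b := fun _ => 1)).of_isClosed_subset ?_ ?_
    · unfold tet
      simp only [ofPred_and]
      refine IsClosed.inter ?_ (IsClosed.inter ?_ (IsClosed.inter ?_ ?_)) <;>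
        exact isClosed_le (by fun_prop) (by fun_prop)
    · rintro w ⟨h0, h1, h2, h3⟩
      constructor <;> intro i <;> fin_cases i <;> simp <;> linarith
  · rintro x ⟨h0, h1, h2, h3⟩ y ⟨g0, g1, g2, g3⟩ a b ha hb hab
    simp only [tet, mem_ofPred_eq, Pi.add_apply, Pi.smul_apply, smul_eq_mul]
    refine ⟨by nlinarith, by nlinarith, by nlinarith, by nlinarith⟩
  · have : {w : Fin 3 → ℝ | 0 < w 2 - w 1 ∧ 0 < w 2 + w 1 ∧ 0 < 1 - w 2 - w 0 ∧ 0 < 1 - w 2 + w 0}
        ⊆ interior tet := by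
      refine interior_maximal ?_ ?_
      · rintro w ⟨h0, h1, h2, h3⟩
        exact ⟨h0.le, h1.le, h2.le, h3.le⟩
      · simp only [ofPred_and]
        refine IsOpen.inter ?_ (IsOpen.inter ?_ (IsOpen.inter ?_ ?_)) <;>
          exact isOpen_lt (by fun_prop) (by fun_prop)
    exact ⟨![0, 0, 1 / 2], this (by simp only [mem_ofPred_eq]; simp; norm_num)⟩

theorem sum_pos_part {a b c : ℝ} (h : a ^ 2 + b ^ 2 + 2 * c ^ 2 = 1) :
    1 ≤ max (c - b) 0 + max (c + b) 0 + max (-c - a) 0 + max (-c + a) 0 := by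
  have hm : ∀ x : ℝ, max x 0 = (x + |x|) / 2 := by
    intro x
    rcases le_total 0 x with hx | hx
    · rw [max_eq_left hx, abs_of_nonneg hx]; ring
    · rw [max_eq_right hx, abs_of_nonpos hx]; ring
  rw [hm, hm, hm, hm]
  set M := (|c - b| + |c + b|) / 2
  set N := (|-c - a| + |-c + a|) / 2
  have m1 : |b| ≤ M := by
    have := abs_sub (c + b) (c - b)
    rw [show c + b - (c - b) = 2 * b by ring, abs_mul, abs_two] at this
    simp only [M]; linarith
  have m2 : |c| ≤ M := by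
    have := abs_add_le (c + b) (c - b)
    rw [show c + b + (c - b) = 2 * c by ring, abs_mul, abs_two] at this
    simp only [M]; linarith
  have m3 : |a| ≤ N := by
    have := abs_sub (-c + a) (-c - a)
    rw [show -c + a - (-c - a) = 2 * a by ring, abs_mul, abs_two] at this
    simp only [N]; linarith
  have m4 : |c| ≤ N := by
    have := abs_add_le (-c + a) (-c - a)
    rw [show -c + a + (-c - a) = -(2 * c) by ring, abs_neg, abs_mul, abs_two] at this
    simp only [N]; linarith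
  have ha := abs_nonneg a
  have hb := abs_nonneg b
  have hc := abs_nonneg c
  have k1 : b ^ 2 ≤ M ^ 2 := by rw [← sq_abs b]; gcongr
  have k2 : a ^ 2 ≤ N ^ 2 := by rw [← sq_abs a]; gcongr
  have k3 : c ^ 2 ≤ M * N := by
    rw [← sq_abs c, sq]; gcongr
  have : 1 ≤ M + N := by
    by_contra hc
    push Not at hc
    nlinarith
  simp only [M, N] at this
  linarith

theorem tet_lower (v : Fin 3 → ℝ) (hv : v 0 ^ 2 + v 1 ^ 2 + 2 * v 2 ^ 2 = 1) :
    ∃ C : Set (Fin 3 → ℝ),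
      MeasurableSet C ∧ (∀ x ∈ C, ∃ k ∈ tet, ∃ t : ℝ, x = k + t • v) ∧
      (∀ x, volume {t : ℝ | x + t • v ∈ C} ≤ 1) ∧ 1 ≤ volume C := by
  let g : Fin 4 → (Fin 3 → ℝ) → ℝ :=
    ![fun w => w 2 - w 1, fun w => w 2 + w 1, fun w => 1 - w 2 - w 0, fun w => 1 - w 2 + w 0]
  let c : Fin 4 → ℝ := ![v 2 - v 1, v 2 + v 1, -v 2 - v 0, -v 2 + v 0]
  let P : Fin 4 → Fin 3 → ℝ := ![![-1, 0, 0], ![-1, 0, 0], ![0, -1, 1], ![0, -1, 1]]
  let a : Fin 4 → Fin 3 → ℝ := ![![2, 0, 0], ![2, 0, 0], ![0, 2, 0], ![0, 2, 0]]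
  let b : Fin 4 → Fin 3 → ℝ := ![![1, 1, 1], ![1, -1, 1], ![1, 1, -1], ![-1, 1, -1]]
  let F : Fin 4 → Set (Fin 3 → ℝ) := fun i =>
    {f | ∃ α β : ℝ, 0 < α ∧ 0 < β ∧ α + β < 1 ∧ f = P i + α • a i + β • b i}
  let S : Finset (Fin 4) := Finset.univ.filter fun i => 0 < c i
  have hS : ∀ i ∈ S, 0 < c i := fun i hi => (Finset.mem_filter.1 hi).2
  have hdet : ∀ i, |det3 (a i) (b i) v| = 2 * |c i| := by
    intro i
    rw [← abs_two, ← abs_mul]
    fin_cases i
    · congr 1; simp [det3, a, b, c]; ring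
    · rw [← abs_neg]; congr 1; simp [det3, a, b, c]; ring
    · congr 1; simp [det3, a, b, c]; ring
    · rw [← abs_neg]; congr 1; simp [det3, a, b, c]; ring
  have hdet0 : ∀ i ∈ S, det3 (a i) (b i) v ≠ 0 := by
    intro i hi h
    have := hdet i
    rw [h, abs_zero, abs_of_pos (hS i hi)] at this
    linarith [hS i hi]
  obtain ⟨C, h1, h2, h3, h4⟩ := front_lower S tet v g c hS
    (by
      intro i _ x t
      fin_cases i <;> simp [g, c] <;> ring)
    F
    (by
      rintro i _ f ⟨α, β, h0, h1, h2, rfl⟩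
      fin_cases i <;> simp [tet, P, a, b] <;> refine ⟨?_, ?_, ?_⟩ <;> linarith)
    (by
      rintro i _ f ⟨α, β, h0, h1, h2, rfl⟩
      fin_cases i <;> simp [g, P, a, b])
    (by
      rintro i _ j _ hij f ⟨α, β, h0, h1, h2, rfl⟩
      fin_cases i <;> fin_cases j <;> simp [g, P, a, b] at hij ⊢ <;> linarith)
    (fun i => aff3 (P i) (a i) (b i) v prismO)
    (fun i hi => (isOpen_aff3 _ (hdet0 i hi) isOpen_prismO).measurableSet)
    (by
      intro i _ x hx
      obtain ⟨w, ⟨h0, h1, h2, h3, h4⟩, rfl⟩ := mem_aff3.1 hx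
      exact ⟨_, ⟨w 0, w 1, h0, h1, h2, rfl⟩, w 2, h3.le, h4.le, rfl⟩)
  refine ⟨C, h1, h2, h3, le_trans ?_ h4⟩
  have h5 : ∀ i ∈ S, ENNReal.ofReal (c i) ≤ volume (aff3 (P i) (a i) (b i) v prismO) := by
    intro i hi
    rw [vol_aff3, hdet, abs_of_pos (hS i hi), mul_comm 2, ENNReal.ofReal_mul (hS i hi).le,
      mul_assoc]
    refine le_mul_of_one_le_right' ?_
    calc (1 : ENNReal) = 2 * (1 / 2) := by
          rw [one_div, ENNReal.mul_inv_cancel (by simp) (by simp)]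
      _ ≤ _ := by
          rw [ENNReal.ofReal_ofNat]
          gcongr
          exact vol_prismO
  refine le_trans ?_ (Finset.sum_le_sum h5)
  rw [← ENNReal.ofReal_sum_of_nonneg (fun i hi => (hS i hi).le), ENNReal.one_le_ofReal,
    Finset.sum_filter]
  have : ∀ i, (if 0 < c i then c i else 0) = max (c i) 0 := by
    intro i
    split_ifs with h
    · rw [max_eq_left h.le]
    · rw [max_eq_right (not_lt.1 h)]
  simp only [this, Fin.sum_univ_four]
  exact sum_pos_part hv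

theorem discrete_ivt (f : ℕ → ℝ) (h0 : 0 ≤ f 0) :
    ∀ N, f (N + 1) ≤ 0 → ∃ k ≤ N, 0 ≤ f k ∧ f (k + 1) ≤ 0 := by
  intro N
  induction N with
  | zero => intro h; exact ⟨0, le_rfl, h0, h⟩
  | succ N ih =>
    intro h
    rcases le_total 0 (f (N + 1)) with h1 | h1
    · exact ⟨N + 1, le_rfl, h1, h⟩
    · obtain ⟨k, hk, h2⟩ := ih h1
      exact ⟨k, by omega, h2⟩

theorem wedge_exists (x : ℝ) {y Z : ℝ} (hy : |y| ≤ Z) : ∃ k : Fin 10000,
    |y - (1 + tm k ^ 2 - 1 / 10 ^ 8) / 14 * x - tm k * (Z - tm k / 7 * x)| ≤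
      (Z - tm k / 7 * x) / 10000 := by
  obtain ⟨k, hk, h1, h2⟩ := discrete_ivt
    (fun j => y - (-1 + j / 5000) * Z - (1 - (-1 + (j : ℝ) / 5000) ^ 2) / 14 * x)
    (by simp; linarith [(abs_le.1 hy).1]) 9999 (by norm_num; linarith [(abs_le.1 hy).2])
  refine ⟨⟨k, by omega⟩, ?_⟩
  simp only [tm]
  push_cast at h2
  rw [abs_le]
  constructor <;> nlinarith

theorem abs_tm (k : Fin 10000) : |tm k| ≤ 1 := by
  have h1 : (k : ℝ) ≤ 9999 := by
    have := k.2
    exact_mod_cast (by omega : (k : ℕ) ≤ 9999)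
  have h0 : (0 : ℝ) ≤ (k : ℝ) := by positivity
  rw [abs_le, tm]
  constructor <;> linarith

theorem wedge_mem {x y Z t p A : ℝ} (hx : |x| ≤ 1) (hA : 0 < A)
    (h1 : |y - p * x - t * (Z - t / 7 * x)| ≤ (Z - t / 7 * x) / 10000) (h2 : Z - t / 7 * x ≤ A) :
    ∃ w ∈ prismC, x = -1 + w 2 * 2 ∧
      y = -p + w 0 * (A * (t + 1 / 10000)) + w 1 * (A * (t - 1 / 10000)) + w 2 * (2 * p) ∧
      Z = -(t / 7) + w 0 * A + w 1 * A + w 2 * (2 * (t / 7)) := by
  set a := Z - t / 7 * x with ha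
  set e := y - p * x - t * a with he
  have h1' := abs_le.1 h1
  have hx' := abs_le.1 hx
  refine ⟨![(a + 10000 * e) / (2 * A), (a - 10000 * e) / (2 * A), (x + 1) / 2], ?_, ?_, ?_, ?_⟩
  · simp only [prismC, mem_ofPred_eq]
    simp only [Matrix.cons_val_zero, Matrix.cons_val_one, Matrix.cons_val]
    refine ⟨div_nonneg (by linarith) (by linarith), div_nonneg (by linarith) (by linarith), ?_,
      by linarith, by linarith⟩
    rw [← add_div, div_le_one (by linarith)]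
    linarith
  · simp only [Matrix.cons_val]; ring
  · simp only [Matrix.cons_val_zero, Matrix.cons_val_one, Matrix.cons_val]
    field_simp
    rw [he]; ring
  · simp only [Matrix.cons_val_zero, Matrix.cons_val_one, Matrix.cons_val]
    field_simp
    rw [ha]; ring

theorem cst_three_two : cst 3 2 ≤ 9997 / 20000 := by
  obtain ⟨Φ, hΦ⟩ := exists_phi3
  let A : Fin 10000 → ℝ := fun k => 1 / 2 + del (tm k ^ 2)
  let p : Fin 10000 → ℝ := fun k => (1 + tm k ^ 2 - 1 / 10 ^ 8) / 14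
  have hA : ∀ k, 0 < A k := fun k => by
    have := del_pos (sq_nonneg (tm k)); simp only [A]; linarith
  let P0 : Bool × Fin 10000 → Fin 3 → ℝ := fun i =>
    if i.1 then ![-1, -p i.2, -(tm i.2 / 7)] else ![p i.2, -1, 1 + tm i.2 / 7]
  let a : Bool × Fin 10000 → Fin 3 → ℝ := fun i =>
    if i.1 then ![0, A i.2 * (tm i.2 + 1 / 10000), A i.2]
    else ![-(A i.2 * (tm i.2 + 1 / 10000)), 0, -A i.2]
  let b : Bool × Fin 10000 → Fin 3 → ℝ := fun i =>
    if i.1 then ![0, A i.2 * (tm i.2 - 1 / 10000), A i.2]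
    else ![-(A i.2 * (tm i.2 - 1 / 10000)), 0, -A i.2]
  let v : Bool × Fin 10000 → Fin 3 → ℝ := fun i =>
    if i.1 then ![2, 2 * p i.2, 2 * (tm i.2 / 7)] else ![-(2 * p i.2), 2, -(2 * (tm i.2 / 7))]
  have hdet : ∀ i, |det3 (a i) (b i) (v i)| = A i.2 ^ 2 / 2500 := by
    rintro ⟨s, k⟩
    rw [← abs_of_nonneg (show 0 ≤ A k ^ 2 / 2500 by positivity)]
    cases s
    · rw [← abs_neg]; congr 1; simp [det3, a, b, v]; ring
    · congr 1; simp [det3, a, b, v]; ring
  have hdet0 : ∀ i, det3 (a i) (b i) (v i) ≠ 0 := by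
    intro i h
    have := hdet i
    rw [h, abs_zero] at this
    have := hA i.2
    have : 0 < A i.2 ^ 2 / 2500 := by positivity
    linarith
  have hnorm : ∀ i, ‖Φ (v i)‖ = 2 * √(1 + p i.2 ^ 2 + 2 * (tm i.2 ^ 2 / 49)) := by
    rintro ⟨s, k⟩
    rw [hΦ, show (2 : ℝ) * √(1 + p k ^ 2 + 2 * (tm k ^ 2 / 49)) =
      √(2 ^ 2 * (1 + p k ^ 2 + 2 * (tm k ^ 2 / 49))) by
        rw [Real.sqrt_mul (by norm_num), Real.sqrt_sq (by norm_num)]]
    congr 1
    cases s <;> simp [v] <;> ring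
  have ht2 : ∀ k : Fin 10000, tm k ^ 2 ≤ 1 := fun k => by
    rw [← sq_abs]; exact pow_le_one₀ (abs_nonneg _) (abs_tm k)
  have hcost : ∀ k : Fin 10000, 4 * A k ^ 2 ≤
      hh (tm k ^ 2) * √(1 + p k ^ 2 + 2 * (tm k ^ 2 / 49)) := fun k =>
    cost_le (sq_nonneg _) (ht2 k) rfl
  have hh0 : ∀ k : Fin 10000, 0 ≤ hh (tm k ^ 2) := by
    intro k
    by_contra h
    have h1 := hcost k
    have := mul_nonpos_of_nonpos_of_nonneg (not_le.1 h).le
      (Real.sqrt_nonneg (1 + p k ^ 2 + 2 * (tm k ^ 2 / 49)))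
    have := hA k
    have : 0 < A k ^ 2 := by positivity
    linarith
  have key := cst_le_coords (n := 3) (by norm_num) Φ isBodyC_tet
    (fun i => aff3 (P0 i) (a i) (b i) (v i) prismC) (fun i => isBodyC_aff3 _ (hdet0 i))
    (by
      rintro w ⟨h0, h1, h2, h3⟩
      have hy : |w 1| ≤ w 2 := abs_le.2 ⟨by linarith, by linarith⟩
      have hx : |w 0| ≤ 1 - w 2 := abs_le.2 ⟨by linarith, by linarith⟩
      obtain ⟨k, hk⟩ := wedge_exists (w 0) hy
      obtain ⟨l, hl⟩ := wedge_exists (w 1) (y := -w 0) (Z := 1 - w 2) (by rwa [abs_neg])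
      rcases cover_ineq hy hx (abs_tm k) (abs_tm l) rfl rfl rfl rfl hk hl with h | h
      · obtain ⟨u, hu, e0, e1, e2⟩ := wedge_mem (by linarith [abs_nonneg (w 1)]) (hA k) hk h
        refine mem_iUnion.2 ⟨(true, k), mem_aff3.2 ⟨u, hu, ?_⟩⟩
        ext i
        fin_cases i <;> simp [P0, a, b, v, p] <;> linarith
      · obtain ⟨u, hu, e0, e1, e2⟩ := wedge_mem (by linarith [abs_nonneg (w 0)]) (hA l) hl h
        refine mem_iUnion.2 ⟨(false, l), mem_aff3.2 ⟨u, hu, ?_⟩⟩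
        ext i
        fin_cases i <;> simp [P0, a, b, v, p] <;> linarith)
    (fun i => ENNReal.ofReal (hh (tm i.2 ^ 2) / 5000 / 8))
    (by
      intro i
      refine ⟨v i, ?_, _, (isBodyC_aff3 (P0 i) (hdet0 i)).1.measurableSet,
        fun x hx => fiber_aff3 _ _ _ _ hx, ?_⟩
      · intro h
        apply hdet0 i
        rw [h]; simp [det3]
      · rw [vol_aff3, hdet, ← ofReal_norm, hnorm, ← ENNReal.ofReal_mul (by positivity)]
        calc ENNReal.ofReal (A i.2 ^ 2 / 2500) * volume prismC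
            ≤ ENNReal.ofReal (A i.2 ^ 2 / 2500) * ENNReal.ofReal (1 / 2) := by
              gcongr
              refine vol_prismC.trans (le_of_eq ?_)
              rw [ENNReal.ofReal_div_of_pos (by norm_num)]; simp
          _ ≤ _ := by
              rw [← ENNReal.ofReal_mul (by positivity)]
              apply ENNReal.ofReal_le_ofReal
              have := hcost i.2
              linarith)
    1
    (by
      intro v hv
      rw [hΦ, Real.sqrt_eq_one] at hv
      exact tet_lower v hv)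
  refine key.trans ?_
  rw [div_one, tsum_fintype, ← ENNReal.ofReal_sum_of_nonneg
    (fun i _ => by have := hh0 i.2; positivity), Fintype.sum_prod_type]
  simp only [Fintype.sum_bool]
  have hs := sum_hh
  rw [Finset.sum_range] at hs
  rw [← Finset.sum_div]
  have : (9997 / 20000 : ENNReal) = ENNReal.ofReal (9997 / 20000) := by
    rw [ENNReal.ofReal_div_of_pos (by norm_num)]; simp
  rw [this]
  apply ENNReal.ofReal_le_ofReal
  linarith

end Pool.Agent.Lib.MP_fedf83_gt.B
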