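import Pool.Agent.Lib.MP_fedf83_gt.BSucc

namespace Pool.Agent.Lib.MP_fedf83_gt.B

open MeasureTheory Module Set
open scoped InnerProductSpace Pointwise

variable {n : ℕ}

/-- The part of the cylinder over the shadow of `K` between two parallel hyperplanes. -/
def slab (L : Submodule ℝ (E n)) (v : E n) (K : Set (E n)) (c : ℝ) : Set (E n) :=
  {x | L.orthogonalProjectionOnto x ∈ L.orthogonalProjectionOnto '' K ∧ ⟪v, x⟫_ℝ ∈ Icc 0 c}

theorem measurableSet_slab (L : Submodule ℝ (E n)) (v : E n) {K : Set (E n)} (hK : IsCompact K)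
    (c : ℝ) : MeasurableSet (slab L v K c) := by
  have h1 : IsClosed (L.orthogonalProjectionOnto '' K) :=
    (hK.image L.orthogonalProjectionOnto.continuous).isClosed
  exact ((h1.preimage L.orthogonalProjectionOnto.continuous).inter
    (isClosed_Icc.preimage (by fun_prop : Continuous fun x : E n => ⟪v, x⟫_ℝ))).measurableSet

theorem slab_fiber (L : Submodule ℝ (E n)) {v : E n} (hv : ‖v‖ = 1) (hvL : v ∈ Lᗮ)
    {K : Set (E n)} (c : ℝ) {x : E n}
    (hx : L.orthogonalProjectionOnto x ∈ L.orthogonalProjectionOnto '' K) :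
    {t : ℝ | x + t • v ∈ slab L v K c} = Icc (-⟪v, x⟫_ℝ) (c - ⟪v, x⟫_ℝ) := by
  ext t
  simp only [slab, mem_ofPred_eq, proj_add_smul L hvL, hx, true_and, inner_add_right,
    inner_smul_right, real_inner_self_eq_norm_sq, hv, mem_Icc]
  constructor <;> rintro ⟨h1, h2⟩ <;> constructor <;> linarith

theorem vol_slab (L : Submodule ℝ (E n)) {v : E n} (hv : ‖v‖ = 1) (hvL : v ∈ Lᗮ)
    (hL : finrank ℝ Lᗮ = 1) {K : Set (E n)} (hK : IsCompact K) (c : ℝ) :
    volume (slab L v K c) = ENNReal.ofReal c * volume (L.orthogonalProjectionOnto '' K) := by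
  have hv0 : v ≠ 0 := by rintro rfl; simp at hv
  have hve : ‖v‖ₑ = 1 := by rw [← ofReal_norm, hv]; simp
  apply le_antisymm
  · have := le_proj L hv0 hvL hL (K := K) (measurableSet_slab L v hK c) (ENNReal.ofReal c)
      (by
        rintro x ⟨⟨k, hk, e⟩, -⟩
        obtain ⟨s, hs⟩ := exists_decomp L hv0 hvL hL x
        obtain ⟨s', hs'⟩ := exists_decomp L hv0 hvL hL k
        refine ⟨k, hk, s - s', ?_⟩
        rw [← e] at hs
        rw [hs]
        conv_rhs => rw [hs']
        module)
      (by
        intro x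
        by_cases hx : L.orthogonalProjectionOnto x ∈ L.orthogonalProjectionOnto '' K
        · rw [slab_fiber L hv hvL c hx]; simp
        · have : {t : ℝ | x + t • v ∈ slab L v K c} = ∅ := by
            ext t
            simp only [slab, mem_ofPred_eq, proj_add_smul L hvL, hx, false_and, mem_empty_iff_false]
          rw [this]; simp)
    rwa [hve, one_mul] at this
  · have := proj_le L hv0 hvL hL (K := K) (measurableSet_slab L v hK c) (ENNReal.ofReal c)
      (by
        intro x hx
        rw [slab_fiber L hv hvL c (mem_image_of_mem _ hx)]; simp)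
    rwa [hve, one_mul] at this

theorem vol_split {S : Set (ℝ × E n)} (hS : MeasurableSet S) :
    volume (split n ⁻¹' S) = (volume : Measure ℝ).prod volume S :=
  split_mp.measure_preimage hS.nullMeasurableSet

theorem sigma_prodI_le_thin (hn : 1 ≤ n) {K : Set (E n)} (hK : IsCompact K) (c : ℝ) :
    sigma n (prodI K 0 c) ≤ ENNReal.ofReal c * sigma (n - 1) K := by
  have key : ∀ (L : Submodule ℝ (E n)), finrank ℝ L = n - 1 → sigma n (prodI K 0 c) ≤
      ENNReal.ofReal c * volume (L.orthogonalProjectionOnto '' K) := by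
    intro L hL
    obtain ⟨h1, v, hv, hvL⟩ := exists_normal hn L hL
    have hm : MeasurableSet (Icc 0 c ×ˢ slab L v K 1) :=
      measurableSet_Icc.prod (measurableSet_slab L v hK 1)
    have hn1 : ‖(split n).symm (0, v)‖ = 1 := by
      rw [← sq_eq_sq₀ (norm_nonneg _) zero_le_one, norm_split]; simp [hv]
    have := sigma_le (v := (split n).symm (0, v)) (by intro h; simp [h] at hn1)
      (K := prodI K 0 c) (C := split n ⁻¹' (Icc 0 c ×ˢ slab L v K 1))
      ((split n).continuous.measurable hm) (by
        intro z hz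
        have : {t : ℝ | z + t • (split n).symm (0, v) ∈ split n ⁻¹' (Icc 0 c ×ˢ slab L v K 1)} =
            {t : ℝ | (split n z).2 + t • v ∈ slab L v K 1} := by
          ext t
          have := hz.1
          simp_all
        rw [this, slab_fiber L hv hvL 1 (mem_image_of_mem _ hz.2)]
        simp)
    rw [vol_split hm, Measure.prod_prod, vol_slab L hv hvL h1 hK, ← ofReal_norm, hn1] at this
    simpa using this
  rcases le_or_gt c 0 with hc | hc
  · have v : E n := EuclideanSpace.single ⟨0, hn⟩ 1
    have := key _ (finrank_orth_span (v := EuclideanSpace.single ⟨0, hn⟩ 1) (by simp))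
    rw [ENNReal.ofReal_of_nonpos hc] at this ⊢
    simpa using this
  · conv_rhs => unfold sigma
    rw [ENNReal.mul_iInf_of_ne (by simpa using hc) (by simp)]
    refine le_iInf fun L => ?_
    rw [ENNReal.mul_iInf_of_ne (by simpa using hc) (by simp)]
    exact le_iInf fun hL => key L hL

theorem sigma_lt_top (hn : 1 ≤ n) {K : Set (E n)} (hK : IsCompact K) : sigma (n - 1) K < ⊤ := by
  refine lt_of_le_of_lt (iInf₂_le (f := fun (L : Submodule ℝ (E n)) (_ : finrank ℝ L = n - 1) =>
    volume (L.orthogonalProjectionOnto '' K)) _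
    (finrank_orth_span (v := EuclideanSpace.single ⟨0, hn⟩ 1) (by simp))) ?_
  exact (hK.image (Submodule.orthogonalProjectionOnto _).continuous).measure_lt_top

theorem le_sigma_prodI_thin {K : Set (E n)} (hK : IsCompact K) {a b c : ℝ} (ha : 0 < a)
    (hb : 0 < b) (hab : a ^ 2 + b ^ 2 = 1) (hc : 0 ≤ c)
    (h : ENNReal.ofReal (a * c) * sigma (n - 1) K ≤ ENNReal.ofReal b * volume K) :
    ENNReal.ofReal (a * c) * sigma (n - 1) K ≤ sigma n (prodI K 0 c) := by
  refine le_sigma (n := n + 1) (by omega) _ fun u hu => ?_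
  obtain ⟨⟨s, u'⟩, rfl⟩ := (split n).symm.surjective u
  have hu2 : s ^ 2 + ‖u'‖ ^ 2 = 1 := by
    have := norm_split ((split n).symm (s, u'))
    rw [hu] at this
    simpa using this.symm
  rcases le_or_gt b |s| with hs | hs
  · have s0 : s ≠ 0 := by rintro rfl; simp at hs; linarith
    have hm : MeasurableSet {p : ℝ × E n | p.1 ∈ uIcc 0 s ∧ p.2 - (p.1 / s) • u' ∈ K} :=
      ((isClosed_Icc.preimage continuous_fst).inter
        (hK.isClosed.preimage (by fun_prop : Continuous fun p : ℝ × E n =>
          p.2 - (p.1 / s) • u'))).measurableSet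
    refine ⟨split n ⁻¹' {p : ℝ × E n | p.1 ∈ uIcc 0 s ∧ p.2 - (p.1 / s) • u' ∈ K},
      (split n).continuous.measurable hm, ?_, ?_, h.trans ?_⟩
    · rintro z ⟨-, hz⟩
      refine ⟨(split n).symm (0, (split n z).2 - ((split n z).1 / s) • u'), ?_,
        (split n z).1 / s, ?_⟩
      · rw [prodI, mem_preimage, ContinuousLinearEquiv.apply_symm_apply]
        exact ⟨⟨le_rfl, hc⟩, hz⟩
      · apply (split n).injective
        ext1 <;> simp [s0]
    · intro z
      have : {t : ℝ | z + t • (split n).symm (s, u') ∈ split n ⁻¹'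
          {p : ℝ × E n | p.1 ∈ uIcc 0 s ∧ p.2 - (p.1 / s) • u' ∈ K}} ⊆
          Icc (-((split n z).1 / s)) (1 - (split n z).1 / s) := by
        rintro t ⟨ht, -⟩
        simp only [map_add, map_smul, ContinuousLinearEquiv.apply_symm_apply, Prod.fst_add,
          Prod.smul_fst, smul_eq_mul] at ht
        set z0 := (split n z).1
        have e : z0 + t * s = (z0 / s + t) * s := by field_simp
        rw [e] at ht
        rcases lt_or_gt_of_ne s0 with h | h
        · rw [uIcc_of_ge h.le] at ht
          constructor <;> nlinarith [ht.1, ht.2]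
        · rw [uIcc_of_le h.le] at ht
          constructor <;> nlinarith [ht.1, ht.2]
      refine (measure_mono this).trans ?_
      simp
    · rw [vol_split hm, Measure.prod_apply hm]
      have : ∀ t : ℝ, volume (Prod.mk t ⁻¹'
          {p : ℝ × E n | p.1 ∈ uIcc 0 s ∧ p.2 - (p.1 / s) • u' ∈ K}) =
          (uIcc 0 s).indicator (fun _ => volume K) t := by
        intro t
        by_cases ht : t ∈ uIcc 0 s
        · rw [indicator_of_mem ht, ← measure_preimage_add_right volume (-((t / s) • u')) K]
          congr 1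
          ext x; simp [ht, sub_eq_add_neg]
        · rw [indicator_of_notMem ht]
          have : Prod.mk t ⁻¹'
            {p : ℝ × E n | p.1 ∈ uIcc 0 s ∧ p.2 - (p.1 / s) • u' ∈ K} = ∅ := by
            ext x; simp [ht]
          rw [this]; simp
      simp only [this]
      rw [lintegral_indicator_const measurableSet_uIcc, Real.volume_interval, mul_comm, sub_zero]
      gcongr
  · have hu' : a ≤ ‖u'‖ := by
      have : s ^ 2 < b ^ 2 := by rw [← sq_abs s]; gcongr
      exact (pow_le_pow_iff_left₀ ha.le (norm_nonneg _) two_ne_zero).1 (by linarith)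
    have u0 : 0 < ‖u'‖ := ha.trans_le hu'
    let v : E n := ‖u'‖⁻¹ • u'
    have hv : ‖v‖ = 1 := by simp [v, norm_smul, u0.ne']
    have hv0 : v ≠ 0 := by intro h; simp [h] at hv
    have huv : u' = ‖u'‖ • v := by simp [v, smul_smul, u0.ne']
    let L : Submodule ℝ (E n) := (ℝ ∙ v)ᗮ
    have h1 : v ∈ Lᗮ := Submodule.le_orthogonal_orthogonal _ (Submodule.mem_span_singleton_self v)
    have h2 : finrank ℝ Lᗮ = 1 := by
      rw [Submodule.orthogonal_orthogonal, finrank_span_singleton hv0]
    let S : Set (ℝ × E n) := ((Icc 0 c ×ˢ K) + (ℝ ∙ ((s, u') : ℝ × E n) : Set (ℝ × E n))) ∩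
      {p | ⟪v, p.2⟫_ℝ ∈ Icc 0 ‖u'‖}
    have hm : MeasurableSet S :=
      (((ℝ ∙ ((s, u') : ℝ × E n)).closed_of_finiteDimensional.add_left_of_isCompact
        (isCompact_Icc.prod hK)).inter
        (isClosed_Icc.preimage (by fun_prop : Continuous fun p : ℝ × E n =>
          ⟪v, p.2⟫_ℝ))).measurableSet
    refine ⟨split n ⁻¹' S, (split n).continuous.measurable hm, ?_, ?_, ?_⟩
    · rintro z ⟨⟨k, hk, w, hw, e⟩, -⟩
      obtain ⟨t, rfl⟩ := Submodule.mem_span_singleton.1 hw
      refine ⟨(split n).symm k, ?_, t, ?_⟩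
      · rw [prodI, mem_preimage, ContinuousLinearEquiv.apply_symm_apply]; exact hk
      · apply (split n).injective
        rw [← e]; simp
    · intro z
      have hvu : ⟪v, u'⟫_ℝ = ‖u'‖ := by
        conv_lhs => rw [huv]
        rw [inner_smul_right, real_inner_self_eq_norm_sq, hv]; ring
      have : {t : ℝ | z + t • (split n).symm (s, u') ∈ split n ⁻¹' S} ⊆
          Icc (-(⟪v, (split n z).2⟫_ℝ / ‖u'‖)) (1 - ⟪v, (split n z).2⟫_ℝ / ‖u'‖) := by
        rintro t ⟨-, ht⟩
        simp only [map_add, map_smul, ContinuousLinearEquiv.apply_symm_apply, Prod.snd_add,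
          Prod.smul_snd, mem_ofPred_eq, inner_add_right, inner_smul_right, hvu] at ht
        set z0 := ⟪v, (split n z).2⟫_ℝ
        have e : z0 + t * ‖u'‖ = (z0 / ‖u'‖ + t) * ‖u'‖ := by field_simp
        rw [e] at ht
        constructor <;> nlinarith [ht.1, ht.2]
      refine (measure_mono this).trans ?_
      simp
    · rw [vol_split hm, Measure.prod_apply_symm hm]
      have h3 : ∀ x : E n, (slab L v K ‖u'‖).indicator (fun _ => ENNReal.ofReal c) x ≤
          volume ((fun t : ℝ => (t, x)) ⁻¹' S) := by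
        intro x
        by_cases hx : x ∈ slab L v K ‖u'‖
        · rw [indicator_of_mem hx]
          obtain ⟨⟨k, hk, e⟩, hx2⟩ := hx
          obtain ⟨r, hr⟩ := exists_decomp L hv0 h1 h2 x
          obtain ⟨r', hr'⟩ := exists_decomp L hv0 h1 h2 k
          set τ := (r - r') / ‖u'‖
          have hxk : x = k + τ • u' := by
            rw [← e] at hr
            have e1 : τ • u' = (r - r') • v := by
              simp only [τ, v, smul_smul, div_eq_mul_inv]
            rw [hr, e1]
            conv_rhs => rw [hr']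
            module
          have : Icc (τ * s) (τ * s + c) ⊆ (fun t : ℝ => (t, x)) ⁻¹' S := by
            intro t ht
            refine ⟨⟨(t - τ * s, k), ⟨⟨by linarith [ht.1], by linarith [ht.2]⟩, hk⟩,
              τ • (s, u'), Submodule.smul_mem _ _ (Submodule.mem_span_singleton_self _), ?_⟩, hx2⟩
            ext1 <;> simp [hxk]
          refine le_trans ?_ (measure_mono this)
          simp
        · simp [hx]
      refine le_trans ?_ (lintegral_mono h3)
      rw [lintegral_indicator_const (measurableSet_slab L v hK _), vol_slab L hv h1 h2 hK,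
        ← mul_assoc, ← ENNReal.ofReal_mul hc, mul_comm c]
      gcongr
      exact iInf₂_le (f := fun (L : Submodule ℝ (E n)) (_ : finrank ℝ L = n - 1) =>
        volume (L.orthogonalProjectionOnto '' K)) _ (finrank_orth_span hv0)

theorem cst_succ_succ (hn : 1 ≤ n) : cst (n + 1) n ≤ cst n (n - 1) := by
  refine le_cst fun K hK I _ F hF hc => ?_
  refine ENNReal.le_of_forall_lt_one_mul_le fun a ha => ?_
  rcases eq_or_ne a 0 with rfl | a0
  · simp
  lift a to NNReal using ha.ne_top
  have a1 : (a : ℝ) < 1 := by exact_mod_cast ha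
  have a2 : (0 : ℝ) < a := by
    have : a ≠ 0 := by simpa using a0
    positivity
  set b := √(1 - (a : ℝ) ^ 2)
  have b0 : 0 < b := Real.sqrt_pos.2 (by nlinarith)
  have hab : (a : ℝ) ^ 2 + b ^ 2 = 1 := by rw [Real.sq_sqrt (by nlinarith)]; ring
  have hV : 0 < (volume K).toReal :=
    ENNReal.toReal_pos (Measure.measure_pos_of_nonempty_interior _ hK.2.2).ne' hK.1.measure_ne_top
  have hσ := (sigma_lt_top hn hK.1).ne
  set σ := (sigma (n - 1) K).toReal with hσ'
  have σ0 : 0 ≤ σ := ENNReal.toReal_nonneg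
  set c := b * (volume K).toReal / (σ + 1) with hcc
  have c0 : 0 < c := by positivity
  have h1 := le_sigma_prodI_thin hK.1 a2 b0 hab c0.le (by
    rw [← ENNReal.ofReal_toReal hσ, ← ENNReal.ofReal_toReal hK.1.measure_ne_top,
      ← ENNReal.ofReal_mul (by positivity), ← ENNReal.ofReal_mul b0.le]
    apply ENNReal.ofReal_le_ofReal
    rw [← hσ']
    have : c * (σ + 1) = b * (volume K).toReal := by rw [hcc]; field_simp
    have : a * c * σ ≤ 1 * c * σ := by gcongr
    nlinarith)
  have h2 : cst (n + 1) n ≤ (∑' i : I, sigma n (prodI (F i) 0 c)) / sigma n (prodI K 0 c) :=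
    cst_le_of_cover (isBody_prodI hK c0) (fun i => prodI (F i) 0 c)
      (fun i => isBody_prodI (hF i) c0) (prodI_cover hc _ _)
  have h3 : cst (n + 1) n ≤ (∑' i : I, ENNReal.ofReal c * sigma (n - 1) (F i)) /
      (ENNReal.ofReal (a * c) * sigma (n - 1) K) := by
    refine h2.trans ?_
    gcongr with i
    exact sigma_prodI_le_thin hn (hF i).1 c
  rw [ENNReal.tsum_mul_left, ENNReal.ofReal_mul a2.le, ENNReal.ofReal_coe_nnreal, mul_assoc,
    mul_left_comm, ENNReal.mul_div_mul_left _ _ (by simpa using c0) (by simp)] at h3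
  calc (a : ENNReal) * cst (n + 1) n
      ≤ a * ((∑' i : I, sigma (n - 1) (F i)) / (a * sigma (n - 1) K)) := by gcongr
    _ = _ := by rw [← mul_div_assoc, ENNReal.mul_div_mul_left _ _ a0 (by simp)]

theorem cst_le_codim_one {l : ℕ} : ∀ n, l + 1 ≤ n → cst n l ≤ cst (l + 1) l := by
  intro n hn
  induction n, hn using Nat.le_induction with
  | base => exact le_rfl
  | succ n hn ih => exact (cst_succ_same (by omega)).trans ih

theorem cst_codim_one_anti {k : ℕ} : ∀ l, k ≤ l → cst (l + 1) l ≤ cst (k + 1) k := by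
  intro l hl
  induction l, hl using Nat.le_induction with
  | base => exact le_rfl
  | succ l hl ih => exact (cst_succ_succ (n := l + 1) (by omega)).trans ih

end Pool.Agent.Lib.MP_fedf83_gt.B
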