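import Pool.Agent.Lib.MP_fedf83_gt.Frac

open MeasureTheory Set
open scoped ENNReal BigOperators

set_option linter.unusedSectionVars false
set_option linter.unusedSimpArgs false

namespace Pool.Agent.Lib.MP_fedf83_gt

noncomputable section

lemma slab_shift {ι : Type} [Fintype ι] (C : Set (ι → ℝ)) (v : ι → ℝ) (hv : ∑ i, v i = 1)
    (hinv : ∀ x (t : ℝ), x ∈ C → x + t • v ∈ C) (a : ℝ) :
    volume (C ∩ slab ι a) = volume (C ∩ slab ι 0) := by
  rw [← measure_preimage_add_right volume (a • v) (C ∩ slab ι a)]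
  congr 1
  ext x
  simp only [mem_preimage, mem_inter_iff, slab, mem_ofPred_eq, mem_Icc, Pi.add_apply,
    Pi.smul_apply, smul_eq_mul, Finset.sum_add_distrib, ← Finset.mul_sum, hv, mul_one]
  constructor
  · rintro ⟨h1, h2, h3⟩
    refine ⟨?_, by linarith, by linarith⟩
    have := hinv _ (-a) h1
    simpa using this
  · rintro ⟨h1, h2, h3⟩
    exact ⟨hinv _ _ h1, by linarith, by linarith⟩

lemma vol_sum_pre {a b : Type} [Fintype a] [Fintype b] (S : Set ((a → ℝ) × (b → ℝ))) :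
    volume {x : a ⊕ b → ℝ | (x ∘ Sum.inl, x ∘ Sum.inr) ∈ S} = (volume.prod volume) S :=
  (volume_measurePreserving_sumPiEquivProdPi (fun _ : a ⊕ b => ℝ)).measure_preimage_equiv S

lemma vol_comp_equiv {a b : Type} [Fintype a] [Fintype b] (e : a ≃ b) (S : Set (a → ℝ)) :
    volume {y : b → ℝ | y ∘ e ∈ S} = volume S :=
  (volume_preserving_arrowCongr' e.symm (MeasurableEquiv.refl ℝ)
    (MeasurePreserving.id _)).measure_preimage_equiv S

lemma prod_cost_right {a b : Type} [Fintype a] [Fintype b] (A : Set (a → ℝ)) (C : Set (b → ℝ))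
    (hA : MeasurableSet A) (hC : MeasurableSet C) (v : b → ℝ) (hv : ∑ i, v i = 1)
    (hinv : ∀ x (t : ℝ), x ∈ C → x + t • v ∈ C) :
    volume ({x : a ⊕ b → ℝ | x ∘ Sum.inl ∈ A ∧ x ∘ Sum.inr ∈ C} ∩ slab _ 0) =
      volume A * volume (C ∩ slab b 0) := by
  let S : Set ((a → ℝ) × (b → ℝ)) :=
    (A ×ˢ C) ∩ {p | ∑ i, p.1 i + ∑ i, p.2 i ∈ Icc (0:ℝ) (0 + 1)}
  have hS : MeasurableSet S := (hA.prod hC).inter
    ((by fun_prop : Measurable (fun p : (a → ℝ) × (b → ℝ) => ∑ i, p.1 i + ∑ i, p.2 i))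
      measurableSet_Icc)
  have e : {x : a ⊕ b → ℝ | x ∘ Sum.inl ∈ A ∧ x ∘ Sum.inr ∈ C} ∩ slab _ 0 =
      {x : a ⊕ b → ℝ | (x ∘ Sum.inl, x ∘ Sum.inr) ∈ S} := by
    ext x; simp [S, slab, Fintype.sum_sum_type]
  rw [e, vol_sum_pre, Measure.prod_apply hS]
  have : ∀ x : a → ℝ, volume (Prod.mk x ⁻¹' S) =
      A.indicator (fun _ => volume (C ∩ slab b 0)) x := by
    intro x
    by_cases hx : x ∈ A
    · rw [indicator_of_mem hx, ← slab_shift C v hv hinv (-∑ i, x i)]
      congr 1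
      ext y
      simp only [S, slab, mem_preimage, mem_inter_iff, mem_prod, hx, true_and, mem_ofPred_eq,
        mem_Icc]
      refine and_congr_right (fun _ => ?_)
      constructor <;> rintro ⟨h1, h2⟩ <;> constructor <;> linarith
    · rw [indicator_of_notMem hx]
      have : Prod.mk x ⁻¹' S = ∅ := by ext y; simp [S, hx]
      rw [this, measure_empty]
  simp only [this]
  rw [lintegral_indicator hA, setLIntegral_const, mul_comm]

lemma prod_cost_left {a b : Type} [Fintype a] [Fintype b] (A : Set (b → ℝ)) (C : Set (a → ℝ))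
    (hA : MeasurableSet A) (hC : MeasurableSet C) (v : a → ℝ) (hv : ∑ i, v i = 1)
    (hinv : ∀ x (t : ℝ), x ∈ C → x + t • v ∈ C) :
    volume ({x : a ⊕ b → ℝ | x ∘ Sum.inl ∈ C ∧ x ∘ Sum.inr ∈ A} ∩ slab _ 0) =
      volume A * volume (C ∩ slab a 0) := by
  rw [← prod_cost_right A C hA hC v hv hinv, ← vol_comp_equiv (Equiv.sumComm b a)]
  congr 1
  ext y
  simp only [slab, mem_inter_iff, mem_ofPred_eq, Fintype.sum_sum_type, Function.comp_apply,
    Equiv.sumComm_apply, Sum.swap_inl, Sum.swap_inr]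
  rw [add_comm (∑ i : b, y (Sum.inr i))]
  exact and_congr_left (fun _ => and_comm)

lemma meas_pair {a b : Type} (A : Set (a → ℝ)) (C : Set (b → ℝ))
    (hA : MeasurableSet A) (hC : MeasurableSet C) :
    MeasurableSet {x : a ⊕ b → ℝ | x ∘ Sum.inl ∈ A ∧ x ∘ Sum.inr ∈ C} := by
  have h1 : Measurable (fun x : a ⊕ b → ℝ => x ∘ Sum.inl) :=
    measurable_pi_lambda _ (fun i => measurable_pi_apply _)
  have h2 : Measurable (fun x : a ⊕ b → ℝ => x ∘ Sum.inr) :=
    measurable_pi_lambda _ (fun i => measurable_pi_apply _)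
  exact (h1 hA).inter (h2 hC)

lemma cov_prod {a b : Type} [Fintype a] [Fintype b] (U : Set (a → ℝ)) (hU : MeasurableSet U)
    (c1 c2 : ℝ≥0∞) (h1 : CovOn a (cube a \ U) c1) (h2 : CovOn b (cube b) c2) :
    CovOn (a ⊕ b) (cube (a ⊕ b)) (c1 + volume U * c2) := by
  obtain ⟨I1, hI1, v1, C1, p1, s1, m1, i1, k1, t1⟩ := h1
  obtain ⟨I2, hI2, v2, C2, p2, s2, m2, i2, k2, t2⟩ := h2
  refine ⟨I1 ⊕ I2, inferInstance,
    Sum.elim (fun m => Sum.elim (v1 m) 0) (fun m => Sum.elim 0 (v2 m)),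
    Sum.elim (fun m => {x | x ∘ Sum.inl ∈ C1 m ∧ x ∘ Sum.inr ∈ cube b})
      (fun m => {x | x ∘ Sum.inl ∈ U ∧ x ∘ Sum.inr ∈ C2 m}), ?_, ?_, ?_, ?_, ?_, ?_⟩
  · rintro (m | m) (i | i) <;> simp [p1, p2]
  · rintro (m | m) <;> simp [Fintype.sum_sum_type, s1, s2]
  · rintro (m | m)
    exacts [meas_pair _ _ (m1 m) (measurableSet_cube b), meas_pair _ _ hU (m2 m)]
  · rintro (m | m) x t ⟨hx1, hx2⟩
    · refine ⟨i1 m _ t hx1, ?_⟩
      have : (x + t • Sum.elim (v1 m) 0) ∘ Sum.inr = x ∘ Sum.inr := by funext i; simp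
      exact this ▸ hx2
    · refine ⟨?_, i2 m _ t hx2⟩
      have : (x + t • Sum.elim (0 : a → ℝ) (v2 m)) ∘ Sum.inl = x ∘ Sum.inl := by funext i; simp
      exact this ▸ hx1
  · intro x hx
    have hx1 : x ∘ Sum.inl ∈ cube a := fun i => hx _
    have hx2 : x ∘ Sum.inr ∈ cube b := fun i => hx _
    by_cases hu : x ∘ Sum.inl ∈ U
    · obtain ⟨m, hm⟩ := mem_iUnion.1 (k2 hx2)
      exact mem_iUnion.2 ⟨Sum.inr m, hu, hm⟩
    · obtain ⟨m, hm⟩ := mem_iUnion.1 (k1 ⟨hx1, hu⟩)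
      exact mem_iUnion.2 ⟨Sum.inl m, hm, hx2⟩
  · rw [Summable.tsum_sum ENNReal.summable ENNReal.summable]
    refine add_le_add ?_ ?_
    · refine le_trans (le_of_eq (tsum_congr (fun m => ?_))) t1
      simp only [Sum.elim_inl]
      rw [prod_cost_left _ _ (measurableSet_cube b) (m1 m) (v1 m) (s1 m) (i1 m), volume_cube,
        one_mul]
    · refine le_trans (le_of_eq ?_) (mul_le_mul_right t2 _)
      rw [← ENNReal.tsum_mul_left]
      refine tsum_congr (fun m => ?_)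
      simp only [Sum.elim_inr]
      rw [prod_cost_right _ _ hU (m2 m) (v2 m) (s2 m) (i2 m)]

lemma cov_equiv {a b : Type} [Fintype a] [Fintype b] (e : a ≃ b) (c : ℝ≥0∞)
    (h : CovOn a (cube a) c) : CovOn b (cube b) c := by
  obtain ⟨I, hI, v, C, p, s, m, i, k, t⟩ := h
  refine ⟨I, hI, fun m => v m ∘ e.symm, fun m => {y | y ∘ e ∈ C m}, fun m j => p m _,
    fun m => ?_, fun j => ?_, fun j x t hx => ?_, fun x hx => ?_, ?_⟩
  · rw [← s m]; exact Equiv.sum_comp e.symm (v m)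
  · exact (measurable_pi_lambda _ (fun i => measurable_pi_apply _) :
      Measurable (fun y : b → ℝ => y ∘ e)) (m j)
  · have : (x + t • (v j ∘ e.symm)) ∘ e = x ∘ e + t • v j := by funext i; simp
    show _ ∈ C j
    rw [this]; exact i j _ _ hx
  · obtain ⟨j, hj⟩ := mem_iUnion.1 (k (show x ∘ e ∈ cube a from fun i => hx _))
    exact mem_iUnion.2 ⟨j, hj⟩
  · refine le_trans (le_of_eq (tsum_congr (fun j => ?_))) t
    rw [← vol_comp_equiv e]
    congr 1
    ext y
    simp only [slab, mem_inter_iff, mem_ofPred_eq, Function.comp_apply]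
    rw [Equiv.sum_comp e y]

lemma cov_mono {a : Type} [Fintype a] {S : Set (a → ℝ)} {c d : ℝ≥0∞} (h : CovOn a S c)
    (hcd : c ≤ d) : CovOn a S d := by
  obtain ⟨I, hI, v, C, p, s, m, i, k, t⟩ := h
  exact ⟨I, hI, v, C, p, s, m, i, k, t.trans hcd⟩

lemma cov_unit : CovOn Unit (cube Unit) 1 := by
  refine ⟨Unit, inferInstance, fun _ _ => 1, fun _ => univ, by simp, by simp, by simp, by simp,
    fun x _ => mem_iUnion.2 ⟨(), mem_univ x⟩, ?_⟩
  rw [tsum_fintype, Fintype.sum_unique, univ_inter, ← volume_cube Unit]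
  refine measure_mono (fun x hx i => ?_)
  simpa [slab] using hx

theorem cov_all (n : ℕ) : ∀ (ι : Type) [Fintype ι], Fintype.card ι = n → 1 ≤ n →
    CovOn ι (cube ι) (ENNReal.ofReal (324 / √n)) := by
  induction n using Nat.strong_induction_on with
  | _ n ih =>
  intro ι _ hι hn
  by_cases h1 : n = 1
  · subst h1
    refine cov_mono (cov_equiv (Fintype.equivOfCardEq (by simpa using hι.symm)) _ cov_unit) ?_
    simp
  · have hn2 : 1 ≤ n / 2 := by omega
    have hb := ih (n / 2) (by omega) (Fin (n / 2)) (by simp) hn2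
    obtain ⟨U, c, hU, hc, hle⟩ :=
      frac_step (α := Fin (n - n / 2 - 1)) (ENNReal.ofReal (324 / √((n / 2 : ℕ) : ℝ)))
    have h3 := cov_prod U hU _ _ hc hb
    refine cov_mono (cov_equiv (Fintype.equivOfCardEq ?_) _ h3) ?_
    · simp [hι]; omega
    · rw [mul_comm]
      refine hle.trans ?_
      have e1 : ((Fintype.card (Fin (n - n / 2 - 1)) : ℝ) + 1) = ((n - n / 2 : ℕ) : ℝ) := by
        rw [Fintype.card_fin]
        have : n - n / 2 - 1 + 1 = n - n / 2 := by omega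
        exact_mod_cast this
      rw [e1]
      have e2 : ENNReal.ofReal (324 / √((n / 2 : ℕ) : ℝ)) / 4 =
          ENNReal.ofReal (81 / √((n / 2 : ℕ) : ℝ)) := by
        rw [show (4 : ℝ≥0∞) = ENNReal.ofReal 4 by simp,
          ← ENNReal.ofReal_div_of_pos (by norm_num)]
        congr 1; ring
      rw [e2, ← ENNReal.ofReal_add (by positivity) (by positivity)]
      refine ENNReal.ofReal_le_ofReal ?_
      have hA : (n : ℝ) ≤ 4 * ((n / 2 : ℕ) : ℝ) := by
        have : n ≤ 4 * (n / 2) := by omega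
        exact_mod_cast this
      have hB : (n : ℝ) ≤ 2 * ((n - n / 2 : ℕ) : ℝ) := by
        have : n ≤ 2 * (n - n / 2) := by omega
        exact_mod_cast this
      have hp : (0:ℝ) < n := by exact_mod_cast hn
      set p : ℝ := ((n / 2 : ℕ) : ℝ)
      set q : ℝ := ((n - n / 2 : ℕ) : ℝ)
      have hp0 : 0 < √p := Real.sqrt_pos.2 (by linarith)
      have hq0 : 0 < √q := Real.sqrt_pos.2 (by linarith)
      have hn0 : 0 < √(n:ℝ) := Real.sqrt_pos.2 hp
      have k1 : √(n:ℝ) ≤ 2 * √p := by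
        rw [Real.sqrt_le_left (by positivity), mul_pow, Real.sq_sqrt (by linarith)]; linarith
      have k2 : √(n:ℝ) ≤ 3 / 2 * √q := by
        rw [Real.sqrt_le_left (by positivity), mul_pow, Real.sq_sqrt (by linarith)]; linarith
      have k3 : 81 / √p ≤ 162 / √(n:ℝ) := by
        rw [div_le_div_iff₀ hp0 hn0]; linarith
      have k4 : 108 / √q ≤ 162 / √(n:ℝ) := by
        rw [div_le_div_iff₀ hq0 hn0]; linarith
      have : (324:ℝ) / √(n:ℝ) = 162 / √(n:ℝ) + 162 / √(n:ℝ) := by ring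
      linarith

end

end Pool.Agent.Lib.MP_fedf83_gt
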