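import Mathlib

open MeasureTheory Set
open scoped ENNReal

namespace Pool.Agent.Lib.MP_fedf83_gt

noncomputable section

/-- A convex body: a compact convex set with nonempty interior. -/
def IsBody {n : ℕ} (K : Set (EuclideanSpace ℝ (Fin n))) : Prop :=
  IsCompact K ∧ Convex ℝ K ∧ (interior K).Nonempty

/-- The volume of the orthogonal projection of `K` onto the linear subspace `L`
(`volume` on `L` is the Lebesgue measure of the Euclidean space `L`). -/
def projVol {E : Type} [NormedAddCommGroup E] [InnerProductSpace ℝ E] [FiniteDimensional ℝ E]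
    [MeasurableSpace E] [BorelSpace E] (L : Submodule ℝ E) (K : Set E) : ℝ≥0∞ :=
  volume (L.orthogonalProjectionOnto '' K)

/-- The least `l`-dimensional volume of an orthogonal projection of `K` onto an
`l`-dimensional linear subspace. -/
def sigma {n : ℕ} (l : ℕ) (K : Set (EuclideanSpace ℝ (Fin n))) : ℝ≥0∞ :=
  ⨅ (L : Submodule ℝ (EuclideanSpace ℝ (Fin n))) (_ : Module.finrank ℝ L = l), projVol L K

/-- The constant `c n l`: the infimum of `(∑ i, sigma l (F i)) / sigma l K` over all convex
bodies `K` and all finite or countably infinite families `F` of convex bodies covering `K`. -/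
def c (n l : ℕ) : ℝ≥0∞ :=
  ⨅ (K : Set (EuclideanSpace ℝ (Fin n))) (_ : IsBody K) (I : Type) (_ : Countable I)
    (F : I → Set (EuclideanSpace ℝ (Fin n))) (_ : ∀ i, IsBody (F i)) (_ : K ⊆ ⋃ i, F i),
    (∑' i, sigma l (F i)) / sigma l K

end

end Pool.Agent.Lib.MP_fedf83_gt
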