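import Pool.Agent.Lib.MP_fedf83_gt.Good
import Pool.Agent.Lib.MP_fedf83_gt.Defs

open MeasureTheory Set Matrix Metric
open scoped ENNReal BigOperators

set_option linter.unusedSectionVars false
set_option linter.unusedSimpArgs false

namespace Pool.Agent.Lib.MP_fedf83_gt

noncomputable section

variable {n : ℕ} {l : Type} [Fintype l] [DecidableEq l]

lemma vol_proj (L : Submodule ℝ (EuclideanSpace ℝ (Fin n))) (b : OrthonormalBasis l ℝ L)
    (S : Set (EuclideanSpace ℝ (Fin n))) :
    projVol L S =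
      volume ((fun y : EuclideanSpace ℝ (Fin n) => (Matrix.of fun k i =>
        (b k : EuclideanSpace ℝ (Fin n)) i).mulVec y.ofLp) '' S) := by
  let e : L ≃ᵐ (l → ℝ) := b.measurableEquiv.trans (MeasurableEquiv.toLp 2 (l → ℝ)).symm
  have he : MeasurePreserving e volume volume :=
    b.measurePreserving_measurableEquiv.trans
      (EuclideanSpace.volume_preserving_symm_measurableEquiv_toLp l)
  have key : ∀ y : EuclideanSpace ℝ (Fin n), e (L.orthogonalProjectionOnto y) =
      (Matrix.of fun k i => (b k : EuclideanSpace ℝ (Fin n)) i).mulVec y.ofLp := by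
    intro y
    funext k
    have : e (L.orthogonalProjectionOnto y) k = b.repr (L.orthogonalProjectionOnto y) k := rfl
    rw [this, b.repr_apply_apply, Submodule.inner_orthogonalProjectionOnto_eq_of_mem_left,
      PiLp.inner_apply]
    refine Finset.sum_congr rfl (fun i _ => ?_)
    simp [mul_comm]
  rw [← he.measure_preimage_equiv, projVol]
  congr 1
  simp only [← key]
  rw [← image_image e, e.injective.preimage_image]

lemma sigma_le (B : Matrix l (Fin n) ℝ) (hB : B * Bᵀ = 1) (S : Set (EuclideanSpace ℝ (Fin n))) :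
    sigma (Fintype.card l) S ≤
      volume ((fun y : EuclideanSpace ℝ (Fin n) => B.mulVec y.ofLp) '' S) := by
  have ho := rows_orthonormal B hB
  let b0 := Module.Basis.span ho.linearIndependent
  have hb0 : ∀ k, (b0 k : EuclideanSpace ℝ (Fin n)) = WithLp.toLp 2 (B k) := fun k =>
    congrArg Subtype.val (Module.Basis.span_apply _ k)
  have ho' : Orthonormal ℝ b0 := by
    rw [orthonormal_iff_ite] at ho ⊢
    intro a c
    rw [← ho a c, Submodule.coe_inner, hb0, hb0]
  let b := b0.toOrthonormalBasis ho'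
  refine iInf₂_le_of_le (Submodule.span ℝ (range fun k =>
    (WithLp.toLp 2 (B k) : EuclideanSpace ℝ (Fin n)))) (Module.finrank_eq_card_basis b0)
    (le_of_eq ?_)
  rw [vol_proj _ b]
  have : (Matrix.of fun k i => (b k : EuclideanSpace ℝ (Fin n)) i) = B := by
    ext k i
    simp [b, hb0]
  rw [this]

lemma le_sigma (k : ℕ) (T : Matrix (Fin n) (Fin n) ℝ) (hT : ∀ j, ∑ i, T i j ^ 2 ≤ 1) :
    ENNReal.ofReal |T.det| ≤ sigma k
      ((fun x => (WithLp.toLp 2 (T.mulVec x) : EuclideanSpace ℝ (Fin n))) '' cube (Fin n)) := by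
  refine le_iInf₂ (fun L hL => ?_)
  have hk : k ≤ n := by
    have := L.finrank_le
    simpa [hL] using this
  let b : OrthonormalBasis (Fin k) ℝ L := (stdOrthonormalBasis ℝ L).reindex (finCongr hL)
  rw [vol_proj L b]
  set B : Matrix (Fin k) (Fin n) ℝ := Matrix.of fun k i => (b k : EuclideanSpace ℝ (Fin n)) i
  have hB : B * Bᵀ = 1 := by
    ext a c
    have h := orthonormal_iff_ite.1 b.orthonormal a c
    rw [Matrix.mul_apply, Matrix.one_apply, ← h, Submodule.coe_inner, PiLp.inner_apply]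
    refine Finset.sum_congr rfl (fun i _ => ?_)
    simp [B, mul_comm]
  have hc : Fintype.card (Fin n) = Fintype.card (Fin k ⊕ Fin (n - k)) := by simp; omega
  obtain ⟨O, hO, hOB⟩ := extend_rows (k := Fin (n - k)) B hB hc
  refine (proj_lower O (Fintype.equivOfCardEq hc.symm) hO T hT).trans (le_of_eq ?_)
  rw [hOB, image_image]
  simp only [Matrix.mulVec_mulVec]

lemma body_image (T : Matrix (Fin n) (Fin n) ℝ) (hT : T.det ≠ 0) :
    IsBody ((fun x => (WithLp.toLp 2 (T.mulVec x) : EuclideanSpace ℝ (Fin n))) '' cube (Fin n)) := by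
  let g : (Fin n → ℝ) →ₗ[ℝ] EuclideanSpace ℝ (Fin n) :=
    (WithLp.linearEquiv 2 ℝ (Fin n → ℝ)).symm.toLinearMap ∘ₗ T.mulVecLin
  have hs : Function.Surjective g :=
    (WithLp.linearEquiv 2 ℝ (Fin n → ℝ)).symm.surjective.comp
      (Matrix.mulVec_surjective_iff_isUnit.2 ((Matrix.isUnit_iff_isUnit_det T).2 hT.isUnit))
  show IsBody (g '' cube (Fin n))
  rw [cube_eq]
  refine ⟨(isCompact_univ_pi (fun _ => isCompact_Icc)).image g.continuous_of_finiteDimensional,
    (convex_pi (fun _ _ => convex_Icc _ _)).linear_image g, ?_⟩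
  refine Nonempty.mono ((g.isOpenMap_of_finiteDimensional hs).image_interior_subset _)
    (Nonempty.image _ ?_)
  rw [interior_pi_set finite_univ]
  exact ⟨fun _ => 1 / 2, fun i _ => by rw [interior_Icc]; constructor <;> norm_num⟩

lemma body_cyl (B : Matrix l (Fin n) ℝ) (y : EuclideanSpace ℝ (Fin n)) (r R : ℝ) (hr : 0 < r)
    (hy : y ∈ ball 0 R) :
    IsBody ((fun y : EuclideanSpace ℝ (Fin n) => B.mulVec y.ofLp) ⁻¹'
      closedBall (B.mulVec y.ofLp) r ∩ closedBall 0 R) := by
  let g : EuclideanSpace ℝ (Fin n) →ₗ[ℝ] (l → ℝ) :=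
    B.mulVecLin ∘ₗ (WithLp.linearEquiv 2 ℝ (Fin n → ℝ)).toLinearMap
  have hg : Continuous g := g.continuous_of_finiteDimensional
  show IsBody (g ⁻¹' closedBall (g y) r ∩ closedBall 0 R)
  refine ⟨(isCompact_closedBall 0 R).inter_left (isClosed_closedBall.preimage hg),
    ((convex_closedBall _ _).linear_preimage g).inter (convex_closedBall _ _), y, ?_⟩
  rw [mem_interior_iff_mem_nhds]
  exact Filter.inter_mem (hg.continuousAt.preimage_mem_nhds (closedBall_mem_nhds _ hr))
    (Filter.mem_of_superset (isOpen_ball.mem_nhds hy) ball_subset_closedBall)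

theorem c_le_of_good (d : ℝ≥0∞) (h : Good (Fin n) l d) : c n (Fintype.card l) ≤ d := by
  obtain ⟨T, hT, hd, I, hI, C, B, hB, hC, ht⟩ := h
  let f : (Fin n → ℝ) → EuclideanSpace ℝ (Fin n) := fun x => WithLp.toLp 2 (T.mulVec x)
  have hK : IsBody (f '' cube (Fin n)) := body_image T hd
  obtain ⟨R, hR⟩ := hK.1.isBounded.subset_ball 0
  set D := ENNReal.ofReal |T.det| with hD
  have hD0 : D ≠ 0 := by simpa [hD] using hd
  refine ENNReal.le_of_forall_pos_le_add (fun ε hε _ => ?_)
  have hεD : (ε : ℝ≥0∞) * D ≠ 0 := mul_ne_zero (by simpa using hε.ne') hD0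
  obtain ⟨η, hη0, hη⟩ := ENNReal.exists_pos_sum_of_countable hεD I
  have hb := fun m : I => Besicovitch.exists_closedBall_covering_tsum_measure_le volume
    (ε := η m) (by simpa using (hη0 m).ne') (fun _ => Ioi (0:ℝ))
    ((B m * T).mulVec '' (C m ∩ cube (Fin n)))
    (fun _ _ δ hδ => ⟨δ / 2, by simpa using hδ, by linarith, by linarith⟩)
  choose t r htc hts hr hcov hsum using hb
  have : ∀ m, Countable (t m) := fun m => (htc m).to_subtype
  let F : (Σ m, t m) → Set (EuclideanSpace ℝ (Fin n)) := fun p =>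
    (fun y : EuclideanSpace ℝ (Fin n) => (B p.1).mulVec y.ofLp) ⁻¹'
      closedBall p.2 (r p.1 p.2) ∩ closedBall 0 R
  have hF : ∀ p, IsBody (F p) := by
    rintro ⟨m, z, hz⟩
    obtain ⟨x, hx, rfl⟩ := hts m hz
    have := body_cyl (B m) (f x) _ R (hr m _ hz) (hR ⟨x, hx.2, rfl⟩)
    simp only [f, Matrix.mulVec_mulVec] at this
    exact this
  have hcover : f '' cube (Fin n) ⊆ ⋃ p, F p := by
    rintro _ ⟨x, hx, rfl⟩
    obtain ⟨m, hm⟩ := mem_iUnion.1 (hC hx)
    obtain ⟨z, hz, hxz⟩ := mem_iUnion₂.1 (hcov m ⟨x, ⟨hm, hx⟩, rfl⟩)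
    refine mem_iUnion.2 ⟨⟨m, z, hz⟩, ?_, ball_subset_closedBall (hR ⟨x, hx, rfl⟩)⟩
    simpa only [f, mem_preimage, Matrix.mulVec_mulVec] using hxz
  have h1 : c n (Fintype.card l) ≤ (∑' p, sigma (Fintype.card l) (F p)) /
      sigma (Fintype.card l) (f '' cube (Fin n)) :=
    iInf₂_le_of_le _ hK (iInf₂_le_of_le _ inferInstance (iInf₂_le_of_le F hF (iInf_le _ hcover)))
  refine h1.trans ?_
  have h2 : ∑' p, sigma (Fintype.card l) (F p) ≤ (d + ε) * D := by
    calc _ ≤ ∑' p : (Σ m, t m), volume (closedBall (p.2 : l → ℝ) (r p.1 p.2)) := by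
          refine ENNReal.tsum_le_tsum (fun p => (sigma_le (B p.1) (hB p.1) _).trans
            (measure_mono ?_))
          rintro _ ⟨y, hy, rfl⟩
          exact hy.1
      _ = ∑' m, ∑' z : t m, volume (closedBall (z : l → ℝ) (r m z)) := ENNReal.tsum_sigma' _
      _ ≤ ∑' m, (volume ((B m * T).mulVec '' C m) + η m) :=
          ENNReal.tsum_le_tsum (fun m => (hsum m).trans
            (add_le_add (measure_mono (image_mono inter_subset_left)) le_rfl))
      _ ≤ d * D + ε * D := by
          rw [ENNReal.tsum_add]; exact add_le_add ht hη.le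
      _ = _ := (add_mul _ _ _).symm
  refine (ENNReal.div_le_div h2 (le_sigma _ T hT)).trans ?_
  rw [ENNReal.div_le_iff hD0 ENNReal.ofReal_ne_top]

theorem upper (n k j : ℕ) (hk : 1 ≤ k) (hj : 1 ≤ j) (h : k + j ≤ n) :
    c n k ≤ ENNReal.ofReal ((648 * √((j : ℝ) / k)) ^ j) := by
  obtain ⟨l, _, _, rfl, g⟩ := good_final n k j hk hj h
  exact c_le_of_good _ g

end

end Pool.Agent.Lib.MP_fedf83_gt
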