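import Pool.Agent.Lib.MP_fedf83_gt.Lower

open MeasureTheory Set
open scoped ENNReal BigOperators

set_option linter.unusedSectionVars false
set_option linter.unusedSimpArgs false

namespace Pool.Agent.Lib.MP_fedf83_gt

noncomputable section

def slab (ι : Type) [Fintype ι] (a : ℝ) : Set (ι → ℝ) := {x | ∑ i, x i ∈ Icc a (a + 1)}

lemma measurableSet_slab (ι : Type) [Fintype ι] (a : ℝ) : MeasurableSet (slab ι a) := by
  have : Measurable (fun x : ι → ℝ => ∑ i, x i) := by fun_prop
  exact this measurableSet_Icc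

/-- rounding with one threshold -/
lemma round_one {X : Type} [MeasurableSpace X] (μ ν : Measure X) [SFinite μ] [SFinite ν]
    (H g : X → ℝ≥0∞) (hH : Measurable H) (hg : Measurable g) :
    ∃ r : ℝ, μ {x | ENNReal.ofReal r ≤ H x} +
      ∫⁻ x, {x | H x < ENNReal.ofReal r}.indicator g x ∂ν ≤
        ∫⁻ x, H x ∂μ + ∫⁻ x, g x * (1 - H x) ∂ν := by
  let ρ : Measure ℝ := volume.restrict (Ioc 0 1)
  have : IsProbabilityMeasure ρ := ⟨by simp [ρ]⟩
  have hS : MeasurableSet {p : ℝ × X | ENNReal.ofReal p.1 ≤ H p.2} :=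
    measurableSet_le (by fun_prop) (by fun_prop)
  have hS' : MeasurableSet {p : ℝ × X | H p.2 < ENNReal.ofReal p.1} :=
    measurableSet_lt (by fun_prop) (by fun_prop)
  let f1 : ℝ × X → ℝ≥0∞ := {p : ℝ × X | ENNReal.ofReal p.1 ≤ H p.2}.indicator 1
  let f2 : ℝ × X → ℝ≥0∞ := {p : ℝ × X | H p.2 < ENNReal.ofReal p.1}.indicator (fun p => g p.2)
  have m1 : Measurable f1 := measurable_one.indicator hS
  have m2 : Measurable f2 := (hg.comp measurable_snd).indicator hS'
  have e1 : ∀ r, μ {x | ENNReal.ofReal r ≤ H x} = ∫⁻ x, f1 (r, x) ∂μ := by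
    intro r
    rw [← lintegral_indicator_one (measurableSet_le measurable_const hH)]
    rfl
  have e2 : ∀ r, ∫⁻ x, {x | H x < ENNReal.ofReal r}.indicator g x ∂ν = ∫⁻ x, f2 (r, x) ∂ν :=
    fun r => rfl
  have M1 : Measurable (fun r => ∫⁻ x, f1 (r, x) ∂μ) := m1.lintegral_prod_right'
  have M2 : Measurable (fun r => ∫⁻ x, f2 (r, x) ∂ν) := m2.lintegral_prod_right'
  obtain ⟨r, hr⟩ := exists_le_lintegral (μ := ρ)
    (f := fun r => (∫⁻ x, f1 (r, x) ∂μ) + ∫⁻ x, f2 (r, x) ∂ν) (M1.add M2).aemeasurable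
  refine ⟨r, ?_⟩
  rw [e1, e2]
  refine hr.trans ?_
  rw [lintegral_add_left M1]
  refine add_le_add ?_ ?_
  · rw [lintegral_lintegral_swap (f := fun r x => f1 (r, x)) m1.aemeasurable]
    refine lintegral_mono (fun x => ?_)
    have : (fun r => f1 (r, x)) = {r : ℝ | ENNReal.ofReal r ≤ H x}.indicator 1 := rfl
    rw [this, lintegral_indicator_one (measurableSet_le (by fun_prop) measurable_const)]
    by_cases hx : H x = ∞
    · simp [hx]
    · simp only [ρ]
      rw [Measure.restrict_apply (measurableSet_le (by fun_prop) measurable_const)]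
      calc volume ({r : ℝ | ENNReal.ofReal r ≤ H x} ∩ Ioc 0 1) ≤ volume (Ioc 0 (H x).toReal) := by
            refine measure_mono (fun r hr => ⟨hr.2.1, ?_⟩)
            exact (ENNReal.ofReal_le_iff_le_toReal hx).1 hr.1
        _ = H x := by simp [hx]
  · rw [lintegral_lintegral_swap (f := fun r x => f2 (r, x)) m2.aemeasurable]
    refine lintegral_mono (fun x => ?_)
    have : (fun r => f2 (r, x)) = {r : ℝ | H x < ENNReal.ofReal r}.indicator (fun _ => g x) := rfl
    rw [this, lintegral_indicator (measurableSet_lt measurable_const (by fun_prop)),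
      setLIntegral_const]
    refine mul_le_mul_right ?_ _
    simp only [ρ]
    rw [Measure.restrict_apply (measurableSet_lt measurable_const (by fun_prop))]
    by_cases hx : H x = ∞
    · simp [hx]
    · calc volume ({r : ℝ | H x < ENNReal.ofReal r} ∩ Ioc 0 1) ≤ volume (Ioc (H x).toReal 1) := by
            refine measure_mono (fun r hr => ⟨?_, hr.2.2⟩)
            exact (ENNReal.lt_ofReal_iff_toReal_lt hx).1 hr.1
        _ = 1 - H x := by
            rw [Real.volume_Ioc, ENNReal.ofReal_sub _ ENNReal.toReal_nonneg]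
            simp [hx]

lemma round_all {X J : Type} [MeasurableSpace X] [DecidableEq J] (μ ν : Measure X) [SFinite μ]
    [SFinite ν] (H : J → X → ℝ≥0∞) (hH : ∀ j, Measurable (H j)) (s : Finset J) :
    ∀ g : X → ℝ≥0∞, Measurable g → ∃ r : J → ℝ,
      ∑ j ∈ s, μ {x | ENNReal.ofReal (r j) ≤ H j x} +
      ∫⁻ x, {x | ∀ j ∈ s, H j x < ENNReal.ofReal (r j)}.indicator g x ∂ν ≤
        ∑ j ∈ s, ∫⁻ x, H j x ∂μ + ∫⁻ x, g x * ∏ j ∈ s, (1 - H j x) ∂ν := by
  induction s using Finset.induction_on with
  | empty => intro g _; exact ⟨fun _ => 0, by simp⟩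
  | insert a s ha ih =>
    intro g hg
    have hp : Measurable (fun x => ∏ j ∈ s, (1 - H j x)) :=
      Finset.measurable_prod _ (fun j _ => measurable_const.sub (hH j))
    obtain ⟨r0, h0⟩ := round_one μ ν (H a) (fun x => g x * ∏ j ∈ s, (1 - H j x)) (hH a)
      (hg.mul hp)
    obtain ⟨r, hr⟩ := ih ({x | H a x < ENNReal.ofReal r0}.indicator g)
      (hg.indicator (measurableSet_lt (hH a) measurable_const))
    refine ⟨Function.update r a r0, ?_⟩
    have hu : ∀ j ∈ s, Function.update r a r0 j = r j := fun j hj =>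
      Function.update_of_ne (by rintro rfl; exact ha hj) _ _
    rw [Finset.sum_insert ha, Finset.sum_insert ha, Function.update_self,
      Finset.sum_congr rfl (fun j hj => by rw [hu j hj])]
    have e1 : ∀ x, {x | ∀ j ∈ insert a s, H j x < ENNReal.ofReal (Function.update r a r0 j)}.indicator
        g x = {x | ∀ j ∈ s, H j x < ENNReal.ofReal (r j)}.indicator
          ({x | H a x < ENNReal.ofReal r0}.indicator g) x := by
      intro x
      rw [indicator_indicator]
      congr 1
      ext x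
      simp only [Finset.forall_mem_insert, Function.update_self, mem_ofPred_eq, mem_inter_iff]
      rw [and_comm]
      refine and_congr_left (fun _ => forall₂_congr (fun j hj => by rw [hu j hj]))
    have e2 : ∀ x, {x | H a x < ENNReal.ofReal r0}.indicator g x * ∏ j ∈ s, (1 - H j x) =
        {x | H a x < ENNReal.ofReal r0}.indicator (fun x => g x * ∏ j ∈ s, (1 - H j x)) x := by
      intro x; rw [indicator_mul_left]
    have e3 : ∀ x, g x * ∏ j ∈ insert a s, (1 - H j x) =
        g x * (∏ j ∈ s, (1 - H j x)) * (1 - H a x) := by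
      intro x; rw [Finset.prod_insert ha]; ring
    simp only [e1, e3]
    simp only [e2] at hr
    calc _ = μ {x | ENNReal.ofReal r0 ≤ H a x} + (∑ j ∈ s, μ {x | ENNReal.ofReal (r j) ≤ H j x} +
          ∫⁻ x, {x | ∀ j ∈ s, H j x < ENNReal.ofReal (r j)}.indicator
          ({x | H a x < ENNReal.ofReal r0}.indicator g) x ∂ν) := by rw [add_assoc]
      _ ≤ μ {x | ENNReal.ofReal r0 ≤ H a x} + (∑ j ∈ s, ∫⁻ x, H j x ∂μ +
          ∫⁻ x, {x | H a x < ENNReal.ofReal r0}.indicator
            (fun x => g x * ∏ j ∈ s, (1 - H j x)) x ∂ν) := add_le_add le_rfl hr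
      _ = ∑ j ∈ s, ∫⁻ x, H j x ∂μ + (μ {x | ENNReal.ofReal r0 ≤ H a x} +
          ∫⁻ x, {x | H a x < ENNReal.ofReal r0}.indicator
            (fun x => g x * ∏ j ∈ s, (1 - H j x)) x ∂ν) := by ring
      _ ≤ ∑ j ∈ s, ∫⁻ x, H j x ∂μ + (∫⁻ x, H a x ∂μ +
          ∫⁻ x, g x * (∏ j ∈ s, (1 - H j x)) * (1 - H a x) ∂ν) := add_le_add le_rfl h0
      _ = _ := by ring

lemma prod_one_sub {J : Type} [DecidableEq J] (H : J → ℝ≥0∞) (s : Finset J) :
    (∏ j ∈ s, (1 - H j)) * (1 + ∑ j ∈ s, H j) ≤ 1 := by
  induction s using Finset.induction_on with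
  | empty => simp
  | insert a s ha ih =>
    rw [Finset.prod_insert ha, Finset.sum_insert ha]
    have h1 : (1 - H a) * (1 + H a) ≤ 1 := by
      by_cases h : 1 ≤ H a
      · simp [tsub_eq_zero_of_le h]
      · push Not at h
        lift H a to NNReal using h.ne_top with y hy
        have h' : (y:ℝ) < 1 := by exact_mod_cast h
        have h0 : (0:ℝ) ≤ y := y.2
        rw [← ENNReal.coe_one, ← ENNReal.coe_sub, ← ENNReal.coe_add, ← ENNReal.coe_mul,
          ENNReal.coe_le_coe, ← NNReal.coe_le_coe]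
        push_cast
        rw [NNReal.coe_sub (by exact_mod_cast h'.le)]
        push_cast
        nlinarith
    calc (1 - H a) * (∏ j ∈ s, (1 - H j)) * (1 + (H a + ∑ j ∈ s, H j))
        ≤ (1 - H a) * (∏ j ∈ s, (1 - H j)) * ((1 + H a) * (1 + ∑ j ∈ s, H j)) := by
          refine mul_le_mul_right ?_ _
          have : (1 + H a) * (1 + ∑ j ∈ s, H j) =
            1 + (H a + ∑ j ∈ s, H j) + H a * ∑ j ∈ s, H j := by ring
          rw [this]; exact le_self_add
      _ = ((1 - H a) * (1 + H a)) * ((∏ j ∈ s, (1 - H j)) * (1 + ∑ j ∈ s, H j)) := by ring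
      _ ≤ 1 * 1 := mul_le_mul' h1 ih
      _ = 1 := one_mul _

lemma line_cost {ι : Type} [Fintype ι] (P : (ι → ℝ) → ℝ≥0∞) (hP : Measurable P) (d : ι → ℝ)
    (hd : 0 < ∑ i, d i) :
    ∫⁻ x in slab ι 0, ∫⁻ t : ℝ, P (x + t • d) = (∫⁻ x, P x) * ENNReal.ofReal (1 / ∑ i, d i) := by
  have hs := measurableSet_slab ι 0
  have hi : Measurable ((slab ι 0).indicator (1 : (ι → ℝ) → ℝ≥0∞)) := measurable_one.indicator hs
  have m1 : Measurable (fun p : (ι → ℝ) × ℝ =>
      (slab ι 0).indicator (1 : (ι → ℝ) → ℝ≥0∞) p.1 * P (p.1 + p.2 • d)) :=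
    (hi.comp measurable_fst).mul (hP.comp (by fun_prop))
  have m2 : Measurable (fun p : ℝ × (ι → ℝ) =>
      (slab ι 0).indicator (1 : (ι → ℝ) → ℝ≥0∞) (p.2 - p.1 • d) * P p.2) :=
    (hi.comp (by fun_prop)).mul (hP.comp measurable_snd)
  calc ∫⁻ x in slab ι 0, ∫⁻ t : ℝ, P (x + t • d)
      = ∫⁻ x, ∫⁻ t : ℝ, (slab ι 0).indicator (1 : (ι → ℝ) → ℝ≥0∞) x * P (x + t • d) := by
        rw [← lintegral_indicator hs]
        refine lintegral_congr (fun x => ?_)
        by_cases hx : x ∈ slab ι 0 <;> simp [hx]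
    _ = ∫⁻ t : ℝ, ∫⁻ x, (slab ι 0).indicator (1 : (ι → ℝ) → ℝ≥0∞) x * P (x + t • d) :=
        lintegral_lintegral_swap m1.aemeasurable
    _ = ∫⁻ t : ℝ, ∫⁻ y, (slab ι 0).indicator (1 : (ι → ℝ) → ℝ≥0∞) (y - t • d) * P y := by
        refine lintegral_congr (fun t => ?_)
        rw [← lintegral_add_right_eq_self
          (fun y => (slab ι 0).indicator (1 : (ι → ℝ) → ℝ≥0∞) (y - t • d) * P y) (t • d)]
        simp
    _ = ∫⁻ y, ∫⁻ t : ℝ, (slab ι 0).indicator (1 : (ι → ℝ) → ℝ≥0∞) (y - t • d) * P y :=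
        lintegral_lintegral_swap m2.aemeasurable
    _ = ∫⁻ y, P y * ENNReal.ofReal (1 / ∑ i, d i) := by
        refine lintegral_congr (fun y => ?_)
        have e : (fun t : ℝ => (slab ι 0).indicator (1 : (ι → ℝ) → ℝ≥0∞) (y - t • d) * P y) =
            (Icc ((∑ i, y i - 1) / ∑ i, d i) ((∑ i, y i) / ∑ i, d i)).indicator (fun _ => P y) := by
          funext t
          have : y - t • d ∈ slab ι 0 ↔
              t ∈ Icc ((∑ i, y i - 1) / ∑ i, d i) ((∑ i, y i) / ∑ i, d i) := by
            simp only [slab, mem_ofPred_eq, mem_Icc, Pi.sub_apply, Pi.smul_apply, smul_eq_mul,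
              Finset.sum_sub_distrib, ← Finset.mul_sum, div_le_iff₀ hd, le_div_iff₀ hd]
            constructor <;> rintro ⟨h1, h2⟩ <;> constructor <;> linarith
          by_cases ht : y - t • d ∈ slab ι 0
          · rw [indicator_of_mem ht, indicator_of_mem (this.1 ht)]; simp
          · rw [indicator_of_notMem ht, indicator_of_notMem (fun h => ht (this.2 h))]; simp
        rw [e, lintegral_indicator measurableSet_Icc, setLIntegral_const, Real.volume_Icc]
        congr 2
        field_simp
        ring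
    _ = _ := by rw [lintegral_mul_const _ hP]

def wf (y : ℝ) : ℝ := (Icc (0:ℝ) 1).indicator (fun y => y * (1 - y)) y
def gf (y : ℝ) : ℝ := (Icc (0:ℝ) 1).indicator (fun y => 1 - y * (1 - y)) y
def af (y : ℝ) : ℝ := (Icc (-1:ℝ) 2).indicator (fun _ => 1) y

lemma wf_nonneg (y : ℝ) : 0 ≤ wf y :=
  indicator_nonneg (fun y hy => mul_nonneg hy.1 (by linarith [hy.2])) y
lemma gf_nonneg (y : ℝ) : 0 ≤ gf y :=
  indicator_nonneg (fun y hy => by nlinarith [hy.1, hy.2]) y
lemma af_nonneg (y : ℝ) : 0 ≤ af y := indicator_nonneg (fun _ _ => zero_le_one) y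
lemma wf_ge (y : ℝ) : y * (1 - y) ≤ wf y := by
  unfold wf
  by_cases h : y ∈ Icc (0:ℝ) 1
  · rw [indicator_of_mem h]
  · rw [indicator_of_notMem h]
    rw [mem_Icc, not_and_or] at h
    rcases h with h | h <;> push Not at h <;> nlinarith
lemma measurable_wf : Measurable wf := Measurable.indicator (by fun_prop) measurableSet_Icc
lemma measurable_gf : Measurable gf := Measurable.indicator (by fun_prop) measurableSet_Icc
lemma measurable_af : Measurable af := Measurable.indicator (by fun_prop) measurableSet_Icc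
lemma integrable_wf : Integrable wf :=
  (integrable_indicator_iff measurableSet_Icc).2
    (Continuous.integrableOn_Icc (by fun_prop))
lemma integrable_gf : Integrable gf :=
  (integrable_indicator_iff measurableSet_Icc).2
    (Continuous.integrableOn_Icc (by fun_prop))
lemma integrable_af : Integrable af :=
  (integrable_indicator_iff measurableSet_Icc).2
    (Continuous.integrableOn_Icc (by fun_prop))
lemma integral_wf : ∫ y, wf y = 1 / 6 := by
  unfold wf
  rw [integral_indicator measurableSet_Icc, integral_Icc_eq_integral_Ioc,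
    ← intervalIntegral.integral_of_le zero_le_one]
  have : (fun y : ℝ => y * (1 - y)) = fun y => y - y ^ 2 := by funext y; ring
  rw [this, intervalIntegral.integral_sub (by simp) (by simp)]
  simp; norm_num
lemma integral_gf : ∫ y, gf y = 5 / 6 := by
  unfold gf
  rw [integral_indicator measurableSet_Icc, integral_Icc_eq_integral_Ioc,
    ← intervalIntegral.integral_of_le zero_le_one]
  have : (fun y : ℝ => 1 - y * (1 - y)) = fun y => (1 - y) + y ^ 2 := by funext y; ring
  rw [this, intervalIntegral.integral_add (Continuous.intervalIntegrable (by fun_prop) _ _) (by simp),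
    intervalIntegral.integral_sub (by simp) (by simp)]
  simp; norm_num
lemma integral_af : ∫ y, af y = 3 := by
  unfold af
  rw [integral_indicator measurableSet_Icc]
  simp; norm_num

variable {α : Type} [Fintype α] [DecidableEq α]

def phi (J : Finset α) : Option α → ℝ → ℝ
  | none => af
  | some i => if i ∈ J then wf else gf

def dir (J : Finset α) : Option α → ℝ
  | none => 1
  | some i => if i ∈ J then 1 else 0

def PJ (J : Finset α) (x : Option α → ℝ) : ℝ := ∏ i, phi J i (x i)

lemma phi_nonneg (J : Finset α) (i : Option α) (y : ℝ) : 0 ≤ phi J i y := by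
  cases i with
  | none => exact af_nonneg y
  | some i => simp only [phi]; split_ifs; exacts [wf_nonneg y, gf_nonneg y]

lemma phi_measurable (J : Finset α) (i : Option α) : Measurable (phi J i) := by
  cases i with
  | none => exact measurable_af
  | some i => simp only [phi]; split_ifs; exacts [measurable_wf, measurable_gf]

lemma phi_integrable (J : Finset α) (i : Option α) : Integrable (phi J i) := by
  cases i with
  | none => exact integrable_af
  | some i => simp only [phi]; split_ifs; exacts [integrable_wf, integrable_gf]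

lemma PJ_nonneg (J : Finset α) (x : Option α → ℝ) : 0 ≤ PJ J x :=
  Finset.prod_nonneg (fun i _ => phi_nonneg J i _)

lemma PJ_measurable (J : Finset α) : Measurable (PJ J) :=
  Finset.measurable_prod _ (fun i _ => (phi_measurable J i).comp (measurable_pi_apply i))

lemma sum_dir (J : Finset α) : ∑ i, dir J i = J.card + 1 := by
  rw [Fintype.sum_option]; simp [dir, add_comm]

lemma dir_nonneg (J : Finset α) (i : Option α) : 0 ≤ dir J i := by
  cases i with
  | none => exact zero_le_one
  | some i => simp only [dir]; split_ifs <;> simp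

lemma lintegral_PJ (J : Finset α) : ∫⁻ x, ENNReal.ofReal (PJ J x) =
    ENNReal.ofReal (3 * ((1/6) ^ J.card * (5/6) ^ (Fintype.card α - J.card))) := by
  have hi : Integrable (PJ J) := Integrable.fintype_prod (f := phi J) (phi_integrable J)
  rw [← ofReal_integral_eq_lintegral_ofReal hi (Filter.Eventually.of_forall (PJ_nonneg J))]
  congr 1
  unfold PJ
  rw [integral_fintype_prod_volume_eq_prod, Fintype.prod_option]
  simp only [phi, integral_af]
  congr 1
  have : ∀ i, ∫ y, (if i ∈ J then wf else gf) y = if i ∈ J then 1/6 else 5/6 := by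
    intro i; split_ifs; exacts [integral_wf, integral_gf]
  simp only [this]
  rw [Finset.prod_ite, Finset.prod_const, Finset.prod_const]
  congr 2
  · simp
  · rw [← Finset.card_compl]; congr 1; ext i; simp

lemma binom_sum (n : ℕ) : ∑ j ∈ Finset.range (n + 1),
    (n.choose j : ℝ) * ((1/6) ^ j * (5/6) ^ (n - j) * (1 / (j + 1))) ≤ 6 / (n + 1) := by
  have h := add_pow (1/6 : ℝ) (5/6) (n + 1)
  rw [show (1/6 : ℝ) + 5/6 = 1 by norm_num, one_pow, Finset.sum_range_succ'] at h
  have h2 : ∑ j ∈ Finset.range (n + 1),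
      (n.choose j : ℝ) * ((1/6) ^ j * (5/6) ^ (n - j) * (1 / (j + 1))) =
      6 / (n + 1) * ∑ j ∈ Finset.range (n + 1),
        (1/6:ℝ) ^ (j + 1) * (5/6) ^ (n + 1 - (j + 1)) * ((n + 1).choose (j + 1)) := by
    rw [Finset.mul_sum]
    refine Finset.sum_congr rfl (fun j _ => ?_)
    have e : ((n + 1 : ℕ) : ℝ) * n.choose j = (n + 1).choose (j + 1) * ((j + 1 : ℕ) : ℝ) := by
      exact_mod_cast Nat.add_one_mul_choose_eq n j
    push_cast at e
    have e' : ((n + 1).choose (j + 1) : ℝ) = (n + 1) * n.choose j / (j + 1) := by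
      rw [e]; field_simp
    rw [e', Nat.add_sub_add_right, pow_succ]
    field_simp
  rw [h2]
  refine mul_le_of_le_one_right (by positivity) ?_
  have : (0:ℝ) ≤ (1/6) ^ 0 * (5/6) ^ (n + 1 - 0) * ((n + 1).choose 0 : ℕ) := by positivity
  linarith

lemma sum_cost : ∑ J : Finset α,
    (3 * ((1/6:ℝ) ^ J.card * (5/6) ^ (Fintype.card α - J.card))) * (1 / (J.card + 1)) ≤
      18 / (Fintype.card α + 1) := by
  have h := Finset.sum_powerset_apply_card (α := ℝ) (x := (Finset.univ : Finset α))
    (fun j => (1/6:ℝ) ^ j * (5/6) ^ (Fintype.card α - j) * (1 / (j + 1)))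
  rw [Finset.powerset_univ, Finset.card_univ] at h
  have h2 := binom_sum (Fintype.card α)
  simp only [nsmul_eq_mul] at h
  rw [← h] at h2
  calc _ = 3 * ∑ J : Finset α,
      (1/6:ℝ) ^ J.card * (5/6) ^ (Fintype.card α - J.card) * (1 / (J.card + 1)) := by
        rw [Finset.mul_sum]; refine Finset.sum_congr rfl (fun J _ => by ring)
    _ ≤ 3 * (6 / (Fintype.card α + 1)) := by linarith
    _ = _ := by ring

lemma sum_PJ (z : Option α → ℝ) (t : ℝ) : ∑ J : Finset α, PJ J (z + t • dir J) =
    af (z none + t) * ∏ i, (wf (z (some i) + t) + gf (z (some i))) := by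
  rw [Finset.prod_add, Finset.powerset_univ, Finset.mul_sum]
  refine Finset.sum_congr rfl (fun J _ => ?_)
  unfold PJ
  rw [Fintype.prod_option]
  congr 1
  · simp [phi, dir]
  · rw [← Finset.prod_mul_prod_compl J]
    congr 1
    · refine Finset.prod_congr rfl (fun i hi => by simp [phi, dir, hi])
    · refine Finset.prod_congr (by ext i; simp) (fun i hi => ?_)
      have : i ∉ J := by simpa using hi
      simp [phi, dir, this]

lemma two_sided (z : Option α → ℝ) (hz : z ∈ cube (Option α)) (t : ℝ)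
    (ht : 4 * (Fintype.card α + 1) * t ^ 2 ≤ 1) :
    1 ≤ ∑ J : Finset α, PJ J (z + t • dir J) + ∑ J : Finset α, PJ J (z + (-t) • dir J) := by
  have hn : (0:ℝ) ≤ Fintype.card α := Nat.cast_nonneg _
  have ht2 : t ^ 2 ≤ 1 / 4 := by nlinarith [sq_nonneg t]
  have ht1 : |t| ≤ 1 / 2 := by
    rw [← abs_of_pos (show (0:ℝ) < 1/2 by norm_num), ← sq_le_sq]; linarith
  obtain ⟨ta, tb⟩ := abs_le.1 ht1
  rw [sum_PJ, sum_PJ]
  have a1 : af (z none + t) = 1 := indicator_of_mem
    (show z none + t ∈ Icc (-1:ℝ) 2 from ⟨by linarith [(hz none).1], by linarith [(hz none).2]⟩) _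
  have a2 : af (z none + -t) = 1 := indicator_of_mem
    (show z none + -t ∈ Icc (-1:ℝ) 2 from ⟨by linarith [(hz none).1], by linarith [(hz none).2]⟩) _
  rw [a1, a2, one_mul, one_mul]
  set A := ∏ i, (wf (z (some i) + t) + gf (z (some i)))
  set B := ∏ i, (wf (z (some i) + -t) + gf (z (some i)))
  have hA : 0 ≤ A := Finset.prod_nonneg (fun i _ => add_nonneg (wf_nonneg _) (gf_nonneg _))
  have hB : 0 ≤ B := Finset.prod_nonneg (fun i _ => add_nonneg (wf_nonneg _) (gf_nonneg _))
  have hAB : (1 - 3 * t ^ 2) ^ Fintype.card α ≤ A * B := by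
    rw [← Finset.prod_mul_distrib, ← Finset.card_univ, ← Finset.prod_const]
    refine Finset.prod_le_prod (fun _ _ => by linarith) (fun i _ => ?_)
    obtain ⟨y0, y1⟩ := hz (some i)
    set y := z (some i)
    have g1 : gf y = 1 - y * (1 - y) := indicator_of_mem (show y ∈ Icc (0:ℝ) 1 from ⟨y0, y1⟩) _
    have w1 := wf_ge (y + t)
    have w2 := wf_ge (y + -t)
    have hu : |1 - 2 * y| ≤ 1 := abs_le.2 ⟨by linarith, by linarith⟩
    have hu2 : (1 - 2 * y) ^ 2 ≤ 1 := by nlinarith
    have htu : |t * (1 - 2 * y)| ≤ 1 / 2 := by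
      rw [abs_mul]; nlinarith [abs_nonneg t, abs_nonneg (1 - 2 * y)]
    obtain ⟨u1, u2⟩ := abs_le.1 htu
    have p1 : 0 ≤ 1 + t * (1 - 2 * y) - t ^ 2 := by linarith
    have p2 : 0 ≤ 1 - t * (1 - 2 * y) - t ^ 2 := by linarith
    calc 1 - 3 * t ^ 2 ≤ (1 + t * (1 - 2 * y) - t ^ 2) * (1 - t * (1 - 2 * y) - t ^ 2) := by
          nlinarith [sq_nonneg (t ^ 2), sq_nonneg t, mul_le_mul_of_nonneg_left hu2 (sq_nonneg t)]
      _ ≤ _ := by
          refine mul_le_mul ?_ ?_ p2 (add_nonneg (wf_nonneg _) (gf_nonneg _))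
          · rw [g1]; nlinarith
          · rw [g1]; nlinarith
  have hb := one_add_mul_le_pow (a := -(3 * t ^ 2)) (by linarith) (Fintype.card α)
  have h4 : 1 / 4 ≤ A * B := by
    have : (1:ℝ) + -(3 * t ^ 2) = 1 - 3 * t ^ 2 := by ring
    rw [this] at hb
    nlinarith [sq_nonneg t]
  nlinarith [sq_nonneg (A - B), sq_nonneg (A + B - 1)]

def hJ (J : Finset α) (x : Option α → ℝ) : ℝ≥0∞ := ∫⁻ t : ℝ, ENNReal.ofReal (PJ J (x + t • dir J))

lemma hJ_measurable (J : Finset α) : Measurable (hJ J) := by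
  have : Measurable (fun p : (Option α → ℝ) × ℝ => ENNReal.ofReal (PJ J (p.1 + p.2 • dir J))) :=
    ENNReal.measurable_ofReal.comp ((PJ_measurable J).comp (by fun_prop))
  exact this.lintegral_prod_right'

lemma hJ_shift (J : Finset α) (x : Option α → ℝ) (s : ℝ) : hJ J (x + s • dir J) = hJ J x := by
  unfold hJ
  rw [← lintegral_add_left_eq_self (fun t => ENNReal.ofReal (PJ J (x + t • dir J))) s]
  simp only [add_smul, add_assoc]

lemma hJ_cover (z : Option α → ℝ) (hz : z ∈ cube (Option α)) :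
    ENNReal.ofReal (1 / (2 * √(Fintype.card α + 1))) ≤ ∑ J : Finset α, hJ J z := by
  set τ : ℝ := 1 / (2 * √(Fintype.card α + 1)) with hτ
  have hn : (0:ℝ) < Fintype.card α + 1 := by positivity
  have hτ0 : 0 < τ := by positivity
  have hτ2 : 4 * (Fintype.card α + 1) * τ ^ 2 = 1 := by
    rw [hτ, div_pow, mul_pow, Real.sq_sqrt hn.le]; field_simp; norm_num
  let G : ℝ → ℝ≥0∞ := fun t => ENNReal.ofReal (∑ J : Finset α, PJ J (z + t • dir J))
  have mJ : ∀ J : Finset α, Measurable (fun t : ℝ => PJ J (z + t • dir J)) := fun J =>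
    (PJ_measurable J).comp (by fun_prop)
  have hG : Measurable G :=
    ENNReal.measurable_ofReal.comp (Finset.measurable_sum _ (fun J _ => mJ J))
  have e1 : ∑ J : Finset α, hJ J z = ∫⁻ t, G t := by
    unfold hJ
    rw [← lintegral_finsetSum _ (fun J _ => (mJ J).ennreal_ofReal)]
    refine lintegral_congr (fun t => ?_)
    simp only [G]
    rw [ENNReal.ofReal_sum_of_nonneg (fun J _ => PJ_nonneg J _)]
  have e2 : ∫⁻ t, G (-t) = ∫⁻ t, G t := lintegral_neg_eq_self G
  have h3 : ENNReal.ofReal (2 * τ) ≤ (∫⁻ t, G t) + ∫⁻ t, G (-t) := by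
    rw [← lintegral_add_left hG]
    calc ENNReal.ofReal (2 * τ) = ∫⁻ t, (Icc (-τ) τ).indicator 1 t := by
          rw [lintegral_indicator_one measurableSet_Icc, Real.volume_Icc]; congr 1; ring
      _ ≤ _ := lintegral_mono (fun t => ?_)
    by_cases ht : t ∈ Icc (-τ) τ
    · rw [indicator_of_mem ht]
      have : t ^ 2 ≤ τ ^ 2 := sq_le_sq' ht.1 ht.2
      have h := two_sided z hz t (by nlinarith)
      simp only [G]
      rw [← ENNReal.ofReal_add (Finset.sum_nonneg (fun J _ => PJ_nonneg J _))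
        (Finset.sum_nonneg (fun J _ => PJ_nonneg J _))]
      simpa using ENNReal.ofReal_le_ofReal h
    · rw [indicator_of_notMem ht]; exact zero_le
  rw [e2, ← two_mul, ENNReal.ofReal_mul zero_le_two, ENNReal.ofReal_ofNat] at h3
  rw [e1]
  exact (ENNReal.mul_le_mul_iff_right (by norm_num) (by norm_num)).1 h3

/-- a family of cylinders with nonnegative directions covering the set `S` at cost `c` -/
def CovOn (ι : Type) [Fintype ι] (S : Set (ι → ℝ)) (c : ℝ≥0∞) : Prop :=
  ∃ (I : Type) (_ : Countable I) (v : I → ι → ℝ) (C : I → Set (ι → ℝ)),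
    (∀ m i, 0 ≤ v m i) ∧ (∀ m, ∑ i, v m i = 1) ∧ (∀ m, MeasurableSet (C m)) ∧
    (∀ m x (t : ℝ), x ∈ C m → x + t • v m ∈ C m) ∧ S ⊆ ⋃ m, C m ∧
    ∑' m, volume (C m ∩ slab ι 0) ≤ c

theorem frac_step (β : ℝ≥0∞) : ∃ (U : Set (Option α → ℝ)) (c : ℝ≥0∞), MeasurableSet U ∧
    CovOn (Option α) (cube (Option α) \ U) c ∧
    c + β * volume U ≤ ENNReal.ofReal (108 / √(Fintype.card α + 1)) + β / 4 := by
  classical
  set s : ℝ := √(Fintype.card α + 1) with hs
  have hn : (0:ℝ) < Fintype.card α + 1 := by positivity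
  have hs0 : 0 < s := Real.sqrt_pos.2 hn
  have hss : s * s = Fintype.card α + 1 := Real.mul_self_sqrt hn.le
  let H : Finset α → (Option α → ℝ) → ℝ≥0∞ := fun J x => ENNReal.ofReal (6 * s) * hJ J x
  have hH : ∀ J, Measurable (H J) := fun J => (hJ_measurable J).const_mul _
  obtain ⟨r, hr⟩ := round_all (volume.restrict (slab (Option α) 0))
    (volume.restrict (cube (Option α))) H hH Finset.univ (fun _ => β) measurable_const
  let V : Set (Option α → ℝ) := {x | ∀ j ∈ (Finset.univ : Finset (Finset α)),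
    H j x < ENNReal.ofReal (r j)}
  have hV : MeasurableSet V := by
    have : V = ⋂ j, {x | H j x < ENNReal.ofReal (r j)} := by ext x; simp [V]
    rw [this]; exact MeasurableSet.iInter (fun j => measurableSet_lt (hH j) measurable_const)
  have hC : ∀ j, MeasurableSet {x | ENNReal.ofReal (r j) ≤ H j x} := fun j =>
    measurableSet_le measurable_const (hH j)
  refine ⟨V ∩ cube _, ∑ j, volume ({x | ENNReal.ofReal (r j) ≤ H j x} ∩ slab _ 0),
    hV.inter (measurableSet_cube _), ⟨Finset α, inferInstance,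
      fun J => (1 / (J.card + 1 : ℝ)) • dir J, fun j => {x | ENNReal.ofReal (r j) ≤ H j x},
      fun J i => ?_, fun J => ?_, hC, fun J x t hx => ?_, fun x hx => ?_, ?_⟩, ?_⟩
  · exact mul_nonneg (by positivity) (dir_nonneg J i)
  · simp only [Pi.smul_apply, smul_eq_mul, ← Finset.mul_sum, sum_dir]; field_simp
  · simp only [mem_ofPred_eq, H, smul_smul, hJ_shift] at hx ⊢; exact hx
  · have : x ∉ V := fun h => hx.2 ⟨h, hx.1⟩
    simp only [V, Finset.mem_univ, true_imp_iff, mem_ofPred_eq, not_forall, not_lt] at this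
    obtain ⟨j, hj⟩ := this
    exact mem_iUnion.2 ⟨j, hj⟩
  · rw [tsum_fintype]
  · have e1 : ∑ j, volume ({x | ENNReal.ofReal (r j) ≤ H j x} ∩ slab _ 0) =
        ∑ j, (volume.restrict (slab (Option α) 0)) {x | ENNReal.ofReal (r j) ≤ H j x} :=
      Finset.sum_congr rfl (fun j _ => (Measure.restrict_apply (hC j)).symm)
    have e2 : β * volume (V ∩ cube _) =
        ∫⁻ x, V.indicator (fun _ => β) x ∂(volume.restrict (cube (Option α))) := by
      rw [lintegral_indicator hV, setLIntegral_const, Measure.restrict_apply hV]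
    rw [e1, e2]
    refine hr.trans (add_le_add ?_ ?_)
    · have e3 : ∀ J : Finset α, ∫⁻ x in slab (Option α) 0, H J x = ENNReal.ofReal (6 * s *
          ((3 * ((1/6:ℝ) ^ J.card * (5/6) ^ (Fintype.card α - J.card))) * (1 / (J.card + 1)))) := by
        intro J
        simp only [H]
        rw [lintegral_const_mul _ (hJ_measurable J)]
        unfold hJ
        rw [line_cost (fun x => ENNReal.ofReal (PJ J x))
          (ENNReal.measurable_ofReal.comp (PJ_measurable J)) (dir J)
          (by rw [sum_dir]; positivity), lintegral_PJ, sum_dir,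
          ← ENNReal.ofReal_mul (by positivity), ← ENNReal.ofReal_mul (by positivity)]
      simp only [e3]
      rw [← ENNReal.ofReal_sum_of_nonneg (fun J _ => by positivity), ← Finset.mul_sum]
      refine ENNReal.ofReal_le_ofReal ?_
      calc _ ≤ 6 * s * (18 / (Fintype.card α + 1)) :=
            mul_le_mul_of_nonneg_left sum_cost (by positivity)
        _ = 108 / s := by rw [← hss]; field_simp; norm_num
    · calc _ ≤ ∫⁻ _x in cube (Option α), β / 4 := by
            refine setLIntegral_mono' (measurableSet_cube _) (fun x hx => ?_)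
            rw [div_eq_mul_inv]
            refine mul_le_mul_right ?_ _
            have h1 := prod_one_sub (fun j => H j x) Finset.univ
            have h2 : (3 : ℝ≥0∞) ≤ ∑ j, H j x := by
              simp only [H]
              rw [← Finset.mul_sum]
              refine le_trans (le_of_eq ?_) (mul_le_mul_right (hJ_cover x hx) _)
              rw [← ENNReal.ofReal_mul (by positivity), ← hs]
              rw [show 6 * s * (1 / (2 * s)) = 3 by field_simp; norm_num]
              simp
            rw [ENNReal.le_inv_iff_mul_le]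
            refine le_trans (mul_le_mul_right ?_ _) h1
            calc (4 : ℝ≥0∞) = 1 + 3 := by norm_num
              _ ≤ _ := add_le_add le_rfl h2
        _ = β / 4 := by rw [setLIntegral_const, volume_cube, mul_one]

end

end Pool.Agent.Lib.MP_fedf83_gt
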