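import Pool.Agent.Lib.MP_fedf83_gt.Cov

open MeasureTheory Set Matrix
open scoped ENNReal BigOperators

set_option linter.unusedSectionVars false
set_option linter.unusedSimpArgs false

namespace Pool.Agent.Lib.MP_fedf83_gt

noncomputable section

lemma rows_orthonormal {l ι : Type} [Fintype l] [Fintype ι] [DecidableEq l]
    (B : Matrix l ι ℝ) (hB : B * Bᵀ = 1) :
    Orthonormal ℝ (fun k => (WithLp.toLp 2 (B k) : EuclideanSpace ℝ ι)) := by
  rw [orthonormal_iff_ite]
  intro a b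
  have := congrFun (congrFun hB a) b
  rw [Matrix.mul_apply, Matrix.one_apply] at this
  rw [← this, PiLp.inner_apply]
  refine Finset.sum_congr rfl (fun i _ => ?_)
  simp [mul_comm]

lemma extend_rows {l k ι : Type} [Fintype l] [Fintype k] [Fintype ι] [DecidableEq l]
    [DecidableEq k] (B : Matrix l ι ℝ) (hB : B * Bᵀ = 1)
    (hc : Fintype.card ι = Fintype.card (l ⊕ k)) :
    ∃ O : Matrix (l ⊕ k) ι ℝ, O * Oᵀ = 1 ∧ O.submatrix Sum.inl id = B := by
  let v : l ⊕ k → EuclideanSpace ℝ ι := Sum.elim (fun a => WithLp.toLp 2 (B a)) 0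
  have hv : Orthonormal ℝ ((range (Sum.inl : l → l ⊕ k)).domRestrict v) := by
    have h := rows_orthonormal B hB
    rw [orthonormal_iff_ite] at h ⊢
    rintro ⟨_, a, rfl⟩ ⟨_, b, rfl⟩
    have := h a b
    simp only [Subtype.mk.injEq, Sum.inl.injEq]
    exact this
  obtain ⟨b, hb⟩ := hv.exists_orthonormalBasis_extension_of_card_eq (by simpa using hc)
  refine ⟨Matrix.of (fun a i => b a i), ?_, ?_⟩
  · ext a c
    have h := orthonormal_iff_ite.1 b.orthonormal a c
    rw [Matrix.mul_apply, Matrix.one_apply, ← h, PiLp.inner_apply]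
    refine Finset.sum_congr rfl (fun i _ => ?_)
    simp [mul_comm]
  · ext a i
    simp [hb (Sum.inl a) ⟨a, rfl⟩, v]

/-- a sheared cube with a cheap family of pieces projected along orthonormal rows -/
def Good (ι l : Type) [Fintype ι] [DecidableEq ι] [Fintype l] [DecidableEq l] (c : ℝ≥0∞) : Prop :=
  ∃ T : Matrix ι ι ℝ, (∀ j, ∑ i, T i j ^ 2 ≤ 1) ∧ T.det ≠ 0 ∧
    ∃ (I : Type) (_ : Countable I) (C : I → Set (ι → ℝ)) (B : I → Matrix l ι ℝ),
      (∀ m, B m * (B m)ᵀ = 1) ∧ cube ι ⊆ ⋃ m, C m ∧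
      ∑' m, volume ((B m * T).mulVec '' C m) ≤ c * ENNReal.ofReal |T.det|

def shear (l : Type) [DecidableEq l] : Matrix (Unit ⊕ l) (Unit ⊕ l) ℝ :=
  fromBlocks 1 (Matrix.of fun _ _ => 1 / 2) 0 ((1 / 2 : ℝ) • 1)

variable {l : Type} [Fintype l] [DecidableEq l]

lemma shear_sum (x : Unit ⊕ l → ℝ) : ∑ i, (shear l).mulVec x i = ∑ i, x i := by
  simp [shear, Fintype.sum_sum_type, Matrix.mulVec, dotProduct, Matrix.one_apply,
    ← Finset.mul_sum]
  ring

lemma shear_inl (x : Unit ⊕ l → ℝ) :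
    (shear l).mulVec x (Sum.inl ()) = 1 / 2 * x (Sum.inl ()) + 1 / 2 * ∑ i, x i := by
  simp [shear, Fintype.sum_sum_type, Matrix.mulVec, dotProduct, Matrix.one_apply,
    ← Finset.mul_sum]
  ring

lemma cyl_cost (v : Unit ⊕ l → ℝ) (hv0 : ∀ i, 0 ≤ v i) (hv : ∑ i, v i = 1) :
    ∃ B : Matrix l (Unit ⊕ l) ℝ, B * Bᵀ = 1 ∧ ∀ C : Set (Unit ⊕ l → ℝ),
      (∀ x (t : ℝ), x ∈ C → x + t • v ∈ C) →
      volume ((B * shear l).mulVec '' C) ≤
        2 * volume (C ∩ slab _ 0) * ENNReal.ofReal |(shear l).det| := by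
  set u := (shear l).mulVec v with hu
  have hu1 : ∑ i, u i = 1 := by rw [hu, shear_sum, hv]
  have hu2 : 1 / 2 ≤ u (Sum.inl ()) := by rw [hu, shear_inl, hv]; linarith [hv0 (Sum.inl ())]
  set N : ℝ := √(∑ i, u i ^ 2) with hN
  have hS : u (Sum.inl ()) ^ 2 ≤ ∑ i, u i ^ 2 :=
    Finset.single_le_sum (f := fun i => u i ^ 2) (fun i _ => sq_nonneg _) (Finset.mem_univ _)
  have hN1 : 1 / 2 ≤ N := Real.le_sqrt_of_sq_le (by nlinarith)
  have hN0 : 0 < N := by linarith
  have hNN : N ^ 2 = ∑ i, u i ^ 2 := Real.sq_sqrt (by positivity)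
  let R : Matrix Unit (Unit ⊕ l) ℝ := Matrix.of fun _ i => u i / N
  have hR : R * Rᵀ = 1 := by
    ext a b
    simp only [R, Matrix.mul_apply, Matrix.of_apply, Matrix.transpose_apply, Matrix.one_apply,
      if_true]
    simp only [← pow_two, div_pow, ← Finset.sum_div, ← hNN]
    field_simp
  obtain ⟨O, hO, hOR⟩ := extend_rows (k := l) R hR rfl
  have hOe : ∀ a b, ∑ i, O a i * O b i = if a = b then 1 else 0 := by
    intro a b
    have := congrFun (congrFun hO a) b
    rwa [Matrix.mul_apply, Matrix.one_apply] at this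
  have hO1 : ∀ i, O (Sum.inl ()) i = u i / N := fun i => congrFun (congrFun hOR ()) i
  let B : Matrix l (Unit ⊕ l) ℝ := O.submatrix Sum.inr id
  have hBu : B.mulVec u = 0 := by
    funext a
    have := hOe (Sum.inr a) (Sum.inl ())
    simp only [hO1, reduceCtorEq, if_false, ← mul_div_assoc, ← Finset.sum_div] at this
    rw [div_eq_zero_iff] at this
    exact this.resolve_right hN0.ne'
  refine ⟨B, ?_, fun C hC => ?_⟩
  · ext a b
    rw [Matrix.mul_apply, Matrix.one_apply]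
    simpa [B] using hOe (Sum.inr a) (Sum.inr b)
  let Φ : Matrix (Unit ⊕ l) (Unit ⊕ l) ℝ :=
    Matrix.of (Sum.elim (fun _ _ => 1) (fun a => O (Sum.inr a)))
  have hdO : |O.det| = 1 := by
    have := congrArg Matrix.det hO
    rw [Matrix.det_mul, Matrix.det_transpose, Matrix.det_one] at this
    rw [← sq_eq_sq₀ (abs_nonneg _) zero_le_one, sq_abs]; linarith
  have hM : Φ * Oᵀ = fromBlocks (Matrix.of fun _ _ => 1 / N)
      (Matrix.of fun _ a => ∑ i, O (Sum.inr a) i) 0 1 := by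
    ext a b
    rw [Matrix.mul_apply]
    rcases a with a | a <;> rcases b with b | b
    · simp only [Φ, Matrix.of_apply, Sum.elim_inl, one_mul, Matrix.transpose_apply,
        fromBlocks_apply₁₁]
      simp only [hO1, ← Finset.sum_div, hu1]
    · simp [Φ]
    · simpa [Φ] using hOe (Sum.inr a) (Sum.inl b)
    · simpa [Φ, Matrix.one_apply] using hOe (Sum.inr a) (Sum.inr b)
  have hdΦ : |Φ.det| ≤ 2 := by
    have := congrArg Matrix.det hM
    rw [Matrix.det_mul, Matrix.det_transpose, det_fromBlocks_zero₂₁, Matrix.det_one,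
      Matrix.det_unique (n := Unit)] at this
    have h2 := congrArg abs this
    rw [abs_mul, hdO, mul_one] at h2
    rw [h2]
    simp only [Matrix.of_apply, mul_one]
    rw [abs_of_pos (by positivity), div_le_iff₀ hN0]; linarith
  have hsub : {y : Unit ⊕ l → ℝ | (y ∘ Sum.inl, y ∘ Sum.inr) ∈
      cube Unit ×ˢ ((B * shear l).mulVec '' C)} ⊆ (Φ * shear l).mulVec '' (C ∩ slab _ 0) := by
    rintro y ⟨hy1, x, hx, hy2⟩
    have ha := hy1 ()
    simp only [Function.comp_apply] at ha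
    have hs : ∑ i, (x + (y (Sum.inl ()) - ∑ i, x i) • v) i = y (Sum.inl ()) := by
      simp only [Pi.add_apply, Pi.smul_apply, smul_eq_mul, Finset.sum_add_distrib,
        ← Finset.mul_sum, hv]
      ring
    refine ⟨x + (y (Sum.inl ()) - ∑ i, x i) • v, ⟨hC _ _ hx, ?_⟩, ?_⟩
    · simp only [slab, mem_ofPred_eq, hs]; simpa using ha
    · rw [← Matrix.mulVec_mulVec]
      funext a
      rcases a with a | a
      · have e0 : ∀ w : Unit ⊕ l → ℝ, Φ.mulVec w (Sum.inl a) = ∑ i, w i := by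
          intro w; simp only [Φ, Matrix.mulVec, dotProduct, of_apply, Sum.elim_inl, one_mul]
        rw [e0, shear_sum, hs]
      · have e1 : Φ.mulVec ((shear l).mulVec (x + (y (Sum.inl ()) - ∑ i, x i) • v)) (Sum.inr a) =
            B.mulVec ((shear l).mulVec (x + (y (Sum.inl ()) - ∑ i, x i) • v)) a := rfl
        rw [e1, Matrix.mulVec_add, Matrix.mulVec_smul, ← hu, Matrix.mulVec_add,
          Matrix.mulVec_smul, hBu, smul_zero, add_zero, Matrix.mulVec_mulVec, hy2]
        rfl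
  have h1 := measure_mono (μ := volume) hsub
  rw [vol_sum_pre, Measure.prod_prod, volume_cube, one_mul, vol_mulVec_image, Matrix.det_mul,
    abs_mul, ENNReal.ofReal_mul (abs_nonneg _)] at h1
  refine h1.trans ?_
  have : ENNReal.ofReal |Φ.det| ≤ 2 := by simpa using ENNReal.ofReal_le_ofReal hdΦ
  calc _ ≤ 2 * ENNReal.ofReal |(shear l).det| * volume (C ∩ slab _ 0) := by gcongr
    _ = _ := by ring

lemma good_base (c : ℝ≥0∞) (h : CovOn (Unit ⊕ l) (cube _) c) : Good (Unit ⊕ l) l (2 * c) := by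
  obtain ⟨I, hI, v, C, p, s, -, i, k, t⟩ := h
  choose B hB1 hB2 using fun m => cyl_cost (v m) (p m) (s m)
  refine ⟨shear l, ?_, ?_, I, hI, C, B, hB1, k, ?_⟩
  · rintro (j | j)
    · simp [shear, Fintype.sum_sum_type]
    · simp [shear, Fintype.sum_sum_type, Matrix.one_apply]
      norm_num
  · rw [shear, det_fromBlocks_zero₂₁]; simp
  · calc _ ≤ ∑' m, 2 * volume (C m ∩ slab _ 0) * ENNReal.ofReal |(shear l).det| :=
          ENNReal.tsum_le_tsum (fun m => hB2 m (C m) (i m))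
      _ = 2 * (∑' m, volume (C m ∩ slab _ 0)) * ENNReal.ofReal |(shear l).det| := by
          rw [ENNReal.tsum_mul_right, ENNReal.tsum_mul_left]
      _ ≤ _ := by gcongr

lemma good_prod {a b l1 l2 : Type} [Fintype a] [DecidableEq a] [Fintype b] [DecidableEq b]
    [Fintype l1] [DecidableEq l1] [Fintype l2] [DecidableEq l2] {c1 c2 : ℝ≥0∞}
    (h1 : Good a l1 c1) (h2 : Good b l2 c2) : Good (a ⊕ b) (l1 ⊕ l2) (c1 * c2) := by
  obtain ⟨T1, n1, d1, I1, hI1, C1, B1, o1, k1, t1⟩ := h1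
  obtain ⟨T2, n2, d2, I2, hI2, C2, B2, o2, k2, t2⟩ := h2
  refine ⟨fromBlocks T1 0 0 T2, ?_, ?_, I1 × I2, inferInstance,
    fun m => {x | x ∘ Sum.inl ∈ C1 m.1 ∧ x ∘ Sum.inr ∈ C2 m.2},
    fun m => fromBlocks (B1 m.1) 0 0 (B2 m.2), ?_, ?_, ?_⟩
  · rintro (j | j)
    · simpa [Fintype.sum_sum_type] using n1 j
    · simpa [Fintype.sum_sum_type] using n2 j
  · rw [det_fromBlocks_zero₂₁]; exact mul_ne_zero d1 d2
  · intro m
    rw [fromBlocks_transpose, fromBlocks_multiply]
    simp [o1, o2]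
  · intro x hx
    obtain ⟨m1, hm1⟩ := mem_iUnion.1 (k1 (show x ∘ Sum.inl ∈ cube a from fun i => hx _))
    obtain ⟨m2, hm2⟩ := mem_iUnion.1 (k2 (show x ∘ Sum.inr ∈ cube b from fun i => hx _))
    exact mem_iUnion.2 ⟨(m1, m2), hm1, hm2⟩
  · calc _ ≤ ∑' m : I1 × I2, volume ((B1 m.1 * T1).mulVec '' C1 m.1) *
          volume ((B2 m.2 * T2).mulVec '' C2 m.2) := by
          refine ENNReal.tsum_le_tsum (fun m => ?_)
          rw [← Measure.prod_prod, ← vol_sum_pre]
          refine measure_mono ?_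
          rintro _ ⟨x, ⟨hx1, hx2⟩, rfl⟩
          rw [fromBlocks_multiply]
          simp only [Matrix.zero_mul, Matrix.mul_zero, add_zero, zero_add, fromBlocks_mulVec,
            Matrix.zero_mulVec, mem_ofPred_eq, Sum.elim_comp_inl, Sum.elim_comp_inr, mem_prod]
          exact ⟨⟨_, hx1, rfl⟩, ⟨_, hx2, rfl⟩⟩
      _ = (∑' m, volume ((B1 m * T1).mulVec '' C1 m)) *
          ∑' m, volume ((B2 m * T2).mulVec '' C2 m) := by
          rw [ENNReal.tsum_prod', ← ENNReal.tsum_mul_right]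
          refine tsum_congr (fun m => ?_)
          rw [← ENNReal.tsum_mul_left]
      _ ≤ (c1 * ENNReal.ofReal |T1.det|) * (c2 * ENNReal.ofReal |T2.det|) := mul_le_mul' t1 t2
      _ = _ := by
          rw [det_fromBlocks_zero₂₁, abs_mul, ENNReal.ofReal_mul (abs_nonneg _)]; ring

lemma good_equiv {a b : Type} [Fintype a] [DecidableEq a] [Fintype b] [DecidableEq b]
    (e : a ≃ b) {c : ℝ≥0∞} (h : Good a l c) : Good b l c := by
  obtain ⟨T, n, d, I, hI, C, B, o, k, t⟩ := h
  refine ⟨T.submatrix e.symm e.symm, fun j => ?_, by rwa [det_submatrix_equiv_self], I, hI,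
    fun m => {y | y ∘ e ∈ C m}, fun m => (B m).submatrix id e.symm, fun m => ?_, fun x hx => ?_,
    ?_⟩
  · have := Equiv.sum_comp e.symm (fun i => T i (e.symm j) ^ 2)
    simpa [this] using n (e.symm j)
  · rw [Matrix.transpose_submatrix, Matrix.submatrix_mul_equiv, o]; rfl
  · obtain ⟨j, hj⟩ := mem_iUnion.1 (k (show x ∘ e ∈ cube a from fun i => hx _))
    exact mem_iUnion.2 ⟨j, hj⟩
  · rw [det_submatrix_equiv_self]
    refine le_trans (ENNReal.tsum_le_tsum (fun m => measure_mono ?_)) t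
    rintro _ ⟨y, hy, rfl⟩
    refine ⟨_, hy, ?_⟩
    rw [Matrix.submatrix_mul_equiv, Matrix.submatrix_mulVec_equiv]
    rfl

lemma good_self (a : Type) [Fintype a] [DecidableEq a] : Good a a 1 := by
  refine ⟨1, fun j => by simp [Matrix.one_apply], by simp, Unit, inferInstance, fun _ => cube a,
    fun _ => 1, by simp, fun x hx => mem_iUnion.2 ⟨(), hx⟩, ?_⟩
  simp [vol_mulVec_image, volume_cube]

lemma good_empty (a : Type) [Fintype a] [DecidableEq a] : Good a Empty 1 := by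
  refine ⟨1, fun j => by simp [Matrix.one_apply], by simp, Unit, inferInstance, fun _ => cube a,
    fun _ => 0, fun _ => Subsingleton.elim _ _, fun x hx => mem_iUnion.2 ⟨(), hx⟩, ?_⟩
  rw [tsum_fintype, Fintype.sum_unique]
  refine le_trans (measure_mono (t := cube Empty) (fun _ _ i => i.elim)) ?_
  simp [volume_cube]

/-- the same, by sizes -/
def GoodN (n k : ℕ) (c : ℝ≥0∞) : Prop :=
  ∃ (ι l : Type) (_ : Fintype ι) (_ : DecidableEq ι) (_ : Fintype l) (_ : DecidableEq l),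
    Fintype.card ι = n ∧ Fintype.card l = k ∧ Good ι l c

lemma goodN_add {n k n' k' : ℕ} {c c' : ℝ≥0∞} (h : GoodN n k c) (h' : GoodN n' k' c') :
    GoodN (n + n') (k + k') (c * c') := by
  obtain ⟨a, l1, _, _, _, _, e1, e2, g⟩ := h
  obtain ⟨b, l2, _, _, _, _, e3, e4, g'⟩ := h'
  exact ⟨a ⊕ b, l1 ⊕ l2, inferInstance, inferInstance, inferInstance, inferInstance,
    by simp [e1, e3], by simp [e2, e4], good_prod g g'⟩

lemma goodN_self (n : ℕ) : GoodN n n 1 :=
  ⟨Fin n, Fin n, inferInstance, inferInstance, inferInstance, inferInstance, by simp, by simp,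
    good_self _⟩

lemma goodN_zero (n : ℕ) : GoodN n 0 1 :=
  ⟨Fin n, Empty, inferInstance, inferInstance, inferInstance, inferInstance, by simp, by simp,
    good_empty _⟩

lemma goodN_block (s : ℕ) : GoodN (s + 1) s (ENNReal.ofReal (648 / √(s + 1))) := by
  refine ⟨Unit ⊕ Fin s, Fin s, inferInstance, inferInstance, inferInstance, inferInstance,
    by simp [add_comm], by simp, ?_⟩
  have h := good_base _ (cov_all (s + 1) (Unit ⊕ Fin s) (by simp [add_comm]) (by omega))
  have e : ENNReal.ofReal (648 / √(s + 1)) = 2 * ENNReal.ofReal (324 / √((s + 1 : ℕ) : ℝ)) := by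
    rw [← ENNReal.ofReal_ofNat 2, ← ENNReal.ofReal_mul (by norm_num)]
    congr 1; push_cast; ring
  rwa [e]

lemma goodN_pow {n k : ℕ} {c : ℝ≥0∞} (h : GoodN n k c) (j : ℕ) :
    GoodN (j * n) (j * k) (c ^ j) := by
  induction j with
  | zero => simpa using goodN_self 0
  | succ j ih => rw [add_one_mul, add_one_mul, pow_succ]; exact goodN_add ih h

lemma good_mono {a : Type} [Fintype a] [DecidableEq a] {c d : ℝ≥0∞} (h : Good a l c)
    (hcd : c ≤ d) : Good a l d := by
  obtain ⟨T, n, e, I, hI, C, B, o, k, t⟩ := h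
  exact ⟨T, n, e, I, hI, C, B, o, k, t.trans (by gcongr)⟩

theorem good_final (n k j : ℕ) (hk : 1 ≤ k) (hj : 1 ≤ j) (h : k + j ≤ n) :
    ∃ (l : Type) (_ : Fintype l) (_ : DecidableEq l), Fintype.card l = k ∧
      Good (Fin n) l (ENNReal.ofReal ((648 * √((j : ℝ) / k)) ^ j)) := by
  have h1 := goodN_add (goodN_add (goodN_pow (goodN_block (k / j)) j) (goodN_self (k % j)))
    (goodN_zero (n - k - j))
  have hd := Nat.div_add_mod k j
  rw [add_zero, mul_one, mul_one, hd,
    show j * (k / j + 1) + k % j + (n - k - j) = n by rw [mul_add, mul_one]; omega] at h1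
  obtain ⟨ι, l, _, _, _, _, e1, e2, g⟩ := h1
  refine ⟨l, inferInstance, inferInstance, e2,
    good_mono (good_equiv (Fintype.equivOfCardEq (by simpa using e1)) g) ?_⟩
  rw [ENNReal.ofReal_pow (by positivity)]
  refine pow_le_pow_left₀ zero_le (ENNReal.ofReal_le_ofReal ?_) _
  have hlt : k < j * (k / j + 1) := Nat.lt_mul_div_succ k hj
  have hlt' : (k : ℝ) ≤ j * ((k / j : ℕ) + 1) := by exact_mod_cast hlt.le
  have hk0 : (0:ℝ) < k := by exact_mod_cast hk
  rw [div_eq_mul_inv, ← Real.sqrt_inv]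
  refine mul_le_mul_of_nonneg_left (Real.sqrt_le_sqrt ?_) (by norm_num)
  rw [inv_eq_one_div, div_le_div_iff₀ (by positivity) hk0]; linarith

end

end Pool.Agent.Lib.MP_fedf83_gt
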