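import Pool.Agent.Lib.MP_fedf83_gt.KFlat

/-! Greedy axes of the covariogram of a convex body. -/

namespace Pool.Agent.Lib.MP_fedf83_gt.FL

open MeasureTheory Set Module Filter Topology Pool.Agent.Lib.MP_fedf83_gt.B
open scoped ENNReal RealInnerProductSpace Pointwise symmDiff

variable {n k : ℕ}

/-- The data of a greedy choice of `m` axes. -/
def Greedy (B : Set (E n)) (m : ℕ) (u : ℕ → E n) (r : ℕ → ℝ) : Prop :=
  ∀ i < m, ‖u i‖ = 1 ∧ (∀ j < i, ⟪u j, u i⟫ = 0) ∧ 0 < r i ∧ r i • u i ∈ B ∧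
    ∀ d ∈ B, (∀ j < i, ⟪u j, d⟫ = 0) → ‖d‖ ≤ r i

theorem exists_greedy {B : Set (E n)} (hB : IsCompact B) (h0 : B ∈ 𝓝 (0 : E n)) (m : ℕ)
    (hm : m ≤ n) : ∃ u r, Greedy B m u r := by
  induction m with
  | zero => exact ⟨0, 0, fun i hi => absurd hi (Nat.not_lt_zero i)⟩
  | succ m ih =>
    obtain ⟨u, r, h⟩ := ih (by omega)
    have cl : IsClosed {d : E n | ∀ j < m, ⟪u j, d⟫ = 0} := by
      simp only [ofPred_forall]
      exact isClosed_iInter fun j => isClosed_iInter fun _ =>
        isClosed_eq (by fun_prop) continuous_const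
    obtain ⟨p, hp, hmax⟩ := (hB.inter_right cl).exists_isMaxOn
      ⟨0, mem_of_mem_nhds h0, fun j _ => inner_zero_right _⟩ continuous_norm.continuousOn
    obtain ⟨w, w0, hw⟩ : ∃ w : E n, w ≠ 0 ∧ ∀ j < m, ⟪u j, w⟫ = 0 := by
      let Y := Submodule.span ℝ (Set.range fun j : Fin m => u j)
      have h1 : finrank ℝ Y ≤ m := (finrank_range_le_card _).trans (by simp)
      have h2 := Y.finrank_add_finrank_orthogonal
      rw [finrank_euclideanSpace, Fintype.card_fin] at h2
      have : Nontrivial Yᗮ := (Module.finrank_pos_iff (R := ℝ)).1 (by omega)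
      obtain ⟨w, hw⟩ := exists_ne (0 : Yᗮ)
      exact ⟨w, fun h => hw (Subtype.ext h), fun j hj => Submodule.inner_right_of_mem_orthogonal
        (K := Y) (Submodule.subset_span (mem_range_self (⟨j, hj⟩ : Fin m))) w.2⟩
    have p0 : 0 < ‖p‖ := by
      have h1 : ∀ᶠ t in 𝓝 (0 : ℝ), t • w ∈ B :=
        ((by fun_prop : Continuous fun t : ℝ => t • w).tendsto' 0 0 (zero_smul _ _)).eventually h0
      obtain ⟨t, ht, t0⟩ := ((h1.filter_mono (nhdsWithin_le_nhds (s := {0}ᶜ))).and
        self_mem_nhdsWithin).exists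
      exact lt_of_lt_of_le (norm_pos_iff.2 (smul_ne_zero t0 w0))
        (hmax ⟨ht, fun j hj => by rw [inner_smul_right, hw j hj, mul_zero]⟩)
    have e : ∀ j < m, Function.update u m (‖p‖⁻¹ • p) j = u j := fun j hj =>
      Function.update_of_ne hj.ne _ _
    refine ⟨Function.update u m (‖p‖⁻¹ • p), Function.update r m ‖p‖, fun i hi => ?_⟩
    rcases Nat.lt_succ_iff_lt_or_eq.1 hi with h1 | rfl
    · obtain ⟨a1, a2, a3, a4, a5⟩ := h i h1
      rw [e i h1, Function.update_of_ne h1.ne]
      exact ⟨a1, fun j hj => by rw [e j (hj.trans h1)]; exact a2 j hj, a3, a4,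
        fun d hd h2 => a5 d hd fun j hj => by rw [← e j (hj.trans h1)]; exact h2 j hj⟩
    · rw [Function.update_self, Function.update_self]
      refine ⟨norm_smul_inv_norm (norm_pos_iff.1 p0), fun j hj => ?_, p0, ?_,
        fun d hd h2 => hmax ⟨hd, fun j hj => by rw [← e j hj]; exact h2 j hj⟩⟩
      · rw [e j hj, inner_smul_right, hp.2 j hj, mul_zero]
      · rw [smul_inv_smul₀ p0.ne']; exact hp.1

variable {B : Set (E n)} {m : ℕ} {u : ℕ → E n} {r : ℕ → ℝ}

theorem Greedy.inner (h : Greedy B m u r) {i j : ℕ} (hi : i < m) (hj : j < m) :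
    ⟪u i, u j⟫ = if i = j then 1 else 0 := by
  rcases lt_trichotomy i j with h1 | rfl | h1
  · rw [if_neg h1.ne, (h j hj).2.1 i h1]
  · rw [if_pos rfl, real_inner_self_eq_norm_sq, (h i hi).1, one_pow]
  · rw [if_neg h1.ne', real_inner_comm, (h i hi).2.1 j h1]

theorem Greedy.anti (h : Greedy B m u r) {i j : ℕ} (hij : i ≤ j) (hj : j < m) : r j ≤ r i := by
  have := (h i (hij.trans_lt hj)).2.2.2.2 _ (h j hj).2.2.2.1 fun l hl => by
    rw [inner_smul_right, (h j hj).2.1 l (hl.trans_le hij), mul_zero]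
  rwa [norm_smul, (h j hj).1, mul_one, Real.norm_of_nonneg (h j hj).2.2.1.le] at this

/-- What is left of `d` after the first `i` axes. -/
noncomputable def rest (u : ℕ → E n) (d : E n) (i : ℕ) : E n :=
  d - ∑ j ∈ Finset.range i, ⟪u j, d⟫ • u j

theorem Greedy.inner_rest (h : Greedy B m u r) (d : E n) {i l : ℕ} (hi : i ≤ m) (hl : l < m) :
    ⟪u l, rest u d i⟫ = if l < i then 0 else ⟪u l, d⟫ := by
  rw [rest, inner_sub_right, inner_sum, Finset.sum_congr rfl fun j hj => by
    rw [inner_smul_right, h.inner hl ((Finset.mem_range.1 hj).trans_le hi)]]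
  simp only [mul_ite, mul_one, mul_zero, Finset.sum_ite_eq, Finset.mem_range]
  split_ifs <;> simp

theorem Greedy.rest_le (h : Greedy B m u r) {d : E n} {i : ℕ} (hi : i < m)
    (hd : ((2 : ℝ) ^ i)⁻¹ • rest u d i ∈ B) :
    ‖rest u d i‖ ≤ 2 ^ i * r i ∧ |⟪u i, d⟫| ≤ 2 ^ i * r i := by
  have h1 := (h i hi).2.2.2.2 _ hd fun j hj => by
    rw [inner_smul_right, h.inner_rest d hi.le (hj.trans hi), if_pos hj, mul_zero]
  have p : (0 : ℝ) < 2 ^ i := by positivity
  rw [norm_smul, norm_inv, Real.norm_of_nonneg p.le, inv_mul_le_iff₀ p] at h1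
  refine ⟨h1, le_trans ?_ h1⟩
  have := abs_real_inner_le_norm (u i) (rest u d i)
  rwa [h.inner_rest d hi.le hi, if_neg (lt_irrefl i), (h i hi).1, one_mul] at this

theorem Greedy.rest_mem (h : Greedy B m u r) (cv : Convex ℝ B) (sy : ∀ d ∈ B, -d ∈ B) {d : E n}
    (hd : d ∈ B) (i : ℕ) (hi : i ≤ m) : ((2 : ℝ) ^ i)⁻¹ • rest u d i ∈ B := by
  induction i with
  | zero => simpa [rest] using hd
  | succ i ih =>
    have h1 := ih (by omega)
    have h2 := (h.rest_le hi h1).2
    obtain ⟨-, -, r0, hb, -⟩ := h i hi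
    have p : (0 : ℝ) < 2 ^ i * r i := by positivity
    set t := ⟪u i, d⟫ / (2 ^ i * r i) with ht
    have t1 : |t| ≤ 1 := by rwa [ht, abs_div, abs_of_pos p, div_le_one p]
    rw [abs_le] at t1
    have h3 := cv hb (sy _ hb) (a := (1 - t) / 2) (b := (1 + t) / 2) (by linarith) (by linarith)
      (by ring)
    have h4 := cv h1 h3 (a := 1 / 2) (b := 1 / 2) (by norm_num) (by norm_num) (by norm_num)
    convert h4 using 1
    have e : ⟪u i, d⟫ = t * (2 ^ i * r i) := by rw [ht, div_mul_cancel₀ _ p.ne']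
    rw [rest, rest, Finset.sum_range_succ, e]
    match_scalars <;> field_simp <;> ring

/-- The covariogram. -/
noncomputable def cvg (K : Set (E n)) (d : E n) : ℝ := volume.real {z | z ∈ K ∧ z - d ∈ K}

variable {K : Set (E n)}

theorem cvg_meas (hK : IsBody K) (d : E n) : MeasurableSet {z | z ∈ K ∧ z - d ∈ K} :=
  hK.1.measurableSet.inter ((measurable_id.sub_const d) hK.1.measurableSet)

theorem cvg_fin (hK : IsBody K) (d : E n) : volume {z | z ∈ K ∧ z - d ∈ K} ≠ ⊤ :=
  ne_top_of_le_ne_top hK.1.measure_ne_top (measure_mono fun _ h => h.1)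

theorem cvg_zero (K : Set (E n)) : cvg K 0 = volume.real K := by simp [cvg]

theorem cvg_neg (K : Set (E n)) (d : E n) : cvg K (-d) = cvg K d := by
  have : {z | z ∈ K ∧ z - -d ∈ K} = (fun z => z + d) ⁻¹' {z | z ∈ K ∧ z - d ∈ K} := by
    ext z
    simp [and_comm]
  rw [cvg, this, measureReal_def, measure_preimage_add_right, cvg, measureReal_def]

theorem cvg_cont (hK : IsBody K) : Continuous (cvg K) := by
  let f : C(E n, C(E n, E n)) := ContinuousMap.curry ⟨fun p : E n × E n => p.2 - p.1, by fun_prop⟩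
  have mp : ∀ d, MeasurePreserving (f d) volume volume := fun d =>
    measurePreserving_sub_right volume d
  have fin : ∀ d, volume (f d ⁻¹' K) ≠ ⊤ := fun d => by
    rw [(mp d).measure_preimage hK.1.measurableSet.nullMeasurableSet]
    exact hK.1.measure_ne_top
  refine continuous_iff_continuousAt.2 fun d => ?_
  have h1 := tendsto_measure_symmDiff_preimage_nhds_zero (f.continuous.tendsto d)
    (Eventually.of_forall mp) (mp d) hK.1.measurableSet.nullMeasurableSet hK.1.measure_ne_top
  have h2 := (ENNReal.tendsto_toReal ENNReal.zero_ne_top).comp h1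
  rw [ContinuousAt, tendsto_iff_dist_tendsto_zero]
  refine squeeze_zero (fun _ => dist_nonneg) (fun e => ?_) h2
  rw [Real.dist_eq]
  refine (abs_measureReal_sub_le_measureReal_symmDiff' (cvg_meas hK e).nullMeasurableSet
    (cvg_meas hK d).nullMeasurableSet (cvg_fin hK e) (cvg_fin hK d)).trans
    (measureReal_mono (fun z hz => ?_) (measure_symmDiff_ne_top (fin e) (fin d)))
  rcases hz with hz | hz
  · exact Or.inl ⟨hz.1.2, fun h => hz.2 ⟨hz.1.1, h⟩⟩
  · exact Or.inr ⟨hz.1.2, fun h => hz.2 ⟨hz.1.1, h⟩⟩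

theorem cvg_pl (hK : IsBody K) (d e : E n) {θ : ℝ} (h0 : 0 < θ) (h1 : θ < 1) :
    cvg K d ^ (1 - θ) * cvg K e ^ θ ≤ cvg K ((1 - θ) • d + θ • e) := by
  have h2 : 0 < 1 - θ := by linarith
  have := pl_euclidean n θ h0 h1 _ _ _ (measurable_one.indicator (cvg_meas hK d))
    (measurable_one.indicator (cvg_meas hK e))
    (measurable_one.indicator (cvg_meas hK ((1 - θ) • d + θ • e))) fun x y => by
      by_cases hx : x ∈ {z | z ∈ K ∧ z - d ∈ K}
      · by_cases hy : y ∈ {z | z ∈ K ∧ z - e ∈ K}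
        · have : (1 - θ) • x + θ • y ∈ {z | z ∈ K ∧ z - ((1 - θ) • d + θ • e) ∈ K} :=
            ⟨hK.2.1 hx.1 hy.1 h2.le h0.le (by ring), by
              convert hK.2.1 hx.2 hy.2 h2.le h0.le (by ring) using 1
              module⟩
          rw [indicator_of_mem hx, indicator_of_mem hy, indicator_of_mem this]
          simp
        · rw [indicator_of_notMem hy, ENNReal.zero_rpow_of_pos h0, mul_zero]
          exact zero_le
      · rw [indicator_of_notMem hx, ENNReal.zero_rpow_of_pos h2, zero_mul]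
        exact zero_le
  rw [lintegral_indicator_one (cvg_meas hK _), lintegral_indicator_one (cvg_meas hK _),
    lintegral_indicator_one (cvg_meas hK _)] at this
  have h3 := ENNReal.toReal_mono (cvg_fin hK _) this
  rwa [ENNReal.toReal_mul, ← ENNReal.toReal_rpow, ← ENNReal.toReal_rpow] at h3

theorem cvg_convex (hK : IsBody K) {a : ℝ} (a0 : 0 < a) : Convex ℝ {d | a ≤ cvg K d} := by
  refine convex_iff_forall_pos.2 fun d hd e he s t s0 t0 hs => ?_
  obtain rfl : s = 1 - t := by linarith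
  refine le_trans ?_ (cvg_pl hK d e t0 (by linarith))
  calc a = a ^ (1 - t) * a ^ t := by rw [← Real.rpow_add a0]; simp
    _ ≤ _ := by
      have h1 : a ≤ cvg K d := hd
      have h2 : a ≤ cvg K e := he
      have h3 := a0.trans_le h1
      gcongr

theorem cvg_compact (hK : IsBody K) {a : ℝ} (a0 : 0 < a) : IsCompact {d | a ≤ cvg K d} := by
  refine (hK.1.prod hK.1 |>.image (f := fun p : E n × E n => p.1 - p.2)
    (by fun_prop)).of_isClosed_subset (isClosed_le continuous_const (cvg_cont hK)) fun d hd => ?_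
  have h1 : 0 < cvg K d := a0.trans_le hd
  obtain ⟨z, hz⟩ := nonempty_of_measure_ne_zero (ENNReal.toReal_pos_iff.1 h1).1.ne'
  exact ⟨(z, z - d), ⟨hz.1, hz.2⟩, by simp⟩

theorem half_pow {θ : ℝ} (h0 : 0 ≤ θ) : 1 - θ ≤ (1 / 2 : ℝ) ^ θ := by
  rw [Real.rpow_def_of_pos (by norm_num), one_div, Real.log_inv]
  have h1 := Real.add_one_le_exp (-Real.log 2 * θ)
  have h2 := Real.log_two_lt_d9
  nlinarith

/-- The constant of the axes lemma. -/
noncomputable def Cax (k : ℕ) : ℝ := 2 * (2 * k * ((k + 1) * 2 ^ k) + 1)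

theorem Cax_pos (k : ℕ) : 0 < Cax k := by unfold Cax; positivity

theorem diag_inner (u : OrthonormalBasis (Fin n) ℝ (E n)) (r : Fin n → ℝ) {T : E n →L[ℝ] E n}
    (hT : ∀ x, T x = ∑ i, (⟪x, u i⟫ / r i) • u i) (x : E n) (j : Fin n) :
    ⟪u j, T x⟫ = ⟪u j, x⟫ / r j := by
  rw [hT, u.orthonormal.inner_right_fintype, real_inner_comm]

theorem diag_bij (u : OrthonormalBasis (Fin n) ℝ (E n)) {r : Fin n → ℝ} (r0 : ∀ i, 0 < r i)
    {T : E n →L[ℝ] E n} (hT : ∀ x, T x = ∑ i, (⟪x, u i⟫ / r i) • u i) : Function.Bijective T := by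
  have inj : Function.Injective T := (injective_iff_map_eq_zero T).2 fun x hx => by
    rw [← u.sum_repr' x]
    refine Finset.sum_eq_zero fun j _ => ?_
    have := diag_inner u r hT x j
    rw [hx, inner_zero_right, eq_comm, div_eq_zero_iff] at this
    rw [this.resolve_right (r0 j).ne', zero_smul]
  exact ⟨inj, (LinearMap.injective_iff_surjective (f := (T : E n →ₗ[ℝ] E n))).1 inj⟩

theorem body_image (hK : IsBody K) {T : E n →L[ℝ] E n} (hT : Function.Surjective T) :
    IsBody (T '' K) := by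
  refine ⟨hK.1.image T.continuous, hK.2.1.linear_image (T : E n →ₗ[ℝ] E n), ?_⟩
  exact (hK.2.2.image T).mono ((T.isOpenMap hT).image_interior_subset K)

/-- L1: axes of a body. -/
theorem axes (h1 : 1 ≤ k) (hk : k ≤ n) (hK : IsBody K) :
    ∃ (u : OrthonormalBasis (Fin n) ℝ (E n)) (r : Fin n → ℝ), (∀ i, 0 < r i) ∧ Antitone r ∧
      (∀ T : E n →L[ℝ] E n, (∀ x, T x = ∑ i, (⟪x, u i⟫ / r i) • u i) → IsBody (T '' K) ∧
        volume (T '' K) ≤ ENNReal.ofReal (Cax k) * sigma (n - 1) (T '' K)) ∧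
      volume K ≤ 2 * volume {x | x ∈ K ∧ ∀ i : Fin n, (i : ℕ) < k → x + r i • u i ∈ K} := by
  have V0 : 0 < volume.real K := vol_toReal_pos hK
  have k1 : (1 : ℝ) ≤ k := by exact_mod_cast h1
  set θ : ℝ := 1 / (2 * k) with hθ
  have t0 : 0 < θ := by positivity
  have t1 : θ ≤ 1 / 2 := one_div_le_one_div_of_le (by norm_num) (by linarith)
  have tk : θ * (2 * k) = 1 := by rw [hθ]; field_simp
  set a := (1 - θ) * volume.real K with ha
  have a0 : 0 < a := mul_pos (by linarith) V0
  set B := {d | a ≤ cvg K d} with hB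
  have sy : ∀ d ∈ B, -d ∈ B := fun d hd => by
    show a ≤ cvg K (-d)
    rwa [cvg_neg]
  obtain ⟨v, s, hg⟩ := exists_greedy (cvg_compact hK a0) (B := B)
    ((cvg_cont hK).continuousAt.eventually_const_le
      (by rw [cvg_zero]; nlinarith [mul_pos t0 V0])) n le_rfl
  have on : Orthonormal ℝ fun i : Fin n => v i := orthonormal_iff_ite.2 fun i j => by
    rw [hg.inner i.2 j.2]
    simp only [Fin.ext_iff]
  have : Nonempty (Fin n) := ⟨⟨0, by omega⟩⟩
  let u : OrthonormalBasis (Fin n) ℝ (E n) := OrthonormalBasis.mk on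
    (on.linearIndependent.span_eq_top_of_card_eq_finrank (by simp)).ge
  have hu : ∀ i, u i = v i := fun i => congrFun (OrthonormalBasis.coe_mk _ _) i
  have r0 : ∀ i : Fin n, 0 < s (min i (k - 1)) := fun i => (hg _ (by omega)).2.2.1
  refine ⟨u, fun i => s (min i (k - 1)), r0, fun i j hij => hg.anti
    (min_le_min_right _ hij) (by omega), fun T hT => ?_, ?_⟩
  · have bij := diag_bij u r0 hT
    have hb := body_image hK bij.2
    have bd : ∀ d ∈ B, ‖T d‖ ≤ (k + 1) * 2 ^ k := fun d hd => by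
      have hr := fun i (hi : i < n) =>
        hg.rest_le hi (hg.rest_mem (cvg_convex hK a0) sy hd i hi.le)
      have sk := (hg (k - 1) (by omega)).2.2.1
      have pw : ∀ i ≤ k, (2 : ℝ) ^ i ≤ 2 ^ k := fun i hi => pow_le_pow_right₀ one_le_two hi
      have c1 : ∀ i : Fin n, ⟪u i, T d⟫ ^ 2 ≤ (if (i : ℕ) < k then ((2 : ℝ) ^ k) ^ 2 else 0) +
          ⟪u i, rest v d (k - 1)⟫ ^ 2 / s (k - 1) ^ 2 := fun i => by
        rw [diag_inner u _ hT, hu, hg.inner_rest d (by omega) i.2]
        by_cases hi : (i : ℕ) < k - 1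
        · rw [if_pos hi, if_pos (by omega), min_eq_left hi.le]
          have si := (hg i i.2).2.2.1
          have : |⟪v i, d⟫ / s i| ≤ 2 ^ k := by
            rw [abs_div, abs_of_pos si, div_le_iff₀ si]
            exact (hr i i.2).2.trans (mul_le_mul_of_nonneg_right (pw i (by omega)) si.le)
          have := pow_le_pow_left₀ (abs_nonneg _) this 2
          rw [sq_abs] at this
          simpa using this
        · rw [if_neg hi, min_eq_right (not_lt.1 hi), div_pow]
          have : (0 : ℝ) ≤ if (i : ℕ) < k then ((2 : ℝ) ^ k) ^ 2 else 0 := by positivity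
          linarith
      have c2 := Finset.sum_le_sum fun i (_ : i ∈ Finset.univ) => c1 i
      rw [u.sum_sq_inner_right, Finset.sum_add_distrib, ← Finset.sum_div, u.sum_sq_inner_right,
        Fin.sum_univ_eq_sum_range (fun i => if i < k then ((2 : ℝ) ^ k) ^ 2 else 0),
        ← Finset.sum_filter, Finset.sum_const, nsmul_eq_mul] at c2
      have c3 : (((Finset.range n).filter (· < k)).card : ℝ) ≤ k := by
        have := Finset.card_le_card (s := (Finset.range n).filter (· < k)) (t := Finset.range k)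
          fun i hi => Finset.mem_range.2 (Finset.mem_filter.1 hi).2
        rw [Finset.card_range] at this
        exact_mod_cast this
      have c4 : ‖rest v d (k - 1)‖ ^ 2 / s (k - 1) ^ 2 ≤ ((2 : ℝ) ^ k) ^ 2 := by
        rw [← div_pow]
        refine pow_le_pow_left₀ (by positivity) ?_ 2
        rw [div_le_iff₀ sk]
        exact (hr _ (by omega)).1.trans (mul_le_mul_of_nonneg_right (pw _ (by omega)) sk.le)
      have c5 : (0 : ℝ) < ((2 : ℝ) ^ k) ^ 2 := by positivity
      refine abs_le_of_sq_le_sq' (a := ‖T d‖) ?_ (by positivity) |>.2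
      nlinarith [mul_le_mul_of_nonneg_right c3 c5.le, mul_pos (mul_pos (by linarith : (0 : ℝ) < k)
        (by linarith : (0 : ℝ) < k + 1)) c5]
    refine ⟨hb, U.sigma_ge (by omega) hb (by positivity) fun d' hd' => ?_⟩
    obtain ⟨d, rfl⟩ := bij.2 d'
    have e : {z | z ∈ T '' K ∧ z - T d ∈ T '' K} = T '' {z | z ∈ K ∧ z - d ∈ K} := by
      ext z
      obtain ⟨y, rfl⟩ := bij.2 z
      simp only [mem_ofPred_eq, ← map_sub, bij.1.mem_set_image]
    rw [e, Measure.addHaar_image_continuousLinearMap, Measure.addHaar_image_continuousLinearMap,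
      mul_left_comm]
    refine mul_le_mul_right ?_ _
    have hc : cvg K d ≤ 1 / 2 * volume.real K := by
      by_contra hc
      have p1 := cvg_pl hK 0 d t0 (by linarith)
      rw [cvg_zero, smul_zero, zero_add] at p1
      have p2 : θ • d ∈ B := by
        refine le_trans ?_ p1
        calc a ≤ (1 / 2 : ℝ) ^ θ * volume.real K :=
              mul_le_mul_of_nonneg_right (half_pow t0.le) V0.le
          _ = volume.real K ^ (1 - θ) * (1 / 2 * volume.real K) ^ θ := by
              rw [Real.mul_rpow (by norm_num) V0.le, mul_left_comm, ← Real.rpow_add V0]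
              simp
          _ ≤ _ := by gcongr; exact (not_le.1 hc).le
      have p3 := bd _ p2
      rw [map_smul, norm_smul, hd', Real.norm_of_nonneg t0.le, mul_add, ← mul_assoc, tk] at p3
      linarith
    rw [← ENNReal.toReal_le_toReal (cvg_fin hK d)
      (ENNReal.mul_ne_top (by simp) hK.1.measure_ne_top), ENNReal.toReal_mul]
    simpa [cvg, measureReal_def] using hc
  · set G := {x | x ∈ K ∧ ∀ i : Fin n, (i : ℕ) < k → x + s (min i (k - 1)) • u i ∈ K} with hG
    have fG : volume G ≠ ⊤ :=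
      ne_top_of_le_ne_top hK.1.measure_ne_top (measure_mono fun _ h => h.1)
    have bad : ∀ i < k, volume.real (K \ {z | z ∈ K ∧ z - -(s i • v i) ∈ K}) ≤
        θ * volume.real K := fun i hi => by
      rw [measureReal_sdiff (fun z hz => hz.1) (cvg_meas hK _) hK.1.measure_ne_top]
      have : a ≤ cvg K (-(s i • v i)) := sy _ (hg i (by omega)).2.2.2.1
      unfold cvg at this
      linarith
    have sub : K ⊆ G ∪ ⋃ i ∈ Finset.range k, K \ {z | z ∈ K ∧ z - -(s i • v i) ∈ K} := by
      intro x hx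
      by_contra hc
      simp only [mem_union, mem_iUnion, not_or, not_exists, Finset.mem_range] at hc
      refine hc.1 ⟨hx, fun i hi => ?_⟩
      by_contra h2
      refine hc.2 i hi ⟨hx, fun h3 => h2 ?_⟩
      rw [hu, min_eq_left (by omega), ← sub_neg_eq_add]
      exact h3.2
    have c1 := (measureReal_mono sub (measure_union_ne_top fG (ne_top_of_le_ne_top
      hK.1.measure_ne_top (measure_mono (iUnion₂_subset fun _ _ => sdiff_subset))))).trans
      ((measureReal_union_le _ _).trans (add_le_add_right ((measureReal_biUnion_finset_le _ _).trans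
        (Finset.sum_le_card_nsmul _ _ _ fun i hi => bad i (Finset.mem_range.1 hi))) _))
    rw [Finset.card_range, nsmul_eq_mul] at c1
    rw [← ENNReal.toReal_le_toReal hK.1.measure_ne_top (ENNReal.mul_ne_top (by simp) fG),
      ENNReal.toReal_mul]
    have c2 : (k : ℝ) * (θ * volume.real K) = volume.real K / 2 := by
      rw [hθ]; field_simp
    simp only [measureReal_def, ENNReal.toReal_ofNat] at c1 c2 ⊢
    linarith

end Pool.Agent.Lib.MP_fedf83_gt.FL
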