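import Pool.Agent.Lib.MP_fedf83_gt.KFlat

/-! Covers by cylinders over flats of a fixed dimension. -/

namespace Pool.Agent.Lib.MP_fedf83_gt.FL

open MeasureTheory Set Module Pool.Agent.Lib.MP_fedf83_gt.B
open scoped ENNReal RealInnerProductSpace Pointwise

variable {n k : ℕ}

/-- A finite family of cylinders covering `S` at cost `c`. -/
def CovK (k : ℕ) (S : Set (E n)) (c : ℝ≥0∞) : Prop :=
  ∃ (I : Type) (_ : Fintype I) (U : I → Fr k n) (C : I → Set (E n)),
    (∀ i, MeasurableSet (C i)) ∧ (∀ x ∈ S, ∃ i, 1 ≤ sec (U i) (C i) x) ∧ ∑ i, volume (C i) ≤ c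

theorem CovK.mono {S : Set (E n)} {c d : ℝ≥0∞} (h : CovK k S c) (hcd : c ≤ d) : CovK k S d := by
  obtain ⟨I, hI, v, C, h2, h3, h4⟩ := h
  exact ⟨I, hI, v, C, h2, h3, h4.trans hcd⟩

theorem covK_empty (k n : ℕ) : CovK k (∅ : Set (E n)) 0 :=
  ⟨Empty, inferInstance, Empty.elim, Empty.elim, fun i => i.elim, by simp, by simp⟩

theorem cst_le_of_covK {K : Set (E n)} (hK : IsBody K) {c ε : ℝ≥0∞} (hε : ε ≠ 0)
    (h : CovK k K c) : cst n (n - k) ≤ (c + ε) / sigma (n - k) K := by
  obtain ⟨I, hI, U, C, h2, h3, h4⟩ := h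
  obtain ⟨R, hR⟩ := hK.1.isBounded.subset_ball 0
  obtain ⟨η, hη0, hη⟩ := ENNReal.exists_pos_sum_of_countable hε I
  let L : I → Submodule ℝ (E n) := fun i => base (U i)
  let Z : I → Set (E n) := fun i => {x | x ∈ K ∧ 1 ≤ sec (U i) (C i) x}
  have hZ : ∀ i, volume ((L i).orthogonalProjectionOnto '' Z i) ≤ volume (C i) := fun i =>
    (one_mul _).ge.trans (sh_le (U i) (K := Z i) (h2 i) 1 fun x hx => hx.2)
  have hb := fun i : I => Besicovitch.exists_closedBall_covering_tsum_measure_le
    (volume : Measure (L i)) (ε := η i) (by simpa using (hη0 i).ne') (fun _ => Ioi (0:ℝ))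
    ((L i).orthogonalProjectionOnto '' Z i)
    (fun _ _ δ hδ => ⟨δ / 2, by simpa using hδ, by linarith, by linarith⟩)
  choose t r htc hts hr hcov hsum using hb
  have : ∀ i, Countable (t i) := fun i => (htc i).to_subtype
  let F : (Σ i, t i) → Set (E n) := fun p =>
    (L p.1).orthogonalProjectionOnto ⁻¹' Metric.closedBall (p.2 : L p.1) (r p.1 p.2) ∩
      Metric.closedBall 0 R
  have hF : ∀ p, IsBody (F p) := by
    rintro ⟨i, z, hz⟩
    obtain ⟨x, hx, rfl⟩ := hts i hz
    have hg : Continuous (L i).orthogonalProjectionOnto := (L i).orthogonalProjectionOnto.continuous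
    refine ⟨(isCompact_closedBall 0 R).inter_left (Metric.isClosed_closedBall.preimage hg),
      ((convex_closedBall _ _).linear_preimage
        ((L i).orthogonalProjectionOnto : E n →ₗ[ℝ] L i)).inter (convex_closedBall _ _), x, ?_⟩
    rw [mem_interior_iff_mem_nhds]
    exact Filter.inter_mem
      (hg.continuousAt.preimage_mem_nhds (Metric.closedBall_mem_nhds _ (hr i _ hz)))
      (Filter.mem_of_superset (Metric.isOpen_ball.mem_nhds (hR hx.1)) Metric.ball_subset_closedBall)
  have hcover : K ⊆ ⋃ p, F p := by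
    intro x hx
    obtain ⟨i, hi⟩ := h3 x hx
    obtain ⟨z, hz, hxz⟩ := mem_iUnion₂.1 (hcov i ⟨x, ⟨hx, hi⟩, rfl⟩)
    exact mem_iUnion.2 ⟨⟨i, z, hz⟩, hxz, Metric.ball_subset_closedBall (hR hx)⟩
  refine (cst_le_of_cover hK F hF hcover).trans (ENNReal.div_le_div_right ?_ _)
  calc ∑' p, sigma (n - k) (F p)
      ≤ ∑' p : (Σ i, t i), volume (Metric.closedBall (p.2 : L p.1) (r p.1 p.2)) := by
        refine ENNReal.tsum_le_tsum fun p => (sigma_le_sh (U p.1) _).trans (measure_mono ?_)
        rintro _ ⟨y, hy, rfl⟩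
        exact hy.1
    _ = ∑' i, ∑' z : t i, volume (Metric.closedBall (z : L i) (r i z)) := ENNReal.tsum_sigma' _
    _ ≤ ∑' i, (volume (C i) + η i) :=
        ENNReal.tsum_le_tsum (fun i => (hsum i).trans (add_le_add (hZ i) le_rfl))
    _ ≤ c + ε := by
        rw [ENNReal.tsum_add, tsum_fintype]; exact add_le_add h4 hη.le

/-- a set all of whose sections have volume one -/
theorem exists_band (U : Fr k n) : ∃ S : Set (E n), MeasurableSet S ∧ ∀ x, sec U S x = 1 := by
  let D : Set (E k) := WithLp.ofLp ⁻¹' Icc (0 : Fin k → ℝ) 1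
  have mD : MeasurableSet D := (WithLp.measurable_ofLp _ _) measurableSet_Icc
  have vD : volume D = 1 := by
    rw [(PiLp.volume_preserving_ofLp (Fin k)).measure_preimage measurableSet_Icc.nullMeasurableSet,
      Real.volume_Icc_pi]
    simp
  let a := ContinuousLinearMap.adjoint U.toContinuousLinearMap
  have ha : ∀ v, a (U v) = v := fun v => ext_inner_left ℝ fun w => by
    rw [ContinuousLinearMap.adjoint_inner_right]
    exact U.inner_map_map w v
  refine ⟨a ⁻¹' D, a.continuous.measurable mD, fun x => ?_⟩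
  have : {v : E k | x + U v ∈ a ⁻¹' D} = (fun v => a x + v) ⁻¹' D := by
    ext v
    simp [ha]
  rw [sec, this, measure_preimage_add, vD]

theorem flat_cost (U : Fr k n) {P : E n → ℝ≥0∞} (hP : Measurable P) {S : Set (E n)}
    (hS : MeasurableSet S) {s : ℝ≥0∞} (h : ∀ x, sec U S x ≤ s) :
    ∫⁻ x in S, ∫⁻ v, P (x + U v) ≤ s * ∫⁻ x, P x := by
  have m := measurable_flat U hP
  have m' : Measurable fun y : base U => ∫⁻ v, P (y + U v) := m.comp measurable_subtype_coe
  rw [← lintegral_indicator hS, fub U (m.indicator hS), fub U hP, ← lintegral_const_mul _ m']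
  refine lintegral_mono fun y => ?_
  have : ∀ v : E k, S.indicator (fun x => ∫⁻ v, P (x + U v)) (y + U v) =
      S.indicator 1 (y + U v) * ∫⁻ v, P (y + U v) := fun v => by
    by_cases hv : (y : E n) + U v ∈ S <;> simp [hv, flat_shift]
  simp only [this]
  have m2 : Measurable fun v : E k => S.indicator (1 : E n → ℝ≥0∞) (y + U v) :=
    (measurable_one.indicator hS).comp (measurable_const.add U.continuous.measurable)
  rw [lintegral_mul_const _ m2, ← sec_eq U hS]
  exact mul_le_mul_left (h _) _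

theorem covK_self (U : Fr k n) {K : Set (E n)} (hK : IsCompact K) : CovK k K (sh U K) := by
  obtain ⟨S, mS, hS⟩ := exists_band U
  have hg := (base U).orthogonalProjectionOnto.continuous
  let K' := (base U).orthogonalProjectionOnto ⁻¹' ((base U).orthogonalProjectionOnto '' K)
  have mK : MeasurableSet K' := hg.measurable (hK.image hg).measurableSet
  refine ⟨Unit, inferInstance, fun _ => U, fun _ => K' ∩ S, fun _ => mK.inter mS,
    fun x hx => ⟨(), (hS x).ge.trans (measure_mono fun v hv => ⟨?_, hv⟩)⟩, ?_⟩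
  · exact ⟨x, hx, (proj_add U x v).symm⟩
  · rw [Fintype.sum_unique]
    refine (le_sh U (mK.inter mS) inter_subset_left 1 fun x =>
      (measure_mono fun v hv => hv.2).trans (hS x).le).trans ?_
    rw [one_mul]
    exact measure_mono (image_preimage_subset _ _)

theorem sec_mul_sh (U : Fr k n) {K : Set (E n)} (hK : IsBody K) (hn : 1 ≤ n) (x : E n) :
    sec U K x * sh U K ≤ ENNReal.ofReal (2 * (2 * n) ^ k) * volume K := by
  by_cases hx : ∃ v, x + U v ∈ K
  swap
  · have : {v : E k | x + U v ∈ K} = ∅ := eq_empty_of_forall_notMem fun v hv => hx ⟨v, hv⟩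
    rw [sec, this, measure_empty, zero_mul]
    exact zero_le
  obtain ⟨s, hs⟩ := hx
  rw [← sec_shift U K x s]
  generalize x + U s = x at hs
  have n1 : (1 : ℝ) ≤ n := by exact_mod_cast hn
  obtain ⟨θ, hθ⟩ : ∃ θ : ℝ, θ = 1 / (2 * n) := ⟨_, rfl⟩
  have t0 : 0 < θ := by rw [hθ]; positivity
  have t1 : θ * (2 * n) = 1 := by rw [hθ]; field_simp
  have t2 : θ ≤ 1 / 2 := by nlinarith
  have h1 := sh_le U (K := (fun z => θ • x + (1 - θ) • z) '' K) hK.1.measurableSet
    (ENNReal.ofReal (θ ^ k) * sec U K x) (by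
      rintro _ ⟨z, hz, rfl⟩
      have := Measure.addHaar_smul_of_nonneg (volume : Measure (E k)) t0.le {v | x + U v ∈ K}
      rw [finrank_euclideanSpace, Fintype.card_fin] at this
      rw [sec, ← this]
      refine measure_mono ?_
      rintro _ ⟨v, hv, rfl⟩
      have := hK.2.1 hv hz t0.le (show 0 ≤ 1 - θ by linarith) (by ring)
      simp only [mem_ofPred_eq, map_smul]
      convert this using 1
      module)
  have h2 : sh U ((fun z => θ • x + (1 - θ) • z) '' K) =
      ENNReal.ofReal ((1 - θ) ^ (n - k)) * sh U K := by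
    have := Measure.addHaar_smul_of_nonneg (volume : Measure (base U))
      (show 0 ≤ 1 - θ by linarith) ((base U).orthogonalProjectionOnto '' K)
    rw [base_rank] at this
    rw [sh, sh, projVol, projVol, ← this, ← measure_preimage_add volume
      (θ • (base U).orthogonalProjectionOnto x)]
    congr 1
    ext y
    simp only [mem_preimage, mem_image, exists_exists_and_eq_and, map_add, map_smul,
      add_right_inj, mem_smul_set]
  have h3 : 1 / 2 ≤ (1 - θ) ^ (n - k) := by
    have a1 := one_add_mul_le_pow (show -2 ≤ -θ by linarith) (n - k)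
    have a2 : ((n - k : ℕ) : ℝ) ≤ n := by exact_mod_cast Nat.sub_le n k
    rw [← sub_eq_add_neg] at a1
    nlinarith
  rw [h2] at h1
  refine le_trans ?_ (mul_le_mul_right h1 _)
  rw [mul_mul_mul_comm, ← mul_assoc, ← ENNReal.ofReal_mul (by positivity),
    ← ENNReal.ofReal_mul (by positivity)]
  refine le_mul_of_one_le_left' (ENNReal.one_le_ofReal.2 ?_)
  have : (2 * (n : ℝ)) ^ k * θ ^ k = 1 := by rw [← mul_pow, mul_comm, t1, one_pow]
  nlinarith

section frac
variable {K : Set (E n)} {a : ℝ} {ι : Type} [Fintype ι] (U : ι → Fr k n) (P : ι → E n → ℝ≥0∞)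

theorem leftover (hn : 1 ≤ n) (hK : IsBody K) (ha : 0 < a) (hP : ∀ i, Measurable (P i))
    (hcost : ∑ i, ∫⁻ x, P i x ≤ ENNReal.ofReal a * volume K)
    (hfrac : ENNReal.ofReal (1 / 10) * volume K ≤ ∫⁻ x in K, min 1 (∑ i, ∫⁻ v, P i (x + U i v))) :
    CovK k K (ENNReal.ofReal (40 * (2 * n) ^ k * a) * volume K) := by
  have n0 : (0 : ℝ) < n := by exact_mod_cast hn
  by_contra hc
  have h1 : ∀ i x, sec (U i) K x ≤ ENNReal.ofReal (1 / (20 * a)) := fun i x => by
    have b1 : ENNReal.ofReal (40 * (2 * n) ^ k * a) * volume K ≤ sh (U i) K :=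
      (not_le.1 fun h => hc ((covK_self (U i) hK.1).mono h)).le
    have b2 := (mul_le_mul_right b1 _).trans (sec_mul_sh (U i) hK hn x)
    rw [← mul_assoc, ENNReal.mul_le_mul_iff_left (vol_ne_zero hK) hK.1.measure_ne_top,
      ← ENNReal.le_div_iff_mul_le (Or.inl (by simp; positivity)) (Or.inl ENNReal.ofReal_ne_top),
      ← ENNReal.ofReal_div_of_pos (by positivity)] at b2
    refine b2.trans (le_of_eq ?_)
    congr 1
    field_simp
    norm_num
  have h2 : ENNReal.ofReal (1 / 10) * volume K ≤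
      ENNReal.ofReal (1 / (20 * a)) * (ENNReal.ofReal a * volume K) := by
    refine hfrac.trans ((lintegral_mono fun x => min_le_right _ _).trans ?_)
    rw [lintegral_finsetSum _ fun i _ => measurable_flat (U i) (hP i)]
    exact le_trans (Finset.sum_le_sum fun i _ => flat_cost (U i) (hP i) hK.1.measurableSet (h1 i))
      ((Finset.mul_sum _ _ _).symm.trans_le (mul_le_mul_right hcost _))
  rw [← mul_assoc, ENNReal.mul_le_mul_iff_left (vol_ne_zero hK) hK.1.measure_ne_top,
    ← ENNReal.ofReal_mul (by positivity), ENNReal.ofReal_le_ofReal_iff (by positivity),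
    show 1 / (20 * a) * a = 1 / 20 by field_simp] at h2
  norm_num at h2

theorem roundingK (hK : IsBody K) (ha : 0 < a) (hP : ∀ i, Measurable (P i))
    (hcost : ∑ i, ∫⁻ x, P i x ≤ ENNReal.ofReal a * volume K)
    (hfrac : ENNReal.ofReal (1 / 10) * volume K ≤ ∫⁻ x in K, min 1 (∑ i, ∫⁻ v, P i (x + U i v))) :
    ∃ W : Set (E n), MeasurableSet W ∧ volume W ≤ ENNReal.ofReal (97 / 100) * volume K ∧
      CovK k (K \ W) (ENNReal.ofReal (49 * a) * volume K) := by
  classical
  let H : ι → E n → ℝ≥0∞ := fun i x => ∫⁻ v, P i (x + U i v)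
  have hH : ∀ i, Measurable (H i) := fun i => measurable_flat _ (hP i)
  choose S mS hS using fun i => exists_band (U i)
  set lam := ENNReal.ofReal (50 * a) with hlam
  obtain ⟨r, hr⟩ := Pool.Agent.Lib.MP_fedf83_gt.U.round_all' (fun i => volume.restrict (S i)) (volume.restrict K) H hH
    Finset.univ (fun _ => lam) measurable_const
  set W : Set (E n) := {x | ∀ j ∈ Finset.univ, H j x < ENNReal.ofReal (r j)} with hW
  have hWm : MeasurableSet W := by
    have : W = ⋂ j, {x | H j x < ENNReal.ofReal (r j)} := by ext x; simp [hW]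
    rw [this]
    exact MeasurableSet.iInter fun j => measurableSet_lt (hH j) measurable_const
  have hp : Measurable (fun x => ∏ j, (1 - H j x)) :=
    Finset.measurable_prod _ (fun j _ => measurable_const.sub (hH j))
  rw [lintegral_indicator_const hWm, Measure.restrict_apply hWm, lintegral_const_mul _ hp] at hr
  have c1 : ∑ j, ∫⁻ x, H j x ∂volume.restrict (S j) ≤ ENNReal.ofReal a * volume K := by
    refine le_trans (Finset.sum_le_sum fun j _ => ?_) hcost
    simpa using flat_cost (U j) (hP j) (mS j) fun x => (hS j x).le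
  obtain ⟨v, hv, v0⟩ : ∃ v : ℝ, volume K = ENNReal.ofReal v ∧ 0 ≤ v :=
    ⟨_, (ENNReal.ofReal_toReal hK.1.measure_ne_top).symm, ENNReal.toReal_nonneg⟩
  have c2 : ∫⁻ x in K, ∏ j, (1 - H j x) ≤ ENNReal.ofReal (19 / 20 * v) := by
    have b1 : (∫⁻ x in K, ∏ j, (1 - H j x)) + 2⁻¹ * ∫⁻ x in K, min 1 (∑ j, H j x) ≤
        volume K := by
      rw [← lintegral_const_mul' _ _ (by simp), ← lintegral_add_left hp]
      refine le_trans (lintegral_mono fun x => Pool.Agent.Lib.MP_fedf83_gt.U.half_min _ _ (prod_one_sub _ _)) ?_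
      simp
    have b2 : (∫⁻ x in K, ∏ j, (1 - H j x)) + ENNReal.ofReal (1 / 20 * v) ≤
        ENNReal.ofReal (19 / 20 * v) + ENNReal.ofReal (1 / 20 * v) := by
      rw [← ENNReal.ofReal_add (by positivity) (by positivity),
        show 19 / 20 * v + 1 / 20 * v = v by ring, ← hv]
      refine le_trans (add_le_add le_rfl ?_) b1
      refine le_trans ?_ (mul_le_mul_right hfrac _)
      rw [hv, ← ENNReal.ofReal_mul (by norm_num), ← ENNReal.ofReal_ofNat 2,
        ← ENNReal.ofReal_inv_of_pos (by norm_num), ← ENNReal.ofReal_mul (by norm_num)]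
      exact ENNReal.ofReal_le_ofReal (by linarith)
    exact (ENNReal.add_le_add_iff_right ENNReal.ofReal_ne_top).1 b2
  have c3 : ∑ j, (volume.restrict (S j)) {x | ENNReal.ofReal (r j) ≤ H j x} +
      lam * volume (W ∩ K) ≤ ENNReal.ofReal (97 / 2 * a * v) := by
    refine hr.trans ((add_le_add c1 (mul_le_mul_right c2 _)).trans (le_of_eq ?_))
    rw [hv, hlam, ← ENNReal.ofReal_mul ha.le, ← ENNReal.ofReal_mul (by positivity),
      ← ENNReal.ofReal_add (by positivity) (by positivity)]
    congr 1; ring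
  refine ⟨W ∩ K, hWm.inter hK.1.measurableSet, ?_, ι, inferInstance, U,
    fun i => {x | ENNReal.ofReal (r i) ≤ H i x} ∩ S i, fun i =>
      (measurableSet_le measurable_const (hH i)).inter (mS i), ?_, ?_⟩
  · have l0 : lam ≠ 0 := by simpa [hlam] using ha
    rw [← ENNReal.mul_le_mul_iff_right l0 ENNReal.ofReal_ne_top]
    refine (le_add_self.trans c3).trans (le_of_eq ?_)
    rw [hv, hlam, ← ENNReal.ofReal_mul (by norm_num), ← ENNReal.ofReal_mul (by positivity)]
    congr 1; ring
  · rintro x ⟨hx, hx'⟩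
    have : ¬ x ∈ W := fun h => hx' ⟨h, hx⟩
    simp only [hW, mem_ofPred_eq, Finset.mem_univ, true_implies, not_forall, not_lt] at this
    obtain ⟨j, hj⟩ := this
    exact ⟨j, (hS j x).ge.trans (measure_mono fun v hv =>
      ⟨hj.trans (flat_shift (U j) (P j) x v).ge, hv⟩)⟩
  · refine le_trans (le_of_eq (Finset.sum_congr rfl fun j _ => ?_)) ((le_self_add.trans c3).trans ?_)
    · rw [Measure.restrict_apply (measurableSet_le measurable_const (hH j))]
    · rw [hv, ← ENNReal.ofReal_mul (by positivity)]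
      exact ENNReal.ofReal_le_ofReal (by nlinarith [mul_nonneg ha.le v0])

end frac

end Pool.Agent.Lib.MP_fedf83_gt.FL
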