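import Pool.Agent.Lib.MP_fedf83_gt.KProj

/-! A lower bound for the least projection of codimension `k` from the decay of the covariogram. -/

namespace Pool.Agent.Lib.MP_fedf83_gt.KP

open MeasureTheory Set Module Pool.Agent.Lib.MP_fedf83_gt.B
open scoped ENNReal RealInnerProductSpace

theorem int_exp_norm (k : ℕ) : Integrable fun v : E k => Real.exp (-‖v‖) := by
  have h := (integrable_one_add_norm (μ := (volume : Measure (E k))) (r := (k + 1 : ℕ))
    (by simp)).const_mul (((k + 1 : ℕ) : ℝ) ^ (k + 1))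
  refine h.mono' (Continuous.aestronglyMeasurable (by fun_prop)) (ae_of_all _ fun v => ?_)
  have t0 := norm_nonneg v
  have r1 : (1 : ℝ) ≤ (k + 1 : ℕ) := by simp
  have e1 : (1 + ‖v‖) / (k + 1 : ℕ) ≤ Real.exp (‖v‖ / (k + 1 : ℕ)) := by
    refine le_trans ?_ (Real.add_one_le_exp _)
    rw [add_div, add_comm]
    exact add_le_add le_rfl ((div_le_one (by linarith)).2 r1)
  have e2 := pow_le_pow_left₀ (by positivity) e1 (k + 1)
  rw [← Real.exp_nat_mul, mul_div_cancel₀ _ (by linarith), div_pow, div_le_iff₀ (by positivity)]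
    at e2
  rw [Real.norm_eq_abs, abs_of_pos (Real.exp_pos _), Real.rpow_neg (by positivity),
    Real.rpow_natCast, ← div_eq_mul_inv, le_div_iff₀ (by positivity), Real.exp_neg,
    inv_mul_le_iff₀ (Real.exp_pos _)]
  exact e2

theorem lint_exp_norm {W : Type} [NormedAddCommGroup W] [InnerProductSpace ℝ W]
    [FiniteDimensional ℝ W] [MeasurableSpace W] [BorelSpace W] {k : ℕ} (hW : finrank ℝ W = k)
    {c : ℝ} (hc : 0 < c) : ∫⁻ d : W, ENNReal.ofReal (Real.exp (-(c * ‖d‖))) =
      ENNReal.ofReal ((∫ v : E k, Real.exp (-‖v‖)) / c ^ k) := by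
  let e : W ≃ₗᵢ[ℝ] E k := ((stdOrthonormalBasis ℝ W).reindex (finCongr hW)).repr
  have h1 := e.measurePreserving.lintegral_comp
    (f := fun v => ENNReal.ofReal (Real.exp (-‖c • v‖))) (by fun_prop)
  have h2 := Measure.integral_comp_smul (volume : Measure (E k)) (fun v => Real.exp (-‖v‖)) c
  rw [← ofReal_integral_eq_lintegral_ofReal ((int_exp_norm k).comp_smul hc.ne')
    (ae_of_all _ fun _ => (Real.exp_pos _).le), h2] at h1
  simp only [norm_smul, LinearIsometryEquiv.norm_map, Real.norm_eq_abs, abs_of_pos hc] at h1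
  rw [h1, finrank_euclideanSpace_fin, abs_of_pos (by positivity), smul_eq_mul, div_eq_inv_mul]

/-- Exponential decay of the covariogram forces large projections of codimension `k`. -/
theorem sigma_ge_flat (k : ℕ) : ∃ C : ℝ, 0 < C ∧ ∀ n : ℕ, k ≤ n → ∀ K : Set (E n), IsBody K →
    ∀ A γ : ℝ, 1 ≤ A → 0 < γ → (∀ d, volume {z | z ∈ K ∧ z - d ∈ K} ≤
      ENNReal.ofReal (A * Real.exp (-(γ * ‖d‖))) * volume K) →
    volume K ≤ ENNReal.ofReal (C * ((1 + Real.log A) / γ) ^ k) * sigma (n - k) K := by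
  have J0 : 0 < ∫ v : E k, Real.exp (-‖v‖) := integral_exp_pos (int_exp_norm k)
  refine ⟨Real.exp 1 * ∫ v : E k, Real.exp (-‖v‖), by positivity,
    fun n hk K hK A γ A1 γ0 hd => ?_⟩
  have M0 := vol_ne_zero hK
  have M1 := hK.1.measure_ne_top (μ := volume)
  have l0 := Real.log_nonneg A1
  set l := 1 + Real.log A with hl
  have l1 : 0 < l := by linarith
  have key : ∀ d : E n, volume {z | z ∈ K ∧ z - d ∈ K} ≤
      ENNReal.ofReal (Real.exp 1) * volume K * ENNReal.ofReal (Real.exp (-(γ / l * ‖d‖))) := by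
    intro d
    rw [mul_right_comm, ← ENNReal.ofReal_mul (Real.exp_pos _).le, ← Real.exp_add]
    by_cases h : γ / l * ‖d‖ ≤ 1
    · refine (measure_mono fun z hz => hz.1).trans (le_mul_of_one_le_left' ?_)
      exact ENNReal.one_le_ofReal.2 (Real.one_le_exp (by linarith))
    · refine (hd d).trans (mul_le_mul_left (ENNReal.ofReal_le_ofReal ?_) _)
      rw [← Real.exp_log (show 0 < A by linarith), ← Real.exp_add, Real.exp_le_exp]
      have e : γ * ‖d‖ = l * (γ / l * ‖d‖) := by field_simp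
      rw [e]
      nlinarith
  have h := le_sigma_mul hK.1 hk (D := ENNReal.ofReal (Real.exp 1) * volume K *
    ENNReal.ofReal ((∫ v : E k, Real.exp (-‖v‖)) / (γ / l) ^ k))
    (mul_ne_zero (mul_ne_zero (by simpa using Real.exp_pos 1) M0)
      (by rw [Ne, ENNReal.ofReal_eq_zero, not_le]; positivity))
    (ENNReal.mul_ne_top (ENNReal.mul_ne_top ENNReal.ofReal_ne_top M1) ENNReal.ofReal_ne_top)
    fun L hL => by
      rw [← lint_exp_norm (W := Lᗮ) hL (by positivity), ← lintegral_const_mul _ (by fun_prop)]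
      exact lintegral_mono fun d => key d
  refine (ENNReal.mul_le_mul_iff_left M0 M1).1 (le_of_eq_of_le (sq _).symm (h.trans (le_of_eq ?_)))
  rw [mul_assoc (Real.exp 1), ENNReal.ofReal_mul (Real.exp_pos _).le, div_eq_mul_inv _ (_ ^ k),
    ← inv_pow, inv_div]
  ring

end Pool.Agent.Lib.MP_fedf83_gt.KP
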