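import Pool.Agent.Lib.MP_fedf83_gt.KBoost1
import Pool.Agent.Lib.MP_fedf83_gt.KSig

/-! From a fractional cover by flats to an upper bound for the constant. -/

namespace Pool.Agent.Lib.MP_fedf83_gt.FL

open MeasureTheory Set Module Pool.Agent.Lib.MP_fedf83_gt.B Pool.Agent.Lib.MP_fedf83_gt.U
open scoped ENNReal RealInnerProductSpace Pointwise

variable {n k : ℕ}

section prod
variable {a b : ℕ} {φ : E (a + b) ≃L[ℝ] E a × E b}

theorem exists_inl (hn : ∀ z, ‖z‖ ^ 2 = ‖(φ z).1‖ ^ 2 + ‖(φ z).2‖ ^ 2) (V : Fr k a) :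
    ∃ W : Fr k (a + b), ∀ v, φ (W v) = (V v, 0) :=
  ⟨⟨φ.symm.toLinearEquiv.toLinearMap ∘ₗ LinearMap.inl ℝ _ _ ∘ₗ V.toLinearMap, fun v =>
    (pow_left_inj₀ (norm_nonneg _) (norm_nonneg _) two_ne_zero).1 (by rw [hn]; simp)⟩,
    fun v => by simp⟩

theorem exists_inr (hn : ∀ z, ‖z‖ ^ 2 = ‖(φ z).1‖ ^ 2 + ‖(φ z).2‖ ^ 2) (V : Fr k b) :
    ∃ W : Fr k (a + b), ∀ v, φ (W v) = (0, V v) :=
  ⟨⟨φ.symm.toLinearEquiv.toLinearMap ∘ₗ LinearMap.inr ℝ _ _ ∘ₗ V.toLinearMap, fun v =>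
    (pow_left_inj₀ (norm_nonneg _) (norm_nonneg _) two_ne_zero).1 (by rw [hn]; simp)⟩,
    fun v => by simp⟩

theorem covK_pre (h : MeasurePreserving φ)
    (hn : ∀ z, ‖z‖ ^ 2 = ‖(φ z).1‖ ^ 2 + ‖(φ z).2‖ ^ 2) {A : Set (E a)} {B W : Set (E b)}
    (hA : MeasurableSet A) (hW : MeasurableSet W) {c1 c2 : ℝ≥0∞} (h1 : CovK k A c1)
    (h2 : CovK k (B \ W) c2) : CovK k (φ ⁻¹' (A ×ˢ B)) (c1 * volume W + volume A * c2) := by
  obtain ⟨I1, hI1, v1, C1, m1, k1, t1⟩ := h1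
  obtain ⟨I2, hI2, v2, C2, m2, k2, t2⟩ := h2
  choose w1 e1 using fun i => exists_inl hn (v1 i)
  choose w2 e2 using fun i => exists_inr hn (v2 i)
  refine ⟨I1 ⊕ I2, inferInstance, Sum.elim w1 w2,
    Sum.elim (fun i => φ ⁻¹' (C1 i ×ˢ W)) (fun i => φ ⁻¹' (A ×ˢ C2 i)), ?_, ?_, ?_⟩
  · rintro (i | i)
    exacts [φ.continuous.measurable ((m1 i).prod hW), φ.continuous.measurable (hA.prod (m2 i))]
  · rintro x ⟨hx1, hx2⟩
    by_cases hu : (φ x).2 ∈ W
    · obtain ⟨i, hi⟩ := k1 _ hx1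
      refine ⟨Sum.inl i, hi.trans (measure_mono fun v hv => ?_)⟩
      simpa [e1, hu] using hv
    · obtain ⟨i, hi⟩ := k2 _ ⟨hx2, hu⟩
      refine ⟨Sum.inr i, hi.trans (measure_mono fun v hv => ?_)⟩
      simpa [e2, hx1] using hv
  · rw [Fintype.sum_sum_type]
    simp only [Sum.elim_inl, Sum.elim_inr]
    refine add_le_add ?_ ?_
    · rw [Finset.sum_congr rfl fun i _ => vol_pre h (m1 i) hW, ← Finset.sum_mul]
      gcongr
    · rw [Finset.sum_congr rfl fun i _ => vol_pre h hA (m2 i), ← Finset.mul_sum]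
      gcongr

end prod

theorem towerK {N : ℕ} {K W : Set (E N)} (hK : IsBody K) {γ α β ρ : ℝ} (hγ : 0 ≤ γ) (hα : 0 ≤ α)
    (hβ : 0 ≤ β) (hρ : 0 ≤ ρ)
    (hd : ∀ d, volume {z | z ∈ K ∧ z - d ∈ K} ≤
      ENNReal.ofReal (2 * Real.exp (-(γ * ‖d‖))) * volume K)
    (hW : MeasurableSet W) (hv : volume W ≤ ENNReal.ofReal ρ * volume K)
    (h1 : CovK k (K \ W) (ENNReal.ofReal (α * (1 - ρ)) * volume K)) (hρ1 : ρ ≤ 1)
    (h0 : CovK k K (ENNReal.ofReal β * volume K)) (r : ℕ) :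
    ∃ m : ℕ, m = N * (r + 1) ∧ ∃ Q : Set (E m), IsBody Q ∧
      (∀ d, volume {z | z ∈ Q ∧ z - d ∈ Q} ≤
        ENNReal.ofReal (2 ^ (r + 1) * Real.exp (-(γ * ‖d‖))) * volume Q) ∧
      CovK k Q (ENNReal.ofReal (α + ρ ^ r * β) * volume Q) := by
  induction r with
  | zero =>
    refine ⟨N, by simp, K, hK, by simpa using hd, h0.mono ?_⟩
    gcongr
    simpa using hα
  | succ r ih =>
    obtain ⟨m, hm, Q, hQ, d1, c1⟩ := ih
    obtain ⟨φ, hφ, hn⟩ := exists_split m N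
    refine ⟨m + N, by rw [hm]; ring, φ ⁻¹' (Q ×ˢ K), body_pre φ hQ hK, fun d => ?_, ?_⟩
    · rw [pow_succ]
      exact decay_pre hφ hn hQ.1.measurableSet hK.1.measurableSet (by positivity) (by norm_num)
        hγ d1 hd d
    · refine (covK_pre hφ hn hQ.1.measurableSet hW c1 h1).mono ?_
      rw [vol_pre hφ hQ.1.measurableSet hK.1.measurableSet]
      have a1 : 0 ≤ α * (1 - ρ) := mul_nonneg hα (by linarith)
      calc _ ≤ ENNReal.ofReal (α + ρ ^ r * β) * volume Q * (ENNReal.ofReal ρ * volume K) +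
            volume Q * (ENNReal.ofReal (α * (1 - ρ)) * volume K) := by gcongr
        _ = (ENNReal.ofReal (α + ρ ^ r * β) * ENNReal.ofReal ρ + ENNReal.ofReal (α * (1 - ρ))) *
            (volume Q * volume K) := by ring
        _ = _ := by
          rw [← ENNReal.ofReal_mul (by positivity), ← ENNReal.ofReal_add (by positivity) a1]
          congr 2; ring

/-- a small ball as last factor reaches every dimension -/
theorem padK {m : ℕ} {Q : Set (E m)} (hQ : IsBody Q) {γ p : ℝ} (hγ : 0 < γ) (hp : 0 ≤ p)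
    (hd : ∀ d, volume {z | z ∈ Q ∧ z - d ∈ Q} ≤
      ENNReal.ofReal (p * Real.exp (-(γ * ‖d‖))) * volume Q) {c : ℝ≥0∞}
    (hc : CovK k Q (c * volume Q)) (hn : m ≤ n) :
    ∃ R : Set (E n), IsBody R ∧ (∀ d, volume {z | z ∈ R ∧ z - d ∈ R} ≤
      ENNReal.ofReal (p * 3 * Real.exp (-(γ * ‖d‖))) * volume R) ∧ CovK k R (c * volume R) := by
  obtain ⟨b, rfl⟩ := Nat.exists_eq_add_of_le hn
  obtain ⟨φ, hφ, hn⟩ := exists_split m b
  have r0 : 0 < 1 / (2 * γ) := by positivity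
  have hB : IsBody (Metric.closedBall (0 : E b) (1 / (2 * γ))) :=
    ⟨isCompact_closedBall _ _, convex_closedBall _ _, 0,
      mem_interior_iff_mem_nhds.2 (Metric.closedBall_mem_nhds _ r0)⟩
  refine ⟨_, body_pre φ hQ hB, decay_pre hφ hn hQ.1.measurableSet hB.1.measurableSet hp
    (by norm_num) hγ.le hd fun d => ?_, ?_⟩
  · by_cases h : γ * ‖d‖ ≤ 1
    · refine (measure_mono fun z hz => hz.1).trans
        (le_mul_of_one_le_left' (ENNReal.one_le_ofReal.2 ?_))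
      rw [Real.exp_neg, ← div_eq_mul_inv, le_div_iff₀ (Real.exp_pos _), one_mul]
      linarith [Real.exp_le_exp.2 h, Real.exp_one_lt_d9]
    · refine le_trans (le_of_eq ?_) zero_le
      rw [eq_empty_of_forall_notMem (s := {z | _ ∧ _}) fun z hz => h ?_, measure_empty]
      have a1 := mem_closedBall_zero_iff.1 hz.1
      have a2 := mem_closedBall_zero_iff.1 hz.2
      have a3 := norm_sub_le z (z - d)
      rw [sub_sub_cancel] at a3
      rw [le_div_iff₀ (by positivity)] at a1 a2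
      nlinarith
  · refine (covK_pre hφ hn hQ.1.measurableSet hB.1.measurableSet hc
      (by rw [diff_self]; exact covK_empty k b)).mono (le_of_eq ?_)
    rw [vol_pre hφ hQ.1.measurableSet hB.1.measurableSet, mul_zero, add_zero, mul_assoc]

theorem exists_frames {ρ : ℝ} (hρ : 0 < ρ) (w : E k →L[ℝ] E n) (hw : ∀ v, ρ * ‖v‖ ≤ ‖w v‖) :
    ∃ (V : Fr k n) (J : ℝ≥0∞), J * ENNReal.ofReal (ρ ^ k) ≤ 1 ∧ ∀ f : E n → ℝ≥0∞, Measurable f →
      ∀ x, ∫⁻ v, f (x + w v) = ∫⁻ v, J * f (x + V v) := by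
  obtain ⟨V, J, h1, -, h3⟩ := exists_jac (w : E k →ₗ[ℝ] E n) ((injective_iff_map_eq_zero _).2
    fun v hv => by
      have := hw v
      rw [show w v = 0 from hv, norm_zero] at this
      exact norm_le_zero_iff.1 (by nlinarith [norm_nonneg v]))
  refine ⟨V, J, ?_, fun f hf x => ?_⟩
  · have b0 : volume (Metric.closedBall (0 : E k) 1) ≠ 0 :=
      (Metric.measure_closedBall_pos _ _ one_pos).ne'
    rw [← ENNReal.mul_le_mul_iff_left b0 measure_closedBall_lt_top.ne, one_mul, mul_right_comm, h3,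
      mul_comm]
    have := Measure.addHaar_smul_of_nonneg (volume : Measure (E k)) hρ.le {v | ‖w v‖ ≤ 1}
    rw [finrank_euclideanSpace, Fintype.card_fin] at this
    refine this.ge.trans (measure_mono ?_)
    rintro _ ⟨v, hv, rfl⟩
    rw [mem_closedBall_zero_iff, norm_smul, Real.norm_of_nonneg hρ.le]
    exact (hw v).trans hv
  · have m : Measurable fun v : E k => f (x + V v) :=
      hf.comp (measurable_const.add V.continuous.measurable)
    rw [lintegral_const_mul _ m]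
    exact h1 f hf x

/-- From a fractional cover of a tenth of one body to an upper bound for the constant. -/
theorem boostK (hk : 1 ≤ k) : ∃ C : ℝ, 0 < C ∧ ∀ N : ℕ, k ≤ N → ∀ K : Set (E N), IsBody K →
    ∀ γ a ρ : ℝ, 0 < γ → 0 < a → 0 < ρ →
    (∀ d, volume {z | z ∈ K ∧ z - d ∈ K} ≤
      ENNReal.ofReal (2 * Real.exp (-(γ * ‖d‖))) * volume K) →
    ∀ (ι : Type) [Fintype ι] (w : ι → (E k →L[ℝ] E N)) (P : ι → E N → ℝ≥0∞),
    (∀ i v, ρ * ‖v‖ ≤ ‖w i v‖) → (∀ i, Measurable (P i)) →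
    ∑ i, ∫⁻ x, P i x ≤ ENNReal.ofReal (a * ρ ^ k) * volume K →
    ENNReal.ofReal (1 / 10) * volume K ≤ ∫⁻ x in K, min 1 (∑ i, ∫⁻ v : E k, P i (x + w i v)) →
    ∀ n : ℕ, C * N * (1 + Real.log N) ≤ n →
    cst n (n - k) ≤ ENNReal.ofReal (C * a * ((1 + Real.log N) / γ) ^ k) := by
  obtain ⟨c, c0, hc⟩ := KP.sigma_ge_flat k
  have k1 : (1 : ℝ) ≤ k := by exact_mod_cast hk
  refine ⟨36 * k + 3400 * c * (40 * k) ^ k, by positivity,
    fun N hN K hK γ a ρ hγ ha hρ hd ι _ w P hw hP hcost hfrac n hn => ?_⟩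
  choose V J hJ hV using fun i => exists_frames hρ (w i) (hw i)
  have mP : ∀ i, Measurable fun x => J i * P i x := fun i => (hP i).const_mul _
  simp only [fun i => hV i _ (hP i)] at hfrac
  have cost : ∑ i, ∫⁻ x, J i * P i x ≤ ENNReal.ofReal a * volume K := by
    rw [← ENNReal.mul_le_mul_iff_right (a := ENNReal.ofReal (ρ ^ k)) (by simp; positivity)
      ENNReal.ofReal_ne_top, ← mul_assoc, ← ENNReal.ofReal_mul (by positivity), mul_comm _ a,
      Finset.mul_sum]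
    refine le_trans (Finset.sum_le_sum fun i _ => ?_) hcost
    rw [lintegral_const_mul _ (hP i), ← mul_assoc, mul_comm _ (J i)]
    exact mul_le_of_le_one_left' (hJ i)
  obtain ⟨W, hW, hv, h1⟩ := roundingK V _ hK ha mP cost hfrac
  have h0 := leftover V _ (hk.trans hN) hK ha mP cost hfrac
  have N1 : (1 : ℝ) ≤ N := by exact_mod_cast hk.trans hN
  have l0 : 0 ≤ Real.log N := Real.log_nonneg N1
  obtain ⟨L, hL⟩ : ∃ L, L = 1 + Real.log N := ⟨_, rfl⟩
  rw [← hL] at hn ⊢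
  have L1 : 1 ≤ L := by linarith
  have kL : 1 ≤ k * L := by nlinarith
  set r := ⌈34 * (k * L)⌉₊ with hr
  have r1 : 34 * (k * L) ≤ r := Nat.le_ceil _
  have r2 : (r : ℝ) < 34 * (k * L) + 1 := Nat.ceil_lt_add_one (by positivity)
  obtain ⟨m, hm, Q, hQ, d1, c1⟩ := towerK (α := 4900 / 3 * a) (ρ := 97 / 100) hK hγ.le
    (by positivity) (by positivity) (by norm_num) hd hW hv
    (by rw [show 4900 / 3 * a * (1 - 97 / 100) = 49 * a by ring]; exact h1) (by norm_num) h0 r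
  have mn : m ≤ n := by
    have : (m : ℝ) ≤ n := by
      rw [hm]; push_cast
      refine le_trans ?_ hn
      have : 0 ≤ 3400 * c * (40 * k) ^ k * N * L := by positivity
      nlinarith
    exact_mod_cast this
  have kn : k ≤ n := hN.trans ((hm ▸ Nat.le_mul_of_pos_right N (Nat.succ_pos r)).trans mn)
  have p1 : (97 / 100 : ℝ) ^ r * (2 * N) ^ k ≤ 1 := by
    have e1 : (97 / 100 : ℝ) ≤ Real.exp (-(3 / 100)) := by
      linarith [Real.add_one_le_exp (-(3 / 100) : ℝ)]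
    have e2 : (97 / 100 : ℝ) ^ r ≤ Real.exp (-(k * L)) := by
      refine (pow_le_pow_left₀ (by norm_num) e1 r).trans ?_
      rw [← Real.exp_nat_mul]
      exact Real.exp_le_exp.2 (by linarith)
    have e3 : (2 * N : ℝ) ^ k ≤ Real.exp (k * L) := by
      rw [Real.exp_nat_mul, hL, Real.exp_add, Real.exp_log (by linarith)]
      gcongr
      linarith [Real.add_one_le_exp (1 : ℝ)]
    refine (mul_le_mul e2 e3 (by positivity) (by positivity)).trans ?_
    rw [← Real.exp_add, neg_add_cancel, Real.exp_zero]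
  obtain ⟨R, hR, d2, c2⟩ := padK hQ hγ (by positivity) d1 (c := ENNReal.ofReal (1700 * a))
    (c1.mono (by gcongr; nlinarith)) mn
  have s1 := hc n kn R hR _ γ (one_le_mul_of_one_le_of_one_le (one_le_pow₀ one_le_two)
    (by norm_num)) hγ d2
  have z1 : ENNReal.ofReal (1700 * a) * volume R ≠ 0 :=
    mul_ne_zero (by simpa using ha) (vol_ne_zero hR)
  refine (cst_le_of_covK hR z1 c2).trans (ENNReal.div_le_of_le_mul ?_)
  have lg : 1 + Real.log (2 ^ (r + 1) * 3) ≤ 40 * k * L := by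
    rw [Real.log_mul (by positivity) (by norm_num), Real.log_pow]
    have a1 := Real.log_le_sub_one_of_pos (show (0 : ℝ) < 2 by norm_num)
    have a2 := Real.log_le_sub_one_of_pos (show (0 : ℝ) < 3 by norm_num)
    push_cast
    nlinarith
  have lg0 : 0 ≤ Real.log (2 ^ (r + 1) * 3) :=
    Real.log_nonneg (one_le_mul_of_one_le_of_one_le (one_le_pow₀ one_le_two) (by norm_num))
  calc _ = ENNReal.ofReal (3400 * a) * volume R := by
        rw [← add_mul, ← ENNReal.ofReal_add (by positivity) (by positivity)]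
        congr 2; ring
    _ ≤ _ := mul_le_mul_right s1 _
    _ ≤ _ := by
        rw [← mul_assoc, ← ENNReal.ofReal_mul (by positivity)]
        refine mul_le_mul_left (ENNReal.ofReal_le_ofReal ?_) _
        have a1 : ((1 + Real.log (2 ^ (r + 1) * 3)) / γ) ^ k ≤ (40 * k) ^ k * (L / γ) ^ k := by
          rw [← mul_pow, ← mul_div_assoc]
          gcongr
        have a2 : 0 ≤ 36 * k * a * (L / γ) ^ k := by positivity
        have a3 := mul_le_mul_of_nonneg_left a1 (show 0 ≤ 3400 * a * c by positivity)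
        nlinarith

end Pool.Agent.Lib.MP_fedf83_gt.FL
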