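import Pool.Agent.Lib.MP_fedf83_gt.UUpper

/-! The upper bound in codimension `k` from deconvolution, frames and the product boost. -/

namespace Pool.Agent.Lib.MP_fedf83_gt.U

open MeasureTheory Set Filter Topology Pool.Agent.Lib.MP_fedf83_gt.B
open scoped ENNReal RealInnerProductSpace

/-- Gaussian deconvolution of a partition of the slab body. -/
def Deconv : Prop := ∃ c : ℝ, 0 < c ∧ ∀ h : ℕ, 1 ≤ h →
  ∀ (a : Fin (9 * h) → E (8 * h)) (t : Fin (9 * h) → ℝ), Near a t →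
    (∀ d : E (8 * h), ∑ c, ⟪a c, d⟫ ^ 2 ≤ 221 * ‖d‖ ^ 2) →
    ∃ (ι : Type) (_ : Fintype ι) (A : ι → (E (2 * h) →L[ℝ] E (8 * h)))
      (G : ι → E (8 * h) → ℝ≥0∞),
      (∀ i z, c / √(1 + Real.log h) * ‖z‖ ≤ ‖A i z‖) ∧ (∀ i, Measurable (G i)) ∧
      (∀ i x, G i x ≤ 1) ∧ ∑ i, ∫⁻ x, G i x ≤ 2 * volume (Kt a t) ∧
      ENNReal.ofReal (1 / 3) * volume (Kt a t) ≤
        ∫⁻ x in Kt a t, min 1 (∑ i, ∫⁻ η, G i (x + A i η) ∂ProbabilityTheory.stdGaussian (E (2 * h)))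

/-- From Gaussian averages to finitely many weighted `k`-flats. -/
def Frame (k : ℕ) : Prop := ∃ C : ℝ, 0 < C ∧ ∃ m0 : ℕ, ∀ m : ℕ, m0 ≤ m →
  ∀ (N : ℕ) (ι : Type) [Fintype ι] (A : ι → (E m →L[ℝ] E N)) (ρ : ℝ), 0 < ρ →
    (∀ i z, ρ * ‖z‖ ≤ ‖A i z‖) → ∀ G : ι → E N → ℝ≥0∞, (∀ i, Measurable (G i)) →
    (∀ i x, G i x ≤ 1) → ∀ K : Set (E N), MeasurableSet K → volume K ≠ ⊤ →
    ∃ (κ : Type) (_ : Fintype κ) (w : κ → (E k →L[ℝ] E N)) (Q : κ → E N → ℝ≥0∞),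
      (∀ i, Measurable (Q i)) ∧ (∀ i v, ρ * √((m : ℝ) / 2) * ‖v‖ ≤ ‖w i v‖) ∧
      ∑ i, ∫⁻ x, Q i x ≤ ENNReal.ofReal (C * √(m : ℝ)) * ∑ i, ∫⁻ x, G i x ∧
      ∫⁻ x in K, min 1 (∑ i, ∫⁻ η, G i (x + A i η) ∂ProbabilityTheory.stdGaussian (E m)) ≤
        (∫⁻ x in K, min 1 (∑ i, ∫⁻ v : E k, Q i (x + w i v))) +
          ENNReal.ofReal (1 / 20) * (volume K + ∑ i, ∫⁻ x, G i x)

/-- The product boost for fractional covers by `k`-flats. -/
def BoostK (k : ℕ) : Prop := ∃ C : ℝ, 0 < C ∧ ∀ N : ℕ, k ≤ N → ∀ K : Set (E N), IsBody K →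
  ∀ γ a ρ : ℝ, 0 < γ → 0 < a → 0 < ρ →
    (∀ d : E N, volume {z | z ∈ K ∧ z - d ∈ K} ≤
      ENNReal.ofReal (2 * Real.exp (-(γ * ‖d‖))) * volume K) →
    ∀ (ι : Type) [Fintype ι] (w : ι → (E k →L[ℝ] E N)), (∀ i v, ρ * ‖v‖ ≤ ‖w i v‖) →
    ∀ Q : ι → E N → ℝ≥0∞, (∀ i, Measurable (Q i)) →
    ∑ i, ∫⁻ x, Q i x ≤ ENNReal.ofReal (a * ρ ^ k) * volume K →
    ENNReal.ofReal (1 / 10) * volume K ≤ ∫⁻ x in K, min 1 (∑ i, ∫⁻ v : E k, Q i (x + w i v)) →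
    ∀ n : ℕ, C * N * (1 + Real.log N) ≤ n →
      cst n (n - k) ≤ ENNReal.ofReal (C * a * ((1 + Real.log N) / γ) ^ k)

theorem frac_left {V X S : ℝ≥0∞} (hV : V ≠ ⊤) (hS : S ≤ 2 * V)
    (h : ENNReal.ofReal (1 / 3) * V ≤ X + ENNReal.ofReal (1 / 20) * (V + S)) :
    ENNReal.ofReal (1 / 10) * V ≤ X := by
  have h1 : ENNReal.ofReal (1 / 20) * (V + S) ≤ ENNReal.ofReal (3 / 20) * V := by
    calc _ ≤ ENNReal.ofReal (1 / 20) * (V + 2 * V) := by gcongr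
      _ = ENNReal.ofReal (1 / 20) * ENNReal.ofReal 3 * V := by
        rw [mul_assoc, ENNReal.ofReal_ofNat]; congr 1; ring
      _ = _ := by rw [← ENNReal.ofReal_mul (by norm_num)]; norm_num
  have h2 : ENNReal.ofReal (1 / 10) * V + ENNReal.ofReal (3 / 20) * V ≤
      ENNReal.ofReal (1 / 3) * V := by
    rw [← add_mul, ← ENNReal.ofReal_add (by norm_num) (by norm_num)]
    gcongr
    norm_num
  exact (ENNReal.add_le_add_iff_right (ENNReal.mul_ne_top ENNReal.ofReal_ne_top hV)).1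
    (h2.trans (h.trans (by gcongr)))

theorem upperK {k : ℕ} (hD : Deconv) (hF : Frame k) (hB : BoostK k) :
    ∃ C : ℝ, 0 < C ∧ ∀ᶠ n : ℕ in atTop, cst n (n - k) ≤
      ENNReal.ofReal (C * (1 + Real.log n) ^ (3 * k) * √(n : ℝ) / (n : ℝ) ^ k) := by
  obtain ⟨c, c0, hD⟩ := hD
  obtain ⟨C, C0, m0, hF⟩ := hF
  obtain ⟨D, D0, hB⟩ := hB
  obtain ⟨δ, δ0, -, hδ⟩ := UK.kashin
  obtain ⟨H, hH⟩ : ∃ H : ℕ, H = m0 + k + 1 := ⟨_, rfl⟩
  have H0 : (0 : ℝ) ≤ H := Nat.cast_nonneg _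
  refine ⟨D * (4 * C) * (16 * (D + 1) / (c * δ)) ^ k, by positivity, ?_⟩
  filter_upwards [tendsto_natCast_atTop_atTop.eventually
    (Real.isLittleO_log_id_atTop.bound (c := 1 / (16 * (D + 1) * (H + 1))) (by positivity)),
    tendsto_natCast_atTop_atTop.eventually (eventually_ge_atTop (16 * (D + 1) * (H + 1) : ℝ))]
    with n h1 n1
  have n2 : (1 : ℝ) ≤ n := le_trans (by nlinarith [mul_nonneg D0.le H0]) n1
  have l0 : 0 ≤ Real.log n := Real.log_nonneg n2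
  rw [Real.norm_of_nonneg l0, id, Real.norm_of_nonneg (by linarith), one_div, ← div_eq_inv_mul,
    le_div_iff₀ (by positivity)] at h1
  obtain ⟨L, hL⟩ : ∃ L, L = 1 + Real.log n := ⟨_, rfl⟩
  have L1 : 1 ≤ L := by linarith
  have x1 : (H : ℝ) + 1 ≤ n / (8 * (D + 1) * L) := by
    rw [le_div_iff₀ (by positivity), hL]; nlinarith
  obtain ⟨h, hh⟩ : ∃ h, h = ⌊n / (8 * (D + 1) * L)⌋₊ := ⟨_, rfl⟩
  have k1 : (h : ℝ) ≤ n / (8 * (D + 1) * L) := hh ▸ Nat.floor_le (by positivity)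
  have k2 : n / (8 * (D + 1) * L) < h + 1 := hh ▸ Nat.lt_floor_add_one _
  have k3 : (H : ℝ) ≤ h := by linarith
  have k4 : H ≤ h := by exact_mod_cast k3
  have h1' : 1 ≤ h := by omega
  have hp : (1 : ℝ) ≤ h := by exact_mod_cast h1'
  rw [le_div_iff₀ (by positivity)] at k1
  rw [div_lt_iff₀ (by positivity)] at k2
  have DL : 1 ≤ (D + 1) * L := by nlinarith
  have k8 : 8 * (h : ℝ) ≤ n := by nlinarith
  have k5 : Real.log (8 * h : ℕ) ≤ Real.log n :=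
    Real.log_le_log (by positivity) (by push_cast; linarith)
  have k5' : 0 ≤ Real.log (8 * h : ℕ) := Real.log_nonneg (by push_cast; linarith)
  have k6 : Real.log h ≤ Real.log n := Real.log_le_log (by positivity) (by linarith)
  have k7 : 0 ≤ Real.log h := Real.log_nonneg hp
  obtain ⟨a, a1, a2⟩ := hδ h h1'
  obtain ⟨t, ht⟩ := exists_near (by positivity) a1 (by omega) (by omega)
  obtain ⟨ι, _, A, G, A1, G1, G2, G3, G4⟩ := hD h h1' a t ht a2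
  have hV : volume (Kt a t) ≠ ⊤ := ht.body.1.measure_lt_top.ne
  have sL : √(1 + Real.log h) ≤ L := Real.sqrt_le_iff.2 ⟨by linarith, by nlinarith⟩
  have s0 : 0 < √(1 + Real.log h) := Real.sqrt_pos.2 (by linarith)
  obtain ⟨κ, _, w, Q, Q1, w1, Q2, Q3⟩ := hF (2 * h) (by omega) (8 * h) ι A (c / L)
    (by positivity) (fun i z => le_trans (by gcongr) (A1 i z)) G G1 G2 (Kt a t)
    (Kt_closed a t).measurableSet hV
  obtain ⟨r, hr⟩ : ∃ r : ℝ, r = √(h : ℝ) := ⟨_, rfl⟩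
  have r0 : 0 < r := hr ▸ Real.sqrt_pos.2 (by linarith)
  have r2 : r ^ 2 = h := hr ▸ Real.sq_sqrt (by linarith)
  have e1 : √(((2 * h : ℕ) : ℝ) / 2) = r := by rw [hr]; congr 1; push_cast; ring
  have e2 : √((2 * h : ℕ) : ℝ) ≤ 2 * r :=
    Real.sqrt_le_iff.2 ⟨by positivity, by push_cast; nlinarith⟩
  have e3 : 9 / 4 * r ≤ √(8 * h) := Real.le_sqrt_of_sq_le (by nlinarith)
  rw [e1] at w1
  refine (hB (8 * h) (by omega) _ ht.body (δ * r) (4 * C * r / (c / L * r) ^ k) (c / L * r)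
    (by positivity) (by positivity) (by positivity) (fun d => (ht.cov d).trans ?_) κ w w1 Q Q1 ?_
    (frac_left hV G3 (G4.trans Q3)) n ?_).trans (ENNReal.ofReal_le_ofReal ?_)
  · have e : ((8 * h : ℕ) : ℝ) / (2 * (9 * h : ℕ)) = 4 / 9 := by
      push_cast; field_simp; norm_num
    rw [e]
    gcongr ENNReal.ofReal (?_ * Real.exp ?_) * _
    · norm_num
    · have := mul_le_mul_of_nonneg_right (mul_le_mul_of_nonneg_left e3 δ0.le) (norm_nonneg d)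
      linarith [a1 d]
  · rw [div_mul_cancel₀ _ (by positivity)]
    calc _ ≤ ENNReal.ofReal (C * (2 * r)) * (2 * volume (Kt a t)) := Q2.trans (by gcongr)
      _ = ENNReal.ofReal (C * (2 * r)) * ENNReal.ofReal 2 * volume (Kt a t) := by
        rw [mul_assoc, ENNReal.ofReal_ofNat]
      _ = _ := by rw [← ENNReal.ofReal_mul (by positivity)]; congr 2; ring
  · calc _ ≤ (D + 1) * ((8 * h : ℕ) : ℝ) * L := by rw [hL]; gcongr; linarith
      _ ≤ _ := by push_cast; linarith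
  · have e4 : r ≤ √(n : ℝ) := hr ▸ Real.sqrt_le_sqrt (by linarith)
    have e5 : L / (δ * r) / (c / L * r) ≤ 16 * (D + 1) / (c * δ) * L ^ 3 / n := by
      have : L / (δ * r) / (c / L * r) = L ^ 2 / (c * δ) / r ^ 2 := by field_simp
      rw [this, r2, div_le_div_iff₀ (by positivity) (by positivity)]
      have : (n : ℝ) ≤ 16 * (D + 1) * L * h := by nlinarith
      calc _ ≤ L ^ 2 / (c * δ) * (16 * (D + 1) * L * h) := by gcongr
        _ = _ := by ring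
    rw [← hL]
    calc _ ≤ D * (4 * C * r / (c / L * r) ^ k) * (L / (δ * r)) ^ k := by
          gcongr; linarith
      _ = D * (4 * C) * r * (L / (δ * r) / (c / L * r)) ^ k := by rw [div_pow (L / (δ * r))]; ring
      _ ≤ D * (4 * C) * √(n : ℝ) * (16 * (D + 1) / (c * δ) * L ^ 3 / n) ^ k := by gcongr
      _ = _ := by rw [div_pow, mul_pow, ← pow_mul]; ring

theorem upperK_eps {k : ℕ} (hD : Deconv) (hF : Frame k) (hB : BoostK k) {ε : ℝ} (hε : 0 < ε) :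
    ∀ᶠ n : ℕ in atTop, cst n (n - k) ≤ ENNReal.ofReal ((n : ℝ) ^ (-((k : ℝ) - 1 / 2) + ε)) := by
  obtain ⟨C, C0, h⟩ := upperK hD hF hB
  filter_upwards [h, tendsto_natCast_atTop_atTop.eventually
    ((isLittleO_log_rpow_rpow_atTop ((3 * k : ℕ) : ℝ) hε).bound (c := 1 / (C * 2 ^ (3 * k)))
      (by positivity)), eventually_ge_atTop 3] with n h1 h2 h3
  have n3 : (3 : ℝ) ≤ n := by exact_mod_cast h3
  have l1 : 1 ≤ Real.log n := by
    rw [Real.le_log_iff_exp_le (by linarith)]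
    linarith [Real.exp_one_lt_d9]
  rw [Real.norm_of_nonneg (by positivity), Real.norm_of_nonneg (by positivity),
    Real.rpow_natCast, one_div, ← div_eq_inv_mul, le_div_iff₀ (by positivity)] at h2
  refine h1.trans (ENNReal.ofReal_le_ofReal ?_)
  have e : (n : ℝ) ^ (-((k : ℝ) - 1 / 2) + ε) = (n : ℝ) ^ ε * √(n : ℝ) / (n : ℝ) ^ k := by
    rw [Real.sqrt_eq_rpow, ← Real.rpow_natCast, ← Real.rpow_add (by linarith),
      ← Real.rpow_sub (by linarith)]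
    congr 1
    ring
  rw [e]
  gcongr
  calc C * (1 + Real.log n) ^ (3 * k) ≤ C * (2 * Real.log n) ^ (3 * k) := by gcongr; linarith
    _ ≤ _ := by rw [mul_pow]; linarith

end Pool.Agent.Lib.MP_fedf83_gt.U
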