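import Pool.Agent.Lib.MP_fedf83_gt.KBoost2
import Pool.Agent.Lib.MP_fedf83_gt.KUpper

/-! The boosting step in the form used by the upper bound. -/

namespace Pool.Agent.Lib.MP_fedf83_gt.FL

theorem boostK_std {k : ℕ} (hk : 1 ≤ k) : U.BoostK k :=
  (boostK hk).imp fun _ h => ⟨h.1, fun N hN K hK γ a ρ hγ ha hρ hd ι _ w hw P =>
    h.2 N hN K hK γ a ρ hγ ha hρ hd ι w P hw⟩

end Pool.Agent.Lib.MP_fedf83_gt.FL
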