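import Pool.Agent.Lib.MP_fedf83_gt.PLc

/-! The standard Gaussian measure with explicit density, shifts and the tilt kernel. -/

namespace Pool.Agent.Lib.MP_fedf83_gt.P

open MeasureTheory Set Pool.Agent.Lib.MP_fedf83_gt.B
open scoped ENNReal RealInnerProductSpace

variable {n : ℕ}

/-- Unnormalised Gaussian density. -/
noncomputable def ph (g : E n) : ℝ := Real.exp (-(‖g‖ ^ 2 / 2))

/-- Its total mass. -/
noncomputable def ZG (n : ℕ) : ℝ := ∫ g : E n, ph g

/-- The standard Gaussian measure. -/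
noncomputable def gam (n : ℕ) : Measure (E n) :=
  volume.withDensity fun g => ENNReal.ofReal (ph g / ZG n)

/-- The density of the shifted Gaussian. -/
noncomputable def ee (a g : E n) : ℝ := Real.exp (⟪g, a⟫ - ‖a‖ ^ 2 / 2)

theorem ph_pos (g : E n) : 0 < ph g := Real.exp_pos _

theorem ee_pos (a g : E n) : 0 < ee a g := Real.exp_pos _

@[fun_prop]
theorem continuous_ph : Continuous (ph : E n → ℝ) := by unfold ph; fun_prop

@[fun_prop]
theorem continuous_ee {Y : Type} [TopologicalSpace Y] {a g : Y → E n} (ha : Continuous a)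
    (hg : Continuous g) : Continuous fun y => ee (a y) (g y) := by unfold ee; fun_prop

@[fun_prop]
theorem measurable_ee {Y : Type} [MeasurableSpace Y] {a g : Y → E n} (ha : Measurable a)
    (hg : Measurable g) : Measurable fun y => ee (a y) (g y) :=
  (continuous_ee continuous_fst continuous_snd).measurable.comp (ha.prodMk hg)

theorem int_gauss {b : ℝ} (hb : 0 < b) : Integrable fun g : E n => Real.exp (-(b * ‖g‖ ^ 2)) := by
  have := (GaussianFourier.integrable_cexp_neg_mul_sq_norm_add (V := E n) (b := (b : ℂ))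
    (by simpa using hb) 0 0).norm
  refine this.congr (ae_of_all _ fun g => ?_)
  simp only [zero_mul, add_zero, Complex.norm_exp]
  congr 1
  rw [← Complex.ofReal_pow, ← Complex.ofReal_neg, ← Complex.ofReal_mul, Complex.ofReal_re]
  ring

theorem ph_int : Integrable (ph : E n → ℝ) := by
  refine (int_gauss (n := n) (b := 1 / 2) (by norm_num)).congr (ae_of_all _ fun g => ?_)
  simp only [ph]
  congr 1
  ring

theorem ZG_pos (n : ℕ) : 0 < ZG n :=
  integral_pos_of_integrable_nonneg_nonzero (x := 0) continuous_ph ph_int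
    (fun g => (ph_pos g).le) (ph_pos 0).ne'

theorem gam_integral (F : E n → ℝ) : ∫ g, F g ∂gam n = (∫ g, ph g * F g) / ZG n := by
  rw [gam, integral_withDensity_eq_integral_toReal_smul
    (continuous_ph.measurable.div_const _).ennreal_ofReal (by simp), ← integral_div]
  refine integral_congr_ae (ae_of_all _ fun g => ?_)
  simp only [smul_eq_mul]
  rw [ENNReal.toReal_ofReal (div_pos (ph_pos g) (ZG_pos n)).le]
  ring

theorem gam_integrable_iff (F : E n → ℝ) :
    Integrable F (gam n) ↔ Integrable fun g => ph g * F g := by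
  rw [gam, integrable_withDensity_iff (continuous_ph.measurable.div_const _).ennreal_ofReal
    (by simp), ← integrable_const_mul_iff (c := ZG n) (ZG_pos n).ne'.isUnit]
  refine integrable_congr (ae_of_all _ fun g => ?_)
  simp only
  rw [ENNReal.toReal_ofReal (div_pos (ph_pos g) (ZG_pos n)).le]
  have := (ZG_pos n).ne'
  field_simp

instance : IsProbabilityMeasure (gam n) := ⟨by
  rw [gam, withDensity_apply _ MeasurableSet.univ, Measure.restrict_univ,
    ← ofReal_integral_eq_lintegral_ofReal (ph_int.div_const _)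
      (ae_of_all _ fun g => (div_pos (ph_pos g) (ZG_pos n)).le), integral_div]
  change ENNReal.ofReal (ZG n / ZG n) = 1
  rw [div_self (ZG_pos n).ne', ENNReal.ofReal_one]⟩

theorem gam_int_exp (R : ℝ) : Integrable (fun g : E n => Real.exp (R * ‖g‖)) (gam n) := by
  rw [gam_integrable_iff]
  refine ((int_gauss (n := n) (b := 1 / 4) (by norm_num)).const_mul (Real.exp (R ^ 2))).mono'
    (by fun_prop) (ae_of_all _ fun g => ?_)
  rw [Real.norm_of_nonneg (mul_pos (ph_pos g) (Real.exp_pos _)).le, ph, ← Real.exp_add,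
    ← Real.exp_add, Real.exp_le_exp]
  nlinarith [sq_nonneg (‖g‖ / 2 - R)]

/-- At most exponential growth. -/
def Gr (F : E n → ℝ) : Prop := Measurable F ∧ ∃ B R : ℝ, ∀ g, |F g| ≤ B * Real.exp (R * ‖g‖)

theorem Gr.int {F : E n → ℝ} (h : Gr F) : Integrable F (gam n) := by
  obtain ⟨hm, B, R, h⟩ := h
  exact ((gam_int_exp R).const_mul B).mono' hm.aestronglyMeasurable (ae_of_all _ h)

theorem Gr.mul {F G : E n → ℝ} (h : Gr F) (h' : Gr G) : Gr fun g => F g * G g := by
  obtain ⟨hm, B, R, h⟩ := h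
  obtain ⟨hm', B', R', h'⟩ := h'
  refine ⟨hm.mul hm', B * B', R + R', fun g => ?_⟩
  rw [abs_mul, add_mul, Real.exp_add, mul_mul_mul_comm]
  exact mul_le_mul (h g) (h' g) (abs_nonneg _) ((abs_nonneg _).trans (h g))

theorem gr_const (c : ℝ) : Gr fun _ : E n => c := ⟨measurable_const, |c|, 0, fun g => by simp⟩

theorem ee_le {a : E n} {R : ℝ} (h : ‖a‖ ≤ R) (g : E n) : ee a g ≤ Real.exp (R * ‖g‖) := by
  rw [ee, Real.exp_le_exp]
  nlinarith [real_inner_le_norm g a, norm_nonneg g, sq_nonneg ‖a‖]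

theorem gr_ee (a : E n) : Gr (ee a) :=
  ⟨by fun_prop, 1, ‖a‖, fun g => by rw [abs_of_pos (ee_pos a g), one_mul]; exact ee_le le_rfl g⟩

theorem gr_lin (c : E n) : Gr fun g : E n => ⟪g, c⟫ :=
  ⟨by fun_prop, 1, ‖c‖, fun g => by
    have := abs_real_inner_le_norm g c
    have := Real.add_one_le_exp (‖c‖ * ‖g‖)
    nlinarith⟩

theorem ph_mul_ee (a g : E n) : ph g * ee a g = ph (g - a) := by
  rw [ph, ph, ee, ← Real.exp_add, norm_sub_sq_real]
  congr 1
  ring

theorem gam_shift (a : E n) (F : E n → ℝ) :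
    ∫ g, ee a g * F g ∂gam n = ∫ g, F (g + a) ∂gam n := by
  rw [gam_integral, gam_integral, ← integral_add_right_eq_self _ a]
  simp only [← mul_assoc, ph_mul_ee, add_sub_cancel_right]

theorem gam_neg (F : E n → ℝ) : ∫ g, F (-g) ∂gam n = ∫ g, F g ∂gam n := by
  rw [gam_integral, gam_integral, ← integral_neg_eq_self]
  simp only [neg_neg, ph, norm_neg]

theorem gam_ee (a : E n) : ∫ g, ee a g ∂gam n = 1 := by
  simpa using gam_shift a fun _ => 1

theorem gam_ee_ee (a b : E n) : ∫ g, ee a g * ee b g ∂gam n = Real.exp ⟪a, b⟫ := by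
  rw [gam_shift]
  have : ∀ g, ee b (g + a) = Real.exp ⟪a, b⟫ * ee b g := fun g => by
    rw [ee, ee, ← Real.exp_add, inner_add_left]
    congr 1
    ring
  simp only [this]
  rw [integral_const_mul, gam_ee, mul_one]

theorem gam_lin (c : E n) : ∫ g, ⟪g, c⟫ ∂gam n = 0 := by
  have := gam_neg fun g : E n => ⟪g, c⟫
  simp only [inner_neg_left, integral_neg] at this
  linarith

theorem gam_ee_lin (a c : E n) : ∫ g, ee a g * ⟪g, c⟫ ∂gam n = ⟪a, c⟫ := by
  rw [gam_shift]
  simp only [inner_add_left]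
  rw [integral_add (gr_lin c).int (integrable_const _), gam_lin]
  simp

theorem gam_sq (c : E n) : ∫ g, ⟪g, c⟫ ^ 2 ∂gam n ≤ ‖c‖ ^ 2 := by
  have isq : Integrable (fun g : E n => ⟪g, c⟫ ^ 2) (gam n) := by
    simpa only [sq] using ((gr_lin c).mul (gr_lin c)).int
  refine le_of_forall_pos_le_add fun ε hε => ?_
  set A := ‖c‖ ^ 2 with hA
  have A0 : 0 ≤ A := by positivity
  obtain ⟨t, t0, t1, t2⟩ : ∃ t : ℝ, 0 < t ∧ t ^ 2 / 2 * A ≤ 1 ∧ t ^ 2 / 2 * A ^ 2 ≤ ε := by
    refine ⟨√(min (1 / (A + 1)) (ε / (A ^ 2 + 1))), Real.sqrt_pos.2 (by positivity), ?_, ?_⟩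
    · rw [Real.sq_sqrt (by positivity)]
      have h1 := (le_div_iff₀ (by positivity)).1 (min_le_left (1 / (A + 1)) (ε / (A ^ 2 + 1)))
      have : 0 < min (1 / (A + 1)) (ε / (A ^ 2 + 1)) := by positivity
      nlinarith
    · rw [Real.sq_sqrt (by positivity)]
      have h1 := (le_div_iff₀ (by positivity)).1 (min_le_right (1 / (A + 1)) (ε / (A ^ 2 + 1)))
      have : 0 < min (1 / (A + 1)) (ε / (A ^ 2 + 1)) := by positivity
      nlinarith [sq_nonneg A]
  set s := t ^ 2 / 2 with hs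
  have s0 : 0 < s := by positivity
  have h1 : ∫ g, (2 + 2 * s * ⟪g, c⟫ ^ 2) ∂gam n ≤
      ∫ g, Real.exp (s * A) * (ee (t • c) g + ee (-(t • c)) g) ∂gam n := by
    refine integral_mono ((integrable_const _).add (isq.const_mul _))
      (((gr_ee _).int.add (gr_ee _).int).const_mul _) fun g => ?_
    simp only [ee, mul_add, ← Real.exp_add, inner_neg_right, inner_smul_right, norm_neg,
      norm_smul, mul_pow, Real.norm_eq_abs, sq_abs]
    rw [show s * A + (t * ⟪g, c⟫ - t ^ 2 * ‖c‖ ^ 2 / 2) = t * ⟪g, c⟫ by rw [hs, hA]; ring,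
      show s * A + (-(t * ⟪g, c⟫) - t ^ 2 * ‖c‖ ^ 2 / 2) = -(t * ⟪g, c⟫) by rw [hs, hA]; ring]
    have h2 := Real.cosh_eq (t * ⟪g, c⟫)
    have h3 : 1 + (t * ⟪g, c⟫) ^ 2 / 2 ≤ Real.cosh (t * ⟪g, c⟫) := by
      have h4 := Real.cosh_two_mul (t * ⟪g, c⟫ / 2)
      have h5 := Real.cosh_sq (t * ⟪g, c⟫ / 2)
      have h6 : (t * ⟪g, c⟫ / 2) ^ 2 ≤ Real.sinh (t * ⟪g, c⟫ / 2) ^ 2 := by
        rw [sq_le_sq, Real.abs_sinh]
        exact Real.self_le_sinh_iff.2 (abs_nonneg _)
      rw [show 2 * (t * ⟪g, c⟫ / 2) = t * ⟪g, c⟫ by ring] at h4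
      nlinarith
    rw [hs]
    nlinarith
  rw [integral_add (integrable_const _) (isq.const_mul _), integral_const_mul, integral_const_mul,
    integral_add (gr_ee _).int (gr_ee _).int, gam_ee, gam_ee] at h1
  simp only [integral_const, probReal_univ, smul_eq_mul, one_mul] at h1
  have h7 := Real.abs_exp_sub_one_sub_id_le (x := s * A) (by rw [abs_of_nonneg (by positivity)]; exact t1)
  have h8 := (abs_le.1 h7).2
  have : s * ∫ g, ⟪g, c⟫ ^ 2 ∂gam n ≤ s * (A + ε) := by
    nlinarith [mul_le_mul_of_nonneg_left t2 s0.le]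
  exact le_of_mul_le_mul_left this s0

theorem gam_shift_set {U : Set (E n)} (hU : MeasurableSet U) (hs : ∀ g ∈ U, -g ∈ U) (a : E n) :
    Real.exp (-(‖a‖ ^ 2 / 2)) * (gam n).real U ≤ (gam n).real {g | g + a ∈ U} := by
  have gI : Gr (U.indicator (1 : E n → ℝ)) := ⟨measurable_one.indicator hU, 1, 0, fun g => by
    by_cases h : g ∈ U <;> simp [h]⟩
  have hneg : ∀ g, U.indicator (1 : E n → ℝ) (-g) = U.indicator 1 g := fun g => by
    by_cases h : g ∈ U
    · simp [h, hs g h]
    · have : -g ∉ U := fun h' => h (by simpa using hs _ h')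
      simp [h, this]
  have h1 : (gam n).real {g | g + a ∈ U} = ∫ g, ee a g * U.indicator 1 g ∂gam n := by
    rw [gam_shift]
    exact (integral_indicator_one ((measurable_add_const a) hU)).symm
  have h2 : ∫ g, ee a g * U.indicator 1 g ∂gam n = ∫ g, ee (-a) g * U.indicator 1 g ∂gam n := by
    rw [← gam_neg]
    simp only [hneg, ee, inner_neg_left, inner_neg_right, norm_neg]
  have h3 : ∫ g, 2 * Real.exp (-(‖a‖ ^ 2 / 2)) * U.indicator 1 g ∂gam n ≤
      ∫ g, (ee a g * U.indicator 1 g + ee (-a) g * U.indicator 1 g) ∂gam n := by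
    refine integral_mono (gI.int.const_mul _) (((gr_ee _).mul gI).int.add ((gr_ee _).mul gI).int)
      fun g => ?_
    simp only [← add_mul]
    refine mul_le_mul_of_nonneg_right ?_ (indicator_nonneg (fun _ _ => zero_le_one) g)
    simp only [ee, inner_neg_right, norm_neg, sub_eq_add_neg, Real.exp_add]
    have := Real.add_one_le_exp ⟪g, a⟫
    have := Real.add_one_le_exp (-⟪g, a⟫)
    nlinarith [Real.exp_pos (-(‖a‖ ^ 2 / 2))]
  rw [integral_add ((gr_ee _).mul gI).int ((gr_ee _).mul gI).int, ← h2, ← h1, integral_const_mul,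
    integral_indicator_one hU] at h3
  linarith

end Pool.Agent.Lib.MP_fedf83_gt.P
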