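import Pool.Agent.Lib.MP_fedf83_gt.BCore

/-! Existence of a Kashin type system of vectors. -/

namespace Pool.Agent.Lib.MP_fedf83_gt.UK

open MeasureTheory ProbabilityTheory Set Pool.Agent.Lib.MP_fedf83_gt.B
open scoped ENNReal RealInnerProductSpace

variable {n : ℕ}

theorem lint_unit (u : E n) (hu : ‖u‖ = 1) {ψ : ℝ → ℝ≥0∞} (hψ : Measurable ψ) :
    ∫⁻ g, ψ ⟪u, g⟫ ∂stdGaussian (E n) = ∫⁻ x, ψ x ∂gaussianReal 0 1 := by
  have h := IsGaussian.map_eq_gaussianReal (μ := stdGaussian (E n)) (innerSL ℝ u)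
  rw [integral_strongDual_stdGaussian, variance_dual_stdGaussian, innerSL_apply_norm, hu] at h
  simp only [one_pow, Real.toNNReal_one] at h
  rw [← h, lintegral_map hψ (innerSL ℝ u).continuous.measurable]
  rfl

theorem lint_pdf {f : ℝ → ℝ} (hf : Measurable f) (f0 : ∀ x, 0 ≤ f x) {F : ℝ → ℝ} (hF : Integrable F)
    (h : ∀ x, Real.exp (-(x ^ 2 / 2)) * f x ≤ 2 * F x) :
    ∫⁻ x, ENNReal.ofReal (f x) ∂gaussianReal 0 1 ≤ ENNReal.ofReal (∫ x, F x) := by
  have F0 : ∀ x, 0 ≤ F x := fun x => by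
    have := h x
    have h2 := mul_nonneg (Real.exp_pos (-(x ^ 2 / 2))).le (f0 x)
    linarith
  rw [gaussianReal_of_var_ne_zero 0 one_ne_zero,
    lintegral_withDensity_eq_lintegral_mul _ (measurable_gaussianPDF 0 1) (by fun_prop),
    ofReal_integral_eq_lintegral_ofReal hF (ae_of_all _ F0)]
  refine lintegral_mono fun x => ?_
  simp only [Pi.mul_apply, gaussianPDF]
  rw [← ENNReal.ofReal_mul (gaussianPDFReal_nonneg _ _ _)]
  refine ENNReal.ofReal_le_ofReal ?_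
  have h2 : (2 : ℝ) ≤ √(2 * Real.pi * (1 : NNReal)) := by
    refine Real.le_sqrt_of_sq_le ?_
    have := Real.pi_gt_three
    simp only [NNReal.coe_one]
    linarith
  have h3 : (√(2 * Real.pi * (1 : NNReal)))⁻¹ ≤ 1 / 2 := by
    rw [one_div]
    exact inv_anti₀ (by norm_num) h2
  have h4 : gaussianPDFReal 0 1 x ≤ 1 / 2 * Real.exp (-(x ^ 2 / 2)) := by
    unfold gaussianPDFReal
    have : Real.exp (-(x - 0) ^ 2 / (2 * ((1 : NNReal) : ℝ))) = Real.exp (-(x ^ 2 / 2)) := by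
      congr 1
      simp only [NNReal.coe_one]
      ring
    rw [this]
    exact mul_le_mul_of_nonneg_right h3 (Real.exp_pos _).le
  have h5 := mul_le_mul_of_nonneg_right h4 (f0 x)
  have := h x
  nlinarith

theorem g_one : ∫⁻ x, ENNReal.ofReal (Real.exp (x ^ 2 / 4)) ∂gaussianReal 0 1 ≤ ENNReal.ofReal 2 := by
  have hI : Integrable fun x : ℝ => 1 / 2 * Real.exp (-(1 / 4) * x ^ 2) :=
    (integrable_exp_neg_mul_sq (by norm_num)).const_mul _
  refine (lint_pdf (by fun_prop) (fun x => (Real.exp_pos _).le) hI fun x => ?_).trans ?_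
  · rw [← Real.exp_add]
    have : -(x ^ 2 / 2) + x ^ 2 / 4 = -(1 / 4) * x ^ 2 := by ring
    rw [this]
    linarith
  · refine ENNReal.ofReal_le_ofReal ?_
    rw [integral_const_mul, integral_gaussian]
    have : √(Real.pi / (1 / 4)) ≤ 4 := by
      refine Real.sqrt_le_iff.2 ⟨by norm_num, ?_⟩
      have := Real.pi_le_four
      linarith
    linarith

theorem g_two {m : ℝ} (m0 : 0 < m) :
    ∫⁻ x, ENNReal.ofReal (Real.exp (-(m * |x|))) ∂gaussianReal 0 1 ≤ ENNReal.ofReal (1 / m) := by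
  have h1 : IntegrableOn (fun x : ℝ => Real.exp (-m * x)) (Ioi 0) := exp_neg_integrableOn_Ioi 0 m0
  have hI : Integrable fun x : ℝ => Real.exp (-m * |x|) := by
    rw [← integrableOn_univ, ← Iic_union_Ioi (a := (0 : ℝ))]
    have h2 : IntegrableOn (fun x : ℝ => Real.exp (-m * |x|)) (Ioi 0) :=
      h1.congr_fun (fun x hx => by simp only [abs_of_pos (mem_Ioi.1 hx)]) measurableSet_Ioi
    refine IntegrableOn.union ?_ h2
    rw [integrableOn_Iic_iff_integrableOn_Iio]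
    have h3 : IntegrableOn (fun x : ℝ => Real.exp (-m * |x|)) (Ioi (-0)) := by rwa [neg_zero]
    simpa only [abs_neg] using h3.comp_neg_Iio
  refine (lint_pdf (by fun_prop) (fun x => (Real.exp_pos _).le) (hI.const_mul (1 / 2)) fun x => ?_).trans ?_
  · have : Real.exp (-(x ^ 2 / 2)) ≤ 1 := Real.exp_le_one_iff.2 (by nlinarith [sq_nonneg x])
    have h2 := Real.exp_pos (-(m * |x|))
    rw [neg_mul]
    nlinarith
  · refine ENNReal.ofReal_le_ofReal (le_of_eq ?_)
    rw [integral_const_mul, integral_comp_abs (f := fun x => Real.exp (-m * x)),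
      integral_exp_mul_Ioi (by linarith)]
    simp only [mul_zero, Real.exp_zero]
    field_simp

/-- The annulus of test directions. -/
def An (n : ℕ) : Set (E n) := {d | 1 / 2 ≤ ‖d‖ ∧ ‖d‖ ≤ 2}

theorem An_meas : MeasurableSet (An n) :=
  (measurableSet_le measurable_const measurable_norm).inter
    (measurableSet_le measurable_norm measurable_const)

theorem An_vol : volume (An n) ≤ ENNReal.ofReal (2 ^ n) * volume (Metric.ball (0 : E n) 1) := by
  have : An n ⊆ Metric.closedBall 0 2 := fun d hd => by simpa using hd.2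
  refine (measure_mono this).trans (le_of_eq ?_)
  rw [Measure.addHaar_closedBall _ _ (by norm_num)]
  simp

theorem avg {M : ℕ} {ψ : ℝ → ℝ} (hψ : Continuous ψ) (p0 : ∀ x, 0 ≤ ψ x) {b : ℝ} (b0 : 0 ≤ b)
    (hb : ∀ d ∈ An n, ∫⁻ g, ENNReal.ofReal (ψ ⟪g, d⟫) ∂stdGaussian (E n) ≤ ENNReal.ofReal b) :
    ∫⁻ G : Fin M → E n, ∫⁻ d in An n, ENNReal.ofReal (∏ c, ψ ⟪G c, d⟫) ∂volume
      ∂Measure.pi (fun _ => stdGaussian (E n)) ≤
      ENNReal.ofReal (b ^ M * 2 ^ n) * volume (Metric.ball (0 : E n) 1) := by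
  rw [lintegral_lintegral_swap (by fun_prop)]
  calc _ ≤ ∫⁻ _ in An n, ENNReal.ofReal (b ^ M) ∂volume := by
        refine setLIntegral_mono' An_meas fun d hd => ?_
        simp only [ENNReal.ofReal_prod_of_nonneg fun c _ => p0 _]
        have mX : Measurable fun g : E n => ENNReal.ofReal (ψ ⟪g, d⟫) := by fun_prop
        rw [lintegral_prod_eq_prod_lintegral_of_indepFun Finset.univ
          (fun c (G : Fin M → E n) => ENNReal.ofReal (ψ ⟪G c, d⟫))
          (iIndepFun_pi (X := fun _ g => ENNReal.ofReal (ψ ⟪g, d⟫)) fun _ => mX.aemeasurable)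
          (fun c => mX.comp (measurable_pi_apply c))]
        rw [ENNReal.ofReal_pow b0]
        refine (Finset.prod_le_pow_card _ _ (ENNReal.ofReal b) fun c _ => ?_).trans (by simp)
        rw [← lintegral_map mX (measurable_pi_apply c),
          (measurePreserving_eval (fun _ => stdGaussian (E n)) c).map_eq]
        exact hb d hd
    _ ≤ _ := by
        rw [setLIntegral_const, ENNReal.ofReal_mul (by positivity), mul_assoc]
        exact mul_le_mul_right An_vol _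

theorem unit_dir {d : E n} (hd : d ∈ An n) :
    ∃ u : E n, ‖u‖ = 1 ∧ ∀ g : E n, ⟪g, d⟫ = ‖d‖ * ⟪u, g⟫ := by
  have d0 : 0 < ‖d‖ := by linarith [hd.1]
  refine ⟨‖d‖⁻¹ • d, by rw [norm_smul, norm_inv, norm_norm, inv_mul_cancel₀ d0.ne'], fun g => ?_⟩
  rw [inner_smul_left, real_inner_comm]
  simp only [conj_trivial]
  field_simp

theorem b_one {d : E n} (hd : d ∈ An n) :
    ∫⁻ g, ENNReal.ofReal (Real.exp (⟪g, d⟫ ^ 2 / 16)) ∂stdGaussian (E n) ≤ ENNReal.ofReal 2 := by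
  obtain ⟨u, hu, h⟩ := unit_dir hd
  refine le_trans (lintegral_mono fun g => ?_)
    ((lint_unit u hu (ψ := fun x => ENNReal.ofReal (Real.exp (x ^ 2 / 4))) (by fun_prop)).le.trans g_one)
  refine ENNReal.ofReal_le_ofReal (Real.exp_le_exp.2 ?_)
  rw [h, mul_pow]
  have : ‖d‖ ^ 2 ≤ 4 := by nlinarith [hd.2, norm_nonneg d]
  nlinarith [sq_nonneg ⟪u, g⟫]

theorem b_two {m : ℝ} (m0 : 0 < m) {d : E n} (hd : d ∈ An n) :
    ∫⁻ g, ENNReal.ofReal (Real.exp (-(2 * m * |⟪g, d⟫|))) ∂stdGaussian (E n) ≤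
      ENNReal.ofReal (1 / m) := by
  obtain ⟨u, hu, h⟩ := unit_dir hd
  refine le_trans (lintegral_mono fun g => ?_)
    ((lint_unit u hu (ψ := fun x => ENNReal.ofReal (Real.exp (-(m * |x|)))) (by fun_prop)).le.trans
      (g_two m0))
  refine ENNReal.ofReal_le_ofReal (Real.exp_le_exp.2 ?_)
  rw [h, abs_mul, abs_norm]
  have := mul_nonneg m0.le (abs_nonneg ⟪u, g⟫)
  nlinarith [hd.1]

theorem ball_sub {u : E n} (hu : ‖u‖ = 1) {r : ℝ} (hr : r ≤ 1 / 2) : Metric.closedBall u r ⊆ An n := by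
  intro d hd
  rw [Metric.mem_closedBall, dist_eq_norm] at hd
  have h1 := norm_sub_norm_le d u
  have h2 := norm_sub_norm_le u d
  rw [norm_sub_rev] at h2
  constructor <;> linarith

theorem low_of {F : E n → ℝ} {u : E n} (hu : ‖u‖ = 1) {r a b : ℝ} (r0 : 0 < r) (hr : r ≤ 1 / 2)
    (b0 : 0 ≤ b) (hF : ∀ d ∈ Metric.closedBall u r, a ≤ F d)
    (h : ∫⁻ d in An n, ENNReal.ofReal (F d) ≤ ENNReal.ofReal b * volume (Metric.ball (0 : E n) 1)) :
    a * r ^ n ≤ b := by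
  have w0 : volume (Metric.ball (0 : E n) 1) ≠ 0 := (Metric.measure_ball_pos _ _ one_pos).ne'
  have w1 : volume (Metric.ball (0 : E n) 1) ≠ ∞ := measure_ball_lt_top.ne
  by_cases a0 : a ≤ 0
  · exact (mul_nonpos_of_nonpos_of_nonneg a0 (by positivity)).trans b0
  have : ENNReal.ofReal (a * r ^ n) * volume (Metric.ball (0 : E n) 1) ≤
      ENNReal.ofReal b * volume (Metric.ball (0 : E n) 1) := by
    refine le_trans ?_ ((lintegral_mono_set (ball_sub hu hr)).trans h)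
    calc _ = ∫⁻ _ in Metric.closedBall u r, ENNReal.ofReal a := by
          rw [setLIntegral_const, Measure.addHaar_closedBall _ _ r0.le,
            ENNReal.ofReal_mul (by linarith), mul_assoc]
          simp
      _ ≤ _ := setLIntegral_mono' measurableSet_closedBall fun d hd => ENNReal.ofReal_le_ofReal (hF d hd)
  exact (ENNReal.ofReal_le_ofReal_iff b0).1 ((ENNReal.mul_le_mul_iff_left w0 w1).1 this)

theorem exists_two {X : Type} [MeasurableSpace X] (μ : Measure X) [IsProbabilityMeasure μ]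
    {f g : X → ℝ≥0∞} (hf : Measurable f) (hg : Measurable g) {a b : ℝ≥0∞} (a0 : a ≠ 0) (a1 : a ≠ ∞)
    (b0 : b ≠ 0) (b1 : b ≠ ∞) (ha : ∫⁻ x, f x ∂μ ≤ a) (hb : ∫⁻ x, g x ∂μ ≤ b) :
    ∃ x, f x ≤ 2 * a ∧ g x ≤ 2 * b := by
  obtain ⟨x, hx⟩ := exists_le_lintegral (μ := μ) (f := fun x => f x * b + g x * a) (by fun_prop)
  rw [lintegral_add_left (by fun_prop), lintegral_mul_const _ hf, lintegral_mul_const _ hg] at hx
  have h2 : f x * b + g x * a ≤ a * b + b * a := hx.trans (by gcongr)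
  refine ⟨x, (ENNReal.mul_le_mul_iff_left b0 b1).1 ?_, (ENNReal.mul_le_mul_iff_left a0 a1).1 ?_⟩
  · exact (le_self_add.trans h2).trans (le_of_eq (by ring))
  · exact (le_add_self.trans h2).trans (le_of_eq (by ring))

/-- The linear map given by the rows. -/
noncomputable def rows {M : ℕ} (G : Fin M → E n) : E n →L[ℝ] E M :=
  LinearMap.toContinuousLinearMap
    { toFun := fun d => WithLp.toLp 2 fun c => ⟪G c, d⟫
      map_add' := fun x y => by ext c; simp [inner_add_right]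
      map_smul' := fun t x => by ext c; simp [inner_smul_right] }

theorem rows_sq {M : ℕ} (G : Fin M → E n) (d : E n) : ‖rows G d‖ ^ 2 = ∑ c, ⟪G c, d⟫ ^ 2 := by
  rw [EuclideanSpace.real_norm_sq_eq]
  rfl

theorem raw (k : ℕ) (hk : 1 ≤ k) : ∃ G : Fin (9 * k) → E (8 * k),
    (∀ u : E (8 * k), ‖u‖ = 1 → Real.exp (-254) / 512 * k ≤ ∑ c, |⟪G c, u⟫|) ∧
      ‖rows G‖ ≤ 42 * √k := by
  set r : ℝ := Real.exp (-254) / 512 with hr
  have r0 : 0 < r := by positivity
  have e1 : Real.exp (-254) ≤ 1 := Real.exp_le_one_iff.2 (by norm_num)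
  have r1 : r ≤ 1 / 2 := by rw [hr]; linarith
  have k1 : (1 : ℝ) ≤ k := by exact_mod_cast hk
  have w0 : volume (Metric.ball (0 : E (8 * k)) 1) ≠ 0 := (Metric.measure_ball_pos _ _ one_pos).ne'
  have w1 : volume (Metric.ball (0 : E (8 * k)) 1) ≠ ∞ := measure_ball_lt_top.ne
  have A1 := avg (n := 8 * k) (M := 9 * k) (ψ := fun x => Real.exp (x ^ 2 / 16)) (by fun_prop)
    (fun x => (Real.exp_pos _).le) (b := 2) (by norm_num) fun d hd => b_one hd
  have A2 := avg (n := 8 * k) (M := 9 * k) (ψ := fun x => Real.exp (-(2 * r⁻¹ * |x|))) (by fun_prop)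
    (fun x => (Real.exp_pos _).le) (b := 1 / r⁻¹) (by positivity)
    fun d hd => b_two (by positivity) hd
  obtain ⟨G, G1, G2⟩ := exists_two _ (Measurable.lintegral_prod_right' (f := fun p :
      (Fin (9 * k) → E (8 * k)) × E (8 * k) =>
        ENNReal.ofReal (∏ c, Real.exp (⟪p.1 c, p.2⟫ ^ 2 / 16))) (by fun_prop))
    (Measurable.lintegral_prod_right' (f := fun p : (Fin (9 * k) → E (8 * k)) × E (8 * k) =>
        ENNReal.ofReal (∏ c, Real.exp (-(2 * r⁻¹ * |⟪p.1 c, p.2⟫|)))) (by fun_prop))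
    (mul_ne_zero (ENNReal.ofReal_pos.2 (by positivity)).ne' w0)
    (ENNReal.mul_ne_top ENNReal.ofReal_ne_top w1)
    (mul_ne_zero (ENNReal.ofReal_pos.2 (by positivity)).ne' w0)
    (ENNReal.mul_ne_top ENNReal.ofReal_ne_top w1) A1 A2
  have two : ∀ (x : ℝ) (w : ℝ≥0∞), 2 * (ENNReal.ofReal x * w) = ENNReal.ofReal (2 * x) * w :=
    fun x w => by rw [← mul_assoc, ENNReal.ofReal_mul (by norm_num), ENNReal.ofReal_ofNat]
  rw [two] at G1 G2
  have sk : √(k : ℝ) ^ 2 = k := Real.sq_sqrt (by positivity)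
  have s0 : 0 ≤ √(k : ℝ) := Real.sqrt_nonneg _
  have hop : ‖rows G‖ ≤ 42 * √k := by
    have : ‖rows G‖ ≤ ‖rows G‖ / 2 + 21 * √k := by
      refine ContinuousLinearMap.opNorm_le_of_unit_norm (by positivity) fun u hu => ?_
      by_contra hc
      push Not at hc
      have h := low_of (a := Real.exp (441 * k / 16)) hu (r := 1 / 2) (by norm_num) le_rfl
        (by positivity) (fun d hd => ?_) G1
      · have h2 : (2 : ℝ) ^ (26 * k) ≤ Real.exp (441 * k / 16) := by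
          have h3 : (2 : ℝ) ≤ Real.exp 1 := by linarith [Real.add_one_le_exp (1 : ℝ)]
          calc (2 : ℝ) ^ (26 * k) ≤ Real.exp 1 ^ (26 * k) := pow_le_pow_left₀ (by norm_num) h3 _
            _ = Real.exp (26 * k) := by rw [← Real.exp_nat_mul]; push_cast; ring_nf
            _ ≤ _ := Real.exp_le_exp.2 (by linarith)
        have h3 : Real.exp (26 * k) < Real.exp (441 * k / 16) := Real.exp_lt_exp.2 (by linarith)
        have h4 : (2 : ℝ) ^ (26 * k) ≤ Real.exp (26 * k) := by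
          have h3 : (2 : ℝ) ≤ Real.exp 1 := by linarith [Real.add_one_le_exp (1 : ℝ)]
          calc (2 : ℝ) ^ (26 * k) ≤ Real.exp 1 ^ (26 * k) := pow_le_pow_left₀ (by norm_num) h3 _
            _ = Real.exp (26 * k) := by rw [← Real.exp_nat_mul]; push_cast; ring_nf
        have h5 : (2 : ℝ) ≤ 2 ^ k := le_self_pow₀ (by norm_num) (by omega)
        have h6 : (2 : ℝ) ^ (26 * k) = 2 ^ k * (2 ^ (9 * k) * 2 ^ (8 * k)) * 2 ^ (8 * k) := by ring
        rw [one_div, inv_pow, ← div_eq_mul_inv, div_le_iff₀ (by positivity)] at h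
        have h7 : (2 : ℝ) * (2 ^ (9 * k) * 2 ^ (8 * k)) * 2 ^ (8 * k) ≤
            2 ^ k * (2 ^ (9 * k) * 2 ^ (8 * k)) * 2 ^ (8 * k) := by gcongr
        linarith
      · rw [← Real.exp_sum, ← Finset.sum_div, ← rows_sq]
        refine Real.exp_le_exp.2 ?_
        rw [Metric.mem_closedBall, dist_eq_norm, norm_sub_rev] at hd
        have h1 := (rows G).le_opNorm (u - d)
        rw [map_sub] at h1
        have h2 := norm_sub_norm_le (rows G u) (rows G d)
        have h3 := mul_le_mul_of_nonneg_left hd (norm_nonneg (rows G))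
        have h4 : 21 * √(k : ℝ) ≤ ‖rows G d‖ := by linarith
        nlinarith
    linarith
  refine ⟨G, fun u hu => ?_, hop⟩
  by_contra hc
  push Not at hc
  have h := low_of (a := Real.exp (-(2 * r⁻¹ * ∑ c, |⟪G c, u⟫|) - 252 * k)) hu r0 r1
    (by positivity) (fun d hd => ?_) G2
  · have h1 : Real.exp (-254 * k) < Real.exp (-(2 * r⁻¹ * ∑ c, |⟪G c, u⟫|) - 252 * k) := by
      refine Real.exp_lt_exp.2 ?_
      have : r⁻¹ * ∑ c, |⟪G c, u⟫| < k := by
        rw [inv_mul_lt_iff₀ r0]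
        exact hc
      linarith
    have h2 : Real.exp (-254 * k) = (512 * r) ^ k := by
      rw [hr, mul_div_cancel₀ _ (by norm_num), ← Real.exp_nat_mul]
      ring_nf
    have h5 : (2 : ℝ) ≤ 2 ^ k := le_self_pow₀ (by norm_num) (by omega)
    have h6 : (512 * r) ^ k * r ^ (8 * k) = 2 ^ k * (r ^ (9 * k) * 2 ^ (8 * k)) := by
      rw [mul_pow, show (512 : ℝ) = 2 ^ 9 by norm_num, ← pow_mul]
      ring
    rw [one_div, inv_inv] at h
    have h7 := mul_lt_mul_of_pos_right h1 (pow_pos r0 (8 * k))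
    have h8 : 2 * (r ^ (9 * k) * 2 ^ (8 * k)) ≤ 2 ^ k * (r ^ (9 * k) * 2 ^ (8 * k)) := by gcongr
    rw [h2, h6] at h7
    linarith
  · rw [← Real.exp_sum]
    refine Real.exp_le_exp.2 ?_
    rw [Finset.sum_neg_distrib, ← Finset.mul_sum]
    rw [Metric.mem_closedBall, dist_eq_norm] at hd
    have h1 : ∑ c, |⟪G c, d⟫| ≤ ∑ c, |⟪G c, u⟫| + ∑ c, |⟪G c, d - u⟫| := by
      rw [← Finset.sum_add_distrib]
      refine Finset.sum_le_sum fun c _ => ?_
      rw [inner_sub_right]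
      have := abs_add_le ⟪G c, u⟫ (⟪G c, d⟫ - ⟪G c, u⟫)
      rwa [add_sub_cancel] at this
    have h2 : (∑ c, |⟪G c, d - u⟫|) ^ 2 ≤ (126 * k * r) ^ 2 := by
      refine (sq_sum_le_card_mul_sum_sq (s := Finset.univ)).trans ?_
      simp only [sq_abs, Finset.card_univ, Fintype.card_fin]
      rw [← rows_sq]
      have h3 : ‖rows G (d - u)‖ ≤ 42 * √k * r :=
        ((rows G).le_opNorm _).trans (mul_le_mul hop hd (norm_nonneg _) (by positivity))
      have h4 := pow_le_pow_left₀ (norm_nonneg _) h3 2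
      rw [mul_pow, mul_pow, sk] at h4
      push_cast
      calc _ ≤ 9 * (k : ℝ) * (42 ^ 2 * k * r ^ 2) := by gcongr
        _ = _ := by ring
    have h3 := (abs_le_of_sq_le_sq' h2 (by positivity)).2
    have h4 : r⁻¹ * ∑ c, |⟪G c, d⟫| ≤ r⁻¹ * (∑ c, |⟪G c, u⟫| + 126 * k * r) := by
      gcongr
      linarith
    have h5 : r⁻¹ * (126 * k * r) = 126 * k := by field_simp
    rw [mul_add, h5] at h4
    linarith

/-- A Kashin type system: `9k` vectors in dimension `8k`, bounded as an operator and with the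
`l1` norm of the coefficients bounded below. -/
theorem kashin : ∃ δ : ℝ, 0 < δ ∧ δ ≤ 1 ∧ ∀ k : ℕ, 1 ≤ k → ∃ a : Fin (9 * k) → E (8 * k),
    (∀ d : E (8 * k), δ * √(8 * k) * ‖d‖ ≤ ∑ c, |⟪a c, d⟫|) ∧
      ∀ d : E (8 * k), ∑ c, ⟪a c, d⟫ ^ 2 ≤ 221 * ‖d‖ ^ 2 := by
  have e1 : Real.exp (-254) ≤ 1 := Real.exp_le_one_iff.2 (by norm_num)
  refine ⟨Real.exp (-254) / 512 / 8, by positivity, by linarith, fun k hk => ?_⟩
  obtain ⟨G, G1, G2⟩ := raw k hk
  have k1 : (1 : ℝ) ≤ k := by exact_mod_cast hk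
  set s : ℝ := √(8 * k) with hs
  have s0 : 0 < s := Real.sqrt_pos.2 (by positivity)
  have ss : s ^ 2 = 8 * k := Real.sq_sqrt (by positivity)
  refine ⟨fun c => s⁻¹ • G c, fun d => ?_, fun d => ?_⟩
  · simp only [inner_smul_left, conj_trivial, abs_mul, abs_of_pos (inv_pos.2 s0), ← Finset.mul_sum]
    by_cases d0 : d = 0
    · simp [d0]
    have dp : 0 < ‖d‖ := norm_pos_iff.2 d0
    have h := G1 (‖d‖⁻¹ • d) (by rw [norm_smul, norm_inv, norm_norm, inv_mul_cancel₀ dp.ne'])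
    simp only [inner_smul_right, abs_mul, abs_of_pos (inv_pos.2 dp), ← Finset.mul_sum] at h
    rw [le_inv_mul_iff₀ dp] at h
    rw [le_inv_mul_iff₀ s0]
    refine le_trans (le_of_eq ?_) h
    calc _ = Real.exp (-254) / 512 / 8 * s ^ 2 * ‖d‖ := by ring
      _ = _ := by rw [ss]; ring
  · simp only [inner_smul_left, conj_trivial, mul_pow, ← Finset.mul_sum, ← rows_sq]
    have h3 : ‖rows G d‖ ≤ 42 * √k * ‖d‖ :=
      ((rows G).le_opNorm _).trans (mul_le_mul_of_nonneg_right G2 (norm_nonneg _))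
    have h4 := pow_le_pow_left₀ (norm_nonneg _) h3 2
    rw [mul_pow, mul_pow, Real.sq_sqrt (by positivity)] at h4
    rw [inv_pow, ss, inv_mul_le_iff₀ (by positivity)]
    nlinarith [mul_nonneg (by positivity : (0 : ℝ) ≤ k) (sq_nonneg ‖d‖)]

theorem row_norm {M : ℕ} {a : Fin M → E n} {C : ℝ} (C0 : 0 ≤ C)
    (h : ∀ d : E n, ∑ c, ⟪a c, d⟫ ^ 2 ≤ C * ‖d‖ ^ 2) (c : Fin M) : ‖a c‖ ^ 2 ≤ C := by
  have h1 := (Finset.single_le_sum (f := fun c' => ⟪a c', a c⟫ ^ 2) (fun _ _ => sq_nonneg _)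
    (Finset.mem_univ c)).trans (h (a c))
  rw [real_inner_self_eq_norm_sq] at h1
  by_cases h0 : ‖a c‖ ^ 2 = 0
  · rw [h0]; exact C0
  have hp : 0 < ‖a c‖ ^ 2 := lt_of_le_of_ne (sq_nonneg _) (Ne.symm h0)
  nlinarith

theorem pair_sum {M : ℕ} {a : Fin M → E n} {C : ℝ} (C0 : 0 ≤ C)
    (h : ∀ d : E n, ∑ c, ⟪a c, d⟫ ^ 2 ≤ C * ‖d‖ ^ 2) :
    ∑ c, ∑ c', ⟪a c, a c'⟫ ^ 2 ≤ C ^ 2 * M := by
  rw [Finset.sum_comm]
  calc _ ≤ ∑ _c' : Fin M, C ^ 2 := Finset.sum_le_sum fun c' _ =>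
        (h _).trans (by nlinarith [row_norm C0 h c'])
    _ = _ := by simp [mul_comm]

end Pool.Agent.Lib.MP_fedf83_gt.UK
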