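import Pool.Agent.Lib.MP_fedf83_gt.PLc

/-! The body `{x | |⟪a c, x⟫| ≤ t c}` with nearly maximal volume: covariogram and layers. -/

namespace Pool.Agent.Lib.MP_fedf83_gt.U

open MeasureTheory Set Pool.Agent.Lib.MP_fedf83_gt.B Pool.Agent.Lib.MP_fedf83_gt.P
open scoped ENNReal RealInnerProductSpace Pointwise

variable {M N : ℕ} {a : Fin M → E N} {t : Fin M → ℝ}

/-- An intersection of symmetric slabs. -/
def Kt (a : Fin M → E N) (t : Fin M → ℝ) : Set (E N) := {x | ∀ c, |⟪a c, x⟫| ≤ t c}

/-- The widths `t` have sum `M` and nearly maximise the volume. -/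
structure Near (a : Fin M → E N) (t : Fin M → ℝ) : Prop where
  nn : ∀ c, 0 ≤ t c
  sum : ∑ c, t c = M
  body : IsBody (Kt a t)
  vol : ∀ t' : Fin M → ℝ, volume (Kt a t') ≤
    ENNReal.ofReal (1.01 * Real.exp (N / M * (∑ c, t' c - M))) * volume (Kt a t)

theorem Kt_closed (a : Fin M → E N) (t : Fin M → ℝ) : IsClosed (Kt a t) := by
  simp only [Kt, ofPred_forall]
  exact isClosed_iInter fun c => isClosed_le (by fun_prop) (by fun_prop)

theorem Kt_meas (a : Fin M → E N) (t : Fin M → ℝ) : MeasurableSet (Kt a t) :=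
  (Kt_closed a t).measurableSet

theorem Kt_convex (a : Fin M → E N) (t : Fin M → ℝ) : Convex ℝ (Kt a t) := by
  intro x hx y hy p q hp hq hpq c
  have h1 := abs_le.1 (hx c)
  have h2 := abs_le.1 (hy c)
  rw [inner_add_right, real_inner_smul_right, real_inner_smul_right, abs_le]
  have : t c = p * t c + q * t c := by rw [← add_mul, hpq, one_mul]
  constructor <;> nlinarith [mul_le_mul_of_nonneg_left h1.1 hp, mul_le_mul_of_nonneg_left h1.2 hp,
    mul_le_mul_of_nonneg_left h2.1 hq, mul_le_mul_of_nonneg_left h2.2 hq]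

theorem Kt_neg {x : E N} : -x ∈ Kt a t ↔ x ∈ Kt a t := by
  simp [Kt, inner_neg_right]

theorem exists_near {δ : ℝ} (δ0 : 0 < δ) (h : ∀ d : E N, δ * ‖d‖ ≤ ∑ c, |⟪a c, d⟫|) (hN : 1 ≤ N)
    (hM : 1 ≤ M) : ∃ t, Near a t := by
  have M0 : (0 : ℝ) < M := by exact_mod_cast hM
  have hb : ∀ t : Fin M → ℝ, ∀ x ∈ Kt a t, δ * ‖x‖ ≤ ∑ c, t c := fun t x hx =>
    (h x).trans (Finset.sum_le_sum fun c _ => hx c)
  have hsub : ∀ t : Fin M → ℝ, ∑ c, t c = M → Kt a t ⊆ Metric.closedBall 0 (M / δ) := by
    intro t ht x hx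
    rw [mem_closedBall_zero_iff, le_div_iff₀ δ0, mul_comm, ← ht]
    exact hb t x hx
  let T := {t : Fin M → ℝ // (∀ c, 0 ≤ t c) ∧ ∑ c, t c = M}
  set S : ℝ≥0∞ := ⨆ t : T, volume (Kt a t.1) with hS
  have S1 : S ≠ ⊤ := ne_top_of_le_ne_top (isCompact_closedBall (0 : E N) (M / δ)).measure_ne_top
    (iSup_le fun t => measure_mono (hsub t.1 t.2.2))
  have S0 : S ≠ 0 := by
    have ho : IsOpen {x : E N | ∀ c, |⟪a c, x⟫| < 1} := by
      simp only [ofPred_forall]
      exact isOpen_iInter_of_finite fun c => isOpen_lt (by fun_prop) (by fun_prop)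
    have h1 := ho.measure_pos volume ⟨0, fun c => by simp⟩
    refine (h1.trans_le ((measure_mono ?_).trans (le_iSup (fun t : T => volume (Kt a t.1))
      ⟨fun _ => 1, fun _ => zero_le_one, by simp⟩))).ne'
    exact fun x hx c => (hx c).le
  obtain ⟨⟨t, t0, t1⟩, ht⟩ : ∃ t : T, ENNReal.ofReal (100 / 101) * S < volume (Kt a t.1) := by
    rw [← lt_iSup_iff, ← hS]
    calc _ < 1 * S := ENNReal.mul_lt_mul_left S0 S1 (ENNReal.ofReal_lt_one.2 (by norm_num))
      _ = S := one_mul S
  have hS' : S ≤ ENNReal.ofReal 1.01 * volume (Kt a t) := by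
    calc S = ENNReal.ofReal 1.01 * (ENNReal.ofReal (100 / 101) * S) := by
          rw [← mul_assoc, ← ENNReal.ofReal_mul (by norm_num)]; norm_num
      _ ≤ _ := by gcongr
  refine ⟨t, t0, t1, ⟨(isCompact_closedBall _ _).of_isClosed_subset (Kt_closed a t) (hsub t t1),
    Kt_convex a t, ?_⟩, fun t' => ?_⟩
  · by_contra hi
    have := (Kt_convex a t).addHaar_frontier (μ := volume)
    rw [frontier, not_nonempty_iff_eq_empty.1 hi, (Kt_closed a t).closure_eq, sdiff_empty] at this
    rw [this] at ht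
    exact not_lt_zero ht
  rcases (Kt a t').eq_empty_or_nonempty with he | ⟨x0, hx0⟩
  · simp [he]
  have t0' : ∀ c, 0 ≤ t' c := fun c => (abs_nonneg _).trans (hx0 c)
  set s := ∑ c, t' c with hs
  have s0 : 0 ≤ s := Finset.sum_nonneg fun c _ => t0' c
  obtain ⟨u, hu⟩ : ∃ u : T, Kt a t' ⊆ (s / M) • Kt a u.1 := by
    rcases s0.eq_or_lt with h0 | h0
    · refine ⟨⟨t, t0, t1⟩, fun x hx => ⟨0, fun c => by simpa using t0 c, ?_⟩⟩
      have := hb t' x hx
      rw [← hs, ← h0] at this
      have : ‖x‖ ≤ 0 := by nlinarith [norm_nonneg x]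
      simp [norm_le_zero_iff.1 this]
    · refine ⟨⟨fun c => M / s * t' c, fun c => mul_nonneg (by positivity) (t0' c), ?_⟩,
        fun x hx => ⟨(M / s) • x, fun c => ?_, ?_⟩⟩
      · rw [← Finset.mul_sum, ← hs]; field_simp
      · rw [real_inner_smul_right, abs_mul, abs_of_pos (by positivity)]
        exact mul_le_mul_of_nonneg_left (hx c) (by positivity)
      · show (s / M) • (M / s) • x = x
        rw [smul_smul, show s / M * (M / s) = 1 by field_simp, one_smul]
  have e : (s / M) ^ N ≤ Real.exp (N / M * (s - M)) := by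
    rw [show (N : ℝ) / M * (s - M) = N * (s / M - 1) by field_simp, Real.exp_nat_mul]
    exact pow_le_pow_left₀ (by positivity) (by linarith [Real.add_one_le_exp (s / M - 1)]) N
  calc _ ≤ volume ((s / M) • Kt a u.1) := measure_mono hu
    _ = ENNReal.ofReal ((s / M) ^ N) * volume (Kt a u.1) := by
        rw [Measure.addHaar_smul_of_nonneg _ (by positivity), finrank_euclideanSpace,
          Fintype.card_fin]
    _ ≤ ENNReal.ofReal (Real.exp (N / M * (s - M))) * (ENNReal.ofReal 1.01 * volume (Kt a t)) := by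
        gcongr
        exact (le_iSup (fun t : T => volume (Kt a t.1)) u).trans hS'
    _ = _ := by rw [← mul_assoc, ← ENNReal.ofReal_mul (Real.exp_pos _).le, mul_comm _ 1.01]

theorem Near.cov (h : Near a t) (d : E N) : volume {z | z ∈ Kt a t ∧ z - d ∈ Kt a t} ≤
    ENNReal.ofReal (1.01 * Real.exp (-(N / (2 * M) * ∑ c, |⟪a c, d⟫|))) * volume (Kt a t) := by
  have := h.vol fun c => t c - |⟪a c, d⟫| / 2
  rw [Finset.sum_sub_distrib, h.sum, ← Finset.sum_div,
    ← measure_preimage_add_right volume (-((1 / 2 : ℝ) • d))] at this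
  refine (measure_mono ?_).trans (this.trans_eq ?_)
  · rintro z ⟨h1, h2⟩ c
    have h1 := abs_le.1 (h1 c)
    have h2 := abs_le.1 (h2 c)
    rw [inner_sub_right] at h2
    rw [inner_add_right, inner_neg_right, real_inner_smul_right, abs_le]
    beta_reduce
    rcases abs_cases ⟪a c, d⟫ with ⟨e, _⟩ | ⟨e, _⟩ <;> constructor <;> linarith
  · congr 4
    ring

theorem mid_vol {K : Set (E N)} (hK : IsBody K) (v : E N) {I J L : Set ℝ} (hI : MeasurableSet I)
    (hJ : MeasurableSet J) (hL : MeasurableSet L) (H : ∀ p ∈ I, ∀ q ∈ J, (p + q) / 2 ∈ L) {w : ℝ}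
    (w0 : 0 ≤ w) (h1 : w ≤ volume.real {x | x ∈ K ∧ ⟪v, x⟫ ∈ I})
    (h2 : w ≤ volume.real {x | x ∈ K ∧ ⟪v, x⟫ ∈ J}) :
    w ≤ volume.real {x | x ∈ K ∧ ⟪v, x⟫ ∈ L} := by
  have m : ∀ {I : Set ℝ}, MeasurableSet I → MeasurableSet {x | x ∈ K ∧ ⟪v, x⟫ ∈ I} := fun hI =>
    hK.1.measurableSet.inter ((by fun_prop : Measurable fun x : E N => ⟪v, x⟫) hI)
  have i : ∀ {I : Set ℝ}, MeasurableSet I →
      Integrable (indicator {x | x ∈ K ∧ ⟪v, x⟫ ∈ I} (1 : E N → ℝ)) volume := fun hI =>
    (integrable_indicator_iff (m hI)).2 (integrableOn_const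
      (ne_top_of_le_ne_top hK.1.measure_ne_top (measure_mono fun x hx => hx.1)))
  have n0 : ∀ (A : Set (E N)) x, 0 ≤ indicator A (1 : E N → ℝ) x := fun A x =>
    indicator_nonneg (fun _ _ => zero_le_one) x
  have := lc_volume _ _ _ (measurable_one.indicator (m hI)) (measurable_one.indicator (m hJ))
    (measurable_one.indicator (m hL)) (n0 _) (n0 _) (n0 _) (i hI) (i hJ) (i hL) fun x y => by
      by_cases hx : x ∈ {x | x ∈ K ∧ ⟪v, x⟫ ∈ I}
      · by_cases hy : y ∈ {x | x ∈ K ∧ ⟪v, x⟫ ∈ J}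
        · rw [indicator_of_mem hx, indicator_of_mem hy, indicator_of_mem]
          · simp
          · refine ⟨?_, ?_⟩
            · rw [smul_add]
              exact hK.2.1 hx.1 hy.1 (by norm_num) (by norm_num) (by norm_num)
            · rw [real_inner_smul_right, inner_add_right, mul_comm, mul_one_div]
              exact H _ hx.2 _ hy.2
        · rw [indicator_of_notMem hy, mul_zero]; positivity
      · rw [indicator_of_notMem hx, zero_mul]; positivity
  rw [integral_indicator_one (m hI), integral_indicator_one (m hJ),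
    integral_indicator_one (m hL)] at this
  exact (pow_le_pow_iff_left₀ w0 measureReal_nonneg two_ne_zero).1
    ((sq w).trans_le ((mul_le_mul h1 h2 w0 measureReal_nonneg).trans this))

theorem dyadic {P : ℕ → Prop} {B : ℕ}
    (H : ∀ i j l, i < j → j ≤ B → i + j = 2 * l → P i → P j → P l) (k : ℕ) :
    ∀ i, i + 2 ^ k ≤ B → P i → P (i + 2 ^ k) → ∀ j ≤ 2 ^ k, P (i + j) := by
  induction k with
  | zero =>
    intro i _ h0 h1 j hj
    obtain rfl | rfl : j = 0 ∨ j = 1 := by omega
    exacts [h0, h1]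
  | succ k ih =>
    intro i hB h0 h1 j hj
    have p : 0 < 2 ^ k := by positivity
    have hm : P (i + 2 ^ k) := H i _ _ (by omega) hB (by omega) h0 h1
    rcases le_total j (2 ^ k) with h | h
    · exact ih i (by omega) h0 hm j h
    · have := ih (i + 2 ^ k) (by omega) hm (by rwa [add_assoc, ← two_mul, ← pow_succ']) (j - 2 ^ k)
        (by omega)
      rwa [show i + 2 ^ k + (j - 2 ^ k) = i + j by omega] at this

theorem layerR (hK : IsBody (Kt a t)) (m : ℕ) (c : Fin M) :
    volume.real {x | x ∈ Kt a t ∧ t c * (1 - 2 / (2 ^ m + 1)) < |⟪a c, x⟫|} ≤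
      2 / (2 ^ m + 1) * volume.real (Kt a t) := by
  have fin : ∀ p : E N → Prop, volume {x | x ∈ Kt a t ∧ p x} ≠ ⊤ := fun p =>
    ne_top_of_le_ne_top hK.1.measure_ne_top (measure_mono fun x hx => hx.1)
  obtain ⟨B, hB⟩ : ∃ B : ℕ, B = 2 ^ m := ⟨_, rfl⟩
  have B0 : 0 < B := hB ▸ by positivity
  rw [show (2 : ℝ) ^ m = B by simp [hB]]
  obtain ⟨h, hh⟩ : ∃ h : ℝ, h = 2 * t c / (B + 1) := ⟨_, rfl⟩
  have hT : -t c + (B + 1) * h = t c := by rw [hh]; field_simp; ring
  rw [show t c * (1 - 2 / (B + 1)) = t c - h by rw [hh]; ring]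
  rcases le_or_gt h 0 with h0 | h0
  · rw [show {x | x ∈ Kt a t ∧ t c - h < |⟪a c, x⟫|} = ∅ from
      eq_empty_of_forall_notMem fun x hx => by linarith [hx.1 c, hx.2]]
    rw [measureReal_empty]
    positivity
  let J : ℕ → Set ℝ := fun i => {u | -t c + i * h ≤ u ∧ u ≤ -t c + (i + 1) * h ∧
    (i ≠ 0 → -t c + i * h < u) ∧ (i ≠ B → u < -t c + (i + 1) * h)}
  have mJ : ∀ i, MeasurableSet (J i) := fun i => OrdConnected.measurableSet
    ⟨fun x hx y hy z hz => ⟨hx.1.trans hz.1, hz.2.trans hy.2.1, fun e => (hx.2.2.1 e).trans_le hz.1,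
      fun e => hz.2.trans_lt (hy.2.2.2 e)⟩⟩
  let A : ℕ → Set (E N) := fun i => {x | x ∈ Kt a t ∧ ⟪a c, x⟫ ∈ J i}
  have sym : volume.real (A 0) = volume.real (A B) := by
    rw [measureReal_def, measureReal_def, ← Measure.measure_preimage_neg]
    congr 2
    ext x
    simp only [A, J, mem_preimage, mem_ofPred_eq, Kt_neg, inner_neg_right, ne_eq,
      not_true_eq_false, false_imp_iff, true_and, and_true, B0.ne, B0.ne', not_false_eq_true,
      true_imp_iff, Nat.cast_zero]
    refine and_congr_right fun _ => ⟨?_, ?_⟩ <;> rintro ⟨_, _, _⟩ <;>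
      refine ⟨?_, ?_, ?_⟩ <;> linarith
  have all : ∀ j ≤ B, volume.real (A B) ≤ volume.real (A j) := by
    have := dyadic (P := fun j => volume.real (A B) ≤ volume.real (A j)) (B := B)
      (fun i j l hij hj e h1 h2 => mid_vol hK (a c) (mJ i) (mJ j) (mJ l) (fun p hp q hq => by
        have e' : (i : ℝ) * h + j * h = 2 * (l * h) := by
          rw [← add_mul, ← mul_assoc]; congr 1; exact_mod_cast e
        have := hp.1
        have := hq.2.1
        have := hp.2.2.2 (by omega)
        have := hq.2.2.1 (by omega)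
        refine ⟨?_, ?_, fun _ => ?_, fun _ => ?_⟩ <;> linarith) measureReal_nonneg h1 h2) m 0
      (by omega) sym.ge (by rw [zero_add, ← hB])
    simpa only [zero_add, ← hB] using this
  have tot : (B + 1) * volume.real (A B) ≤ volume.real (Kt a t) := by
    calc _ = ∑ _j ∈ Finset.range (B + 1), volume.real (A B) := by simp
      _ ≤ ∑ j ∈ Finset.range (B + 1), volume.real (A j) :=
          Finset.sum_le_sum fun j hj => all j (by simpa [Nat.lt_succ_iff] using hj)
      _ = volume.real (⋃ j ∈ Finset.range (B + 1), A j) := by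
          have key : ∀ i j, i < j → j ≤ B → Disjoint (A i) (A j) := fun i j hij hj =>
            disjoint_left.2 fun x hx hy => by
              have h1 := hx.2.2.2.2 (by omega)
              have h2 := hy.2.1
              have : (i + 1 : ℝ) ≤ j := by exact_mod_cast hij
              nlinarith
          refine (measureReal_biUnion_finset (fun i hi j hj hij => ?_) (fun i _ =>
            hK.1.measurableSet.inter ((by fun_prop : Measurable fun x : E N => ⟪a c, x⟫) (mJ i)))
            fun i _ => fin _).symm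
          simp only [Finset.coe_range, mem_Iio] at hi hj
          rcases lt_or_gt_of_ne hij with h | h
          exacts [key i j h (by omega), (key j i h (by omega)).symm]
      _ ≤ _ := measureReal_mono (iUnion₂_subset fun j _ x hx => hx.1) hK.1.measure_ne_top
  calc _ ≤ volume.real (A 0 ∪ A B) := by
        refine measureReal_mono (fun x hx => ?_) (measure_union_ne_top (fin _) (fin _))
        have h1 := abs_le.1 (hx.1 c)
        rcases lt_abs.1 hx.2 with h2 | h2
        · refine Or.inr ⟨hx.1, ?_, ?_, fun _ => ?_, fun e => (e rfl).elim⟩ <;> linarith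
        · refine Or.inl ⟨hx.1, ?_, ?_, fun e => (e rfl).elim, fun _ => ?_⟩ <;> push_cast <;>
            linarith
    _ ≤ volume.real (A 0) + volume.real (A B) := measureReal_union_le _ _
    _ ≤ _ := by
        rw [sym, div_mul_eq_mul_div, le_div_iff₀ (by positivity)]
        linarith

theorem layer (hK : IsBody (Kt a t)) (m : ℕ) (c : Fin M) :
    volume {x | x ∈ Kt a t ∧ t c * (1 - 2 / (2 ^ m + 1)) < |⟪a c, x⟫|} ≤
      ENNReal.ofReal (2 / (2 ^ m + 1)) * volume (Kt a t) := by
  rw [← ofReal_measureReal hK.1.measure_ne_top, ← ENNReal.ofReal_mul (by positivity),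
    ← ofReal_measureReal (ne_top_of_le_ne_top hK.1.measure_ne_top (measure_mono fun x hx => hx.1))]
  exact ENNReal.ofReal_le_ofReal (layerR hK m c)

theorem Near.le (h : Near a t) (hN : 8 * M ≤ 9 * N) (c : Fin M) : t c ≤ 3 / 2 := by
  by_contra ht
  rw [not_le] at ht
  have M0 : (0 : ℝ) < M := by exact_mod_cast c.pos
  have fin := h.body.1.measure_ne_top (μ := volume)
  have V0 : 0 < volume.real (Kt a t) :=
    ENNReal.toReal_pos (Measure.measure_pos_of_nonempty_interior _ h.body.2.2).ne' fin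
  have h1 := layerR h.body 4 c
  have h2 := h.vol (Function.update t c (t c * (15 / 17)))
  have fin2 := ne_top_of_le_ne_top (ENNReal.mul_ne_top ENNReal.ofReal_ne_top fin) h2
  have h3 := ENNReal.toReal_mono (ENNReal.mul_ne_top ENNReal.ofReal_ne_top fin) h2
  have hs : ∑ c', Function.update t c (t c * (15 / 17)) c' - M = -(2 / 17 * t c) := by
    rw [Finset.sum_update_of_mem (Finset.mem_univ c), ← h.sum,
      ← Finset.add_sum_erase _ t (Finset.mem_univ c), Finset.sdiff_singleton_eq_erase]
    ring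
  rw [ENNReal.toReal_mul, ENNReal.toReal_ofReal (by positivity), hs, ← measureReal_def,
    ← measureReal_def] at h3
  have h4 : volume.real (Kt a t) ≤ volume.real (Kt a (Function.update t c (t c * (15 / 17)))) +
      volume.real {x | x ∈ Kt a t ∧ t c * (1 - 2 / (2 ^ 4 + 1)) < |⟪a c, x⟫|} := by
    refine (measureReal_mono (fun x hx => ?_) (measure_union_ne_top fin2 (ne_top_of_le_ne_top fin
      (measure_mono fun x hx => hx.1)))).trans (measureReal_union_le _ _)
    rcases le_or_gt |⟪a c, x⟫| (t c * (15 / 17)) with e | e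
    · refine Or.inl fun c' => ?_
      rcases eq_or_ne c' c with rfl | e'
      · rwa [Function.update_self]
      · rw [Function.update_of_ne e']; exact hx c'
    · exact Or.inr ⟨hx, by norm_num; exact e⟩
  have h5 : Real.exp (N / M * -(2 / 17 * t c)) ≤ 153 / 177 := by
    have e1 : (8 / 9 : ℝ) ≤ N / M := by
      rw [div_le_div_iff₀ (by norm_num) M0]
      have : (8 * M : ℝ) ≤ 9 * N := by exact_mod_cast hN
      linarith
    rw [mul_neg, Real.exp_neg, inv_le_comm₀ (Real.exp_pos _) (by norm_num)]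
    nlinarith [Real.add_one_le_exp (N / M * (2 / 17 * t c))]
  norm_num at h1 h4
  nlinarith

theorem Near.few (h : Near a t) (hN : 8 * M ≤ 9 * N) :
    ((Finset.univ.filter fun c => t c < 1 / 4).card : ℝ) ≤ 0.4 * M := by
  have : ∑ c ∈ Finset.univ.filter fun c => t c < 1 / 4, (5 / 4 : ℝ) ≤ ∑ c, (3 / 2 - t c) :=
    (Finset.sum_le_sum fun c hc => by linarith [(Finset.mem_filter.1 hc).2]).trans
      (Finset.sum_le_sum_of_subset_of_nonneg (Finset.filter_subset _ _)
        fun c _ _ => sub_nonneg.2 (h.le hN c))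
  rw [Finset.sum_sub_distrib, h.sum] at this
  simp only [Finset.sum_const, nsmul_eq_mul, Finset.card_univ, Fintype.card_fin] at this
  linarith

theorem Near.card (h : Near a t) (hN : 8 * M ≤ 9 * N) {u : ℝ} (u0 : 0 ≤ u)
    (g : Fin M → E N → ℝ≥0∞) (g1 : ∀ c x, g c x ≤ 1)
    (gu : ∀ c x, |⟪a c, x⟫| ≤ t c - 1 / 258 → g c x ≤ ENNReal.ofReal u) :
    ∑ c, ∫⁻ x in Kt a t, g c x ≤ ENNReal.ofReal ((0.416 + u) * M) * volume (Kt a t) := by
  have key : ∀ c, ∫⁻ x in Kt a t, g c x ≤
      ENNReal.ofReal ((if t c < 1 / 4 then 1 else 0) + (0.016 + u)) * volume (Kt a t) := by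
    intro c
    split_ifs with hc
    · refine (lintegral_mono fun x => (g1 c x).trans (ENNReal.one_le_ofReal.2 ?_)).trans
        (setLIntegral_const _ _).le
      linarith
    have mL : MeasurableSet {x | x ∈ Kt a t ∧ t c * (1 - 2 / (2 ^ 7 + 1)) < |⟪a c, x⟫|} :=
      (Kt_meas a t).inter (measurableSet_lt measurable_const
        (by fun_prop : Measurable fun x : E N => |⟪a c, x⟫|))
    calc _ ≤ ∫⁻ x in Kt a t, ENNReal.ofReal u +
          indicator {x | x ∈ Kt a t ∧ t c * (1 - 2 / (2 ^ 7 + 1)) < |⟪a c, x⟫|} 1 x := by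
          refine setLIntegral_mono' (Kt_meas a t) fun x hx => ?_
          by_cases e : t c * (1 - 2 / (2 ^ 7 + 1)) < |⟪a c, x⟫|
          · rw [indicator_of_mem]
            exacts [(g1 c x).trans le_add_self, ⟨hx, e⟩]
          · exact (gu c x (by norm_num at e hc ⊢; linarith)).trans le_self_add
      _ ≤ ENNReal.ofReal u * volume (Kt a t) +
          ENNReal.ofReal (2 / (2 ^ 7 + 1)) * volume (Kt a t) := by
          rw [lintegral_add_left measurable_const, setLIntegral_const, lintegral_indicator_one mL]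
          gcongr
          exact (Measure.restrict_apply_le _ _).trans (layer h.body 7 c)
      _ ≤ _ := by
          rw [← add_mul, ← ENNReal.ofReal_add u0 (by positivity)]
          exact mul_le_mul_left (ENNReal.ofReal_le_ofReal (by norm_num; linarith)) _
  refine (Finset.sum_le_sum fun c _ => key c).trans ?_
  rw [← Finset.sum_mul, ← ENNReal.ofReal_sum_of_nonneg fun c _ => by positivity]
  gcongr
  rw [Finset.sum_add_distrib, Finset.sum_boole]
  simp only [Finset.sum_const, nsmul_eq_mul, Finset.card_univ, Fintype.card_fin]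
  linarith [h.few hN]

theorem tsum_pi (f : ℕ → ℝ≥0∞) (M : ℕ) :
    ∑' j : Fin M → ℕ, ∏ c, f (j c) = (∑' i, f i) ^ M := by
  induction M with
  | zero => simp
  | succ M ih =>
    rw [← (Fin.consEquiv fun _ => ℕ).tsum_eq, ENNReal.tsum_prod', pow_succ', ← ih,
      ← ENNReal.tsum_mul_right]
    refine tsum_congr fun i => ?_
    rw [← ENNReal.tsum_mul_left]
    exact tsum_congr fun j => by simp [Fin.prod_univ_succ, Fin.consEquiv]

theorem Near.prof (h : Near a t) (hN : N ≤ M) {p lam : ℝ} (p0 : 0 ≤ p) (hl : 2 ≤ lam) :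
    ∫⁻ x, ∏ c, (if |⟪a c, x⟫| ≤ t c then 1 else
      ENNReal.ofReal (p * Real.exp (-(lam * (|⟪a c, x⟫| - t c))))) ≤
      ENNReal.ofReal (1.01 * Real.exp (5 * p * M)) * volume (Kt a t) := by
  let w : ℕ → ℝ≥0∞ := fun j => if j = 0 then 1 else ENNReal.ofReal (p * Real.exp (-(2 * (j - 1))))
  have hw : ∑' j, w j * ENNReal.ofReal (Real.exp j) ≤ ENNReal.ofReal (Real.exp (5 * p)) := by
    have hs := (hasSum_geometric_of_lt_one (r := 2 / 5) (by norm_num) (by norm_num)).mul_left (3 * p)
    rw [tsum_eq_zero_add' ENNReal.summable]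
    calc _ ≤ 1 + ∑' j : ℕ, ENNReal.ofReal (3 * p * (2 / 5) ^ j) := by
          refine add_le_add (by simp [w]) (ENNReal.tsum_le_tsum fun j => ?_)
          simp only [w, Nat.succ_ne_zero, if_false]
          rw [← ENNReal.ofReal_mul (by positivity), mul_assoc, ← Real.exp_add]
          refine ENNReal.ofReal_le_ofReal ?_
          rw [show -(2 * (((j + 1 : ℕ) : ℝ) - 1)) + (j + 1 : ℕ) = 1 + j * (-1) by push_cast; ring,
            Real.exp_add, Real.exp_nat_mul, mul_comm 3 p, mul_assoc]
          gcongr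
          · linarith [Real.exp_one_lt_d9]
          · linarith [Real.exp_neg_one_lt_d9]
      _ ≤ _ := by
          rw [← ENNReal.ofReal_tsum_of_nonneg (fun j => by positivity) hs.summable, hs.tsum_eq,
            ← ENNReal.ofReal_one, ← ENNReal.ofReal_add zero_le_one (by positivity)]
          exact ENNReal.ofReal_le_ofReal (by linarith [Real.add_one_le_exp (5 * p)])
  calc _ ≤ ∫⁻ x, ∑' j : Fin M → ℕ, (∏ c, w (j c)) * indicator (Kt a fun c => t c + j c) 1 x := by
        refine lintegral_mono fun x => le_trans ?_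
          (ENNReal.le_tsum fun c => ⌈|⟪a c, x⟫| - t c⌉₊)
        rw [indicator_of_mem (show x ∈ Kt a _ from fun c => by
          linarith [Nat.le_ceil (|⟪a c, x⟫| - t c)]), Pi.one_apply, mul_one]
        refine Finset.prod_le_prod' fun c _ => ?_
        simp only [w, Nat.ceil_eq_zero, sub_nonpos]
        split_ifs with e
        · exact le_rfl
        · have e1 : 0 ≤ |⟪a c, x⟫| - t c := by linarith
          have := Nat.ceil_lt_add_one e1
          gcongr ENNReal.ofReal (p * Real.exp ?_)
          nlinarith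
    _ = ∑' j : Fin M → ℕ, (∏ c, w (j c)) * volume (Kt a fun c => t c + j c) := by
        rw [lintegral_tsum fun j =>
          ((measurable_one.indicator (Kt_meas a _)).const_mul _).aemeasurable]
        exact tsum_congr fun j => by
          rw [lintegral_const_mul _ (measurable_one.indicator (Kt_meas a _)),
            lintegral_indicator_one (Kt_meas a _)]
    _ ≤ ∑' j : Fin M → ℕ, (∏ c, w (j c) * ENNReal.ofReal (Real.exp (j c))) *
          (ENNReal.ofReal 1.01 * volume (Kt a t)) := by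
        refine ENNReal.tsum_le_tsum fun j => ?_
        rw [Finset.prod_mul_distrib, mul_assoc, ← mul_assoc _ (ENNReal.ofReal _),
          ← ENNReal.ofReal_prod_of_nonneg fun c _ => (Real.exp_pos _).le, ← Real.exp_sum,
          ← ENNReal.ofReal_mul (Real.exp_pos _).le, mul_comm _ (1.01 : ℝ)]
        gcongr
        refine (h.vol _).trans ?_
        rw [Finset.sum_add_distrib, h.sum, add_sub_cancel_left]
        gcongr
        exact mul_le_of_le_one_left (by positivity)
          (div_le_one_of_le₀ (by exact_mod_cast hN) (by positivity))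
    _ ≤ _ := by
        rw [ENNReal.tsum_mul_right, tsum_pi fun i => w i * ENNReal.ofReal (Real.exp i),
          ← mul_assoc, mul_comm (1.01 : ℝ), ENNReal.ofReal_mul (Real.exp_pos _).le,
          mul_comm (5 * p), Real.exp_nat_mul, ENNReal.ofReal_pow (Real.exp_pos _).le]
        gcongr

end Pool.Agent.Lib.MP_fedf83_gt.U
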