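import Pool.Agent.Lib.MP_fedf83_gt.UCover
import Pool.Agent.Lib.MP_fedf83_gt.UKash
import Pool.Agent.Lib.MP_fedf83_gt.UProf

/-! Signed families of vectors, the soft walls `uu`, `al` and sums over subsets. -/

namespace Pool.Agent.Lib.MP_fedf83_gt.UK

open MeasureTheory Set Pool.Agent.Lib.MP_fedf83_gt.B
open scoped ENNReal RealInnerProductSpace

variable {M N m : ℕ}

theorem exists_orth (a : Fin M → E N) (J : Finset (Fin M)) (h : J.card + m ≤ N) :
    ∃ b : Fin m → E N, Orthonormal ℝ b ∧ ∀ c ∈ J, ∀ i, ⟪a c, b i⟫ = 0 := by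
  classical
  set V := Submodule.span ℝ ((J.image a : Finset (E N)) : Set (E N)) with hV
  have h1 : Module.finrank ℝ V ≤ J.card :=
    (finrank_span_finset_le_card _).trans Finset.card_image_le
  have h2 := V.finrank_add_finrank_orthogonal
  rw [finrank_euclideanSpace_fin] at h2
  have h3 : m ≤ Module.finrank ℝ Vᗮ := by omega
  refine ⟨fun i => (stdOrthonormalBasis ℝ Vᗮ (Fin.castLE h3 i) : E N), ?_, fun c hc i => ?_⟩
  · exact (Vᗮ.subtypeₗᵢ.orthonormal_comp_iff.2 (stdOrthonormalBasis ℝ Vᗮ).orthonormal).comp _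
      (Fin.castLE_injective h3)
  · exact Submodule.inner_right_of_mem_orthogonal
      (Submodule.subset_span (Finset.mem_coe.2 (Finset.mem_image_of_mem a hc))) (SetLike.coe_mem _)

/-- The vectors `± η • b i`. -/
noncomputable def st (b : Fin m → E N) (η : ℝ) (s : Fin m × Bool) : E N :=
  (if s.2 then η else -η) • b s.1

theorem st_norm (b : Fin m → E N) (η : ℝ) (s : Fin m × Bool) :
    ‖st b η s‖ ^ 2 = η ^ 2 * ‖b s.1‖ ^ 2 := by
  rw [st, norm_smul, mul_pow, Real.norm_eq_abs, sq_abs]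
  split_ifs <;> ring

theorem st_sum (b : Fin m → E N) (η : ℝ) : ∑ s, st b η s = 0 := by
  simp [st, Fintype.sum_prod_type]

theorem st_sq (b : Fin m → E N) (η : ℝ) (z : E N) :
    ∑ s, ⟪st b η s, z⟫ ^ 2 = 2 * η ^ 2 * ∑ i, ⟪b i, z⟫ ^ 2 := by
  simp only [st, Fintype.sum_prod_type, Fintype.sum_bool, real_inner_smul_left, Finset.mul_sum,
    if_true, Bool.false_eq_true, if_false]
  exact Finset.sum_congr rfl fun i _ => by ring

theorem st_smul (b : Fin m → E N) (η τ : ℝ) : (fun s => τ • st b η s) = st b (τ * η) := by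
  funext s
  simp only [st, smul_smul]
  split_ifs <;> simp

theorem st_bessel {b : Fin m → E N} (hb : Orthonormal ℝ b) {η e : ℝ} (he : η ^ 2 ≤ e) (W : E N) :
    1 / (2 * m : ℝ) * ∑ s, ⟪W, st b η s⟫ ^ 2 ≤ e / m * ‖W‖ ^ 2 := by
  have h1 := hb.sum_inner_products_le W (s := Finset.univ)
  simp only [Real.norm_eq_abs, sq_abs] at h1
  simp only [real_inner_comm (st b η _) W, st_sq]
  have h0 : 0 ≤ ∑ i, ⟪b i, W⟫ ^ 2 := Finset.sum_nonneg fun _ _ => sq_nonneg _
  calc _ = η ^ 2 / m * ∑ i, ⟪b i, W⟫ ^ 2 := by ring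
    _ ≤ _ := by
      have : 0 ≤ e := (sq_nonneg _).trans he
      gcongr

theorem st_card (m0 : 0 < m) : 1 / (2 * m : ℝ) * Fintype.card (Fin m × Bool) = 1 := by
  have : (0 : ℝ) < m := by exact_mod_cast m0
  simp only [Fintype.card_prod, Fintype.card_fin, Fintype.card_bool]
  push_cast
  field_simp

/-- The height of the soft wall number `c`. -/
noncomputable def uu (a : Fin M → E N) (t : Fin M → ℝ) (β κ : ℝ) (c : Fin M) (x : E N) : ℝ :=
  ∑ b : Bool, β * Real.exp (-(κ * t c)) * Real.exp ⟪st a κ (c, b), x⟫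

/-- The part of the slab number `c` that the soft wall misses. -/
noncomputable def al (a : Fin M → E N) (t : Fin M → ℝ) (β κ : ℝ) (c : Fin M) (x : E N) : ℝ :=
  if |⟪a c, x⟫| ≤ t c then 1 - Real.exp (-uu a t β κ c x) else 0

variable {a : Fin M → E N} {t : Fin M → ℝ} {β κ : ℝ}

theorem uu_eq (c : Fin M) (x : E N) : uu a t β κ c x =
    β * (Real.exp (κ * (⟪a c, x⟫ - t c)) + Real.exp (κ * (-⟪a c, x⟫ - t c))) := by
  simp only [uu, st, Fintype.sum_bool, real_inner_smul_left, if_true, Bool.false_eq_true, if_false,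
    mul_assoc, ← Real.exp_add, mul_add]
  congr 3 <;> ring

theorem uu_nn (β0 : 0 ≤ β) (c : Fin M) (x : E N) : 0 ≤ uu a t β κ c x := by
  rw [uu_eq]; positivity

theorem uu_le (β0 : 0 ≤ β) (κ0 : 0 ≤ κ) (c : Fin M) (x : E N) :
    uu a t β κ c x ≤ 2 * β * Real.exp (κ * (|⟪a c, x⟫| - t c)) := by
  have h1 : Real.exp (κ * (⟪a c, x⟫ - t c)) ≤ Real.exp (κ * (|⟪a c, x⟫| - t c)) := by
    gcongr; exact le_abs_self _
  have h2 : Real.exp (κ * (-⟪a c, x⟫ - t c)) ≤ Real.exp (κ * (|⟪a c, x⟫| - t c)) := by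
    gcongr; exact neg_le_abs _
  rw [uu_eq]
  nlinarith [mul_le_mul_of_nonneg_left (add_le_add h1 h2) β0]

theorem uu_ge (β0 : 0 ≤ β) (c : Fin M) (x : E N) :
    β * (κ * (|⟪a c, x⟫| - t c) + 1) ≤ uu a t β κ c x := by
  rw [uu_eq]
  refine mul_le_mul_of_nonneg_left ((Real.add_one_le_exp _).trans ?_) β0
  have h1 := Real.exp_pos (κ * (⟪a c, x⟫ - t c))
  have h2 := Real.exp_pos (κ * (-⟪a c, x⟫ - t c))
  rcases abs_choice ⟪a c, x⟫ with h | h <;> rw [h] <;> linarith

theorem uu_in (β0 : 0 ≤ β) (κ0 : 0 ≤ κ) {c : Fin M} {x : E N} (h : |⟪a c, x⟫| ≤ t c) :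
    uu a t β κ c x ≤ 2 * β := by
  refine (uu_le β0 κ0 c x).trans (mul_le_of_le_one_right (by positivity) ?_)
  exact Real.exp_le_one_iff.2 (mul_nonpos_of_nonneg_of_nonpos κ0 (by linarith))

theorem uu_meas (c : Fin M) : Measurable (uu a t β κ c) := by
  unfold uu
  fun_prop

theorem in_meas (c : Fin M) : MeasurableSet {x : E N | |⟪a c, x⟫| ≤ t c} :=
  measurableSet_le (by fun_prop) (by fun_prop)

theorem al_meas (c : Fin M) : Measurable (al a t β κ c) := by
  have := uu_meas (a := a) (t := t) (β := β) (κ := κ) c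
  exact Measurable.ite (in_meas c) (by fun_prop) measurable_const

theorem al_nn (β0 : 0 ≤ β) (c : Fin M) (x : E N) : 0 ≤ al a t β κ c x := by
  unfold al
  split_ifs
  · exact sub_nonneg.2 (Real.exp_le_one_iff.2 (neg_nonpos.2 (uu_nn β0 c x)))
  · exact le_rfl

theorem al_le_one (c : Fin M) (x : E N) : al a t β κ c x ≤ 1 := by
  unfold al
  split_ifs
  · linarith [Real.exp_pos (-uu a t β κ c x)]
  · exact zero_le_one

theorem al_le (β0 : 0 ≤ β) (c : Fin M) (x : E N) : al a t β κ c x ≤ uu a t β κ c x := by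
  unfold al
  split_ifs
  · linarith [Real.add_one_le_exp (-uu a t β κ c x)]
  · exact uu_nn β0 c x

theorem al_add {c : Fin M} (x : E N) {v : E N} (h : ⟪a c, v⟫ = 0) :
    al a t β κ c (x + v) = al a t β κ c x := by
  simp only [al, uu_eq, inner_add_right, h, add_zero]

theorem good_mass {ι : Type} [Fintype ι] [DecidableEq ι] {α γ : ι → ℝ} (α0 : ∀ c, 0 ≤ α c)
    (γ0 : ∀ c, 0 ≤ γ c) (h : ∀ c, α c + γ c = 1) {B : ℕ} (B0 : 0 < B) :
    1 ≤ ∑ J : Finset ι, (if J.card ≤ B then 1 else 0) * ((∏ c ∈ J, α c) * ∏ c ∈ Jᶜ, γ c) +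
      ∑ c, α c / B := by
  have Bp : (0 : ℝ) < B := by exact_mod_cast B0
  have p0 : ∀ J : Finset ι, 0 ≤ (∏ c ∈ J, α c) * ∏ c ∈ Jᶜ, γ c := fun J =>
    mul_nonneg (Finset.prod_nonneg fun c _ => α0 c) (Finset.prod_nonneg fun c _ => γ0 c)
  have h1 : ∑ J : Finset ι, (∏ c ∈ J, α c) * ∏ c ∈ Jᶜ, γ c = 1 := by
    rw [← Fintype.prod_add]
    simp [h]
  have h2 : ∀ d, ∑ J : Finset ι, (if d ∈ J then 1 else 0) * ((∏ c ∈ J, α c) * ∏ c ∈ Jᶜ, γ c) = α d := by
    intro d
    have e1 : ∏ c, (α c + if c = d then 0 else γ c) = α d := by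
      rw [Finset.prod_eq_single d (fun c _ hc => by rw [if_neg hc, h]) (by simp)]
      simp
    rw [← e1, Fintype.prod_add]
    refine Finset.sum_congr rfl fun J _ => ?_
    split_ifs with hd
    · rw [one_mul]
      congr 1
      refine Finset.prod_congr rfl fun c hc => (if_neg ?_).symm
      rintro rfl
      exact Finset.mem_compl.1 hc hd
    · rw [zero_mul, Finset.prod_eq_zero (f := fun c => if c = d then 0 else γ c)
        (Finset.mem_compl.2 hd) (if_pos rfl), mul_zero]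
  rw [Finset.sum_congr rfl fun d _ => congrArg (· / (B : ℝ)) (h2 d).symm]
  simp only [Finset.sum_div]
  rw [Finset.sum_comm, ← Finset.sum_add_distrib]
  refine h1.symm.le.trans (Finset.sum_le_sum fun J _ => ?_)
  rw [← Finset.sum_div, ← Finset.sum_mul]
  have e2 : ∑ d, (if d ∈ J then (1 : ℝ) else 0) = J.card := by simp
  rw [e2]
  split_ifs with hJ
  · have : 0 ≤ J.card * ((∏ c ∈ J, α c) * ∏ c ∈ Jᶜ, γ c) / B := by have := p0 J; positivity
    linarith
  · rw [zero_mul, zero_add, le_div_iff₀ Bp, mul_comm]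
    exact mul_le_mul_of_nonneg_right (by exact_mod_cast (not_le.1 hJ).le) (p0 J)

theorem dom {J : Type} [Fintype J] {f : J → E N → ℝ} {D : E N → ℝ} (iD : Integrable D)
    (mf : ∀ j, Measurable (f j)) (f0 : ∀ j x, 0 ≤ f j x) (h : ∀ x, ∑ j, f j x ≤ D x) :
    (∀ j, Integrable (f j)) ∧ ∑ j, ∫ x, f j x ≤ ∫ x, D x := by
  have i : ∀ j, Integrable (f j) := fun j => iD.mono' (mf j).aestronglyMeasurable
    (ae_of_all _ fun x => by
      rw [Real.norm_of_nonneg (f0 j x)]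
      exact (Finset.single_le_sum (fun j _ => f0 j x) (Finset.mem_univ j)).trans (h x))
  refine ⟨i, ?_⟩
  rw [← integral_finsetSum _ fun j _ => i j]
  exact integral_mono (integrable_finsetSum _ fun j _ => i j) iD h

end Pool.Agent.Lib.MP_fedf83_gt.UK
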