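import Pool.Agent.Lib.MP_fedf83_gt.KFlat
import Pool.Agent.Lib.MP_fedf83_gt.PGau
import Pool.Agent.Lib.MP_fedf83_gt.UFam

/-! Exact Gaussian deconvolution for the nearly maximal slab bodies. -/

namespace Pool.Agent.Lib.MP_fedf83_gt.KD

open MeasureTheory Set Module Pool.Agent.Lib.MP_fedf83_gt.B Pool.Agent.Lib.MP_fedf83_gt.P
  Pool.Agent.Lib.MP_fedf83_gt.U Pool.Agent.Lib.MP_fedf83_gt.FL
open scoped ENNReal RealInnerProductSpace

variable {m M N : ℕ}

theorem gam_lint {f : E M → ℝ≥0∞} (hf : Measurable f) :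
    ∫⁻ g, f g ∂gam M = ∫⁻ g, ENNReal.ofReal (ph g / ZG M) * f g := by
  rw [gam, lintegral_withDensity_eq_lintegral_mul _
    (continuous_ph.measurable.div_const _).ennreal_ofReal hf]
  rfl

theorem gam_half (r : E M) :
    gam M {g | ‖r‖ ^ 2 ≤ ⟪g, r⟫} ≤ ENNReal.ofReal (Real.exp (-(‖r‖ ^ 2 / 2))) := by
  have hm : MeasurableSet {g : E M | ‖r‖ ^ 2 ≤ ⟪g, r⟫} := measurableSet_le (by fun_prop) (by fun_prop)
  calc _ ≤ ∫⁻ g, ENNReal.ofReal (Real.exp (-(‖r‖ ^ 2 / 2)) * ee r g) ∂gam M := by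
        rw [← lintegral_indicator_one hm]
        refine lintegral_mono (indicator_le' (fun g hg => ?_) fun _ _ => zero_le)
        rw [Pi.one_apply, ENNReal.one_le_ofReal, ee, ← Real.exp_add, Real.one_le_exp_iff]
        have : ‖r‖ ^ 2 ≤ ⟪g, r⟫ := hg
        linarith
    _ = _ := by
        rw [← ofReal_integral_eq_lintegral_ofReal ((gr_ee r).int.const_mul _)
          (ae_of_all _ fun g => (mul_pos (Real.exp_pos _) (ee_pos r g)).le), integral_const_mul,
          gam_ee, mul_one]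

theorem gam_coord (c : Fin M) {ρ : ℝ} (h : 0 ≤ ρ) :
    gam M {g | ρ ≤ |g c|} ≤ ENNReal.ofReal (2 * Real.exp (-(ρ ^ 2 / 2))) := by
  have k : ∀ σ : ℝ, gam M {g | σ ^ 2 ≤ σ * g c} ≤ ENNReal.ofReal (Real.exp (-(σ ^ 2 / 2))) :=
    fun σ => by
      have := gam_half (EuclideanSpace.single c σ)
      simpa only [PiLp.norm_single, Real.norm_eq_abs, sq_abs,
        EuclideanSpace.inner_single_right, conj_trivial] using this
  have s : {g : E M | ρ ≤ |g c|} ⊆ {g | ρ ^ 2 ≤ ρ * g c} ∪ {g | (-ρ) ^ 2 ≤ -ρ * g c} := fun g hg => by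
    rcases le_abs.1 (show ρ ≤ |g c| from hg) with e | e
    · left; change ρ ^ 2 ≤ ρ * g c; nlinarith
    · right; change (-ρ) ^ 2 ≤ -ρ * g c; nlinarith
  refine (measure_mono s).trans ((measure_union_le _ _).trans ?_)
  rw [two_mul, ENNReal.ofReal_add (Real.exp_pos _).le (Real.exp_pos _).le]
  exact add_le_add (k ρ) ((k (-ρ)).trans_eq (by rw [neg_sq]))

/-- The Gaussian splits along a frame. -/
theorem gam_split (U : Fr m M) : ∃ ν : Measure (E M), IsProbabilityMeasure ν ∧
    ∀ f : E M → ℝ≥0∞, Measurable f → ∫⁻ g, f g ∂gam M = ∫⁻ v, ∫⁻ y, f (y + U v) ∂ν ∂gam m := by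
  let d : base U → ℝ≥0∞ := fun y => ENNReal.ofReal (ph (y : E M) * ZG m / ZG M)
  have hd : Measurable d :=
    (((continuous_ph.comp continuous_subtype_val).measurable.mul_const _).div_const _).ennreal_ofReal
  have hU := U.continuous.measurable
  have key : ∀ f : E M → ℝ≥0∞, Measurable f → ∫⁻ g, f g ∂gam M =
      ∫⁻ v, ∫⁻ y, f (y + U v) ∂(volume.withDensity d).map Subtype.val ∂gam m := fun f hf => by
    have m1 : Measurable fun g : E M => ENNReal.ofReal (ph g / ZG M) :=
      (continuous_ph.measurable.div_const _).ennreal_ofReal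
    rw [gam_lint hf, fub U (f := fun g => ENNReal.ofReal (ph g / ZG M) * f g) (m1.mul hf), lintegral_lintegral_swap (by fun_prop),
      gam_lint (Measurable.lintegral_prod_right' (f := fun p : E m × E M => f (p.2 + U p.1))
        (by fun_prop))]
    refine lintegral_congr fun v => ?_
    rw [lintegral_map (by fun_prop) measurable_subtype_coe,
      lintegral_withDensity_eq_lintegral_mul _ hd (by fun_prop), ← lintegral_const_mul _ (by fun_prop)]
    refine lintegral_congr fun y => ?_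
    rw [Pi.mul_apply, ← mul_assoc, ← ENNReal.ofReal_mul (div_pos (ph_pos _) (ZG_pos _)).le]
    congr 2
    have o : ⟪(y : E M), U v⟫ = 0 := (Submodule.mem_orthogonal' _ _).1 y.2 _ ⟨v, rfl⟩
    have := (ZG_pos m).ne'
    have := (ZG_pos M).ne'
    rw [ph, norm_add_sq_real, o, U.norm_map, show -((‖(y : E M)‖ ^ 2 + 2 * 0 + ‖v‖ ^ 2) / 2) =
      -(‖(y : E M)‖ ^ 2 / 2) + -(‖v‖ ^ 2 / 2) by ring, Real.exp_add, ph, ph]
    field_simp
  refine ⟨_, ⟨?_⟩, key⟩
  simpa using (key 1 measurable_one).symm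

/-- A frame inside the image of the directions that the slabs in `J` do not see. -/
theorem exists_lift {a : Fin M → E N} (ha : ∀ d, (∀ c, ⟪a c, d⟫ = 0) → d = 0) (J : Finset (Fin M))
    (h : J.card + m ≤ N) : ∃ (R : E m →L[ℝ] E N) (U : Fr m M),
      (∀ z c, U z c = ⟪a c, R z⟫) ∧ ∀ z, ∀ c ∈ J, ⟪a c, R z⟫ = 0 := by
  obtain ⟨b, hb, hJ⟩ := UK.exists_orth a J h
  let B : E m →ₗ[ℝ] E N := (EuclideanSpace.basisFun (Fin m) ℝ).toBasis.constr ℝ b
  have B1 : ∀ z, B z = ∑ i, z i • b i := fun z => by simp [B, Basis.constr_apply_fintype]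
  have B2 : Function.Injective ((UK.rows a).toLinearMap ∘ₗ B) := by
    refine (injective_iff_map_eq_zero _).2 fun z hz => ?_
    have := ha (B z) fun c => congrArg (fun x : E M => x c) hz
    rw [B1] at this
    ext i
    exact Fintype.linearIndependent_iff.1 hb.linearIndependent _ this i
  obtain ⟨U, hU⟩ := exists_range (k := m) (LinearMap.range ((UK.rows a).toLinearMap ∘ₗ B))
    (by rw [LinearMap.finrank_range_of_inj B2]; simp)
  obtain ⟨Q, hQ⟩ : ∃ Q : E m →ₗ[ℝ] E m, ((UK.rows a).toLinearMap ∘ₗ B) ∘ₗ Q = U.toLinearMap := by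
    choose q hq using fun i => (hU.le ⟨EuclideanSpace.basisFun (Fin m) ℝ i, rfl⟩ :)
    refine ⟨(EuclideanSpace.basisFun (Fin m) ℝ).toBasis.constr ℝ q,
      (EuclideanSpace.basisFun (Fin m) ℝ).toBasis.ext fun i => ?_⟩
    rw [LinearMap.comp_apply, Basis.constr_basis, hq]
    rfl
  refine ⟨LinearMap.toContinuousLinearMap (B ∘ₗ Q), U, fun z c => ?_, fun z c hc => ?_⟩
  · exact (congrArg (fun x : E M => x c) (LinearMap.congr_fun hQ z)).symm
  · change ⟪a c, B (Q z)⟫ = 0
    rw [B1, _root_.inner_sum]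
    exact Finset.sum_eq_zero fun i _ => by rw [real_inner_smul_right, hJ c hc, mul_zero]

/-- `J` is the set of the narrowed slabs that the shifted point leaves. -/
def D (a : Fin M → E N) (t : Fin M → ℝ) (s : ℝ) (J : Finset (Fin M)) : Set (E N × E M) :=
  {p | (∀ c ∈ J, |⟪a c, p.1⟫| ≤ t c) ∧ ∀ c, c ∈ J ↔ t c - 1 / 516 < |⟪a c, p.1⟫ - s * p.2 c|}

variable {a : Fin M → E N} {t : Fin M → ℝ} {s : ℝ}

theorem out_meas (c : Fin M) :
    MeasurableSet {p : E N × E M | t c - 1 / 516 < |⟪a c, p.1⟫ - s * p.2 c|} :=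
  measurableSet_lt (by fun_prop) (by fun_prop)

theorem D_meas (J : Finset (Fin M)) : MeasurableSet (D a t s J) :=
  measurableSet_setOfPred.2 ((Measurable.forall fun c => measurable_const.imp (measurableSet_setOfPred.1
    (measurableSet_le (by fun_prop) (by fun_prop)))).and
    (Measurable.forall fun c => measurable_const.iff (measurableSet_setOfPred.1 (out_meas c))))

theorem D_sum (k : ℕ) (x : E N) : ∑ J : {J : Finset (Fin M) // J.card ≤ k},
    gam M (Prod.mk x ⁻¹' D a t s J) =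
      gam M (⋃ J : {J : Finset (Fin M) // J.card ≤ k}, Prod.mk x ⁻¹' D a t s J) := by
  rw [measure_iUnion _ fun J => measurable_prodMk_left (D_meas _), tsum_fintype]
  exact fun J J' h => Set.disjoint_left.2 fun g h1 h2 =>
    h (Subtype.ext (Finset.ext fun c => (h1.2 c).trans (h2.2 c).symm))

theorem D_up (s0 : 0 < s) (k : ℕ) (x : E N) : ∑ J : {J : Finset (Fin M) // J.card ≤ k},
    gam M (Prod.mk x ⁻¹' D a t s J) ≤ ∏ c, (if |⟪a c, x⟫| ≤ t c then 1 else ENNReal.ofReal
      (Real.exp (-((1 / 516 / s) ^ 2 / 2)) * Real.exp (-(1 / 516 / s ^ 2 * (|⟪a c, x⟫| - t c))))) := by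
  let r : E M := WithLp.toLp 2 fun c => if |⟪a c, x⟫| ≤ t c then 0 else
    (if 0 ≤ ⟪a c, x⟫ then 1 else -1) * ((|⟪a c, x⟫| - t c + 1 / 516) / s)
  rw [D_sum]
  refine (measure_mono ?_).trans ((gam_half r).trans ?_)
  · refine iUnion_subset fun J g hg => ?_
    change ‖r‖ ^ 2 ≤ ⟪g, r⟫
    rw [EuclideanSpace.real_norm_sq_eq, PiLp.inner_apply]
    refine Finset.sum_le_sum fun c _ => ?_
    simp only [r, RCLike.inner_apply, conj_trivial]
    split_ifs with h1 h2
    · simp
    all_goals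
      have h3 := abs_le.1 (not_lt.1 fun e => h1 (hg.1 c ((hg.2 c).2 e)))
      have h4 : 0 ≤ (|⟪a c, x⟫| - t c + 1 / 516) / s := div_nonneg (by linarith) s0.le
      have h5 := mul_div_cancel₀ (|⟪a c, x⟫| - t c + 1 / 516) s0.ne'
      dsimp only at h3
      generalize (|⟪a c, x⟫| - t c + 1 / 516) / s = ρ at *
    · rw [abs_of_nonneg h2] at h5
      have : ρ ≤ g c := le_of_mul_le_mul_left (by linarith) s0
      nlinarith
    · rw [abs_of_neg (not_le.1 h2)] at h5
      have : ρ ≤ -g c := le_of_mul_le_mul_left (by linarith) s0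
      nlinarith
  · rw [EuclideanSpace.real_norm_sq_eq, Finset.sum_div, ← Finset.sum_neg_distrib, Real.exp_sum,
      ENNReal.ofReal_prod_of_nonneg fun c _ => (Real.exp_pos _).le]
    refine Finset.prod_le_prod' fun c _ => ?_
    simp only [r]
    by_cases h1 : |⟪a c, x⟫| ≤ t c
    · simp [h1]
    · rw [if_neg h1, if_neg h1, ← Real.exp_add, mul_pow,
        show (if 0 ≤ ⟪a c, x⟫ then (1 : ℝ) else -1) ^ 2 = 1 by split_ifs <;> norm_num]
      refine ENNReal.ofReal_le_ofReal (Real.exp_le_exp.2 ?_)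
      generalize |⟪a c, x⟫| - t c = u
      rw [div_pow, div_pow _ s, ← sub_nonneg]
      refine le_of_le_of_eq (by positivity : 0 ≤ u ^ 2 / s ^ 2 / 2) ?_
      field_simp
      ring

theorem D_low (k : ℕ) {x : E N} (hx : x ∈ Kt a t) :
    (k : ℝ≥0∞) ≤ k * min 1 (∑ J : {J : Finset (Fin M) // J.card ≤ k},
      gam M (Prod.mk x ⁻¹' D a t s J)) +
      ∑ c, gam M {g | t c - 1 / 516 < |⟪a c, x⟫ - s * g c|} := by
  have m1 : ∀ c, MeasurableSet {g : E M | t c - 1 / 516 < |⟪a c, x⟫ - s * g c|} := fun c =>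
    measurable_prodMk_left (out_meas c)
  have h1 := mul_meas_ge_le_lintegral (μ := gam M) (f := fun g =>
    ∑ c, indicator {g : E M | t c - 1 / 516 < |⟪a c, x⟫ - s * g c|} 1 g)
    (Finset.measurable_sum _ fun c _ => measurable_one.indicator (m1 c)) k
  rw [lintegral_finsetSum _ fun c _ => measurable_one.indicator (m1 c)] at h1
  simp only [lintegral_indicator_one (m1 _)] at h1
  refine le_trans ?_ (add_le_add_right h1 _)
  rw [← mul_add, D_sum, min_eq_right prob_le_one]
  refine le_mul_of_one_le_right' (((measure_univ (μ := gam M)).symm.le.trans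
    (measure_mono fun g _ => ?_)).trans (measure_union_le _ _))
  set J := Finset.univ.filter fun c => t c - 1 / 516 < |⟪a c, x⟫ - s * g c| with hJ
  rcases le_total J.card k with h | h
  · exact Or.inl (mem_iUnion.2 ⟨⟨J, h⟩, fun c _ => hx c, fun c => by simp [hJ]⟩)
  · refine Or.inr ?_
    simp only [mem_ofPred_eq, indicator_apply, Pi.one_apply, Finset.sum_boole]
    exact_mod_cast h

theorem indicator_one_inj' {X Y : Type} {S : Set X} {T : Set Y} {x : X} {y : Y}
    (h : x ∈ S ↔ y ∈ T) : S.indicator (1 : X → ℝ≥0∞) x = T.indicator 1 y := by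
  by_cases hx : x ∈ S
  · rw [indicator_of_mem hx, indicator_of_mem (h.1 hx)]; rfl
  · rw [indicator_of_notMem hx, indicator_of_notMem (mt h.2 hx)]

theorem Near.inj (h : Near a t) (d : E N) (hd : ∀ c, ⟪a c, d⟫ = 0) : d = 0 := by
  obtain ⟨R, hR⟩ := h.body.1.isBounded.exists_norm_le
  by_contra h0
  have := hR (((|R| + 1) / ‖d‖) • d) fun c => by simp [inner_smul_right, hd, h.nn c]
  rw [norm_smul, Real.norm_of_nonneg (by positivity), div_mul_cancel₀ _ (norm_ne_zero_iff.2 h0)]
    at this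
  linarith [le_abs_self R]

theorem deconv : ∃ c : ℝ, 0 < c ∧ ∀ h : ℕ, 1 ≤ h →
    ∀ (a : Fin (9 * h) → E (8 * h)) (t : Fin (9 * h) → ℝ), Near a t →
      (∀ d : E (8 * h), ∑ c, ⟪a c, d⟫ ^ 2 ≤ 221 * ‖d‖ ^ 2) →
      ∃ (ι : Type) (_ : Fintype ι) (A : ι → E (2 * h) →L[ℝ] E (8 * h))
        (G : ι → E (8 * h) → ℝ≥0∞), (∀ i z, c / √(1 + Real.log h) * ‖z‖ ≤ ‖A i z‖) ∧
        (∀ i, Measurable (G i)) ∧ (∀ i x, G i x ≤ 1) ∧
        ∑ i, ∫⁻ x, G i x ≤ 2 * volume (Kt a t) ∧ ENNReal.ofReal (1 / 3) * volume (Kt a t) ≤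
          ∫⁻ x in Kt a t, min 1 (∑ i, ∫⁻ η, G i (x + A i η) ∂gam (2 * h)) := by
  refine ⟨1 / (15 * 516 * 4), by norm_num, fun h h1 a t hN ha => ?_⟩
  have h2 : (1 : ℝ) ≤ h := by exact_mod_cast h1
  have l0 := Real.log_nonneg h2
  obtain ⟨L, hL⟩ : ∃ L, L = √(1 + Real.log h) := ⟨_, rfl⟩
  have L1 : 1 ≤ L := hL ▸ Real.one_le_sqrt.2 (by linarith)
  have L2 : L ^ 2 = 1 + Real.log h := hL ▸ Real.sq_sqrt (by linarith)
  obtain ⟨s, hs⟩ : ∃ s, s = 1 / (516 * 4 * L) := ⟨_, rfl⟩
  have s0 : 0 < s := hs ▸ by positivity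
  have e1 : 1 / 516 / s = 4 * L := by rw [hs]; field_simp
  have e2 : Real.exp (-((1 / 516 / s) ^ 2 / 2)) * h ≤ 1 / 256 := by
    rw [e1, mul_pow, L2, ← Real.exp_log (by linarith : (0 : ℝ) < h), ← Real.exp_add, Real.log_exp]
    calc _ ≤ Real.exp ((8 : ℕ) * -1) := Real.exp_le_exp.2 (by push_cast; linarith)
      _ ≤ (1 / 2) ^ 8 := by
        rw [Real.exp_nat_mul]; gcongr; linarith [Real.exp_neg_one_lt_d9]
      _ = _ := by norm_num
  choose R U R1 R2 using fun J : {J : Finset (Fin (9 * h)) // J.card ≤ 6 * h} =>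
    exists_lift (m := 2 * h) (Near.inj hN) J.1 (by have := J.2; omega)
  choose ν ν1 ν2 using fun J => gam_split (U J)
  have Gm : ∀ J, Measurable fun x => ν J (Prod.mk x ⁻¹' D a t s J.1) := fun J =>
    measurable_measure_prodMk_left (D_meas _)
  have key : ∀ J x, ∫⁻ η, ν J (Prod.mk (x + (-s • R J) η) ⁻¹' D a t s J.1) ∂gam (2 * h) =
      gam _ (Prod.mk x ⁻¹' D a t s J.1) := fun J x => by
    have m1 := measurable_prodMk_left (m := inferInstance) (x := x) (D_meas (a := a) (t := t) (s := s) J.1)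
    rw [← lintegral_indicator_one m1, ν2 J _ (measurable_one.indicator m1)]
    refine lintegral_congr fun η => ?_
    rw [← lintegral_indicator_one (measurable_prodMk_left (D_meas _))]
    refine lintegral_congr fun y => ?_
    have e3 : ∀ c, ⟪a c, x + (-s • R J) η⟫ = ⟪a c, x⟫ - s * ⟪a c, R J η⟫ := fun c => by
      rw [inner_add_right, _root_.smul_apply, real_inner_smul_right]; ring
    refine (indicator_one_inj' (and_congr (forall₂_congr fun c hc => ?_)
      (forall_congr' fun c => ?_)))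
    · simp only [e3, R2 J η c hc, mul_zero, sub_zero]
    · simp only [e3, PiLp.add_apply, R1, mul_add, sub_sub, add_comm]
  rw [← hL]
  refine ⟨_, inferInstance, fun J => -s • R J, fun J x => ν J (Prod.mk x ⁻¹' D a t s J.1),
    fun J z => ?_, Gm, fun J x => prob_le_one, ?_, ?_⟩
  · have e3 : ‖z‖ ≤ 15 * ‖R J z‖ := by
      refine le_of_sq_le_sq ?_ (by positivity)
      rw [← (U J).norm_map, EuclideanSpace.real_norm_sq_eq]
      simp only [R1]
      nlinarith [ha (R J z)]
    rw [_root_.smul_apply, norm_smul, norm_neg, Real.norm_of_nonneg s0.le]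
    calc _ = s / 15 * ‖z‖ := by rw [hs]; field_simp
      _ ≤ _ := by nlinarith
  · have e3 : ∀ J, ∫⁻ x, ν J (Prod.mk x ⁻¹' D a t s J.1) =
        ∫⁻ x, gam _ (Prod.mk x ⁻¹' D a t s J.1) := fun J => by
      simp only [← key]
      rw [lintegral_lintegral_swap (f := fun x η => ν J (Prod.mk (x + (-s • R J) η) ⁻¹' D a t s J.1))
        ((Gm J).comp (f := fun p : E (8 * h) × E (2 * h) => p.1 + (-s • R J) p.2)
          (by fun_prop)).aemeasurable]
      simp only [lintegral_add_right_eq_self fun x => ν J (Prod.mk x ⁻¹' D a t s J.1),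
        lintegral_const, measure_univ, mul_one]
    simp only [e3]
    rw [← lintegral_finsetSum _ fun J _ => measurable_measure_prodMk_left (D_meas _)]
    refine (lintegral_mono fun x => D_up s0 _ x).trans ((hN.prof (by omega) (Real.exp_pos _).le
      ?_).trans (mul_le_mul_left ?_ _))
    · rw [sq, ← div_div, e1, hs, div_div_eq_mul_div, div_one]
      nlinarith
    · rw [← ENNReal.ofReal_ofNat 2]
      refine ENNReal.ofReal_le_ofReal ?_
      have := Real.exp_bound_div_one_sub_of_interval (x := 1 / 5) (by norm_num) (by norm_num)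
      have : Real.exp (5 * Real.exp (-((1 / 516 / s) ^ 2 / 2)) * (9 * h : ℕ)) ≤ Real.exp (1 / 5) :=
        Real.exp_le_exp.2 (by push_cast; linarith)
      linarith
  · simp only [key]
    have e3 := hN.card (by omega) (u := 1 / 128) (by norm_num)
      (fun c x => gam _ {g | t c - 1 / 516 < |⟪a c, x⟫ - s * g c|}) (fun c x => prob_le_one)
      fun c x hx => (measure_mono fun g hg => ?_).trans ((gam_coord c (ρ := 1 / 516 / s)
        (by positivity)).trans (ENNReal.ofReal_le_ofReal (by nlinarith [Real.exp_pos (-((1 / 516 / s) ^ 2 / 2))])))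
    · have gm : ∀ c, Measurable fun x : E (8 * h) =>
          gam _ {g | t c - 1 / 516 < |⟪a c, x⟫ - s * g c|} := fun c =>
        measurable_measure_prodMk_left (out_meas c)
      have e4 := setLIntegral_mono' (μ := volume) (Kt_meas a t) fun x hx =>
        D_low (s := s) (6 * h) hx
      have fin := hN.body.1.measure_ne_top (μ := volume)
      rw [setLIntegral_const, lintegral_add_right _ (Finset.measurable_sum _ fun c _ => gm c),
        lintegral_const_mul' _ _ (ENNReal.natCast_ne_top _),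
        lintegral_finsetSum _ fun c _ => gm c] at e4
      have e5 := e4.trans (add_le_add_right (e3.trans (mul_le_mul_left
        (ENNReal.ofReal_le_ofReal (q := 4 * h) (by push_cast; linarith)) _)) _)
      have e6 : ((6 * h : ℕ) : ℝ≥0∞) = (6 * h : ℕ) * ENNReal.ofReal (1 / 3) +
          ENNReal.ofReal (4 * h) := by
        rw [← ENNReal.ofReal_natCast, ← ENNReal.ofReal_mul (by positivity),
          ← ENNReal.ofReal_add (by positivity) (by positivity)]
        congr 1; push_cast; ring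
      nth_rewrite 1 [e6] at e5
      rw [add_mul, mul_assoc] at e5
      exact (ENNReal.mul_le_mul_iff_right (Nat.cast_ne_zero.2 (by omega))
        (ENNReal.natCast_ne_top _)).1 ((ENNReal.add_le_add_iff_right
          (ENNReal.mul_ne_top ENNReal.ofReal_ne_top fin)).1 e5)
    · have h3 : t c - 1 / 516 < |⟪a c, x⟫ - s * g c| := hg
      have h4 := abs_sub (⟪a c, x⟫) (s * g c)
      rw [abs_mul, abs_of_pos s0] at h4
      change 1 / 516 / s ≤ |g c|
      rw [div_le_iff₀ s0]
      linarith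

end Pool.Agent.Lib.MP_fedf83_gt.KD
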