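import Mathlib

/-! Finitely many samples replace an average in a fractional cover. -/

namespace Pool.Agent.Lib.MP_fedf83_gt.UK

open MeasureTheory Function
open scoped ENNReal

variable {Ξ X : Type*} [MeasurableSpace Ξ] [MeasurableSpace X]

theorem sample_prod (π : Measure Ξ) [IsProbabilityMeasure π] (ν : Measure X) [SFinite ν]
    {g : Ξ → X → ℝ≥0∞} (mg : Measurable (uncurry g)) {p : Ξ → Prop} (hp : ∀ᵐ ξ ∂π, p ξ) (T : ℕ) :
    ∀ φ : X → ℝ≥0∞, Measurable φ → ∃ ξ : Fin T → Ξ, (∀ j, p (ξ j)) ∧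
      ∫⁻ x, φ x * ∏ j, g (ξ j) x ∂ν ≤ ∫⁻ x, φ x * (∫⁻ ξ, g ξ x ∂π) ^ T ∂ν := by
  have mE : Measurable fun x => ∫⁻ ξ, g ξ x ∂π := mg.lintegral_prod_left'
  have m1 : ∀ ξ, Measurable (g ξ) := fun ξ => mg.of_uncurry_left
  induction T with
  | zero => exact fun φ _ => ⟨Fin.elim0, fun j => j.elim0, by simp⟩
  | succ T ih =>
    intro φ mφ
    obtain ⟨ξ, h1, h2⟩ := ih (fun x => φ x * ∫⁻ ξ, g ξ x ∂π) (mφ.mul mE)
    have mψ : Measurable fun x => φ x * ∏ j, g (ξ j) x :=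
      mφ.mul (Finset.measurable_prod _ fun j _ => m1 _)
    have m2 : Measurable (uncurry fun (z : Ξ) (x : X) => (φ x * ∏ j, g (ξ j) x) * g z x) :=
      (mψ.comp measurable_snd).mul mg
    obtain ⟨z, hz, h3⟩ := exists_notMem_null_le_lintegral (μ := π)
      (f := fun z => ∫⁻ x, (φ x * ∏ j, g (ξ j) x) * g z x ∂ν)
      m2.lintegral_prod_right.aemeasurable (ae_iff.1 hp)
    refine ⟨Fin.cons z ξ, fun j => ?_, ?_⟩
    · refine Fin.cases ?_ (fun j => h1 j) j
      simpa using hz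
    · rw [lintegral_lintegral_swap m2.aemeasurable] at h3
      calc _ = ∫⁻ x, (φ x * ∏ j, g (ξ j) x) * g z x ∂ν := by
            refine lintegral_congr fun x => ?_
            simp only [Fin.prod_univ_succ, Fin.cons_zero, Fin.cons_succ]
            ring
        _ ≤ _ := h3
        _ = ∫⁻ x, (φ x * ∫⁻ ξ, g ξ x ∂π) * ∏ j, g (ξ j) x ∂ν := by
            refine lintegral_congr fun x => ?_
            rw [lintegral_const_mul _ mg.of_uncurry_right]
            ring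
        _ ≤ _ := h2
        _ = _ := lintegral_congr fun x => by ring

theorem one_le_min_add_prod {T : ℕ} (a : Fin T → ℝ≥0∞) : 1 ≤ min 1 (∑ j, a j) + ∏ j, (1 - a j) := by
  rw [min_add]
  refine le_min le_self_add ?_
  induction T with
  | zero => simp
  | succ T ih =>
    rw [Fin.sum_univ_succ, Fin.prod_univ_succ]
    have h1 : ∏ j : Fin T, (1 - a j.succ) ≤ 1 := Finset.prod_le_one' fun _ _ => tsub_le_self
    have h2 : ∏ j : Fin T, (1 - a j.succ) ≤ a 0 + (1 - a 0) * ∏ j : Fin T, (1 - a j.succ) := by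
      calc _ = 1 * ∏ j : Fin T, (1 - a j.succ) := (one_mul _).symm
        _ ≤ (a 0 + (1 - a 0)) * ∏ j : Fin T, (1 - a j.succ) := mul_le_mul_left le_add_tsub _
        _ ≤ _ := by
          rw [add_mul]
          exact add_le_add (mul_le_of_le_one_right' h1) le_rfl
    refine (ih fun j => a j.succ).trans ((add_le_add le_rfl h2).trans (le_of_eq ?_))
    ring

theorem min_add_pow {T : ℕ} (T0 : 0 < T) (y : ℝ≥0∞) (hy : 3 / T * y ≤ 1) :
    min 1 y + (1 - 3 / T * y) ^ T ≤ 1 + ENNReal.ofReal (1 / 20) := by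
  have Tp : (0 : ℝ) < T := by exact_mod_cast T0
  have yt : y ≠ ⊤ := by
    rintro rfl
    rw [ENNReal.mul_top (by simp)] at hy
    simp at hy
  lift y to NNReal using yt
  have y0 : (0 : ℝ) ≤ y := y.2
  have e1 : (3 / T * y : ℝ≥0∞) = ENNReal.ofReal (3 / T * y) := by
    rw [ENNReal.ofReal_mul (by positivity), ENNReal.ofReal_div_of_pos Tp]
    simp
  rw [e1] at hy ⊢
  have h1 : (3 / T * y : ℝ) ≤ 1 := ENNReal.ofReal_le_one.1 hy
  have h2 : (1 - 3 / T * y : ℝ) ^ T ≤ Real.exp (-(3 * y)) := by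
    refine (pow_le_pow_left₀ (by linarith) (Real.one_sub_le_exp_neg _) T).trans (le_of_eq ?_)
    rw [← Real.exp_nat_mul]
    congr 1
    field_simp
  have h3 : min 1 (y : ℝ) + Real.exp (-(3 * y)) ≤ 1 + 1 / 20 := by
    have e3 : Real.exp (-3) ≤ 1 / 20 := by
      rw [Real.exp_neg, inv_le_comm₀ (Real.exp_pos _) (by norm_num),
        show (3 : ℝ) = (3 : ℕ) * 1 by norm_num, Real.exp_nat_mul]
      refine le_trans (by norm_num) (pow_le_pow_left₀ (by norm_num) Real.exp_one_gt_d9.le 3)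
    rcases le_total 1 (y : ℝ) with h | h
    · rw [min_eq_left h]
      have : Real.exp (-(3 * y)) ≤ Real.exp (-3) := Real.exp_le_exp.2 (by linarith)
      linarith
    · rw [min_eq_right h]
      have := convexOn_exp.2 (Set.mem_univ (0 : ℝ)) (Set.mem_univ (-3)) (sub_nonneg.2 h) y0
        (by ring)
      simp only [smul_eq_mul, mul_zero, zero_add, Real.exp_zero, mul_one] at this
      rw [show -(3 * (y : ℝ)) = y * -3 by ring]
      nlinarith [Real.exp_pos (-3)]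
  have e2 : min 1 (y : ℝ≥0∞) = ENNReal.ofReal (min 1 y) := by
    rw [ENNReal.ofReal_min]
    simp
  rw [e2, ← ENNReal.ofReal_one, ← ENNReal.ofReal_sub _ (by positivity),
    ← ENNReal.ofReal_pow (by linarith), ← ENNReal.ofReal_add (le_min zero_le_one y0)
      (pow_nonneg (by linarith) _), ← ENNReal.ofReal_add zero_le_one (by norm_num)]
  exact ENNReal.ofReal_le_ofReal (by linarith)

theorem sample (π : Measure Ξ) [IsProbabilityMeasure π] (ν : Measure X) [IsFiniteMeasure ν]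
    (h : Ξ → X → ℝ≥0∞) (mh : Measurable (uncurry h)) {B : ℝ≥0∞} (hB : B ≠ ⊤)
    (hb : ∀ ξ x, h ξ x ≤ B) (p : Ξ → Prop) (hp : ∀ᵐ ξ ∂π, p ξ) :
    ∃ T : ℕ, 0 < T ∧ ∃ ξ : Fin T → Ξ, (∀ j, p (ξ j)) ∧
      ∫⁻ x, min 1 (∫⁻ ξ, h ξ x ∂π) ∂ν ≤
        ∫⁻ x, min 1 (∑ j, (3 / T : ℝ≥0∞) * h (ξ j) x) ∂ν + ENNReal.ofReal (1 / 20) * ν Set.univ := by
  obtain ⟨T, hT⟩ := ENNReal.exists_nat_gt (ENNReal.mul_ne_top (a := 3) (by simp) hB)
  have T0 : 0 < T := by exact_mod_cast (zero_le.trans_lt hT)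
  have b1 : 3 / T * B ≤ 1 := by
    rw [div_eq_mul_inv, mul_right_comm, ← div_eq_mul_inv]
    exact ENNReal.div_le_of_le_mul (by simpa using hT.le)
  have b2 : ∀ ξ x, 3 / T * h ξ x ≤ 1 := fun ξ x => (mul_le_mul_right (hb ξ x) _).trans b1
  have mE : Measurable fun x => ∫⁻ ξ, h ξ x ∂π := mh.lintegral_prod_left'
  have b3 : ∀ x, 3 / T * ∫⁻ ξ, h ξ x ∂π ≤ 1 := fun x => by
    refine (mul_le_mul_right ((lintegral_mono fun ξ => hb ξ x).trans ?_) _).trans b1
    simp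
  obtain ⟨ξ, h1, h2⟩ := sample_prod π ν (g := fun ξ x => 1 - 3 / T * h ξ x)
    (show Measurable fun q : Ξ × X => 1 - 3 / T * uncurry h q from
      (mh.const_mul _).const_sub _) hp T (fun _ => 1) measurable_const
  have e1 : ∀ x, ∫⁻ ξ, (1 - 3 / T * h ξ x) ∂π = 1 - 3 / T * ∫⁻ ξ, h ξ x ∂π := fun x => by
    have m1 : Measurable fun ξ => h ξ x := mh.of_uncurry_right
    rw [lintegral_sub (m1.const_mul _) _ (ae_of_all _ fun ξ => b2 ξ x), lintegral_const_mul _ m1]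
    · simp
    · rw [lintegral_const_mul _ m1]
      exact ne_top_of_le_ne_top ENNReal.one_ne_top (b3 x)
  simp only [one_mul, e1] at h2
  refine ⟨T, T0, ξ, h1, ?_⟩
  have m2 : Measurable fun x => ∏ j, (1 - 3 / T * h (ξ j) x) := Finset.measurable_prod _ fun j _ =>
    measurable_const.sub (mh.of_uncurry_left.const_mul _)
  have a1 : ν Set.univ ≤ ∫⁻ x, min 1 (∑ j, (3 / T : ℝ≥0∞) * h (ξ j) x) ∂ν +
      ∫⁻ x, (1 - 3 / T * ∫⁻ ξ, h ξ x ∂π) ^ T ∂ν := by
    refine le_trans ?_ (add_le_add le_rfl h2)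
    rw [← lintegral_add_right _ m2, ← lintegral_one]
    exact lintegral_mono fun x => one_le_min_add_prod _
  have a2 : ∫⁻ x, min 1 (∫⁻ ξ, h ξ x ∂π) ∂ν + ∫⁻ x, (1 - 3 / T * ∫⁻ ξ, h ξ x ∂π) ^ T ∂ν ≤
      ν Set.univ + ENNReal.ofReal (1 / 20) * ν Set.univ := by
    rw [← lintegral_add_left (measurable_const.min mE)]
    refine (lintegral_mono fun x => min_add_pow T0 _ (b3 x)).trans (le_of_eq ?_)
    rw [lintegral_const, add_mul, one_mul]
  have fin : ∫⁻ x, (1 - 3 / T * ∫⁻ ξ, h ξ x ∂π) ^ T ∂ν ≠ ⊤ := by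
    refine ne_top_of_le_ne_top (measure_ne_top ν Set.univ) ?_
    rw [← lintegral_one]
    exact lintegral_mono fun x => pow_le_one' tsub_le_self _
  refine (ENNReal.add_le_add_iff_right fin).1 (a2.trans ((add_le_add a1 le_rfl).trans (le_of_eq ?_)))
  ring

end Pool.Agent.Lib.MP_fedf83_gt.UK
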