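import Pool.Agent.Lib.MP_fedf83_gt.KFra1
import Pool.Agent.Lib.MP_fedf83_gt.KSample

/-! A Gaussian average is replaced by integrals over finitely many flats. -/

namespace Pool.Agent.Lib.MP_fedf83_gt.P

open MeasureTheory ProbabilityTheory Set Pool.Agent.Lib.MP_fedf83_gt.B
open scoped ENNReal RealInnerProductSpace

variable {m k N : ℕ}

theorem shift_int {Y : Type} [MeasurableSpace Y] (l : Measure Y) [SFinite l] {T : Y → E N}
    (hT : Measurable T) {G : E N → ℝ≥0∞} (hG : Measurable G) :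
    ∫⁻ x, ∫⁻ y, G (x + T y) ∂l = l univ * ∫⁻ x, G x := by
  have hm : Measurable fun p : E N × Y => G (p.1 + T p.2) :=
    hG.comp (measurable_fst.add (hT.comp measurable_snd))
  rw [lintegral_lintegral_swap hm.aemeasurable]
  simp only [lintegral_add_right_eq_self G, lintegral_const, mul_comm]

/-- A thin spherical shell. -/
def Ann (k : ℕ) (q : ℝ) : Set (E k) := Metric.closedBall 0 1 \ Metric.ball 0 (1 + q)⁻¹

theorem Ann_meas (q : ℝ) : MeasurableSet (Ann k q) :=
  measurableSet_closedBall.diff measurableSet_ball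

theorem Ann_top (q : ℝ) : volume (Ann k q) ≠ ⊤ :=
  ne_top_of_le_ne_top measure_closedBall_lt_top.ne (measure_mono sdiff_subset)

theorem Ann_ge (hk : 1 ≤ k) {q : ℝ} (q0 : 0 < q) (q1 : q ≤ 1) :
    ENNReal.ofReal (q / 2) * volume (Metric.ball (0 : E k) 1) ≤ volume (Ann k q) := by
  have a0 : 0 < (1 + q)⁻¹ := by positivity
  have a1 : (1 + q)⁻¹ ≤ 1 - q / 2 := by
    rw [inv_eq_one_div, div_le_iff₀ (by linarith)]
    nlinarith
  have a2 : (1 + q)⁻¹ ^ k ≤ 1 - q / 2 :=
    (pow_le_of_le_one a0.le (by linarith) (by omega)).trans a1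
  refine le_trans ?_ le_measure_sdiff
  rw [Measure.addHaar_unitClosedBall_eq_addHaar_unitBall, Measure.addHaar_ball_of_pos _ _ a0,
    finrank_euclideanSpace, Fintype.card_fin]
  refine ENNReal.le_sub_of_add_le_right
    (ENNReal.mul_ne_top ENNReal.ofReal_ne_top measure_ball_lt_top.ne) ?_
  rw [← add_mul, ← ENNReal.ofReal_add (by positivity) (by positivity)]
  exact mul_le_of_le_one_left' (ENNReal.ofReal_le_one.2 (by linarith))

theorem Ann_dens {r : ℝ} (hr : r ^ 2 = m) (r2 : 2 ≤ r) {f : E m → ℝ≥0∞} (hf : Measurable f) :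
    volume (Ann k r⁻¹) * ∫⁻ y in {η : E m | 16 * r < |‖η‖ ^ 2 - m|}ᶜ, f y ∂stdGaussian (E m) ≤
      ENNReal.ofReal (Real.exp 26) * ∫⁻ ξ : Fin k → E m, ∫⁻ v in Ann k r⁻¹, f (cols ξ v) ∂volume
        ∂Measure.pi (fun _ => stdGaussian (E m)) := by
  have r0 : 0 < r := by linarith
  obtain ⟨q, hq⟩ : ∃ q, q = r⁻¹ := ⟨_, rfl⟩
  have q0 : 0 < q := hq ▸ inv_pos.2 r0
  have e : r * q = 1 := by rw [hq]; field_simp
  have q1 : q ≤ 1 / 2 := by nlinarith
  have m0 : (0 : ℝ) ≤ m := Nat.cast_nonneg _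
  have mf : Measurable fun p : (Fin k → E m) × E k => f (cols p.1 p.2) :=
    hf.comp cols_cont.measurable
  rw [← hq, lintegral_lintegral_swap mf.aemeasurable,
    ← lintegral_const_mul _ mf.lintegral_prod_left', mul_comm, ← setLIntegral_const]
  refine setLIntegral_mono' (Ann_meas q) fun v hv => ?_
  have v1 : ‖v‖ ≤ 1 := by simpa using hv.1
  have v2 : (1 + q)⁻¹ ≤ ‖v‖ := by simpa using hv.2
  have v0 : 0 < ‖v‖ := lt_of_lt_of_le (by positivity) v2
  obtain ⟨d, hd⟩ : ∃ d, ‖v‖⁻¹ = 1 + d := ⟨‖v‖⁻¹ - 1, by ring⟩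
  have d0 : 0 ≤ d := by linarith [(one_le_inv₀ v0).2 v1]
  have d1 : d ≤ q := by linarith [(inv_le_comm₀ (by positivity) v0).1 v2]
  have h := dilate_le (m := m) (s := ‖v‖⁻¹) (c := 26) (inv_pos.2 v0) hf
    (S := {η : E m | 16 * r < |‖η‖ ^ 2 - m|}ᶜ)
    (measurableSet_lt measurable_const (by fun_prop)).compl (fun y hy => by
      have y1 : ‖y‖ ^ 2 ≤ m + 16 * r := by
        have := (abs_le.1 (not_lt.1 (show ¬16 * r < |‖y‖ ^ 2 - m| from hy))).2
        linarith
      rw [hd]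
      have a1 := mul_le_mul_of_nonneg_left (log_up d0) m0
      have a2 := mul_le_mul_of_nonneg_right y1 (show 0 ≤ d + d ^ 2 / 2 by positivity)
      have a3 : r * d ≤ 1 := by nlinarith
      have a4 : (m : ℝ) * d ^ 2 ≤ 1 := by
        rw [← hr, ← mul_pow]
        exact pow_le_one₀ (by positivity) a3
      have a5 : r * d * d ≤ 1 := by nlinarith [mul_nonneg r0.le d0]
      nlinarith)
  rwa [inv_inv, ← cols_law v hf] at h

theorem frame (hk : 1 ≤ k) : ∃ C : ℝ, 0 < C ∧ ∃ m0 : ℕ, ∀ m : ℕ, m0 ≤ m → ∀ (N : ℕ) (ι : Type)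
    [Fintype ι] (A : ι → E m →L[ℝ] E N) (ρ : ℝ), 0 < ρ → (∀ i z, ρ * ‖z‖ ≤ ‖A i z‖) →
    ∀ G : ι → E N → ℝ≥0∞, (∀ i, Measurable (G i)) → (∀ i x, G i x ≤ 1) →
    ∀ K : Set (E N), MeasurableSet K → volume K ≠ ⊤ →
    ∃ (J : Type) (_ : Fintype J) (w : J → E k →L[ℝ] E N) (P : J → E N → ℝ≥0∞),
      (∀ i, Measurable (P i)) ∧ (∀ i v, ρ * √(m / 2) * ‖v‖ ≤ ‖w i v‖) ∧
      ∑ i, ∫⁻ x, P i x ≤ ENNReal.ofReal (C * √m) * ∑ i, ∫⁻ x, G i x ∧
      ∫⁻ x in K, min 1 (∑ i, ∫⁻ η, G i (x + A i η) ∂stdGaussian (E m)) ≤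
        (∫⁻ x in K, min 1 (∑ i, ∫⁻ v : E k, P i (x + w i v))) +
          ENNReal.ofReal (1 / 20) * (volume K + ∑ i, ∫⁻ x, G i x) := by
  have k1 : (1 : ℝ) ≤ k := by exact_mod_cast hk
  obtain ⟨ω, hω⟩ : ∃ ω, ω = volume.real (Metric.ball (0 : E k) 1) := ⟨_, rfl⟩
  have eω : volume (Metric.ball (0 : E k) 1) = ENNReal.ofReal ω := by
    rw [hω, ofReal_measureReal measure_ball_lt_top.ne]
  have ω0 : 0 < ω := ENNReal.ofReal_pos.1 (eω ▸ Metric.measure_ball_pos _ _ one_pos)
  refine ⟨6 * Real.exp 26 / ω, by positivity, (12 * k * (29 + 100 * k ^ 2)) ^ 2, ?_⟩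
  intro m hm N ι _ A ρ ρ0 hA G mG G1 K mK hK
  obtain ⟨r, hr'⟩ : ∃ r, r = √(m : ℝ) := ⟨_, rfl⟩
  have hr : r ^ 2 = m := hr' ▸ Real.sq_sqrt (Nat.cast_nonneg _)
  have r1 : 12 * k * (29 + 100 * (k : ℝ) ^ 2) ≤ r := by
    rw [hr']
    exact Real.le_sqrt_of_sq_le (by exact_mod_cast hm)
  have r2 : 2 ≤ r := by nlinarith [sq_nonneg (k : ℝ)]
  have r0 : 0 < r := by linarith
  set γ := stdGaussian (E m) with hγ
  set μ : Measure (Fin k → E m) := Measure.pi fun _ => γ with hμ
  set S : Set (E m) := {η | 16 * r < |‖η‖ ^ 2 - m|} with hS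
  set Γ := ∑ i, ∫⁻ x, G i x with hΓ
  set b := volume (Ann k r⁻¹) with hb
  set c := ENNReal.ofReal (Real.exp 26) with hc
  set U := Bad k m (r / (6 * k) * r) with hU
  have mS : MeasurableSet S := measurableSet_lt measurable_const (by fun_prop)
  have mU : MeasurableSet U := Bad_meas _
  have bt : b ≠ ⊤ := Ann_top _
  have b1 : ENNReal.ofReal (r⁻¹ / 2 * ω) ≤ b := by
    rw [ENNReal.ofReal_mul (by positivity), ← eω]
    exact Ann_ge hk (inv_pos.2 r0) (inv_le_one_of_one_le₀ (by linarith))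
  have b0 : b ≠ 0 := (lt_of_lt_of_le (ENNReal.ofReal_pos.2 (by positivity)) b1).ne'
  have tS : γ S ≤ ENNReal.ofReal (1 / 40) := by
    refine (sq_tail hr r2 (L := 16) (by norm_num)).trans (ENNReal.ofReal_le_ofReal ?_)
    have e1 : (81 : ℝ) ≤ Real.exp 5 := by
      rw [show (5 : ℝ) = (5 : ℕ) * 1 by norm_num, Real.exp_nat_mul]
      exact le_trans (by norm_num) (pow_le_pow_left₀ (by norm_num) Real.exp_one_gt_d9.le 5)
    rw [show (3 : ℝ) - 16 / 2 = -5 by norm_num, Real.exp_neg]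
    have := inv_anti₀ (by norm_num) e1
    linarith
  have tU : c * μ U ≤ ENNReal.ofReal (1 / 40) := by
    refine (mul_le_mul_right (Bad_le hr r2 (by positivity)) _).trans ?_
    rw [hc, ← ENNReal.ofReal_mul (Real.exp_pos _).le]
    refine ENNReal.ofReal_le_ofReal ?_
    have e1 : 29 + 100 * (k : ℝ) ^ 2 ≤ r / (6 * k) / 2 := by
      rw [div_div, le_div_iff₀ (by positivity)]
      linarith
    have e2 : Real.exp 26 * Real.exp (3 - r / (6 * k) / 2) * Real.exp (100 * k ^ 2) ≤ 1 := by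
      rw [← Real.exp_add, ← Real.exp_add]
      exact Real.exp_le_one_iff.2 (by linarith)
    have e3 := mul_le_mul_of_nonneg_left (Real.add_one_le_exp (100 * (k : ℝ) ^ 2))
      (mul_pos (Real.exp_pos 26) (Real.exp_pos (3 - r / (6 * k) / 2))).le
    nlinarith [mul_pos (Real.exp_pos 26) (Real.exp_pos (3 - r / (6 * k) / 2))]
  have c1 : 1 ≤ c := ENNReal.one_le_ofReal.2 (Real.one_le_exp (by norm_num))
  have U0 : μ Uᶜ ≠ 0 := by
    intro h
    have h1 : μ U = 1 := (prob_compl_eq_zero_iff mU).1 h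
    rw [h1, mul_one] at tU
    have := ENNReal.one_le_ofReal.1 (c1.trans tU)
    norm_num at this
  have := cond_isProbabilityMeasure (μ := μ) U0
  have : IsFiniteMeasure (volume.restrict K) := isFiniteMeasure_restrict.2 hK
  have mc : ∀ i, Measurable fun p : (Fin k → E m) × E k => A i (cols p.1 p.2) := fun i =>
    ((A i).continuous.comp cols_cont).measurable
  set g : ι → (Fin k → E m) → E N → ℝ≥0∞ := fun i ξ x =>
    ∫⁻ v in Ann k r⁻¹, G i (x + A i (cols ξ v)) with hg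
  have mg : ∀ i, Measurable fun p : (Fin k → E m) × E N => g i p.1 p.2 := fun i => by
    have a0 : Measurable fun p : ((Fin k → E m) × E N) × E k => (p.1.1, p.2) :=
      measurable_fst.fst.prodMk measurable_snd
    have a1 := (mG i).comp (measurable_fst.snd.add ((mc i).comp a0))
    exact a1.lintegral_prod_right'
  have mg1 : ∀ i ξ, Measurable fun x => g i ξ x := fun i ξ => (mg i).comp measurable_prodMk_left
  have mg2 : ∀ i x, Measurable fun ξ => g i ξ x := fun i x => (mg i).comp measurable_prodMk_right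
  set h : (Fin k → E m) → E N → ℝ≥0∞ := fun ξ x => ∑ i, c / b * g i ξ x with hh
  have mh : Measurable (Function.uncurry h) :=
    Finset.measurable_sum _ fun i _ => (mg i).const_mul _
  have cb : c / b * b = c := ENNReal.div_mul_cancel b0 bt
  have hb1 : ∀ ξ x, h ξ x ≤ ∑ _i : ι, c := fun ξ x => Finset.sum_le_sum fun i _ => by
    refine le_trans (mul_le_mul_right ((lintegral_mono fun v => G1 i _).trans ?_) _) cb.le
    simp [hb]
  have ih : ∀ ξ, ∫⁻ x, h ξ x = c * Γ := fun ξ => by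
    rw [lintegral_finsetSum _ fun i _ => (mg1 i ξ).const_mul _, hΓ, Finset.mul_sum]
    refine Finset.sum_congr rfl fun i _ => ?_
    rw [lintegral_const_mul _ (mg1 i ξ), shift_int _ (T := fun v => A i (cols ξ v))
      ((A i).comp (cols ξ)).continuous.measurable (mG i), Measure.restrict_apply_univ,
      ← mul_assoc, cb]
  obtain ⟨T, T0, ξ, hξ, hs⟩ := UK.sample μ[|Uᶜ] (volume.restrict K) h mh
    (ENNReal.sum_ne_top.2 fun _ _ => ENNReal.ofReal_ne_top) hb1 (· ∈ Uᶜ) (ae_cond_mem mU.compl)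
  have mA : ∀ i, Measurable fun p : E N × E m => G i (p.1 + A i p.2) := fun i =>
    (mG i).comp (measurable_fst.add ((A i).continuous.measurable.comp measurable_snd))
  refine ⟨Fin T × ι, inferInstance, fun p => (A p.2).comp (cols (ξ p.1)),
    fun p x => 3 / T * (c / b * G p.2 x), fun p => ((mG _).const_mul _).const_mul _,
    fun p v => ?_, ?_, ?_⟩
  · refine le_trans ?_ (hA _ _)
    rw [mul_assoc]
    refine mul_le_mul_of_nonneg_left (abs_le_of_sq_le_sq' ?_ (norm_nonneg _)).2 ρ0.le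
    rw [mul_pow, Real.sq_sqrt (by positivity)]
    refine good_norm (hξ p.1) (le_of_eq ?_) v
    rw [← hr]
    field_simp
  · have e1 : ∀ p : Fin T × ι, ∫⁻ x, 3 / T * (c / b * G p.2 x) =
        3 / T * (c / b * ∫⁻ x, G p.2 x) := fun p => by
      rw [lintegral_const_mul _ ((mG _).const_mul _), lintegral_const_mul _ (mG _)]
    simp only [e1, Fintype.sum_prod_type, ← Finset.mul_sum, Finset.sum_const, Finset.card_univ,
      Fintype.card_fin, nsmul_eq_mul]
    rw [← mul_assoc, ← mul_assoc, mul_right_comm _ (c / b),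
      ENNReal.div_mul_cancel (by exact_mod_cast T0.ne') (by simp)]
    refine mul_le_mul_left ?_ _
    rw [← mul_div_assoc]
    refine ENNReal.div_le_of_le_mul (le_trans (le_of_eq ?_) (mul_le_mul_right b1 _))
    rw [← hr', ← ENNReal.ofReal_mul (by positivity), hc, ← ENNReal.ofReal_ofNat,
      ← ENNReal.ofReal_mul (by positivity)]
    congr 1
    field_simp
    norm_num
  · have p1 : ∀ x, ∑ i, ∫⁻ η in Sᶜ, G i (x + A i η) ∂γ ≤ ∫⁻ ξ, h ξ x ∂μ := fun x => by
      rw [lintegral_finsetSum _ fun i _ => (mg2 i x).const_mul _]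
      refine Finset.sum_le_sum fun i _ => ?_
      rw [lintegral_const_mul _ (mg2 i x), ENNReal.div_eq_inv_mul, mul_assoc, ← ENNReal.mul_le_iff_le_inv b0 bt]
      exact Ann_dens hr r2 (f := fun η => G i (x + A i η)) ((mA i).comp measurable_prodMk_left)
    have p2 : ∀ x, ∫⁻ ξ in Uᶜ, h ξ x ∂μ ≤ ∫⁻ ξ, h ξ x ∂μ[|Uᶜ] := fun x => by
      rw [ProbabilityTheory.cond, lintegral_smul_measure, smul_eq_mul]
      exact le_mul_of_one_le_left' (ENNReal.one_le_inv.2 prob_le_one)
    have p3 : ∀ x, min 1 (∑ i, ∫⁻ η, G i (x + A i η) ∂γ) ≤ min 1 (∫⁻ ξ, h ξ x ∂μ[|Uᶜ]) +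
        (∫⁻ ξ in U, h ξ x ∂μ + ∑ i, ∫⁻ η in S, G i (x + A i η) ∂γ) := fun x => by
      rw [min_add]
      refine min_le_min le_self_add ?_
      simp only [← lintegral_add_compl (μ := γ) _ mS, Finset.sum_add_distrib]
      rw [add_comm, ← add_assoc]
      refine add_le_add ((p1 x).trans ?_) le_rfl
      rw [← lintegral_add_compl _ mU, add_comm]
      exact add_le_add (p2 x) le_rfl
    have q1 : ∫⁻ x, ∫⁻ ξ in U, h ξ x ∂μ ≤ ENNReal.ofReal (1 / 40) * Γ := by
      rw [← lintegral_lintegral_swap mh.aemeasurable]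
      simp only [ih, lintegral_const, Measure.restrict_apply_univ]
      rw [mul_right_comm]
      exact mul_le_mul_left tU _
    have q2 : ∫⁻ x, ∑ i, ∫⁻ η in S, G i (x + A i η) ∂γ ≤ ENNReal.ofReal (1 / 40) * Γ := by
      rw [lintegral_finsetSum _ fun i _ => (mA i).lintegral_prod_right', hΓ, Finset.mul_sum]
      refine Finset.sum_le_sum fun i _ => ?_
      rw [shift_int _ (A i).continuous.measurable (mG i), Measure.restrict_apply_univ]
      exact mul_le_mul_left tS _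
    have q3 : ∀ x, ∑ j, (3 / T : ℝ≥0∞) * h (ξ j) x ≤ ∑ p : Fin T × ι, ∫⁻ v : E k,
        3 / T * (c / b * G p.2 (x + ((A p.2).comp (cols (ξ p.1))) v)) := fun x => by
      rw [Fintype.sum_prod_type]
      refine Finset.sum_le_sum fun j _ => ?_
      rw [hh, Finset.mul_sum]
      refine Finset.sum_le_sum fun i _ => ?_
      have m1 : Measurable fun v : E k => G i (x + ((A i).comp (cols (ξ j))) v) :=
        (mG i).comp (measurable_const.add (ContinuousLinearMap.continuous _).measurable)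
      rw [lintegral_const_mul _ (m1.const_mul _), lintegral_const_mul _ m1]
      exact mul_le_mul_right (mul_le_mul_right (setLIntegral_le_lintegral _ _) _) _
    refine (lintegral_mono p3).trans ?_
    have m1 : Measurable fun x => ∫⁻ ξ, h ξ x ∂μ[|Uᶜ] := mh.lintegral_prod_left'
    have m2 : Measurable fun x => ∫⁻ ξ in U, h ξ x ∂μ := mh.lintegral_prod_left'
    rw [lintegral_add_left (measurable_const.min m1), lintegral_add_left m2]
    refine (add_le_add (hs.trans (add_le_add (lintegral_mono fun x => min_le_min le_rfl (q3 x))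
      le_rfl)) (add_le_add ((setLIntegral_le_lintegral _ _).trans q1)
        ((setLIntegral_le_lintegral _ _).trans q2))).trans (le_of_eq ?_)
    rw [Measure.restrict_apply_univ, ← add_mul, ← ENNReal.ofReal_add (by norm_num) (by norm_num),
      mul_add, add_assoc, show (1 : ℝ) / 40 + 1 / 40 = 1 / 20 by norm_num]

end Pool.Agent.Lib.MP_fedf83_gt.P
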