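import Pool.Agent.Lib.MP_fedf83_gt.PCov

/-! The volume of a projection against the integral of the covariogram over the fibre directions. -/

namespace Pool.Agent.Lib.MP_fedf83_gt.KP

open MeasureTheory Set Module Pool.Agent.Lib.MP_fedf83_gt.B
open scoped ENNReal RealInnerProductSpace

variable {n : ℕ} (L : Submodule ℝ (E n)) {K S : Set (E n)}

/-- The volume of the fibre of `S` over a point of `L`. -/
noncomputable def fib (S : Set (E n)) (y : L) : ℝ≥0∞ := volume {z : Lᗮ | (y : E n) + z ∈ S}

theorem lintegral_split {f : E n → ℝ≥0∞} (hf : Measurable f) :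
    ∫⁻ x, f x = ∫⁻ y : L, ∫⁻ z : Lᗮ, f ((y : E n) + z) := by
  have h := (L.measurePreserving_measurableEquivProd (0 : E n)).symm
  rw [InnerProductSpace.euclideanHausdorffMeasure_eq_volume] at h
  rw [← h.lintegral_comp hf, Measure.volume_eq_prod,
    lintegral_prod (fun a => f ((L.measurableEquivProd (0 : E n)).symm a))
      (hf.comp (L.measurableEquivProd (0 : E n)).symm.measurable).aemeasurable]
  simp

theorem meas_slice (hS : MeasurableSet S) (x : E n) : MeasurableSet {z : Lᗮ | x + z ∈ S} :=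
  (show Continuous fun z : Lᗮ => x + (z : E n) by fun_prop).measurable hS

theorem measurable_fib (hS : MeasurableSet S) : Measurable (fib L S) := by
  have hm : MeasurableSet {p : L × Lᗮ | (p.1 : E n) + p.2 ∈ S} :=
    (show Continuous fun p : L × Lᗮ => (p.1 : E n) + p.2 by fun_prop).measurable hS
  exact measurable_measure_prodMk_left hm

theorem vol_fib (hS : MeasurableSet S) : volume S = ∫⁻ y : L, fib L S y := by
  rw [← lintegral_indicator_one hS, lintegral_split L (measurable_one.indicator hS)]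
  congr with y
  rw [fib, ← lintegral_indicator_one (meas_slice L hS y)]
  rfl

theorem fib_zero {y : L} (hy : y ∉ L.orthogonalProjectionOnto '' S) : fib L S y = 0 := by
  have : {z : Lᗮ | (y : E n) + z ∈ S} = ∅ := eq_empty_of_forall_notMem fun z hz => hy ⟨_, hz, by
    rw [map_add, Submodule.orthogonalProjectionOnto_eq_zero_iff.2 z.2]
    simp⟩
  rw [fib, this, measure_empty]

theorem measurable_cov (hS : MeasurableSet S) :
    Measurable fun d : Lᗮ => volume {z | z ∈ S ∧ z - d ∈ S} := by
  have hm : MeasurableSet {p : Lᗮ × E n | p.2 ∈ S ∧ p.2 - p.1 ∈ S} :=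
    (measurable_snd hS).inter
      ((show Continuous fun p : Lᗮ × E n => p.2 - (p.1 : E n) by fun_prop).measurable hS)
  exact measurable_measure_prodMk_left hm

/-- The integral of the covariogram over the fibre directions. -/
theorem cov_fib (hS : MeasurableSet S) :
    ∫⁻ d : Lᗮ, volume {z | z ∈ S ∧ z - d ∈ S} = ∫⁻ y : L, fib L S y ^ 2 := by
  have hm : MeasurableSet {p : Lᗮ × E n | p.2 ∈ S ∧ p.2 - p.1 ∈ S} :=
    (measurable_snd hS).inter
      ((show Continuous fun p : Lᗮ × E n => p.2 - (p.1 : E n) by fun_prop).measurable hS)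
  have h1 := Measure.prod_apply (μ := volume) (ν := volume) hm
  have h2 := Measure.prod_apply_symm (μ := volume) (ν := volume) hm
  refine h1.symm.trans (h2.trans ?_)
  rw [lintegral_split L (measurable_measure_prodMk_right hm)]
  congr with y
  rw [sq]
  nth_rewrite 2 [fib]
  rw [← lintegral_indicator_const (meas_slice L hS y)]
  congr with w
  by_cases hw : (y : E n) + w ∈ S
  · rw [indicator_of_mem (show w ∈ {z : Lᗮ | (y : E n) + z ∈ S} from hw), fib,
      ← (Measure.measurePreserving_sub_left volume w).measure_preimage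
        (meas_slice L hS y).nullMeasurableSet]
    congr 1
    ext d
    simp [hw, add_sub_assoc]
  · rw [indicator_of_notMem (show w ∉ {z : Lᗮ | (y : E n) + z ∈ S} from hw)]
    simp [hw]

theorem pl_sub : PL (volume : Measure L) :=
  (pl_euclidean _).of_mp _ (stdOrthonormalBasis ℝ L).measurePreserving_repr_symm
    (by intro a b x y; simp)

theorem fib_half (cv : Convex ℝ K) {x : L} (hx : x ∈ L.orthogonalProjectionOnto '' K) (y : L) :
    fib L K y ≤ 2 ^ finrank ℝ Lᗮ * fib L K ((1 - 1 / 2 : ℝ) • x + (1 / 2 : ℝ) • y) := by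
  obtain ⟨p, hp, rfl⟩ := hx
  let w : Lᗮ := ⟨p - L.starProjection p, L.sub_starProjection_mem_orthogonal p⟩
  have e : (2 : ℝ≥0∞) ^ finrank ℝ Lᗮ = ENNReal.ofReal |((1 / 2 : ℝ) ^ finrank ℝ Lᗮ)⁻¹| := by
    rw [abs_of_pos (by positivity), ← inv_pow, ENNReal.ofReal_pow (by norm_num)]
    norm_num
  rw [e]
  nth_rewrite 2 [fib]
  rw [← measure_preimage_add_right volume ((1 / 2 : ℝ) • w) {z : Lᗮ | _ + _ ∈ K},
    ← Measure.addHaar_preimage_smul volume (show (1 / 2 : ℝ) ≠ 0 by norm_num)]
  refine measure_mono fun z hz => ?_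
  have := cv hp hz (show (0 : ℝ) ≤ 1 / 2 by norm_num) (show (0 : ℝ) ≤ 1 / 2 by norm_num)
    (by norm_num)
  simp only [mem_preimage, mem_ofPred_eq, Submodule.coe_add, Submodule.coe_smul, w,
    Submodule.starProjection_apply]
  convert this using 1
  module

theorem half_sq (a b : ℝ≥0∞) : (a ^ (1 / 2 : ℝ) * b ^ (1 / 2 : ℝ)) ^ 2 = a * b := by
  rw [← ENNReal.mul_rpow_of_nonneg _ _ (by norm_num), ← ENNReal.rpow_natCast, ← ENNReal.rpow_mul]
  norm_num

/-- Reverse Cauchy-Schwarz inequality for the fibre volume of a convex body. -/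
theorem proj_mul_le (hc : IsCompact K) (cv : Convex ℝ K) :
    projVol L K * ∫⁻ d : Lᗮ, volume {z | z ∈ K ∧ z - d ∈ K} ≤
      4 ^ finrank ℝ Lᗮ * volume K ^ 2 := by
  have hm := hc.measurableSet
  have mf := measurable_fib L hm
  have mp : MeasurableSet (L.orthogonalProjectionOnto '' K) :=
    (hc.image L.orthogonalProjectionOnto.continuous).measurableSet
  have h := pl_sub L (1 / 2) (by norm_num) (by norm_num)
    ((L.orthogonalProjectionOnto '' K).indicator 1) (fun y => fib L K y ^ 2)
    (fun y => 2 ^ finrank ℝ Lᗮ * fib L K y) (measurable_one.indicator mp) (mf.pow_const 2)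
    (mf.const_mul _) fun x y => by
      by_cases hx : x ∈ L.orthogonalProjectionOnto '' K
      · rw [indicator_of_mem hx, Pi.one_apply, ENNReal.one_rpow, one_mul, ← ENNReal.rpow_natCast,
          ← ENNReal.rpow_mul]
        simpa using fib_half L cv hx y
      · rw [indicator_of_notMem hx, ENNReal.zero_rpow_of_pos (by norm_num), zero_mul]
        exact zero_le
  rw [lintegral_indicator_one mp, lintegral_const_mul _ mf, ← vol_fib L hm, ← cov_fib L hm,
    show (1 - 1 / 2 : ℝ) = 1 / 2 by norm_num] at h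
  have h2 := pow_le_pow_left' h 2
  rw [half_sq, mul_pow, ← pow_mul, mul_comm _ 2, pow_mul] at h2
  exact h2.trans (le_of_eq (by norm_num))

/-- Cauchy-Schwarz inequality for the fibre volume. -/
theorem le_proj_mul (hc : IsCompact K) :
    volume K ^ 2 ≤ projVol L K * ∫⁻ d : Lᗮ, volume {z | z ∈ K ∧ z - d ∈ K} := by
  have hm := hc.measurableSet
  have mf := measurable_fib L hm
  have mp : MeasurableSet (L.orthogonalProjectionOnto '' K) :=
    (hc.image L.orthogonalProjectionOnto.continuous).measurableSet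
  have h := ENNReal.lintegral_mul_le_Lp_mul_Lq volume Real.HolderConjugate.two_two
    (f := (L.orthogonalProjectionOnto '' K).indicator 1) (g := fib L K)
    (measurable_one.indicator mp).aemeasurable mf.aemeasurable
  have e1 : ((L.orthogonalProjectionOnto '' K).indicator 1 * fib L K) = fib L K := by
    funext y
    by_cases hy : y ∈ L.orthogonalProjectionOnto '' K
    · simp [indicator_of_mem hy]
    · simp [fib_zero L hy]
  have e2 : ∀ y, (L.orthogonalProjectionOnto '' K).indicator (1 : L → ℝ≥0∞) y ^ (2 : ℝ) =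
      (L.orthogonalProjectionOnto '' K).indicator 1 y := fun y => by
    by_cases hy : y ∈ L.orthogonalProjectionOnto '' K
    · simp [indicator_of_mem hy]
    · simp [indicator_of_notMem hy]
  simp only [e1, e2, ENNReal.rpow_two] at h
  rw [lintegral_indicator_one mp, ← vol_fib L hm, ← cov_fib L hm] at h
  exact (pow_le_pow_left' h 2).trans (le_of_eq (half_sq _ _))

/-- A set of fibre directions with large overlap bounds the projection. -/
theorem proj_mul_vol_le (hK : IsBody K) {W : Set Lᗮ} (hW : MeasurableSet W)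
    (h : ∀ d ∈ W, 2⁻¹ * volume K ≤ volume {z | z ∈ K ∧ z - (d : E n) ∈ K}) :
    projVol L K * volume W ≤ 2 * 4 ^ finrank ℝ Lᗮ * volume K := by
  have M0 := vol_ne_zero hK
  have M1 := hK.1.measure_ne_top (μ := volume)
  have h1 : 2⁻¹ * volume K * volume W ≤ ∫⁻ d : Lᗮ, volume {z | z ∈ K ∧ z - d ∈ K} := by
    rw [← lintegral_indicator_const hW]
    refine lintegral_mono fun d => ?_
    by_cases hd : d ∈ W
    · rw [indicator_of_mem hd]
      exact h d hd
    · rw [indicator_of_notMem hd]
      exact zero_le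
  have h2 := (mul_le_mul_right h1 (projVol L K)).trans (proj_mul_le L hK.1 hK.2.1)
  have h3 := mul_le_mul_right h2 2
  refine (ENNReal.mul_le_mul_iff_left M0 M1).1 (le_of_eq_of_le ?_ (h3.trans (le_of_eq ?_)))
  · rw [mul_left_comm 2, mul_assoc 2⁻¹, ← mul_assoc 2, ENNReal.mul_inv_cancel (by simp) (by simp)]
    ring
  · ring

theorem finrank_left {k : ℕ} (h : finrank ℝ Lᗮ = k) : finrank ℝ L = n - k := by
  have := L.finrank_add_finrank_orthogonal
  rw [finrank_euclideanSpace_fin] at this
  omega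

theorem finrank_right {k : ℕ} (h : finrank ℝ L = n - k) (hk : k ≤ n) : finrank ℝ Lᗮ = k := by
  have := L.finrank_add_finrank_orthogonal
  rw [finrank_euclideanSpace_fin] at this
  omega

/-- An orthonormal family is a basis of the orthogonal complement of a subspace. -/
theorem exists_flat {k : ℕ} {u : Fin k → E n} (hu : Orthonormal ℝ u) :
    ∃ (L : Submodule ℝ (E n)) (b : OrthonormalBasis (Fin k) ℝ Lᗮ), finrank ℝ Lᗮ = k ∧
      ∀ i, (b i : E n) = u i := by
  let L := (Submodule.span ℝ (range u))ᗮ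
  have hk : finrank ℝ Lᗮ = k := by
    simp only [L]
    rw [Submodule.orthogonal_orthogonal, finrank_span_eq_card hu.linearIndependent,
      Fintype.card_fin]
  let v : Fin k → Lᗮ := fun i =>
    ⟨u i, Submodule.le_orthogonal_orthogonal _ (Submodule.subset_span ⟨i, rfl⟩)⟩
  have hv : Orthonormal ℝ v := ⟨hu.1, hu.2⟩
  exact ⟨L, OrthonormalBasis.mk hv (hv.linearIndependent.span_eq_top_of_card_eq_finrank'
    (by rw [hk, Fintype.card_fin])).ge, hk, fun i => by simp [v]⟩

/-- Half of the body survives `k` orthogonal shifts: bound for the least projection. -/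
theorem sigma_mul_prod_le (hK : IsBody K) {k : ℕ} (hk : 1 ≤ k) {u : Fin k → E n}
    (hu : Orthonormal ℝ u) {s : Fin k → ℝ} (hs : ∀ i, 0 < s i)
    (h : volume K / 2 ≤ volume {x | x ∈ K ∧ ∀ i, x + s i • u i ∈ K}) :
    sigma (n - k) K * ENNReal.ofReal (∏ i, s i) ≤ ENNReal.ofReal (2 * (4 * k) ^ k) * volume K := by
  obtain ⟨L, b, hL, hb⟩ := exists_flat hu
  have k0 : (0 : ℝ) < k := by exact_mod_cast hk
  have mp := (PiLp.volume_preserving_ofLp (Fin k)).comp b.measurePreserving_repr
  have mb : MeasurableSet (Icc (fun i => -(s i / k)) (0 : Fin k → ℝ)) := measurableSet_Icc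
  have h1 := proj_mul_vol_le L hK (mp.measurable mb) fun d hd => by
    rw [← ENNReal.div_eq_inv_mul]
    refine h.trans (measure_mono fun x hx => ⟨hx.1, ?_⟩)
    have e : x - (d : E n) = ∑ i, (1 / k : ℝ) • (x + (-(k * b.repr d i) / s i) • s i • u i) := by
      have e1 : (d : E n) = ∑ i, b.repr d i • u i := by
        conv_lhs => rw [← b.sum_repr d]
        simp [hb]
      have e2 : ∀ i, (1 / k : ℝ) • (x + (-(k * b.repr d i) / s i) • s i • u i) =
          (1 / k : ℝ) • x - b.repr d i • u i := fun i => by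
        have := (hs i).ne'
        rw [smul_add, smul_smul, smul_smul, sub_eq_add_neg, ← neg_smul]
        congr 2
        field_simp
      simp only [e2]
      rw [Finset.sum_sub_distrib, ← e1, ← Finset.sum_smul]
      simp [k0.ne']
    rw [e]
    refine hK.2.1.sum_mem (fun _ _ => by positivity) (by simp [k0.ne']) fun i _ =>
      hK.2.1.add_smul_mem hx.1 (hx.2 i) ?_
    have a1 : -(s i / k) ≤ b.repr d i := hd.1 i
    have a2 : b.repr d i ≤ 0 := hd.2 i
    have a3 := mul_le_mul_of_nonneg_left a1 k0.le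
    rw [mul_neg, mul_div_cancel₀ _ k0.ne'] at a3
    exact ⟨div_nonneg (by nlinarith) (hs i).le, (div_le_one (hs i)).2 (by linarith)⟩
  rw [mp.measure_preimage mb.nullMeasurableSet, Real.volume_Icc_pi, hL] at h1
  simp only [Pi.zero_apply, sub_neg_eq_add, zero_add] at h1
  rw [← ENNReal.ofReal_prod_of_nonneg fun i _ => (div_pos (hs i) k0).le] at h1
  have h2 : sigma (n - k) K ≤ projVol L K := iInf₂_le L (finrank_left L hL)
  have e : ENNReal.ofReal (∏ i, s i) = ENNReal.ofReal (∏ i, s i / k) * ENNReal.ofReal (k ^ k) := by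
    rw [← ENNReal.ofReal_mul (Finset.prod_nonneg fun i _ => (div_pos (hs i) k0).le),
      Finset.prod_div_distrib]
    simp [k0.ne']
  have e2 : ENNReal.ofReal (2 * (4 * k) ^ k) = 2 * 4 ^ k * ENNReal.ofReal (k ^ k) := by
    rw [mul_pow, ← mul_assoc, ENNReal.ofReal_mul (by positivity),
      ENNReal.ofReal_mul (by positivity), ENNReal.ofReal_pow (by norm_num)]
    simp
  rw [e, e2, ← mul_assoc, mul_right_comm _ _ (volume K)]
  exact mul_le_mul_left ((mul_le_mul_left h2 _).trans h1) _

/-- Union bound: from `k` large overlaps to one set of half the volume. -/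
theorem half_le_of_overlaps (hK : IsBody K) {k : ℕ} (hk : 1 ≤ k) {w : Fin k → E n}
    (h : ∀ i, ENNReal.ofReal (1 - 1 / (2 * k)) * volume K ≤ volume {z | z ∈ K ∧ z - w i ∈ K}) :
    volume K / 2 ≤ volume {x | x ∈ K ∧ ∀ i, x - w i ∈ K} := by
  have k1 : (1 : ℝ) ≤ k := by exact_mod_cast hk
  have hm := hK.1.measurableSet
  have M1 := hK.1.measure_ne_top (μ := volume)
  have q0 : (0 : ℝ) ≤ 1 / (2 * k) := by positivity
  have q1 : (1 : ℝ) / (2 * k) ≤ 1 := (div_le_one (by positivity)).2 (by linarith)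
  have h1 : ∀ i, volume {z | z ∈ K ∧ z - w i ∉ K} ≤ ENNReal.ofReal (1 / (2 * k)) * volume K := by
    intro i
    have e := measure_inter_add_sdiff (μ := volume) K ((measurable_id.sub_const (w i)) hm)
    have e2 : volume K = ENNReal.ofReal (1 - 1 / (2 * k)) * volume K +
        ENNReal.ofReal (1 / (2 * k)) * volume K := by
      rw [← add_mul, ← ENNReal.ofReal_add (by linarith) q0]
      simp
    exact (ENNReal.add_le_add_iff_left (ENNReal.mul_ne_top ENNReal.ofReal_ne_top M1)).1
      ((add_le_add (h i) le_rfl).trans (e.trans e2).le)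
  have h2 : volume K ≤ volume {x | x ∈ K ∧ ∀ i, x - w i ∈ K} + volume K / 2 := by
    refine (measure_mono (t := {x | x ∈ K ∧ ∀ i, x - w i ∈ K} ∪
      ⋃ i, {z | z ∈ K ∧ z - w i ∉ K}) fun x hx => ?_).trans ((measure_union_le _ _).trans
        (add_le_add le_rfl ((measure_iUnion_fintype_le _ _).trans
          ((Finset.sum_le_sum fun i _ => h1 i).trans (le_of_eq ?_)))))
    · by_cases hh : ∀ i, x - w i ∈ K
      · exact Or.inl ⟨hx, hh⟩
      · obtain ⟨i, hi⟩ := not_forall.1 hh
        exact Or.inr (mem_iUnion.2 ⟨i, hx, hi⟩)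
    · rw [Finset.sum_const, Finset.card_univ, Fintype.card_fin, nsmul_eq_mul, ← mul_assoc,
        ← ENNReal.ofReal_natCast, ← ENNReal.ofReal_mul (by positivity),
        show (k : ℝ) * (1 / (2 * k)) = 2⁻¹ by field_simp, ENNReal.ofReal_inv_of_pos two_pos,
        ENNReal.ofReal_ofNat, ENNReal.div_eq_inv_mul]
  nth_rewrite 1 [← ENNReal.add_halves (volume K)] at h2
  exact (ENNReal.add_le_add_iff_right (ENNReal.div_ne_top M1 (by simp))).1 h2

/-- The projection bound from `k` large overlaps in orthogonal directions. -/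
theorem sigma_mul_prod_le' (hK : IsBody K) {k : ℕ} (hk : 1 ≤ k) {u : Fin k → E n}
    (hu : Orthonormal ℝ u) {r : Fin k → ℝ} (hr : ∀ i, 0 < r i)
    (h : ∀ i, ENNReal.ofReal (1 - 1 / (2 * k)) * volume K ≤
      volume {z | z ∈ K ∧ z - r i • u i ∈ K}) :
    sigma (n - k) K * ENNReal.ofReal (∏ i, r i) ≤ ENNReal.ofReal (2 * (4 * k) ^ k) * volume K := by
  have hv : Orthonormal ℝ fun i => -u i :=
    ⟨fun i => by simpa using hu.1 i, fun i j hij => by simpa using hu.2 hij⟩
  refine sigma_mul_prod_le hK hk hv hr ?_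
  simpa only [smul_neg, ← sub_eq_add_neg] using half_le_of_overlaps hK hk h

/-- Lower bound for the least projection from the integral of the covariogram. -/
theorem le_sigma_mul (hc : IsCompact K) {k : ℕ} (hk : k ≤ n) {D : ℝ≥0∞} (D0 : D ≠ 0) (D1 : D ≠ ⊤)
    (h : ∀ L : Submodule ℝ (E n), finrank ℝ Lᗮ = k →
      ∫⁻ d : Lᗮ, volume {z | z ∈ K ∧ z - d ∈ K} ≤ D) : volume K ^ 2 ≤ sigma (n - k) K * D := by
  rw [← ENNReal.div_le_iff D0 D1]
  refine le_iInf₂ fun L hL => ENNReal.div_le_of_le_mul ?_
  exact (le_proj_mul L hc).trans (mul_le_mul_right (h L (finrank_right L hL hk)) _)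

end Pool.Agent.Lib.MP_fedf83_gt.KP
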