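import Pool.Agent.Lib.MP_fedf83_gt.PMain

/-! From a variance bound and long overlaps in isotropic position to the lower bound. -/

namespace Pool.Agent.Lib.MP_fedf83_gt.P

open MeasureTheory Set Module Pool.Agent.Lib.MP_fedf83_gt.B
open scoped ENNReal RealInnerProductSpace Pointwise

variable {n : ℕ} {K : Set (E n)}

/-- An orthonormal basis diagonalising the second moments, eigenvalues decreasing. -/
theorem exists_eig {μ : Measure (E n)} [IsProbabilityMeasure μ] {R : ℝ} (hR : Bd μ R) :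
    ∃ (b : OrthonormalBasis (Fin n) ℝ (E n)) (lam : Fin n → ℝ), Antitone lam ∧
      ∀ i j, ∫ x, ⟪x, b i⟫ * ⟪x, b j⟫ ∂μ = if i = j then lam i else 0 := by
  have hs : (cov hR R).IsSymmetric := fun θ w => cov_symm hR R θ w
  have e : finrank ℝ (E n) = n := by simp
  refine ⟨hs.eigenvectorBasis e, hs.eigenvalues e, hs.eigenvalues_antitone e, fun i j => ?_⟩
  have h1 := cov_inner hR R (hs.eigenvectorBasis e i) (hs.eigenvectorBasis e j)
  rw [hs.apply_eigenvectorBasis, inner_smul_left, (hs.eigenvectorBasis e).inner_eq_ite] at h1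
  have h2 : ∫ x, chi R x * ⟪x, hs.eigenvectorBasis e i⟫ * ⟪x, hs.eigenvectorBasis e j⟫ ∂μ =
      ∫ x, ⟪x, hs.eigenvectorBasis e i⟫ * ⟪x, hs.eigenvectorBasis e j⟫ ∂μ := by
    refine integral_congr_ae ?_
    filter_upwards [hR] with x hx
    rcases chi_cases R x with h | h
    · rw [h.2, one_mul]
    · exact absurd hx (not_le.2 h.1)
  rw [← h2, ← h1]
  split_ifs <;> simp

/-- The map to isotropic coordinates along an eigenbasis. -/
noncomputable def toIso (b : OrthonormalBasis (Fin n) ℝ (E n)) (lam : Fin n → ℝ) :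
    E n →L[ℝ] E n :=
  LinearMap.toContinuousLinearMap
    { toFun := fun x => WithLp.toLp 2 fun j => ⟪x, b j⟫ / √(lam j)
      map_add' := fun x y => by ext j; simp [inner_add_left, add_div]
      map_smul' := fun c x => by ext j; simp [inner_smul_left, mul_div_assoc] }

theorem toIso_apply (b : OrthonormalBasis (Fin n) ℝ (E n)) (lam : Fin n → ℝ) (x : E n)
    (j : Fin n) : toIso b lam x j = ⟪x, b j⟫ / √(lam j) := rfl

theorem toIso_norm (b : OrthonormalBasis (Fin n) ℝ (E n)) {lam : Fin n → ℝ} (hl : ∀ j, 0 < lam j)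
    (x : E n) : ∑ j, lam j * toIso b lam x j ^ 2 = ‖x‖ ^ 2 := by
  rw [← b.sum_sq_inner_left x]
  refine Finset.sum_congr rfl fun j _ => ?_
  rw [toIso_apply, div_pow, Real.sq_sqrt (hl j).le, mul_div_cancel₀ _ (hl j).ne']

theorem exists_diag (hK : IsBody K) (h0 : ∀ a, ∫ x, ⟪x, a⟫ ∂un K = 0) :
    ∃ (T : E n →L[ℝ] E n) (lam : Fin n → ℝ) (R : ℝ), Antitone lam ∧ (∀ j, 0 < lam j) ∧
      Function.Injective T ∧ Iso ((un K).map T) (T '' K) R ∧
      (∀ x, ∑ j, lam j * T x j ^ 2 = ‖x‖ ^ 2) ∧ ∑ j, lam j = ∫ x, ‖x‖ ^ 2 ∂un K := by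
  have := un_prob hK
  obtain ⟨R, hR'⟩ := hK.1.isBounded.exists_norm_le
  have hR : Bd (un K) R := (un_mem hK).mono hR'
  obtain ⟨b, lam, ha, hb⟩ := exists_eig hR
  have hl : ∀ j, 0 < lam j := fun j => by
    have h1 := un_pos hK hR (b j) (b.orthonormal.ne_zero j)
    have h2 := hb j j
    rw [if_pos rfl] at h2
    simpa only [sq, h2] using h1
  set T := toIso b lam with hT
  have hN := toIso_norm b hl
  have mT : Measurable T := T.continuous.measurable
  have cT := (hK.1.image T.continuous).isClosed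
  have ii : ∀ v w : E n, Integrable (fun x : E n => ⟪x, v⟫ * ⟪x, w⟫) (un K) := fun v w =>
    hR.int (by fun_prop)
  have hin : ∀ x a : E n, ⟪T x, a⟫ = ∑ j, a j / √(lam j) * ⟪x, b j⟫ := fun x a => by
    rw [inner_sum]
    refine Finset.sum_congr rfl fun j _ => ?_
    rw [hT, toIso_apply]
    ring
  refine ⟨T, lam, ‖T‖ * R, ha, hl, ?_, ?_, hN, ?_⟩
  · refine (injective_iff_map_eq_zero T).2 fun x hx => ?_
    have := hN x
    rw [← hT, hx] at this
    simpa using this.symm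
  · exact
    { lc := (lc_cond hK).map T
      bd := (ae_map_iff mT.aemeasurable
        (isClosed_le continuous_norm continuous_const).measurableSet).2 (hR.mono fun x hx =>
          (T.le_opNorm x).trans (mul_le_mul_of_nonneg_left hx (norm_nonneg T)))
      mem := (ae_map_iff mT.aemeasurable cT.measurableSet).2
        ((un_mem hK).mono fun x hx => mem_image_of_mem T hx)
      cl := cT
      cv := hK.2.1.linear_image (T : E n →ₗ[ℝ] E n)
      m1 := fun a => by
        rw [integral_map mT.aemeasurable (Continuous.aestronglyMeasurable (by fun_prop))]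
        simp only [hin]
        rw [integral_finsetSum _ fun j _ => (hR.int (by fun_prop))]
        simp only [integral_const_mul, h0, mul_zero, Finset.sum_const_zero]
      m2 := fun a => by
        rw [integral_map mT.aemeasurable (Continuous.aestronglyMeasurable (by fun_prop))]
        have e : ∀ x : E n, ⟪T x, a⟫ ^ 2 = ∑ i, ∑ j,
            a i / √(lam i) * (a j / √(lam j)) * (⟪x, b i⟫ * ⟪x, b j⟫) := fun x => by
          rw [hin, sq, Finset.sum_mul_sum]
          exact Finset.sum_congr rfl fun i _ => Finset.sum_congr rfl fun j _ => by ring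
        simp only [e]
        rw [integral_finsetSum _ fun i _ => integrable_finsetSum _ fun j _ => (ii _ _).const_mul _,
          EuclideanSpace.real_norm_sq_eq]
        refine Finset.sum_congr rfl fun i _ => ?_
        rw [integral_finsetSum _ fun j _ => (ii _ _).const_mul _]
        simp only [integral_const_mul, hb, mul_ite, mul_zero, Finset.sum_ite_eq, Finset.mem_univ,
          if_true]
        have h2 := (Real.sqrt_pos.2 (hl i)).ne'
        field_simp
        rw [Real.sq_sqrt (hl i).le] }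
  · simp only [← b.sum_sq_inner_left, sq]
    rw [integral_finsetSum _ fun j _ => ii _ _]
    refine Finset.sum_congr rfl fun j _ => ?_
    rw [hb, if_pos rfl]

/-- The variance hypothesis for diagonal quadratic forms in isotropic position. -/
def HP (n : ℕ) (P : ℝ) : Prop :=
  ∀ (μ : Measure (E n)) [IsProbabilityMeasure μ] (K : Set (E n)) (R : ℝ), Iso μ K R →
    ∀ lam : Fin n → ℝ, ∫ x, (∑ j, lam j * x j ^ 2) ^ 2 ∂μ - (∫ x, ∑ j, lam j * x j ^ 2 ∂μ) ^ 2 ≤
      P * ∑ j, lam j ^ 2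

/-- The overlap hypothesis for coordinate subspaces in isotropic position. -/
def HD (n : ℕ) (L : ℝ) : Prop :=
  ∀ (μ : Measure (E n)) [IsProbabilityMeasure μ] (K : Set (E n)) (R : ℝ), Iso μ K R →
    ∀ J : Finset (Fin n), J.Nonempty → ∃ (d : E n) (a : ℝ), 0 ≤ a ∧
      a * n ≤ L * (J.card : ℝ) ^ (1 / 4 : ℝ) * (n : ℝ) ^ (3 / 4 : ℝ) ∧
      (J.card : ℝ) / 1024 ≤ ∑ j ∈ J, d j ^ 2 ∧
      Real.exp (-(L * (J.card : ℝ) ^ (1 / 4 : ℝ) * (n : ℝ) ^ (3 / 4 : ℝ))) ≤
        μ.real {x | x ∈ K ∧ (1 + a)⁻¹ • (x + d) ∈ K}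

theorem overlap_norm (hn : 1 ≤ n) (hK : IsBody K) (z0 : (0 : E n) ∈ K) {D : E n} {a s : ℝ}
    (a0 : 0 ≤ a) (a1 : a ≤ 1) (has : a * n ≤ s)
    (h : Real.exp (-s) ≤ (un K).real {x | x ∈ K ∧ (1 + a)⁻¹ • (x + D) ∈ K}) :
    ‖D‖ ≤ 8 * s * ((volume K).toReal / (sigma (n - 1) K).toReal) := by
  have i0 : 0 < (1 + a)⁻¹ := by positivity
  have h3 := norm_le_of_part hn hK (L := s) (M := s) i0 ((1 + a)⁻¹ • D)
    ((1 + a)⁻¹ • D) (S := {x | x ∈ K ∧ (1 + a)⁻¹ • (x + D) ∈ K}) (fun x hx =>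
      ⟨by rw [← smul_add]; exact hx.2, by
        rw [add_sub_cancel_right]
        exact hK.2.1.smul_mem_of_zero_mem z0 hx.1 ⟨i0.le, inv_le_one_of_one_le₀ (by linarith)⟩⟩)
    (un_vol hK (fun x hx => hx.1) h) (by
      have b1 : Real.exp (-a) ≤ (1 + a)⁻¹ := by
        rw [Real.exp_neg]
        exact inv_anti₀ (by linarith) (by linarith [Real.add_one_le_exp a])
      refine le_trans ?_ (pow_le_pow_left₀ (Real.exp_pos _).le b1 n)
      rw [← Real.exp_nat_mul, Real.exp_le_exp]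
      linarith)
  have V0 := vol_toReal_pos hK
  have σ0 := sigma_toReal_pos hn hK
  rw [norm_smul, Real.norm_eq_abs, abs_of_pos i0] at h3
  have h4 : 1 / 2 ≤ (1 + a)⁻¹ := by rw [le_inv_comm₀ (by norm_num) (by linarith)]; linarith
  rw [mul_div_assoc', le_div_iff₀ σ0]
  nlinarith [mul_le_mul_of_nonneg_right h4 (mul_nonneg (norm_nonneg D) σ0.le)]

theorem harm_fin (n : ℕ) : ∑ i : Fin n, (((i : ℕ) : ℝ) + 1)⁻¹ ≤ 1 + Real.log n := by
  have h := harmonic_le_one_add_log n
  rw [harmonic] at h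
  push_cast at h
  rwa [Fin.sum_univ_eq_sum_range (fun i => ((i : ℝ) + 1)⁻¹) n]

theorem quart {k m : ℝ} (k0 : 0 ≤ k) (m0 : 0 ≤ m) :
    (k ^ (1 / 4 : ℝ) * m ^ (3 / 4 : ℝ)) ^ 4 = k * m ^ 3 := by
  rw [mul_pow, ← Real.rpow_natCast, ← Real.rpow_natCast (m ^ (3 / 4 : ℝ)), ← Real.rpow_mul k0,
    ← Real.rpow_mul m0, ← Real.rpow_natCast]
  norm_num

/-- The variance of the squared norm of a centred body. -/
theorem var_norm (hn : 1 ≤ n) (hK : IsBody K) (h0 : ∀ a, ∫ x, ⟪x, a⟫ ∂un K = 0) {P L : ℝ}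
    (P0 : 0 ≤ P) (hP : HP n P) (hD : HD n L) :
    ∫ x, (‖x‖ ^ 2) ^ 2 ∂un K - (∫ x, ‖x‖ ^ 2 ∂un K) ^ 2 ≤
      2 ^ 32 * (L * ((volume K).toReal / (sigma (n - 1) K).toReal)) ^ 4 *
        (P * (1 + Real.log n)) * (n : ℝ) ^ 3 := by
  have := un_prob hK
  obtain ⟨T, lam, R, ha, hl, inj, iso, hN, hs⟩ := exists_diag hK h0
  have mT : Measurable T := T.continuous.measurable
  have : IsProbabilityMeasure ((un K).map T) := Measure.isProbabilityMeasure_map mT.aemeasurable
  have surj : Function.Surjective T :=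
    (LinearMap.injective_iff_surjective (f := (T : E n →ₗ[ℝ] E n))).1 inj
  have z0 : (0 : E n) ∈ K := by
    have := iso.zero_mem
    rwa [← map_zero T, inj.mem_set_image] at this
  have V0 := vol_toReal_pos hK
  have σ0 := sigma_toReal_pos hn hK
  have hd : ∀ x ∈ K, ‖x‖ ≤ 4 * n * ((volume K).toReal / (sigma (n - 1) K).toReal) := by
    intro x hx
    have := diam_le hn hK hx z0
    rw [sub_zero] at this
    rwa [mul_div_assoc', le_div_iff₀ σ0]
  have ho := fun {D a s} => overlap_norm hn hK z0 (D := D) (a := a) (s := s)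
  set W := (volume K).toReal / (sigma (n - 1) K).toReal with hW
  have W0 : 0 < W := by positivity
  have hB : Bd (un K) (4 * n * W) := (un_mem hK).mono hd
  have n0 : (0 : ℝ) ≤ n := Nat.cast_nonneg n
  have hm : ∑ j, lam j ≤ (4 * n * W) ^ 2 := by
    rw [hs]
    have := integral_mono_ae (hB.int (f := fun x => ‖x‖ ^ 2) (by fun_prop))
      (integrable_const ((4 * n * W) ^ 2))
      (hB.mono fun x hx => pow_le_pow_left₀ (norm_nonneg x) hx 2)
    simpa using this
  have key : ∀ i : Fin n, lam i ^ 2 ≤ 2 ^ 32 * (L * W) ^ 4 * (n : ℝ) ^ 3 * (((i : ℕ) : ℝ) + 1)⁻¹ := by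
    intro i
    obtain ⟨d, a, a0, h1, h2, h3⟩ := hD _ _ _ iso (Finset.Iic i) ⟨i, by simp⟩
    obtain ⟨D, rfl⟩ := surj d
    rw [Fin.card_Iic] at h1 h2 h3
    push_cast at h1 h2 h3
    set k : ℝ := ((i : ℕ) : ℝ) + 1 with hk
    have k0 : 0 < k := by positivity
    have q := quart k0.le n0
    rw [mul_assoc] at h1 h3
    set s := k ^ (1 / 4 : ℝ) * (n : ℝ) ^ (3 / 4 : ℝ) with hs'
    have hJ : ∀ j ∈ Finset.Iic i, lam i ≤ lam j := fun j hj => ha (Finset.mem_Iic.1 hj)
    have main : lam i * k ≤ 2 ^ 16 * (L * s * W) ^ 2 := by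
      rcases le_total a 1 with a1 | a1
      · have cT := iso.cl
        have mS : MeasurableSet {x | x ∈ T '' K ∧ (1 + a)⁻¹ • (x + T D) ∈ T '' K} :=
          (cT.inter (cT.preimage (f := fun x : E n => (1 + a)⁻¹ • (x + T D))
            (by fun_prop))).measurableSet
        rw [map_measureReal_apply mT mS] at h3
        have e : T ⁻¹' {x | x ∈ T '' K ∧ (1 + a)⁻¹ • (x + T D) ∈ T '' K} =
            {x | x ∈ K ∧ (1 + a)⁻¹ • (x + D) ∈ K} := by
          ext x
          simp only [mem_preimage, mem_ofPred_eq, ← map_add, ← map_smul, inj.mem_set_image]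
        rw [e] at h3
        have h4 := pow_le_pow_left₀ (norm_nonneg D) (ho a0 a1 h1 h3) 2
        have h5 : lam i * ∑ j ∈ Finset.Iic i, T D j ^ 2 ≤ ‖D‖ ^ 2 := by
          rw [← hN, Finset.mul_sum]
          refine (Finset.sum_le_sum fun j hj =>
            mul_le_mul_of_nonneg_right (hJ j hj) (sq_nonneg _)).trans ?_
          exact Finset.sum_le_sum_of_subset_of_nonneg (Finset.subset_univ _)
            fun j _ _ => mul_nonneg (hl j).le (sq_nonneg _)
        nlinarith [mul_le_mul_of_nonneg_left h2 (hl i).le]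
      · have h4 : (n : ℝ) ≤ L * s := by nlinarith
        have h5 : lam i * k ≤ ∑ j, lam j := by
          have h6 := Finset.card_nsmul_le_sum _ _ _ hJ
          rw [Fin.card_Iic, nsmul_eq_mul] at h6
          push_cast at h6
          rw [mul_comm]
          exact h6.trans (Finset.sum_le_sum_of_subset_of_nonneg (Finset.subset_univ _)
            fun j _ _ => (hl j).le)
        have h7 := pow_le_pow_left₀ (by positivity) (mul_le_mul_of_nonneg_right h4 W0.le) 2
        nlinarith [sq_nonneg (L * s * W)]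
    have h8 := pow_le_pow_left₀ (mul_pos (hl i) k0).le main 2
    have h9 : (2 ^ 16 * (L * s * W) ^ 2) ^ 2 = 2 ^ 32 * (L * W) ^ 4 * (n : ℝ) ^ 3 * k := by
      have : (2 ^ 16 * (L * s * W) ^ 2) ^ 2 = 2 ^ 32 * (L * W) ^ 4 * s ^ 4 := by ring
      rw [this, q]
      ring
    rw [h9] at h8
    rw [← div_eq_mul_inv, le_div_iff₀ k0]
    exact le_of_mul_le_mul_right (by nlinarith) k0
  have h1 := hP _ _ _ iso lam
  rw [integral_map mT.aemeasurable (Continuous.aestronglyMeasurable (by fun_prop)),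
    integral_map mT.aemeasurable (Continuous.aestronglyMeasurable (by fun_prop))] at h1
  simp only [hN] at h1
  refine h1.trans ?_
  have h2 := Finset.sum_le_sum fun i (_ : i ∈ Finset.univ) => key i
  rw [← Finset.mul_sum] at h2
  have h3 := mul_le_mul_of_nonneg_left (h2.trans (mul_le_mul_of_nonneg_left (harm_fin n)
    (by positivity))) P0
  linarith

/-- Chebyshev: a shell from a variance bound for the squared norm. -/
theorem shell_var {μ : Measure (E n)} [IsProbabilityMeasure μ] {R B : ℝ} (hR : Bd μ R)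
    (B0 : 0 < B) (h : ∫ x, (‖x‖ ^ 2) ^ 2 ∂μ - (∫ x, ‖x‖ ^ 2 ∂μ) ^ 2 ≤ B ^ 2) :
    ∃ a b : ℝ, 0 ≤ a ∧ a ≤ b ∧ b ^ 2 - a ^ 2 ≤ 4 * B ∧ 1 / 2 ≤ μ.real {x | a ≤ ‖x‖ ∧ ‖x‖ ≤ b} := by
  set m := ∫ x, ‖x‖ ^ 2 ∂μ with hm
  have m0 : 0 ≤ m := integral_nonneg fun x => sq_nonneg _
  have e : ∫ x, (‖x‖ ^ 2 - m) ^ 2 ∂μ = ∫ x, (‖x‖ ^ 2) ^ 2 ∂μ - m ^ 2 := by
    have e1 : ∀ x : E n, (‖x‖ ^ 2 - m) ^ 2 = (‖x‖ ^ 2) ^ 2 - 2 * m * ‖x‖ ^ 2 + m ^ 2 := fun x => by
      ring
    simp only [e1]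
    rw [integral_add (hR.int (by fun_prop)) (integrable_const _),
      integral_sub (hR.int (by fun_prop)) (hR.int (by fun_prop)), integral_const_mul, ← hm]
    simp
    ring
  have h1 := mul_meas_ge_le_integral_of_nonneg (μ := μ) (f := fun x : E n => (‖x‖ ^ 2 - m) ^ 2)
    (ae_of_all _ fun x => sq_nonneg _) (hR.int (by fun_prop)) ((2 * B) ^ 2)
  rw [e] at h1
  have h2 : μ.real {x : E n | (2 * B) ^ 2 ≤ (‖x‖ ^ 2 - m) ^ 2} ≤ 1 / 2 := by
    refine le_of_mul_le_mul_left ?_ (show 0 < (2 * B) ^ 2 by positivity)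
    nlinarith [sq_nonneg B]
  refine ⟨√(m - 2 * B), √(m + 2 * B), Real.sqrt_nonneg _, Real.sqrt_le_sqrt (by linarith), ?_, ?_⟩
  · rw [Real.sq_sqrt (by linarith), Real.sq_sqrt']
    linarith [le_max_left (m - 2 * B) 0]
  · have h3 : (univ : Set (E n)) ⊆ {x | √(m - 2 * B) ≤ ‖x‖ ∧ ‖x‖ ≤ √(m + 2 * B)} ∪
        {x : E n | (2 * B) ^ 2 ≤ (‖x‖ ^ 2 - m) ^ 2} := by
      intro x _
      by_cases hx : (2 * B) ^ 2 ≤ (‖x‖ ^ 2 - m) ^ 2
      · exact Or.inr hx
      · have h4 := abs_lt.1 (abs_lt_of_sq_lt_sq (not_le.1 hx) (by positivity))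
        exact Or.inl ⟨Real.sqrt_le_iff.2 ⟨norm_nonneg _, by linarith [h4.1]⟩,
          Real.le_sqrt_of_sq_le (by linarith [h4.2])⟩
    have h5 := (measureReal_mono (μ := μ) h3).trans (measureReal_union_le _ _)
    rw [probReal_univ] at h5
    linarith

/-- A large part of the body with short chords. -/
def GoodPart (n : ℕ) (β : ℝ) (K : Set (E n)) : Prop :=
  ∃ S ⊆ K, MeasurableSet S ∧
    ENNReal.ofReal (1 / 2) * volume K ≤ volume S ∧ ∀ v : E n, ‖v‖ = 1 → ∀ x,
      volume {t : ℝ | x + t • v ∈ S} ≤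
        ENNReal.ofReal (β * ((volume K).toReal / (sigma (n - 1) K).toReal))

theorem goodPart_of_centered {β : ℝ} (hc : ∀ K : Set (E n), IsBody K →
    (∀ a, ∫ x, ⟪x, a⟫ ∂un K = 0) → GoodPart n β K) (hK : IsBody K) : GoodPart n β K := by
  have := un_prob hK
  obtain ⟨R, hR'⟩ := hK.1.isBounded.exists_norm_le
  have hR : Bd (un K) R := (un_mem hK).mono hR'
  set b := ∫ x, x ∂un K with hb
  have hK' : IsBody ((fun k => k + -b) '' K) := by
    refine ⟨hK.1.image (by fun_prop), ?_, ?_⟩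
    · simpa only [add_comm] using hK.2.1.translate (-b)
    · have := (Homeomorph.addRight (-b)).image_interior K
      simp only [Homeomorph.coe_addRight] at this
      rw [← this]
      exact hK.2.2.image _
  have e1 : volume ((fun k => k + -b) '' K) = volume K := by
    rw [image_add_right, measure_preimage_add_right]
  have e2 : sigma (n - 1) ((fun k => k + -b) '' K) = sigma (n - 1) K := by
    unfold sigma projVol
    refine iInf_congr fun L => iInf_congr fun _ => ?_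
    simpa using vol_proj_affine L K zero_le_one (-b)
  obtain ⟨S, h1, h2, h3, h4⟩ := hc _ hK' (fun a => by
    have e3 : ∫ x, ⟪x, a⟫ ∂un ((fun k => k + -b) '' K) = ∫ x, ⟪x + -b, a⟫ ∂un K := by
      simp only [un, ProbabilityTheory.cond, integral_smul_measure, e1]
      rw [(measurePreserving_add_right volume (-b)).setIntegral_image_emb
        (measurableEmbedding_addRight (-b))]
    have e4 : ∫ x, ⟪x, a⟫ ∂un K = ⟪b, a⟫ := by
      rw [hb, real_inner_comm, ← integral_inner (hR.int (f := fun x => x) continuous_id)]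
      simp only [real_inner_comm]
    rw [e3]
    simp only [inner_add_left]
    rw [integral_add (hR.int (by fun_prop)) (integrable_const _), e4]
    simp)
  rw [e1] at h3
  rw [e1, e2] at h4
  refine ⟨(fun k => k + -b) ⁻¹' S, fun x hx => ?_, measurable_add_const _ h2,
    ?_, fun v hv x => ?_⟩
  · exact (add_left_injective (-b)).mem_set_image.1 (h1 hx)
  · rwa [measure_preimage_add_right]
  · simpa only [mem_preimage, add_right_comm] using h4 v hv (x + -b)

theorem goodPart_centered (hn : 1 ≤ n) (hK : IsBody K) (h0 : ∀ a, ∫ x, ⟪x, a⟫ ∂un K = 0)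
    {P L : ℝ} (P0 : 0 < P) (L0 : 0 < L) (hP : HP n P) (hD : HD n L) :
    GoodPart n (2 ^ 10 * L * (P * (1 + Real.log n)) ^ (1 / 4 : ℝ) * (n : ℝ) ^ (3 / 4 : ℝ)) K := by
  have := un_prob hK
  obtain ⟨R, hR'⟩ := hK.1.isBounded.exists_norm_le
  have hR : Bd (un K) R := (un_mem hK).mono hR'
  have n1 : (1 : ℝ) ≤ n := by exact_mod_cast hn
  have l0 := Real.log_nonneg n1
  have hv := var_norm hn hK h0 P0.le hP hD
  have V0 := vol_toReal_pos hK
  have σ0 := sigma_toReal_pos hn hK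
  unfold GoodPart
  set W := (volume K).toReal / (sigma (n - 1) K).toReal with hW
  have W0 : 0 < W := by positivity
  have q := quart (k := P * (1 + Real.log n)) (m := n) (by positivity) (by positivity)
  rw [mul_assoc (2 ^ 10 * L)]
  have s0 : 0 < (P * (1 + Real.log n)) ^ (1 / 4 : ℝ) * (n : ℝ) ^ (3 / 4 : ℝ) := by positivity
  set s := (P * (1 + Real.log n)) ^ (1 / 4 : ℝ) * (n : ℝ) ^ (3 / 4 : ℝ) with hs
  obtain ⟨a, b, a0, hab, h1, h2⟩ := shell_var hR (B := (2 ^ 8 * L * s * W) ^ 2) (by positivity)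
    (hv.trans (le_of_eq (by
      have : ((2 ^ 8 * L * s * W) ^ 2) ^ 2 = 2 ^ 32 * (L * W) ^ 4 * s ^ 4 := by ring
      rw [this, q]
      ring)))
  have mS : MeasurableSet {x : E n | a ≤ ‖x‖ ∧ ‖x‖ ≤ b} :=
    ((isClosed_le continuous_const continuous_norm).inter
      (isClosed_le continuous_norm continuous_const)).measurableSet
  refine ⟨K ∩ {x | a ≤ ‖x‖ ∧ ‖x‖ ≤ b}, inter_subset_left, hK.1.measurableSet.inter mS,
    un_vol hK inter_subset_left (h2.trans (le_of_eq ?_)), fun v hv x => ?_⟩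
  · refine measureReal_congr ?_
    filter_upwards [un_mem hK] with x hx
    exact propext ⟨fun h => ⟨hx, h⟩, fun h => h.2⟩
  · refine le_trans (measure_mono fun t ht => ht.2) ((shell_chord a0 hab v hv x).trans
      (ENNReal.ofReal_le_ofReal ?_))
    have : √(b ^ 2 - a ^ 2) ≤ 2 * (2 ^ 8 * L * s * W) :=
      Real.sqrt_le_iff.2 ⟨by positivity, by linarith⟩
    linarith

/-- The lower bound from the two hypotheses. -/
theorem lfinal (hn : 1 ≤ n) {P L : ℝ} (P0 : 0 < P) (L0 : 0 < L) (hP : HP n P) (hD : HD n L) :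
    ENNReal.ofReal (1 / (2 ^ 11 * L * (P * (1 + Real.log n)) ^ (1 / 4 : ℝ) *
      (n : ℝ) ^ (3 / 4 : ℝ))) ≤ cst n (n - 1) := by
  have n1 : (1 : ℝ) ≤ n := by exact_mod_cast hn
  have n0 : (0 : ℝ) < n := by linarith
  have l0 := Real.log_nonneg n1
  have := le_cst_of_good hn (a := 1 / 2) (β := 2 ^ 10 * L * (P * (1 + Real.log n)) ^ (1 / 4 : ℝ) *
    (n : ℝ) ^ (3 / 4 : ℝ) / n) (by positivity) fun K hK => by
      simpa only [GoodPart, div_mul_cancel₀ _ n0.ne', mul_div_assoc _ (volume K).toReal] using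
        goodPart_of_centered (fun K hK h0 => goodPart_centered hn hK h0 P0 L0 hP hD) hK
  rw [div_mul_cancel₀ _ n0.ne'] at this
  refine le_trans (le_of_eq ?_) this
  congr 1
  field_simp

end Pool.Agent.Lib.MP_fedf83_gt.P
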