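import Pool.Agent.Lib.MP_fedf83_gt.KFlat
import Pool.Agent.Lib.MP_fedf83_gt.LFinal

/-! Sections of ellipsoidal shells by flats, and the lower bound in fixed codimension. -/

namespace Pool.Agent.Lib.MP_fedf83_gt.FL

open MeasureTheory Set Module Pool.Agent.Lib.MP_fedf83_gt.B Pool.Agent.Lib.MP_fedf83_gt.P
open scoped ENNReal RealInnerProductSpace Pointwise

variable {n k : ℕ}

theorem pow_diff_le {α β : ℝ} (a0 : 0 ≤ α) (ab : α ≤ β) (m : ℕ) :
    β ^ (m + 2) - α ^ (m + 2) ≤ (m + 1) * β ^ m * (β ^ 2 - α ^ 2) := by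
  have b0 : 0 ≤ β := a0.trans ab
  induction m with
  | zero => simp
  | succ m ih =>
    have h1 := mul_le_mul_of_nonneg_left ih b0
    have h2 : α ^ (m + 1) ≤ β ^ (m + 1) := pow_le_pow_left₀ a0 ab _
    have h3 : α * (β - α) ≤ β ^ 2 - α ^ 2 := by nlinarith
    have h4 := mul_le_mul h2 h3 (mul_nonneg a0 (sub_nonneg.2 ab)) (pow_nonneg b0 _)
    push_cast
    calc β ^ (m + 1 + 2) - α ^ (m + 1 + 2) =
          β * (β ^ (m + 2) - α ^ (m + 2)) + α ^ (m + 1) * (α * (β - α)) := by ring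
      _ ≤ β * ((m + 1) * β ^ m * (β ^ 2 - α ^ 2)) + β ^ (m + 1) * (β ^ 2 - α ^ 2) := by linarith
      _ = _ := by ring

/-- A flat meets a spherical shell in an annulus. -/
theorem annulus (hk : 2 ≤ k) (U : Fr k n) (c y : E n) {a b : ℝ} (a0 : 0 ≤ a) (ab : a ≤ b) :
    sec U {x | a ≤ ‖x - c‖ ∧ ‖x - c‖ ≤ b} y ≤
      ENNReal.ofReal (k * b ^ (k - 2) * (b ^ 2 - a ^ 2)) *
        volume (Metric.closedBall (0 : E k) 1) := by
  obtain ⟨s, hs⟩ := decomp U (y - c)
  set p : E n := ((base U).orthogonalProjectionOnto (y - c) : E n) with hp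
  have e : y = c + p + U s := by rw [add_assoc, ← hs]; abel
  have hpy : ∀ w : E k, ‖c + p + U w - c‖ ^ 2 = ‖p‖ ^ 2 + ‖w‖ ^ 2 := fun w => by
    have h0 : ⟪p, U w⟫ = 0 := by
      have : p ∈ base U := ((base U).orthogonalProjectionOnto (y - c)).2
      exact Submodule.inner_left_of_mem_orthogonal (K := LinearMap.range U.toLinearMap)
        ⟨w, rfl⟩ this
    rw [show c + p + U w - c = p + U w by abel, norm_add_sq_real, h0, U.norm_map]
    ring
  rw [e, sec_shift]
  set α := √(a ^ 2 - ‖p‖ ^ 2) with hα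
  set β := √(b ^ 2 - ‖p‖ ^ 2) with hβ
  have b0 : 0 ≤ b := a0.trans ab
  have sq : a ^ 2 ≤ b ^ 2 := pow_le_pow_left₀ a0 ab 2
  have α0 : 0 ≤ α := Real.sqrt_nonneg _
  have αβ : α ≤ β := Real.sqrt_le_sqrt (by linarith)
  have βb : β ≤ b := Real.sqrt_le_iff.2 ⟨b0, by nlinarith [sq_nonneg ‖p‖]⟩
  have hd : β ^ 2 - α ^ 2 ≤ b ^ 2 - a ^ 2 := by
    rw [hα, hβ, Real.sq_sqrt', Real.sq_sqrt']
    rcases le_total (b ^ 2 - ‖p‖ ^ 2) 0 with h | h
    · rw [max_eq_right h]
      linarith [le_max_right (a ^ 2 - ‖p‖ ^ 2) 0]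
    · rw [max_eq_left h]
      linarith [le_max_left (a ^ 2 - ‖p‖ ^ 2) 0]
  have sub : {v : E k | c + p + U v ∈ {x : E n | a ≤ ‖x - c‖ ∧ ‖x - c‖ ≤ b}} ⊆
      Metric.closedBall 0 β \ Metric.ball 0 α := by
    rintro w ⟨h1, h2⟩
    have h3 := pow_le_pow_left₀ a0 h1 2
    have h4 := pow_le_pow_left₀ (norm_nonneg _) h2 2
    rw [hpy] at h3 h4
    refine ⟨by simpa using Real.le_sqrt_of_sq_le (by linarith), ?_⟩
    simpa using Real.sqrt_le_iff.2 ⟨norm_nonneg _, by linarith⟩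
  refine (measure_mono sub).trans ?_
  obtain ⟨m, rfl⟩ : ∃ m, k = m + 2 := ⟨k - 2, by omega⟩
  rw [measure_diff_le_iff_le_add measurableSet_ball.nullMeasurableSet
    (Metric.ball_subset_closedBall.trans (Metric.closedBall_subset_closedBall αβ))
    measure_ball_lt_top.ne, Measure.addHaar_closedBall _ _ (α0.trans αβ),
    Measure.addHaar_ball _ _ α0, Measure.addHaar_unitClosedBall_eq_addHaar_unitBall, ← add_mul,
    ← ENNReal.ofReal_add (by positivity) (mul_nonneg (by positivity) (by linarith))]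
  refine mul_le_mul_left (ENNReal.ofReal_le_ofReal ?_) _
  simp only [finrank_euclideanSpace, Fintype.card_fin, Nat.add_sub_cancel]
  have h1 := pow_diff_le α0 αβ m
  have h2 : ((m : ℝ) + 1) * β ^ m * (β ^ 2 - α ^ 2) ≤
      ((m + 2 : ℕ) : ℝ) * b ^ m * (b ^ 2 - a ^ 2) := by
    have : 0 ≤ β ^ 2 - α ^ 2 := sub_nonneg.2 (pow_le_pow_left₀ α0 αβ 2)
    have β0 := α0.trans αβ
    push_cast
    gcongr
    linarith
  linarith

/-- The volume of an ellipsoid whose axes are bounded one after the other. -/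
theorem ellipsoid (M : E k →ₗ[ℝ] E n) (u : Fin k → E k) (r : Fin k → ℝ) (r0 : ∀ j, 0 < r j)
    (h : ∀ j v, (∀ i < j, ⟪v, u i⟫ = 0) → ‖v‖ ≤ r j * ‖M v‖) :
    volume {v | ‖M v‖ ≤ 1} ≤
      ENNReal.ofReal (∏ j, r j) * volume (Metric.closedBall (0 : E k) 1) := by
  have hs : (LinearMap.adjoint M ∘ₗ M).IsSymmetric := M.isSymmetric_adjoint_comp_self
  have e : finrank ℝ (E k) = k := by simp
  set b := hs.eigenvectorBasis e with hb
  set μ := hs.eigenvalues e with hμ
  have hM : ∀ v, ‖M v‖ ^ 2 = ∑ i, μ i * ⟪b i, v⟫ ^ 2 := fun v => by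
    rw [← real_inner_self_eq_norm_sq, ← LinearMap.adjoint_inner_left, ← b.sum_inner_mul_inner]
    refine Finset.sum_congr rfl fun i _ => ?_
    have := hs v (b i)
    rw [hb, hs.apply_eigenvectorBasis, inner_smul_right] at this
    rw [hb]
    erw [this]
    rw [real_inner_comm]
    simp only [hμ, RCLike.ofReal_real_eq_id, id]
    ring
  have key : ∀ j : Fin k, (r j)⁻¹ ^ 2 ≤ μ j.rev := fun j => by
    let φ : E k →ₗ[ℝ] (Fin j.rev ⊕ Fin j → ℝ) := LinearMap.pi fun o =>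
      innerₛₗ ℝ (o.elim (fun i => b (Fin.castLE j.rev.2.le i)) fun i => u (Fin.castLE j.2.le i))
    obtain ⟨v, hv, v0⟩ := (Submodule.ne_bot_iff _).1 (φ.ker_ne_bot_of_finrank_lt (by
      simp only [finrank_fintype_fun_eq_card, Fintype.card_sum, Fintype.card_fin, e, Fin.val_rev]
      omega))
    have h1 : ∀ i < j.rev, ⟪b i, v⟫ = 0 := fun i hi => congrFun hv (Sum.inl ⟨i, hi⟩)
    have h2 := h j v fun i hi => by
      rw [real_inner_comm]
      exact congrFun hv (Sum.inr ⟨i, hi⟩)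
    have h3 : ‖M v‖ ^ 2 ≤ μ j.rev * ‖v‖ ^ 2 := by
      rw [hM, ← b.sum_sq_inner_right, Finset.mul_sum]
      refine Finset.sum_le_sum fun i _ => ?_
      rcases lt_or_ge i j.rev with hi | hi
      · simp [h1 i hi]
      · exact mul_le_mul_of_nonneg_right (hs.eigenvalues_antitone e hi) (sq_nonneg _)
    have v1 : 0 < ‖v‖ := norm_pos_iff.2 v0
    rw [← inv_mul_le_iff₀ (r0 j)] at h2
    have h4 := pow_le_pow_left₀ (mul_pos (inv_pos.2 (r0 j)) v1).le h2 2
    rw [mul_pow] at h4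
    exact le_of_mul_le_mul_right (h4.trans h3) (by positivity)
  let D : E k →ₗ[ℝ] E k := Matrix.toLin b.toBasis b.toBasis (Matrix.diagonal fun i => (r i.rev)⁻¹)
  have dD : LinearMap.det D = (∏ j, r j)⁻¹ := by
    rw [LinearMap.det_toLin, Matrix.det_diagonal, Finset.prod_inv_distrib]
    exact congrArg _ (Equiv.prod_comp Fin.revPerm r)
  have p0 : 0 < ∏ j, r j := Finset.prod_pos fun j _ => r0 j
  have sub : {v | ‖M v‖ ≤ 1} ⊆ D ⁻¹' Metric.closedBall 0 1 := fun v hv => by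
    have h1 : ‖D v‖ ^ 2 ≤ ‖M v‖ ^ 2 := by
      rw [hM, ← b.sum_sq_inner_right]
      refine Finset.sum_le_sum fun i _ => ?_
      have h2 := congrFun (Matrix.repr_toLin b.toBasis b.toBasis
        (Matrix.diagonal fun i => (r i.rev)⁻¹) v) i
      rw [Matrix.mulVec_diagonal, b.coe_toBasis_repr_apply, b.coe_toBasis_repr_apply,
        b.repr_apply_apply, b.repr_apply_apply] at h2
      have h3 := key i.rev
      rw [Fin.rev_rev] at h3
      rw [h2, mul_pow]
      exact mul_le_mul_of_nonneg_right h3 (sq_nonneg _)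
    simpa using (le_of_sq_le_sq h1 (norm_nonneg _)).trans hv
  refine (measure_mono sub).trans (le_of_eq ?_)
  rw [Measure.addHaar_preimage_linearMap _ (dD ▸ (inv_pos.2 p0).ne'), dD, inv_inv, abs_of_pos p0]

theorem meas_shell (c : E n) (a b : ℝ) : MeasurableSet {x : E n | a ≤ ‖x - c‖ ∧ ‖x - c‖ ≤ b} :=
  have h : Continuous fun x : E n => ‖x - c‖ := by fun_prop
  ((isClosed_le continuous_const h).inter (isClosed_le h continuous_const)).measurableSet

/-- Sections of an ellipsoidal shell. -/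
theorem flat_shell (hk : 2 ≤ k) (T : E n →L[ℝ] E n) (u : Fin k → E n) (r : Fin k → ℝ)
    (r0 : ∀ j, 0 < r j) (hT : ∀ j x, (∀ i < j, ⟪x, u i⟫ = 0) → ‖x‖ ≤ r j * ‖T x‖)
    (U : Fr k n) (c x : E n) {a b : ℝ} (a0 : 0 ≤ a) (ab : a ≤ b) :
    sec U (T ⁻¹' {x | a ≤ ‖x - c‖ ∧ ‖x - c‖ ≤ b}) x ≤
      ENNReal.ofReal ((∏ j, r j) * (k * b ^ (k - 2) * (b ^ 2 - a ^ 2))) *
        volume (Metric.closedBall (0 : E k) 1) := by
  have mS := meas_shell c a b
  let M : E k →ₗ[ℝ] E n := (T : E n →ₗ[ℝ] E n) ∘ₗ U.toLinearMap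
  have hM : ∀ v, M v = T (U v) := fun v => rfl
  have inj : Function.Injective M := (injective_iff_map_eq_zero M).2 fun v hv => by
    have := hT ⟨0, by omega⟩ (U v) fun i hi => absurd hi (by simp [Fin.lt_def])
    rw [← hM, hv, norm_zero, mul_zero, U.norm_map] at this
    exact norm_le_zero_iff.1 this
  obtain ⟨U', J, h1, -, h2⟩ := exists_jac M inj
  have h3 := ellipsoid M (fun i => LinearMap.adjoint U.toLinearMap (u i)) r r0 fun j v hv => by
    rw [← U.norm_map v]
    exact hT j (U v) fun i hi => by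
      have := hv i hi
      rwa [LinearMap.adjoint_inner_right] at this
  rw [← h2] at h3
  have ω0 : volume (Metric.closedBall (0 : E k) 1) ≠ 0 :=
    (Metric.measure_closedBall_pos _ _ one_pos).ne'
  have h4 := (ENNReal.mul_le_mul_iff_left ω0 measure_closedBall_lt_top.ne).1 h3
  have h5 := h1 _ (measurable_one.indicator mS) (T x)
  rw [← sec_eq U' mS] at h5
  have p0 : 0 < ∏ j, r j := Finset.prod_pos fun j _ => r0 j
  rw [sec_eq U (T.continuous.measurable mS), ENNReal.ofReal_mul p0.le, mul_assoc]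
  refine le_trans (le_of_eq ?_) (h5.le.trans (mul_le_mul' h4 (annulus hk U' c _ a0 ab)))
  refine lintegral_congr fun v => ?_
  rw [hM, ← map_add]
  rfl

theorem exists_center {K : Set (E n)} (hK : IsBody K) : ∃ c : E n,
    IsBody ((fun x => x + -c) '' K) ∧ volume ((fun x => x + -c) '' K) = volume K ∧
      sigma (n - 1) ((fun x => x + -c) '' K) = sigma (n - 1) K ∧
      ∀ a, ∫ x, ⟪x, a⟫ ∂un ((fun x => x + -c) '' K) = 0 := by
  have := un_prob hK
  obtain ⟨R, hR'⟩ := hK.1.isBounded.exists_norm_le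
  have hR : Bd (un K) R := (un_mem hK).mono hR'
  set b := ∫ x, x ∂un K with hb
  have e1 : volume ((fun k => k + -b) '' K) = volume K := by
    rw [image_add_right, measure_preimage_add_right]
  refine ⟨b, ⟨hK.1.image (by fun_prop), ?_, ?_⟩, e1, ?_, fun a => ?_⟩
  · simpa only [add_comm] using hK.2.1.translate (-b)
  · have := (Homeomorph.addRight (-b)).image_interior K
    simp only [Homeomorph.coe_addRight] at this
    rw [← this]
    exact hK.2.2.image _
  · unfold sigma projVol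
    refine iInf_congr fun L => iInf_congr fun _ => ?_
    simpa using vol_proj_affine L K zero_le_one (-b)
  · have e3 : ∫ x, ⟪x, a⟫ ∂un ((fun k => k + -b) '' K) = ∫ x, ⟪x + -b, a⟫ ∂un K := by
      simp only [un, ProbabilityTheory.cond, integral_smul_measure, e1]
      rw [(measurePreserving_add_right volume (-b)).setIntegral_image_emb
        (measurableEmbedding_addRight (-b))]
    have e4 : ∫ x, ⟪x, a⟫ ∂un K = ⟪b, a⟫ := by
      rw [hb, real_inner_comm, ← integral_inner (hR.int (f := fun x => x) continuous_id)]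
      simp only [real_inner_comm]
    rw [e3]
    simp only [inner_add_left]
    rw [integral_add (hR.int (by fun_prop)) (integrable_const _), e4]
    simp

/-- Half of a body lies in a thin spherical shell of bounded radius. -/
theorem shell_part (hn : 1 ≤ n) {K : Set (E n)} (hK : IsBody K) {P L A : ℝ} (P0 : 0 < P)
    (L0 : 0 < L) (hP : HP n P) (hD : HD n L)
    (hA : volume K ≤ ENNReal.ofReal A * sigma (n - 1) K) (A0 : 0 < A) :
    ∃ (c : E n) (a b : ℝ), 0 ≤ a ∧ a ≤ b ∧ b ≤ 4 * n * A ∧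
      b ^ 2 - a ^ 2 ≤ (2 ^ 9 * L * ((P * (1 + Real.log n)) ^ (1 / 4 : ℝ) *
        (n : ℝ) ^ (3 / 4 : ℝ)) * A) ^ 2 ∧
      ENNReal.ofReal (1 / 2) * volume K ≤ volume (K ∩ {x | a ≤ ‖x - c‖ ∧ ‖x - c‖ ≤ b}) := by
  have V0 := vol_toReal_pos hK
  have σ0 := sigma_toReal_pos hn hK
  have hW : (volume K).toReal / (sigma (n - 1) K).toReal ≤ A := by
    rw [div_le_iff₀ σ0, ← ENNReal.toReal_ofReal A0.le, ← ENNReal.toReal_mul]
    exact ENNReal.toReal_mono (ENNReal.mul_ne_top (by simp) (sigma_lt_top hn hK.1).ne) hA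
  obtain ⟨c, hK', e1, e2, h0⟩ := exists_center hK
  set K' := (fun x => x + -c) '' K with hK''
  have := un_prob hK'
  obtain ⟨T, lam, R, -, -, inj, iso, -⟩ := exists_diag hK' h0
  have : IsProbabilityMeasure ((un K').map T) :=
    Measure.isProbabilityMeasure_map T.continuous.measurable.aemeasurable
  have z0 : (0 : E n) ∈ K' := by
    have := iso.zero_mem
    rwa [← map_zero T, inj.mem_set_image] at this
  have n1 : (1 : ℝ) ≤ n := by exact_mod_cast hn
  have l0 := Real.log_nonneg n1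
  have hd : ∀ x ∈ K', ‖x‖ ≤ 4 * n * A := fun x hx => by
    have := diam_le hn hK' hx z0
    rw [sub_zero, e1, e2, ← le_div_iff₀ σ0, mul_div_assoc] at this
    exact this.trans (mul_le_mul_of_nonneg_left hW (by positivity))
  have hv := var_norm hn hK' h0 P0.le hP hD
  rw [e1, e2] at hv
  have q := quart (k := P * (1 + Real.log n)) (m := n) (by positivity) (by positivity)
  have s0 : 0 < (P * (1 + Real.log n)) ^ (1 / 4 : ℝ) * (n : ℝ) ^ (3 / 4 : ℝ) := by positivity
  set s := (P * (1 + Real.log n)) ^ (1 / 4 : ℝ) * (n : ℝ) ^ (3 / 4 : ℝ) with hs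
  obtain ⟨a, b, a0, hab, h1, h2⟩ := shell_var ((un_mem hK').mono hd)
    (B := (2 ^ 8 * L * s * A) ^ 2) (by positivity) (hv.trans (by
      have : ((2 ^ 8 * L * s * A) ^ 2) ^ 2 = 2 ^ 32 * (L * A) ^ 4 * s ^ 4 := by ring
      rw [this, q, ← mul_assoc (2 ^ 32 * (L * A) ^ 4)]
      gcongr))
  have R0 : 0 ≤ 4 * n * A := by positivity
  refine ⟨c, min a (4 * n * A), min b (4 * n * A), le_min a0 R0, min_le_min_right _ hab,
    min_le_right _ _, ?_, ?_⟩
  · have h3 : min b (4 * n * A) ^ 2 - min a (4 * n * A) ^ 2 ≤ b ^ 2 - a ^ 2 := by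
      have := pow_le_pow_left₀ a0 hab 2
      rcases le_total a (4 * n * A) with h | h
      · rw [min_eq_left h]
        linarith [pow_le_pow_left₀ (le_min (a0.trans hab) R0) (min_le_left b (4 * n * A)) 2]
      · rw [min_eq_right h, min_eq_right (h.trans hab)]
        linarith
    linarith
  · have h3 := un_vol hK' (S := K' ∩ {x | a ≤ ‖x‖ ∧ ‖x‖ ≤ b}) inter_subset_left
      (h2.trans (le_of_eq (measureReal_congr (by
        filter_upwards [un_mem hK'] with x hx
        exact propext ⟨fun h => ⟨hx, h⟩, fun h => h.2⟩))))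
    rw [e1, ← measure_preimage_add_right volume (-c) (K' ∩ _)] at h3
    refine h3.trans (measure_mono ?_)
    rintro x ⟨h4, h5, h6⟩
    have h7 := hd _ h4
    simp only [← sub_eq_add_neg] at h5 h6 h7
    exact ⟨(add_left_injective (-c)).mem_set_image.1 h4, (min_le_left _ _).trans h5, le_min h6 h7⟩

/-- Axes of a body: a linear image with large shadows, and a small shadow along the axes. -/
def Axes (n k : ℕ) (A Γ : ℝ) : Prop :=
  ∀ K : Set (E n), IsBody K → ∃ (T : E n ≃L[ℝ] E n) (u : Fin k → E n) (r : Fin k → ℝ),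
    (∀ j, 0 < r j) ∧ (∀ j x, (∀ i < j, ⟪x, u i⟫ = 0) → ‖x‖ ≤ r j * ‖T x‖) ∧
    volume (T '' K) ≤ ENNReal.ofReal A * sigma (n - 1) (T '' K) ∧
    ENNReal.ofReal (∏ j, r j) * sigma (n - k) K ≤ ENNReal.ofReal Γ * volume K

/-- The lower bound in codimension `k`. -/
theorem lower_k (hk : 2 ≤ k) (hkn : k ≤ n) {P L A Γ : ℝ} (P0 : 0 < P) (L0 : 0 < L) (A0 : 0 < A)
    (Γ0 : 0 < Γ) (hP : HP n P) (hD : HD n L) (h : Axes n k A Γ) :
    ENNReal.ofReal (1 / (2 * Γ * (k * (4 * n * A) ^ (k - 2) *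
      (2 ^ 9 * L * ((P * (1 + Real.log n)) ^ (1 / 4 : ℝ) * (n : ℝ) ^ (3 / 4 : ℝ)) * A) ^ 2 *
        (volume (Metric.closedBall (0 : E k) 1)).toReal))) ≤ cst n (n - k) := by
  have hn : 1 ≤ n := by omega
  have n1 : (1 : ℝ) ≤ n := by exact_mod_cast hn
  have k0 : (0 : ℝ) < k := by exact_mod_cast (by omega : 0 < k)
  have l0 := Real.log_nonneg n1
  have ω0 : 0 < (volume (Metric.closedBall (0 : E k) 1)).toReal :=
    ENNReal.toReal_pos (Metric.measure_closedBall_pos _ _ one_pos).ne' measure_closedBall_lt_top.ne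
  refine le_cst fun K hK ι _ G hG hc => ?_
  obtain ⟨T, u, r, r0, hT, h1, h2⟩ := h K hK
  have hK' : IsBody (T '' K) := by
    refine ⟨hK.1.image T.continuous, hK.2.1.linear_image (T : E n →ₗ[ℝ] E n), ?_⟩
    have := T.toHomeomorph.image_interior K
    simp only [ContinuousLinearEquiv.coe_toHomeomorph] at this
    rw [← this]
    exact hK.2.2.image _
  obtain ⟨c, a, b, a0, ab, b1, b2, b3⟩ := shell_part hn hK' P0 L0 hP hD h1 A0
  have Q0 : 0 < k * (4 * n * A) ^ (k - 2) *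
      (2 ^ 9 * L * ((P * (1 + Real.log n)) ^ (1 / 4 : ℝ) * (n : ℝ) ^ (3 / 4 : ℝ)) * A) ^ 2 := by
    positivity
  have b4 : k * b ^ (k - 2) * (b ^ 2 - a ^ 2) ≤ k * (4 * n * A) ^ (k - 2) *
      (2 ^ 9 * L * ((P * (1 + Real.log n)) ^ (1 / 4 : ℝ) * (n : ℝ) ^ (3 / 4 : ℝ)) * A) ^ 2 := by
    have : 0 ≤ b ^ 2 - a ^ 2 := sub_nonneg.2 (pow_le_pow_left₀ a0 ab 2)
    have b0 := a0.trans ab
    gcongr
  set Q := k * (4 * n * A) ^ (k - 2) *
      (2 ^ 9 * L * ((P * (1 + Real.log n)) ^ (1 / 4 : ℝ) * (n : ℝ) ^ (3 / 4 : ℝ)) * A) ^ 2 with hQ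
  set ω := (volume (Metric.closedBall (0 : E k) 1)).toReal with hω
  set Sh := {x : E n | a ≤ ‖x - c‖ ∧ ‖x - c‖ ≤ b} with hSh
  have mS : MeasurableSet Sh := meas_shell c a b
  have p0 : 0 < ∏ j, r j := Finset.prod_pos fun j _ => r0 j
  have h3 := cover_lower hkn (S := K ∩ T ⁻¹' Sh) (Δ := ENNReal.ofReal ((∏ j, r j) * (Q * ω)))
    (hK.1.measurableSet.inter (T.continuous.measurable mS)) (by simp; positivity) (by simp)
    (fun U x => by
      refine le_trans (measure_mono fun v hv => hv.2)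
        ((flat_shell hk (T : E n →L[ℝ] E n) u r r0 hT U c x a0 ab).trans ?_)
      rw [← mul_assoc _ Q, ENNReal.ofReal_mul (p := (∏ j, r j) * Q) (by positivity), hω,
        ENNReal.ofReal_toReal measure_closedBall_lt_top.ne]
      gcongr) G (fun i => (hG i).1.measurableSet) (inter_subset_left.trans hc)
  have h4 : ENNReal.ofReal (1 / 2) * volume K ≤ volume (K ∩ T ⁻¹' Sh) := by
    rw [← image_inter_preimage, Measure.addHaar_image_continuousLinearEquiv,
      Measure.addHaar_image_continuousLinearEquiv, mul_left_comm] at b3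
    refine (ENNReal.mul_le_mul_iff_right ?_ (by simp)).1 b3
    simpa using (T : E n ≃ₗ[ℝ] E n).isUnit_det'.ne_zero
  have h5 : ENNReal.ofReal (∏ j, r j) * (ENNReal.ofReal (1 / (2 * Γ * (Q * ω))) * sigma (n - k) K) ≤
      ENNReal.ofReal (∏ j, r j) * ∑' i, sigma (n - k) (G i) := by
    rw [mul_left_comm]
    refine (mul_le_mul_right h2 _).trans ?_
    rw [← mul_assoc, ← ENNReal.ofReal_mul (by positivity),
      show 1 / (2 * Γ * (Q * ω)) * Γ = (Q * ω)⁻¹ * (1 / 2) by field_simp,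
      ENNReal.ofReal_mul (by positivity), mul_assoc]
    refine (mul_le_mul_right (h4.trans h3) _).trans (le_of_eq ?_)
    rw [← mul_assoc, ← ENNReal.ofReal_mul (by positivity)]
    congr 2
    field_simp
  have h6 := (ENNReal.mul_le_mul_iff_right (by simpa using p0) (by simp)).1 h5
  have s1 : sigma (n - k) K ≠ ⊤ := fun e => by
    rw [e, ENNReal.mul_top (by simpa using p0), top_le_iff] at h2
    exact ENNReal.mul_ne_top (by simp) hK.1.measure_ne_top h2
  have s0 : sigma (n - k) K ≠ 0 := fun e => by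
    obtain ⟨R, hR⟩ := hK.1.isBounded.subset_closedBall 0
    have := cover_lower hkn hK.1.measurableSet
      (Δ := ENNReal.ofReal ((∏ j, r j) * (k * (‖(T : E n →L[ℝ] E n)‖ * |R|) ^ (k - 2) *
        ((‖(T : E n →L[ℝ] E n)‖ * |R|) ^ 2 - 0 ^ 2))) * volume (Metric.closedBall (0 : E k) 1) + 1)
      (by simp) (by simp [ENNReal.mul_ne_top, measure_closedBall_lt_top.ne])
      (fun U x => le_trans (measure_mono fun v hv => ?_)
        ((flat_shell hk (T : E n →L[ℝ] E n) u r r0 hT U 0 x le_rfl (by positivity)).trans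
          le_self_add)) (fun _ : Unit => K) (fun _ => hK.1.measurableSet)
      (subset_iUnion (fun _ : Unit => K) ())
    · exact vol_ne_zero hK (by simpa [e] using this)
    · refine ⟨norm_nonneg _, ?_⟩
      rw [sub_zero]
      exact ((T : E n →L[ℝ] E n).le_opNorm _).trans (mul_le_mul_of_nonneg_left
        ((mem_closedBall_zero_iff.1 (hR hv)).trans (le_abs_self R)) (norm_nonneg _))
  exact (ENNReal.le_div_iff_mul_le (Or.inl s0) (Or.inl s1)).2 h6

end Pool.Agent.Lib.MP_fedf83_gt.FL
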