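import Pool.Agent.Lib.MP_fedf83_gt.KAxes
import Pool.Agent.Lib.MP_fedf83_gt.KProj
import Pool.Agent.Lib.MP_fedf83_gt.KShell

/-! The axes together with the bound for the least shadow. -/

namespace Pool.Agent.Lib.MP_fedf83_gt.FL

open MeasureTheory Set Pool.Agent.Lib.MP_fedf83_gt.B
open scoped ENNReal RealInnerProductSpace

variable {n k : ℕ}

theorem exists_diagT (u : OrthonormalBasis (Fin n) ℝ (E n)) (r : Fin n → ℝ) :
    ∃ T : E n →L[ℝ] E n, ∀ x, T x = ∑ i, (⟪x, u i⟫ / r i) • u i :=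
  ⟨∑ i, (r i)⁻¹ • (innerSL ℝ (u i)).smulRight (u i), fun x => by
    simp only [sum_apply, smul_apply,
      ContinuousLinearMap.smulRight_apply, innerSL_apply_apply, smul_smul, div_eq_inv_mul,
      real_inner_comm]⟩

theorem diag_norm (u : OrthonormalBasis (Fin n) ℝ (E n)) {r : Fin n → ℝ} (r0 : ∀ i, 0 < r i)
    (ra : Antitone r) {T : E n →L[ℝ] E n} (hT : ∀ x, T x = ∑ i, (⟪x, u i⟫ / r i) • u i)
    (j : Fin n) (x : E n) (h : ∀ i < j, ⟪u i, x⟫ = 0) : ‖x‖ ≤ r j * ‖T x‖ := by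
  refine (abs_le_of_sq_le_sq' ?_ (mul_nonneg (r0 j).le (norm_nonneg _))).2
  rw [mul_pow, ← u.sum_sq_inner_right, ← u.sum_sq_inner_right, Finset.mul_sum]
  refine Finset.sum_le_sum fun i _ => ?_
  rw [diag_inner u r hT]
  rcases lt_or_ge i j with h1 | h1
  · simp [h i h1]
  · have p := pow_pos (r0 i) 2
    rw [div_pow, ← mul_div_assoc, le_div_iff₀ p, mul_comm]
    exact mul_le_mul_of_nonneg_right (pow_le_pow_left₀ (r0 i).le (ra h1) 2) (sq_nonneg _)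

/-- L1 and L2 together. -/
theorem axes_in (k : ℕ) (h1 : 1 ≤ k) :
    ∃ A : ℝ, 0 < A ∧ ∃ Γ : ℝ, 0 < Γ ∧ ∀ n : ℕ, k ≤ n → Axes n k A Γ := by
  refine ⟨Cax k, Cax_pos k, 2 * (4 * k) ^ k, by positivity, fun n hk K hK => ?_⟩
  obtain ⟨u, r, r0, ra, hT, hV⟩ := axes h1 hk hK
  obtain ⟨T, e⟩ := exists_diagT u r
  refine ⟨(LinearEquiv.ofBijective (T : E n →ₗ[ℝ] E n) (diag_bij u r0 e)).toContinuousLinearEquiv,
    fun i => u (Fin.castLE hk i), fun i => r (Fin.castLE hk i), fun _ => r0 _, fun j x h =>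
      diag_norm u r0 ra e _ x fun i hi => ?_, (hT T e).2, ?_⟩
  · rw [real_inner_comm]
    exact h ⟨i, lt_trans hi j.2⟩ hi
  · rw [mul_comm]
    refine KP.sigma_mul_prod_le hK h1 (u.orthonormal.comp _ (Fin.castLE_injective hk))
      (fun i => r0 _) ((ENNReal.div_le_of_le_mul' hV).trans
        (measure_mono fun x hx => ⟨hx.1, fun i => hx.2 _ i.2⟩))

end Pool.Agent.Lib.MP_fedf83_gt.FL
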