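import Pool.Agent.Lib.MP_fedf83_gt.PConc

/-! Isotropic log-concave measures: moments, side masses, truncated covariance. -/

namespace Pool.Agent.Lib.MP_fedf83_gt.P

open MeasureTheory Set Pool.Agent.Lib.MP_fedf83_gt.B
open scoped ENNReal RealInnerProductSpace

set_option linter.unusedSectionVars false

variable {n : ℕ} {μ : Measure (E n)} [IsProbabilityMeasure μ] {K : Set (E n)} {R : ℝ}

/-- An isotropic log-concave measure carried by the closed convex set `K`. -/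
structure Iso (μ : Measure (E n)) (K : Set (E n)) (R : ℝ) : Prop where
  lc : LC μ
  bd : Bd μ R
  mem : ∀ᵐ x ∂μ, x ∈ K
  cl : IsClosed K
  cv : Convex ℝ K
  m1 : ∀ a, ∫ x, ⟪x, a⟫ ∂μ = 0
  m2 : ∀ a, ∫ x, ⟪x, a⟫ ^ 2 ∂μ = ‖a‖ ^ 2

theorem inner_sum (x y : E n) : ⟪x, y⟫ = ∑ j, x j * y j := by
  simp [PiLp.inner_apply, mul_comm]

theorem sep_unit (hc : IsClosed K) (hv : Convex ℝ K) (hne : K.Nonempty) {z : E n} (hz : z ∉ K) :
    ∃ v : E n, ‖v‖ = 1 ∧ ∃ c : ℝ, (∀ a ∈ K, ⟪a, v⟫ ≤ c) ∧ c < ⟪z, v⟫ := by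
  obtain ⟨f, c, h1, h2⟩ := geometric_hahn_banach_closed_point hv hc hz
  set v := (InnerProductSpace.toDual ℝ (E n)).symm f with hv'
  have hf : ∀ x, f x = ⟪x, v⟫ := fun x => by
    rw [real_inner_comm, hv', InnerProductSpace.toDual_symm_apply]
  have v0 : v ≠ 0 := by
    intro h
    obtain ⟨a, ha⟩ := hne
    have := h1 a ha
    rw [hf, h, inner_zero_right] at this h2
    linarith
  have p : 0 < ‖v‖⁻¹ := inv_pos.2 (norm_pos_iff.2 v0)
  refine ⟨‖v‖⁻¹ • v, norm_smul_inv_norm v0, ‖v‖⁻¹ * c, fun a ha => ?_, ?_⟩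
  · rw [inner_smul_right, ← hf]
    exact mul_le_mul_of_nonneg_left (h1 a ha).le p.le
  · rw [inner_smul_right, ← hf]
    exact mul_lt_mul_of_pos_left h2 p

theorem Iso.four (h : Iso μ K R) {u : E n} (hu : ‖u‖ = 1) : ∫ x, ⟪x, u⟫ ^ 4 ∂μ ≤ 1400000 := by
  have hb := borell h.lc h.bd u one_pos (by rw [h.m2, hu])
  have := integral_mono (h.bd.int (f := fun x => ⟪x, u⟫ ^ 4) (by fun_prop))
    ((h.bd.int (f := fun x => Real.exp (|⟪x, u⟫| / (8 * 1))) (by fun_prop)).const_mul 98304)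
    fun x => by
      have := Real.pow_div_factorial_le_exp (|⟪x, u⟫| / (8 * 1)) (by positivity) 4
      rw [div_pow, Even.pow_abs (by decide)] at this
      norm_num [Nat.factorial] at this ⊢
      linarith
  rw [integral_const_mul] at this
  linarith

theorem side_poly (y : ℝ) : 2000 * y + y ^ 2 - y ^ 4 / 4000000 - 1 / 4 ≤ 24000000 ∧
    (y < 1 / 16000 → 2000 * y + y ^ 2 - y ^ 4 / 4000000 - 1 / 4 ≤ 0) := by
  obtain ⟨z, rfl⟩ : ∃ z, y = 2000 * z := ⟨y / 2000, by ring⟩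
  constructor
  · nlinarith [sq_nonneg (z ^ 2 - 1), sq_nonneg (z - 1)]
  · intro h
    rcases le_total 0 z with h0 | h0
    · nlinarith [sq_nonneg (z ^ 2)]
    · have : 0 ≤ 1 + z - z ^ 3 := by
        rcases le_total (-1) z with h1 | h1
        · nlinarith [mul_nonneg (neg_nonneg.2 h0) (sq_nonneg z)]
        · nlinarith [mul_nonneg (neg_nonneg.2 h0) (show 0 ≤ z ^ 2 - 1 by nlinarith)]
      nlinarith [mul_nonneg (neg_nonneg.2 h0) this]

theorem Iso.side (h : Iso μ K R) {u : E n} (hu : ‖u‖ = 1) :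
    1 / 10 ^ 8 ≤ μ.real {x | 1 / 16000 ≤ ⟪x, u⟫} := by
  have ms : MeasurableSet {x : E n | 1 / 16000 ≤ ⟪x, u⟫} :=
    (isClosed_le continuous_const (by fun_prop)).measurableSet
  have i1 := (h.bd.int (f := fun x => ⟪x, u⟫) (by fun_prop)).const_mul 2000
  have i2 := h.bd.int (f := fun x => ⟪x, u⟫ ^ 2) (by fun_prop)
  have i3 := (h.bd.int (f := fun x => ⟪x, u⟫ ^ 4) (by fun_prop)).div_const 4000000
  have := integral_mono (isub (isub (iadd i1 i2) i3) (integrable_const (1 / 4)))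
    (((integrable_const (1 : ℝ)).indicator ms).const_mul 24000000) fun x => by
      by_cases hx : 1 / 16000 ≤ ⟪x, u⟫
      · simp only [indicator_of_mem (show x ∈ {x : E n | 1 / 16000 ≤ ⟪x, u⟫} from hx), mul_one]
        exact (side_poly _).1
      · simp only [indicator_of_notMem (show x ∉ {x : E n | 1 / 16000 ≤ ⟪x, u⟫} from hx), mul_zero]
        exact (side_poly _).2 (not_le.1 hx)
  rw [integral_sub (isub (iadd i1 i2) i3) (integrable_const _), integral_sub (iadd i1 i2) i3,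
    integral_add i1 i2, integral_const_mul, integral_const_mul, integral_div, h.m1, h.m2, hu,
    integral_indicator_const _ ms] at this
  simp only [integral_const, probReal_univ, smul_eq_mul, one_mul, mul_one] at this
  linarith [h.four hu]

theorem Iso.supp (h : Iso μ K R) {v : E n} (hv : ‖v‖ = 1) {c : ℝ} (hc : ∀ a ∈ K, ⟪a, v⟫ ≤ c) :
    1 / 16000 ≤ c := by
  have h1 := h.side hv
  have h2 : μ {x | 1 / 16000 ≤ ⟪x, v⟫} ≠ 0 := by
    intro h0
    rw [Measure.real, h0] at h1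
    norm_num at h1
  obtain ⟨x, hx, hK⟩ := Measure.exists_mem_of_measure_ne_zero_of_ae h2 (ae_restrict_of_ae h.mem)
  exact le_trans hx (hc x hK)

theorem Iso.nonempty (h : Iso μ K R) : K.Nonempty := h.mem.exists

theorem Iso.zero_mem (h : Iso μ K R) : (0 : E n) ∈ K := by
  by_contra h0
  obtain ⟨v, hv, c, h1, h2⟩ := sep_unit h.cl h.cv h.nonempty h0
  rw [inner_zero_left] at h2
  linarith [h.supp hv h1]

theorem Iso.norm_sq (h : Iso μ K R) : ∫ x, ‖x‖ ^ 2 ∂μ = n := by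
  have : ∀ x : E n, ‖x‖ ^ 2 = ∑ j, ⟪x, EuclideanSpace.single j (1 : ℝ)⟫ ^ 2 := fun x => by
    simp [EuclideanSpace.real_norm_sq_eq, EuclideanSpace.inner_single_right]
  simp only [this]
  rw [integral_finsetSum _ fun j _ => h.bd.int (by fun_prop)]
  simp [h.m2]

theorem Iso.tail (h : Iso μ K R) {r : ℝ} (r0 : 0 < r) (hr : 10 ^ 10 * (n : ℝ) ≤ r ^ 2) :
    μ.real (Metric.closedBall (0 : E n) r)ᶜ ≤ 1 / 10 ^ 10 := by
  have h1 := mul_meas_ge_le_integral_of_nonneg (μ := μ) (f := fun x : E n => ‖x‖ ^ 2)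
    (ae_of_all _ fun x => sq_nonneg _) (h.bd.int (by fun_prop)) (r ^ 2)
  rw [h.norm_sq] at h1
  have h2 : μ.real (Metric.closedBall (0 : E n) r)ᶜ ≤ μ.real {x | r ^ 2 ≤ ‖x‖ ^ 2} :=
    measureReal_mono (fun x hx => by
      simp only [mem_compl_iff, mem_closedBall_zero_iff, not_le] at hx
      exact pow_le_pow_left₀ r0.le hx.le 2) (measure_ne_top μ _)
  have h3 : 0 < r ^ 2 := by positivity
  by_contra hc
  nlinarith [mul_lt_mul_of_pos_left ((not_le.1 hc).trans_le h2) h3]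

/-- Indicator of the ball. -/
noncomputable def chi (r : ℝ) : E n → ℝ := (Metric.closedBall (0 : E n) r).indicator 1

theorem chi_cases (r : ℝ) (x : E n) : (‖x‖ ≤ r ∧ chi r x = 1) ∨ (r < ‖x‖ ∧ chi r x = 0) := by
  by_cases h : ‖x‖ ≤ r
  · exact Or.inl ⟨h, indicator_of_mem (by simpa using h) _⟩
  · exact Or.inr ⟨not_le.1 h, indicator_of_notMem (by simpa using h) _⟩

theorem ker_chi (hR : Bd μ R) (r : ℝ) : Ker μ (chi r) 1 R :=
  ker_ind hR Metric.isClosed_closedBall.measurableSet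

theorem ker_chi_lin (hR : Bd μ R) (r : ℝ) (θ : E n) :
    Ker μ (fun x => chi r x * ⟪x, θ⟫) (R * ‖θ‖) R := by
  refine ⟨(ker_chi hR r).mh.mul (by fun_prop), ?_, hR⟩
  filter_upwards [hR] with x hx
  have h1 := (abs_real_inner_le_norm x θ).trans (mul_le_mul_of_nonneg_right hx (norm_nonneg θ))
  rcases chi_cases r x with h | h
  · rwa [h.2, one_mul]
  · rw [h.2, zero_mul, abs_zero]; exact (abs_nonneg _).trans h1

/-- The covariance operator of the measure restricted to the ball. -/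
noncomputable def cov (hR : Bd μ R) (r : ℝ) : E n →ₗ[ℝ] E n where
  toFun θ := ∫ x, (chi r x * ⟪x, θ⟫) • x ∂μ
  map_add' θ η := by
    rw [← integral_add ((ker_chi_lin hR r θ).int (f := fun y => y) continuous_id)
      ((ker_chi_lin hR r η).int (f := fun y => y) continuous_id)]
    simp only [inner_add_right, mul_add, add_smul]
  map_smul' t θ := by
    simp only [inner_smul_right, RingHom.id_apply, ← integral_smul, smul_smul, mul_left_comm]

theorem cov_inner (hR : Bd μ R) (r : ℝ) (θ w : E n) :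
    ⟪cov hR r θ, w⟫ = ∫ x, chi r x * ⟪x, θ⟫ * ⟪x, w⟫ ∂μ :=
  (ker_chi_lin hR r θ).inner_int w

theorem cov_symm (hR : Bd μ R) (r : ℝ) (θ w : E n) : ⟪cov hR r θ, w⟫ = ⟪θ, cov hR r w⟫ := by
  rw [real_inner_comm _ θ, cov_inner, cov_inner]
  simp only [mul_right_comm]

theorem Iso.cov_le (h : Iso μ K R) (r : ℝ) {u : E n} (hu : ‖u‖ = 1) : ‖cov h.bd r u‖ ^ 2 ≤ 1 := by
  set w := cov h.bd r u with hw
  have i1 := h.bd.int (f := fun x => ⟪x, u⟫ ^ 2) (by fun_prop)
  have i2 := h.bd.int (f := fun x => ⟪x, w⟫ ^ 2) (by fun_prop)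
  have h1 := integral_mono (((ker_chi_lin h.bd r u).int' (f := fun x => ⟪x, w⟫)
    (by fun_prop)).const_mul 2) (iadd i1 i2) fun x => by
      rcases chi_cases r x with e | e
      · simp only [e.2]; nlinarith [sq_nonneg (⟪x, u⟫ - ⟪x, w⟫)]
      · simp only [e.2]; nlinarith [sq_nonneg ⟪x, u⟫, sq_nonneg ⟪x, w⟫]
  rw [integral_const_mul, integral_add i1 i2, h.m2, h.m2, ← cov_inner h.bd, ← hw,
    real_inner_self_eq_norm_sq, hu] at h1
  linarith

theorem Iso.le_cov (h : Iso μ K R) {r : ℝ} (r0 : 0 < r) (hr : 10 ^ 10 * (n : ℝ) ≤ r ^ 2)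
    (θ : E n) : ‖θ‖ ≤ 2 * ‖cov h.bd r θ‖ := by
  have unit : ∀ u : E n, ‖u‖ = 1 → 1 ≤ 2 * ‖cov h.bd r u‖ := fun u hu => by
    have mB : MeasurableSet (Metric.closedBall (0 : E n) r) :=
      Metric.isClosed_closedBall.measurableSet
    have i1 := (ker_chi_lin h.bd r u).int' (f := fun x => ⟪x, u⟫) (by fun_prop)
    have i2 := (h.bd.int (f := fun x => ⟪x, u⟫ ^ 4) (by fun_prop)).div_const 5600000
    have i3 := (isub (integrable_const (1 : ℝ)) (ker_chi h.bd r).int0).const_mul 1400000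
    have h1 := integral_mono (h.bd.int (f := fun x => ⟪x, u⟫ ^ 2) (by fun_prop))
      (iadd (iadd i1 i2) i3) fun x => by
        rcases chi_cases r x with e | e
        · simp only [e.2]; nlinarith [sq_nonneg (⟪x, u⟫ ^ 2)]
        · simp only [e.2]; nlinarith [sq_nonneg (⟪x, u⟫ ^ 2 - 2800000)]
    rw [integral_add (iadd i1 i2) i3, integral_add i1 i2, integral_div, integral_const_mul,
      integral_sub (integrable_const _) (ker_chi h.bd r).int0, h.m2, hu, ← cov_inner h.bd, chi,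
      integral_indicator_one mB] at h1
    simp only [integral_const, probReal_univ, smul_eq_mul, mul_one] at h1
    have h2 := h.tail r0 hr
    rw [probReal_compl_eq_one_sub mB] at h2
    have h3 := real_inner_le_norm (cov h.bd r u) u
    rw [hu] at h3
    linarith [h.four hu]
  rcases eq_or_ne θ 0 with rfl | h0
  · simp
  · have := unit _ (norm_smul_inv_norm (𝕜 := ℝ) h0)
    have p : 0 < ‖θ‖ := norm_pos_iff.2 h0
    rw [map_smul, norm_smul, RCLike.ofReal_real_eq_id, id, norm_inv, norm_norm, mul_left_comm,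
      inv_mul_eq_div, le_div_iff₀ p] at this
    linarith

theorem Iso.cov_surj (h : Iso μ K R) {r : ℝ} (r0 : 0 < r) (hr : 10 ^ 10 * (n : ℝ) ≤ r ^ 2)
    (w : E n) : ∃ θ, cov h.bd r θ = w ∧ ‖θ‖ ≤ 2 * ‖w‖ := by
  have inj : Function.Injective (cov h.bd r) := by
    rw [← LinearMap.ker_eq_bot, LinearMap.ker_eq_bot']
    intro θ hθ
    have := h.le_cov r0 hr θ
    rw [hθ, norm_zero, mul_zero] at this
    exact norm_le_zero_iff.1 this
  obtain ⟨θ, hθ⟩ := LinearMap.injective_iff_surjective.1 inj w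
  exact ⟨θ, hθ, hθ ▸ h.le_cov r0 hr θ⟩

end Pool.Agent.Lib.MP_fedf83_gt.P
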