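import Pool.Agent.Lib.MP_fedf83_gt.LChen
import Pool.Agent.Lib.MP_fedf83_gt.PIso

/-! Moment bounds: crude bounds for traces of powers of posterior covariance matrices. -/

namespace Pool.Agent.Lib.MP_fedf83_gt.P

open MeasureTheory Set Pool.Agent.Lib.MP_fedf83_gt.B Matrix
open scoped ENNReal RealInnerProductSpace

variable {n : ℕ} {μ : Measure (E n)} [IsProbabilityMeasure μ] {K : Set (E n)} {R : ℝ}

theorem Bd.ker (hR : Bd μ R) {f : E n → ℝ} (cf : Continuous f) : ∃ H, Ker μ f H R := by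
  obtain ⟨C, hC⟩ := (isCompact_closedBall (0 : E n) R).exists_bound_of_continuousOn
    cf.continuousOn
  refine ⟨C, cf.measurable, ?_, hR⟩
  filter_upwards [hR] with x hx using hC x (by simpa using hx)

/-- A nonnegative functional dominated by a posterior integral. -/
theorem Bd.EX_le_int (hR : Bd μ R) (s : ℝ) {F : Measure (E n) → ℝ} {f : E n → ℝ}
    (cf : Continuous f) (F0 : ∀ θ, 0 ≤ F (P.tilt μ (s ^ 2) θ))
    (h : ∀ θ, F (P.tilt μ (s ^ 2) θ) ≤ ∫ x, f x ∂P.tilt μ (s ^ 2) θ) :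
    EX μ s F ≤ ∫ x, f x ∂μ := by
  obtain ⟨H, k⟩ := hR.ker cf
  rw [← k.mean s]
  refine integral_mono_of_nonneg (ae_of_all _ fun g => mul_nonneg (F0 _) (hR.AA_pos s g).le)
    (k.gr s).int (ae_of_all _ fun g => ?_)
  simp only
  rw [← hR.post_mul s g f]
  exact mul_le_mul_of_nonneg_right (h _) (hR.AA_pos s g).le

/-- Jensen for powers. -/
theorem Bd.pow_int_le (hR : Bd μ R) {f : E n → ℝ} (cf : Continuous f) (f0 : ∀ x, 0 ≤ f x)
    (m : ℕ) : (∫ x, f x ∂μ) ^ m ≤ ∫ x, f x ^ m ∂μ :=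
  (convexOn_pow m).map_integral_le (by fun_prop) isClosed_Ici (ae_of_all _ f0) (hR.int cf)
    (hR.int (f := fun x => f x ^ m) (by fun_prop))

theorem Bd.trace_cov (hR : Bd μ R) : trace (covM μ) = ∫ x, ‖x - mean μ‖ ^ 2 ∂μ := by
  simp only [EuclideanSpace.real_norm_sq_eq]
  simp only [Matrix.trace, diag_apply, covM, sq]
  rw [integral_finsetSum _ fun i _ => hR.int (by fun_prop)]

theorem Bd.var_norm (hR : Bd μ R) :
    ∫ x, ‖x - mean μ‖ ^ 2 ∂μ = (∫ x, ‖x‖ ^ 2 ∂μ) - ‖mean μ‖ ^ 2 := by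
  have e : ∀ x : E n, ‖x - mean μ‖ ^ 2 = ‖x‖ ^ 2 - 2 * ⟪mean μ, x⟫ + ‖mean μ‖ ^ 2 := fun x => by
    rw [norm_sub_sq_real, real_inner_comm]
  simp only [e]
  rw [integral_add (hR.int (by fun_prop)) (hR.int (by fun_prop)),
    integral_sub (hR.int (by fun_prop)) (hR.int (by fun_prop)), integral_const_mul,
    ← hR.mean_inner, real_inner_self_eq_norm_sq]
  simp only [integral_const, probReal_univ, smul_eq_mul, one_mul]
  ring

theorem Bd.trace_cov_le (hR : Bd μ R) : trace (covM μ) ≤ ∫ x, ‖x‖ ^ 2 ∂μ := by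
  rw [hR.trace_cov, hR.var_norm]
  exact sub_le_self _ (sq_nonneg _)

theorem Bd.trace_pow_nonneg (hR : Bd μ R) (q : ℕ) : 0 ≤ trace (covM μ ^ q) := by
  obtain ⟨U, d, hd, h1, h2, hA⟩ := T.spectral hR.covM_psd
  rw [trace_pow_eq h1 h2 hA]
  exact Finset.sum_nonneg fun i _ => pow_nonneg (hd i) _

theorem Bd.trace_pow_le (hR : Bd μ R) {q : ℕ} (hq : q ≠ 0) :
    trace (covM μ ^ q) ≤ trace (covM μ) ^ q := by
  obtain ⟨U, d, hd, h1, h2, hA⟩ := T.spectral hR.covM_psd
  have e := trace_pow_eq h1 h2 hA 1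
  simp only [pow_one] at e
  obtain ⟨m, rfl⟩ := Nat.exists_eq_succ_of_ne_zero hq
  rw [trace_pow_eq h1 h2 hA, e, pow_succ, Finset.mul_sum]
  refine Finset.sum_le_sum fun i _ => ?_
  rw [pow_succ]
  exact mul_le_mul_of_nonneg_right (pow_le_pow_left₀ (hd i)
    (Finset.single_le_sum (fun j _ => hd j) (Finset.mem_univ i)) m) (hd i)

theorem Bd.trace_pow_pow (hR : Bd μ R) {q : ℕ} (hq : q ≠ 0) (r : ℕ) :
    trace (covM μ ^ q) ^ r ≤ ∫ x, (‖x‖ ^ 2) ^ (q * r) ∂μ := by
  have h0 := hR.trace_pow_nonneg 1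
  rw [pow_one] at h0
  refine le_trans ?_ (hR.pow_int_le (f := fun x => ‖x‖ ^ 2) (by fun_prop)
    (fun x => sq_nonneg _) _)
  rw [pow_mul]
  exact pow_le_pow_left₀ (hR.trace_pow_nonneg q)
    ((hR.trace_pow_le hq).trans (pow_le_pow_left₀ h0 hR.trace_cov_le q)) r

/-- A uniform bound on the ball. -/
theorem Bd.trace_pow_bd (hR : Bd μ R) {q : ℕ} (hq : q ≠ 0) :
    trace (covM μ ^ q) ≤ (R ^ 2) ^ q := by
  have h := hR.trace_pow_pow hq 1
  rw [pow_one, mul_one] at h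
  refine h.trans ?_
  have := integral_mono_ae (hR.int (f := fun x => (‖x‖ ^ 2) ^ q) (by fun_prop))
    (integrable_const ((R ^ 2) ^ q)) (by
      filter_upwards [hR] with x hx
      exact pow_le_pow_left₀ (sq_nonneg _) (pow_le_pow_left₀ (norm_nonneg _) hx 2) q)
  simpa using this

/-- If the trace of a power is at most `l` to that power, every trace of a power is small. -/
theorem Bd.trace_pow_of_le (hR : Bd μ R) {Q : ℕ} (hQ : Q ≠ 0) {l : ℝ} (l0 : 0 ≤ l)
    (h : trace (covM μ ^ Q) ≤ l ^ Q) (q : ℕ) : trace (covM μ ^ q) ≤ n * l ^ q := by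
  obtain ⟨U, d, hd, h1, h2, hA⟩ := T.spectral hR.covM_psd
  rw [trace_pow_eq h1 h2 hA] at h ⊢
  have dl : ∀ i, d i ≤ l := fun i =>
    le_of_pow_le_pow_left₀ hQ l0
      ((Finset.single_le_sum (f := fun i => d i ^ Q) (fun i _ => pow_nonneg (hd i) _)
        (Finset.mem_univ i)).trans h)
  have := Finset.sum_le_card_nsmul Finset.univ (fun i => d i ^ q) (l ^ q)
    fun i _ => pow_le_pow_left₀ (hd i) (dl i) q
  simpa using this

/-- The constant in the moment bound. -/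
def cm (m : ℕ) : ℝ := 14 * 64 ^ m * (2 * m).factorial

theorem one_le_cm (m : ℕ) : 1 ≤ cm m := by
  have h1 : (1 : ℝ) ≤ 64 ^ m := one_le_pow₀ (by norm_num)
  have h2 : (1 : ℝ) ≤ (2 * m).factorial := by exact_mod_cast Nat.factorial_pos _
  unfold cm
  nlinarith

/-- Even moments of a linear form under a log-concave measure. -/
theorem LC.mom (hl : LC μ) (hR : Bd μ R) (a : E n) {v : ℝ} (hv : 0 < v)
    (h2 : ∫ x, ⟪x, a⟫ ^ 2 ∂μ ≤ v ^ 2) (m : ℕ) :
    ∫ x, (⟪x, a⟫ ^ 2) ^ m ∂μ ≤ cm m * (v ^ 2) ^ m := by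
  have hb := borell hl hR a hv h2
  have := integral_mono (hR.int (f := fun x => (⟪x, a⟫ ^ 2) ^ m) (by fun_prop))
    ((hR.int (f := fun x => Real.exp (|⟪x, a⟫| / (8 * v))) (by fun_prop)).const_mul
      (64 ^ m * (2 * m).factorial * (v ^ 2) ^ m)) fun x => by
      have h := Real.pow_div_factorial_le_exp (|⟪x, a⟫| / (8 * v)) (by positivity) (2 * m)
      rw [div_pow, pow_mul, pow_mul, sq_abs, div_div, div_le_iff₀ (by positivity)] at h
      refine h.trans (le_of_eq ?_)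
      rw [mul_pow, mul_pow]
      norm_num
      ring
  rw [integral_const_mul] at this
  refine this.trans ((mul_le_mul_of_nonneg_left hb (by positivity)).trans (le_of_eq ?_))
  unfold cm
  ring

theorem Iso.norm_mom (h : Iso μ K R) (m : ℕ) : ∫ x, (‖x‖ ^ 2) ^ m ∂μ ≤ cm m * n ^ m := by
  rcases m with _ | m
  · simpa using one_le_cm 0
  have h1 : ∀ j : Fin n, ∫ x, (x j ^ 2) ^ (m + 1) ∂μ ≤ cm (m + 1) := fun j => by
    have := h.lc.mom h.bd (EuclideanSpace.single j 1) one_pos (by rw [h.m2]; simp) (m + 1)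
    simpa [EuclideanSpace.inner_single_right] using this
  have h2 := integral_mono (h.bd.int (f := fun x => (‖x‖ ^ 2) ^ (m + 1)) (by fun_prop))
    (h.bd.int (f := fun x => (n : ℝ) ^ m * ∑ j, (x j ^ 2) ^ (m + 1)) (by fun_prop)) fun x => by
      have := pow_sum_le_card_mul_sum_pow (s := Finset.univ) (f := fun j => x j ^ 2)
        (fun j _ => sq_nonneg _) m
      simpa [EuclideanSpace.real_norm_sq_eq] using this
  rw [integral_const_mul, integral_finsetSum _ fun i _ => h.bd.int (by fun_prop)] at h2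
  have h3 := Finset.sum_le_card_nsmul Finset.univ _ _ fun j _ => h1 j
  simp only [Finset.card_univ, Fintype.card_fin, nsmul_eq_mul] at h3
  refine h2.trans ((mul_le_mul_of_nonneg_left h3 (by positivity)).trans (le_of_eq ?_))
  ring

/-- The crude bound for all moments of traces of powers along the posterior. -/
theorem Iso.EX_trace (h : Iso μ K R) (s : ℝ) {q : ℕ} (hq : q ≠ 0) (r : ℕ) :
    EX μ s (fun p => trace (covM p ^ q) ^ r) ≤ cm (q * r) * n ^ (q * r) := by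
  refine le_trans (h.bd.EX_le_int s (f := fun x => (‖x‖ ^ 2) ^ (q * r)) (by fun_prop)
    (fun θ => ?_) fun θ => ?_) (h.norm_mom _)
  · have := h.bd.tilt_prob (s ^ 2) θ
    exact pow_nonneg ((h.bd.tilt _ θ).trace_pow_nonneg q) r
  · have := h.bd.tilt_prob (s ^ 2) θ
    exact (h.bd.tilt _ θ).trace_pow_pow hq r

end Pool.Agent.Lib.MP_fedf83_gt.P
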