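import Pool.Agent.Lib.MP_fedf83_gt.LMean
import Pool.Agent.Lib.MP_fedf83_gt.LMom

/-! From a trace moment bound to a majorant of the posterior covariance. -/

namespace Pool.Agent.Lib.MP_fedf83_gt.P

open MeasureTheory Set Pool.Agent.Lib.MP_fedf83_gt.B Matrix
open scoped ENNReal RealInnerProductSpace

variable {n : ℕ} {μ : Measure (E n)} [IsProbabilityMeasure μ] {R : ℝ}

theorem Bd.form_le (hR : Bd μ R) {q : ℕ} (hq : q ≠ 0) {l : ℝ} (l0 : 0 ≤ l)
    (h : trace (covM μ ^ q) ≤ l ^ q) (v : E n) :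
    ∫ x, ⟪v, x - mean μ⟫ ^ 2 ∂μ ≤ l * ‖v‖ ^ 2 := by
  obtain ⟨U, d, hd, h1, h2, hA⟩ := T.spectral hR.covM_psd
  rw [trace_pow_eq h1 h2 hA] at h
  have dl : ∀ i, d i ≤ l := fun i =>
    le_of_pow_le_pow_left₀ hq l0
      ((Finset.single_le_sum (f := fun i => d i ^ q) (fun i _ => pow_nonneg (hd i) _)
        (Finset.mem_univ i)).trans h)
  have e : ∀ x : E n, ⟪v, x - mean μ⟫ = ∑ j, (∑ a, U a j * v a) * zc μ U j x := fun x => by
    have : (Uᵀ *ᵥ v.ofLp) ⬝ᵥ (Uᵀ *ᵥ (x - mean μ).ofLp) = v.ofLp ⬝ᵥ (x - mean μ).ofLp := by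
      rw [dotProduct_mulVec, vecMul_transpose, mulVec_mulVec, h2, one_mulVec]
    rw [inner_dot, ← this]
    rfl
  simp only [e]
  rw [hR.lin_sq h1 hA, EuclideanSpace.real_norm_sq_eq, ← orth_sq h2, Finset.mul_sum]
  exact Finset.sum_le_sum fun j _ => by
    rw [mul_comm l]
    exact mul_le_mul_of_nonneg_left (dl j) (sq_nonneg _)

theorem lam_of_phase (hR : Bd μ R) {q : ℕ} (hq : 4 ≤ q) {b T : ℝ} (hb : 1 ≤ b)
    (h : ∀ t, 0 ≤ t → t ≤ T → EX μ (√t) (fun p => trace (covM p ^ q)) ≤ b ^ q) :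
    ∃ Λ, Lam μ Λ T (2 * b ^ 4) := by
  have q0 : q ≠ 0 := by omega
  have b0 : 0 < b := by linarith
  have reg : Reg μ fun p => max b (trace (covM p ^ q) ^ ((q : ℝ)⁻¹)) :=
    (reg_trace hR q).comp (φ := fun z => max b (z ^ ((q : ℝ)⁻¹)))
      (continuous_const.max (Real.continuous_rpow_const (by positivity)))
  refine ⟨_, reg, fun t θ => hb.trans (le_max_left _ _), fun t θ v => ?_, fun t t0 tT => ?_⟩
  · have := hR.tilt_prob t θ
    refine (hR.tilt t θ).form_le q0 (b0.le.trans (le_max_left _ _)) ?_ v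
    have h0 := (hR.tilt t θ).trace_pow_nonneg q
    conv_lhs => rw [← Real.rpow_inv_natCast_pow h0 q0]
    exact pow_le_pow_left₀ (Real.rpow_nonneg h0 _) (le_max_right _ _) q
  · have r2 := (reg_trace hR q).const_mul (b ^ 4 / b ^ q)
    refine (EX_mono hR ((reg.pow 4).ei hR _) (((reg_const (b ^ 4)).add r2).ei hR _)
      fun θ => ?_).trans ?_
    · have := hR.tilt_prob (√t ^ 2) θ
      have h0 := (hR.tilt (√t ^ 2) θ).trace_pow_nonneg q
      have e := Real.rpow_inv_natCast_pow h0 q0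
      generalize trace (covM (tilt μ (√t ^ 2) θ) ^ q) = Φ at *
      generalize Φ ^ ((q : ℝ)⁻¹) = z at *
      rcases le_total z b with hz | hz
      · rw [max_eq_left hz]
        exact le_add_of_nonneg_right (by positivity)
      · rw [max_eq_right hz, ← e]
        have h1 : (z / b) ^ 4 ≤ (z / b) ^ q := pow_le_pow_right₀ ((one_le_div b0).2 hz) hq
        rw [div_pow, div_pow, div_le_iff₀ (by positivity)] at h1
        refine h1.trans ?_
        rw [show z ^ q / b ^ q * b ^ 4 = b ^ 4 / b ^ q * z ^ q by ring]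
        exact le_add_of_nonneg_left (by positivity)
    · rw [EX_add ((reg_const _).ei hR _) (r2.ei hR _), EX_const hR, EX_const_mul]
      have := mul_le_mul_of_nonneg_left (h t t0 tT) (show 0 ≤ b ^ 4 / b ^ q by positivity)
      rw [div_mul_cancel₀ _ (by positivity)] at this
      linarith

end Pool.Agent.Lib.MP_fedf83_gt.P
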