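import Mathlib

/-! Second order expansion of the trace of a matrix power. -/

namespace Pool.Agent.Lib.MP_fedf83_gt.T

open Matrix Finset

variable {n : ℕ}

/-- Entrywise bound. -/
def Bnd (X : Matrix (Fin n) (Fin n) ℝ) (c : ℝ) : Prop := ∀ i j, |X i j| ≤ c

theorem Bnd.mono {X : Matrix (Fin n) (Fin n) ℝ} {a b : ℝ} (h : Bnd X a) (hab : a ≤ b) :
    Bnd X b := fun i j => (h i j).trans hab

theorem Bnd.add {X Y : Matrix (Fin n) (Fin n) ℝ} {a b : ℝ} (h : Bnd X a) (h' : Bnd Y b) :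
    Bnd (X + Y) (a + b) := fun i j => (abs_add_le _ _).trans (add_le_add (h i j) (h' i j))

theorem Bnd.mul {X Y : Matrix (Fin n) (Fin n) ℝ} {a b : ℝ} (h : Bnd X a) (h' : Bnd Y b) :
    Bnd (X * Y) (n * (a * b)) := fun i j => by
  rw [mul_apply]
  refine (abs_sum_le_sum_abs _ _).trans ((sum_le_card_nsmul _ _ (a * b) fun k _ => ?_).trans ?_)
  · rw [abs_mul]
    exact mul_le_mul (h i k) (h' k j) (abs_nonneg _) ((abs_nonneg _).trans (h i k))
  · simp

theorem Bnd.trace {X : Matrix (Fin n) (Fin n) ℝ} {a : ℝ} (h : Bnd X a) : |trace X| ≤ n * a := by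
  rw [Matrix.trace]
  refine (abs_sum_le_sum_abs _ _).trans ((sum_le_card_nsmul _ _ a fun k _ => h k k).trans ?_)
  simp

theorem bnd_one : Bnd (1 : Matrix (Fin n) (Fin n) ℝ) 1 := fun i j => by
  rw [one_apply]
  split_ifs <;> simp

theorem bnd_zero : Bnd (0 : Matrix (Fin n) (Fin n) ℝ) 0 := fun i j => by simp

theorem Bnd.pow {X : Matrix (Fin n) (Fin n) ℝ} {a : ℝ} (h : Bnd X a) (q : ℕ) :
    Bnd (X ^ q) ((n * a) ^ q) := by
  induction q with
  | zero => simpa using bnd_one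
  | succ q ih =>
    rw [pow_succ]
    exact (ih.mul h).mono (le_of_eq (by ring))

theorem trace_diag (d : Fin n → ℝ) (hd : ∀ i, 0 ≤ d i) (F : Matrix (Fin n) (Fin n) ℝ)
    (hF : Fᵀ = F) (a b : ℕ) :
    trace (diagonal d ^ a * F * diagonal d ^ b * F) ≤ trace (diagonal d ^ (a + b) * F * F) := by
  have s : ∀ i j, F j i = F i j := fun i j => by
    conv_lhs => rw [← hF]
    rfl
  have e1 : ∀ a b : ℕ, trace (diagonal d ^ a * F * diagonal d ^ b * F) =
      ∑ i, ∑ j, d i ^ a * d j ^ b * F i j ^ 2 := fun a b => by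
    simp only [Matrix.trace, diag_apply, diagonal_pow]
    refine sum_congr rfl fun i _ => ?_
    rw [mul_apply]
    refine sum_congr rfl fun j _ => ?_
    rw [mul_diagonal, diagonal_mul, s i j]
    simp only [Pi.pow_apply]
    ring
  have e2 := e1 (a + b) 0
  rw [pow_zero, Matrix.mul_one] at e2
  rw [e1, e2]
  have e3 : ∀ a b : ℕ, ∑ i, ∑ j, d i ^ a * d j ^ b * F i j ^ 2 =
      ∑ i, ∑ j, d j ^ a * d i ^ b * F i j ^ 2 := fun a b => by
    rw [sum_comm]
    simp only [s]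
  have : ∑ i, ∑ j, (d i ^ a * d j ^ b * F i j ^ 2 + d j ^ a * d i ^ b * F i j ^ 2) ≤
      ∑ i, ∑ j, (d i ^ (a + b) * d j ^ 0 * F i j ^ 2 + d j ^ (a + b) * d i ^ 0 * F i j ^ 2) := by
    refine sum_le_sum fun i _ => sum_le_sum fun j _ => ?_
    have h : 0 ≤ (d i ^ a - d j ^ a) * (d i ^ b - d j ^ b) := by
      rcases le_total (d i) (d j) with h | h
      · exact mul_nonneg_of_nonpos_of_nonpos (sub_nonpos.2 (pow_le_pow_left₀ (hd i) h a))
          (sub_nonpos.2 (pow_le_pow_left₀ (hd i) h b))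
      · exact mul_nonneg (sub_nonneg.2 (pow_le_pow_left₀ (hd j) h a))
          (sub_nonneg.2 (pow_le_pow_left₀ (hd j) h b))
    rw [pow_add, pow_add]
    nlinarith [mul_nonneg h (sq_nonneg (F i j))]
  simp only [sum_add_distrib] at this
  rw [← e3 a b, ← e3 (a + b) 0] at this
  linarith

/-- Spectral theorem in real form. -/
theorem spectral {A : Matrix (Fin n) (Fin n) ℝ} (hA : A.PosSemidef) :
    ∃ (U : Matrix (Fin n) (Fin n) ℝ) (d : Fin n → ℝ), (∀ i, 0 ≤ d i) ∧ Uᵀ * U = 1 ∧ U * Uᵀ = 1 ∧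
      A = U * diagonal d * Uᵀ := by
  refine ⟨hA.1.eigenvectorUnitary, hA.1.eigenvalues, hA.eigenvalues_nonneg, ?_, ?_, ?_⟩
  · simpa [star_eq_conjTranspose] using Unitary.coe_star_mul_self hA.1.eigenvectorUnitary
  · simpa [star_eq_conjTranspose] using Unitary.coe_mul_star_self hA.1.eigenvectorUnitary
  · simpa [star_eq_conjTranspose] using hA.1.spectral_theorem

theorem conj_pow {U D : Matrix (Fin n) (Fin n) ℝ} (h1 : Uᵀ * U = 1) (h2 : U * Uᵀ = 1) (a : ℕ) :
    (U * D * Uᵀ) ^ a = U * D ^ a * Uᵀ := by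
  induction a with
  | zero => simp [h2]
  | succ a ih =>
    rw [pow_succ, ih, pow_succ]
    simp only [Matrix.mul_assoc]
    rw [← Matrix.mul_assoc Uᵀ U, h1, Matrix.one_mul]

theorem trace_mix {A E : Matrix (Fin n) (Fin n) ℝ} (hA : A.PosSemidef) (hE : Eᵀ = E) (a b : ℕ) :
    trace (A ^ a * E * A ^ b * E) ≤ trace (A ^ (a + b) * E * E) := by
  obtain ⟨U, d, hd, h1, h2, rfl⟩ := spectral hA
  have e : ∀ a b : ℕ, trace ((U * diagonal d * Uᵀ) ^ a * E * (U * diagonal d * Uᵀ) ^ b * E) =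
      trace (diagonal d ^ a * (Uᵀ * E * U) * diagonal d ^ b * (Uᵀ * E * U)) := fun a b => by
    rw [conj_pow h1 h2, conj_pow h1 h2]
    simp only [Matrix.mul_assoc]
    rw [trace_mul_comm]
    simp only [Matrix.mul_assoc]
  have e2 := e (a + b) 0
  rw [pow_zero, pow_zero, Matrix.mul_one, Matrix.mul_one] at e2
  rw [e, e2]
  exact trace_diag d hd _ (by simp [transpose_mul, hE, Matrix.mul_assoc]) a b

/-- First order part of a power. -/
def L1 (A E : Matrix (Fin n) (Fin n) ℝ) : ℕ → Matrix (Fin n) (Fin n) ℝ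
  | 0 => 0
  | q + 1 => L1 A E q * A + A ^ q * E

/-- Second order part of a power. -/
def L2 (A E : Matrix (Fin n) (Fin n) ℝ) : ℕ → Matrix (Fin n) (Fin n) ℝ
  | 0 => 0
  | q + 1 => L2 A E q * A + L1 A E q * E

theorem trace_L1 (A E : Matrix (Fin n) (Fin n) ℝ) (q m : ℕ) :
    trace (L1 A E q * A ^ m) = q * trace (A ^ (q - 1 + m) * E) := by
  induction q generalizing m with
  | zero => simp [L1]
  | succ q ih =>
    rw [L1, Matrix.add_mul, trace_add, Matrix.mul_assoc, ← pow_succ', ih,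
      trace_mul_comm (A ^ q * E), ← Matrix.mul_assoc, ← pow_add]
    rcases q with _ | q
    · simp
    · simp only [Nat.add_sub_cancel]
      rw [show q + (m + 1) = q + 1 + m by ring, add_comm m]
      push_cast
      ring

theorem trace_L1E {A E : Matrix (Fin n) (Fin n) ℝ} (hA : A.PosSemidef) (hE : Eᵀ = E)
    (q c m : ℕ) :
    trace (L1 A E q * A ^ c * E * A ^ m) ≤ q * trace (A ^ (q - 1 + c + m) * E * E) := by
  induction q generalizing c with
  | zero => simp [L1]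
  | succ q ih =>
    have h1 := ih (c + 1)
    have h2 := trace_mix hA hE (m + q) c
    have e : trace (L1 A E (q + 1) * A ^ c * E * A ^ m) =
        trace (L1 A E q * A ^ (c + 1) * E * A ^ m) + trace (A ^ (m + q) * E * A ^ c * E) := by
      rw [L1, Matrix.add_mul, Matrix.add_mul, Matrix.add_mul, trace_add, pow_succ' A c,
        trace_mul_comm (A ^ q * E * A ^ c * E), pow_add]
      simp only [Matrix.mul_assoc]
    rw [e]
    rcases q with _ | q
    · simp only [L1, Matrix.zero_mul, trace_zero]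
      simpa [add_comm] using h2
    · simp only [Nat.add_sub_cancel] at h1 ⊢
      rw [show q + (c + 1) + m = q + 1 + c + m by ring] at h1
      rw [show m + (q + 1) + c = q + 1 + c + m by ring] at h2
      push_cast at h1 ⊢
      linarith

theorem trace_L2 {A E : Matrix (Fin n) (Fin n) ℝ} (hA : A.PosSemidef) (hE : Eᵀ = E) (q m : ℕ) :
    trace (L2 A E q * A ^ m) ≤ (q.choose 2 : ℕ) * trace (A ^ (q - 2 + m) * E * E) := by
  induction q generalizing m with
  | zero => simp [L2]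
  | succ q ih =>
    have h1 := ih (m + 1)
    have h2 := trace_L1E hA hE q 0 m
    rw [pow_zero, Matrix.mul_one] at h2
    rw [L2, Matrix.add_mul, trace_add, Matrix.mul_assoc, ← pow_succ']
    rcases q with _ | _ | q
    · simp [L1, L2]
    · simp only [L2, L1, Matrix.zero_mul, add_zero, trace_zero, zero_add] at h2 ⊢
      simpa using h2
    · have e : ((q + 1 + 1 + 1).choose 2 : ℕ) = (q + 1 + 1).choose 2 + (q + 1 + 1) := by
        rw [Nat.choose_succ_succ' (q + 1 + 1) 1, Nat.choose_one_right, add_comm]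
      rw [show q + 1 + 1 - 2 + (m + 1) = q + 1 + m by omega] at h1
      rw [show q + 1 + 1 - 1 + 0 + m = q + 1 + m by omega] at h2
      rw [show q + 1 + 1 + 1 - 2 + m = q + 1 + m by omega, e]
      push_cast at h1 h2 ⊢
      linarith

theorem rem_bnd (n q : ℕ) {M : ℝ} (hM : 0 ≤ M) : ∃ C : ℝ, 0 ≤ C ∧
    ∀ (A E : Matrix (Fin n) (Fin n) ℝ) (e : ℝ), 0 ≤ e → Bnd A M → Bnd E M → Bnd E e →
      Bnd (L1 A E q) (C * e) ∧ Bnd (L2 A E q) (C * e ^ 2) ∧
        Bnd ((A + E) ^ q - A ^ q - L1 A E q - L2 A E q) (C * e ^ 3) := by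
  induction q with
  | zero => exact ⟨0, le_rfl, fun A E e _ _ _ _ => by simpa [L1, L2] using bnd_zero⟩
  | succ q ih =>
    obtain ⟨C, C0, h⟩ := ih
    refine ⟨n * (2 * C * M + C + (n * M) ^ q), by positivity, fun A E e e0 hA hE he => ?_⟩
    obtain ⟨h1, h2, h3⟩ := h A E e e0 hA hE he
    have p0 : (0 : ℝ) ≤ (n * M) ^ q := by positivity
    have n0 : (0 : ℝ) ≤ n := Nat.cast_nonneg n
    have CM : 0 ≤ C * M := by positivity
    refine ⟨((h1.mul hA).add ((hA.pow q).mul he)).mono ?_, ((h2.mul hA).add (h1.mul he)).mono ?_, ?_⟩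
    · nlinarith [mul_nonneg n0 (mul_nonneg CM e0), mul_nonneg n0 (mul_nonneg C0 e0)]
    · nlinarith [mul_nonneg n0 (mul_nonneg CM (sq_nonneg e)),
        mul_nonneg n0 (mul_nonneg p0 (sq_nonneg e))]
    · have e1 : (A + E) ^ (q + 1) - A ^ (q + 1) - L1 A E (q + 1) - L2 A E (q + 1) =
          ((A + E) ^ q - A ^ q - L1 A E q - L2 A E q) * (A + E) + L2 A E q * E := by
        rw [L1, L2, pow_succ, pow_succ]
        noncomm_ring
      rw [e1]
      refine ((h3.mul (hA.add hE)).add (h2.mul he)).mono ?_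
      nlinarith [mul_nonneg n0 (mul_nonneg p0 (pow_nonneg e0 3))]

theorem trace_step (n q : ℕ) {M : ℝ} (hM : 0 ≤ M) : ∃ C : ℝ, 0 ≤ C ∧
    ∀ (A E : Matrix (Fin n) (Fin n) ℝ) (e : ℝ), A.PosSemidef → Eᵀ = E → 0 ≤ e → Bnd A M →
      Bnd E M → Bnd E e →
      trace ((A + E) ^ q) ≤ trace (A ^ q) + q * trace (A ^ (q - 1) * E) +
        (q.choose 2 : ℕ) * trace (A ^ (q - 2) * E * E) + C * e ^ 3 := by
  obtain ⟨C, C0, h⟩ := rem_bnd n q hM
  refine ⟨n * C, by positivity, fun A E e hA hE e0 b1 b2 b3 => ?_⟩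
  have h3 := (abs_le.1 (h A E e e0 b1 b2 b3).2.2.trace).2
  have h1 := trace_L1 A E q 0
  have h2 := trace_L2 hA hE q 0
  simp only [pow_zero, Matrix.mul_one, add_zero] at h1 h2
  rw [trace_sub, trace_sub, trace_sub] at h3
  linarith

end Pool.Agent.Lib.MP_fedf83_gt.T
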