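import Pool.Agent.Lib.MP_fedf83_gt.LTilt
import Pool.Agent.Lib.MP_fedf83_gt.LTrace

/-! Two bounds for the third moment sums. -/

namespace Pool.Agent.Lib.MP_fedf83_gt.P

open MeasureTheory Set Pool.Agent.Lib.MP_fedf83_gt.B Matrix
open scoped ENNReal RealInnerProductSpace

variable {n : ℕ}

/-- The centred quadratic form of a matrix. -/
noncomputable def quad (μ : Measure (E n)) (H : Matrix (Fin n) (Fin n) ℝ) (x : E n) : ℝ :=
  ∑ i, ∑ j, H i j * ((x - mean μ) i * (x - mean μ) j)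

/-- The variance bound for centred quadratic forms, in affinely invariant form. -/
def QP (p : ℝ) (μ : Measure (E n)) : Prop :=
  ∀ H : Matrix (Fin n) (Fin n) ℝ, Hᵀ = H →
    (∫ x, quad μ H x ^ 2 ∂μ) - (∫ x, quad μ H x ∂μ) ^ 2 ≤ p * trace (H * covM μ * H * covM μ)

/-- The third moment sum. -/
noncomputable def Sq (μ : Measure (E n)) (m : ℕ) : ℝ :=
  ∑ k, trace (covM μ ^ m * thirdM μ k * thirdM μ k)

/-- Coordinates in a rotated frame. -/
noncomputable def zc (μ : Measure (E n)) (U : Matrix (Fin n) (Fin n) ℝ) (i : Fin n) (x : E n) : ℝ :=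
  ∑ j, U j i * (x - mean μ) j

/-- Third moments in a rotated frame. -/
noncomputable def tz (μ : Measure (E n)) (U : Matrix (Fin n) (Fin n) ℝ) (k i j : Fin n) : ℝ :=
  ∫ x, zc μ U k x * (zc μ U i x * zc μ U j x) ∂μ

@[fun_prop]
theorem continuous_quad (μ : Measure (E n)) (H : Matrix (Fin n) (Fin n) ℝ) :
    Continuous (quad μ H) := by unfold quad; fun_prop

@[fun_prop]
theorem continuous_zc (μ : Measure (E n)) (U : Matrix (Fin n) (Fin n) ℝ) (i : Fin n) :
    Continuous (zc μ U i) := by unfold zc; fun_prop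

variable {μ : Measure (E n)} {R : ℝ} {U : Matrix (Fin n) (Fin n) ℝ} {d : Fin n → ℝ}

theorem tz_symm (k i j : Fin n) : tz μ U k i j = tz μ U k j i := by simp only [tz, mul_comm]

theorem tz_swap (k i j : Fin n) : tz μ U k i j = tz μ U i k j := by simp only [tz, mul_left_comm]

theorem orth_sq (h2 : U * Uᵀ = 1) (b : Fin n → ℝ) :
    ∑ k, (∑ a, U a k * b a) ^ 2 = ∑ a, b a ^ 2 := by
  have h : (Uᵀ *ᵥ b) ⬝ᵥ (Uᵀ *ᵥ b) = b ⬝ᵥ b := by
    rw [dotProduct_mulVec, vecMul_transpose, mulVec_mulVec, h2, one_mulVec]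
  simpa [dotProduct, mulVec, sq] using h

theorem Bd.w_form [IsFiniteMeasure μ] (hR : Bd μ R) {w : E n → ℝ} (cw : Continuous w)
    (U : Matrix (Fin n) (Fin n) ℝ) (i j : Fin n) :
    (Uᵀ * (Matrix.of fun a b => ∫ x, w x * ((x - mean μ) a * (x - mean μ) b) ∂μ) * U) i j =
      ∫ x, w x * (zc μ U i x * zc μ U j x) ∂μ := by
  simp only [zc, Finset.sum_mul_sum, Finset.mul_sum, mul_apply, Finset.sum_mul, transpose_apply,
    of_apply]
  rw [integral_finsetSum _ fun i _ => hR.int (by fun_prop)]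
  refine Finset.sum_congr rfl fun a _ => ?_
  rw [integral_finsetSum _ fun j _ => hR.int (by fun_prop)]
  refine Finset.sum_congr rfl fun b _ => ?_
  rw [← integral_const_mul, ← integral_mul_const]
  congr with x
  ring

theorem Bd.zc_zero [IsProbabilityMeasure μ] (hR : Bd μ R) (U : Matrix (Fin n) (Fin n) ℝ)
    (i : Fin n) : ∫ x, zc μ U i x ∂μ = 0 := by
  unfold zc
  rw [integral_finsetSum _ fun i _ => hR.int (by fun_prop)]
  refine Finset.sum_eq_zero fun j _ => ?_
  rw [integral_const_mul, hR.centred_apply, mul_zero]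

theorem Bd.zc_two [IsFiniteMeasure μ] (hR : Bd μ R) (h1 : Uᵀ * U = 1)
    (hA : covM μ = U * diagonal d * Uᵀ) (i j : Fin n) :
    ∫ x, zc μ U i x * zc μ U j x ∂μ = if i = j then d i else 0 := by
  have h := hR.w_form (w := fun _ => 1) continuous_const U i j
  simp only [one_mul] at h
  rw [← h]
  have e : (Matrix.of fun a b => ∫ x, (x - mean μ) a * (x - mean μ) b ∂μ) = covM μ := rfl
  rw [e, hA]
  simp only [Matrix.mul_assoc]
  rw [h1, ← Matrix.mul_assoc, h1, Matrix.one_mul, Matrix.mul_one, diagonal_apply]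

theorem trace_pow_eq {A : Matrix (Fin n) (Fin n) ℝ} (h1 : Uᵀ * U = 1) (h2 : U * Uᵀ = 1)
    (hA : A = U * diagonal d * Uᵀ) (m : ℕ) : trace (A ^ m) = ∑ i, d i ^ m := by
  rw [hA, T.conj_pow h1 h2, trace_mul_comm, ← Matrix.mul_assoc, h1, Matrix.one_mul, diagonal_pow,
    trace_diagonal]
  rfl

theorem trace_four (a b : Fin n → ℝ) (F : Matrix (Fin n) (Fin n) ℝ) (s : ∀ i j, F j i = F i j) :
    trace (diagonal a * F * diagonal b * F) = ∑ i, ∑ j, a i * b j * F i j ^ 2 := by
  simp only [Matrix.trace, diag_apply]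
  refine Finset.sum_congr rfl fun i _ => ?_
  rw [mul_apply]
  refine Finset.sum_congr rfl fun j _ => ?_
  rw [mul_diagonal, diagonal_mul, s i j]
  ring

theorem Bd.Sq_eq [IsFiniteMeasure μ] (hR : Bd μ R) (h1 : Uᵀ * U = 1) (h2 : U * Uᵀ = 1)
    (hA : covM μ = U * diagonal d * Uᵀ) (m : ℕ) :
    Sq μ m = ∑ k, d k ^ m * ∑ i, ∑ j, tz μ U k i j ^ 2 := by
  have e : ∀ a, trace (covM μ ^ m * thirdM μ a * thirdM μ a) = ∑ i, ∑ j, d i ^ m *
      (∫ x, (x - mean μ) a * (zc μ U i x * zc μ U j x) ∂μ) ^ 2 := fun a => by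
    have h := hR.w_form (w := fun x => (x - mean μ) a) (by fun_prop) U
    have e1 : (Matrix.of fun b c => ∫ x, (x - mean μ) a * ((x - mean μ) b * (x - mean μ) c) ∂μ) =
        thirdM μ a := rfl
    rw [e1] at h
    have e2 := trace_four (d ^ m) (fun _ => 1) (Uᵀ * thirdM μ a * U) fun i j => by
      rw [h, h]
      simp only [mul_comm]
    simp only [h, diagonal_one, Matrix.mul_one, mul_one, Pi.pow_apply] at e2
    rw [← e2, hA, T.conj_pow h1 h2, diagonal_pow]
    simp only [Matrix.mul_assoc]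
    rw [trace_mul_comm, ← Matrix.mul_assoc U Uᵀ, h2, Matrix.one_mul]
    simp only [Matrix.mul_assoc]
  have e3 : ∀ k i j, tz μ U k i j =
      ∑ a, U a k * ∫ x, (x - mean μ) a * (zc μ U i x * zc μ U j x) ∂μ := fun k i j => by
    have : ∀ x, zc μ U k x * (zc μ U i x * zc μ U j x) =
        ∑ a, U a k * ((x - mean μ) a * (zc μ U i x * zc μ U j x)) := fun x => by
      rw [zc, Finset.sum_mul]
      simp only [mul_assoc]
    simp only [tz, this]
    rw [integral_finsetSum _ fun i _ => hR.int (by fun_prop)]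
    simp only [integral_const_mul]
  unfold Sq
  simp only [e]
  rw [Finset.sum_comm]
  refine Finset.sum_congr rfl fun i _ => ?_
  simp only [← Finset.mul_sum]
  congr 1
  rw [Finset.sum_comm]
  conv_rhs => rw [Finset.sum_comm]
  refine Finset.sum_congr rfl fun j _ => ?_
  rw [← orth_sq h2]
  refine Finset.sum_congr rfl fun k _ => ?_
  rw [← e3, tz_swap]

/-- Cauchy-Schwarz against a centred function. -/
theorem Bd.cs_var [IsProbabilityMeasure μ] (hR : Bd μ R) {z f : E n → ℝ} (cz : Continuous z)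
    (cf : Continuous f) (z0 : ∫ x, z x ∂μ = 0) :
    (∫ x, z x * f x ∂μ) ^ 2 ≤
      (∫ x, z x * z x ∂μ) * ((∫ x, f x ^ 2 ∂μ) - (∫ x, f x ∂μ) ^ 2) := by
  set m := ∫ x, f x ∂μ with hm
  have h : ∀ s : ℝ, 0 ≤ (∫ x, z x * z x ∂μ) * (s * s) + (2 * ∫ x, z x * f x ∂μ) * s +
      ((∫ x, f x ^ 2 ∂μ) - m ^ 2) := fun s => by
    have h0 : 0 ≤ ∫ x, (s * z x + (f x - m)) ^ 2 ∂μ := integral_nonneg fun x => sq_nonneg _
    have e : ∀ x, (s * z x + (f x - m)) ^ 2 = s * s * (z x * z x) + 2 * s * (z x * f x) +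
        f x ^ 2 + (-(2 * s * m)) * z x + (-(2 * m)) * f x + m ^ 2 := fun x => by ring
    simp only [e] at h0
    rw [integral_add (hR.int (by fun_prop)) (hR.int (by fun_prop)),
      integral_add (hR.int (by fun_prop)) (hR.int (by fun_prop)),
      integral_add (hR.int (by fun_prop)) (hR.int (by fun_prop)),
      integral_add (hR.int (by fun_prop)) (hR.int (by fun_prop)),
      integral_add (hR.int (by fun_prop)) (hR.int (by fun_prop)),
      integral_const_mul, integral_const_mul, integral_const_mul, integral_const_mul, z0,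
      ← hm] at h0
    simp only [integral_const, probReal_univ, smul_eq_mul, one_mul] at h0
    nlinarith
  have := discrim_le_zero h
  rw [discrim] at this
  nlinarith

/-- The quadratic form built from the third moments. -/
noncomputable def fz (μ : Measure (E n)) (U : Matrix (Fin n) (Fin n) ℝ) (k : Fin n) (x : E n) : ℝ :=
  ∑ i, ∑ j, tz μ U k i j * (zc μ U i x * zc μ U j x)

@[fun_prop]
theorem continuous_fz (μ : Measure (E n)) (U : Matrix (Fin n) (Fin n) ℝ) (k : Fin n) :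
    Continuous (fz μ U k) := by unfold fz; fun_prop

theorem Bd.third_sq [IsProbabilityMeasure μ] (hR : Bd μ R) (h1 : Uᵀ * U = 1)
    (hA : covM μ = U * diagonal d * Uᵀ) (k : Fin n) :
    (∑ i, ∑ j, tz μ U k i j ^ 2) ^ 2 ≤
      d k * ((∫ x, fz μ U k x ^ 2 ∂μ) - (∫ x, fz μ U k x ∂μ) ^ 2) := by
  have h := hR.cs_var (continuous_zc μ U k) (continuous_fz μ U k) (hR.zc_zero U k)
  rw [hR.zc_two h1 hA, if_pos rfl] at h
  refine le_of_eq_of_le ?_ h
  congr 1
  simp only [fz, Finset.mul_sum]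
  rw [integral_finsetSum _ fun i _ => hR.int (by fun_prop)]
  refine Finset.sum_congr rfl fun i _ => ?_
  rw [integral_finsetSum _ fun j _ => hR.int (by fun_prop)]
  refine Finset.sum_congr rfl fun j _ => ?_
  simp only [mul_left_comm (zc μ U k _) (tz μ U k i j)]
  rw [integral_const_mul, sq]
  rfl

theorem Bd.lin_sq [IsFiniteMeasure μ] (hR : Bd μ R) (h1 : Uᵀ * U = 1)
    (hA : covM μ = U * diagonal d * Uᵀ) (c : Fin n → ℝ) :
    ∫ x, (∑ j, c j * zc μ U j x) ^ 2 ∂μ = ∑ j, c j ^ 2 * d j := by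
  simp only [sq, Finset.sum_mul_sum]
  rw [integral_finsetSum _ fun i _ => hR.int (by fun_prop)]
  refine Finset.sum_congr rfl fun i _ => ?_
  rw [integral_finsetSum _ fun j _ => hR.int (by fun_prop)]
  simp only [mul_mul_mul_comm (c _) (zc μ U _ _), integral_const_mul, hR.zc_two h1 hA]
  simp

theorem fz_var [IsProbabilityMeasure μ] {t : ℝ} (t0 : 0 < t) (hl : SLC t μ) (hR : Bd μ R)
    (h1 : Uᵀ * U = 1) (hA : covM μ = U * diagonal d * Uᵀ) (k : Fin n) :
    (∫ x, fz μ U k x ^ 2 ∂μ) - (∫ x, fz μ U k x ∂μ) ^ 2 ≤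
      4 / t * ∑ i, ∑ j, tz μ U k i j ^ 2 * d j := by
  have h := poin t0 hl hR (continuous_fz μ U k)
    (G := fun x => WithLp.toLp 2 fun a => ∑ i, U a i * ∑ j, (2 * tz μ U k i j) * zc μ U j x)
    (by fun_prop) fun x y => by
      have e1 : ∀ j, zc μ U j ((1 / 2 : ℝ) • (x + y)) = (zc μ U j x + zc μ U j y) / 2 := fun j => by
        simp only [zc, ← Finset.sum_add_distrib, Finset.sum_div]
        refine Finset.sum_congr rfl fun a _ => ?_
        simp only [PiLp.sub_apply, PiLp.smul_apply, PiLp.add_apply, smul_eq_mul]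
        ring
      have e2 : ∀ i, ∑ a, U a i * (x - y) a = zc μ U i x - zc μ U i y := fun i => by
        simp only [zc, ← Finset.sum_sub_distrib]
        refine Finset.sum_congr rfl fun a _ => ?_
        simp only [PiLp.sub_apply]
        ring
      have e0 : ∀ u v : E n, ⟪u, v⟫ = ∑ j, u j * v j := fun u v => by
        simp [PiLp.inner_apply, mul_comm]
      rw [e0]
      simp only [e1, Finset.sum_mul]
      rw [Finset.sum_comm]
      simp only [mul_right_comm (U _ _), ← Finset.sum_mul, e2]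
      have e3 : ∑ i, ∑ j, tz μ U k i j * (zc μ U i x * zc μ U j y) =
          ∑ i, ∑ j, tz μ U k i j * (zc μ U i y * zc μ U j x) := by
        rw [Finset.sum_comm]
        refine Finset.sum_congr rfl fun i _ => Finset.sum_congr rfl fun j _ => ?_
        rw [tz_symm, mul_comm (zc μ U j x)]
      have e4 : ∑ i, (zc μ U i x - zc μ U i y) *
          ∑ j, 2 * tz μ U k i j * ((zc μ U j x + zc μ U j y) / 2) =
          fz μ U k x - fz μ U k y + (∑ i, ∑ j, tz μ U k i j * (zc μ U i x * zc μ U j y) -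
            ∑ i, ∑ j, tz μ U k i j * (zc μ U i y * zc μ U j x)) := by
        simp only [fz, ← Finset.sum_sub_distrib, ← Finset.sum_add_distrib, Finset.mul_sum]
        refine Finset.sum_congr rfl fun i _ => Finset.sum_congr rfl fun j _ => ?_
        ring
      rw [e4, e3]
      ring
  refine h.trans (le_of_eq ?_)
  have e : ∀ x, ‖(WithLp.toLp 2 fun a => ∑ i, U a i * ∑ j, (2 * tz μ U k i j) * zc μ U j x : E n)‖ ^ 2
      = ∑ i, (∑ j, (2 * tz μ U k i j) * zc μ U j x) ^ 2 := fun x => by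
    rw [EuclideanSpace.real_norm_sq_eq]
    exact orth_sq (U := Uᵀ) (by simpa using h1) _
  simp only [e]
  rw [integral_finsetSum _ fun i _ => hR.int (by fun_prop)]
  simp only [hR.lin_sq h1 hA]
  rw [div_mul_eq_mul_div, Finset.mul_sum]
  congr 1
  refine Finset.sum_congr rfl fun i _ => ?_
  rw [Finset.mul_sum]
  refine Finset.sum_congr rfl fun j _ => ?_
  ring

/-- The third moment sum of a strongly log-concave measure. -/
theorem chen [IsProbabilityMeasure μ] {t : ℝ} (t0 : 0 < t) (hl : SLC t μ) (hR : Bd μ R) (m : ℕ) :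
    Sq μ (m + 1) ≤ 4 / t * trace (covM μ ^ (m + 3)) := by
  obtain ⟨U, d, hd, h1, h2, hA⟩ := T.spectral hR.covM_psd
  rw [hR.Sq_eq h1 h2 hA, trace_pow_eq h1 h2 hA]
  have a1 : ∀ k, 2 * (d k ^ (m + 1) * ∑ i, ∑ j, tz μ U k i j ^ 2) ≤
      4 / t * d k ^ (m + 3) + d k ^ m * ∑ i, ∑ j, tz μ U k i j ^ 2 * d j := fun k => by
    have h := (hR.third_sq h1 hA k).trans
      (mul_le_mul_of_nonneg_left (fz_var t0 hl hR h1 hA k) (hd k))
    have W0 : 0 ≤ ∑ i, ∑ j, tz μ U k i j ^ 2 * d j :=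
      Finset.sum_nonneg fun i _ => Finset.sum_nonneg fun j _ => mul_nonneg (sq_nonneg _) (hd j)
    have dk := hd k
    generalize (∑ i, ∑ j, tz μ U k i j ^ 2 * d j) = W at *
    generalize (∑ i, ∑ j, tz μ U k i j ^ 2) = D at *
    have h3 := mul_le_mul_of_nonneg_left h (sq_nonneg (d k ^ (m + 1)))
    refine (abs_le_of_sq_le_sq' ?_ (by positivity)).2
    have e : (d k ^ (m + 1)) ^ 2 * (d k * (4 / t * W)) = (4 / t * d k ^ (m + 3)) * (d k ^ m * W) := by
      ring
    rw [e] at h3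
    nlinarith [sq_nonneg (4 / t * d k ^ (m + 3) - d k ^ m * W)]
  have a2 : ∑ k, d k ^ m * ∑ i, ∑ j, tz μ U k i j ^ 2 * d j ≤
      ∑ k, d k ^ (m + 1) * ∑ i, ∑ j, tz μ U k i j ^ 2 := by
    have e : ∀ a b : ℕ, ∑ k, ∑ i, ∑ j, d k ^ a * d j ^ b * tz μ U k i j ^ 2 =
        ∑ k, ∑ i, ∑ j, d j ^ a * d k ^ b * tz μ U k i j ^ 2 := fun a b => by
      rw [Finset.sum_comm]
      conv_rhs => rw [Finset.sum_comm]
      refine Finset.sum_congr rfl fun i _ => ?_
      rw [Finset.sum_comm]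
      refine Finset.sum_congr rfl fun k _ => Finset.sum_congr rfl fun j _ => ?_
      rw [tz_swap j i k, tz_symm i j k, tz_swap i k j]
    have h : ∑ k, ∑ i, ∑ j, (d k ^ m * d j ^ 1 * tz μ U k i j ^ 2 +
          d j ^ m * d k ^ 1 * tz μ U k i j ^ 2) ≤
        ∑ k, ∑ i, ∑ j, (d k ^ (m + 1) * d j ^ 0 * tz μ U k i j ^ 2 +
          d j ^ (m + 1) * d k ^ 0 * tz μ U k i j ^ 2) := by
      refine Finset.sum_le_sum fun k _ => Finset.sum_le_sum fun i _ =>
        Finset.sum_le_sum fun j _ => ?_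
      have h : 0 ≤ (d k ^ m - d j ^ m) * (d k - d j) := by
        rcases le_total (d k) (d j) with h | h
        · exact mul_nonneg_of_nonpos_of_nonpos (sub_nonpos.2 (pow_le_pow_left₀ (hd k) h m))
            (sub_nonpos.2 h)
        · exact mul_nonneg (sub_nonneg.2 (pow_le_pow_left₀ (hd j) h m)) (sub_nonneg.2 h)
      rw [pow_succ (d k) m, pow_succ (d j) m]
      nlinarith [mul_nonneg h (sq_nonneg (tz μ U k i j))]
    simp only [Finset.sum_add_distrib] at h
    rw [← e m 1, ← e (m + 1) 0] at h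
    have e1 : ∑ k, d k ^ m * ∑ i, ∑ j, tz μ U k i j ^ 2 * d j =
        ∑ k, ∑ i, ∑ j, d k ^ m * d j ^ 1 * tz μ U k i j ^ 2 := by
      simp only [Finset.mul_sum]
      refine Finset.sum_congr rfl fun k _ => Finset.sum_congr rfl fun i _ =>
        Finset.sum_congr rfl fun j _ => by ring
    have e2 : ∑ k, d k ^ (m + 1) * ∑ i, ∑ j, tz μ U k i j ^ 2 =
        ∑ k, ∑ i, ∑ j, d k ^ (m + 1) * d j ^ 0 * tz μ U k i j ^ 2 := by
      simp only [Finset.mul_sum]
      refine Finset.sum_congr rfl fun k _ => Finset.sum_congr rfl fun i _ =>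
        Finset.sum_congr rfl fun j _ => by ring
    rw [e1, e2]
    linarith
  have a3 := Finset.sum_le_sum fun k (_ : k ∈ Finset.univ) => a1 k
  rw [← Finset.mul_sum, Finset.sum_add_distrib, ← Finset.mul_sum] at a3
  linarith

theorem fz_quad (k : Fin n) (x : E n) :
    fz μ U k x = quad μ (U * Matrix.of (tz μ U k) * Uᵀ) x := by
  simp only [fz, quad, zc, Finset.sum_mul_sum, Finset.mul_sum, mul_apply, Finset.sum_mul,
    transpose_apply, of_apply]
  conv_lhs => enter [2, i]; rw [Finset.sum_comm]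
  rw [Finset.sum_comm]
  refine Finset.sum_congr rfl fun a _ => ?_
  conv_lhs => enter [2, i]; rw [Finset.sum_comm]
  rw [Finset.sum_comm]
  refine Finset.sum_congr rfl fun b _ => ?_
  refine Finset.sum_congr rfl fun i _ => Finset.sum_congr rfl fun j _ => ?_
  rw [tz_symm k i j]
  ring

/-- The third moment sum under the variance bound for quadratic forms. -/
theorem QP.Sq_le [IsProbabilityMeasure μ] {p l : ℝ} (hp : QP p μ) (p0 : 0 ≤ p) (hR : Bd μ R)
    (l0 : 0 ≤ l) (m : ℕ) (hm : trace (covM μ ^ (m + 2)) ≤ l ^ (m + 2)) :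
    Sq μ m ≤ p * l ^ 2 * (n + trace (covM μ ^ (m + 2))) := by
  obtain ⟨U, d, hd, h1, h2, hA⟩ := T.spectral hR.covM_psd
  rw [trace_pow_eq h1 h2 hA] at hm
  rw [hR.Sq_eq h1 h2 hA, trace_pow_eq h1 h2 hA]
  have dl : ∀ i, d i ≤ l := fun i =>
    le_of_pow_le_pow_left₀ (Nat.succ_ne_zero (m + 1)) l0
      ((Finset.single_le_sum (f := fun i => d i ^ (m + 2)) (fun i _ => pow_nonneg (hd i) _)
        (Finset.mem_univ i)).trans hm)
  have a1 : ∀ k, ∑ i, ∑ j, tz μ U k i j ^ 2 ≤ p * l ^ 2 * d k := fun k => by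
    have h := hR.third_sq h1 hA k
    have s : (Matrix.of (tz μ U k))ᵀ = Matrix.of (tz μ U k) := by
      ext i j
      exact tz_symm k j i
    have h3 := hp (U * Matrix.of (tz μ U k) * Uᵀ) (by simp [transpose_mul, s, Matrix.mul_assoc])
    simp only [← fz_quad] at h3
    have e : trace (U * Matrix.of (tz μ U k) * Uᵀ * covM μ * (U * Matrix.of (tz μ U k) * Uᵀ) *
        covM μ) = ∑ i, ∑ j, d i * d j * tz μ U k i j ^ 2 := by
      have := trace_four d d (Matrix.of (tz μ U k)) fun i j => tz_symm k j i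
      simp only [of_apply] at this
      rw [← this, hA]
      simp only [Matrix.mul_assoc, ← Matrix.mul_assoc Uᵀ U, h1, Matrix.one_mul]
      rw [trace_mul_comm]
      simp only [Matrix.mul_assoc, h1, Matrix.mul_one]
      rw [trace_mul_comm (diagonal d)]
      simp only [Matrix.mul_assoc]
    have h4 : ∑ i, ∑ j, d i * d j * tz μ U k i j ^ 2 ≤ l ^ 2 * ∑ i, ∑ j, tz μ U k i j ^ 2 := by
      simp only [Finset.mul_sum]
      refine Finset.sum_le_sum fun i _ => Finset.sum_le_sum fun j _ => ?_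
      refine mul_le_mul_of_nonneg_right ?_ (sq_nonneg _)
      rw [sq]
      exact mul_le_mul (dl i) (dl j) (hd j) l0
    rw [e] at h3
    have h5 := h.trans (mul_le_mul_of_nonneg_left (h3.trans (mul_le_mul_of_nonneg_left h4 p0)) (hd k))
    have D0 : 0 ≤ ∑ i, ∑ j, tz μ U k i j ^ 2 :=
      Finset.sum_nonneg fun i _ => Finset.sum_nonneg fun j _ => sq_nonneg _
    have dk := hd k
    generalize (∑ i, ∑ j, tz μ U k i j ^ 2) = D at *
    rcases D0.eq_or_lt with h0 | h0
    · rw [← h0]; positivity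
    · refine le_of_mul_le_mul_left ?_ h0
      nlinarith
  have e : (n : ℝ) + ∑ i, d i ^ (m + 2) = ∑ i, (1 + d i ^ (m + 2)) := by
    simp [Finset.sum_add_distrib]
  rw [e, Finset.mul_sum]
  refine Finset.sum_le_sum fun k _ => ?_
  refine (mul_le_mul_of_nonneg_left (a1 k) (pow_nonneg (hd k) m)).trans ?_
  have h6 : d k ^ (m + 1) ≤ 1 + d k ^ (m + 2) := by
    rcases le_total (d k) 1 with h | h
    · have := pow_le_one₀ (n := m + 1) (hd k) h
      have := pow_nonneg (hd k) (m + 2)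
      linarith
    · have : d k ^ (m + 1) ≤ d k ^ (m + 2) := pow_le_pow_right₀ h (Nat.le_succ (m + 1))
      linarith
  have := mul_le_mul_of_nonneg_left h6 (mul_nonneg p0 (sq_nonneg l))
  rw [pow_succ (d k) m] at this
  linarith

end Pool.Agent.Lib.MP_fedf83_gt.P
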