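import Pool.Agent.Lib.MP_fedf83_gt.LTilt

/-! The Markov property of the Gaussian posteriors and the passage from one step to a flow. -/

namespace Pool.Agent.Lib.MP_fedf83_gt.P

open MeasureTheory Set Pool.Agent.Lib.MP_fedf83_gt.B
open scoped ENNReal RealInnerProductSpace

variable {n : ℕ}

theorem slope {v : ℝ → ℝ} {a b C : ℝ} (hab : a ≤ b)
    (h : ∀ t h, a ≤ t → 0 < h → h ≤ 1 → t + h ≤ b → v (t + h) ≤ v t + C * (h * √h)) :
    v b ≤ v a := by
  rcases hab.eq_or_lt with rfl | hab
  · exact le_rfl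
  have d0 : 0 < b - a := sub_pos.2 hab
  have key : ∀ m : ℕ, 0 < m → (b - a) / m ≤ 1 →
      v b ≤ v a + C * ((b - a) * √((b - a) / m)) := by
    intro m m0 h1
    have m0' : (0 : ℝ) < m := by exact_mod_cast m0
    set η := (b - a) / m with hη
    have η0 : 0 < η := by positivity
    have e : m * η = b - a := by rw [hη]; field_simp
    have : ∀ k : ℕ, k ≤ m → v (a + k * η) ≤ v a + k * (C * (η * √η)) := by
      intro k
      induction k with
      | zero => simp
      | succ k ih =>
        intro hk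
        have hk' : ((k : ℝ) + 1) ≤ m := by exact_mod_cast hk
        have := h (a + k * η) η (by nlinarith [Nat.cast_nonneg (α := ℝ) k]) η0 h1 (by nlinarith)
        have ih := ih (by omega)
        push_cast
        rw [show a + (k + 1) * η = a + k * η + η by ring]
        linarith
    have := this m le_rfl
    rw [e, add_sub_cancel] at this
    rw [← e]
    linarith
  have t1 : Filter.Tendsto (fun m : ℕ => (b - a) / m) Filter.atTop (nhds 0) :=
    tendsto_const_div_atTop_nhds_zero_nat _
  have t2 : Filter.Tendsto (fun m : ℕ => v a + C * ((b - a) * √((b - a) / m))) Filter.atTop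
      (nhds (v a + C * ((b - a) * √0))) :=
    ((t1.sqrt.const_mul _).const_mul _).const_add _
  simp only [Real.sqrt_zero, mul_zero, add_zero] at t2
  refine ge_of_tendsto t2 ?_
  filter_upwards [Filter.eventually_gt_atTop 0, t1.eventually (eventually_le_nhds one_pos)]
    with m h1 h2 using key m h1 h2

theorem rot_vol {α β : ℝ} (h : α ^ 2 + β ^ 2 = 1) :
    MeasurePreserving (fun p : E n × E n => (α • p.1 - β • p.2, β • p.1 + α • p.2))
      (volume.prod volume) (volume.prod volume) := by
  let f : WithLp 2 (E n × E n) →ₗᵢ[ℝ] WithLp 2 (E n × E n) :=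
    { toFun := fun p => WithLp.toLp 2 (α • p.fst - β • p.snd, β • p.fst + α • p.snd)
      map_add' := fun p q => by
        apply WithLp.ofLp_injective
        ext : 1 <;> simp <;> module
      map_smul' := fun c p => by
        apply WithLp.ofLp_injective
        ext : 1 <;> simp <;> module
      norm_map' := fun p => by
        rw [← sq_eq_sq₀ (norm_nonneg _) (norm_nonneg _), WithLp.prod_norm_sq_eq_of_L2,
          WithLp.prod_norm_sq_eq_of_L2]
        change ‖α • p.fst - β • p.snd‖ ^ 2 + ‖β • p.fst + α • p.snd‖ ^ 2 = _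
        simp only [norm_sub_sq_real, norm_add_sq_real, norm_smul, mul_pow, Real.norm_eq_abs, sq_abs,
          inner_smul_left, inner_smul_right, conj_trivial]
        linear_combination (‖p.fst‖ ^ 2 + ‖p.snd‖ ^ 2) * h }
  exact (WithLp.volume_preserving_ofLp (E n) (E n)).comp
    ((f.toLinearIsometryEquiv rfl).measurePreserving.comp
      (WithLp.volume_preserving_toLp (E n) (E n)))

theorem gam_conv {α β : ℝ} (h : α ^ 2 + β ^ 2 = 1) :
    MeasurePreserving (fun p : E n × E n => α • p.1 + β • p.2) ((gam n).prod (gam n)) (gam n) := by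
  have mf : Measurable (fun p : E n × E n => α • p.1 + β • p.2) := by fun_prop
  have md : Measurable fun g : E n => ENNReal.ofReal (ph g / ZG n) :=
    (continuous_ph.measurable.div_const _).ennreal_ofReal
  have mD : Measurable fun p : E n × E n =>
      ENNReal.ofReal (ph p.1 / ZG n) * ENNReal.ofReal (ph p.2 / ZG n) :=
    (md.comp measurable_fst).mul (md.comp measurable_snd)
  have e : (gam n).prod (gam n) = (volume.prod volume).withDensity fun p : E n × E n =>
      ENNReal.ofReal (ph p.1 / ZG n) * ENNReal.ofReal (ph p.2 / ZG n) := by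
    unfold gam
    exact prod_withDensity md md
  refine ⟨mf, Measure.ext fun S hS => ?_⟩
  have e2 : gam n S = (gam n).prod (gam n) (Prod.fst ⁻¹' S) :=
    (measurePreserving_fst.measure_preimage hS.nullMeasurableSet).symm
  rw [Measure.map_apply mf hS, e2, e, withDensity_apply _ (mf hS),
    withDensity_apply _ (measurable_fst hS), ← lintegral_indicator (mf hS),
    ← lintegral_indicator (measurable_fst hS),
    ← (rot_vol h).lintegral_comp (mD.indicator (mf hS))]
  refine lintegral_congr fun p => ?_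
  have a1 : α • (α • p.1 - β • p.2) + β • (β • p.1 + α • p.2) = p.1 := by
    have : α • (α • p.1 - β • p.2) + β • (β • p.1 + α • p.2) = (α ^ 2 + β ^ 2) • p.1 := by module
    rw [this, h, one_smul]
  have a2 : ph (α • p.1 - β • p.2) * ph (β • p.1 + α • p.2) = ph p.1 * ph p.2 := by
    simp only [ph, ← Real.exp_add, norm_sub_sq_real, norm_add_sq_real, norm_smul, mul_pow,
      Real.norm_eq_abs, sq_abs, inner_smul_left, inner_smul_right, conj_trivial]
    congr 1
    linear_combination (-(‖p.1‖ ^ 2 + ‖p.2‖ ^ 2) / 2) * h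
  have z := ZG_pos n
  by_cases hp : p.1 ∈ S
  · rw [indicator_of_mem (by simpa only [mem_preimage, a1] using hp),
      indicator_of_mem (by simpa using hp),
      ← ENNReal.ofReal_mul (div_pos (ph_pos _) z).le,
      ← ENNReal.ofReal_mul (div_pos (ph_pos _) z).le, div_mul_div_comm, div_mul_div_comm, a2]
  · rw [indicator_of_notMem (by simpa only [mem_preimage, a1] using hp),
      indicator_of_notMem (by simpa using hp)]

/-- Integrability of a functional of the posterior. -/
def EI (μ : Measure (E n)) (s : ℝ) (F : Measure (E n) → ℝ) : Prop :=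
  Integrable (fun g => F (tilt μ (s ^ 2) (s • g)) * AA μ (fun _ => 1) s g) (gam n)

variable {μ : Measure (E n)} {R : ℝ} {F G : Measure (E n) → ℝ}

theorem AA_one (μ : Measure (E n)) (s : ℝ) (g : E n) :
    AA μ (fun _ => 1) s g = ∫ x, tw (s ^ 2) (s • g) x ∂μ := by
  simp only [AA, tw_ee, one_mul]

theorem markov [IsProbabilityMeasure μ] (hR : Bd μ R) {s r c : ℝ} (hc : s ^ 2 + r ^ 2 = c ^ 2)
    (c0 : c ≠ 0) (hF : EI μ c F) :
    EI μ s (fun p => EX p r F) ∧ EX μ c F = EX μ s fun p => EX p r F := by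
  have h1 : (s / c) ^ 2 + (r / c) ^ 2 = 1 := by field_simp; exact hc
  have mp := gam_conv (n := n) h1
  set Φ : E n → ℝ := fun g => F (tilt μ (c ^ 2) (c • g)) * AA μ (fun _ => 1) c g with hΦ
  have i1 : Integrable (fun p : E n × E n => Φ ((s / c) • p.1 + (r / c) • p.2))
      ((gam n).prod (gam n)) := (mp.integrable_comp hF.aestronglyMeasurable).2 hF
  have e1 : ∀ g, EX (tilt μ (s ^ 2) (s • g)) r F * AA μ (fun _ => 1) s g =
      ∫ g', Φ ((s / c) • g + (r / c) • g') ∂gam n := by
    intro g
    rw [EX, ← integral_mul_const]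
    congr with g'
    have a1 : c • ((s / c) • g + (r / c) • g') = s • g + r • g' := by
      rw [smul_add, smul_smul, smul_smul, mul_div_cancel₀ _ c0, mul_div_cancel₀ _ c0]
    rw [hΦ]
    simp only [AA_one, a1]
    rw [hR.tilt_tilt, hc, integral_tilt, mul_assoc,
      div_mul_cancel₀ _ (hR.tw_Z_pos (s ^ 2) (s • g)).ne']
    simp only [tw_mul, hc]
  constructor
  · unfold EI
    simp only [e1]
    exact i1.integral_prod_left
  · unfold EX
    change ∫ g, Φ g ∂gam n = ∫ g, EX (tilt μ (s ^ 2) (s • g)) r F * AA μ (fun _ => 1) s g ∂gam n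
    simp only [e1]
    rw [← integral_prod _ i1, ← mp.map_eq, integral_map mp.measurable.aemeasurable
      (by rw [mp.map_eq]; exact hF.aestronglyMeasurable), mp.map_eq]

/-- Functionals that are bounded and measurable on the tilts of `μ`. -/
def Reg (μ : Measure (E n)) (F : Measure (E n) → ℝ) : Prop :=
  (∀ t, Measurable fun θ => F (tilt μ t θ)) ∧ ∃ B, ∀ t θ, |F (tilt μ t θ)| ≤ B

theorem Reg.ei [IsProbabilityMeasure μ] (hR : Bd μ R) (h : Reg μ F) (s : ℝ) : EI μ s F := by
  obtain ⟨m, B, hB⟩ := h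
  exact Gr.int (Gr.mul (F := fun g => F (tilt μ (s ^ 2) (s • g)))
    ⟨(m _).comp (measurable_const_smul s), B, 0, fun g => by simpa using hB _ _⟩
    ((ker_one hR).gr s))

theorem reg_const (c : ℝ) : Reg μ fun _ => c := ⟨fun _ => measurable_const, |c|, fun _ _ => le_rfl⟩

theorem Reg.add (h : Reg μ F) (h' : Reg μ G) : Reg μ fun p => F p + G p := by
  obtain ⟨m, B, hB⟩ := h
  obtain ⟨m', B', hB'⟩ := h'
  exact ⟨fun t => (m t).add (m' t), B + B', fun t θ =>
    (abs_add_le _ _).trans (add_le_add (hB t θ) (hB' t θ))⟩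

theorem Reg.mul (h : Reg μ F) (h' : Reg μ G) : Reg μ fun p => F p * G p := by
  obtain ⟨m, B, hB⟩ := h
  obtain ⟨m', B', hB'⟩ := h'
  refine ⟨fun t => (m t).mul (m' t), B * B', fun t θ => ?_⟩
  rw [abs_mul]
  exact mul_le_mul (hB t θ) (hB' t θ) (abs_nonneg _) ((abs_nonneg _).trans (hB t θ))

theorem Reg.comp (h : Reg μ F) {φ : ℝ → ℝ} (hφ : Continuous φ) : Reg μ fun p => φ (F p) := by
  obtain ⟨m, B, hB⟩ := h
  obtain ⟨C, hC⟩ := (isCompact_Icc (a := -B) (b := B)).exists_bound_of_continuousOn hφ.continuousOn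
  exact ⟨fun t => hφ.measurable.comp (m t), C, fun t θ => hC _ (abs_le.1 (hB t θ))⟩

theorem Reg.pow (h : Reg μ F) (k : ℕ) : Reg μ fun p => F p ^ k := h.comp (continuous_pow k)

theorem Reg.const_mul (h : Reg μ F) (c : ℝ) : Reg μ fun p => c * F p := (reg_const c).mul h

theorem Reg.sub (h : Reg μ F) (h' : Reg μ G) : Reg μ fun p => F p - G p := by
  simpa [sub_eq_add_neg] using h.add (h'.comp continuous_neg)

theorem reg_sum {ι : Type} (s : Finset ι) {F : ι → Measure (E n) → ℝ} (h : ∀ i, Reg μ (F i)) :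
    Reg μ fun p => ∑ i ∈ s, F i p := by
  classical
  induction s using Finset.induction_on with
  | empty => simpa using reg_const 0
  | insert a s ha ih => simpa [Finset.sum_insert ha] using (h a).add ih

theorem Reg.congr (h : Reg μ F) (e : ∀ t θ, G (tilt μ t θ) = F (tilt μ t θ)) : Reg μ G := by
  unfold Reg
  simp only [e]
  exact h

theorem reg_int [IsProbabilityMeasure μ] (hR : Bd μ R) {f : E n → ℝ} (hf : Continuous f) :
    Reg μ fun p => ∫ x, f x ∂p := by
  obtain ⟨C, hC⟩ := (isCompact_closedBall (0 : E n) R).exists_bound_of_continuousOn hf.continuousOn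
  refine ⟨fun t => ?_, C, fun t θ => ?_⟩
  · simp only [integral_tilt]
    refine Measurable.div ?_ ?_
    · exact (StronglyMeasurable.integral_prod_right (f := fun θ x : E n => tw t θ x * f x)
        (Continuous.stronglyMeasurable (by unfold Function.uncurry; fun_prop))).measurable
    · exact (StronglyMeasurable.integral_prod_right (f := fun θ x : E n => tw t θ x)
        (Continuous.stronglyMeasurable (by unfold Function.uncurry; fun_prop))).measurable
  · have := hR.tilt_prob t θ
    simpa using norm_integral_le_of_norm_le_const (μ := tilt μ t θ) (f := f) (C := C)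
      ((hR.tilt t θ).mono fun x hx => hC x (by simpa using hx))

theorem reg_mean [IsProbabilityMeasure μ] (hR : Bd μ R) (i : Fin n) : Reg μ fun p => mean p i :=
  (reg_int hR (f := fun x => x i) (by fun_prop)).congr fun t θ => by
    have := hR.tilt_prob t θ
    exact (hR.tilt t θ).mean_apply i

theorem Bd.covM_eq [IsProbabilityMeasure μ] (hR : Bd μ R) (i j : Fin n) :
    covM μ i j = ∫ x, x i * x j ∂μ - mean μ i * mean μ j := by
  have e : ∀ x : E n, (x - mean μ) i * (x - mean μ) j =
      x i * x j - (mean μ j * x i + mean μ i * x j) + mean μ i * mean μ j := fun x => by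
    simp only [PiLp.sub_apply]; ring
  simp only [covM, e]
  rw [integral_add (hR.int (by fun_prop)) (integrable_const _),
    integral_sub (hR.int (by fun_prop)) (hR.int (by fun_prop)),
    integral_add (hR.int (by fun_prop)) (hR.int (by fun_prop)), integral_const_mul,
    integral_const_mul, ← hR.mean_apply, ← hR.mean_apply]
  simp
  ring

theorem reg_cov [IsProbabilityMeasure μ] (hR : Bd μ R) (i j : Fin n) :
    Reg μ fun p => covM p i j :=
  ((reg_int hR (f := fun x => x i * x j) (by fun_prop)).sub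
    ((reg_mean hR i).mul (reg_mean hR j))).congr fun t θ => by
    have := hR.tilt_prob t θ
    exact (hR.tilt t θ).covM_eq i j

theorem reg_cov_pow [IsProbabilityMeasure μ] (hR : Bd μ R) (q : ℕ) :
    ∀ i j, Reg μ fun p => (covM p ^ q) i j := by
  induction q with
  | zero => intro i j; simpa using reg_const _
  | succ q ih =>
    intro i j
    simp only [pow_succ, Matrix.mul_apply]
    exact reg_sum _ fun k => (ih i k).mul (reg_cov hR k j)

theorem reg_trace [IsProbabilityMeasure μ] (hR : Bd μ R) (q : ℕ) :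
    Reg μ fun p => Matrix.trace (covM p ^ q) :=
  reg_sum _ fun i => reg_cov_pow hR q i i

theorem EX_mono [IsProbabilityMeasure μ] (hR : Bd μ R) {s : ℝ} (h1 : EI μ s F) (h2 : EI μ s G)
    (h : ∀ θ, F (tilt μ (s ^ 2) θ) ≤ G (tilt μ (s ^ 2) θ)) : EX μ s F ≤ EX μ s G :=
  integral_mono h1 h2 fun g => mul_le_mul_of_nonneg_right (h _) (hR.AA_pos s g).le

theorem EX_nonneg [IsProbabilityMeasure μ] (hR : Bd μ R) {s : ℝ}
    (h : ∀ θ, 0 ≤ F (tilt μ (s ^ 2) θ)) : 0 ≤ EX μ s F :=
  integral_nonneg fun g => mul_nonneg (h _) (hR.AA_pos s g).le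

theorem EX_add {s : ℝ} (h1 : EI μ s F) (h2 : EI μ s G) :
    EX μ s (fun p => F p + G p) = EX μ s F + EX μ s G := by
  simp only [EX, add_mul]
  exact integral_add h1 h2

theorem EX_sub {s : ℝ} (h1 : EI μ s F) (h2 : EI μ s G) :
    EX μ s (fun p => F p - G p) = EX μ s F - EX μ s G := by
  simp only [EX, sub_mul]
  exact integral_sub h1 h2

theorem EX_const_mul (s c : ℝ) : EX μ s (fun p => c * F p) = c * EX μ s F := by
  simp only [EX, mul_assoc]
  exact integral_const_mul _ _

theorem EX_const [IsProbabilityMeasure μ] (hR : Bd μ R) (s c : ℝ) : EX μ s (fun _ => c) = c := by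
  rw [EX, integral_const_mul, (ker_one hR).mean]
  simp

theorem EX_sum {ι : Type} (S : Finset ι) {F : ι → Measure (E n) → ℝ} {s : ℝ}
    (h : ∀ i, EI μ s (F i)) : EX μ s (fun p => ∑ i ∈ S, F i p) = ∑ i ∈ S, EX μ s (F i) := by
  simp only [EX, Finset.sum_mul]
  exact integral_finsetSum _ fun i _ => h i

theorem EX_int [IsProbabilityMeasure μ] (hR : Bd μ R) (s : ℝ) {f : E n → ℝ} (hf : Continuous f) :
    EX μ s (fun p => ∫ x, f x ∂p) = ∫ x, f x ∂μ := by
  obtain ⟨C, hC⟩ := (isCompact_closedBall (0 : E n) R).exists_bound_of_continuousOn hf.continuousOn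
  simp only [EX, hR.post_mul]
  exact Ker.mean (H := C) ⟨hf.measurable, hR.mono fun x hx => hC x (by simpa using hx), hR⟩ s

theorem EX_zero [IsProbabilityMeasure μ] (F : Measure (E n) → ℝ) : EX μ 0 F = F μ := by
  simp [EX, AA, ee, tilt_zero]

/-- One step of the flow: a one step bound on every tilt passes to the expectations. -/
theorem flow [IsProbabilityMeasure μ] (hR : Bd μ R) (hF : Reg μ F) (hG : Reg μ G) {t h c : ℝ}
    (t0 : 0 ≤ t) (h0 : 0 < h)
    (H : ∀ θ, EX (tilt μ t θ) (√h) F ≤ F (tilt μ t θ) + h * G (tilt μ t θ) + c) :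
    EX μ (√(t + h)) F ≤ EX μ (√t) F + h * EX μ (√t) G + c := by
  obtain ⟨i1, e1⟩ := markov hR (s := √t) (r := √h) (c := √(t + h))
    (by rw [Real.sq_sqrt t0, Real.sq_sqrt h0.le, Real.sq_sqrt (by linarith)])
    (Real.sqrt_pos.2 (by linarith)).ne' (hF.ei hR _)
  rw [e1]
  refine (EX_mono hR i1 (((hF.add (hG.const_mul h)).add (reg_const c)).ei hR _) fun θ => ?_).trans
    (le_of_eq ?_)
  · rw [Real.sq_sqrt t0]; exact H θ
  · rw [EX_add ((hF.add (hG.const_mul h)).ei hR _) ((reg_const c).ei hR _),
      EX_add (hF.ei hR _) ((hG.const_mul h).ei hR _), EX_const_mul, EX_const hR]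

/-- Additive growth: if the drift has expectation at most `D` up to time `T`. -/
theorem flow_add [IsProbabilityMeasure μ] (hR : Bd μ R) (hF : Reg μ F) (hG : Reg μ G)
    {T C D : ℝ} (T0 : 0 ≤ T)
    (H : ∀ t θ h, 0 ≤ t → 0 < h → h ≤ 1 → EX (tilt μ t θ) (√h) F ≤
      F (tilt μ t θ) + h * G (tilt μ t θ) + C * (h * √h))
    (hD : ∀ t, 0 ≤ t → t ≤ T → EX μ (√t) G ≤ D) : EX μ (√T) F ≤ F μ + T * D := by
  have := slope (v := fun t => EX μ (√t) F - t * D) (C := C) T0 fun t h t0 h0 h1 h2 => by
    have a1 := flow hR hF hG t0 h0 fun θ => H t θ h t0 h0 h1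
    have a2 := mul_le_mul_of_nonneg_left (hD t t0 (by linarith)) h0.le
    linarith
  simp only [Real.sqrt_zero, EX_zero, zero_mul, sub_zero] at this
  linarith

end Pool.Agent.Lib.MP_fedf83_gt.P
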