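import Pool.Agent.Lib.MP_fedf83_gt.LPoin

/-! Gaussian tilts of a bounded measure, means, covariance and third moment matrices. -/

namespace Pool.Agent.Lib.MP_fedf83_gt.P

open MeasureTheory Set Pool.Agent.Lib.MP_fedf83_gt.B
open scoped ENNReal RealInnerProductSpace

variable {n : ℕ}

/-- The normalised Gaussian tilt of a measure. -/
noncomputable def tilt (μ : Measure (E n)) (t : ℝ) (θ : E n) : Measure (E n) :=
  μ.tilted fun x => ⟪θ, x⟫ - t * ‖x‖ ^ 2 / 2

/-- The weight of the tilt. -/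
noncomputable def tw (t : ℝ) (θ x : E n) : ℝ := Real.exp (⟪θ, x⟫ - t * ‖x‖ ^ 2 / 2)

/-- The barycentre. -/
noncomputable def mean (μ : Measure (E n)) : E n := ∫ x, x ∂μ

/-- The covariance matrix. -/
noncomputable def covM (μ : Measure (E n)) : Matrix (Fin n) (Fin n) ℝ :=
  fun i j => ∫ x, (x - mean μ) i * (x - mean μ) j ∂μ

/-- The third moment matrices. -/
noncomputable def thirdM (μ : Measure (E n)) (k : Fin n) : Matrix (Fin n) (Fin n) ℝ :=
  fun i j => ∫ x, (x - mean μ) k * ((x - mean μ) i * (x - mean μ) j) ∂μ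

/-- Expectation of a functional of the posterior at time `s ^ 2`. -/
noncomputable def EX (μ : Measure (E n)) (s : ℝ) (F : Measure (E n) → ℝ) : ℝ :=
  ∫ g, F (tilt μ (s ^ 2) (s • g)) * AA μ (fun _ => 1) s g ∂gam n

theorem tw_pos (t : ℝ) (θ x : E n) : 0 < tw t θ x := Real.exp_pos _

@[fun_prop]
theorem continuous_tw {Y : Type} [TopologicalSpace Y] (t : ℝ) {θ x : Y → E n}
    (h1 : Continuous θ) (h2 : Continuous x) : Continuous fun y => tw t (θ y) (x y) := by
  unfold tw; fun_prop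

theorem tw_ee (s : ℝ) (g x : E n) : tw (s ^ 2) (s • g) x = ee (s • x) g := by
  unfold tw ee
  rw [inner_smul_left, inner_smul_right, norm_smul, mul_pow, Real.norm_eq_abs, sq_abs]
  simp

theorem tw_mul (s t : ℝ) (θ η x : E n) : tw s θ x * tw t η x = tw (s + t) (θ + η) x := by
  unfold tw
  rw [← Real.exp_add, inner_add_left]
  congr 1
  ring

theorem tw_mid (t : ℝ) (θ x y : E n) :
    tw t θ x * tw t θ y * Real.exp (t * ‖x - y‖ ^ 2 / 4) = tw t θ ((1 / 2 : ℝ) • (x + y)) ^ 2 :=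
  tilt_mid t θ x y

variable {μ : Measure (E n)} {R : ℝ}

theorem Bd.tw_int [IsFiniteMeasure μ] (hR : Bd μ R) (t : ℝ) (θ : E n) :
    Integrable (tw t θ) μ := hR.int (f := fun x => tw t θ x) (by fun_prop)

theorem Bd.tw_Z_pos [IsProbabilityMeasure μ] (hR : Bd μ R) (t : ℝ) (θ : E n) :
    0 < ∫ x, tw t θ x ∂μ := integral_exp_pos (hR.tw_int t θ)

theorem Bd.tilt_prob [IsProbabilityMeasure μ] (hR : Bd μ R) (t : ℝ) (θ : E n) :
    IsProbabilityMeasure (tilt μ t θ) := isProbabilityMeasure_tilted (hR.tw_int t θ)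

theorem tilt_ac (μ : Measure (E n)) (t : ℝ) (θ : E n) : tilt μ t θ ≪ μ :=
  tilted_absolutelyContinuous _ _

theorem Bd.ac_tilt [IsFiniteMeasure μ] (hR : Bd μ R) (t : ℝ) (θ : E n) : μ ≪ tilt μ t θ :=
  absolutelyContinuous_tilted (hR.tw_int t θ)

theorem Bd.tilt (hR : Bd μ R) (t : ℝ) (θ : E n) : Bd (tilt μ t θ) R :=
  (tilt_ac μ t θ).ae_le hR

theorem tilt_zero [IsProbabilityMeasure μ] : tilt μ 0 0 = μ := by
  unfold tilt
  simp

theorem Bd.tilt_tilt [IsFiniteMeasure μ] (hR : Bd μ R) (s t : ℝ) (θ η : E n) :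
    P.tilt (P.tilt μ s θ) t η = P.tilt μ (s + t) (θ + η) := by
  unfold P.tilt
  rw [tilted_tilted (hR.tw_int s θ)]
  congr 1
  funext x
  simp only [Pi.add_apply, inner_add_left]
  ring

theorem integral_tilt (μ : Measure (E n)) (t : ℝ) (θ : E n) (f : E n → ℝ) :
    ∫ x, f x ∂tilt μ t θ = (∫ x, tw t θ x * f x ∂μ) / ∫ x, tw t θ x ∂μ := by
  unfold tilt tw
  rw [integral_tilted, ← integral_div]
  congr with x
  rw [smul_eq_mul]
  ring

theorem Bd.integrable_tilt [IsFiniteMeasure μ] (hR : Bd μ R) (t : ℝ) (θ : E n) (f : E n → ℝ) :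
    Integrable f (P.tilt μ t θ) ↔ Integrable (fun x => tw t θ x * f x) μ :=
  integrable_tilted_iff (hR.tw_int t θ) f

/-- The posterior integral times the total weight is the tilted integral. -/
theorem Bd.post_mul [IsProbabilityMeasure μ] (hR : Bd μ R) (s : ℝ) (g : E n) (f : E n → ℝ) :
    (∫ x, f x ∂P.tilt μ (s ^ 2) (s • g)) * AA μ (fun _ => 1) s g = AA μ f s g := by
  have h := hR.tw_Z_pos (s ^ 2) (s • g)
  rw [integral_tilt]
  unfold AA
  simp only [tw_ee, one_mul] at h ⊢
  rw [div_mul_cancel₀ _ h.ne']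
  simp only [mul_comm]

theorem Bd.AA_pos [IsProbabilityMeasure μ] (hR : Bd μ R) (s : ℝ) (g : E n) :
    0 < AA μ (fun _ => 1) s g := by
  have h := hR.tw_Z_pos (s ^ 2) (s • g)
  unfold AA
  simpa only [tw_ee, one_mul] using h

theorem SLC.tilt [IsProbabilityMeasure μ] {s : ℝ} (hl : SLC s μ) (hR : Bd μ R) (t : ℝ) (θ : E n) :
    SLC (s + t) (tilt μ t θ) := by
  intro f g h mf mg mh f0 g0 h0 i1 i2 i3 H
  have hZ := hR.tw_Z_pos t θ
  have mw : Measurable fun x : E n => tw t θ x := Continuous.measurable (by fun_prop)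
  rw [hR.integrable_tilt] at i1 i2 i3
  have := hl (fun x => tw t θ x * f x) (fun x => tw t θ x * g x) (fun x => tw t θ x * h x)
    (mw.mul mf) (mw.mul mg) (mw.mul mh)
    (fun x => mul_nonneg (tw_pos _ _ _).le (f0 x)) (fun x => mul_nonneg (tw_pos _ _ _).le (g0 x))
    (fun x => mul_nonneg (tw_pos _ _ _).le (h0 x)) i1 i2 i3 fun x y => by
      have h1 := mul_le_mul_of_nonneg_left (H x y)
        (mul_pos (tw_pos t θ x) (tw_pos t θ y)).le
      rw [mul_pow, ← tw_mid t θ x y, mul_mul_mul_comm]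
      refine h1.trans (le_of_eq ?_)
      rw [add_mul, add_div, Real.exp_add]
      ring
  rw [integral_tilt, integral_tilt, integral_tilt, div_mul_div_comm, div_pow, ← sq]
  exact div_le_div_of_nonneg_right this (sq_nonneg _)

theorem LC.slc_tilt [IsProbabilityMeasure μ] (hl : LC μ) (hR : Bd μ R) (t : ℝ) (θ : E n) :
    SLC t (tilt μ t θ) := by
  simpa using hl.slc_zero.tilt hR t θ

theorem LC.tilt [IsProbabilityMeasure μ] (hl : LC μ) (hR : Bd μ R) {t : ℝ} (t0 : 0 ≤ t)
    (θ : E n) : LC (tilt μ t θ) := (hl.slc_tilt hR t θ).lc t0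

theorem Bd.mean_inner [IsFiniteMeasure μ] (hR : Bd μ R) (v : E n) :
    ⟪v, mean μ⟫ = ∫ x, ⟪v, x⟫ ∂μ :=
  (integral_inner (hR.int (f := fun x => x) continuous_id) v).symm

theorem Bd.mean_apply [IsFiniteMeasure μ] (hR : Bd μ R) (i : Fin n) :
    mean μ i = ∫ x, x i ∂μ := by
  have := hR.mean_inner (EuclideanSpace.single i 1)
  simpa [EuclideanSpace.inner_single_left] using this

theorem Bd.norm_mean [IsProbabilityMeasure μ] (hR : Bd μ R) : ‖mean μ‖ ≤ R := by
  simpa [mean] using norm_integral_le_of_norm_le_const (μ := μ) (f := fun x : E n => x) hR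

theorem Bd.centred [IsProbabilityMeasure μ] (hR : Bd μ R) (v : E n) :
    ∫ x, ⟪v, x - mean μ⟫ ∂μ = 0 := by
  simp only [inner_sub_right]
  rw [integral_sub (hR.int (by fun_prop)) (integrable_const _), ← hR.mean_inner]
  simp

theorem Bd.centred_apply [IsProbabilityMeasure μ] (hR : Bd μ R) (i : Fin n) :
    ∫ x, (x - mean μ) i ∂μ = 0 := by
  have := hR.centred (EuclideanSpace.single i 1)
  simpa only [EuclideanSpace.inner_single_left, map_one, one_mul] using this

theorem covM_symm (μ : Measure (E n)) (i j : Fin n) : covM μ i j = covM μ j i := by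
  simp only [covM, mul_comm]

theorem thirdM_symm (μ : Measure (E n)) (k i j : Fin n) : thirdM μ k i j = thirdM μ k j i := by
  simp only [thirdM, mul_comm]

theorem thirdM_swap (μ : Measure (E n)) (k i j : Fin n) : thirdM μ k i j = thirdM μ i k j := by
  simp only [thirdM, mul_left_comm]

/-- The quadratic form of the covariance matrix. -/
theorem Bd.cov_form [IsFiniteMeasure μ] (hR : Bd μ R) (u v : Fin n → ℝ) :
    ∑ i, ∑ j, u i * covM μ i j * v j =
      ∫ x, (∑ i, u i * (x - mean μ) i) * (∑ j, v j * (x - mean μ) j) ∂μ := by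
  simp only [Finset.sum_mul_sum, covM]
  rw [integral_finsetSum _ fun i _ => hR.int (by fun_prop)]
  refine Finset.sum_congr rfl fun i _ => ?_
  rw [integral_finsetSum _ fun j _ => hR.int (by fun_prop)]
  refine Finset.sum_congr rfl fun j _ => ?_
  rw [← integral_const_mul, ← integral_mul_const]
  congr with x
  ring

theorem Bd.covM_psd [IsFiniteMeasure μ] (hR : Bd μ R) : (covM μ).PosSemidef := by
  refine Matrix.PosSemidef.of_dotProduct_mulVec_nonneg ?_ fun v => ?_
  · ext i j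
    simpa using covM_symm μ j i
  · have := hR.cov_form v v
    have h2 : 0 ≤ ∫ x, (∑ i, v i * (x - mean μ) i) * (∑ j, v j * (x - mean μ) j) ∂μ :=
      integral_nonneg fun x => mul_self_nonneg _
    rw [← this] at h2
    simpa [dotProduct, Matrix.mulVec, Finset.mul_sum, mul_assoc] using h2

end Pool.Agent.Lib.MP_fedf83_gt.P
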