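import Pool.Agent.Lib.MP_fedf83_gt.LBig
import Pool.Agent.Lib.MP_fedf83_gt.LTilt
import Pool.Agent.Lib.MP_fedf83_gt.LTrace

/-! One step bounds for the posterior mean square and the trace of a covariance power. -/

namespace Pool.Agent.Lib.MP_fedf83_gt.P

open MeasureTheory Set Pool.Agent.Lib.MP_fedf83_gt.B Matrix
open scoped ENNReal RealInnerProductSpace

variable {n : ℕ}

theorem gam_cov (c d : E n) : ∫ g, ⟪g, c⟫ * ⟪g, d⟫ ∂gam n = ⟪c, d⟫ := by
  set K := 4 * Real.exp (‖c‖ ^ 2) + ‖c‖ ^ 2 with hK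
  have gE : Gr fun g : E n => Real.exp (2 * |‖c‖| * ‖g‖) * |⟪g, d⟫| := by
    obtain ⟨hm, B, S, h⟩ := gr_lin d
    exact Gr.mul ⟨by fun_prop, 1, 2 * |‖c‖|, fun g => by simp⟩
      ⟨by fun_prop, B, S, fun g => by simpa using h g⟩
  set C := K * ∫ g, Real.exp (2 * |‖c‖| * ‖g‖) * |⟪g, d⟫| ∂gam n with hC
  have h : ∀ s : ℝ, 0 < s → s ≤ 1 → |⟪c, d⟫ - ∫ g, ⟪g, c⟫ * ⟪g, d⟫ ∂gam n| ≤ C * s := by
    intro s s0 s1
    have i1 := ((gr_ee (s • c)).mul (gr_lin d)).int
    have i2 := (gr_lin d).int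
    have i3 := ((gr_lin c).mul (gr_lin d)).int.const_mul s
    have h1 := norm_integral_le_of_norm_le (gE.int.const_mul (K * s ^ 2))
      (f := fun g => ee (s • c) g * ⟪g, d⟫ - ⟪g, d⟫ - s * (⟪g, c⟫ * ⟪g, d⟫)) (ae_of_all _ fun g => by
        rw [show ee (s • c) g * ⟪g, d⟫ - ⟪g, d⟫ - s * (⟪g, c⟫ * ⟪g, d⟫) =
          (ee (s • c) g - 1 - s * ⟪g, c⟫) * ⟪g, d⟫ by ring, Real.norm_eq_abs, abs_mul, ← mul_assoc]
        exact mul_le_mul_of_nonneg_right (ee_two s0.le s1 le_rfl g) (abs_nonneg _))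
    rw [integral_sub (isub i1 i2) i3, integral_sub i1 i2, integral_const_mul, integral_const_mul,
      gam_ee_lin, gam_lin, inner_smul_left, conj_trivial, sub_zero, ← mul_sub, Real.norm_eq_abs,
      abs_mul, abs_of_pos s0] at h1
    refine le_of_mul_le_mul_left (h1.trans (le_of_eq ?_)) s0
    rw [hC]
    ring
  by_contra hne
  have d0 : 0 < |⟪c, d⟫ - ∫ g, ⟪g, c⟫ * ⟪g, d⟫ ∂gam n| := abs_pos.2 (sub_ne_zero.2 (Ne.symm hne))
  set δ := |⟪c, d⟫ - ∫ g, ⟪g, c⟫ * ⟪g, d⟫ ∂gam n|
  have C0 : 0 < C := by simpa using d0.trans_le (h 1 one_pos le_rfl)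
  have h2 := h (min 1 (δ / (2 * C))) (by positivity) (min_le_left _ _)
  have h3 := mul_le_mul_of_nonneg_left (min_le_right 1 (δ / (2 * C))) C0.le
  have h4 : C * (δ / (2 * C)) = δ / 2 := by field_simp
  linarith

variable {μ : Measure (E n)} {R H : ℝ}

theorem Bd.post_div [IsProbabilityMeasure μ] (hR : Bd μ R) (s : ℝ) (g : E n) (f : E n → ℝ) :
    ∫ x, f x ∂P.tilt μ (s ^ 2) (s • g) = AA μ f s g / AA μ (fun _ => 1) s g :=
  eq_div_of_mul_eq (hR.AA_pos s g).ne' (hR.post_mul s g f)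

/-- One step bound for the square of the posterior mean. -/
theorem step_S1 (n : ℕ) (R H : ℝ) : ∃ C : ℝ, 0 ≤ C ∧ ∀ (μ : Measure (E n)) [IsProbabilityMeasure μ]
    (f : E n → ℝ) (s : ℝ), Ker μ f H R → 0 ≤ s → s ≤ 1 →
      EX μ s (fun p => (∫ x, f x ∂p) ^ 2) ≤ (∫ x, f x ∂μ) ^ 2 + s ^ 2 * ‖cv μ f‖ ^ 2 + C * s ^ 3 := by
  obtain ⟨C, C0, h⟩ := step_sq n R H
  refine ⟨C, C0, fun μ _ f s k s0 s1 => ?_⟩
  simp only [EX, k.bd.post_div]
  exact h μ f s k s0 s1

theorem Ker.cv_inner [IsProbabilityMeasure μ] {f : E n → ℝ} (k : Ker μ f H R) (v : E n) :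
    ⟪cv μ f, v⟫ = ∫ x, f x * ⟪v, x - P.mean μ⟫ ∂μ := by
  simp only [inner_sub_right, mul_sub]
  rw [integral_sub (k.int' (by fun_prop)) (k.int0.mul_const _), integral_mul_const, cv,
    inner_sub_left, k.inner_int, inner_smul_left, conj_trivial]
  simp only [P.mean, real_inner_comm]

/-- The covariance vector is controlled by the variance. -/
theorem Ker.cv_sq_le [IsProbabilityMeasure μ] {f : E n → ℝ} (k : Ker μ f H R) {L : ℝ}
    (L0 : 0 ≤ L) (hL : ∀ v : E n, ∫ x, ⟪v, x - P.mean μ⟫ ^ 2 ∂μ ≤ L * ‖v‖ ^ 2) :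
    ‖cv μ f‖ ^ 2 ≤ L * (∫ x, f x ^ 2 ∂μ - (∫ x, f x ∂μ) ^ 2) := by
  set v := cv μ f with hv
  set b := ∫ x, f x ∂μ with hb
  have i1 : Integrable (fun x => f x ^ 2) μ := by
    refine (integrable_const (H ^ 2)).mono' (k.mh.pow_const 2).aestronglyMeasurable ?_
    filter_upwards [k.bh] with x hx
    rw [norm_pow]
    exact pow_le_pow_left₀ (abs_nonneg _) hx 2
  have i2 : Integrable (fun x => f x * ⟪v, x - P.mean μ⟫) μ := k.int' (by fun_prop)
  have i3 : Integrable (fun x => ⟪v, x - P.mean μ⟫ ^ 2) μ := k.bd.int (by fun_prop)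
  have i4 : Integrable (fun x => ⟪v, x - P.mean μ⟫) μ := k.bd.int (by fun_prop)
  have e : ‖v‖ ^ 2 = ∫ x, f x * ⟪v, x - P.mean μ⟫ ∂μ := by
    rw [← k.cv_inner, ← hv, real_inner_self_eq_norm_sq]
  have h0 : 0 ≤ ∫ x, (L * (f x - b) - ⟪v, x - P.mean μ⟫) ^ 2 ∂μ := integral_nonneg fun x => sq_nonneg _
  have e1 : ∀ x, (L * (f x - b) - ⟪v, x - P.mean μ⟫) ^ 2 = L ^ 2 * f x ^ 2 - 2 * L ^ 2 * b * f x -
      2 * L * (f x * ⟪v, x - P.mean μ⟫) + 2 * L * b * ⟪v, x - P.mean μ⟫ + ⟪v, x - P.mean μ⟫ ^ 2 +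
        L ^ 2 * b ^ 2 := fun x => by ring
  have j1 := i1.const_mul (L ^ 2)
  have j0 := k.int0.const_mul (2 * L ^ 2 * b)
  have j2 := i2.const_mul (2 * L)
  have j4 := i4.const_mul (2 * L * b)
  simp only [e1] at h0
  rw [integral_add (iadd (iadd (isub (isub j1 j0) j2) j4) i3) (integrable_const _),
    integral_add (iadd (isub (isub j1 j0) j2) j4) i3, integral_add (isub (isub j1 j0) j2) j4,
    integral_sub (isub j1 j0) j2, integral_sub j1 j0, integral_const_mul, integral_const_mul,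
    integral_const_mul, integral_const_mul, k.bd.centred, ← e, ← hb] at h0
  simp only [integral_const, probReal_univ, smul_eq_mul, one_mul] at h0
  have h1 := hL v
  rcases L0.eq_or_lt with h | h
  · have h2 : ∫ x, ⟪v, x - P.mean μ⟫ ^ 2 ∂μ = 0 :=
      le_antisymm (by simpa [← h] using h1) (integral_nonneg fun x => sq_nonneg _)
    rw [integral_eq_zero_iff_of_nonneg (fun x => sq_nonneg _) i3] at h2
    rw [e, ← h, zero_mul]
    refine le_of_eq (integral_eq_zero_of_ae ?_)
    filter_upwards [h2] with x hx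
    simp only [Pi.zero_apply, pow_eq_zero_iff two_ne_zero] at hx
    simp [hx]
  · exact le_of_mul_le_mul_left (by nlinarith) h

theorem Bd.covM_shift [IsProbabilityMeasure μ] (hR : Bd μ R) (a : E n) (i j : Fin n) :
    covM μ i j = ∫ x, (x - a) i * (x - a) j ∂μ - (∫ x, (x - a) i ∂μ) * ∫ x, (x - a) j ∂μ := by
  have e : ∀ i, ∫ x, (x - a) i ∂μ = mean μ i - a i := fun i => by
    simp only [PiLp.sub_apply]
    rw [integral_sub (hR.int (by fun_prop)) (integrable_const _), hR.mean_apply]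
    simp
  have e1 : ∀ x : E n, (x - a) i * (x - a) j = (x - mean μ) i * (x - mean μ) j +
      (mean μ j - a j) * (x - mean μ) i + (mean μ i - a i) * (x - mean μ) j +
        (mean μ i - a i) * (mean μ j - a j) := fun x => by
    simp only [PiLp.sub_apply]
    ring
  have i1 : Integrable (fun x : E n => (x - mean μ) i * (x - mean μ) j) μ := hR.int (by fun_prop)
  have i2 : ∀ (c : ℝ) i, Integrable (fun x : E n => c * (x - mean μ) i) μ := fun c i =>
    hR.int (by fun_prop)
  rw [e, e]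
  simp only [e1]
  rw [integral_add (iadd (iadd i1 (i2 _ _)) (i2 _ _)) (integrable_const _),
    integral_add (iadd i1 (i2 _ _)) (i2 _ _), integral_add i1 (i2 _ _), integral_const_mul,
    integral_const_mul, hR.centred_apply, hR.centred_apply]
  simp [covM]

theorem Bd.ker_c [IsProbabilityMeasure μ] (hR : Bd μ R) (i : Fin n) :
    Ker μ (fun x => (x - mean μ) i) (2 * R) R := by
  refine ⟨by fun_prop, ?_, hR⟩
  filter_upwards [hR] with x hx
  have h1 := PiLp.norm_apply_le (x - mean μ) i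
  have h2 := norm_sub_le x (mean μ)
  have h3 := hR.norm_mean
  rw [Real.norm_eq_abs] at h1
  linarith

theorem Bd.ker_cc [IsProbabilityMeasure μ] (hR : Bd μ R) (i j : Fin n) :
    Ker μ (fun x => (x - mean μ) i * (x - mean μ) j) (4 * R ^ 2) R := by
  refine ⟨by fun_prop, ?_, hR⟩
  filter_upwards [(hR.ker_c i).bh, (hR.ker_c j).bh] with x h1 h2
  rw [abs_mul]
  exact (mul_le_mul h1 h2 (abs_nonneg _) ((abs_nonneg _).trans h1)).trans (le_of_eq (by ring))

theorem Bd.covM_bnd [IsProbabilityMeasure μ] (hR : Bd μ R) : T.Bnd (covM μ) (4 * R ^ 2) :=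
  fun i j => by
    simpa [covM] using norm_integral_le_of_norm_le_const (μ := μ)
      (f := fun x => (x - mean μ) i * (x - mean μ) j) (C := 4 * R ^ 2) (hR.ker_cc i j).bh

theorem Bd.cv_cc [IsProbabilityMeasure μ] (hR : Bd μ R) (i j k : Fin n) :
    cv μ (fun x => (x - mean μ) i * (x - mean μ) j) k = thirdM μ k i j := by
  have := (hR.ker_cc i j).cv_inner (EuclideanSpace.single k 1)
  simp only [EuclideanSpace.inner_single_left, EuclideanSpace.inner_single_right, map_one,
    one_mul, conj_trivial] at this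
  rw [this, thirdM]
  simp only [mul_comm]

theorem trace_three (W X Y : Matrix (Fin n) (Fin n) ℝ) :
    trace (W * X * Y) = ∑ i, ∑ l, ∑ j, W i j * (X j l * Y l i) := by
  simp only [Matrix.trace, diag_apply, mul_apply, Finset.sum_mul]
  simp only [mul_assoc]

/-- One step bound for the trace of a power of the posterior covariance. -/
theorem step_S2 (n q : ℕ) (R : ℝ) : ∃ C : ℝ, 0 ≤ C ∧ ∀ (μ : Measure (E n))
    [IsProbabilityMeasure μ] (s : ℝ), Bd μ R → 0 ≤ s → s ≤ 1 →
      EX μ s (fun p => trace (covM p ^ q)) ≤ trace (covM μ ^ q) + s ^ 2 * ((q.choose 2 : ℕ) *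
        ∑ k, trace (covM μ ^ (q - 2) * thirdM μ k * thirdM μ k)) + C * s ^ 3 := by
  obtain ⟨C1, C10, hT⟩ := T.trace_step n q (M := 8 * R ^ 2) (by positivity)
  let ι := {p : Measure (E n) × ℝ // IsProbabilityMeasure p.1 ∧ Bd p.1 R ∧ 0 ≤ p.2 ∧ p.2 ≤ 1}
  have φ : Fam (fun i : ι => i.1.1) (fun i => i.1.2) R :=
    ⟨fun i => i.2.1, fun i => i.2.2.1, fun i => i.2.2.2⟩
  let Em : ι → E n → Matrix (Fin n) (Fin n) ℝ := fun i g =>
    covM (tilt i.1.1 (i.1.2 ^ 2) (i.1.2 • g)) - covM i.1.1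
  let Bm : ι → E n → Matrix (Fin n) (Fin n) ℝ := fun i g a b =>
    i.1.2 * ⟪g, cv i.1.1 fun x => (x - mean i.1.1) a * (x - mean i.1.1) b⟫
  have k1 : ∀ a (i : ι), Ker i.1.1 (fun x => (x - mean i.1.1) a) (2 * R) R := fun a i => by
    have := φ.pr i
    exact (φ.bd i).ker_c a
  have k2 : ∀ a b (i : ι), Ker i.1.1 (fun x => (x - mean i.1.1) a * (x - mean i.1.1) b)
      (4 * R ^ 2) R := fun a b i => by
    have := φ.pr i
    exact (φ.bd i).ker_cc a b
  have eE : ∀ (i : ι) g a b, Em i g a b =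
      AA i.1.1 (fun x => (x - mean i.1.1) a * (x - mean i.1.1) b) i.1.2 g /
        AA i.1.1 (fun _ => 1) i.1.2 g - covM i.1.1 a b -
      AA i.1.1 (fun x => (x - mean i.1.1) a) i.1.2 g / AA i.1.1 (fun _ => 1) i.1.2 g *
        (AA i.1.1 (fun x => (x - mean i.1.1) b) i.1.2 g / AA i.1.1 (fun _ => 1) i.1.2 g) := by
    intro i g a b
    have := φ.pr i
    have := (φ.bd i).tilt_prob (i.1.2 ^ 2) (i.1.2 • g)
    simp only [Em, Matrix.sub_apply]
    rw [((φ.bd i).tilt _ _).covM_shift (mean i.1.1), (φ.bd i).post_div, (φ.bd i).post_div,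
      (φ.bd i).post_div]
    ring
  have b2 : ∀ a b, Big (fun i : ι => i.1.2) 2 fun i g => Em i g a b - Bm i g a b := fun a b =>
    ((φ.post (k2 a b)).sub ((φ.post1 (k1 a)).mul (φ.post1 (k1 b)))).congr fun i g => by
      have := φ.pr i
      rw [eE, (φ.bd i).centred_apply, (φ.bd i).centred_apply]
      simp only [Bm, covM]
      ring
  have bB : ∀ a b, Big (fun i : ι => i.1.2) 1 fun i g => Bm i g a b := fun a b =>
    (big_sig φ.sg).mul (φ.cvl (k2 a b))
  have bE : ∀ a b, Big (fun i : ι => i.1.2) 1 fun i g => Em i g a b := fun a b =>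
    (((b2 a b).mono one_le_two).add (bB a b)).congr fun i g => by ring
  have be : Big (fun i : ι => i.1.2) 1 fun i g => ∑ a, ∑ b, |Em i g a b| :=
    big_sum φ.sg _ fun a => big_sum φ.sg _ fun b => (bE a b).abs
  have bW : ∀ a b, Big (fun i : ι => i.1.2) 0 fun i (_ : E n) => (covM i.1.1 ^ (q - 2)) a b :=
    fun a b => big_bdd φ.sg fun i => by
      have := φ.pr i
      exact ((φ.bd i).covM_bnd.pow (q - 2)) a b
  have b3 : Big (fun i : ι => i.1.2) 3 fun i g =>
      trace (covM i.1.1 ^ (q - 2) * Em i g * Em i g) * AA i.1.1 (fun _ => 1) i.1.2 g -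
        trace (covM i.1.1 ^ (q - 2) * Bm i g * Bm i g) :=
    (big_sum φ.sg Finset.univ fun a => big_sum φ.sg Finset.univ fun l =>
      big_sum φ.sg Finset.univ fun j => (bW a j).mul
        (((((b2 j l).mul (bE l a)).mul φ.z0).add (((bB j l).mul (b2 l a)).mul φ.z0)).add
          (((bB j l).mul (bB l a)).mul φ.z1))).congr fun i g => by
      rw [trace_three, trace_three]
      simp only [Finset.sum_mul, ← Finset.sum_sub_distrib]
      refine Finset.sum_congr rfl fun a _ => Finset.sum_congr rfl fun l _ =>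
        Finset.sum_congr rfl fun j _ => by ring
  obtain ⟨C, C0, hC⟩ := (((big_const φ.sg ((q.choose 2 : ℕ) : ℝ)).mul b3).add
    (((big_const φ.sg C1).mul ((be.mul be).mul be)).mul φ.z0)).dom
  refine ⟨C, C0, fun μ _ s hR s0 s1 => ?_⟩
  set i : ι := ⟨(μ, s), inferInstance, hR, s0, s1⟩ with hi
  obtain ⟨W, iW, hW, eW⟩ := hC i
  have eW' : ∫ g, W g ∂gam n ≤ C * s ^ 3 := eW
  set A := covM μ with hA
  set c : Fin n → Fin n → E n := fun a b => cv μ fun x => (x - mean μ) a * (x - mean μ) b with hc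
  have kz := ker_one hR
  have i1 := (kz.gr s).int.const_mul (trace (A ^ q))
  have j2 : ∀ a b, Integrable (fun g => (A ^ (q - 1)) a b *
      (AA μ (fun x => (x - mean μ) b * (x - mean μ) a) s g - A b a * AA μ (fun _ => 1) s g))
      (gam n) := fun a b =>
    (isub ((hR.ker_cc b a).gr s).int ((kz.gr s).int.const_mul _)).const_mul _
  have i2 := (integrable_finsetSum Finset.univ fun a _ =>
    integrable_finsetSum Finset.univ fun b _ => j2 a b).const_mul (q : ℝ)
  have j3 : ∀ a l j, Integrable (fun g : E n => (A ^ (q - 2)) a j *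
      (s * ⟪g, c j l⟫ * (s * ⟪g, c l a⟫))) (gam n) := fun a l j =>
    (((gr_const s).mul (gr_lin _)).mul ((gr_const s).mul (gr_lin _))).int.const_mul _
  have i3 := (integrable_finsetSum Finset.univ fun a _ =>
    integrable_finsetSum Finset.univ fun l _ =>
      integrable_finsetSum Finset.univ fun j _ => j3 a l j).const_mul ((q.choose 2 : ℕ) : ℝ)
  have key := integral_mono_of_nonneg
    (f := fun g => trace (covM (tilt μ (s ^ 2) (s • g)) ^ q) * AA μ (fun _ => 1) s g)
    (ae_of_all _ fun g => by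
      have := hR.tilt_prob (s ^ 2) (s • g)
      exact mul_nonneg ((hR.tilt _ _).covM_psd.pow q).trace_nonneg (hR.AA_pos s g).le)
    (iadd (iadd (iadd i1 i2) i3) iW) (ae_of_all _ fun g => by
      have := hR.tilt_prob (s ^ 2) (s • g)
      have z := hR.AA_pos s g
      have h1 := hW g
      have h2 := hT A (Em i g) (∑ a, ∑ b, |Em i g a b|) hR.covM_psd
        (by ext a b; simp only [Em, transpose_apply, Matrix.sub_apply, covM_symm _ a b])
        (by positivity) (hR.covM_bnd.mono (by nlinarith [sq_nonneg R]))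
        (fun a b => (abs_sub _ _).trans ((add_le_add ((hR.tilt _ _).covM_bnd a b)
          (hR.covM_bnd a b)).trans (le_of_eq (by ring))))
        (fun a b => (Finset.single_le_sum (f := fun b => |Em i g a b|)
          (fun _ _ => abs_nonneg _) (Finset.mem_univ b)).trans
            (Finset.single_le_sum (f := fun a => ∑ b, |Em i g a b|)
              (fun _ _ => by positivity) (Finset.mem_univ a)))
      have e0 : A + Em i g = covM (tilt μ (s ^ 2) (s • g)) := add_sub_cancel _ _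
      rw [e0] at h2
      have h3 : trace (A ^ (q - 1) * Em i g) * AA μ (fun _ => 1) s g ≤
          ∑ a, ∑ b, (A ^ (q - 1)) a b * (AA μ (fun x => (x - mean μ) b * (x - mean μ) a) s g -
            A b a * AA μ (fun _ => 1) s g) := by
        set m : Fin n → ℝ := fun a => AA μ (fun x => (x - mean μ) a) s g / AA μ (fun _ => 1) s g
          with hm
        have h4 : 0 ≤ ∑ a, ∑ b, (A ^ (q - 1)) a b * (m b * m a) := by
          have := (hR.covM_psd.pow (q - 1)).dotProduct_mulVec_nonneg m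
          simp only [dotProduct, mulVec, star_trivial, Finset.mul_sum] at this
          refine this.trans (le_of_eq ?_)
          exact Finset.sum_congr rfl fun a _ => Finset.sum_congr rfl fun b _ => by ring
        have e4 : trace (A ^ (q - 1) * Em i g) * AA μ (fun _ => 1) s g =
            ∑ a, ∑ b, (A ^ (q - 1)) a b * (AA μ (fun x => (x - mean μ) b * (x - mean μ) a) s g -
              A b a * AA μ (fun _ => 1) s g) -
            (∑ a, ∑ b, (A ^ (q - 1)) a b * (m b * m a)) * AA μ (fun _ => 1) s g := by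
          simp only [Matrix.trace, diag_apply, mul_apply, Finset.sum_mul, ← Finset.sum_sub_distrib]
          refine Finset.sum_congr rfl fun a _ => Finset.sum_congr rfl fun b _ => ?_
          rw [eE]
          simp only [hi, hm, ← hA]
          field_simp
        rw [e4]
        exact sub_le_self _ (mul_nonneg h4 z.le)
      have e5 : trace (A ^ (q - 2) * Bm i g * Bm i g) =
          ∑ a, ∑ l, ∑ j, (A ^ (q - 2)) a j * (s * ⟪g, c j l⟫ * (s * ⟪g, c l a⟫)) := trace_three _ _ _
      have h5 := mul_le_mul_of_nonneg_right h2 z.le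
      have h6 := mul_le_mul_of_nonneg_left h3 (Nat.cast_nonneg (α := ℝ) q)
      change (q.choose 2 : ℕ) * (trace (A ^ (q - 2) * Em i g * Em i g) * AA μ (fun _ => 1) s g -
        trace (A ^ (q - 2) * Bm i g * Bm i g)) + C1 * ((∑ a, ∑ b, |Em i g a b|) *
          (∑ a, ∑ b, |Em i g a b|) * (∑ a, ∑ b, |Em i g a b|)) * AA μ (fun _ => 1) s g ≤ _ at h1
      simp only
      rw [← e5]
      nlinarith)
  rw [integral_add (iadd (iadd i1 i2) i3) iW, integral_add (iadd i1 i2) i3, integral_add i1 i2,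
    integral_const_mul, integral_const_mul, integral_const_mul, kz.mean,
    integral_finsetSum _ fun a _ => integrable_finsetSum _ fun b _ => j2 a b,
    integral_finsetSum _ fun a _ => integrable_finsetSum _ fun l _ =>
      integrable_finsetSum _ fun j _ => j3 a l j] at key
  have e2 : ∀ a, ∫ g, ∑ b, (A ^ (q - 1)) a b *
      (AA μ (fun x => (x - mean μ) b * (x - mean μ) a) s g - A b a * AA μ (fun _ => 1) s g)
      ∂gam n = 0 := fun a => by
    rw [integral_finsetSum _ fun b _ => j2 a b]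
    refine Finset.sum_eq_zero fun b _ => ?_
    rw [integral_const_mul, integral_sub ((hR.ker_cc b a).gr s).int ((kz.gr s).int.const_mul _),
      integral_const_mul, (hR.ker_cc b a).mean, kz.mean]
    simp [hA, covM]
  have e3 : ∀ a, ∫ g : E n, ∑ l, ∑ j, (A ^ (q - 2)) a j * (s * ⟪g, c j l⟫ * (s * ⟪g, c l a⟫)) ∂gam n =
      s ^ 2 * ∑ l, ∑ j, ∑ k, (A ^ (q - 2)) a j * (thirdM μ k j l * thirdM μ k l a) := fun a => by
    rw [integral_finsetSum _ fun l _ => integrable_finsetSum _ fun j _ => j3 a l j, Finset.mul_sum]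
    refine Finset.sum_congr rfl fun l _ => ?_
    rw [integral_finsetSum _ fun j _ => j3 a l j, Finset.mul_sum]
    refine Finset.sum_congr rfl fun j _ => ?_
    simp only [mul_mul_mul_comm s _ s]
    rw [integral_const_mul, integral_const_mul, gam_cov, ← Finset.mul_sum, PiLp.inner_apply]
    simp only [hc, hR.cv_cc, RCLike.inner_apply, conj_trivial, mul_comm (thirdM μ _ l a)]
    ring
  have e6 : ∑ k, trace (A ^ (q - 2) * thirdM μ k * thirdM μ k) =
      ∑ a, ∑ l, ∑ j, ∑ k, (A ^ (q - 2)) a j * (thirdM μ k j l * thirdM μ k l a) := by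
    simp only [trace_three]
    rw [Finset.sum_comm]
    refine Finset.sum_congr rfl fun a _ => ?_
    rw [Finset.sum_comm]
    refine Finset.sum_congr rfl fun l _ => ?_
    rw [Finset.sum_comm]
  simp only [e2, e3, ← Finset.mul_sum, Finset.sum_const_zero, mul_zero, add_zero, integral_const,
    probReal_univ, smul_eq_mul, mul_one] at key
  rw [EX, e6]
  simp only [← Finset.mul_sum]
  nlinarith

end Pool.Agent.Lib.MP_fedf83_gt.P
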