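import Pool.Agent.Lib.MP_fedf83_gt.LInv
import Pool.Agent.Lib.MP_fedf83_gt.LChen
import Pool.Agent.Lib.MP_fedf83_gt.LStep
import Pool.Agent.Lib.MP_fedf83_gt.LMarkov

/-! The variance of quadratic forms along the flow of posteriors, and the bootstrap. -/

namespace Pool.Agent.Lib.MP_fedf83_gt.P

open MeasureTheory Set Matrix Pool.Agent.Lib.MP_fedf83_gt.B
open scoped ENNReal RealInnerProductSpace

set_option linter.unusedSectionVars false

variable {n : ℕ}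

/-- The largest eigenvalue of a positive semidefinite matrix. -/
theorem exists_lam (hn : 1 ≤ n) {A : Matrix (Fin n) (Fin n) ℝ} (hA : A.PosSemidef) :
    ∃ l : ℝ, 0 ≤ l ∧ (∀ v : E n, v.ofLp ⬝ᵥ (A *ᵥ v.ofLp) ≤ l * ‖v‖ ^ 2) ∧
      (∀ q : ℕ, l ^ q ≤ trace (A ^ q)) ∧
      ∀ H : Matrix (Fin n) (Fin n) ℝ, Hᵀ = H →
        trace (H * A * H * A) ≤ l ^ 2 * ∑ i, ∑ j, H i j ^ 2 := by
  obtain ⟨U, d, hd, h1, h2, e⟩ := T.spectral hA
  have : Nonempty (Fin n) := ⟨⟨0, hn⟩⟩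
  obtain ⟨k, hk⟩ := Finite.exists_max d
  refine ⟨d k, hd k, fun v => ?_, fun q => ?_, fun H hH => ?_⟩
  · rw [e, ← mulVec_mulVec, ← mulVec_mulVec, dotProduct_mulVec, ← mulVec_transpose,
      EuclideanSpace.real_norm_sq_eq, ← orth_sq h2, Finset.mul_sum, dotProduct]
    refine Finset.sum_le_sum fun i _ => ?_
    rw [mulVec_diagonal]
    have e1 : (Uᵀ *ᵥ v.ofLp) i = ∑ a, U a i * v a := rfl
    rw [e1]
    nlinarith [mul_le_mul_of_nonneg_right (hk i) (sq_nonneg (∑ a, U a i * v a))]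
  · rw [trace_pow_eq h1 h2 e]
    exact Finset.single_le_sum (f := fun i => d i ^ q) (fun i _ => pow_nonneg (hd i) q)
      (Finset.mem_univ k)
  · have hF : (Uᵀ * H * U)ᵀ = Uᵀ * H * U := by simp [transpose_mul, hH, Matrix.mul_assoc]
    have s : ∀ i j, (Uᵀ * H * U) j i = (Uᵀ * H * U) i j := fun i j => by
      conv_lhs => rw [← hF, transpose_apply]
    have e1 : trace (H * A * H * A) =
        trace (diagonal d * (Uᵀ * H * U) * diagonal d * (Uᵀ * H * U)) := by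
      rw [e]
      simp only [Matrix.mul_assoc]
      rw [trace_mul_comm (diagonal d)]
      simp only [Matrix.mul_assoc]
      rw [trace_mul_comm Uᵀ]
      simp only [Matrix.mul_assoc]
    have e2 : ∑ i, ∑ j, H i j ^ 2 = ∑ i, ∑ j, (Uᵀ * H * U) i j ^ 2 := by
      rw [← trace_sq hH, ← trace_sq hF]
      simp only [Matrix.mul_assoc]
      rw [trace_mul_comm Uᵀ]
      simp only [Matrix.mul_assoc]
      rw [h2, Matrix.mul_one, ← Matrix.mul_assoc U, h2, Matrix.one_mul]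
    rw [e1, trace_four _ _ _ s, e2, Finset.mul_sum]
    refine Finset.sum_le_sum fun i _ => ?_
    rw [Finset.mul_sum]
    refine Finset.sum_le_sum fun j _ => mul_le_mul_of_nonneg_right ?_ (sq_nonneg _)
    rw [sq]
    exact mul_le_mul (hk i) (hk j) (hd j) (hd k)

theorem pow_le_mom {l M Φ : ℝ} {m q : ℕ} (l0 : 0 ≤ l) (M0 : 0 < M) (hm : m ≤ q)
    (h : l ^ q ≤ Φ) : l ^ m ≤ M ^ m * (1 + Φ / M ^ q) := by
  have h1 : (l / M) ^ m ≤ 1 + (l / M) ^ q := by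
    have x0 : 0 ≤ l / M := by positivity
    rcases le_total (l / M) 1 with h2 | h2
    · linarith [pow_le_one₀ (n := m) x0 h2, pow_nonneg x0 q]
    · linarith [pow_le_pow_right₀ h2 hm]
  rw [div_pow, div_pow, div_le_iff₀ (by positivity), mul_comm] at h1
  refine h1.trans (mul_le_mul_of_nonneg_left ?_ (by positivity))
  gcongr

variable {μ : Measure (E n)} [IsProbabilityMeasure μ] {K : Set (E n)} {R P : ℝ}

theorem Bd.sq_shift (hR : Bd μ R) {f : E n → ℝ} (cf : Continuous f) (m : ℝ) :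
    ∫ x, (f x - m) ^ 2 ∂μ = ∫ x, f x ^ 2 ∂μ - 2 * m * ∫ x, f x ∂μ + m ^ 2 := by
  have e1 : ∀ x : E n, (f x - m) ^ 2 = f x ^ 2 - 2 * m * f x + m ^ 2 := fun x => by ring
  simp only [e1]
  rw [integral_add (hR.int (by fun_prop)) (integrable_const _),
    integral_sub (hR.int (by fun_prop)) (hR.int (by fun_prop)), integral_const_mul]
  simp

theorem Bd.sq_int_le (hR : Bd μ R) {f : E n → ℝ} (cf : Continuous f) :
    (∫ x, f x ∂μ) ^ 2 ≤ ∫ x, f x ^ 2 ∂μ := by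
  have h1 := hR.sq_shift cf (∫ x, f x ∂μ)
  have h2 : 0 ≤ ∫ x, (f x - ∫ x, f x ∂μ) ^ 2 ∂μ := integral_nonneg fun x => sq_nonneg _
  nlinarith

theorem qf_zero (H : Matrix (Fin n) (Fin n) ℝ) (x : E n) : qf H 0 x = ⟪mv H x, x⟫ := by
  rw [qf_eq, sub_zero, inner_dot, mv_ofLp, dotProduct_comm]

theorem qf_shift (H : Matrix (Fin n) (Fin n) ℝ) (a x : E n) : qf H a x = qf H 0 (x - a) := by
  simp only [qf, sub_zero]

theorem qf_split {H : Matrix (Fin n) (Fin n) ℝ} (hH : Hᵀ = H) (a x : E n) :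
    qf H 0 x = qf H a x + 2 * ⟪mv H a, x - a⟫ + qf H 0 a := by
  rw [qf_shift H a, qf_zero, qf_zero, qf_zero]
  have h := mv_inner H x a
  rw [hH] at h
  simp only [map_sub, inner_sub_left, inner_sub_right, h]
  ring

/-- The variance of an uncentred form under a measure with the invariant bound. -/
theorem PV.var_le (hP : PV μ P) (P0 : 0 ≤ P) (hR : Bd μ R) {H : Matrix (Fin n) (Fin n) ℝ}
    (hH : Hᵀ = H) {l : ℝ} (h1 : ∀ v : E n, ∫ x, ⟪v, x - mean μ⟫ ^ 2 ∂μ ≤ l * ‖v‖ ^ 2)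
    (h2 : trace (H * covM μ * H * covM μ) ≤ l ^ 2 * ∑ i, ∑ j, H i j ^ 2) :
    ∫ x, qf H 0 x ^ 2 ∂μ - (∫ x, qf H 0 x ∂μ) ^ 2 ≤
      2 * (P * (l ^ 2 * ∑ i, ∑ j, H i j ^ 2)) + 8 * (l * ‖mv H (mean μ)‖ ^ 2) := by
  set a := mean μ with ha
  set b := ∫ x, qf H a x ∂μ with hb
  have h3 := hR.sq_shift (continuous_qf H 0) (b + qf H 0 a)
  have h4 := hR.sq_shift (continuous_qf H a) b
  have h5 := (hP H hH).trans (mul_le_mul_of_nonneg_left h2 P0)
  have c1 : Continuous fun x : E n => ⟪mv H a, x - a⟫ := continuous_const.inner (by fun_prop)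
  have h6 : ∫ x, (qf H 0 x - (b + qf H 0 a)) ^ 2 ∂μ ≤
      ∫ x, 2 * (qf H a x - b) ^ 2 + 8 * ⟪mv H a, x - a⟫ ^ 2 ∂μ := by
    refine integral_mono (hR.int (by fun_prop)) (hR.int (by fun_prop)) fun x => ?_
    simp only
    rw [qf_split hH a x]
    nlinarith [sq_nonneg (qf H a x - b - 2 * ⟪mv H a, x - a⟫)]
  rw [integral_add (hR.int (by fun_prop)) (hR.int (by fun_prop)), integral_const_mul,
    integral_const_mul] at h6
  have h7 := h1 (mv H a)
  rw [← ha, ← hb] at h5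
  rw [← hb] at h4
  nlinarith [sq_nonneg (∫ x, qf H 0 x ∂μ - (b + qf H 0 a))]

theorem mv_norm_sq (H : Matrix (Fin n) (Fin n) ℝ) (x : E n) :
    ‖mv H x‖ ^ 2 = ∑ i, ⟪x, WithLp.toLp 2 (H i)⟫ ^ 2 := by
  rw [EuclideanSpace.real_norm_sq_eq]
  refine Finset.sum_congr rfl fun i _ => ?_
  rw [inner_dot, dotProduct_comm]
  rfl

theorem Bd.mv_mean (hR : Bd μ R) (H : Matrix (Fin n) (Fin n) ℝ) :
    (‖mv H (mean μ)‖ ^ 2) ^ 2 ≤ ∫ x, (‖mv H x‖ ^ 2) ^ 2 ∂μ := by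
  refine le_trans (pow_le_pow_left₀ (sq_nonneg _) ?_ 2) (hR.sq_int_le (by fun_prop))
  simp only [mv_norm_sq]
  rw [integral_finsetSum _ fun i _ => hR.int (by fun_prop)]
  refine Finset.sum_le_sum fun i _ => ?_
  rw [real_inner_comm, hR.mean_inner]
  simpa only [real_inner_comm] using
    hR.sq_int_le (f := fun x => ⟪x, WithLp.toLp 2 (H i)⟫) (by fun_prop)

theorem Iso.mv_two (h : Iso μ K R) (H : Matrix (Fin n) (Fin n) ℝ) :
    ∫ x, ‖mv H x‖ ^ 2 ∂μ = ∑ i, ∑ j, H i j ^ 2 := by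
  simp only [mv_norm_sq]
  rw [integral_finsetSum _ fun i _ => h.bd.int (by fun_prop)]
  refine Finset.sum_congr rfl fun i _ => ?_
  rw [h.m2, EuclideanSpace.real_norm_sq_eq]

theorem Iso.mv_four (h : Iso μ K R) (H : Matrix (Fin n) (Fin n) ℝ) :
    ∫ x, (‖mv H x‖ ^ 2) ^ 2 ∂μ ≤ 1400000 * (∑ i, ∑ j, H i j ^ 2) ^ 2 := by
  simp only [mv_norm_sq]
  simpa only [EuclideanSpace.real_norm_sq_eq] using
    h.four_sum fun i => (WithLp.toLp 2 (H i) : E n)

/-- The drift of the squared mean of a quadratic form. -/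
theorem PV.drift (hn : 1 ≤ n) (hP : PV μ P) (P0 : 0 ≤ P) (hR : Bd μ R)
    {H : Matrix (Fin n) (Fin n) ℝ} (hH : Hᵀ = H) {B M N : ℝ} (k : Ker μ (qf H 0) B R) (M0 : 0 < M)
    (N0 : 0 < N) (hN : ∑ i, ∑ j, H i j ^ 2 = N) {q : ℕ} (hq : 4 ≤ q) :
    ‖cv μ (qf H 0)‖ ^ 2 ≤ (2 * P * N * M ^ 3 + 4 * N * M ^ 2) +
      (2 * P * N * M ^ 3 + 4 * N * M ^ 2) / M ^ q * trace (covM μ ^ q) +
      4 * M ^ 2 / N * ∫ x, (‖mv H x‖ ^ 2) ^ 2 ∂μ := by
  obtain ⟨l, l0, h1, h2, h3⟩ := exists_lam hn hR.covM_psd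
  have h1' : ∀ v : E n, ∫ x, ⟪v, x - mean μ⟫ ^ 2 ∂μ ≤ l * ‖v‖ ^ 2 := fun v => by
    simpa only [hR.cov_inner, sq] using h1 v
  have h4 := (k.cv_sq_le l0 h1').trans
    (mul_le_mul_of_nonneg_left (hP.var_le P0 hR hH h1' (h3 H hH)) l0)
  rw [hN] at h4
  have h5 := hR.mv_mean H
  set g := ‖mv H (mean μ)‖ ^ 2
  set I := ∫ x, (‖mv H x‖ ^ 2) ^ 2 ∂μ
  have p3 := pow_le_mom (m := 3) l0 M0 (by omega) (h2 q)
  have p4 := pow_le_mom (m := 4) l0 M0 hq (h2 q)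
  rw [div_mul_eq_mul_div, mul_div_assoc]
  set φ := trace (covM μ ^ q) / M ^ q
  have h6 : 2 * (l ^ 2 * g) ≤ N / M ^ 2 * l ^ 4 + M ^ 2 / N * g ^ 2 := by
    have : N / M ^ 2 * l ^ 4 + M ^ 2 / N * g ^ 2 - 2 * (l ^ 2 * g) =
        (N * l ^ 2 - M ^ 2 * g) ^ 2 / (N * M ^ 2) := by field_simp; ring
    have h7 : 0 ≤ (N * l ^ 2 - M ^ 2 * g) ^ 2 / (N * M ^ 2) := by positivity
    linarith
  have h8 := mul_le_mul_of_nonneg_left p4 (show 0 ≤ N / M ^ 2 by positivity)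
  have h9 : N / M ^ 2 * (M ^ 4 * (1 + φ)) = N * M ^ 2 * (1 + φ) := by field_simp
  have h10 := mul_le_mul_of_nonneg_left h5 (show 0 ≤ M ^ 2 / N by positivity)
  have h11 := mul_le_mul_of_nonneg_left p3 (show 0 ≤ 2 * P * N by positivity)
  have h12 : 4 * M ^ 2 / N * I = 4 * (M ^ 2 / N * I) := by ring
  nlinarith

/-- The variance line. -/
theorem var_line (hn : 1 ≤ n) (hP : PI n P) (P0 : 0 ≤ P) (h : Iso μ K R) {q : ℕ} (hq : 4 ≤ q)
    {M T : ℝ} (M0 : 0 < M) (T0 : 0 < T)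
    (hM : ∀ t, 0 ≤ t → t ≤ T → EX μ (√t) (fun p => trace (covM p ^ q)) ≤ M ^ q) :
    PV μ (4 / T + T * (4 * P * M ^ 3 + 5600008 * M ^ 2)) := by
  rw [h.pv_iff]
  intro H hH
  have hR := h.bd
  rcases (show 0 ≤ ∑ i, ∑ j, H i j ^ 2 by positivity).eq_or_lt with h0 | N0
  · have h1 := h.pv_iff.1 (hP μ K R h) H hH
    rw [← h0] at h1 ⊢
    simpa using h1
  obtain ⟨N, hN⟩ : ∃ N, ∑ i, ∑ j, H i j ^ 2 = N := ⟨_, rfl⟩
  rw [hN] at N0 ⊢
  have cf := continuous_qf H 0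
  obtain ⟨B, hB⟩ := (isCompact_closedBall (0 : E n) R).exists_bound_of_continuousOn cf.continuousOn
  obtain ⟨C, C0, hC⟩ := step_S1 n R B
  have kt : ∀ t θ, Ker (tilt μ t θ) (qf H 0) B R := fun t θ =>
    ⟨cf.measurable, (hR.tilt t θ).mono fun x hx => hB x (by simpa using hx), hR.tilt t θ⟩
  have r1 := (reg_int hR cf).pow 2
  have r2 := reg_trace hR q
  have r3 := reg_int hR (f := fun x => (‖mv H x‖ ^ 2) ^ 2) (by fun_prop)
  have r4 := reg_int hR (f := fun x => qf H 0 x ^ 2) (by fun_prop)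
  have r5 := reg_int hR (f := fun x => ‖mv H x‖ ^ 2) (by fun_prop)
  set α := 2 * P * N * M ^ 3 + 4 * N * M ^ 2 with hα
  have α0 : 0 ≤ α := by positivity
  have rA := (reg_const (μ := μ) α).add (r2.const_mul (α / M ^ q))
  have h1 := flow_add hR r1 (rA.add (r3.const_mul (4 * M ^ 2 / N))) (C := C)
    (D := 2 * α + 4 * M ^ 2 / N * (1400000 * N ^ 2)) T0.le
    (fun t θ s t0 s0 s1 => by
      have := hR.tilt_prob t θ
      have a1 := hC (tilt μ t θ) (qf H 0) (√s) (kt t θ) (Real.sqrt_nonneg s)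
        (Real.sqrt_le_one.2 s1)
      have a2 := (hP.tilt h t0 θ).drift hn P0 (hR.tilt t θ) hH (kt t θ) M0 N0 hN hq
      rw [pow_succ (√s) 2, Real.sq_sqrt s0.le] at a1
      linarith [mul_le_mul_of_nonneg_left a2 s0.le])
    (fun t t0 t1 => by
      rw [EX_add (rA.ei hR _) ((r3.const_mul _).ei hR _),
        EX_add ((reg_const α).ei hR _) ((r2.const_mul _).ei hR _), EX_const hR, EX_const_mul,
        EX_const_mul, EX_int hR _ (by fun_prop)]
      have a1 := mul_le_mul_of_nonneg_left (hM t t0 t1) (show 0 ≤ α / M ^ q by positivity)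
      rw [div_mul_cancel₀ _ (by positivity)] at a1
      have a2 := mul_le_mul_of_nonneg_left (h.mv_four H) (show 0 ≤ 4 * M ^ 2 / N by positivity)
      rw [hN] at a2
      linarith)
  have h2 := EX_mono hR (s := √T) ((r4.sub r1).ei hR _) ((r5.const_mul (4 / T)).ei hR _)
    fun θ => by
      rw [Real.sq_sqrt T0.le]
      have := hR.tilt_prob T θ
      have a1 := poin T0 (h.lc.slc_tilt hR T θ) (hR.tilt T θ) cf
        (G := fun x => (2 : ℝ) • mv H x) (by fun_prop) fun x y => by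
          have e := mv_inner H x y
          rw [hH] at e
          simp only [qf_zero, map_smul, map_add, inner_smul_left, inner_add_left, inner_sub_right,
            e, conj_trivial]
          ring
      simp only [norm_smul, mul_pow, integral_const_mul] at a1
      refine a1.trans (le_of_eq ?_)
      norm_num
      ring
  rw [EX_sub (r4.ei hR _) (r1.ei hR _), EX_const_mul, EX_int hR _ (by fun_prop),
    EX_int hR _ (by fun_prop), h.mv_two, hN] at h2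
  have e : T * (2 * α + 4 * M ^ 2 / N * (1400000 * N ^ 2)) =
      T * (4 * P * M ^ 3 + 5600008 * M ^ 2) * N := by
    rw [hα]
    field_simp
    ring
  linarith

/-- The moment bound along the flow, as a hypothesis on `n`, `q`, `M`. -/
def PH (n q : ℕ) (M : ℝ) : Prop :=
  ∀ P : ℝ, 1 ≤ P → PI n P → ∀ (μ : Measure (E n)) [IsProbabilityMeasure μ] (K : Set (E n))
    (R : ℝ), Iso μ K R → ∀ t, 0 ≤ t → t ≤ 8 / P → EX μ (√t) (fun p => trace (covM p ^ q)) ≤ M ^ q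

/-- The bootstrap. -/
theorem boot (hn : 1 ≤ n) {q : ℕ} (hq : 4 ≤ q) {M : ℝ} (M1 : 1 ≤ M) (h : PH n q M) :
    PI n (10 ^ 8 * M ^ 3) := by
  obtain ⟨P, P1, hP, hb⟩ := exists_best n
  have P0 : 0 < P := by linarith
  have M0 : 0 < M := by linarith
  have h1 : PI n (4 / (8 / P) + 8 / P * (4 * P * M ^ 3 + 5600008 * M ^ 2)) := fun μ _ K R iso =>
    var_line hn hP P0.le iso hq M0 (by positivity) (h P P1 hP μ K R iso)
  have m3 : 1 ≤ M ^ 3 := one_le_pow₀ M1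
  have m2 : M ^ 2 ≤ M ^ 3 := pow_le_pow_right₀ M1 (by norm_num)
  have h2 : 4 / (8 / P) + 8 / P * (4 * P * M ^ 3 + 5600008 * M ^ 2) ≤
      P / 2 + 5 * 10 ^ 7 * M ^ 3 := by
    have e : 4 / (8 / P) + 8 / P * (4 * P * M ^ 3 + 5600008 * M ^ 2) =
        P / 2 + 32 * M ^ 3 + 44800064 * (M ^ 2 / P) := by field_simp; ring
    have : M ^ 2 / P ≤ M ^ 2 := div_le_self (sq_nonneg M) P1
    linarith
  have h3 := hb _ (by linarith) (h1.mono h2)
  exact hP.mono (by linarith)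

end Pool.Agent.Lib.MP_fedf83_gt.P
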