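import Pool.Agent.Lib.MP_fedf83_gt.LTilt
import Pool.Agent.Lib.MP_fedf83_gt.LTrace
import Pool.Agent.Lib.MP_fedf83_gt.LFinal

/-! The variance constant for quadratic forms: invariant form, finiteness, best value. -/

namespace Pool.Agent.Lib.MP_fedf83_gt.P

open MeasureTheory Set Matrix Pool.Agent.Lib.MP_fedf83_gt.B
open scoped ENNReal RealInnerProductSpace

set_option linter.unusedSectionVars false

variable {n : ℕ}

/-- The quadratic form of a matrix centred at `a`. -/
def qf (H : Matrix (Fin n) (Fin n) ℝ) (a x : E n) : ℝ :=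
  ∑ i, ∑ j, H i j * ((x - a) i * (x - a) j)

/-- The variance bound for centred quadratic forms under one measure. -/
def PV (μ : Measure (E n)) (P : ℝ) : Prop :=
  ∀ H : Matrix (Fin n) (Fin n) ℝ, Hᵀ = H →
    ∫ x, qf H (mean μ) x ^ 2 ∂μ - (∫ x, qf H (mean μ) x ∂μ) ^ 2 ≤
      P * trace (H * covM μ * H * covM μ)

/-- The variance bound for all isotropic measures. -/
def PI (n : ℕ) (P : ℝ) : Prop :=
  ∀ (μ : Measure (E n)) [IsProbabilityMeasure μ] (K : Set (E n)) (R : ℝ), Iso μ K R → PV μ P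

@[fun_prop]
theorem continuous_qf (H : Matrix (Fin n) (Fin n) ℝ) (a : E n) : Continuous (qf H a) := by
  unfold qf
  fun_prop

theorem qf_eq (H : Matrix (Fin n) (Fin n) ℝ) (a x : E n) :
    qf H a x = (x - a).ofLp ⬝ᵥ (H *ᵥ (x - a).ofLp) := by
  simp only [qf, dotProduct, mulVec, Finset.mul_sum]
  exact Finset.sum_congr rfl fun i _ => Finset.sum_congr rfl fun j _ => by ring

/-- A matrix as a continuous linear map. -/
noncomputable def mv (G : Matrix (Fin n) (Fin n) ℝ) : E n →L[ℝ] E n :=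
  LinearMap.toContinuousLinearMap
    { toFun := fun x => WithLp.toLp 2 (G *ᵥ x.ofLp)
      map_add' := fun x y => by simp [mulVec_add]
      map_smul' := fun c x => by simp [mulVec_smul] }

theorem mv_ofLp (G : Matrix (Fin n) (Fin n) ℝ) (x : E n) : (mv G x).ofLp = G *ᵥ x.ofLp := rfl

theorem inner_dot (x y : E n) : ⟪x, y⟫ = x.ofLp ⬝ᵥ y.ofLp := inner_sum x y

theorem mv_inner (G : Matrix (Fin n) (Fin n) ℝ) (x a : E n) : ⟪mv G x, a⟫ = ⟪mv Gᵀ a, x⟫ := by
  rw [inner_dot, inner_dot, mv_ofLp, mv_ofLp, dotProduct_comm, dotProduct_mulVec,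
    mulVec_transpose]

theorem trace_sq {H : Matrix (Fin n) (Fin n) ℝ} (hH : Hᵀ = H) :
    trace (H * H) = ∑ i, ∑ j, H i j ^ 2 := by
  simp only [Matrix.trace, diag_apply, mul_apply, sq]
  refine Finset.sum_congr rfl fun i _ => Finset.sum_congr rfl fun j _ => ?_
  rw [show H j i = H i j by conv_lhs => rw [← hH, transpose_apply]]

variable {μ : Measure (E n)} [IsProbabilityMeasure μ] {K : Set (E n)} {R P : ℝ}

theorem Bd.cov_inner (hR : Bd μ R) (u v : E n) :
    u.ofLp ⬝ᵥ (covM μ *ᵥ v.ofLp) = ∫ x, ⟪u, x - mean μ⟫ * ⟪v, x - mean μ⟫ ∂μ := by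
  simp only [inner_sum]
  rw [← hR.cov_form]
  simp only [dotProduct, mulVec, Finset.mul_sum, mul_assoc]

theorem Iso.mean_zero (h : Iso μ K R) : mean μ = 0 := by
  refine ext_inner_left ℝ fun v => ?_
  rw [h.bd.mean_inner, inner_zero_right]
  simpa only [real_inner_comm] using h.m1 v

theorem Iso.covM_one (h : Iso μ K R) : covM μ = 1 := by
  have pol : ∀ u v : E n, ∫ x, ⟪u, x⟫ * ⟪v, x⟫ ∂μ = ⟪u, v⟫ := fun u v => by
    have h1 := h.m2 (u + v)
    have e : ∀ x : E n, ⟪x, u + v⟫ ^ 2 = ⟪x, u⟫ ^ 2 + ⟪x, v⟫ ^ 2 + 2 * (⟪u, x⟫ * ⟪v, x⟫) :=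
      fun x => by rw [inner_add_right, real_inner_comm x u, real_inner_comm x v]; ring
    simp only [e] at h1
    rw [integral_add (h.bd.int (by fun_prop)) (h.bd.int (by fun_prop)),
      integral_add (h.bd.int (by fun_prop)) (h.bd.int (by fun_prop)), integral_const_mul,
      h.m2, h.m2, norm_add_sq_real] at h1
    linarith
  ext i j
  have := pol (EuclideanSpace.single i 1) (EuclideanSpace.single j 1)
  simp only [EuclideanSpace.inner_single_left, map_one, one_mul] at this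
  simp only [covM, h.mean_zero, sub_zero, this, one_apply, EuclideanSpace.single_apply]

theorem LC.map_aff {μ : Measure (E n)} (hl : LC μ) (T : E n →L[ℝ] E n) (m : E n) :
    LC (μ.map fun x => T (x - m)) := by
  intro f g h mf mg mh f0 g0 h0 i1 i2 i3 H
  have mT : Measurable fun x : E n => T (x - m) := Continuous.measurable (by fun_prop)
  rw [integral_map mT.aemeasurable mf.aestronglyMeasurable,
    integral_map mT.aemeasurable mg.aestronglyMeasurable,
    integral_map mT.aemeasurable mh.aestronglyMeasurable]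
  rw [integrable_map_measure mf.aestronglyMeasurable mT.aemeasurable] at i1
  rw [integrable_map_measure mg.aestronglyMeasurable mT.aemeasurable] at i2
  rw [integrable_map_measure mh.aestronglyMeasurable mT.aemeasurable] at i3
  exact hl _ _ _ (mf.comp mT) (mg.comp mT) (mh.comp mT) (fun x => f0 _) (fun x => g0 _)
    (fun x => h0 _) i1 i2 i3 (fun x y => by
      have e : (1 / 2 : ℝ) • (x + y) - m = (1 / 2 : ℝ) • ((x - m) + (y - m)) := by module
      simpa only [Function.comp, e, map_smul, map_add] using H (T (x - m)) (T (y - m)))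

theorem exists_root {A : Matrix (Fin n) (Fin n) ℝ} (hA : A.PosDef) :
    ∃ S G : Matrix (Fin n) (Fin n) ℝ, S * G = 1 ∧ G * S = 1 ∧ A = S * Sᵀ := by
  obtain ⟨U, d, hd, h1, h2, e⟩ : ∃ (U : Matrix (Fin n) (Fin n) ℝ) (d : Fin n → ℝ),
      (∀ i, 0 < d i) ∧ Uᵀ * U = 1 ∧ U * Uᵀ = 1 ∧ A = U * diagonal d * Uᵀ := by
    refine ⟨hA.1.eigenvectorUnitary, hA.1.eigenvalues, hA.eigenvalues_pos, ?_, ?_, ?_⟩
    · simpa [star_eq_conjTranspose] using Unitary.coe_star_mul_self hA.1.eigenvectorUnitary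
    · simpa [star_eq_conjTranspose] using Unitary.coe_mul_star_self hA.1.eigenvectorUnitary
    · simpa [star_eq_conjTranspose] using hA.1.spectral_theorem
  have s0 : ∀ i, √(d i) ≠ 0 := fun i => (Real.sqrt_pos.2 (hd i)).ne'
  have e1 : U * diagonal (fun i => √(d i)) * (diagonal (fun i => (√(d i))⁻¹) * Uᵀ) = 1 := by
    rw [Matrix.mul_assoc, ← Matrix.mul_assoc (diagonal _), diagonal_mul_diagonal]
    simp only [mul_inv_cancel₀ (s0 _), diagonal_one, Matrix.one_mul, h2]
  refine ⟨_, _, e1, mul_eq_one_comm.1 e1, ?_⟩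
  rw [transpose_mul, diagonal_transpose, Matrix.mul_assoc, ← Matrix.mul_assoc (diagonal _),
    diagonal_mul_diagonal]
  simp only [Real.mul_self_sqrt (hd _).le]
  rw [e, Matrix.mul_assoc]

/-- Affine invariance: the bound in isotropic position gives it for every nondegenerate measure. -/
theorem PI.pv (hP : PI n P) (hl : LC μ) (hR : Bd μ R) (hA : (covM μ).PosDef) : PV μ P := by
  obtain ⟨S, G, h1, h2, e⟩ := exists_root hA
  have cT : Continuous fun x : E n => mv G (x - mean μ) := by fun_prop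
  have mT := cT.measurable
  have : IsProbabilityMeasure (μ.map fun x => mv G (x - mean μ)) :=
    Measure.isProbabilityMeasure_map mT.aemeasurable
  have iso : Iso (μ.map fun x => mv G (x - mean μ)) univ (‖mv G‖ * (R + R)) :=
    { lc := hl.map_aff _ _
      bd := (ae_map_iff mT.aemeasurable
        (isClosed_le continuous_norm continuous_const).measurableSet).2 (hR.mono fun x hx =>
          ((mv G).le_opNorm _).trans (mul_le_mul_of_nonneg_left
            ((norm_sub_le _ _).trans (add_le_add hx hR.norm_mean)) (norm_nonneg _)))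
      mem := ae_of_all _ fun x => mem_univ x
      cl := isClosed_univ
      cv := convex_univ
      m1 := fun a => by
        rw [integral_map mT.aemeasurable (Continuous.aestronglyMeasurable (by fun_prop))]
        simp only [mv_inner G, hR.centred]
      m2 := fun a => by
        rw [integral_map mT.aemeasurable (Continuous.aestronglyMeasurable (by fun_prop))]
        simp only [mv_inner G, sq]
        rw [← hR.cov_inner, mv_ofLp, e, mulVec_mulVec, mulVec_transpose, ← dotProduct_mulVec,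
          mulVec_mulVec, Matrix.mul_assoc, ← transpose_mul, ← Matrix.mul_assoc, h2,
          transpose_one, Matrix.one_mul, one_mulVec, ← inner_dot, real_inner_self_eq_norm_mul_norm] }
  intro H hH
  have h3 := hP _ _ _ iso (Sᵀ * H * S) (by simp [transpose_mul, hH, Matrix.mul_assoc])
  rw [iso.mean_zero, iso.covM_one,
    integral_map mT.aemeasurable (Continuous.aestronglyMeasurable (by fun_prop)),
    integral_map mT.aemeasurable (Continuous.aestronglyMeasurable (by fun_prop))] at h3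
  have e1 : ∀ x : E n, qf (Sᵀ * H * S) 0 (mv G (x - mean μ)) = qf H (mean μ) x := fun x => by
    rw [qf_eq, qf_eq, sub_zero, mv_ofLp, mulVec_mulVec, Matrix.mul_assoc, h1, Matrix.mul_one,
      ← mulVec_mulVec, dotProduct_mulVec, vecMul_transpose, mulVec_mulVec, h1, one_mulVec]
  simp only [e1] at h3
  refine h3.trans (le_of_eq ?_)
  rw [e]
  simp only [Matrix.mul_one, Matrix.mul_assoc]
  rw [trace_mul_comm]
  simp only [Matrix.mul_assoc]

theorem Bd.posDef_iff (hR : Bd μ R) :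
    (covM μ).PosDef ↔ ∀ v : E n, v ≠ 0 → ∀ c : ℝ, ¬ ∀ᵐ x ∂μ, ⟪v, x⟫ = c := by
  constructor
  · intro hA v hv c hc
    have h1 := hA.dotProduct_mulVec_pos (x := v.ofLp) (by simpa using hv)
    have h2 : ⟪v, mean μ⟫ = c := by
      rw [hR.mean_inner, integral_congr_ae hc]
      simp
    have h3 : ∫ x, ⟪v, x - mean μ⟫ * ⟪v, x - mean μ⟫ ∂μ = 0 := by
      refine integral_eq_zero_of_ae ?_
      filter_upwards [hc] with x hx
      simp [inner_sub_right, hx, h2]
    rw [star_trivial, hR.cov_inner, h3] at h1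
    exact lt_irrefl _ h1
  · intro h
    refine PosDef.of_dotProduct_mulVec_pos hR.covM_psd.1 fun v hv => ?_
    have h1 := hR.cov_inner (WithLp.toLp 2 v) (WithLp.toLp 2 v)
    rw [star_trivial, h1]
    refine lt_of_le_of_ne (integral_nonneg fun x => mul_self_nonneg _) fun h0 => ?_
    have c1 : Continuous fun x : E n => ⟪WithLp.toLp 2 v, x - mean μ⟫ :=
      continuous_const.inner (by fun_prop)
    have h2 := (integral_eq_zero_iff_of_nonneg (fun x => mul_self_nonneg _)
      (hR.int (c1.mul c1))).1 h0.symm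
    refine h (WithLp.toLp 2 v) (by simpa using hv) ⟪WithLp.toLp 2 v, mean μ⟫ ?_
    filter_upwards [h2] with x hx
    have := mul_self_eq_zero.1 hx
    rwa [inner_sub_right, sub_eq_zero] at this

theorem Bd.posDef_tilt (hR : Bd μ R) (hA : (covM μ).PosDef) (t : ℝ) (θ : E n) :
    (covM (Pool.Agent.Lib.MP_fedf83_gt.P.tilt μ t θ)).PosDef := by
  have := hR.tilt_prob t θ
  rw [(hR.tilt t θ).posDef_iff]
  exact fun v hv c hc => hR.posDef_iff.1 hA v hv c ((hR.ac_tilt t θ).ae_le hc)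

/-- Every tilt of an isotropic measure satisfies the invariant bound. -/
theorem PI.tilt (hP : PI n P) (h : Iso μ K R) {t : ℝ} (t0 : 0 ≤ t) (θ : E n) :
    PV (tilt μ t θ) P := by
  have := h.bd.tilt_prob t θ
  exact hP.pv (h.lc.tilt h.bd t0 θ) (h.bd.tilt t θ)
    (h.bd.posDef_tilt (by rw [h.covM_one]; exact PosDef.one) t θ)

theorem Iso.four' (h : Iso μ K R) (u : E n) : ∫ x, ⟪x, u⟫ ^ 4 ∂μ ≤ 1400000 * ‖u‖ ^ 4 := by
  rcases eq_or_ne u 0 with rfl | u0
  · simp
  have u1 : 0 < ‖u‖ := norm_pos_iff.2 u0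
  have h1 := h.four (norm_smul_inv_norm (𝕜 := ℝ) u0)
  simp only [inner_smul_right, mul_pow, RCLike.ofReal_real_eq_id, id] at h1
  rw [integral_const_mul, inv_pow, inv_mul_le_iff₀ (by positivity)] at h1
  linarith

/-- Fourth moment of the length of a linear image. -/
theorem Iso.four_sum (h : Iso μ K R) {ι : Type} [Fintype ι] (u : ι → E n) :
    ∫ x, (∑ i, ⟪x, u i⟫ ^ 2) ^ 2 ∂μ ≤ 1400000 * (∑ i, ‖u i‖ ^ 2) ^ 2 := by
  have pt : ∀ x : E n, (∑ i, ⟪x, u i⟫ ^ 2) ^ 2 ≤
      (∑ i, ‖u i‖ ^ 2) * ∑ i, (‖u i‖ ^ 2)⁻¹ * ⟪x, u i⟫ ^ 4 := fun x => by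
    refine Finset.sum_sq_le_sum_mul_sum_of_sq_le_mul _ (fun i _ => sq_nonneg _)
      (fun i _ => by positivity) fun i _ => ?_
    rcases eq_or_ne (u i) 0 with h0 | h0
    · simp [h0]
    · have : 0 < ‖u i‖ := norm_pos_iff.2 h0
      refine le_of_eq ?_
      field_simp
  refine (integral_mono (h.bd.int (by fun_prop)) (h.bd.int (by fun_prop)) pt).trans ?_
  rw [integral_const_mul, integral_finsetSum _ fun i _ => h.bd.int (by fun_prop), sq (∑ i, _),
    mul_left_comm, Finset.mul_sum _ _ (1400000 : ℝ)]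
  refine mul_le_mul_of_nonneg_left (Finset.sum_le_sum fun i _ => ?_) (by positivity)
  rw [integral_const_mul]
  rcases eq_or_ne (u i) 0 with h0 | h0
  · simp [h0]
  · have : 0 < ‖u i‖ := norm_pos_iff.2 h0
    rw [inv_mul_le_iff₀ (by positivity)]
    exact (h.four' _).trans (le_of_eq (by ring))

theorem Iso.pv_iff (h : Iso μ K R) : PV μ P ↔ ∀ H : Matrix (Fin n) (Fin n) ℝ, Hᵀ = H →
    ∫ x, qf H 0 x ^ 2 ∂μ - (∫ x, qf H 0 x ∂μ) ^ 2 ≤ P * ∑ i, ∑ j, H i j ^ 2 := by
  unfold PV
  rw [h.mean_zero, h.covM_one]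
  refine forall_congr' fun H => forall_congr' fun hH => ?_
  rw [Matrix.mul_one, Matrix.mul_one, trace_sq hH]

/-- The crude finite bound. -/
theorem pi_crude (n : ℕ) : PI n (1400000 * (n : ℝ) ^ 2) := by
  intro μ _ K R h
  rw [h.pv_iff]
  intro H hH
  have pt : ∀ x : E n, qf H 0 x ^ 2 ≤
      (∑ i, ∑ j, H i j ^ 2) * (∑ i, ⟪x, EuclideanSpace.single i (1 : ℝ)⟫ ^ 2) ^ 2 := fun x => by
    have := Finset.sum_mul_sq_le_sq_mul_sq Finset.univ (fun p : Fin n × Fin n => H p.1 p.2)
      (fun p => x p.1 * x p.2)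
    simp only [Fintype.sum_prod_type] at this
    simp only [qf, sub_zero, EuclideanSpace.inner_single_right, one_mul, conj_trivial]
    refine this.trans (le_of_eq ?_)
    congr 1
    rw [sq (∑ i, x i ^ 2), Finset.sum_mul_sum]
    simp only [mul_pow]
  have h1 := integral_mono (h.bd.int (by fun_prop)) (h.bd.int (by fun_prop)) pt
  rw [integral_const_mul] at h1
  have h2 := h.four_sum fun i : Fin n => EuclideanSpace.single i (1 : ℝ)
  have h3 := mul_le_mul_of_nonneg_left h2 (show 0 ≤ ∑ i, ∑ j, H i j ^ 2 by positivity)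
  simp only [EuclideanSpace.norm_single, norm_one, one_pow, Finset.sum_const, Finset.card_univ,
    Fintype.card_fin, nsmul_eq_mul, mul_one] at h3
  nlinarith [sq_nonneg (∫ x, qf H 0 x ∂μ)]

theorem PI.mono {P Q : ℝ} (h : PI n P) (hPQ : P ≤ Q) : PI n Q := by
  intro μ _ K R iso
  have := h μ K R iso
  rw [iso.pv_iff] at this ⊢
  exact fun H hH => (this H hH).trans (mul_le_mul_of_nonneg_right hPQ (by positivity))

/-- The best constant that is at least one. -/
theorem exists_best (n : ℕ) : ∃ P : ℝ, 1 ≤ P ∧ PI n P ∧ ∀ Q, 1 ≤ Q → PI n Q → P ≤ Q := by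
  have ne : ({Q | 1 ≤ Q ∧ PI n Q} : Set ℝ).Nonempty :=
    ⟨max 1 _, le_max_left _ _, (pi_crude n).mono (le_max_right _ _)⟩
  have bd : BddBelow ({Q | 1 ≤ Q ∧ PI n Q} : Set ℝ) := ⟨1, fun Q hQ => hQ.1⟩
  refine ⟨sInf {Q | 1 ≤ Q ∧ PI n Q}, le_csInf ne fun Q hQ => hQ.1, ?_,
    fun Q h1 h2 => csInf_le bd ⟨h1, h2⟩⟩
  intro μ _ K R iso
  rw [iso.pv_iff]
  intro H hH
  have h1 : ∀ Q ∈ ({Q | 1 ≤ Q ∧ PI n Q} : Set ℝ),
      ∫ x, qf H 0 x ^ 2 ∂μ - (∫ x, qf H 0 x ∂μ) ^ 2 ≤ Q * ∑ i, ∑ j, H i j ^ 2 :=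
    fun Q hQ => iso.pv_iff.1 (hQ.2 μ K R iso) H hH
  rcases (show 0 ≤ ∑ i, ∑ j, H i j ^ 2 by positivity).eq_or_lt with h0 | h0
  · obtain ⟨Q, hQ⟩ := ne
    have := h1 Q hQ
    rw [← h0] at this ⊢
    simpa using this
  · rw [← div_le_iff₀ h0]
    exact le_csInf ne fun Q hQ => (div_le_iff₀ h0).2 (h1 Q hQ)

theorem PI.hp (h : PI n P) : HP n P := by
  intro μ _ K R iso lam
  have := iso.pv_iff.1 (h μ K R iso) (diagonal lam) (diagonal_transpose _)
  simpa [qf, diagonal_apply, sq] using this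

end Pool.Agent.Lib.MP_fedf83_gt.P
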