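import Pool.Agent.Lib.MP_fedf83_gt.LStep
import Pool.Agent.Lib.MP_fedf83_gt.LChen
import Pool.Agent.Lib.MP_fedf83_gt.LMarkov
import Pool.Agent.Lib.MP_fedf83_gt.LInv

/-! Second moments of the posterior mean along the flow. -/

namespace Pool.Agent.Lib.MP_fedf83_gt.P

open MeasureTheory Set Pool.Agent.Lib.MP_fedf83_gt.B Matrix
open scoped ENNReal RealInnerProductSpace

set_option linter.unusedSectionVars false

variable {n : ℕ} {μ : Measure (E n)} [IsProbabilityMeasure μ] {K : Set (E n)} {R : ℝ}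

/-- A majorant of the posterior covariance with a fourth moment bound up to time `T`. -/
structure Lam (μ : Measure (E n)) (Λ : Measure (E n) → ℝ) (T M : ℝ) : Prop where
  reg : Reg μ Λ
  one : ∀ t θ, 1 ≤ Λ (tilt μ t θ)
  cov : ∀ t θ (v : E n), ∫ x, ⟪v, x - mean (tilt μ t θ)⟫ ^ 2 ∂tilt μ t θ ≤ Λ (tilt μ t θ) * ‖v‖ ^ 2
  mom : ∀ t, 0 ≤ t → t ≤ T → EX μ (√t) (fun p => Λ p ^ 4) ≤ M

variable {Λ : Measure (E n) → ℝ} {T M : ℝ}

theorem Lam.pow_le (h : Lam μ Λ T M) (hR : Bd μ R) {k : ℕ} (hk : k ≤ 4) {t : ℝ} (t0 : 0 ≤ t)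
    (tT : t ≤ T) : EX μ (√t) (fun p => Λ p ^ k) ≤ M :=
  (EX_mono hR ((h.reg.pow k).ei hR _) ((h.reg.pow 4).ei hR _)
    fun θ => pow_le_pow_right₀ (h.one _ θ) hk).trans (h.mom t t0 tT)

theorem Lam.one_le (h : Lam μ Λ T M) (hR : Bd μ R) (T0 : 0 ≤ T) : 1 ≤ M := by
  have := h.pow_le hR (k := 0) (by norm_num) le_rfl T0
  simpa [EX_zero] using this

theorem sqrt_cube {h : ℝ} (h0 : 0 < h) : √h ^ 3 = h * √h := by
  rw [pow_succ, Real.sq_sqrt h0.le]

theorem Bd.ker_coord (hR : Bd μ R) (j : Fin n) : Ker μ (fun x => x j) R R :=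
  ⟨by fun_prop, hR.mono fun x hx => (PiLp.norm_apply_le x j).trans hx, hR⟩

theorem Bd.cv_coord (hR : Bd μ R) (j k : Fin n) : cv μ (fun x => x j) k = covM μ j k := by
  simp only [cv, PiLp.sub_apply, PiLp.smul_apply, smul_eq_mul]
  have := (hR.ker_coord j).inner_int (EuclideanSpace.single k 1)
  simp only [EuclideanSpace.inner_single_right, one_mul, conj_trivial] at this
  rw [this, hR.covM_eq, hR.mean_apply j]
  rfl

theorem Bd.cv_coord_sq (hR : Bd μ R) (j : Fin n) :
    ‖cv μ fun x => x j‖ ^ 2 = ∑ k, covM μ j k ^ 2 := by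
  simp only [EuclideanSpace.norm_sq_eq, hR.cv_coord, Real.norm_eq_abs, sq_abs]

/-- The flow bound for the squared posterior mean in a set of coordinates. -/
theorem mean_flow (h : Iso μ K R) (J : Finset (Fin n)) {T D : ℝ} (T0 : 0 ≤ T)
    (hD : ∀ t, 0 ≤ t → t ≤ T → EX μ (√t) (fun p => ∑ j ∈ J, ∑ k, covM p j k ^ 2) ≤ D) :
    EX μ (√T) (fun p => ∑ j ∈ J, mean p j ^ 2) ≤ T * D := by
  have hR := h.bd
  obtain ⟨C, -, hC⟩ := step_S1 n R R
  have := flow_add hR (reg_sum J fun j => (reg_mean hR j).pow 2)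
    (reg_sum J fun j => reg_sum Finset.univ fun k => (reg_cov hR j k).pow 2) (C := J.card * C) T0
    (fun t θ s _ s0 s1 => by
      have := hR.tilt_prob t θ
      have hp := hR.tilt t θ
      rw [EX_sum _ fun j => ((reg_mean hp j).pow 2).ei hp _, Finset.mul_sum, mul_assoc,
        ← nsmul_eq_mul, ← Finset.sum_const, ← Finset.sum_add_distrib, ← Finset.sum_add_distrib]
      refine Finset.sum_le_sum fun j _ => ?_
      have h1 := hC _ _ (√s) (hp.ker_coord j) (Real.sqrt_nonneg _) (Real.sqrt_le_one.2 s1)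
      rw [hp.cv_coord_sq, Real.sq_sqrt s0.le, sqrt_cube s0, ← hp.mean_apply] at h1
      refine le_of_eq_of_le ?_ h1
      unfold EX
      congr with g
      have := hp.tilt_prob (√s ^ 2) (√s • g)
      beta_reduce
      rw [(hp.tilt _ _).mean_apply]) hD
  simpa [h.mean_zero] using this

theorem Bd.row_le (hR : Bd μ R) {L : ℝ} (L0 : 0 ≤ L)
    (hL : ∀ v : E n, ∫ x, ⟪v, x - mean μ⟫ ^ 2 ∂μ ≤ L * ‖v‖ ^ 2) (j : Fin n) :
    ∑ k, covM μ j k ^ 2 ≤ L ^ 2 := by
  have h1 := (hR.ker_coord j).cv_sq_le L0 hL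
  have h2 := hL (EuclideanSpace.single j 1)
  have h3 := hR.covM_eq j j
  simp only [EuclideanSpace.inner_single_left, map_one, one_mul, PiLp.norm_single, norm_one,
    one_pow, mul_one] at h2
  rw [hR.cv_coord_sq, ← hR.mean_apply] at h1
  simp only [covM, ← sq] at h3
  rw [h3] at h2
  rw [sq L]
  exact h1.trans (mul_le_mul_of_nonneg_left h2 L0)

/-- First order bound: the input of the partner step. -/
theorem Lam.mean_sq (hΛ : Lam μ Λ T M) (h : Iso μ K R) (J : Finset (Fin n)) {t : ℝ} (t0 : 0 ≤ t)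
    (tT : t ≤ T) : EX μ (√t) (fun p => ∑ j ∈ J, mean p j ^ 2) ≤ t * (J.card * M) := by
  have hR := h.bd
  refine mean_flow h J t0 fun u u0 ut => ?_
  refine (EX_mono hR ((reg_sum J fun j => reg_sum Finset.univ fun k =>
    (reg_cov hR j k).pow 2).ei hR _) (((hΛ.reg.pow 2).const_mul J.card).ei hR _) fun θ => ?_).trans ?_
  · have := hR.tilt_prob (√u ^ 2) θ
    rw [← nsmul_eq_mul]
    exact Finset.sum_le_card_nsmul _ _ _ fun j _ =>
      (hR.tilt _ θ).row_le (zero_le_one.trans (hΛ.one _ θ)) (hΛ.cov _ θ) j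
  · rw [EX_const_mul]
    exact mul_le_mul_of_nonneg_left (hΛ.pow_le hR (by norm_num) u0 (ut.trans tT)) (Nat.cast_nonneg _)

/-- The third moment sum of order zero under an operator bound. -/
theorem QP.Sq_zero {p l : ℝ} (hp : QP p μ) (p0 : 0 ≤ p) (hR : Bd μ R) (l0 : 0 ≤ l)
    (hl : ∀ v : E n, ∫ x, ⟪v, x - mean μ⟫ ^ 2 ∂μ ≤ l * ‖v‖ ^ 2) : Sq μ 0 ≤ p * n * l ^ 3 := by
  obtain ⟨U, d, hd, h1, h2, hA⟩ := T.spectral hR.covM_psd
  rw [hR.Sq_eq h1 h2 hA]
  have dl : ∀ i, d i ≤ l := fun i => by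
    have a := hR.zc_two h1 hA i i
    have b := hl (WithLp.toLp 2 fun j => U j i)
    have c : ‖(WithLp.toLp 2 fun j => U j i : E n)‖ ^ 2 = 1 := by
      have := congrFun (congrFun h1 i) i
      simp only [mul_apply, transpose_apply, one_apply_eq, ← sq] at this
      simp only [EuclideanSpace.norm_sq_eq, Real.norm_eq_abs, sq_abs, this]
    rw [if_pos rfl] at a
    rw [c, mul_one] at b
    simp only [inner_sum, sq] at b
    exact a.symm.le.trans b
  have a1 : ∀ k, ∑ i, ∑ j, tz μ U k i j ^ 2 ≤ p * l ^ 2 * d k := fun k => by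
    have h := hR.third_sq h1 hA k
    have s : (Matrix.of (tz μ U k))ᵀ = Matrix.of (tz μ U k) := by
      ext i j
      exact tz_symm k j i
    have h3 := hp (U * Matrix.of (tz μ U k) * Uᵀ) (by simp [transpose_mul, s, Matrix.mul_assoc])
    simp only [← fz_quad] at h3
    have e : trace (U * Matrix.of (tz μ U k) * Uᵀ * covM μ * (U * Matrix.of (tz μ U k) * Uᵀ) *
        covM μ) = ∑ i, ∑ j, d i * d j * tz μ U k i j ^ 2 := by
      have := trace_four d d (Matrix.of (tz μ U k)) fun i j => tz_symm k j i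
      simp only [of_apply] at this
      rw [← this, hA]
      simp only [Matrix.mul_assoc, ← Matrix.mul_assoc Uᵀ U, h1, Matrix.one_mul]
      rw [trace_mul_comm]
      simp only [Matrix.mul_assoc, h1, Matrix.mul_one]
      rw [trace_mul_comm (diagonal d)]
      simp only [Matrix.mul_assoc]
    have h4 : ∑ i, ∑ j, d i * d j * tz μ U k i j ^ 2 ≤ l ^ 2 * ∑ i, ∑ j, tz μ U k i j ^ 2 := by
      simp only [Finset.mul_sum]
      refine Finset.sum_le_sum fun i _ => Finset.sum_le_sum fun j _ => ?_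
      refine mul_le_mul_of_nonneg_right ?_ (sq_nonneg _)
      rw [sq]
      exact mul_le_mul (dl i) (dl j) (hd j) l0
    rw [e] at h3
    have h5 := h.trans (mul_le_mul_of_nonneg_left (h3.trans (mul_le_mul_of_nonneg_left h4 p0)) (hd k))
    have D0 : 0 ≤ ∑ i, ∑ j, tz μ U k i j ^ 2 :=
      Finset.sum_nonneg fun i _ => Finset.sum_nonneg fun j _ => sq_nonneg _
    have dk := hd k
    generalize (∑ i, ∑ j, tz μ U k i j ^ 2) = D at *
    rcases D0.eq_or_lt with h0 | h0
    · rw [← h0]; positivity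
    · refine le_of_mul_le_mul_left ?_ h0
      nlinarith
  refine (Finset.sum_le_card_nsmul _ _ (p * l ^ 2 * l) fun k _ => ?_).trans (le_of_eq ?_)
  · rw [pow_zero, one_mul]
    exact (a1 k).trans (mul_le_mul_of_nonneg_left (dl k) (by positivity))
  · simp only [Finset.card_univ, Fintype.card_fin, nsmul_eq_mul]
    ring

theorem reg_third (hR : Bd μ R) (k i j : Fin n) : Reg μ fun p => thirdM p k i j := by
  have r1 := fun i => reg_mean hR i
  have r2 := fun i j : Fin n => reg_int hR (f := fun x => x i * x j) (by fun_prop)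
  refine ((((reg_int hR (f := fun x => x k * (x i * x j)) (by fun_prop)).sub
    ((r1 k).mul (r2 i j))).sub ((r1 i).mul (r2 k j))).sub ((r1 j).mul (r2 k i))).add
      (((r1 k).mul ((r1 i).mul (r1 j))).const_mul 2) |>.congr fun t θ => ?_
  have := hR.tilt_prob t θ
  have hp := hR.tilt t θ
  generalize tilt μ t θ = p at *
  have e : ∀ x : E n, (x - mean p) k * ((x - mean p) i * (x - mean p) j) =
      x k * (x i * x j) - mean p k * (x i * x j) - mean p i * (x k * x j) -
        mean p j * (x k * x i) + mean p i * mean p j * x k + mean p k * mean p j * x i +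
          mean p k * mean p i * x j - mean p k * (mean p i * mean p j) := fun x => by
    simp only [PiLp.sub_apply]
    ring
  simp only [thirdM, e]
  rw [integral_sub (hp.int (by fun_prop)) (integrable_const _),
    integral_add (hp.int (by fun_prop)) (hp.int (by fun_prop)),
    integral_add (hp.int (by fun_prop)) (hp.int (by fun_prop)),
    integral_add (hp.int (by fun_prop)) (hp.int (by fun_prop)),
    integral_sub (hp.int (by fun_prop)) (hp.int (by fun_prop)),
    integral_sub (hp.int (by fun_prop)) (hp.int (by fun_prop)),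
    integral_sub (hp.int (by fun_prop)) (hp.int (by fun_prop))]
  simp only [integral_const_mul, ← hp.mean_apply, integral_const, probReal_univ, smul_eq_mul,
    one_mul]
  ring

/-- The trace of the squared posterior covariance along the flow. -/
theorem Lam.trace_sq {P : ℝ} (hΛ : Lam μ Λ T M) (h : Iso μ K R) (hP : PI n P) (P0 : 0 ≤ P) {t : ℝ}
    (t0 : 0 ≤ t) (tT : t ≤ T) :
    EX μ (√t) (fun p => trace (covM p ^ 2)) ≤ n + t * (P * n * M) := by
  have hR := h.bd
  obtain ⟨C, -, hC⟩ := step_S2 n 2 R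
  have := flow_add hR (reg_trace hR 2) ((hΛ.reg.pow 3).const_mul (P * n)) (C := C) t0
    (D := P * n * M) (fun u θ s u0 s0 s1 => by
      have := hR.tilt_prob u θ
      have hp := hR.tilt u θ
      have h1 := hC _ (√s) hp (Real.sqrt_nonneg _) (Real.sqrt_le_one.2 s1)
      have h2 := QP.Sq_zero (p := P) (hP.tilt h u0 θ) P0 hp (zero_le_one.trans (hΛ.one u θ))
        (hΛ.cov u θ)
      rw [Real.sq_sqrt s0.le, sqrt_cube s0] at h1
      simp only [Nat.choose_self, Nat.cast_one, one_mul, Nat.sub_self] at h1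
      exact h1.trans (by
        have := mul_le_mul_of_nonneg_left h2 s0.le
        unfold Sq at this
        linarith))
    (fun u u0 ut => by
      rw [EX_const_mul]
      exact mul_le_mul_of_nonneg_left (hΛ.pow_le hR (by norm_num) u0 (ut.trans tT))
        (by positivity))
  simpa [h.covM_one] using this

/-- Second order bound: the input of the noise step. -/
theorem Lam.mean_sq_two {P : ℝ} (hΛ : Lam μ Λ T M) (h : Iso μ K R) (hP : PI n P) (P0 : 0 ≤ P)
    {t : ℝ} (t0 : 0 ≤ t) (tT : t ≤ T) :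
    EX μ (√t) (fun p => ‖mean p‖ ^ 2) ≤ t * n + t ^ 2 * n * (P * M) := by
  have M0 := zero_le_one.trans (hΛ.one_le h.bd (t0.trans tT))
  have := mean_flow h Finset.univ t0 (D := n + t * (P * n * M)) fun u u0 ut => by
    have h1 := hΛ.trace_sq h hP P0 u0 (ut.trans tT)
    have e : ∀ p : Measure (E n), trace (covM p ^ 2) = ∑ j, ∑ k, covM p j k ^ 2 := fun p => by
      rw [sq, Pool.Agent.Lib.MP_fedf83_gt.P.trace_sq (by ext i j; exact covM_symm p j i)]
    simp only [e] at h1
    have := mul_le_mul_of_nonneg_right ut (show 0 ≤ P * n * M by positivity)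
    linarith
  simp only [EuclideanSpace.norm_sq_eq, Real.norm_eq_abs, sq_abs]
  exact this.trans (le_of_eq (by ring))

end Pool.Agent.Lib.MP_fedf83_gt.P
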