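import Pool.Agent.Lib.MP_fedf83_gt.LLevels
import Pool.Agent.Lib.MP_fedf83_gt.LBoot
import Pool.Agent.Lib.MP_fedf83_gt.LMean

/-! The lower bound from the variance bound, the noise step and the partner step. -/

namespace Pool.Agent.Lib.MP_fedf83_gt.P

open MeasureTheory Set Filter Matrix Pool.Agent.Lib.MP_fedf83_gt.B
open scoped ENNReal RealInnerProductSpace

/-- The two inputs of the level argument, for all isotropic measures. -/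
def NP (n : ℕ) (Ψ : ℝ) : Prop :=
  ∀ (μ : Measure (E n)) [IsProbabilityMeasure μ] (K : Set (E n)) (R : ℝ), Iso μ K R →
    ∀ J : Finset (Fin n), J.Nonempty →
    (∀ T : ℝ, 0 < T → T ≤ 1 / Ψ → 1 / 2 ≤ (gam n).real
      {g | ∃ z ∈ K, ∑ i ∈ J, z i ^ 2 ≤ Ψ * J.card ∧ ‖√T • g - z‖ ^ 2 ≤ T ^ 2 * n * Ψ}) ∧
    Real.exp (-(Ψ * J.card)) ≤ μ.real
      {x | ∃ x0 ∈ K, ‖x - x0‖ ^ 2 ≤ Ψ * J.card ∧ (J.card : ℝ) / 256 ≤ ∑ i ∈ J, (x i - x0 i) ^ 2}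

theorem one_add_log_le {x δ : ℝ} (x1 : 1 ≤ x) (d0 : 0 < δ) :
    1 + Real.log x ≤ (1 + 1 / δ) * x ^ δ := by
  have h1 := Real.log_le_rpow_div (zero_le_one.trans x1) d0
  have h2 := Real.one_le_rpow x1 d0.le
  have : x ^ δ / δ = 1 / δ * x ^ δ := by ring
  nlinarith

theorem lower_of
    (hB : ∀ ε : ℝ, 0 < ε → ∃ C : ℝ, ∀ n : ℕ, 1 ≤ n → PI n (C * (n : ℝ) ^ ε))
    (hNP : ∀ ε : ℝ, 0 < ε → ∃ C : ℝ, 1 ≤ C ∧ ∀ n : ℕ, 1 ≤ n → NP n (C * (n : ℝ) ^ ε))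
    (ε : ℝ) (e0 : 0 < ε) : ∃ a : ℝ, 0 < a ∧ ∀ n : ℕ, 1 ≤ n →
      ENNReal.ofReal (a / (n : ℝ) ^ (3 / 4 + ε)) ≤ cst n (n - 1) := by
  obtain ⟨C0, C00, hl⟩ := levels
  have d0 : 0 < ε / 7 := by linarith
  obtain ⟨C1, h1⟩ := hB _ d0
  obtain ⟨C2, C21, h2⟩ := hNP _ d0
  set D : ℝ := 1 + 1 / (ε / 7) with hD
  have D1 : 1 ≤ D := by
    have : 0 < 1 / (ε / 7) := by positivity
    linarith
  set A : ℝ := max C1 1 with hA
  have A1 : 1 ≤ A := le_max_right _ _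
  refine ⟨1 / (2 ^ 11 * C0 * C2 ^ 3 * D ^ 3 * A), by positivity, fun n hn => ?_⟩
  have n1 : (1 : ℝ) ≤ n := by exact_mod_cast hn
  have n0 : (0 : ℝ) < n := by linarith
  set y : ℝ := (n : ℝ) ^ (ε / 7) with hy
  have y1 : 1 ≤ y := Real.one_le_rpow n1 d0.le
  have l0 := Real.log_nonneg n1
  have lg : 1 + Real.log n ≤ D * y := one_add_log_le n1 d0
  have Ψ1 : 1 ≤ C2 * y := one_le_mul_of_one_le_of_one_le C21 y1
  have hP : HP n (A * y) :=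
    ((h1 n hn).mono (mul_le_mul_of_nonneg_right (le_max_left _ _) (by linarith))).hp
  have hH : HD n (C0 * (C2 * y) ^ 3 * (1 + Real.log n) ^ 2) := fun μ _ K R iso J hJ =>
    hl n hn μ K R iso J hJ _ Ψ1 (h2 n hn μ K R iso J hJ).1 (h2 n hn μ K R iso J hJ).2
  refine le_trans (ENNReal.ofReal_le_ofReal ?_)
    (lfinal hn (by positivity) (by positivity) hP hH)
  have q1 : 1 ≤ A * y * (1 + Real.log n) :=
    one_le_mul_of_one_le_of_one_le (one_le_mul_of_one_le_of_one_le A1 y1) (by linarith)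
  have q2 : (A * y * (1 + Real.log n)) ^ (1 / 4 : ℝ) ≤ A * y * (D * y) :=
    (Real.rpow_le_self_of_one_le q1 (by norm_num)).trans
      (mul_le_mul_of_nonneg_left lg (by positivity))
  have q3 : (n : ℝ) ^ (3 / 4 + ε) = (n : ℝ) ^ (3 / 4 : ℝ) * y ^ 7 := by
    rw [Real.rpow_add n0, hy, ← Real.rpow_natCast, ← Real.rpow_mul n0.le]
    congr 2
    push_cast
    ring
  have q4 : (1 + Real.log n) ^ 2 ≤ (D * y) ^ 2 := pow_le_pow_left₀ (by linarith) lg 2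
  rw [div_div, q3]
  refine one_div_le_one_div_of_le (by positivity) ?_
  calc 2 ^ 11 * (C0 * (C2 * y) ^ 3 * (1 + Real.log n) ^ 2) *
        (A * y * (1 + Real.log n)) ^ (1 / 4 : ℝ) * (n : ℝ) ^ (3 / 4 : ℝ)
      ≤ 2 ^ 11 * (C0 * (C2 * y) ^ 3 * (D * y) ^ 2) * (A * y * (D * y)) *
        (n : ℝ) ^ (3 / 4 : ℝ) := by gcongr
    _ = _ := by ring

/-- A moment bound for the trace gives a majorant of the posterior covariance. -/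
def LamSt : Prop :=
  ∀ (n : ℕ) (μ : Measure (E n)) [IsProbabilityMeasure μ] (K : Set (E n)) (R : ℝ), Iso μ K R →
    ∀ (q : ℕ) (T M : ℝ), 4 ≤ q → 1 ≤ M →
    (∀ t, 0 ≤ t → t ≤ T → EX μ (√t) (fun p => trace (covM p ^ q)) ≤ M ^ q) →
    ∃ Λ, Lam μ Λ T (2 * M ^ 4)

/-- The noise step. -/
def NoiseSt : Prop :=
  ∀ (n : ℕ) (μ : Measure (E n)) [IsProbabilityMeasure μ] (K : Set (E n)) (R : ℝ), Iso μ K R →
    1 ≤ n → ∀ J : Finset (Fin n), J.Nonempty → ∀ T B Ψ : ℝ, 0 < T → 0 ≤ B →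
    EX μ (√T) (fun p => ‖mean p‖ ^ 2) ≤ T * n + T ^ 2 * n * B → 4 * B + 10 ≤ Ψ →
    1 / 2 ≤ (gam n).real
      {g | ∃ z ∈ K, ∑ i ∈ J, z i ^ 2 ≤ Ψ * J.card ∧ ‖√T • g - z‖ ^ 2 ≤ T ^ 2 * n * Ψ}

/-- The partner step. -/
def PartSt : Prop :=
  ∀ (n : ℕ) (μ : Measure (E n)) [IsProbabilityMeasure μ] (K : Set (E n)) (R : ℝ), Iso μ K R →
    ∀ J : Finset (Fin n), J.Nonempty → ∀ s Ψ : ℝ, 0 < s → s ≤ 1 → 400 ≤ Ψ * s ^ 2 →
    EX μ s (fun p => ∑ j ∈ J, mean p j ^ 2) ≤ J.card / 2 →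
    Real.exp (-(Ψ * J.card)) ≤ μ.real
      {x | ∃ y ∈ K, ‖x - y‖ ^ 2 ≤ Ψ * J.card ∧ (J.card : ℝ) / 256 ≤ ∑ j ∈ J, (x j - y j) ^ 2}

/-- The moment bound along the flow, for every small power of the dimension. -/
def PhaseSt : Prop :=
  ∀ ε : ℝ, 0 < ε → ∃ (q : ℕ) (C : ℝ), 4 ≤ q ∧ 1 ≤ C ∧ ∀ n : ℕ, 1 ≤ n → PH n q (C * (n : ℝ) ^ ε)

theorem np_of (hL : LamSt) (hN : NoiseSt) (hP : PartSt) {n q : ℕ} (hn : 1 ≤ n) (hq : 4 ≤ q)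
    {M : ℝ} (M1 : 1 ≤ M) (h : PH n q M) : NP n (4 * 10 ^ 10 * M ^ 7) := by
  intro μ _ K R iso J hJ
  have hPI := boot hn hq M1 h
  have m3 : 1 ≤ M ^ 3 := one_le_pow₀ M1
  have m4 : 1 ≤ M ^ 4 := one_le_pow₀ M1
  have m7 : 1 ≤ M ^ 7 := one_le_pow₀ M1
  have m37 : M ^ 3 ≤ M ^ 7 := pow_le_pow_right₀ M1 (by norm_num)
  have m47 : M ^ 4 ≤ M ^ 7 := pow_le_pow_right₀ M1 (by norm_num)
  have M0 : 0 < M := by linarith
  obtain ⟨Λ, hΛ⟩ := hL n μ K R iso q _ M hq M1 (h _ (by linarith) hPI μ K R iso)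
  have tle : 1 / (10 ^ 8 * M ^ 7) ≤ 8 / (10 ^ 8 * M ^ 3) := by
    rw [div_le_div_iff₀ (by positivity) (by positivity)]
    linarith
  refine ⟨fun T T0 T1 => ?_, ?_⟩
  · have T2 : T ≤ 8 / (10 ^ 8 * M ^ 3) :=
      (T1.trans (one_div_le_one_div_of_le (by positivity) (by linarith))).trans tle
    refine hN n μ K R iso hn J hJ T _ _ T0 (by positivity)
      (hΛ.mean_sq_two iso hPI (by positivity) T0.le T2) ?_
    have : 10 ^ 8 * M ^ 3 * (2 * M ^ 4) = 2 * 10 ^ 8 * M ^ 7 := by ring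
    rw [this]
    linarith
  · have t0 : (0 : ℝ) < 1 / (10 ^ 8 * M ^ 7) := by positivity
    have t1 : (1 : ℝ) / (10 ^ 8 * M ^ 7) ≤ 1 := by
      rw [div_le_one (by positivity)]
      linarith
    refine hP n μ K R iso J hJ (√(1 / (10 ^ 8 * M ^ 7))) _ (Real.sqrt_pos.2 t0)
      (Real.sqrt_le_one.2 t1) (le_of_eq ?_) ((hΛ.mean_sq iso J t0.le tle).trans ?_)
    · rw [Real.sq_sqrt t0.le]
      field_simp
      norm_num
    · have k0 : (0 : ℝ) ≤ J.card := Nat.cast_nonneg _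
      rw [one_div_mul_eq_div, div_le_div_iff₀ (by positivity) (by positivity)]
      nlinarith [mul_le_mul_of_nonneg_left m47 k0, mul_nonneg k0 (zero_le_one.trans m7)]

theorem lower (hPh : PhaseSt) (hL : LamSt) (hN : NoiseSt) (hP : PartSt) (ε : ℝ) (e0 : 0 < ε) :
    ∃ a : ℝ, 0 < a ∧ ∀ n : ℕ, 1 ≤ n →
      ENNReal.ofReal (a / (n : ℝ) ^ (3 / 4 + ε)) ≤ cst n (n - 1) := by
  have pw : ∀ (n m : ℕ) (δ : ℝ), 1 ≤ n → 0 < m → ((n : ℝ) ^ (δ / m)) ^ m = (n : ℝ) ^ δ :=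
    fun n m δ _ hm => by
      have m0 : (m : ℝ) ≠ 0 := by exact_mod_cast hm.ne'
      rw [← Real.rpow_natCast, ← Real.rpow_mul (Nat.cast_nonneg n), div_mul_cancel₀ _ m0]
  have one : ∀ (n : ℕ) (C δ : ℝ), 1 ≤ n → 1 ≤ C → 0 < δ → 1 ≤ C * (n : ℝ) ^ δ :=
    fun n C δ hn C1 d0 => one_le_mul_of_one_le_of_one_le C1
      (Real.one_le_rpow (by exact_mod_cast hn) d0.le)
  refine lower_of (fun δ d0 => ?_) (fun δ d0 => ?_) ε e0
  · obtain ⟨q, C, hq, C1, h⟩ := hPh (δ / (3 : ℕ)) (by positivity)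
    refine ⟨10 ^ 8 * C ^ 3, fun n hn => ?_⟩
    have := boot hn hq (one n C _ hn C1 (by positivity)) (h n hn)
    rwa [mul_pow, pw n 3 δ hn (by norm_num), ← mul_assoc] at this
  · obtain ⟨q, C, hq, C1, h⟩ := hPh (δ / (7 : ℕ)) (by positivity)
    have c7 : 1 ≤ C ^ 7 := one_le_pow₀ C1
    refine ⟨4 * 10 ^ 10 * C ^ 7, by linarith, fun n hn => ?_⟩
    have := np_of hL hN hP hn hq (one n C _ hn C1 (by positivity)) (h n hn)
    rwa [mul_pow, pw n 7 δ hn (by norm_num), ← mul_assoc] at this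

end Pool.Agent.Lib.MP_fedf83_gt.P
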