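import Pool.Agent.Lib.MP_fedf83_gt.PIso

/-! A polynomial bound for the Gaussian mean gauge of an isotropic body. -/

namespace Pool.Agent.Lib.MP_fedf83_gt.P

open MeasureTheory Set Pool.Agent.Lib.MP_fedf83_gt.B
open scoped ENNReal RealInnerProductSpace

set_option linter.unusedSectionVars false

variable {n : ℕ} {μ : Measure (E n)} [IsProbabilityMeasure μ] {K : Set (E n)} {R : ℝ}

/-- Coordinate vectors. -/
noncomputable def ej (j : Fin n) : E n := EuclideanSpace.single j 1

theorem inner_ej (x : E n) (j : Fin n) : ⟪x, ej j⟫ = x j := by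
  simp [ej, EuclideanSpace.inner_single_right]

/-- The error of the linear approximation of the tilted barycentre, coordinate `j`. -/
noncomputable def er (hR : Bd μ R) (r s : ℝ) (j : Fin n) (g : E n) : ℝ :=
  AA μ (fun x => chi r x * ⟪x, ej j⟫) s g - ∫ x, chi r x * ⟪x, ej j⟫ ∂μ -
    s * ⟪g, cov hR r (ej j)⟫

theorem Gr.add {F G : E n → ℝ} (h : Gr F) (h' : Gr G) : Gr fun g => F g + G g := by
  obtain ⟨hm, B, R, h⟩ := h
  obtain ⟨hm', B', R', h'⟩ := h'
  refine ⟨hm.add hm', |B| + |B'|, |R| + |R'|, fun g => (abs_add_le _ _).trans ?_⟩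
  rw [add_mul]
  have g0 := norm_nonneg g
  refine add_le_add ((h g).trans ?_) ((h' g).trans ?_)
  · exact mul_le_mul (le_abs_self B) (Real.exp_le_exp.2 (by
      nlinarith [le_abs_self R, abs_nonneg R'])) (Real.exp_pos _).le (abs_nonneg B)
  · exact mul_le_mul (le_abs_self B') (Real.exp_le_exp.2 (by
      nlinarith [le_abs_self R', abs_nonneg R])) (Real.exp_pos _).le (abs_nonneg B')

theorem Gr.neg {F : E n → ℝ} (h : Gr F) : Gr fun g => F (-g) := by
  obtain ⟨hm, B, R, h⟩ := h
  exact ⟨hm.comp measurable_neg, B, R, fun g => by simpa using h (-g)⟩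

theorem gr_sum {ι : Type} (S : Finset ι) {F : ι → E n → ℝ} (h : ∀ j, Gr (F j)) :
    Gr fun g => ∑ j ∈ S, F j g := by
  classical
  induction S using Finset.induction_on with
  | empty => simpa using gr_const 0
  | insert a S ha ih => simpa only [Finset.sum_insert ha] using (h a).add ih

theorem gr_er (hR : Bd μ R) (r s : ℝ) (j : Fin n) : Gr fun g => er hR r s j g ^ 2 := by
  have : Gr (er hR r s j) := by
    have := (((ker_chi_lin hR r (ej j)).gr s).add
      (gr_const (-∫ x, chi r x * ⟪x, ej j⟫ ∂μ))).add ((gr_const (-s)).mul (gr_lin (cov hR r (ej j))))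
    convert this using 2
    simp only [er]
    ring
  simpa only [sq] using this.mul this

theorem Iso.er_sum (h : Iso μ K R) {r s : ℝ} (r0 : 0 < r) (s1 : s ^ 4 * r ^ 3 ≤ 1)
    (s2 : 16 * r * s ^ 2 ≤ 1) : ∫ g, ∑ j, er h.bd r s j g ^ 2 ∂gam n ≤ 400000 := by
  let κ : ℝ → ℝ := fun t => Real.exp (s ^ 2 * t) - 1 - s ^ 2 * t
  have cκ : Continuous κ := by fun_prop
  have k := fun j => ker_chi_lin h.bd r (ej j)
  rw [integral_finsetSum _ fun j _ => (gr_er h.bd r s j).int]
  refine (Finset.sum_le_sum fun j _ => (k j).var_two s).trans ?_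
  rw [← integral_finsetSum _ fun j _ => (k j).outer cκ]
  have : ∫ _, (400000 : ℝ) ∂μ = 400000 := by simp
  rw [← this]
  refine integral_mono (integrable_finsetSum _ fun j _ => (k j).outer cκ) (integrable_const _)
    fun x => ?_
  rcases chi_cases r x with e | e
  swap
  · simp [e.2]
  have cx : Continuous fun y : E n => κ ⟪y, x⟫ := by fun_prop
  simp only [e.2, one_mul, ← integral_const_mul]
  rw [← integral_finsetSum _ fun j _ => ((k j).int' cx).const_mul _]
  have hb := borell h.lc h.bd x r0 (by rw [h.m2]; exact pow_le_pow_left₀ (norm_nonneg x) e.1 2)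
  have := integral_mono (integrable_finsetSum Finset.univ fun j _ =>
      ((k j).int' cx).const_mul ⟪x, ej j⟫)
    ((h.bd.int (f := fun y => Real.exp (|⟪y, x⟫| / (8 * r))) (by fun_prop)).const_mul 24576)
    fun y => by
      have e1 : ∑ j, ⟪x, ej j⟫ * (chi r y * ⟪y, ej j⟫ * κ ⟪y, x⟫) =
          chi r y * (⟪y, x⟫ * κ ⟪y, x⟫) := by
        conv_rhs => rw [inner_sum y x, Finset.sum_mul, Finset.mul_sum, ← inner_sum y x]
        exact Finset.sum_congr rfl fun j _ => by rw [inner_ej, inner_ej]; ring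
      simp only [e1]
      rcases chi_cases r y with e' | e'
      swap
      · rw [e'.2, zero_mul]; positivity
      rw [e'.2, one_mul]
      set t := ⟪y, x⟫ with ht
      set w := |t| / (16 * r) with hw
      have w0 : 0 ≤ w := by positivity
      have e2 : |t| / (8 * r) = w + w := by rw [hw]; field_simp; ring
      have e3 : |t| = 16 * r * w := by rw [hw]; field_simp
      have h1 := exp_two_le (s ^ 2 * t)
      have h2 : |s ^ 2 * t| ≤ w := by
        rw [abs_mul, abs_of_nonneg (sq_nonneg s), e3]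
        nlinarith
      have h3 := Real.pow_div_factorial_le_exp w w0 3
      norm_num [Nat.factorial] at h3
      have h4 : |κ t| ≤ (s ^ 2 * t) ^ 2 * Real.exp w :=
        h1.trans (mul_le_mul_of_nonneg_left (Real.exp_le_exp.2 h2) (sq_nonneg _))
      refine (le_abs_self _).trans ?_
      rw [abs_mul, e2, Real.exp_add]
      refine (mul_le_mul_of_nonneg_left h4 (abs_nonneg t)).trans ?_
      rw [mul_pow, ← sq_abs t, e3, ← mul_assoc, ← mul_assoc 24576]
      refine mul_le_mul_of_nonneg_right ?_ (Real.exp_pos _).le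
      have h5 : 16 * r * w * ((s ^ 2) ^ 2 * (16 * r * w) ^ 2) = 4096 * (s ^ 4 * r ^ 3) * w ^ 3 := by
        ring
      rw [h5]
      nlinarith [mul_le_mul_of_nonneg_right s1 (pow_nonneg w0 3)]
  rw [integral_const_mul] at this
  exact this.trans (by linarith)

theorem Iso.cov_mem (h : Iso μ K R) {r s : ℝ} {g : E n} (h1 : AA μ (chi r) s g ≤ 10)
    (h2 : ∑ j, er h.bd r s j g ^ 2 ≤ 4000000) : (s / 40000000) • cov h.bd r g ∈ K := by
  by_contra hz
  obtain ⟨v, hv, c, hc, hlt⟩ := sep_unit h.cl h.cv h.nonempty hz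
  have c0 := h.supp hv hc
  have k := fun j => ker_chi_lin h.bd r (ej j)
  have kv := ker_chi_lin h.bd r v
  have ce : Continuous fun x : E n => ee (s • x) g := by fun_prop
  have hvs : ∀ x : E n, ⟪x, v⟫ = ∑ j, v j * ⟪x, ej j⟫ := fun x => by
    rw [inner_sum]
    exact Finset.sum_congr rfl fun j _ => by rw [inner_ej, mul_comm]
  have e1 : ∑ j, v j * er h.bd r s j g = AA μ (fun x => chi r x * ⟪x, v⟫) s g -
      ∫ x, chi r x * ⟪x, v⟫ ∂μ - s * ⟪cov h.bd r g, v⟫ := by
    simp only [er, mul_sub, Finset.sum_sub_distrib, AA, ← integral_const_mul]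
    rw [← integral_finsetSum _ fun j _ => ((k j).int' ce).const_mul _,
      ← integral_finsetSum _ fun j _ => (k j).int0.const_mul _]
    congr 1
    · congr 1
      · congr with x
        rw [hvs x, Finset.mul_sum, Finset.sum_mul]
        exact Finset.sum_congr rfl fun j _ => by ring
      · congr with x
        rw [hvs x, Finset.mul_sum]
        exact Finset.sum_congr rfl fun j _ => by ring
    · rw [hvs, Finset.mul_sum]
      exact Finset.sum_congr rfl fun j _ => by rw [← cov_symm]; ring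
  have e2 : |∑ j, v j * er h.bd r s j g| ≤ 2000 := by
    refine abs_le_of_sq_le_sq ((Finset.sum_mul_sq_le_sq_mul_sq _ _ _).trans ?_) (by norm_num)
    rw [← EuclideanSpace.real_norm_sq_eq, hv]
    linarith
  have e3 : AA μ (fun x => chi r x * ⟪x, v⟫) s g ≤ c * AA μ (chi r) s g := by
    rw [AA, AA, ← integral_const_mul]
    refine integral_mono_ae (kv.int' ce) (((ker_chi h.bd r).int' ce).const_mul c) ?_
    filter_upwards [h.mem] with x hx
    rcases chi_cases r x with e | e
    · simp only [e.2, one_mul]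
      exact mul_le_mul_of_nonneg_right (hc x hx) (ee_pos _ _).le
    · simp [e.2]
  have e4 : -1 ≤ ∫ x, chi r x * ⟪x, v⟫ ∂μ := by
    have i2 := h.bd.int (f := fun x => ⟪x, v⟫ ^ 2) (by fun_prop)
    have := integral_mono (isub (integrable_const (-1 : ℝ)) i2) (kv.int0.const_mul 2) fun x => by
      rcases chi_cases r x with e | e
      · simp only [e.2]; nlinarith [sq_nonneg (⟪x, v⟫ + 1)]
      · simp only [e.2]; nlinarith [sq_nonneg ⟪x, v⟫]
    rw [integral_sub (integrable_const _) i2, integral_const_mul, h.m2, hv] at this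
    simp only [integral_const, probReal_univ, smul_eq_mul, one_mul] at this
    linarith
  rw [inner_smul_left] at hlt
  simp only [conj_trivial] at hlt
  have e5 := (abs_le.1 e2).1
  nlinarith [mul_le_mul_of_nonneg_left h1 (show 0 ≤ c by linarith)]

theorem Iso.exists_U (h : Iso μ K R) {r s : ℝ} (r0 : 0 < r) (s1 : s ^ 4 * r ^ 3 ≤ 1)
    (s2 : 16 * r * s ^ 2 ≤ 1) {u : E n} (hu : ‖u‖ = 1) :
    ∃ U : Set (E n), MeasurableSet U ∧ (∀ g ∈ U, -g ∈ U) ∧ 1 / 2 ≤ (gam n).real U ∧
      ∀ g ∈ U, ⟪cov h.bd r g, u⟫ ≤ 4 ∧ (s / 40000000) • cov h.bd r g ∈ K := by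
  have kc := ker_chi h.bd r
  let D : E n → ℝ := fun g => ∑ j, er h.bd r s j g ^ 2
  have gD : Gr D := gr_sum _ (gr_er h.bd r s)
  have D0 : ∀ g, 0 ≤ D g := fun g => Finset.sum_nonneg fun j _ => sq_nonneg _
  have A0 : ∀ g, 0 ≤ AA μ (chi r) s g := fun g => integral_nonneg fun x => by
    rcases chi_cases r x with e | e
    · simp only [e.2, one_mul]; exact (ee_pos _ _).le
    · simp [e.2]
  let w := cov h.bd r u
  let Ψ : E n → ℝ := fun g => AA μ (chi r) s g + AA μ (chi r) s (-g) +
    1 / 400000 * (D g + D (-g)) + ⟪g, w⟫ * ⟪g, w⟫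
  have g1 := (kc.gr s).add (kc.gr s).neg
  have g2 := (gr_const (1 / 400000)).mul (gD.add gD.neg)
  have g3 := (gr_lin w).mul (gr_lin w)
  have gΨ : Gr Ψ := (g1.add g2).add g3
  have Ψ0 : ∀ g, 0 ≤ Ψ g := fun g => by
    have := A0 g
    have := A0 (-g)
    have := D0 g
    have := D0 (-g)
    have := mul_self_nonneg ⟪g, w⟫
    positivity
  have hI : ∫ g, Ψ g ∂gam n ≤ 5 := by
    rw [integral_add (g1.add g2).int g3.int, integral_add g1.int g2.int,
      integral_add (kc.gr s).int (kc.gr s).neg.int, integral_const_mul,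
      integral_add gD.int gD.neg.int, gam_neg, gam_neg, kc.mean]
    have a1 : ∫ x, chi r x ∂μ ≤ 1 := by
      rw [chi, integral_indicator_one Metric.isClosed_closedBall.measurableSet]
      exact measureReal_le_one
    have a2 := h.er_sum r0 s1 s2
    have a3 := (gam_sq w).trans (h.cov_le r hu)
    simp only [sq ⟪_, w⟫] at a3
    change ∫ g, D g ∂gam n ≤ _ at a2
    linarith
  have mS : MeasurableSet {g | 10 ≤ Ψ g} := measurableSet_le measurable_const gΨ.1
  refine ⟨{g | 10 ≤ Ψ g}ᶜ, mS.compl, fun g hg => ?_, ?_, fun g hg => ?_⟩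
  · simp only [mem_compl_iff, mem_ofPred_eq, Ψ, neg_neg, inner_neg_left, mul_neg, neg_mul] at hg ⊢
    intro hc
    exact hg (by linarith)
  · have := mul_meas_ge_le_integral_of_nonneg (ae_of_all _ Ψ0) gΨ.int 10
    rw [probReal_compl_eq_one_sub mS]
    linarith
  · simp only [mem_compl_iff, mem_ofPred_eq, Ψ, not_le] at hg
    have := A0 g
    have := A0 (-g)
    have := D0 g
    have := D0 (-g)
    have := mul_self_nonneg ⟪g, w⟫
    refine ⟨?_, h.cov_mem (by linarith) (by change D g ≤ _; linarith)⟩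
    rw [cov_symm]
    change ⟪g, w⟫ ≤ 4
    nlinarith

end Pool.Agent.Lib.MP_fedf83_gt.P
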