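import Pool.Agent.Lib.MP_fedf83_gt.LMean
import Pool.Agent.Lib.MP_fedf83_gt.PM

/-! Gaussian noise lies close to the body: the posterior mean is the nearby point. -/

namespace Pool.Agent.Lib.MP_fedf83_gt.P

open MeasureTheory Set Pool.Agent.Lib.MP_fedf83_gt.B
open scoped ENNReal RealInnerProductSpace

set_option linter.unusedSectionVars false

variable {n : ℕ} {μ : Measure (E n)} [IsProbabilityMeasure μ] {K : Set (E n)} {R : ℝ}

theorem Gr.nz_std {F : E n → ℝ} (h : Gr F) :
    ∃ B S : ℝ, 0 ≤ B ∧ 0 ≤ S ∧ ∀ g, |F g| ≤ B * Real.exp (S * ‖g‖) := by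
  obtain ⟨-, B, S, h⟩ := h
  refine ⟨|B|, |S|, abs_nonneg _, abs_nonneg _, fun g => (h g).trans ?_⟩
  refine mul_le_mul (le_abs_self B) (Real.exp_le_exp.2 ?_) (Real.exp_pos _).le (abs_nonneg _)
  exact mul_le_mul_of_nonneg_right (le_abs_self S) (norm_nonneg _)

theorem Gr.nz_shift {F : E n → ℝ} (h : Gr F) (a : E n) : Gr fun g => F (g + a) := by
  obtain ⟨B, S, B0, S0, hb⟩ := h.nz_std
  refine ⟨h.1.comp (measurable_add_const a), B * Real.exp (S * ‖a‖), S, fun g => (hb _).trans ?_⟩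
  rw [mul_assoc, ← Real.exp_add]
  refine mul_le_mul_of_nonneg_left (Real.exp_le_exp.2 ?_) B0
  nlinarith [norm_add_le g a]

theorem nz_gr_coord (j : Fin n) : Gr fun g : E n => g j := by
  simpa [EuclideanSpace.inner_single_right] using gr_lin (EuclideanSpace.single j (1 : ℝ))

theorem Bd.nz_int (hR : Bd μ R) (s : ℝ) {ψ : E n → ℝ} (hψ : Gr ψ) :
    Integrable (fun x => ∫ g, ee (s • x) g * ψ g ∂gam n) μ := by
  have mψ := hψ.1
  obtain ⟨B, S, B0, S0, hb⟩ := hψ.nz_std
  refine (integrable_const (∫ g : E n, B * Real.exp ((|s| * R + S) * ‖g‖) ∂gam n)).mono'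
    (StronglyMeasurable.integral_prod_right (f := fun x g : E n => ee (s • x) g * ψ g)
      (Measurable.stronglyMeasurable ?_)).aestronglyMeasurable ?_
  · change Measurable fun p : E n × E n => ee (s • p.1) p.2 * ψ p.2
    fun_prop
  · filter_upwards [hR] with x hx
    refine norm_integral_le_of_norm_le ((gam_int_exp _).const_mul B) (ae_of_all _ fun g => ?_)
    rw [Real.norm_eq_abs, abs_mul, abs_of_pos (ee_pos _ _), add_mul, Real.exp_add, mul_left_comm]
    refine mul_le_mul (ee_le ?_ _) (hb _) (abs_nonneg _) (Real.exp_pos _).le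
    rw [norm_smul]
    exact mul_le_mul_of_nonneg_left hx (abs_nonneg s)

/-- The posterior mean as a function of the observation. -/
noncomputable def nzA (μ : Measure (E n)) (s : ℝ) (g : E n) : E n := mean (tilt μ (s ^ 2) (s • g))

theorem Bd.nz_gr (hR : Bd μ R) (s : ℝ) (j : Fin n) : Gr fun g => nzA μ s g j := by
  obtain ⟨m, B, hB⟩ := reg_mean hR j
  exact ⟨(m _).comp (measurable_const_smul s), B, 0, fun g => by simpa [nzA] using hB _ _⟩

theorem Iso.nz_mem (h : Iso μ K R) (s : ℝ) (g : E n) : nzA μ s g ∈ K := by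
  have := h.bd.tilt_prob (s ^ 2) (s • g)
  exact h.cv.integral_mem h.cl ((tilt_ac μ _ _).ae_le h.mem)
    ((h.bd.tilt _ _).int (f := fun x => x) continuous_id)

theorem Iso.nz_coord (h : Iso μ K R) (j : Fin n) : ∫ x, x j ^ 2 ∂μ = 1 := by
  simpa [EuclideanSpace.inner_single_right] using h.m2 (EuclideanSpace.single j (1 : ℝ))

/-- Second moment of the observation. -/
theorem Iso.nz_gg (h : Iso μ K R) (s : ℝ) (j : Fin n) :
    ∫ g, AA μ (fun _ => 1) s g * (g j * g j) ∂gam n = 1 + s ^ 2 := by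
  have c := nz_gr_coord j
  rw [(ker_one h.bd).swap s (c.mul c)]
  have e : ∀ x : E n, ∫ g, ee (s • x) g * (g j * g j) ∂gam n = 1 + s ^ 2 * x j ^ 2 := fun x => by
    have h1 := gam_cov (EuclideanSpace.single j (1 : ℝ)) (EuclideanSpace.single j (1 : ℝ))
    have h2 := gam_lin (EuclideanSpace.single j (1 : ℝ))
    simp only [EuclideanSpace.inner_single_right, one_mul, conj_trivial, PiLp.single_eq_same]
      at h1 h2
    have e2 : ∀ g : E n, (g + s • x) j * (g + s • x) j =
        g j * g j + 2 * (s * x j) * g j + s ^ 2 * x j ^ 2 := fun g => by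
      simp only [PiLp.add_apply, PiLp.smul_apply, smul_eq_mul]
      ring
    rw [gam_shift (s • x) fun g => g j * g j]
    simp only [e2]
    rw [integral_add (iadd (c.mul c).int (c.int.const_mul _)) (integrable_const _),
      integral_add (c.mul c).int (c.int.const_mul _), integral_const_mul, h1, h2]
    simp
  simp only [e, one_mul]
  rw [integral_add (integrable_const _) (h.bd.int (by fun_prop)), integral_const_mul, h.nz_coord]
  simp

/-- Correlation of the observation with the posterior mean. -/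
theorem Iso.nz_ga (h : Iso μ K R) (s : ℝ) (j : Fin n) :
    ∫ g, AA μ (fun _ => 1) s g * (g j * nzA μ s g j) ∂gam n = s := by
  have e : ∀ g, AA μ (fun _ => 1) s g * (g j * nzA μ s g j) = AA μ (fun x => x j) s g * g j :=
    fun g => by
      have := h.bd.tilt_prob (s ^ 2) (s • g)
      rw [← h.bd.post_mul s g fun x => x j, nzA, (h.bd.tilt _ _).mean_apply]
      ring
  simp only [e]
  rw [(h.bd.ker_coord j).swap s (nz_gr_coord j)]
  have e2 : ∀ x : E n, x j * ∫ g, ee (s • x) g * g j ∂gam n = s * x j ^ 2 := fun x => by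
    have := gam_ee_lin (s • x) (EuclideanSpace.single j (1 : ℝ))
    simp only [EuclideanSpace.inner_single_right, one_mul, conj_trivial, PiLp.smul_apply,
      smul_eq_mul] at this
    rw [this]
    ring
  simp only [e2]
  rw [integral_const_mul, h.nz_coord, mul_one]

theorem Bd.nz_gr_dist (hR : Bd μ R) (s : ℝ) : Gr fun g => ‖s • g - nzA μ s g‖ ^ 2 := by
  have e : ∀ g : E n, ‖s • g - nzA μ s g‖ ^ 2 = ∑ j, (s * g j + -1 * nzA μ s g j) *
      (s * g j + -1 * nzA μ s g j) := fun g => by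
    simp only [EuclideanSpace.real_norm_sq_eq, PiLp.sub_apply, PiLp.smul_apply, smul_eq_mul]
    exact Finset.sum_congr rfl fun j _ => by ring
  simp only [e]
  refine gr_sum _ fun j => ?_
  have := ((gr_const s).mul (nz_gr_coord j)).add ((gr_const (-1)).mul (hR.nz_gr s j))
  exact this.mul this

/-- The posterior mean is close to the observation in mean square. -/
theorem Iso.nz_dist (h : Iso μ K R) {s B : ℝ}
    (hm : EX μ s (fun p => ‖mean p‖ ^ 2) ≤ s ^ 2 * n + (s ^ 2) ^ 2 * n * B) :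
    ∫ g, AA μ (fun _ => 1) s g * ‖s • g - nzA μ s g‖ ^ 2 ∂gam n ≤ (s ^ 2) ^ 2 * n * (B + 1) := by
  have hR := h.bd
  have z := (ker_one hR).gr s
  have c := fun j : Fin n => nz_gr_coord j
  have a := hR.nz_gr s
  have e : ∀ g : E n, AA μ (fun _ => 1) s g * ‖s • g - nzA μ s g‖ ^ 2 =
      ∑ j, (s ^ 2 * (AA μ (fun _ => 1) s g * (g j * g j)) -
        2 * s * (AA μ (fun _ => 1) s g * (g j * nzA μ s g j))) +
        ‖nzA μ s g‖ ^ 2 * AA μ (fun _ => 1) s g := fun g => by
    simp only [EuclideanSpace.real_norm_sq_eq, PiLp.sub_apply, PiLp.smul_apply, smul_eq_mul,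
      Finset.mul_sum, Finset.sum_mul, ← Finset.sum_add_distrib]
    exact Finset.sum_congr rfl fun j _ => by ring
  have i1 := fun j => (z.mul ((c j).mul (c j))).int.const_mul (s ^ 2)
  have i2 := fun j => (z.mul ((c j).mul (a j))).int.const_mul (2 * s)
  have i3 : Integrable (fun g => ‖nzA μ s g‖ ^ 2 * AA μ (fun _ => 1) s g) (gam n) := by
    simp only [EuclideanSpace.real_norm_sq_eq]
    simp only [sq]
    exact ((gr_sum Finset.univ fun j => (a j).mul (a j)).mul z).int
  simp only [e]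
  rw [integral_add (integrable_finsetSum _ fun j _ => isub (i1 j) (i2 j)) i3,
    integral_finsetSum _ fun j _ => isub (i1 j) (i2 j)]
  simp only [integral_sub (i1 _) (i2 _), integral_const_mul, h.nz_gg, h.nz_ga, Finset.sum_const,
    Finset.card_univ, Fintype.card_fin, nsmul_eq_mul]
  change _ + EX μ s (fun p => ‖mean p‖ ^ 2) ≤ _
  linarith

/-- Jensen bound for the chosen coordinates of the posterior mean. -/
theorem Iso.nz_coords (h : Iso μ K R) (s : ℝ) (J : Finset (Fin n)) :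
    ∫ g, AA μ (fun _ => 1) s g * ∑ j ∈ J, nzA μ s g j * nzA μ s g j ∂gam n ≤ J.card := by
  have hR := h.bd
  have h1 : EX μ s (fun p => ∑ j ∈ J, covM p j j + ∑ j ∈ J, mean p j * mean p j) = J.card := by
    have := EX_int hR s (f := fun x => ∑ j ∈ J, x j * x j) (by fun_prop)
    rw [integral_finsetSum _ fun j _ => hR.int (by fun_prop)] at this
    simp only [← sq, h.nz_coord, Finset.sum_const, nsmul_eq_mul, mul_one] at this
    rw [← this]
    unfold EX
    congr with g
    have := hR.tilt_prob (s ^ 2) (s • g)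
    have hp := hR.tilt (s ^ 2) (s • g)
    beta_reduce
    rw [integral_finsetSum _ fun j _ => hp.int (by fun_prop), ← Finset.sum_add_distrib]
    simp only [hp.covM_eq, sub_add_cancel]
    simp only [sq]
  have r1 := reg_sum J fun j => reg_cov hR j j
  have r2 := reg_sum J fun j => (reg_mean hR j).mul (reg_mean hR j)
  rw [EX_add (r1.ei hR s) (r2.ei hR s)] at h1
  have h2 : 0 ≤ EX μ s fun p => ∑ j ∈ J, covM p j j := EX_nonneg hR fun θ =>
    Finset.sum_nonneg fun j _ => integral_nonneg fun x => mul_self_nonneg _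
  simp only [mul_comm (AA μ (fun _ => 1) s _)]
  change EX μ s (fun p => ∑ j ∈ J, mean p j * mean p j) ≤ _
  linarith

/-- The noise step: with probability one half the scaled Gaussian vector is near a point of the
body with small chosen coordinates. -/
theorem noise (h : Iso μ K R) (hn : 1 ≤ n) (J : Finset (Fin n)) (hJ : J.Nonempty) {T B Ψ : ℝ}
    (T0 : 0 < T) (B0 : 0 ≤ B)
    (hm : EX μ (√T) (fun p => ‖mean p‖ ^ 2) ≤ T * n + T ^ 2 * n * B) (hΨ : 4 * B + 10 ≤ Ψ) :
    1 / 2 ≤ (gam n).real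
      {g | ∃ z ∈ K, ∑ i ∈ J, z i ^ 2 ≤ Ψ * J.card ∧ ‖√T • g - z‖ ^ 2 ≤ T ^ 2 * n * Ψ} := by
  have hR := h.bd
  have n0 : (0 : ℝ) < n := by exact_mod_cast hn
  have k0 : (0 : ℝ) < J.card := by exact_mod_cast hJ.card_pos
  have Ψ0 : 0 < Ψ := by linarith
  have hs : √T ^ 2 = T := Real.sq_sqrt T0.le
  generalize √T = s at hs hm ⊢
  subst hs
  have z := (ker_one hR).gr s
  have g1 := hR.nz_gr_dist s
  have g2 : Gr fun g => ∑ j ∈ J, nzA μ s g j * nzA μ s g j :=
    gr_sum _ fun j => (hR.nz_gr s j).mul (hR.nz_gr s j)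
  set c1 : ℝ := 2 / ((s ^ 2) ^ 2 * n * Ψ) with hc1
  set c2 : ℝ := 1 / (Ψ * J.card) with hc2
  set c3 : ℝ := 2 / (n * Ψ) with hc3
  set V : E n → ℝ := fun g => c1 * ‖s • g - nzA μ s g‖ ^ 2 +
    c2 * ∑ j ∈ J, nzA μ s g j * nzA μ s g j with hV
  have gV : Gr V := ((gr_const c1).mul g1).add ((gr_const c2).mul g2)
  have iV := hR.nz_int s gV
  have ix : Integrable (fun x : E n => c3 * ‖x‖ ^ 2) μ := hR.int (by fun_prop)
  have tot : ∫ x, (∫ g, ee (s • x) g * V g ∂gam n + c3 * ‖x‖ ^ 2) ∂μ ≤ 1 / 2 := by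
    have sw := (ker_one hR).swap s gV
    simp only [one_mul] at sw
    rw [integral_add iV ix, ← sw, integral_const_mul, h.norm_sq]
    simp only [hV, mul_add, mul_left_comm (AA μ (fun _ => 1) s _)]
    rw [integral_add ((z.mul g1).int.const_mul _) ((z.mul g2).int.const_mul _),
      integral_const_mul, integral_const_mul]
    have a1 := mul_le_mul_of_nonneg_left (h.nz_dist hm) (show 0 ≤ c1 by positivity)
    have a2 := mul_le_mul_of_nonneg_left (h.nz_coords s J) (show 0 ≤ c2 by positivity)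
    have s0 : s ≠ 0 := fun h0 => by simp [h0] at T0
    have e1 : c1 * ((s ^ 2) ^ 2 * n * (B + 1)) = 2 * (B + 1) / Ψ := by rw [hc1]; field_simp
    have e2 : c2 * J.card = 1 / Ψ := by rw [hc2]; field_simp
    have e3 : c3 * n = 2 / Ψ := by rw [hc3]; field_simp
    have e4 : 2 * (B + 1) / Ψ + 1 / Ψ + 2 / Ψ ≤ 1 / 2 := by
      rw [← add_div, ← add_div, div_le_iff₀ Ψ0]
      linarith
    linarith
  obtain ⟨x, hx⟩ := exists_le_integral (iadd iV ix)
  have hx2 := hx.trans tot
  have iW := (gV.nz_shift (s • x)).int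
  rw [gam_shift] at hx2
  have V0 : ∀ g, 0 ≤ V g := fun g => add_nonneg (by positivity)
    (mul_nonneg (by positivity) (Finset.sum_nonneg fun j _ => mul_self_nonneg _))
  have mk := mul_meas_ge_le_integral_of_nonneg (μ := gam n)
    (f := fun g => V (g + s • x) + c3 * ‖x‖ ^ 2)
    (ae_of_all _ fun g => add_nonneg (V0 _) (by positivity)) (iadd iW (integrable_const _)) 1
  rw [integral_add iW (integrable_const _), one_mul] at mk
  simp only [integral_const, probReal_univ, smul_eq_mul, one_mul] at mk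
  set S := {g : E n | ∃ z ∈ K, ∑ i ∈ J, z i ^ 2 ≤ Ψ * J.card ∧
    ‖s • g - z‖ ^ 2 ≤ (s ^ 2) ^ 2 * n * Ψ}
  have cover : (univ : Set (E n)) ⊆ S ∪ {g | 1 ≤ V (g + s • x) + c3 * ‖x‖ ^ 2} := fun g _ => by
    by_cases hg : 1 ≤ V (g + s • x) + c3 * ‖x‖ ^ 2
    · exact Or.inr hg
    refine Or.inl ⟨nzA μ s (g + s • x), h.nz_mem s _, ?_, ?_⟩
    · have b1 : 0 ≤ c1 * ‖s • (g + s • x) - nzA μ s (g + s • x)‖ ^ 2 := by positivity
      have b3 : 0 ≤ c3 * ‖x‖ ^ 2 := by positivity
      have b2 : c2 * ∑ j ∈ J, nzA μ s (g + s • x) j * nzA μ s (g + s • x) j ≤ 1 := by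
        simp only [hV] at hg
        linarith
      rw [hc2, one_div, inv_mul_le_iff₀ (by positivity), mul_one] at b2
      simpa only [sq] using b2
    · have b2 : 0 ≤ c2 * ∑ j ∈ J, nzA μ s (g + s • x) j * nzA μ s (g + s • x) j :=
        mul_nonneg (by positivity) (Finset.sum_nonneg fun j _ => mul_self_nonneg _)
      have b1 : c1 * ‖s • (g + s • x) - nzA μ s (g + s • x)‖ ^ 2 + c3 * ‖x‖ ^ 2 ≤ 1 := by
        simp only [hV] at hg
        linarith
      generalize nzA μ s (g + s • x) = a at b1 ⊢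
      have e : s • g - a = s • (g + s • x) - a - (s ^ 2) • x := by
        rw [smul_add, smul_smul, sq]
        abel
      have t := norm_sub_le (s • (g + s • x) - a) ((s ^ 2) • x)
      rw [← e, norm_smul, Real.norm_eq_abs, abs_of_pos T0] at t
      have t2 := pow_le_pow_left₀ (norm_nonneg _) t 2
      have b4 := mul_le_mul_of_nonneg_left b1 (show 0 ≤ (s ^ 2) ^ 2 * n * Ψ by positivity)
      have s0 : s ≠ 0 := fun h0 => by simp [h0] at T0
      have e1 : (s ^ 2) ^ 2 * n * Ψ * c1 = 2 := by rw [hc1]; field_simp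
      have e3 : (s ^ 2) ^ 2 * n * Ψ * c3 = 2 * (s ^ 2) ^ 2 := by rw [hc3]; field_simp
      rw [mul_add, ← mul_assoc, ← mul_assoc _ c3, e1, e3, mul_one] at b4
      nlinarith [sq_nonneg (‖s • (g + s • x) - a‖ - s ^ 2 * ‖x‖)]
  have u1 := (measureReal_mono (μ := gam n) cover).trans (measureReal_union_le _ _)
  rw [probReal_univ] at u1
  linarith

/-- The noise step from a covariance majorant, in the form needed by the level argument. -/
theorem Lam.noise {Λ : Measure (E n) → ℝ} {T₀ M P Ψ : ℝ} (hΛ : Lam μ Λ T₀ M) (h : Iso μ K R)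
    (hn : 1 ≤ n) (hP : PI n P) (P0 : 0 ≤ P) (hΨ : 4 * (P * M) + 10 ≤ Ψ) (hT : 1 / Ψ ≤ T₀)
    (J : Finset (Fin n)) (hJ : J.Nonempty) (T : ℝ) (T0 : 0 < T) (T1 : T ≤ 1 / Ψ) :
    1 / 2 ≤ (gam n).real
      {g | ∃ z ∈ K, ∑ i ∈ J, z i ^ 2 ≤ Ψ * J.card ∧ ‖√T • g - z‖ ^ 2 ≤ T ^ 2 * n * Ψ} :=
  Pool.Agent.Lib.MP_fedf83_gt.P.noise h hn J hJ T0
    (mul_nonneg P0 (zero_le_one.trans (hΛ.one_le h.bd (T0.le.trans (T1.trans hT)))))
    (hΛ.mean_sq_two h hP P0 T0.le (T1.trans hT)) hΨ

end Pool.Agent.Lib.MP_fedf83_gt.P
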