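import Pool.Agent.Lib.MP_fedf83_gt.PDar
import Pool.Agent.Lib.MP_fedf83_gt.LTilt

/-! Many points of an isotropic body have a close partner that is far in given coordinates. -/

namespace Pool.Agent.Lib.MP_fedf83_gt.P

open MeasureTheory Set Pool.Agent.Lib.MP_fedf83_gt.B
open scoped ENNReal RealInnerProductSpace Pointwise

set_option linter.unusedSectionVars false

variable {n : ℕ} {μ : Measure (E n)} [IsProbabilityMeasure μ] {K : Set (E n)} {R : ℝ}

theorem LC.part_shift (hl : LC μ) (a : E n) : LC (μ.map fun x => x - a) := by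
  intro f g h mf mg mh f0 g0 h0 i1 i2 i3 H
  have mT : Measurable fun x : E n => x - a := by fun_prop
  rw [integral_map mT.aemeasurable mf.aestronglyMeasurable,
    integral_map mT.aemeasurable mg.aestronglyMeasurable,
    integral_map mT.aemeasurable mh.aestronglyMeasurable]
  rw [integrable_map_measure mf.aestronglyMeasurable mT.aemeasurable] at i1
  rw [integrable_map_measure mg.aestronglyMeasurable mT.aemeasurable] at i2
  rw [integrable_map_measure mh.aestronglyMeasurable mT.aemeasurable] at i3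
  exact hl _ _ _ (mf.comp mT) (mg.comp mT) (mh.comp mT) (fun x => f0 _) (fun x => g0 _)
    (fun x => h0 _) i1 i2 i3 (fun x y => by
      have e : (1 / 2 : ℝ) • (x + y) - a = (1 / 2 : ℝ) • (x - a + (y - a)) := by module
      simpa only [Function.comp, e] using H (x - a) (y - a))

theorem part_side_one (hl : LC μ) (hR : Bd μ R) (u : E n) (h1 : ∫ x, ⟪x, u⟫ ∂μ = 0)
    (h2 : ∫ x, ⟪x, u⟫ ^ 2 ∂μ = 1) : 1 / 10 ^ 8 ≤ μ.real {x | 1 / 16000 ≤ ⟪x, u⟫} := by
  have h4 : ∫ x, ⟪x, u⟫ ^ 4 ∂μ ≤ 1400000 := by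
    have hb := borell hl hR u one_pos (by rw [h2]; norm_num)
    have := integral_mono (hR.int (f := fun x => ⟪x, u⟫ ^ 4) (by fun_prop))
      ((hR.int (f := fun x => Real.exp (|⟪x, u⟫| / (8 * 1))) (by fun_prop)).const_mul 98304)
      fun x => by
        have := Real.pow_div_factorial_le_exp (|⟪x, u⟫| / (8 * 1)) (by positivity) 4
        rw [div_pow, Even.pow_abs (by decide)] at this
        norm_num [Nat.factorial] at this ⊢
        linarith
    rw [integral_const_mul] at this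
    linarith
  have ms : MeasurableSet {x : E n | 1 / 16000 ≤ ⟪x, u⟫} :=
    (isClosed_le continuous_const (by fun_prop)).measurableSet
  have i1 := (hR.int (f := fun x => ⟪x, u⟫) (by fun_prop)).const_mul 2000
  have i2 := hR.int (f := fun x => ⟪x, u⟫ ^ 2) (by fun_prop)
  have i3 := (hR.int (f := fun x => ⟪x, u⟫ ^ 4) (by fun_prop)).div_const 4000000
  have := integral_mono (isub (isub (iadd i1 i2) i3) (integrable_const (1 / 4)))
    (((integrable_const (1 : ℝ)).indicator ms).const_mul 24000000) fun x => by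
      by_cases hx : 1 / 16000 ≤ ⟪x, u⟫
      · simp only [indicator_of_mem (show x ∈ {x : E n | 1 / 16000 ≤ ⟪x, u⟫} from hx), mul_one]
        exact (side_poly _).1
      · simp only [indicator_of_notMem (show x ∉ {x : E n | 1 / 16000 ≤ ⟪x, u⟫} from hx), mul_zero]
        exact (side_poly _).2 (not_le.1 hx)
  rw [integral_sub (isub (iadd i1 i2) i3) (integrable_const _), integral_sub (iadd i1 i2) i3,
    integral_add i1 i2, integral_const_mul, integral_const_mul, integral_div, h1, h2,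
    integral_indicator_const _ ms] at this
  simp only [integral_const, probReal_univ, smul_eq_mul, one_mul, mul_one] at this
  linarith

theorem part_side_zero (hl : LC μ) (hR : Bd μ R) (u : E n) (h1 : ∫ x, ⟪x, u⟫ ∂μ = 0) :
    1 / 10 ^ 8 ≤ μ.real {x | ⟪x, u⟫ ≤ 0} := by
  set V := ∫ x, ⟪x, u⟫ ^ 2 ∂μ with hV
  have V0 : 0 ≤ V := integral_nonneg fun x => sq_nonneg _
  rcases V0.eq_or_lt with h | h
  · have h3 := (integral_eq_zero_iff_of_nonneg (fun x => sq_nonneg (⟪x, u⟫ : ℝ))
      (hR.int (by fun_prop))).1 h.symm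
    have h4 : (univ : Set (E n)) ≤ᵐ[μ] {x | ⟪x, u⟫ ≤ 0} := by
      filter_upwards [h3] with x hx _
      exact (pow_eq_zero_iff two_ne_zero).1 hx |>.le
    have h5 := ENNReal.toReal_mono (measure_ne_top _ _) (measure_mono_ae h4)
    rw [measure_univ, ENNReal.toReal_one] at h5
    exact le_trans (by norm_num) h5
  · have v0 : 0 < √V := Real.sqrt_pos.2 h
    have := part_side_one hl hR (-(√V)⁻¹ • u)
      (by simp only [inner_smul_right, integral_const_mul, h1, mul_zero])
      (by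
        simp only [inner_smul_right, mul_pow, integral_const_mul, ← hV]
        rw [neg_sq, inv_pow, Real.sq_sqrt V0, inv_mul_cancel₀ h.ne'])
    refine this.trans (measureReal_mono (fun x hx => ?_) (measure_ne_top _ _))
    simp only [mem_ofPred_eq, inner_smul_right] at hx ⊢
    by_contra hc
    have := mul_pos (inv_pos.2 v0) (not_le.1 hc)
    linarith

/-- A half space through the barycentre has mass at least an absolute constant. -/
theorem part_half (hl : LC μ) (hR : Bd μ R) (u : E n) :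
    1 / 10 ^ 8 ≤ μ.real {x | ⟪x - mean μ, u⟫ ≤ 0} := by
  have mT : Measurable fun x : E n => x - mean μ := by fun_prop
  have : IsProbabilityMeasure (μ.map fun x => x - mean μ) :=
    Measure.isProbabilityMeasure_map mT.aemeasurable
  have hb : Bd (μ.map fun x => x - mean μ) (R + ‖mean μ‖) := by
    unfold Bd
    rw [ae_map_iff mT.aemeasurable (isClosed_le continuous_norm continuous_const).measurableSet]
    filter_upwards [hR] with x hx
    exact (norm_sub_le _ _).trans (by linarith)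
  have := part_side_zero (hl.part_shift (mean μ)) hb u (by
    rw [integral_map mT.aemeasurable (by fun_prop)]
    simpa only [real_inner_comm u] using hR.centred u)
  rwa [map_measureReal_apply mT
    (isClosed_le (f := fun x : E n => ⟪x, u⟫) (by fun_prop) continuous_const).measurableSet] at this

/-- Two sets at distance more than `ρ` under strong log-concavity. -/
theorem SLC.part_far {t ρ2 : ℝ} (t0 : 0 ≤ t) (hl : SLC t μ) {S T : Set (E n)}
    (hS : MeasurableSet S) (hT : MeasurableSet T) (h : ∀ x ∈ S, ∀ y ∈ T, ρ2 ≤ ‖x - y‖ ^ 2) :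
    μ.real S * μ.real T ≤ Real.exp (-(t * ρ2 / 4)) := by
  have key := hl (S.indicator 1) (T.indicator 1) (fun _ => Real.exp (-(t * ρ2 / 8)))
    (measurable_one.indicator hS) (measurable_one.indicator hT) measurable_const
    (ind_nonneg S) (ind_nonneg T) (fun _ => (Real.exp_pos _).le)
    ((integrable_const (1 : ℝ)).indicator hS) ((integrable_const (1 : ℝ)).indicator hT)
    (integrable_const _) fun x y => by
      by_cases hx : x ∈ S
      · by_cases hy : y ∈ T
        · simp only [indicator_of_mem hx, indicator_of_mem hy, Pi.one_apply, one_mul]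
          rw [sq (Real.exp _), ← Real.exp_add, ← Real.exp_add]
          refine Real.one_le_exp ?_
          nlinarith [mul_le_mul_of_nonneg_left (h x hx y hy) t0]
        · simp only [indicator_of_notMem hy, mul_zero]; positivity
      · simp only [indicator_of_notMem hx, zero_mul]; positivity
  rw [integral_indicator_one hS, integral_indicator_one hT] at key
  simp only [integral_const, probReal_univ, smul_eq_mul, one_mul] at key
  rw [sq (Real.exp _), ← Real.exp_add] at key
  exact key.trans (le_of_eq (by congr 1; ring))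

theorem part_gauss (J : Finset (Fin n)) (hJ : J.Nonempty) :
    1 / 2 ≤ (gam n).real {g : E n | ∑ j ∈ J, g j ^ 2 < 2 * J.card} := by
  have k0 : (0 : ℝ) < J.card := by exact_mod_cast hJ.card_pos
  have e : ∀ (g : E n) j, g j = ⟪g, EuclideanSpace.single j (1 : ℝ)⟫ := fun g j => by
    simp [EuclideanSpace.inner_single_right]
  have ii : ∀ j, Integrable (fun g : E n => g j ^ 2) (gam n) := fun j => by
    simpa only [← e, ← sq] using ((gr_lin (EuclideanSpace.single j (1 : ℝ))).mul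
      (gr_lin (EuclideanSpace.single j (1 : ℝ)))).int
  have h1 := mul_meas_ge_le_integral_of_nonneg (μ := gam n)
    (f := fun g : E n => ∑ j ∈ J, g j ^ 2)
    (ae_of_all _ fun g => Finset.sum_nonneg fun j _ => sq_nonneg _)
    (integrable_finsetSum _ fun j _ => ii j) (2 * J.card)
  have h2 : ∫ g : E n, ∑ j ∈ J, g j ^ 2 ∂gam n ≤ J.card := by
    rw [integral_finsetSum _ fun j _ => ii j]
    have : ∀ j ∈ J, ∫ g : E n, g j ^ 2 ∂gam n ≤ 1 := fun j _ => by
      simpa only [← e, PiLp.norm_single, norm_one, one_pow] using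
        gam_sq (EuclideanSpace.single j (1 : ℝ))
    simpa using Finset.sum_le_sum this
  have ms : MeasurableSet {g : E n | ∑ j ∈ J, g j ^ 2 < 2 * J.card} :=
    (isOpen_lt (by fun_prop) continuous_const).measurableSet
  have h3 := probReal_compl_eq_one_sub (μ := gam n) ms
  have h4 : {g : E n | ∑ j ∈ J, g j ^ 2 < 2 * J.card}ᶜ =
      {g : E n | 2 * J.card ≤ ∑ j ∈ J, g j ^ 2} := by
    ext g; simp
  rw [h4] at h3
  nlinarith

theorem part_dir (J : Finset (Fin n)) (hJ : J.Nonempty) (y : E n)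
    (hy : (J.card : ℝ) / 4 ≤ ∑ j ∈ J, y j ^ 2) :
    Real.exp (-(8 * J.card)) * (1 / 2) ≤ (gam n).real
      {g : E n | (J.card : ℝ) ≤ ∑ j ∈ J, y j * g j ∧ ∑ j ∈ J, g j ^ 2 ≤ 36 * J.card} := by
  set k : ℝ := (J.card : ℝ) with hk
  have k0 : 0 < k := by rw [hk]; exact_mod_cast hJ.card_pos
  set W := ∑ j ∈ J, y j ^ 2 with hW
  have W0 : 0 < W := by linarith
  set t := √(16 * k / W) with ht
  have t0 : 0 ≤ t := Real.sqrt_nonneg _
  have t2 : t ^ 2 * W = 16 * k := by
    rw [ht, Real.sq_sqrt (by positivity)]; field_simp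
  let a : E n := WithLp.toLp 2 fun j => if j ∈ J then -(t * y j) else 0
  have ha : ∀ j ∈ J, a j = -(t * y j) := fun j hj => by simp [a, hj]
  have hn : ‖a‖ ^ 2 = 16 * k := by
    rw [EuclideanSpace.real_norm_sq_eq, ← t2, hW, Finset.mul_sum,
      ← Finset.sum_subset (Finset.subset_univ J) (fun j _ hj => by simp [a, hj])]
    exact Finset.sum_congr rfl fun j hj => by rw [ha j hj]; ring
  have ms : MeasurableSet {g : E n | ∑ j ∈ J, g j ^ 2 < 2 * k} :=
    (isOpen_lt (by fun_prop) continuous_const).measurableSet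
  have h1 := gam_shift_set ms (fun g hg => by simpa using hg) a
  rw [hn, show 16 * k / 2 = 8 * k by ring] at h1
  refine le_trans (mul_le_mul_of_nonneg_left (part_gauss J hJ) (Real.exp_pos _).le)
    (h1.trans (measureReal_mono (fun g hg => ?_) (measure_ne_top _ _)))
  have h2 : ∑ j ∈ J, (g j - t * y j) ^ 2 < 2 * k := by
    have : ∑ j ∈ J, (g + a) j ^ 2 < 2 * k := hg
    rwa [Finset.sum_congr rfl fun j hj => by rw [PiLp.add_apply, ha j hj, ← sub_eq_add_neg]] at this
  have h3 := Finset.sum_mul_sq_le_sq_mul_sq J (fun j => y j) fun j => g j - t * y j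
  rw [← hW] at h3
  have h4 : ∑ j ∈ J, y j * (g j - t * y j) = ∑ j ∈ J, y j * g j - t * W := by
    rw [hW, Finset.mul_sum, ← Finset.sum_sub_distrib]
    exact Finset.sum_congr rfl fun j _ => by ring
  rw [h4] at h3
  have h5 : (t * W) ^ 2 = 16 * k * W := by rw [← t2]; ring
  have h6 : 2 * k ≤ t * W := abs_le_of_sq_le_sq' (by nlinarith) (by positivity) |>.2
  have h7 := (abs_le_of_sq_le_sq' (a := ∑ j ∈ J, y j * g j - t * W) (b := t * W / 2)
    (by nlinarith [mul_le_mul_of_nonneg_left h2.le W0.le, mul_pos k0 W0]) (by positivity)).1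
  refine ⟨by linarith, ?_⟩
  have h8 : ∑ j ∈ J, g j ^ 2 ≤ ∑ j ∈ J, (2 * (g j - t * y j) ^ 2 + 2 * (t ^ 2 * y j ^ 2)) :=
    Finset.sum_le_sum fun j _ => by nlinarith [sq_nonneg (g j - 2 * (t * y j))]
  rw [Finset.sum_add_distrib, ← Finset.mul_sum, ← Finset.mul_sum, ← Finset.mul_sum, ← hW] at h8
  linarith

/-- Points with a close partner in `K` that is far in the coordinates of `J`. -/
def PartSet (K : Set (E n)) (J : Finset (Fin n)) (ρ2 : ℝ) : Set (E n) :=
  {x | ∃ y ∈ K, ‖x - y‖ ^ 2 ≤ ρ2 ∧ (J.card : ℝ) / 256 ≤ ∑ j ∈ J, (x j - y j) ^ 2}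

theorem partSet_closed (hK : IsClosed K) (J : Finset (Fin n)) (ρ2 : ℝ) :
    IsClosed (PartSet K J ρ2) := by
  have hc : IsCompact {d : E n | ‖d‖ ^ 2 ≤ ρ2 ∧ (J.card : ℝ) / 256 ≤ ∑ j ∈ J, d j ^ 2} := by
    refine (isCompact_closedBall (0 : E n) (|ρ2| + 1)).of_isClosed_subset
      ((isClosed_le (f := fun d : E n => ‖d‖ ^ 2) (by fun_prop) continuous_const).inter
        (isClosed_le (g := fun d : E n => ∑ j ∈ J, d j ^ 2) continuous_const (by fun_prop)))
      fun d hd => ?_
    rw [mem_closedBall_zero_iff]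
    nlinarith [hd.1, le_abs_self ρ2, norm_nonneg d, sq_nonneg (‖d‖ - 1), abs_nonneg ρ2]
  have := hK.add_right_of_isCompact hc
  convert this using 1
  ext x
  constructor
  · rintro ⟨y, hy, h1, h2⟩
    exact ⟨y, hy, x - y, ⟨h1, by simpa using h2⟩, by simp⟩
  · rintro ⟨y, hy, d, ⟨h1, h2⟩, rfl⟩
    exact ⟨y, hy, by simpa using h1, by simpa using h2⟩

theorem part_post {t ρ2 : ℝ} (t0 : 0 ≤ t) (hl : SLC t μ) (hR : Bd μ R) (hK : IsClosed K)
    (hm : ∀ᵐ x ∂μ, x ∈ K) (J : Finset (Fin n)) (hJ : J.Nonempty) :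
    Real.exp (-(8 * J.card)) * (1 / 2) *
        μ.real {x | (J.card : ℝ) / 4 ≤ ∑ j ∈ J, (x - mean μ) j ^ 2} ≤
      μ.real (PartSet K J ρ2) + 10 ^ 8 * Real.exp (-(t * ρ2 / 4)) := by
  set k : ℝ := (J.card : ℝ) with hk
  have k0 : 0 < k := by rw [hk]; exact_mod_cast hJ.card_pos
  set a := mean μ with ha
  let S : Set (E n × E n) :=
    {p | k ≤ ∑ j ∈ J, (p.1 - a) j * p.2 j ∧ ∑ j ∈ J, p.2 j ^ 2 ≤ 36 * k}
  have cS : IsClosed S :=
    (isClosed_le (g := fun p : E n × E n => ∑ j ∈ J, (p.1 - a) j * p.2 j) continuous_const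
      (by fun_prop)).inter
      (isClosed_le (f := fun p : E n × E n => ∑ j ∈ J, p.2 j ^ 2) (by fun_prop) continuous_const)
  have mF : MeasurableSet {x : E n | k / 4 ≤ ∑ j ∈ J, (x - a) j ^ 2} :=
    (isClosed_le continuous_const (by fun_prop)).measurableSet
  obtain ⟨g, hg⟩ := exists_section (μ := μ) (ν := gam n) cS.measurableSet mF
    (q := Real.exp (-(8 * k)) * (1 / 2)) (by positivity) fun x hx => part_dir J hJ (x - a) hx
  refine hg.trans ?_
  let u : E n := WithLp.toLp 2 fun j => if j ∈ J then g j else 0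
  have hu : ∀ z : E n, ⟪z, u⟫ = ∑ j ∈ J, z j * g j := fun z => by
    rw [inner_sum, ← Finset.sum_subset (Finset.subset_univ J) (fun j _ hj => by simp [u, hj])]
    exact Finset.sum_congr rfl fun j hj => by simp [u, hj]
  have mA : MeasurableSet {x : E n | (x, g) ∈ S} :=
    (cS.preimage (f := fun x : E n => (x, g)) (by fun_prop)).measurableSet
  have mP := (partSet_closed hK J ρ2).measurableSet
  have mB : MeasurableSet ({y : E n | ⟪y - a, u⟫ ≤ 0} ∩ K) :=
    ((isClosed_le (by fun_prop) continuous_const).inter hK).measurableSet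
  have hB : 1 / 10 ^ 8 ≤ μ.real ({y : E n | ⟪y - a, u⟫ ≤ 0} ∩ K) := by
    refine (part_half (hl.lc t0) hR u).trans
      (ENNReal.toReal_mono (measure_ne_top _ _) (measure_mono_ae ?_))
    filter_upwards [hm] with x hx hx' using ⟨hx', hx⟩
  have far := hl.part_far t0 (mA.diff mP) mB (ρ2 := ρ2) fun x hx y hy => by
    by_contra hc
    refine hx.2 ⟨y, hy.2, (not_le.1 hc).le, ?_⟩
    have h1 : k ≤ ∑ j ∈ J, (x - a) j * g j := hx.1.1
    have h2 : ∑ j ∈ J, g j ^ 2 ≤ 36 * k := hx.1.2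
    have h3 : ⟪y - a, u⟫ ≤ 0 := hy.1
    rw [hu] at h3
    have h4 : k ≤ ∑ j ∈ J, (x j - y j) * g j := by
      have : ∑ j ∈ J, (x j - y j) * g j =
          ∑ j ∈ J, (x - a) j * g j - ∑ j ∈ J, (y - a) j * g j := by
        rw [← Finset.sum_sub_distrib]
        exact Finset.sum_congr rfl fun j _ => by simp only [PiLp.sub_apply]; ring
      linarith
    have h5 := Finset.sum_mul_sq_le_sq_mul_sq J (fun j => x j - y j) fun j => g j
    have h6 : 0 ≤ ∑ j ∈ J, (x j - y j) ^ 2 := Finset.sum_nonneg fun j _ => sq_nonneg _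
    have h7 := pow_le_pow_left₀ k0.le h4 2
    by_contra h8
    nlinarith [mul_le_mul_of_nonneg_left h2 h6, mul_lt_mul_of_pos_left (not_le.1 h8) k0]
  have h9 : μ.real {x : E n | (x, g) ∈ S} ≤
      μ.real (PartSet K J ρ2) + μ.real ({x : E n | (x, g) ∈ S} \ PartSet K J ρ2) :=
    (measureReal_mono (fun x hx => by
      by_cases h : x ∈ PartSet K J ρ2
      · exact Or.inl h
      · exact Or.inr ⟨hx, h⟩) (measure_ne_top _ _)).trans (measureReal_union_le _ _)
  have h10 := mul_le_mul_of_nonneg_left hB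
    (measureReal_nonneg (μ := μ) (s := {x : E n | (x, g) ∈ S} \ PartSet K J ρ2))
  linarith

theorem part_pz (hR : Bd μ R) (J : Finset (Fin n)) (hJ : J.Nonempty) :
    2 / 10 ^ 8 / J.card * ((∫ x, ∑ j ∈ J, x j ^ 2 ∂μ) - ∑ j ∈ J, mean μ j ^ 2) - 1 / (2 * 10 ^ 8) -
        16 / 10 ^ 16 / (J.card : ℝ) ^ 2 * ∫ x, (∑ j ∈ J, x j ^ 2) ^ 2 ∂μ ≤
      μ.real {x | (J.card : ℝ) / 4 ≤ ∑ j ∈ J, (x - mean μ) j ^ 2} := by
  set k : ℝ := (J.card : ℝ) with hk
  have k0 : 0 < k := by rw [hk]; exact_mod_cast hJ.card_pos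
  set a := mean μ with ha
  set M := ∑ j ∈ J, a j ^ 2 with hM
  have M0 : 0 ≤ M := Finset.sum_nonneg fun j _ => sq_nonneg _
  have iQ := hR.int (f := fun x : E n => ∑ j ∈ J, x j ^ 2) (by fun_prop)
  have iQ2 := hR.int (f := fun x : E n => (∑ j ∈ J, x j ^ 2) ^ 2) (by fun_prop)
  have iW := hR.int (f := fun x : E n => ∑ j ∈ J, (x - a) j ^ 2) (by fun_prop)
  set Q1 := ∫ x, ∑ j ∈ J, x j ^ 2 ∂μ with hQ1
  set Q2 := ∫ x, (∑ j ∈ J, x j ^ 2) ^ 2 ∂μ with hQ2
  have eW : ∫ x, ∑ j ∈ J, (x - a) j ^ 2 ∂μ = Q1 - M := by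
    rw [hQ1, hM, integral_finsetSum _ fun j _ => hR.int (by fun_prop),
      integral_finsetSum _ fun j _ => hR.int (by fun_prop), ← Finset.sum_sub_distrib]
    refine Finset.sum_congr rfl fun j _ => ?_
    have e : ∀ x : E n, (x - a) j ^ 2 = x j ^ 2 - 2 * a j * x j + a j ^ 2 := fun x => by
      simp only [PiLp.sub_apply]; ring
    have i1 := hR.int (f := fun x : E n => x j ^ 2) (by fun_prop)
    have i2 := (hR.int (f := fun x : E n => x j) (by fun_prop)).const_mul (2 * a j)
    simp only [e]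
    rw [integral_add (isub i1 i2) (integrable_const _), integral_sub i1 i2, integral_const_mul,
      ← hR.mean_apply]
    simp only [integral_const, probReal_univ, smul_eq_mul, one_mul, ← ha]
    ring
  have MQ : M ≤ Q1 := by
    have : 0 ≤ ∫ x, ∑ j ∈ J, (x - a) j ^ 2 ∂μ :=
      integral_nonneg fun x => Finset.sum_nonneg fun j _ => sq_nonneg _
    linarith
  have QQ : Q1 ^ 2 ≤ Q2 := by
    have := integral_mono (isub (iQ.const_mul (2 * Q1)) (integrable_const (Q1 ^ 2))) iQ2
      fun x => by nlinarith [sq_nonneg (∑ j ∈ J, x j ^ 2 - Q1)]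
    rw [integral_sub (iQ.const_mul _) (integrable_const _), integral_const_mul] at this
    simp only [integral_const, probReal_univ, smul_eq_mul, one_mul, ← hQ1, ← hQ2] at this
    linarith
  have M2 : M ^ 2 ≤ Q2 := (pow_le_pow_left₀ M0 MQ 2).trans QQ
  have mF : MeasurableSet {x : E n | k / 4 ≤ ∑ j ∈ J, (x - a) j ^ 2} :=
    (isClosed_le continuous_const (by fun_prop)).measurableSet
  have i1 := iW.const_mul (2 / 10 ^ 8 / k)
  have i2 := iQ2.const_mul (8 / 10 ^ 16 / k ^ 2)
  have := integral_mono (isub (isub i1 i2)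
    (integrable_const (1 / (2 * 10 ^ 8) + 8 / 10 ^ 16 / k ^ 2 * M ^ 2)))
    ((integrable_const (1 : ℝ)).indicator mF) fun x => by
      set W := ∑ j ∈ J, (x - a) j ^ 2 with hW
      set Q := ∑ j ∈ J, x j ^ 2 with hQ
      have W0 : 0 ≤ W := Finset.sum_nonneg fun j _ => sq_nonneg _
      have WQ : W ≤ 2 * Q + 2 * M := by
        rw [hW, hQ, hM, Finset.mul_sum, Finset.mul_sum, ← Finset.sum_add_distrib]
        exact Finset.sum_le_sum fun j _ => by
          simp only [PiLp.sub_apply]; nlinarith [sq_nonneg (x j + a j)]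
      have W2 : W ^ 2 ≤ 8 * Q ^ 2 + 8 * M ^ 2 :=
        (pow_le_pow_left₀ W0 WQ 2).trans (by nlinarith [sq_nonneg (Q - M)])
      have e1 : 2 / 10 ^ 8 / k * W = 2 * (W / (10 ^ 8 * k)) := by field_simp
      have e2 : (W / (10 ^ 8 * k)) ^ 2 ≤
          8 / 10 ^ 16 / k ^ 2 * Q ^ 2 + 8 / 10 ^ 16 / k ^ 2 * M ^ 2 := by
        have : (W / (10 ^ 8 * k)) ^ 2 = 1 / 10 ^ 16 / k ^ 2 * W ^ 2 := by field_simp
        rw [this]
        refine (mul_le_mul_of_nonneg_left W2 (by positivity)).trans (le_of_eq (by ring))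
      by_cases hx : k / 4 ≤ W
      · simp only [indicator_of_mem
          (show x ∈ {x : E n | k / 4 ≤ ∑ j ∈ J, (x - a) j ^ 2} from hx)]
        nlinarith [sq_nonneg (W / (10 ^ 8 * k) - 1)]
      · simp only [indicator_of_notMem
          (show x ∉ {x : E n | k / 4 ≤ ∑ j ∈ J, (x - a) j ^ 2} from hx)]
        have : W / (10 ^ 8 * k) ≤ 1 / (4 * 10 ^ 8) := by
          rw [div_le_div_iff₀ (by positivity) (by positivity)]
          nlinarith [not_le.1 hx]
        nlinarith [sq_nonneg (W / (10 ^ 8 * k))]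
  rw [integral_sub (isub i1 i2) (integrable_const _), integral_sub i1 i2, integral_const_mul,
    integral_const_mul, eW, integral_indicator_const _ mF] at this
  simp only [integral_const, probReal_univ, smul_eq_mul, one_mul, mul_one, ← hQ2] at this
  have h3 := mul_le_mul_of_nonneg_left M2 (show 0 ≤ 8 / 10 ^ 16 / k ^ 2 by positivity)
  have e3 : 16 / 10 ^ 16 / k ^ 2 * Q2 = 2 * (8 / 10 ^ 16 / k ^ 2 * Q2) := by ring
  linarith

theorem Bd.part_ker (hR : Bd μ R) {f : E n → ℝ} (hf : Continuous f) : ∃ H, Ker μ f H R := by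
  obtain ⟨C, hC⟩ := (isCompact_closedBall (0 : E n) R).exists_bound_of_continuousOn
    hf.continuousOn
  refine ⟨C, hf.measurable, ?_, hR⟩
  filter_upwards [hR] with x hx using hC x (by simpa using hx)

theorem Bd.part_gr_mean (hR : Bd μ R) (s : ℝ) (j : Fin n) :
    Gr fun g => mean (P.tilt μ (s ^ 2) (s • g)) j := by
  obtain ⟨H, k1⟩ := hR.part_ker (f := fun x : E n => x j) (by fun_prop)
  have e : ∀ g, mean (P.tilt μ (s ^ 2) (s • g)) j =
      AA μ (fun x => x j) s g / AA μ (fun _ => 1) s g := fun g => by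
    have := hR.tilt_prob (s ^ 2) (s • g)
    rw [(hR.tilt _ _).mean_apply, ← hR.post_mul s g fun x => x j,
      mul_div_cancel_right₀ _ (hR.AA_pos s g).ne']
  refine ⟨?_, R, 0, fun g => ?_⟩
  · simp only [e]
    exact (k1.gr s).1.div ((ker_one hR).gr s).1
  · have := hR.tilt_prob (s ^ 2) (s • g)
    simp only [zero_mul, Real.exp_zero, mul_one]
    exact le_trans (by simpa using PiLp.norm_apply_le (mean (P.tilt μ (s ^ 2) (s • g))) j)
      (hR.tilt _ _).norm_mean

theorem Iso.part_sq (h : Iso μ K R) (J : Finset (Fin n)) :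
    ∫ x, ∑ j ∈ J, x j ^ 2 ∂μ = J.card ∧
      ∫ x, (∑ j ∈ J, x j ^ 2) ^ 2 ∂μ ≤ 1400000 * (J.card : ℝ) ^ 2 := by
  have e : ∀ (g : E n) j, g j = ⟪g, EuclideanSpace.single j (1 : ℝ)⟫ := fun g j => by
    simp [EuclideanSpace.inner_single_right]
  constructor
  · rw [integral_finsetSum _ fun j _ => h.bd.int (by fun_prop)]
    have : ∀ j ∈ J, ∫ x : E n, x j ^ 2 ∂μ = 1 := fun j _ => by
      simpa only [← e, PiLp.norm_single, norm_one, one_pow] using
        h.m2 (EuclideanSpace.single j (1 : ℝ))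
    rw [Finset.sum_congr rfl this]
    simp
  · have h1 := integral_mono (h.bd.int (f := fun x : E n => (∑ j ∈ J, x j ^ 2) ^ 2) (by fun_prop))
      ((h.bd.int (f := fun x : E n => ∑ j ∈ J, x j ^ 4) (by fun_prop)).const_mul (J.card : ℝ))
      fun x => by
        have := sq_sum_le_card_mul_sum_sq (s := J) (f := fun j => x j ^ 2)
        simpa only [← pow_mul] using this
    rw [integral_const_mul, integral_finsetSum _ fun j _ => h.bd.int (by fun_prop)] at h1
    have h2 : ∀ j ∈ J, ∫ x : E n, x j ^ 4 ∂μ ≤ 1400000 := fun j _ => by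
      simpa only [← e] using h.four (u := EuclideanSpace.single j (1 : ℝ)) (by simp)
    have h3 := Finset.sum_le_sum h2
    simp only [Finset.sum_const, nsmul_eq_mul] at h3
    nlinarith [mul_le_mul_of_nonneg_left h3 (Nat.cast_nonneg (α := ℝ) J.card)]

theorem partner (h : Iso μ K R) (J : Finset (Fin n)) (hJ : J.Nonempty) {s Ψ : ℝ} (s0 : 0 < s)
    (s1 : s ≤ 1) (hΨ : 400 ≤ Ψ * s ^ 2)
    (hA : EX μ s (fun p => ∑ j ∈ J, mean p j ^ 2) ≤ (J.card : ℝ) / 2) :
    Real.exp (-(Ψ * J.card)) ≤ μ.real {x | ∃ y ∈ K, ‖x - y‖ ^ 2 ≤ Ψ * J.card ∧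
      (J.card : ℝ) / 256 ≤ ∑ j ∈ J, (x j - y j) ^ 2} := by
  change _ ≤ μ.real (PartSet K J (Ψ * J.card))
  have k1 : (1 : ℝ) ≤ J.card := by exact_mod_cast hJ.card_pos
  obtain ⟨q1, q2⟩ := h.part_sq J
  set k : ℝ := (J.card : ℝ) with hk
  have k0 : 0 < k := by linarith
  have hR := h.bd
  have mP := (partSet_closed h.cl J (Ψ * k)).measurableSet
  set q := Real.exp (-(8 * k)) * (1 / 2) with hq
  have q0 : 0 < q := by positivity
  set ε := 10 ^ 8 * Real.exp (-(s ^ 2 * (Ψ * k) / 4)) with hε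
  obtain ⟨H1, kQ⟩ := hR.part_ker (f := fun x : E n => ∑ j ∈ J, x j ^ 2) (by fun_prop)
  obtain ⟨H2, kQ2⟩ := hR.part_ker (f := fun x : E n => (∑ j ∈ J, x j ^ 2) ^ 2) (by fun_prop)
  have kP := ker_ind hR mP
  have kZ := ker_one hR
  have iM : Integrable (fun g => (∑ j ∈ J, mean (tilt μ (s ^ 2) (s • g)) j ^ 2) *
      AA μ (fun _ => 1) s g) (gam n) := by
    simp only [Finset.sum_mul, sq (mean _ _)]
    exact integrable_finsetSum _ fun j _ =>
      (((hR.part_gr_mean s j).mul (hR.part_gr_mean s j)).mul (kZ.gr s)).int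
  have i1 := (isub (kQ.gr s).int iM).const_mul (2 / 10 ^ 8 / k)
  have i2 := (kZ.gr s).int.const_mul (1 / (2 * 10 ^ 8))
  have i3 := (kQ2.gr s).int.const_mul (16 / 10 ^ 16 / k ^ 2)
  have i4 := (kZ.gr s).int.const_mul ε
  have key := integral_mono ((isub (isub i1 i2) i3).const_mul q) (iadd (kP.gr s).int i4) fun g => by
    have := hR.tilt_prob (s ^ 2) (s • g)
    have a1 := part_post (ρ2 := Ψ * k) (sq_nonneg s) (h.lc.slc_tilt hR (s ^ 2) (s • g))
      (hR.tilt _ _) h.cl ((tilt_ac μ _ _).ae_le h.mem) J hJ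
    have a2 := part_pz (hR.tilt (s ^ 2) (s • g)) J hJ
    rw [← hk] at a1 a2
    have a3 := mul_le_mul_of_nonneg_right
      ((mul_le_mul_of_nonneg_left a2 q0.le).trans a1) (hR.AA_pos s g).le
    rw [← integral_indicator_one mP, add_mul, hR.post_mul] at a3
    refine le_trans (le_of_eq ?_) a3
    simp only [← hR.post_mul s g fun x : E n => ∑ j ∈ J, x j ^ 2,
      ← hR.post_mul s g fun x : E n => (∑ j ∈ J, x j ^ 2) ^ 2]
    ring
  rw [integral_const_mul, integral_sub (isub i1 i2) i3, integral_sub i1 i2, integral_const_mul,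
    integral_const_mul, integral_const_mul, integral_sub (kQ.gr s).int iM,
    integral_add (kP.gr s).int i4, integral_const_mul, kQ.mean, kQ2.mean, kP.mean, kZ.mean,
    integral_indicator_one mP, q1] at key
  simp only [integral_const, probReal_univ, smul_eq_mul, mul_one] at key
  unfold EX at hA
  have b1 : 1 / 10 ^ 8 ≤ 2 / 10 ^ 8 / k * (k - ∫ g, (∑ j ∈ J, mean (tilt μ (s ^ 2) (s • g)) j ^ 2) *
      AA μ (fun _ => 1) s g ∂gam n) := by
    refine le_trans (le_of_eq ?_) (mul_le_mul_of_nonneg_left (sub_le_sub_left hA k) (by positivity))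
    field_simp
    ring
  have b2 : 16 / 10 ^ 16 / k ^ 2 * ∫ x, (∑ j ∈ J, x j ^ 2) ^ 2 ∂μ ≤ 3 / 10 ^ 9 := by
    refine (mul_le_mul_of_nonneg_left q2 (by positivity)).trans ?_
    rw [show 16 / 10 ^ 16 / k ^ 2 * (1400000 * k ^ 2) = 16 * 1400000 / 10 ^ 16 by field_simp]
    norm_num
  have b3 : q * (2 / 10 ^ 9) ≤ μ.real (PartSet K J (Ψ * k)) + ε :=
    (mul_le_mul_of_nonneg_left (by linarith) q0.le).trans key
  have c0 : Real.exp (-50) ≤ 1 / 10 ^ 19 := by
    rw [Real.exp_neg, one_div]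
    exact inv_anti₀ (by positivity) exp_fifty.le
  have c1 : Real.exp (-(s ^ 2 * (Ψ * k) / 4)) ≤ Real.exp (-(8 * k)) * Real.exp (-50) := by
    rw [← Real.exp_add, Real.exp_le_exp]
    nlinarith [mul_le_mul_of_nonneg_right hΨ k0.le]
  have c2 : Real.exp (-(Ψ * k)) ≤ Real.exp (-(8 * k)) * Real.exp (-50) := by
    rw [← Real.exp_add, Real.exp_le_exp]
    have s2 : s ^ 2 ≤ 1 := pow_le_one₀ s0.le s1
    have Ψ0 : 0 < Ψ := by
      by_contra hc
      nlinarith [mul_nonneg (neg_nonneg.2 (not_lt.1 hc)) (sq_nonneg s)]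
    have : 400 ≤ Ψ := hΨ.trans (by nlinarith)
    nlinarith [mul_le_mul_of_nonneg_right this k0.le]
  have c3 := mul_le_mul_of_nonneg_left c0 (Real.exp_pos (-(8 * k))).le
  have c4 := Real.exp_pos (-(8 * k))
  rw [hq, hε] at b3
  linarith

end Pool.Agent.Lib.MP_fedf83_gt.P
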