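import Pool.Agent.Lib.MP_fedf83_gt.LMarkov
import Pool.Agent.Lib.MP_fedf83_gt.LChen
import Pool.Agent.Lib.MP_fedf83_gt.LStep
import Pool.Agent.Lib.MP_fedf83_gt.LInv

/-! Moments of the covariance of the posterior up to a fixed time. -/

namespace Pool.Agent.Lib.MP_fedf83_gt.P

open MeasureTheory Set Pool.Agent.Lib.MP_fedf83_gt.B Matrix
open scoped ENNReal RealInnerProductSpace

variable {n : ℕ} {μ : Measure (E n)} {R : ℝ} {F : Measure (E n) → ℝ}

theorem step2 (n m : ℕ) (R : ℝ) : ∃ C : ℝ, 0 ≤ C ∧ ∀ (ν : Measure (E n)) [IsProbabilityMeasure ν],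
    Bd ν R → ∀ s : ℝ, 0 ≤ s → s ≤ 1 → EX ν s (fun p => trace (covM p ^ (m + 2))) ≤
      trace (covM ν ^ (m + 2)) + s ^ 2 * ((m + 2).choose 2 * Sq ν m) + C * s ^ 3 := by
  obtain ⟨C, C0, h⟩ := step_S2 n (m + 2) R
  exact ⟨C, C0, fun ν _ hν s s0 s1 => h ν s hν s0 s1⟩

theorem flow_exp [IsProbabilityMeasure μ] (hR : Bd μ R) (hF : Reg μ F)
    (F0 : ∀ t θ, 0 ≤ F (tilt μ t θ)) {T C r : ℝ} (T0 : 0 ≤ T) (C0 : 0 ≤ C) (r0 : 0 ≤ r)
    (H : ∀ t θ h, 0 ≤ t → 0 < h → h ≤ 1 → EX (tilt μ t θ) (√h) F ≤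
      F (tilt μ t θ) + h * (r * F (tilt μ t θ)) + C * (h * √h)) :
    EX μ (√T) F ≤ F μ * Real.exp (r * T) := by
  have := slope (v := fun t => EX μ (√t) F * Real.exp (-(r * t))) (C := C) T0
    fun t h t0 h0 h1 _ => by
      have a1 := flow hR hF (hF.const_mul r) t0 h0 fun θ => H t θ h t0 h0 h1
      rw [EX_const_mul] at a1
      have a2 : 0 ≤ EX μ (√t) F := EX_nonneg hR fun θ => F0 _ _
      have a3 : (1 + h * r) * Real.exp (-(r * (t + h))) ≤ Real.exp (-(r * t)) := by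
        have := Real.add_one_le_exp (h * r)
        calc _ ≤ Real.exp (h * r) * Real.exp (-(r * (t + h))) := by gcongr; linarith
          _ = _ := by rw [← Real.exp_add]; congr 1; ring
      have a4 : Real.exp (-(r * (t + h))) ≤ 1 :=
        Real.exp_le_one_iff.2 (neg_nonpos.2 (by positivity))
      have a5 : 0 ≤ C * (h * √h) := by positivity
      have a6 := mul_le_mul_of_nonneg_right a1 (Real.exp_pos (-(r * (t + h)))).le
      nlinarith [mul_le_mul_of_nonneg_left a3 a2, mul_le_mul_of_nonneg_left a4 a5]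
  simp only [Real.sqrt_zero, EX_zero, mul_zero, neg_zero, Real.exp_zero, mul_one] at this
  rwa [Real.exp_neg, ← div_eq_mul_inv, div_le_iff₀ (Real.exp_pos _)] at this

theorem flow_pow [IsProbabilityMeasure μ] (hR : Bd μ R) (hF : Reg μ F)
    (F0 : ∀ t θ, 0 ≤ F (tilt μ t θ)) {a T C : ℝ} (a0 : 0 < a) (haT : a ≤ T) (C0 : 0 ≤ C) (c : ℕ)
    (H : ∀ t θ h, 0 < t → 0 < h → h ≤ 1 → EX (tilt μ t θ) (√h) F ≤
      F (tilt μ t θ) + h * (c / t * F (tilt μ t θ)) + C * (h * √h)) :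
    EX μ (√T) F ≤ (T / a) ^ c * EX μ (√a) F := by
  have := slope (v := fun t => EX μ (√t) F / t ^ c) (C := C / a ^ c) haT
    fun t h t1 h0 h1 _ => by
      have t0 : 0 < t := a0.trans_le t1
      have a1 := flow hR hF (hF.const_mul (c / t)) t0.le h0 fun θ => H t θ h t0 h0 h1
      rw [EX_const_mul] at a1
      have a2 : 0 ≤ EX μ (√t) F := EX_nonneg hR fun θ => F0 _ _
      have a3 : (1 + c * (h / t)) * t ^ c ≤ (t + h) ^ c := by
        have := one_add_mul_le_pow (a := h / t) (le_trans (by norm_num) (div_pos h0 t0).le) c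
        calc _ ≤ (1 + h / t) ^ c * t ^ c := by gcongr
          _ = _ := by rw [← mul_pow]; congr 1; field_simp
      have a4 : a ^ c ≤ (t + h) ^ c := by gcongr; linarith
      have a5 : 0 ≤ h * √h := by positivity
      have p1 : 0 < (t + h) ^ c := by positivity
      calc _ ≤ (EX μ (√t) F * (1 + c * (h / t)) + C * (h * √h)) / (t + h) ^ c := by
            gcongr
            refine a1.trans (le_of_eq ?_)
            ring
        _ = EX μ (√t) F * ((1 + c * (h / t)) / (t + h) ^ c) + C / (t + h) ^ c * (h * √h) := by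
            ring
        _ ≤ EX μ (√t) F * (1 / t ^ c) + C / a ^ c * (h * √h) := by
            gcongr ?_ + ?_
            · refine mul_le_mul_of_nonneg_left ?_ a2
              rw [div_le_div_iff₀ p1 (by positivity)]
              linarith
            · gcongr
        _ = _ := by ring
  have T0 : 0 < T := a0.trans_le haT
  rw [div_le_iff₀ (by positivity)] at this
  refine this.trans (le_of_eq ?_)
  rw [div_pow]
  ring

theorem Bd.eig [IsFiniteMeasure μ] (hR : Bd μ R) : ∃ d : Fin n → ℝ, (∀ i, 0 ≤ d i) ∧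
    (∀ m, trace (covM μ ^ m) = ∑ i, d i ^ m) ∧ ∀ L, (∀ i, d i ≤ L) → ∀ v : Fin n → ℝ,
      ∑ i, ∑ j, v i * covM μ i j * v j ≤ L * ∑ i, v i ^ 2 := by
  obtain ⟨U, d, hd, h1, h2, hA⟩ := T.spectral hR.covM_psd
  refine ⟨d, hd, trace_pow_eq h1 h2 hA, fun L hL v => ?_⟩
  have e : ∑ i, ∑ j, v i * covM μ i j * v j = ∑ k, d k * (∑ a, U a k * v a) ^ 2 := by
    have e1 : ∀ i j, covM μ i j = ∑ k, U i k * d k * U j k := fun i j => by
      rw [hA, mul_apply]
      simp only [mul_diagonal, transpose_apply]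
    simp only [e1, sq, Finset.mul_sum, Finset.sum_mul]
    conv_rhs => rw [Finset.sum_comm]
    refine Finset.sum_congr rfl fun i _ => ?_
    conv_rhs => rw [Finset.sum_comm]
    exact Finset.sum_congr rfl fun j _ => Finset.sum_congr rfl fun k _ => by ring
  rw [e, ← orth_sq h2 v, Finset.mul_sum]
  exact Finset.sum_le_sum fun k _ => mul_le_mul_of_nonneg_right (hL k) (sq_nonneg _)

theorem Bd.trace_nonneg [IsFiniteMeasure μ] (hR : Bd μ R) (m : ℕ) : 0 ≤ trace (covM μ ^ m) := by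
  obtain ⟨d, hd, e, -⟩ := hR.eig
  rw [e]
  exact Finset.sum_nonneg fun i _ => pow_nonneg (hd i) _

theorem Bd.trace_le [IsFiniteMeasure μ] (hR : Bd μ R) {l : ℝ} (l0 : 0 ≤ l) {Q : ℕ} (Q0 : Q ≠ 0)
    (h : trace (covM μ ^ Q) ≤ l ^ Q) (q : ℕ) : trace (covM μ ^ q) ≤ n * l ^ q := by
  obtain ⟨d, hd, e, -⟩ := hR.eig
  rw [e] at h ⊢
  have dl : ∀ i, d i ≤ l := fun i => le_of_pow_le_pow_left₀ Q0 l0
    ((Finset.single_le_sum (f := fun i => d i ^ Q) (fun i _ => pow_nonneg (hd i) _)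
      (Finset.mem_univ i)).trans h)
  refine (Finset.sum_le_card_nsmul _ _ (l ^ q) fun i _ => pow_le_pow_left₀ (hd i) (dl i) q).trans ?_
  simp

theorem Bd.trace_sq_le [IsProbabilityMeasure μ] (hR : Bd μ R) (q : ℕ) :
    trace (covM μ ^ (q + 1)) ^ 2 ≤ ∫ x, (‖x‖ ^ 2) ^ (2 * (q + 1)) ∂μ := by
  obtain ⟨d, hd, e, -⟩ := hR.eig
  have a1 : ∑ i, d i ≤ ∫ x, ‖x‖ ^ 2 ∂μ := by
    have := e 1
    simp only [pow_one] at this
    rw [← this]
    simp only [EuclideanSpace.real_norm_sq_eq]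
    rw [integral_finsetSum _ fun j _ => hR.int (by fun_prop)]
    refine Finset.sum_le_sum fun i _ => ?_
    rw [diag_apply, hR.covM_eq]
    simp only [sq]
    linarith [mul_self_nonneg (mean μ i)]
  have s0 : 0 ≤ ∑ i, d i := Finset.sum_nonneg fun i _ => hd i
  have a2 : ∑ i, d i ^ (q + 1) ≤ (∑ i, d i) ^ (q + 1) := by
    rw [pow_succ (∑ i, d i), Finset.mul_sum]
    refine Finset.sum_le_sum fun i _ => ?_
    rw [pow_succ]
    exact mul_le_mul_of_nonneg_right (pow_le_pow_left₀ (hd i)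
      (Finset.single_le_sum (fun i _ => hd i) (Finset.mem_univ i)) q) (hd i)
  have a3 := (convexOn_pow (𝕜 := ℝ) (2 * (q + 1))).map_integral_le (μ := μ)
    (f := fun x : E n => ‖x‖ ^ 2) (continuous_pow _).continuousOn isClosed_Ici
    (ae_of_all _ fun x => sq_nonneg ‖x‖) (hR.int (by fun_prop))
    (hR.int (f := fun x : E n => (‖x‖ ^ 2) ^ (2 * (q + 1))) (by fun_prop))
  refine le_trans ?_ a3
  rw [e, mul_comm, pow_mul]
  exact pow_le_pow_left₀ (Finset.sum_nonneg fun i _ => pow_nonneg (hd i) _)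
    (a2.trans (pow_le_pow_left₀ s0 a1 _)) 2

variable {K : Set (E n)}

theorem Iso.moment [IsProbabilityMeasure μ] (h : Iso μ K R) (k : ℕ) :
    ∫ x, (‖x‖ ^ 2) ^ (k + 1) ∂μ ≤
      14 * 8 ^ (2 * (k + 1)) * (2 * (k + 1)).factorial * n ^ (k + 1) := by
  have a1 : ∀ i, ∫ x, (x i ^ 2) ^ (k + 1) ∂μ ≤
      8 ^ (2 * (k + 1)) * (2 * (k + 1)).factorial * 14 := fun i => by
    have hb := borell h.lc h.bd (EuclideanSpace.single i 1) one_pos (by rw [h.m2]; simp)
    refine le_trans ?_ (mul_le_mul_of_nonneg_left hb (by positivity))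
    rw [← integral_const_mul]
    refine integral_mono (h.bd.int (by fun_prop)) (h.bd.int (by fun_prop)) fun x => ?_
    have := Real.pow_div_factorial_le_exp (|x i| / 8) (by positivity) (2 * (k + 1))
    rw [div_pow, pow_mul, sq_abs, div_div, div_le_iff₀ (by positivity)] at this
    simpa [EuclideanSpace.inner_single_right, mul_comm] using this
  have a2 : ∫ x, (‖x‖ ^ 2) ^ (k + 1) ∂μ ≤ ∫ x, (n : ℝ) ^ k * ∑ i, (x i ^ 2) ^ (k + 1) ∂μ := by
    refine integral_mono (h.bd.int (by fun_prop)) (h.bd.int (by fun_prop)) fun x => ?_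
    have := pow_sum_le_card_mul_sum_pow (s := Finset.univ) (f := fun i => x i ^ 2)
      (fun i _ => sq_nonneg _) k
    simpa [EuclideanSpace.real_norm_sq_eq] using this
  rw [integral_const_mul, integral_finsetSum _ fun j _ => h.bd.int (by fun_prop)] at a2
  have a3 := Finset.sum_le_card_nsmul Finset.univ _ _ fun i _ => a1 i
  simp only [Finset.card_univ, Fintype.card_fin, nsmul_eq_mul] at a3
  refine a2.trans ((mul_le_mul_of_nonneg_left a3 (by positivity)).trans (le_of_eq ?_))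
  ring

theorem root_cube {h : ℝ} (h0 : 0 ≤ h) : √h ^ 3 = h * √h := by
  rw [pow_succ, Real.sq_sqrt h0]

theorem phase_one [IsProbabilityMeasure μ] (h : Iso μ K R) {p l t : ℝ} (p0 : 0 ≤ p)
    (hp : ∀ t θ, 0 ≤ t → QP p (tilt μ t θ)) (l0 : 0 ≤ l) (m : ℕ) (t0 : 0 ≤ t) :
    EX μ (√t) (fun ν => min (n + trace (covM ν ^ (m + 2))) (l ^ (m + 2))) ≤
      2 * n * Real.exp ((m + 2).choose 2 * (p * l ^ 2) * t) := by
  obtain ⟨C, C0, hC⟩ := step2 n m R
  have rg : ∀ (ν : Measure (E n)) [IsProbabilityMeasure ν], Bd ν R →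
      Reg ν fun ν => min (n + trace (covM ν ^ (m + 2))) (l ^ (m + 2)) := fun ν _ hν =>
    (reg_trace hν (m + 2)).comp (φ := fun y => min (n + y) (l ^ (m + 2))) (by fun_prop)
  have nn : ∀ t θ, 0 ≤ min (n + trace (covM (tilt μ t θ) ^ (m + 2))) (l ^ (m + 2)) := fun t θ => by
    have := h.bd.tilt_prob t θ
    exact le_min (add_nonneg (Nat.cast_nonneg n) ((h.bd.tilt t θ).trace_nonneg _)) (by positivity)
  refine (flow_exp h.bd (rg μ h.bd) nn t0 C0 (r := (m + 2).choose 2 * (p * l ^ 2)) (by positivity)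
    fun t θ s t0 s0 s1 => ?_).trans ?_
  · have := h.bd.tilt_prob t θ
    have hν := h.bd.tilt t θ
    have b0 := nn t θ
    have b1 : 0 ≤ C * (s * √s) := by positivity
    by_cases hc : n + trace (covM (tilt μ t θ) ^ (m + 2)) ≤ l ^ (m + 2)
    · rw [min_eq_left hc]
      have a1 := EX_mono hν ((rg _ hν).ei hν (√s))
        (((reg_const n).add (reg_trace hν (m + 2))).ei hν _) fun θ => min_le_left _ _
      rw [EX_add ((reg_const _).ei hν _) ((reg_trace hν _).ei hν _), EX_const hν] at a1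
      have a2 := hC _ hν (√s) (Real.sqrt_nonneg s) (Real.sqrt_le_one.2 s1)
      rw [Real.sq_sqrt s0.le, root_cube s0.le] at a2
      have a3 := (hp t θ t0).Sq_le p0 hν l0 m (by linarith [Nat.cast_nonneg (α := ℝ) n])
      have a4 := mul_le_mul_of_nonneg_left a3
        (by positivity : 0 ≤ s * ((m + 2).choose 2 : ℝ))
      nlinarith
    · have a1 := EX_mono hν ((rg _ hν).ei hν (√s))
        ((reg_const (l ^ (m + 2))).ei hν _) fun θ => min_le_right _ _
      rw [EX_const hν] at a1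
      rw [min_eq_right (not_le.1 hc).le]
      have : 0 ≤ s * ((m + 2).choose 2 * (p * l ^ 2) * l ^ (m + 2)) := by positivity
      linarith
  · gcongr
    refine (min_le_left _ _).trans (le_of_eq ?_)
    rw [h.covM_one]
    simp
    ring

theorem phase_early [IsProbabilityMeasure μ] (hn : 1 ≤ n) (h : Iso μ K R)
    {p l t : ℝ} (p0 : 0 ≤ p)
    (hp : ∀ t θ, 0 ≤ t → QP p (tilt μ t θ)) (l1 : 1 ≤ l) (m q : ℕ)
    (hl : 6 * (14 * 8 ^ (2 * (2 * (q + 1))) * (2 * (2 * (q + 1))).factorial) *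
      (n : ℝ) ^ (2 * (q + 1) + 1) ≤ l ^ (m + 2)) (t0 : 0 ≤ t)
    (t1 : (m + 2).choose 2 * (p * l ^ 2) * t ≤ 1) :
    EX μ (√t) (fun ν => trace (covM ν ^ (q + 1))) ≤ 3 * n * l ^ (q + 1) := by
  have n1 : (1 : ℝ) ≤ n := by exact_mod_cast hn
  have a1 := phase_one h p0 hp (by linarith : 0 ≤ l) m t0
  have a2 := h.moment (2 * q + 1)
  rw [show 2 * q + 1 + 1 = 2 * (q + 1) by ring] at a2
  set B : ℝ := 14 * 8 ^ (2 * (2 * (q + 1))) * (2 * (2 * (q + 1))).factorial with hB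
  have B0 : 0 < B := by positivity
  set D := B * n ^ (2 * (q + 1)) with hD
  have D0 : 0 < D := by positivity
  have L0 : 0 < l ^ (m + 2) := by positivity
  have r1 := reg_int h.bd (f := fun x : E n => (‖x‖ ^ 2) ^ (2 * (q + 1))) (by fun_prop)
  have r2 : Reg μ fun ν => min (n + trace (covM ν ^ (m + 2))) (l ^ (m + 2)) :=
    (reg_trace h.bd (m + 2)).comp (φ := fun y => min (n + y) (l ^ (m + 2))) (by fun_prop)
  have r3 := (reg_const (μ := μ) (n * l ^ (q + 1))).add (r1.const_mul D⁻¹)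
  have a3 := EX_mono h.bd ((reg_trace h.bd (q + 1)).ei h.bd (√t))
    ((r3.add (r2.const_mul (D / l ^ (m + 2)))).ei h.bd _) fun θ => by
      have := h.bd.tilt_prob (√t ^ 2) θ
      have hν := h.bd.tilt (√t ^ 2) θ
      have b1 := hν.trace_sq_le q
      have b2 := hν.trace_nonneg (m + 2)
      have b3 := mul_le_mul_of_nonneg_left b1 (inv_pos.2 D0).le
      set y := trace (covM (tilt μ (√t ^ 2) θ) ^ (q + 1))
      have b4 : 0 ≤ D⁻¹ * y ^ 2 := by positivity
      by_cases hc : n + trace (covM (tilt μ (√t ^ 2) θ) ^ (m + 2)) ≤ l ^ (m + 2)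
      · have b5 := hν.trace_le (by linarith : 0 ≤ l) (Q := m + 2) (by omega)
          (by linarith) (q + 1)
        have : 0 ≤ D / l ^ (m + 2) *
            min (n + trace (covM (tilt μ (√t ^ 2) θ) ^ (m + 2))) (l ^ (m + 2)) :=
          mul_nonneg (by positivity) (le_min (by linarith) L0.le)
        linarith
      · rw [min_eq_right (not_le.1 hc).le, div_mul_cancel₀ _ L0.ne']
        have b5 : y ≤ D⁻¹ * y ^ 2 + D := by
          rw [← div_eq_inv_mul, div_add' _ _ _ D0.ne', le_div_iff₀ D0]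
          nlinarith [sq_nonneg (y - D), sq_nonneg y, sq_nonneg D]
        have : 0 ≤ n * l ^ (q + 1) := by positivity
        linarith
  rw [EX_add (r3.ei h.bd _) ((r2.const_mul _).ei h.bd _),
    EX_add ((reg_const _).ei h.bd _) ((r1.const_mul _).ei h.bd _), EX_const h.bd, EX_const_mul,
    EX_const_mul, EX_int h.bd _ (by fun_prop)] at a3
  have a4 : D⁻¹ * ∫ x, (‖x‖ ^ 2) ^ (2 * (q + 1)) ∂μ ≤ 1 := by
    rw [← div_eq_inv_mul, div_le_one D0]; exact a2
  have a5 : Real.exp ((m + 2).choose 2 * (p * l ^ 2) * t) ≤ 3 :=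
    (Real.exp_le_exp.2 t1).trans Real.exp_one_lt_three.le
  have a6 : D / l ^ (m + 2) * (2 * n * 3) ≤ 1 := by
    rw [div_mul_eq_mul_div, div_le_one L0]
    refine le_trans (le_of_eq ?_) hl
    rw [hD]; ring
  have a7 := mul_le_mul_of_nonneg_left (a1.trans
    (mul_le_mul_of_nonneg_left a5 (by positivity))) (by positivity : 0 ≤ D / l ^ (m + 2))
  have a8 : 1 ≤ n * l ^ (q + 1) := one_le_mul_of_one_le_of_one_le n1 (one_le_pow₀ l1)
  linarith

theorem phase_late [IsProbabilityMeasure μ] (hl : LC μ) (hR : Bd μ R) {a T : ℝ}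
    (a0 : 0 < a) (haT : a ≤ T) (m : ℕ) :
    EX μ (√T) (fun ν => trace (covM ν ^ (m + 3))) ≤
      (T / a) ^ (4 * (m + 3).choose 2) * EX μ (√a) (fun ν => trace (covM ν ^ (m + 3))) := by
  obtain ⟨C, C0, hC⟩ := step2 n (m + 1) R
  refine flow_pow hR (reg_trace hR _) (fun t θ => ?_) a0 haT C0 _ fun t θ s t0 s0 s1 => ?_
  · have := hR.tilt_prob t θ
    exact (hR.tilt t θ).trace_nonneg _
  · have := hR.tilt_prob t θ
    have hν := hR.tilt t θ
    have a2 := hC _ hν (√s) (Real.sqrt_nonneg s) (Real.sqrt_le_one.2 s1)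
    rw [Real.sq_sqrt s0.le, root_cube s0.le] at a2
    have a3 := mul_le_mul_of_nonneg_left (chen t0 (hl.slc_tilt hR t θ) hν m)
      (by positivity : 0 ≤ s * ((m + 3).choose 2 : ℝ))
    refine a2.trans ?_
    change trace (covM (tilt μ t θ) ^ (m + 3)) + s * ((m + 3).choose 2 * _) + _ ≤ _
    push_cast
    have e : s * (4 * ((m + 3).choose 2 : ℝ) / t * trace (covM (tilt μ t θ) ^ (m + 3))) =
      s * ((m + 3).choose 2 : ℝ) * (4 / t * trace (covM (tilt μ t θ) ^ (m + 3))) := by ring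
    rw [e]
    linarith

/-- Moments of the posterior covariance up to time `8 / P`. -/
theorem phase {ε : ℝ} (hε : 0 < ε) : ∃ q : ℕ, 4 ≤ q ∧ ∃ C : ℝ, 1 ≤ C ∧ ∀ n : ℕ, 1 ≤ n →
    ∀ P : ℝ, 1 ≤ P → PI n P → ∀ (ν : Measure (E n)) [IsProbabilityMeasure ν] (K : Set (E n))
      (R : ℝ), Iso ν K R → ∀ t : ℝ, 0 ≤ t → t ≤ 8 / P →
        EX ν (√t) (fun p => trace (covM p ^ q)) ≤ (C * (n : ℝ) ^ ε) ^ q := by
  obtain ⟨k, hk⟩ := exists_nat_ge (6 / ε)
  set q := k + 4 with hq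
  set B : ℝ := 6 * (14 * 8 ^ (2 * (2 * q)) * (2 * (2 * q)).factorial) with hB
  have B1 : 1 ≤ B := by
    have a1 : (1 : ℝ) ≤ 8 ^ (2 * (2 * q)) := one_le_pow₀ (by norm_num)
    have a2 : (1 : ℝ) ≤ (2 * (2 * q)).factorial := by exact_mod_cast Nat.factorial_pos _
    nlinarith
  obtain ⟨m, hm⟩ : ∃ m, m + 2 = q ^ 2 * (2 * q + 1) :=
    ⟨q ^ 2 * (2 * q + 1) - 2, Nat.sub_add_cancel (by rw [hq]; nlinarith)⟩
  set c : ℝ := (((m + 2).choose 2 : ℕ) : ℝ) with hc
  have c1 : 1 ≤ c := by rw [hc]; exact_mod_cast Nat.choose_pos (by omega)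
  have cB : 1 ≤ 8 * c * B ^ 2 := by nlinarith [one_le_pow₀ (n := 2) B1]
  refine ⟨q, by omega, 3 * (8 * c * B ^ 2) ^ (2 * q) * B, ?_, fun n hn P P1 hP ν _ K R h t t0 t1 =>
    ?_⟩
  · nlinarith [one_le_pow₀ (n := 2 * q) cB]
  have n1 : (1 : ℝ) ≤ n := by exact_mod_cast hn
  have q0 : (0 : ℝ) < q := by rw [hq]; positivity
  set w : ℝ := (n : ℝ) ^ (1 / (q : ℝ) ^ 2) with hw
  have w1 : 1 ≤ w := Real.one_le_rpow n1 (by positivity)
  have w2 : w ^ (q ^ 2) = n := by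
    rw [hw, ← Real.rpow_natCast, ← Real.rpow_mul (by linarith)]
    push_cast
    rw [one_div_mul_cancel (by positivity), Real.rpow_one]
  have w3 : w ^ (6 * q) ≤ (n : ℝ) ^ ε := by
    rw [hw, ← Real.rpow_natCast, ← Real.rpow_mul (by linarith)]
    refine Real.rpow_le_rpow_of_exponent_le n1 ?_
    have : 6 / ε ≤ q := by rw [hq]; push_cast; linarith
    rw [div_le_iff₀ hε] at this
    push_cast
    rw [show 1 / (q : ℝ) ^ 2 * (6 * q) = 6 / q by field_simp, div_le_iff₀ q0]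
    linarith
  have l1 : 1 ≤ B * w := one_le_mul_of_one_le_of_one_le B1 w1
  have hl : B * (n : ℝ) ^ (2 * q + 1) ≤ (B * w) ^ (m + 2) := by
    rw [mul_pow, hm, pow_mul w, w2]
    gcongr
    exact le_self_pow₀ B1 (by omega)
  have early : ∀ s, 0 ≤ s → c * (P * (B * w) ^ 2) * s ≤ 1 →
      EX ν (√s) (fun p => trace (covM p ^ q)) ≤ 3 * n * (B * w) ^ q := fun s s0 s1 =>
    phase_early hn h (by linarith) (fun t θ t0 => hP.tilt h t0 θ) l1 m (k + 3) hl s0 s1
  set a := 1 / (c * (P * (B * w) ^ 2)) with ha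
  have d0 : 0 < c * (P * (B * w) ^ 2) := by positivity
  have a0 : 0 < a := by positivity
  have u1 : 1 ≤ 8 * c * B ^ 2 * w ^ 2 := one_le_mul_of_one_le_of_one_le cB (one_le_pow₀ w1)
  have main : EX ν (√t) (fun p => trace (covM p ^ q)) ≤
      (8 * c * B ^ 2 * w ^ 2) ^ (2 * q * q) * (3 * n * (B * w) ^ q) := by
    rcases le_total t a with h1 | h1
    · refine (early t t0 ?_).trans (le_mul_of_one_le_left (by positivity) (one_le_pow₀ u1))
      rwa [ha, le_div_iff₀' d0] at h1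
    · refine (phase_late h.lc h.bd a0 h1 (k + 1)).trans ?_
      have b1 : t / a ≤ 8 * c * B ^ 2 * w ^ 2 := by
        rw [le_div_iff₀ (by linarith)] at t1
        rw [ha, div_div_eq_mul_div, div_one]
        calc _ = t * P * (c * B ^ 2 * w ^ 2) := by ring
          _ ≤ 8 * (c * B ^ 2 * w ^ 2) := by gcongr
          _ = _ := by ring
      have b2 : 4 * (k + 1 + 3).choose 2 ≤ 2 * q * q := by
        rw [Nat.choose_two_right]
        have := Nat.div_mul_le_self ((k + 1 + 3) * (k + 1 + 3 - 1)) 2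
        have e : k + 1 + 3 - 1 = k + 3 := by omega
        rw [e] at this ⊢
        rw [hq]
        nlinarith
      refine mul_le_mul ((pow_le_pow_left₀ (by positivity) b1 _).trans (pow_le_pow_right₀ u1 b2))
        (early a a0.le (by rw [ha, mul_one_div_cancel d0.ne'])) (EX_nonneg h.bd fun θ => ?_)
        (by positivity)
      have := h.bd.tilt_prob (√a ^ 2) θ
      exact (h.bd.tilt _ θ).trace_nonneg _
  refine main.trans ?_
  have f1 : (3 : ℝ) ≤ 3 ^ q := le_self_pow₀ (by norm_num) (by omega)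
  have f2 : w ^ (5 * q + 1) ≤ (n : ℝ) ^ ε := (pow_le_pow_right₀ w1 (by omega)).trans w3
  calc _ = 3 * ((8 * c * B ^ 2) ^ (2 * q) * B * w ^ (5 * q + 1)) ^ q := by
        rw [← w2]
        simp only [mul_pow, ← pow_mul]
        ring
    _ ≤ 3 ^ q * ((8 * c * B ^ 2) ^ (2 * q) * B * (n : ℝ) ^ ε) ^ q := by gcongr
    _ = _ := by rw [← mul_pow]; congr 1; ring

/-- A regular majorant of the largest eigenvalue with a fourth moment bound. -/
theorem lam_of_trace [IsProbabilityMeasure μ] (hR : Bd μ R) {q : ℕ} (hq : 4 ≤ q) :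
    ∃ Λ : Measure (E n) → ℝ, Reg μ Λ ∧ (∀ t θ, 1 ≤ Λ (tilt μ t θ)) ∧
      (∀ t θ (v : Fin n → ℝ), ∑ i, ∑ j, v i * covM (tilt μ t θ) i j * v j ≤
        Λ (tilt μ t θ) * ∑ i, v i ^ 2) ∧
      ∀ s M : ℝ, 1 ≤ M → EX μ s (fun p => trace (covM p ^ q)) ≤ M ^ q →
        EX μ s (fun p => Λ p ^ 4) ≤ 3 * M ^ 4 := by
  have q0 : q ≠ 0 := by omega
  have nn : ∀ t θ, 0 ≤ trace (covM (tilt μ t θ) ^ q) := fun t θ => by
    have := hR.tilt_prob t θ
    exact (hR.tilt t θ).trace_nonneg _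
  have rg : Reg μ fun p => (1 + trace (covM p ^ q)) ^ ((q : ℝ)⁻¹) :=
    (reg_trace hR q).comp (φ := fun y => (1 + y) ^ ((q : ℝ)⁻¹))
      ((Real.continuous_rpow_const (by positivity)).comp (by fun_prop))
  have e : ∀ t θ, ((1 + trace (covM (tilt μ t θ) ^ q)) ^ ((q : ℝ)⁻¹)) ^ q =
      1 + trace (covM (tilt μ t θ) ^ q) := fun t θ =>
    Real.rpow_inv_natCast_pow (by linarith [nn t θ]) q0
  have o : ∀ t θ, 1 ≤ (1 + trace (covM (tilt μ t θ) ^ q)) ^ ((q : ℝ)⁻¹) := fun t θ =>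
    Real.one_le_rpow (by linarith [nn t θ]) (by positivity)
  refine ⟨_, rg, o, fun t θ => ?_, fun s M M1 h => ?_⟩
  · have := hR.tilt_prob t θ
    obtain ⟨d, hd, e1, e2⟩ := (hR.tilt t θ).eig
    refine e2 _ fun i => le_of_pow_le_pow_left₀ q0 (zero_le_one.trans (o t θ)) ?_
    rw [e, e1]
    linarith [Finset.single_le_sum (f := fun i => d i ^ q) (fun i _ => pow_nonneg (hd i) _)
      (Finset.mem_univ i)]
  · obtain ⟨r, rfl⟩ := Nat.exists_eq_add_of_le hq
    have M0 : 0 < M ^ r := by positivity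
    have r1 := (reg_const (μ := μ) 1).add (reg_trace hR (4 + r))
    have a1 := EX_mono hR ((rg.pow 4).ei hR s)
      (((reg_const (M ^ 4)).add (r1.const_mul (M ^ r)⁻¹)).ei hR s) fun θ => by
        have o1 := o (s ^ 2) θ
        have e1 := e (s ^ 2) θ
        generalize (1 + trace (covM (tilt μ (s ^ 2) θ) ^ (4 + r))) ^ (((4 + r : ℕ) : ℝ)⁻¹) = y
          at o1 e1 ⊢
        rw [← e1]
        rcases le_total y M with h1 | h1
        · exact le_add_of_le_of_nonneg (by gcongr) (by positivity)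
        · refine le_add_of_nonneg_of_le (by positivity) ?_
          rw [← div_eq_inv_mul, le_div_iff₀ M0, pow_add]
          gcongr
    rw [EX_add ((reg_const _).ei hR _) ((r1.const_mul _).ei hR _), EX_const hR, EX_const_mul,
      EX_add ((reg_const _).ei hR _) ((reg_trace hR _).ei hR _), EX_const hR] at a1
    have a2 : (M ^ r)⁻¹ * (1 + EX μ s fun p => trace (covM p ^ (4 + r))) ≤ 2 * M ^ 4 := by
      rw [← div_eq_inv_mul, div_le_iff₀ M0, mul_assoc, ← pow_add]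
      linarith [one_le_pow₀ (n := 4 + r) M1]
    linarith

theorem phase_lam {ε : ℝ} (hε : 0 < ε) : ∃ C : ℝ, 1 ≤ C ∧ ∀ n : ℕ, 1 ≤ n →
    ∀ P : ℝ, 1 ≤ P → PI n P → ∀ (ν : Measure (E n)) [IsProbabilityMeasure ν] (K : Set (E n))
      (R : ℝ), Iso ν K R → ∃ Λ : Measure (E n) → ℝ, Reg ν Λ ∧ (∀ t θ, 1 ≤ Λ (tilt ν t θ)) ∧
        (∀ t θ (v : Fin n → ℝ), ∑ i, ∑ j, v i * covM (tilt ν t θ) i j * v j ≤
          Λ (tilt ν t θ) * ∑ i, v i ^ 2) ∧
        ∀ t : ℝ, 0 ≤ t → t ≤ 8 / P → EX ν (√t) (fun p => Λ p ^ 4) ≤ (C * (n : ℝ) ^ ε) ^ 4 := by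
  obtain ⟨q, q4, C, C1, h⟩ := phase hε
  refine ⟨2 * C, by linarith, fun n hn P P1 hP ν _ K R hI => ?_⟩
  obtain ⟨Λ, h1, h2, h3, h4⟩ := lam_of_trace hI.bd q4
  refine ⟨Λ, h1, h2, h3, fun t t0 t1 => ?_⟩
  have M1 : 1 ≤ C * (n : ℝ) ^ ε :=
    one_le_mul_of_one_le_of_one_le C1 (Real.one_le_rpow (by exact_mod_cast hn) hε.le)
  refine (h4 _ _ M1 (h n hn P P1 hP ν K R hI t t0 t1)).trans ?_
  rw [mul_assoc, mul_pow 2]
  gcongr
  norm_num

end Pool.Agent.Lib.MP_fedf83_gt.P
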