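import Pool.Agent.Lib.MP_fedf83_gt.KShell
import Pool.Agent.Lib.MP_fedf83_gt.LLower
import Pool.Agent.Lib.MP_fedf83_gt.LLam
import Pool.Agent.Lib.MP_fedf83_gt.LNoise
import Pool.Agent.Lib.MP_fedf83_gt.LPart
import Pool.Agent.Lib.MP_fedf83_gt.LPhase

/-! The lower bound in fixed codimension from the existence of axes. -/

namespace Pool.Agent.Lib.MP_fedf83_gt.FL

open MeasureTheory Set Module Pool.Agent.Lib.MP_fedf83_gt.B Pool.Agent.Lib.MP_fedf83_gt.P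
open scoped ENNReal RealInnerProductSpace

theorem pi_np (δ : ℝ) (d0 : 0 < δ) :
    (∃ C : ℝ, ∀ n : ℕ, 1 ≤ n → PI n (C * (n : ℝ) ^ δ)) ∧
      ∃ C : ℝ, 1 ≤ C ∧ ∀ n : ℕ, 1 ≤ n → NP n (C * (n : ℝ) ^ δ) := by
  have pw : ∀ (n m : ℕ) (δ : ℝ), 1 ≤ n → 0 < m → ((n : ℝ) ^ (δ / m)) ^ m = (n : ℝ) ^ δ :=
    fun n m δ _ hm => by
      have m0 : (m : ℝ) ≠ 0 := by exact_mod_cast hm.ne'
      rw [← Real.rpow_natCast, ← Real.rpow_mul (Nat.cast_nonneg n), div_mul_cancel₀ _ m0]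
  have one : ∀ (n : ℕ) (C δ : ℝ), 1 ≤ n → 1 ≤ C → 0 < δ → 1 ≤ C * (n : ℝ) ^ δ :=
    fun n C δ hn C1 d0 => one_le_mul_of_one_le_of_one_le C1
      (Real.one_le_rpow (by exact_mod_cast hn) d0.le)
  have hL : LamSt := fun _ _ _ _ _ iso _ _ _ hq M1 h => lam_of_phase iso.bd hq M1 h
  have hN : NoiseSt :=
    fun _ _ _ _ _ iso hn J hJ _ _ _ T0 B0 hm hΨ => noise iso hn J hJ T0 B0 hm hΨ
  have hP : PartSt := fun _ _ _ _ _ iso J hJ _ _ s0 s1 hΨ hA => partner iso J hJ s0 s1 hΨ hA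
  constructor
  · obtain ⟨q, hq, C, C1, h⟩ := phase (ε := δ / (3 : ℕ)) (by positivity)
    refine ⟨10 ^ 8 * C ^ 3, fun n hn => ?_⟩
    have := boot hn hq (one n C _ hn C1 (by positivity)) (h n hn)
    rwa [mul_pow, pw n 3 δ hn (by norm_num), ← mul_assoc] at this
  · obtain ⟨q, hq, C, C1, h⟩ := phase (ε := δ / (7 : ℕ)) (by positivity)
    have c7 : 1 ≤ C ^ 7 := one_le_pow₀ C1
    refine ⟨4 * 10 ^ 10 * C ^ 7, by linarith, fun n hn => ?_⟩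
    have := np_of hL hN hP hn hq (one n C _ hn C1 (by positivity)) (h n hn)
    rwa [mul_pow, pw n 7 δ hn (by norm_num), ← mul_assoc] at this

/-- The two inputs of the shell argument hold with constants of size a small power of `n`. -/
theorem hp_hd (ε : ℝ) (e0 : 0 < ε) : ∃ C : ℝ, 0 < C ∧ ∀ n : ℕ, 1 ≤ n → ∃ P L : ℝ,
    0 < P ∧ 0 < L ∧ HP n P ∧ HD n L ∧
      L * (P * (1 + Real.log n)) ^ (1 / 4 : ℝ) ≤ C * (n : ℝ) ^ ε := by
  obtain ⟨C0, C00, hl⟩ := levels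
  have d0 : 0 < ε / 7 := by linarith
  obtain ⟨⟨C1, h1⟩, C2, C21, h2⟩ := pi_np _ d0
  set D : ℝ := 1 + 1 / (ε / 7) with hD
  have D1 : 1 ≤ D := by
    have : 0 < 1 / (ε / 7) := by positivity
    linarith
  set A : ℝ := max C1 1 with hA
  have A1 : 1 ≤ A := le_max_right _ _
  refine ⟨C0 * C2 ^ 3 * D ^ 3 * A, by positivity, fun n hn => ?_⟩
  have n1 : (1 : ℝ) ≤ n := by exact_mod_cast hn
  have n0 : (0 : ℝ) < n := by linarith
  set y : ℝ := (n : ℝ) ^ (ε / 7) with hy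
  have y1 : 1 ≤ y := Real.one_le_rpow n1 d0.le
  have l0 := Real.log_nonneg n1
  have lg : 1 + Real.log n ≤ D * y := one_add_log_le n1 d0
  have Ψ1 : 1 ≤ C2 * y := one_le_mul_of_one_le_of_one_le C21 y1
  have hP : HP n (A * y) :=
    ((h1 n hn).mono (mul_le_mul_of_nonneg_right (le_max_left _ _) (by linarith))).hp
  have hH : HD n (C0 * (C2 * y) ^ 3 * (1 + Real.log n) ^ 2) := fun μ _ K R iso J hJ =>
    hl n hn μ K R iso J hJ _ Ψ1 (h2 n hn μ K R iso J hJ).1 (h2 n hn μ K R iso J hJ).2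
  refine ⟨_, _, by positivity, by positivity, hP, hH, ?_⟩
  have q1 : 1 ≤ A * y * (1 + Real.log n) :=
    one_le_mul_of_one_le_of_one_le (one_le_mul_of_one_le_of_one_le A1 y1) (by linarith)
  have q2 : (A * y * (1 + Real.log n)) ^ (1 / 4 : ℝ) ≤ A * y * (D * y) :=
    (Real.rpow_le_self_of_one_le q1 (by norm_num)).trans
      (mul_le_mul_of_nonneg_left lg (by positivity))
  have q3 : (n : ℝ) ^ ε = y ^ 7 := by
    rw [hy, ← Real.rpow_natCast, ← Real.rpow_mul n0.le]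
    congr 1
    push_cast
    ring
  have q4 : (1 + Real.log n) ^ 2 ≤ (D * y) ^ 2 := pow_le_pow_left₀ (by linarith) lg 2
  rw [q3]
  calc (C0 * (C2 * y) ^ 3 * (1 + Real.log n) ^ 2) * (A * y * (1 + Real.log n)) ^ (1 / 4 : ℝ)
      ≤ (C0 * (C2 * y) ^ 3 * (D * y) ^ 2) * (A * y * (D * y)) := by gcongr
    _ = _ := by ring

/-- The lower bound in codimension `k`, from the axes. -/
theorem lower_of_axes {k : ℕ} (hk : 2 ≤ k) {A Γ : ℝ} (A0 : 0 < A) (Γ0 : 0 < Γ)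
    (hax : ∀ n : ℕ, k ≤ n → Axes n k A Γ) (ε : ℝ) (e0 : 0 < ε) :
    ∃ a : ℝ, 0 < a ∧ ∀ n : ℕ, k ≤ n →
      ENNReal.ofReal (a / (n : ℝ) ^ ((k : ℝ) - 1 / 2 + ε)) ≤ cst n (n - k) := by
  obtain ⟨C, C0, h⟩ := hp_hd (ε / 2) (by linarith)
  set V : ℝ := (volume (Metric.closedBall (0 : E k) 1)).toReal with hV
  have V0 : 0 < V := ENNReal.toReal_pos
    (Metric.measure_closedBall_pos _ _ one_pos).ne' measure_closedBall_lt_top.ne
  have k0 : (0 : ℝ) < k := by exact_mod_cast (by omega : 0 < k)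
  refine ⟨1 / (2 * Γ * (k * (4 * A) ^ (k - 2) * (2 ^ 9 * C * A) ^ 2 * V)), by positivity,
    fun n hn => ?_⟩
  have hn1 : 1 ≤ n := by omega
  obtain ⟨P, L, P0, L0, hP, hL, hb⟩ := h n hn1
  have n1 : (1 : ℝ) ≤ n := by exact_mod_cast hn1
  have n0 : (0 : ℝ) < n := by linarith
  have l0 := Real.log_nonneg n1
  refine le_trans (ENNReal.ofReal_le_ofReal ?_) (lower_k hk hn P0 L0 A0 Γ0 hP hL (hax n hn))
  have q : (n : ℝ) ^ ((k : ℝ) - 1 / 2 + ε) =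
      (n : ℝ) ^ (k - 2) * ((n : ℝ) ^ (ε / 2) * (n : ℝ) ^ (3 / 4 : ℝ)) ^ 2 := by
    rw [← Real.rpow_add n0, ← Real.rpow_natCast, ← Real.rpow_natCast, ← Real.rpow_mul n0.le,
      ← Real.rpow_add n0, Nat.cast_sub hk]
    congr 1
    push_cast
    ring
  rw [div_div, q]
  refine one_div_le_one_div_of_le (by positivity) ?_
  have hb2 : 2 ^ 9 * L * ((P * (1 + Real.log n)) ^ (1 / 4 : ℝ) * (n : ℝ) ^ (3 / 4 : ℝ)) * A ≤
      2 ^ 9 * (C * (n : ℝ) ^ (ε / 2)) * (n : ℝ) ^ (3 / 4 : ℝ) * A := by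
    calc _ = 2 ^ 9 * (L * (P * (1 + Real.log n)) ^ (1 / 4 : ℝ)) * (n : ℝ) ^ (3 / 4 : ℝ) * A := by
          ring
      _ ≤ _ := by gcongr
  calc 2 * Γ * (k * (4 * n * A) ^ (k - 2) *
        (2 ^ 9 * L * ((P * (1 + Real.log n)) ^ (1 / 4 : ℝ) * (n : ℝ) ^ (3 / 4 : ℝ)) * A) ^ 2 * V)
      ≤ 2 * Γ * (k * (4 * n * A) ^ (k - 2) *
        (2 ^ 9 * (C * (n : ℝ) ^ (ε / 2)) * (n : ℝ) ^ (3 / 4 : ℝ) * A) ^ 2 * V) := by gcongr
    _ = _ := by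
      rw [show 4 * (n : ℝ) * A = 4 * A * n by ring, mul_pow (4 * A)]
      ring

end Pool.Agent.Lib.MP_fedf83_gt.FL
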