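import Pool.Agent.Lib.MP_fedf83_gt.PCov
import Pool.Agent.Lib.MP_fedf83_gt.BThin
import Pool.Agent.Lib.MP_fedf83_gt.Frac

namespace Pool.Agent.Lib.MP_fedf83_gt.U

open MeasureTheory Set Module Pool.Agent.Lib.MP_fedf83_gt.B
open scoped ENNReal RealInnerProductSpace

variable {n : ℕ}

/-- A finite family of cylinders covering `S` at cost `c`. -/
def Cov (S : Set (E n)) (c : ℝ≥0∞) : Prop :=
  ∃ (I : Type) (_ : Fintype I) (v : I → E n) (C : I → Set (E n)), (∀ i, ‖v i‖ = 1) ∧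
    (∀ i, MeasurableSet (C i)) ∧ (∀ x ∈ S, ∃ i, 1 ≤ volume {t : ℝ | x + t • v i ∈ C i}) ∧
    ∑ i, volume (C i) ≤ c

theorem Cov.mono {S : Set (E n)} {c d : ℝ≥0∞} (h : Cov S c) (hcd : c ≤ d) : Cov S d := by
  obtain ⟨I, hI, v, C, h1, h2, h3, h4⟩ := h
  exact ⟨I, hI, v, C, h1, h2, h3, h4.trans hcd⟩

theorem cst_le_of_cov {K : Set (E n)} (hK : IsBody K) {c ε : ℝ≥0∞} (hε : ε ≠ 0)
    (h : Cov K c) : cst n (n - 1) ≤ (c + ε) / sigma (n - 1) K := by
  obtain ⟨I, hI, v, C, h1, h2, h3, h4⟩ := h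
  obtain ⟨R, hR⟩ := hK.1.isBounded.subset_ball 0
  obtain ⟨η, hη0, hη⟩ := ENNReal.exists_pos_sum_of_countable hε I
  have hv0 : ∀ i, v i ≠ 0 := fun i h => by simpa [h] using h1 i
  let L : I → Submodule ℝ (E n) := fun i => (ℝ ∙ v i)ᗮ
  let Z : I → Set (E n) := fun i => {x | x ∈ K ∧ 1 ≤ volume {t : ℝ | x + t • v i ∈ C i}}
  have hZ : ∀ i, volume ((L i).orthogonalProjectionOnto '' Z i) ≤ volume (C i) := by
    intro i
    have a1 : v i ∈ (L i)ᗮ :=
      Submodule.le_orthogonal_orthogonal _ (Submodule.mem_span_singleton_self (v i))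
    have a2 : finrank ℝ (L i)ᗮ = 1 := by
      simp only [L]
      rw [Submodule.orthogonal_orthogonal, finrank_span_singleton (hv0 i)]
    have := proj_le (L i) (hv0 i) a1 a2 (K := Z i) (h2 i) 1 (fun x hx => hx.2)
    rwa [← ofReal_norm, h1 i, ENNReal.ofReal_one, one_mul, one_mul] at this
  have hb := fun i : I => Besicovitch.exists_closedBall_covering_tsum_measure_le
    (volume : Measure (L i)) (ε := η i) (by simpa using (hη0 i).ne') (fun _ => Ioi (0:ℝ))
    ((L i).orthogonalProjectionOnto '' Z i)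
    (fun _ _ δ hδ => ⟨δ / 2, by simpa using hδ, by linarith, by linarith⟩)
  choose t r htc hts hr hcov hsum using hb
  have : ∀ i, Countable (t i) := fun i => (htc i).to_subtype
  let F : (Σ i, t i) → Set (E n) := fun p =>
    (L p.1).orthogonalProjectionOnto ⁻¹' Metric.closedBall (p.2 : L p.1) (r p.1 p.2) ∩
      Metric.closedBall 0 R
  have hF : ∀ p, IsBody (F p) := by
    rintro ⟨i, z, hz⟩
    obtain ⟨x, hx, rfl⟩ := hts i hz
    have hg : Continuous (L i).orthogonalProjectionOnto := (L i).orthogonalProjectionOnto.continuous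
    refine ⟨(isCompact_closedBall 0 R).inter_left (Metric.isClosed_closedBall.preimage hg),
      ((convex_closedBall _ _).linear_preimage
        ((L i).orthogonalProjectionOnto : E n →ₗ[ℝ] L i)).inter (convex_closedBall _ _), x, ?_⟩
    rw [mem_interior_iff_mem_nhds]
    exact Filter.inter_mem
      (hg.continuousAt.preimage_mem_nhds (Metric.closedBall_mem_nhds _ (hr i _ hz)))
      (Filter.mem_of_superset (Metric.isOpen_ball.mem_nhds (hR hx.1)) Metric.ball_subset_closedBall)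
  have hcover : K ⊆ ⋃ p, F p := by
    intro x hx
    obtain ⟨i, hi⟩ := h3 x hx
    obtain ⟨z, hz, hxz⟩ := mem_iUnion₂.1 (hcov i ⟨x, ⟨hx, hi⟩, rfl⟩)
    exact mem_iUnion.2 ⟨⟨i, z, hz⟩, hxz, Metric.ball_subset_closedBall (hR hx)⟩
  refine (cst_le_of_cover hK F hF hcover).trans (ENNReal.div_le_div_right ?_ _)
  calc ∑' p, sigma (n - 1) (F p)
      ≤ ∑' p : (Σ i, t i), volume (Metric.closedBall (p.2 : L p.1) (r p.1 p.2)) := by
        refine ENNReal.tsum_le_tsum (fun p => ?_)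
        refine le_trans (iInf₂_le (f := fun (L : Submodule ℝ (E n)) (_ : finrank ℝ L = n - 1) =>
          projVol L (F p)) (L p.1) (finrank_orth_span (hv0 p.1))) (measure_mono ?_)
        rintro _ ⟨y, hy, rfl⟩
        exact hy.1
    _ = ∑' i, ∑' z : t i, volume (Metric.closedBall (z : L i) (r i z)) := ENNReal.tsum_sigma' _
    _ ≤ ∑' i, (volume (C i) + η i) :=
        ENNReal.tsum_le_tsum (fun i => (hsum i).trans (add_le_add (hZ i) le_rfl))
    _ ≤ c + ε := by
        rw [ENNReal.tsum_add, tsum_fintype]; exact add_le_add h4 hη.le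

theorem cov_self (hn : 1 ≤ n) {K : Set (E n)} (hK : IsBody K) : Cov K (2 * sigma (n - 1) K) := by
  have h0 : sigma (n - 1) K ≠ 0 := fun h => by simpa [h] using sigma_toReal_pos hn hK
  have h1 : sigma (n - 1) K < 2 * sigma (n - 1) K := by
    rw [two_mul]
    exact ENNReal.lt_add_right (sigma_lt_top hn hK.1).ne h0
  obtain ⟨L, hL⟩ := iInf_lt_iff.1 h1
  obtain ⟨hL, h2⟩ := iInf_lt_iff.1 hL
  obtain ⟨a1, v, hv, hvL⟩ := exists_normal hn L hL
  refine ⟨Unit, inferInstance, fun _ => v, fun _ => B.slab L v K 1, fun _ => hv,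
    fun _ => B.measurableSet_slab L v hK.1 1, fun x hx => ⟨(), ?_⟩, ?_⟩
  · rw [slab_fiber L hv hvL 1 (mem_image_of_mem _ hx)]; simp
  · rw [Fintype.sum_unique, vol_slab L hv hvL a1 hK.1]
    simpa [projVol] using h2.le

theorem sigma_ge (hn : 1 ≤ n) {K : Set (E n)} (hK : IsBody K) {τ : ℝ} (hτ : 0 < τ)
    (h : ∀ d : E n, ‖d‖ = τ → volume {z | z ∈ K ∧ z - d ∈ K} ≤ 2⁻¹ * volume K) :
    volume K ≤ ENNReal.ofReal (2 * τ) * sigma (n - 1) K := by
  have key : volume K / ENNReal.ofReal (2 * τ) ≤ sigma (n - 1) K := by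
    refine le_iInf₂ fun L hL => ?_
    obtain ⟨a1, v, hv, hvL⟩ := exists_normal hn L hL
    have hv0 : v ≠ 0 := by rintro rfl; simp at hv
    have hm : MeasurableSet {z | z ∈ K ∧ z - τ • v ∉ K} :=
      hK.1.measurableSet.inter ((measurable_id.sub_const _) hK.1.measurableSet).compl
    have a2 := le_proj L hv0 hvL a1 (K := K) hm (ENNReal.ofReal τ)
      (fun x hx => ⟨x, hx.1, 0, by simp⟩) (fun x => by
        refine (Real.volume_le_diam _).trans (Metric.ediam_le_of_forall_dist_le ?_)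
        have aux : ∀ s ∈ {t : ℝ | x + t • v ∈ {z | z ∈ K ∧ z - τ • v ∉ K}},
            ∀ t ∈ {t : ℝ | x + t • v ∈ {z | z ∈ K ∧ z - τ • v ∉ K}}, t - s ≤ τ := by
          intro s hs t ht
          by_contra hc
          push Not at hc
          have hp : 0 < t - s := hτ.trans hc
          apply ht.2
          have := hK.2.1 hs.1 ht.1 (show 0 ≤ τ / (t - s) by positivity)
            (show 0 ≤ 1 - τ / (t - s) by rw [sub_nonneg, div_le_one hp]; exact hc.le) (by ring)
          convert this using 1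
          have e : τ = τ / (t - s) * (t - s) := by field_simp
          conv_lhs => rw [e]
          module
        intro s hs t ht
        rw [Real.dist_eq, abs_le]
        constructor <;> linarith [aux s hs t ht, aux t ht s hs])
    rw [← ofReal_norm, hv, ENNReal.ofReal_one, one_mul] at a2
    have a3 : volume K ≤ 2⁻¹ * volume K +
        ENNReal.ofReal τ * volume (L.orthogonalProjectionOnto '' K) := by
      refine le_trans (measure_mono (t := {z | z ∈ K ∧ z - τ • v ∈ K} ∪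
        {z | z ∈ K ∧ z - τ • v ∉ K}) (fun z hz => ?_)) ((measure_union_le _ _).trans
          (add_le_add (h _ (by rw [norm_smul, hv, mul_one, Real.norm_of_nonneg hτ.le])) a2))
      by_cases hh : z - τ • v ∈ K
      exacts [Or.inl ⟨hz, hh⟩, Or.inr ⟨hz, hh⟩]
    have a4 : 2⁻¹ * volume K ≤ ENNReal.ofReal τ * volume (L.orthogonalProjectionOnto '' K) := by
      have e : volume K = 2⁻¹ * volume K + 2⁻¹ * volume K := by
        rw [← add_mul, ENNReal.inv_two_add_inv_two, one_mul]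
      nth_rewrite 1 [e] at a3
      exact (ENNReal.add_le_add_iff_left
        (ENNReal.mul_ne_top (by simp) hK.1.measure_ne_top)).1 a3
    refine ENNReal.div_le_of_le_mul' ?_
    calc volume K = 2 * (2⁻¹ * volume K) := by
          rw [← mul_assoc, ENNReal.mul_inv_cancel (by simp) (by simp), one_mul]
      _ ≤ 2 * (ENNReal.ofReal τ * volume (L.orthogonalProjectionOnto '' K)) := by gcongr
      _ = _ := by rw [ENNReal.ofReal_mul (by norm_num), ENNReal.ofReal_ofNat, mul_assoc]; rfl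
  rwa [ENNReal.div_le_iff' (by simpa using hτ) ENNReal.ofReal_ne_top] at key

theorem round_all' {X J : Type} [MeasurableSpace X] [DecidableEq J] (μ : J → Measure X)
    (ν : Measure X) [∀ j, SFinite (μ j)]
    [SFinite ν] (H : J → X → ℝ≥0∞) (hH : ∀ j, Measurable (H j)) (s : Finset J) :
    ∀ g : X → ℝ≥0∞, Measurable g → ∃ r : J → ℝ,
      ∑ j ∈ s, μ j {x | ENNReal.ofReal (r j) ≤ H j x} +
      ∫⁻ x, {x | ∀ j ∈ s, H j x < ENNReal.ofReal (r j)}.indicator g x ∂ν ≤
        ∑ j ∈ s, ∫⁻ x, H j x ∂μ j + ∫⁻ x, g x * ∏ j ∈ s, (1 - H j x) ∂ν := by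
  induction s using Finset.induction_on with
  | empty => intro g _; exact ⟨fun _ => 0, by simp⟩
  | insert a s ha ih =>
    intro g hg
    have hp : Measurable (fun x => ∏ j ∈ s, (1 - H j x)) :=
      Finset.measurable_prod _ (fun j _ => measurable_const.sub (hH j))
    obtain ⟨r0, h0⟩ := round_one (μ a) ν (H a) (fun x => g x * ∏ j ∈ s, (1 - H j x)) (hH a)
      (hg.mul hp)
    obtain ⟨r, hr⟩ := ih ({x | H a x < ENNReal.ofReal r0}.indicator g)
      (hg.indicator (measurableSet_lt (hH a) measurable_const))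
    refine ⟨Function.update r a r0, ?_⟩
    have hu : ∀ j ∈ s, Function.update r a r0 j = r j := fun j hj =>
      Function.update_of_ne (by rintro rfl; exact ha hj) _ _
    rw [Finset.sum_insert ha, Finset.sum_insert ha, Function.update_self,
      Finset.sum_congr rfl (fun j hj => by rw [hu j hj])]
    have e1 : ∀ x,
        {x | ∀ j ∈ insert a s, H j x < ENNReal.ofReal (Function.update r a r0 j)}.indicator
        g x = {x | ∀ j ∈ s, H j x < ENNReal.ofReal (r j)}.indicator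
          ({x | H a x < ENNReal.ofReal r0}.indicator g) x := by
      intro x
      rw [indicator_indicator]
      congr 1
      ext x
      simp only [Finset.forall_mem_insert, Function.update_self, mem_ofPred_eq, mem_inter_iff]
      rw [and_comm]
      refine and_congr_left (fun _ => forall₂_congr (fun j hj => by rw [hu j hj]))
    have e2 : ∀ x, {x | H a x < ENNReal.ofReal r0}.indicator g x * ∏ j ∈ s, (1 - H j x) =
        {x | H a x < ENNReal.ofReal r0}.indicator (fun x => g x * ∏ j ∈ s, (1 - H j x)) x := by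
      intro x; rw [indicator_mul_left]
    have e3 : ∀ x, g x * ∏ j ∈ insert a s, (1 - H j x) =
        g x * (∏ j ∈ s, (1 - H j x)) * (1 - H a x) := by
      intro x; rw [Finset.prod_insert ha]; ring
    simp only [e1, e3]
    simp only [e2] at hr
    calc _ = μ a {x | ENNReal.ofReal r0 ≤ H a x} +
          (∑ j ∈ s, μ j {x | ENNReal.ofReal (r j) ≤ H j x} +
          ∫⁻ x, {x | ∀ j ∈ s, H j x < ENNReal.ofReal (r j)}.indicator
          ({x | H a x < ENNReal.ofReal r0}.indicator g) x ∂ν) := by rw [add_assoc]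
      _ ≤ μ a {x | ENNReal.ofReal r0 ≤ H a x} + (∑ j ∈ s, ∫⁻ x, H j x ∂μ j +
          ∫⁻ x, {x | H a x < ENNReal.ofReal r0}.indicator
            (fun x => g x * ∏ j ∈ s, (1 - H j x)) x ∂ν) := add_le_add le_rfl hr
      _ = ∑ j ∈ s, ∫⁻ x, H j x ∂μ j + (μ a {x | ENNReal.ofReal r0 ≤ H a x} +
          ∫⁻ x, {x | H a x < ENNReal.ofReal r0}.indicator
            (fun x => g x * ∏ j ∈ s, (1 - H j x)) x ∂ν) := by ring
      _ ≤ ∑ j ∈ s, ∫⁻ x, H j x ∂μ j + (∫⁻ x, H a x ∂μ a +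
          ∫⁻ x, g x * (∏ j ∈ s, (1 - H j x)) * (1 - H a x) ∂ν) := add_le_add le_rfl h0
      _ = _ := by ring

/-- A slab orthogonal to `u`. -/
def band (u : E n) (b D : ℝ) : Set (E n) := {x | ⟪u, x⟫ ∈ Icc b (b + D)}

theorem measurableSet_band (u : E n) (b D : ℝ) : MeasurableSet (band u b D) :=
  (by fun_prop : Continuous fun x : E n => ⟪u, x⟫).measurable measurableSet_Icc

theorem band_cost (P : E n → ℝ≥0∞) (hP : Measurable P) {w : E n} (hw : w ≠ 0) (b D : ℝ) :
    ∫⁻ x in band (‖w‖⁻¹ • w) b D, ∫⁻ t : ℝ, P (x + t • w) =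
      ENNReal.ofReal D * ((∫⁻ x, P x) / ‖w‖ₑ) := by
  set S := band (‖w‖⁻¹ • w) b D with hS
  have hs : MeasurableSet S := measurableSet_band _ _ _
  have hd : 0 < ‖w‖ := norm_pos_iff.2 hw
  have hi : Measurable (S.indicator (1 : E n → ℝ≥0∞)) := measurable_one.indicator hs
  have m1 : Measurable (fun p : E n × ℝ =>
      S.indicator (1 : E n → ℝ≥0∞) p.1 * P (p.1 + p.2 • w)) :=
    (hi.comp measurable_fst).mul (hP.comp (by fun_prop))
  have m2 : Measurable (fun p : ℝ × E n =>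
      S.indicator (1 : E n → ℝ≥0∞) (p.2 - p.1 • w) * P p.2) :=
    (hi.comp (by fun_prop)).mul (hP.comp measurable_snd)
  calc ∫⁻ x in S, ∫⁻ t : ℝ, P (x + t • w)
      = ∫⁻ x, ∫⁻ t : ℝ, S.indicator (1 : E n → ℝ≥0∞) x * P (x + t • w) := by
        rw [← lintegral_indicator hs]
        refine lintegral_congr (fun x => ?_)
        by_cases hx : x ∈ S <;> simp [hx]
    _ = ∫⁻ t : ℝ, ∫⁻ x, S.indicator (1 : E n → ℝ≥0∞) x * P (x + t • w) :=
        lintegral_lintegral_swap m1.aemeasurable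
    _ = ∫⁻ t : ℝ, ∫⁻ y, S.indicator (1 : E n → ℝ≥0∞) (y - t • w) * P y := by
        refine lintegral_congr (fun t => ?_)
        rw [← lintegral_add_right_eq_self
          (fun y => S.indicator (1 : E n → ℝ≥0∞) (y - t • w) * P y) (t • w)]
        simp
    _ = ∫⁻ y, ∫⁻ t : ℝ, S.indicator (1 : E n → ℝ≥0∞) (y - t • w) * P y :=
        lintegral_lintegral_swap m2.aemeasurable
    _ = ∫⁻ y, P y * ENNReal.ofReal (D / ‖w‖) := by
        refine lintegral_congr (fun y => ?_)
        set c := ⟪‖w‖⁻¹ • w, y⟫ with hc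
        have e : (fun t : ℝ => S.indicator (1 : E n → ℝ≥0∞) (y - t • w) * P y) =
            (Icc ((c - b - D) / ‖w‖) ((c - b) / ‖w‖)).indicator (fun _ => P y) := by
          funext t
          have e0 : ⟪‖w‖⁻¹ • w, y - t • w⟫ = c - t * ‖w‖ := by
            rw [inner_sub_right, ← hc, inner_smul_right, inner_smul_left,
              real_inner_self_eq_norm_sq]
            simp only [conj_trivial]
            field_simp
          have : y - t • w ∈ S ↔ t ∈ Icc ((c - b - D) / ‖w‖) ((c - b) / ‖w‖) := by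
            simp only [hS, band, mem_ofPred_eq, mem_Icc, e0, div_le_iff₀ hd, le_div_iff₀ hd]
            constructor <;> rintro ⟨h1, h2⟩ <;> constructor <;> linarith
          by_cases ht : y - t • w ∈ S
          · rw [indicator_of_mem ht, indicator_of_mem (this.1 ht)]; simp
          · rw [indicator_of_notMem ht, indicator_of_notMem (fun h => ht (this.2 h))]; simp
        rw [e, lintegral_indicator measurableSet_Icc, setLIntegral_const, Real.volume_Icc]
        congr 2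
        field_simp
        ring
    _ = _ := by
        rw [lintegral_mul_const _ hP, ENNReal.ofReal_div_of_pos hd, ofReal_norm, div_eq_mul_inv,
          div_eq_mul_inv]
        ring

theorem half_min (p S : ℝ≥0∞) (h : p * (1 + S) ≤ 1) : p + 2⁻¹ * min 1 S ≤ 1 := by
  have hm1 : min 1 S ≤ 1 := min_le_left _ _
  have h2 : p * (1 + min 1 S) ≤ 1 :=
    le_trans (by gcongr; exact min_le_right _ _) h
  have hp : p ≤ 1 := le_trans (le_mul_of_one_le_right' le_self_add) h
  generalize min 1 S = m at hm1 h2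
  lift p to NNReal using (hp.trans_lt (by simp)).ne
  lift m to NNReal using (hm1.trans_lt (by simp)).ne
  have a1 : (m : ℝ) ≤ 1 := by exact_mod_cast hm1
  have a2 : (p : ℝ) * (1 + m) ≤ 1 := by exact_mod_cast h2
  have a3 : (0 : ℝ) ≤ m := m.2
  have a4 : (0 : ℝ) ≤ p := p.2
  have a5 : (p : ℝ) + 2⁻¹ * m ≤ 1 := by
    by_contra hc
    push Not at hc
    nlinarith
  have a6 : p + 2⁻¹ * m ≤ 1 := by exact_mod_cast a5
  have : ((p + 2⁻¹ * m : NNReal) : ℝ≥0∞) ≤ 1 := by exact_mod_cast a6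
  simpa using this

theorem line_shift (P : E n → ℝ≥0∞) (w x : E n) (s : ℝ) :
    ∫⁻ t : ℝ, P (x + s • w + t • w) = ∫⁻ t : ℝ, P (x + t • w) := by
  rw [← lintegral_add_left_eq_self (fun t : ℝ => P (x + t • w)) s]
  simp only [add_smul, add_assoc]

theorem measurable_line {P : E n → ℝ≥0∞} (hP : Measurable P) (w : E n) :
    Measurable fun x : E n => ∫⁻ t : ℝ, P (x + t • w) :=
  Measurable.lintegral_prod_right' (f := fun p : E n × ℝ => P (p.1 + p.2 • w))
    (hP.comp (by fun_prop))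

theorem rounding {K : Set (E n)} (hK : IsBody K) {a : ℝ} (ha : 0 < a) {ι : Type} [Fintype ι]
    (w : ι → E n) (hw : ∀ i, w i ≠ 0) (P : ι → E n → ℝ≥0∞) (hP : ∀ i, Measurable (P i))
    (hcost : ∑ i, (∫⁻ x, P i x) / ‖w i‖ₑ ≤ ENNReal.ofReal a * volume K)
    (hfrac : ENNReal.ofReal (1 / 10) * volume K ≤
      ∫⁻ x in K, min 1 (∑ i, ∫⁻ t : ℝ, P i (x + t • w i))) :
    ∃ U : Set (E n), MeasurableSet U ∧ volume U ≤ ENNReal.ofReal (97 / 100) * volume K ∧
      Cov (K \ U) (ENNReal.ofReal (49 * a) * volume K) := by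
  classical
  let H : ι → E n → ℝ≥0∞ := fun i x => ∫⁻ t : ℝ, P i (x + t • w i)
  have hH : ∀ i, Measurable (H i) := fun i => measurable_line (hP i) _
  let S : ι → Set (E n) := fun i => band (‖w i‖⁻¹ • w i) 0 1
  set lam := ENNReal.ofReal (50 * a) with hlam
  obtain ⟨r, hr⟩ := round_all' (fun i => volume.restrict (S i)) (volume.restrict K) H hH
    Finset.univ (fun _ => lam) measurable_const
  set W : Set (E n) := {x | ∀ j ∈ Finset.univ, H j x < ENNReal.ofReal (r j)} with hW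
  have hWm : MeasurableSet W := by
    have : W = ⋂ j, {x | H j x < ENNReal.ofReal (r j)} := by ext x; simp [hW]
    rw [this]
    exact MeasurableSet.iInter fun j => measurableSet_lt (hH j) measurable_const
  have hp : Measurable (fun x => ∏ j, (1 - H j x)) :=
    Finset.measurable_prod _ (fun j _ => measurable_const.sub (hH j))
  rw [lintegral_indicator_const hWm, Measure.restrict_apply hWm, lintegral_const_mul _ hp] at hr
  have c1 : ∑ j, ∫⁻ x, H j x ∂volume.restrict (S j) ≤ ENNReal.ofReal a * volume K := by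
    refine le_trans (le_of_eq (Finset.sum_congr rfl fun j _ => ?_)) hcost
    simpa using band_cost (P j) (hP j) (hw j) 0 1
  obtain ⟨v, hv, v0⟩ : ∃ v : ℝ, volume K = ENNReal.ofReal v ∧ 0 ≤ v :=
    ⟨_, (ENNReal.ofReal_toReal hK.1.measure_ne_top).symm, ENNReal.toReal_nonneg⟩
  have c2 : ∫⁻ x in K, ∏ j, (1 - H j x) ≤ ENNReal.ofReal (19 / 20 * v) := by
    have b1 : (∫⁻ x in K, ∏ j, (1 - H j x)) + 2⁻¹ * ∫⁻ x in K, min 1 (∑ j, H j x) ≤
        volume K := by
      rw [← lintegral_const_mul' _ _ (by simp), ← lintegral_add_left hp]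
      refine le_trans (lintegral_mono fun x => half_min _ _ (prod_one_sub _ _)) ?_
      simp
    have b2 : (∫⁻ x in K, ∏ j, (1 - H j x)) + ENNReal.ofReal (1 / 20 * v) ≤
        ENNReal.ofReal (19 / 20 * v) + ENNReal.ofReal (1 / 20 * v) := by
      rw [← ENNReal.ofReal_add (by positivity) (by positivity),
        show 19 / 20 * v + 1 / 20 * v = v by ring, ← hv]
      refine le_trans (add_le_add le_rfl ?_) b1
      refine le_trans ?_ (mul_le_mul_right hfrac _)
      rw [hv, ← ENNReal.ofReal_mul (by norm_num), ← ENNReal.ofReal_ofNat 2,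
        ← ENNReal.ofReal_inv_of_pos (by norm_num), ← ENNReal.ofReal_mul (by norm_num)]
      exact ENNReal.ofReal_le_ofReal (by linarith)
    exact (ENNReal.add_le_add_iff_right ENNReal.ofReal_ne_top).1 b2
  have c3 : ∑ j, (volume.restrict (S j)) {x | ENNReal.ofReal (r j) ≤ H j x} +
      lam * volume (W ∩ K) ≤ ENNReal.ofReal (97 / 2 * a * v) := by
    refine hr.trans ((add_le_add c1 (mul_le_mul_right c2 _)).trans (le_of_eq ?_))
    rw [hv, hlam, ← ENNReal.ofReal_mul ha.le, ← ENNReal.ofReal_mul (by positivity),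
      ← ENNReal.ofReal_add (by positivity) (by positivity)]
    congr 1; ring
  have hu : ∀ i, ‖‖w i‖⁻¹ • w i‖ = 1 := fun i => norm_smul_inv_norm (hw i)
  refine ⟨W ∩ K, hWm.inter hK.1.measurableSet, ?_, ι, inferInstance, fun i => ‖w i‖⁻¹ • w i,
    fun i => {x | ENNReal.ofReal (r i) ≤ H i x} ∩ S i, hu, fun i =>
      (measurableSet_le measurable_const (hH i)).inter (measurableSet_band _ _ _), ?_, ?_⟩
  · have l0 : lam ≠ 0 := by simpa [hlam] using ha
    rw [← ENNReal.mul_le_mul_iff_right l0 ENNReal.ofReal_ne_top]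
    refine (le_add_self.trans c3).trans (le_of_eq ?_)
    rw [hv, hlam, ← ENNReal.ofReal_mul (by norm_num), ← ENNReal.ofReal_mul (by positivity)]
    congr 1; ring
  · rintro x ⟨hx, hx'⟩
    have : ¬ x ∈ W := fun h => hx' ⟨h, hx⟩
    simp only [hW, mem_ofPred_eq, Finset.mem_univ, true_implies, not_forall, not_lt] at this
    obtain ⟨j, hj⟩ := this
    refine ⟨j, ?_⟩
    have e : {t : ℝ | x + t • ‖w j‖⁻¹ • w j ∈ {x | ENNReal.ofReal (r j) ≤ H j x} ∩ S j} =
        Icc (-⟪‖w j‖⁻¹ • w j, x⟫) (1 - ⟪‖w j‖⁻¹ • w j, x⟫) := by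
      ext t
      have e1 : H j (x + t • ‖w j‖⁻¹ • w j) = H j x := by
        rw [smul_smul]; exact line_shift _ _ _ _
      simp only [mem_ofPred_eq, mem_inter_iff, e1, hj, true_and, S, band, mem_Icc, inner_add_right]
      rw [inner_smul_right, real_inner_self_eq_norm_sq, hu j]
      constructor <;> rintro ⟨h1, h2⟩ <;> constructor <;> linarith
    rw [e]; simp
  · refine le_trans (le_of_eq (Finset.sum_congr rfl fun j _ => ?_)) ((le_self_add.trans c3).trans ?_)
    · rw [Measure.restrict_apply (measurableSet_le measurable_const (hH j))]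
    · rw [hv, ← ENNReal.ofReal_mul (by positivity)]
      exact ENNReal.ofReal_le_ofReal (by nlinarith [mul_nonneg ha.le v0])

theorem sigma_le_frac (hn : 1 ≤ n) {K : Set (E n)} (hK : IsBody K) {a : ℝ} (ha : 0 < a)
    {ι : Type} [Fintype ι]
    (w : ι → E n) (hw : ∀ i, w i ≠ 0) (P : ι → E n → ℝ≥0∞) (hP : ∀ i, Measurable (P i))
    (hcost : ∑ i, (∫⁻ x, P i x) / ‖w i‖ₑ ≤ ENNReal.ofReal a * volume K)
    (hfrac : ENNReal.ofReal (1 / 10) * volume K ≤
      ∫⁻ x in K, min 1 (∑ i, ∫⁻ t : ℝ, P i (x + t • w i))) :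
    sigma (n - 1) K ≤ ENNReal.ofReal (80 * n * a) * volume K := by
  have hs := sigma_toReal_pos hn hK
  have hv := vol_toReal_pos hK
  set s := (sigma (n - 1) K).toReal with hs'
  set v := (volume K).toReal with hv'
  set D := 4 * n * v / s with hD
  have n0 : (0 : ℝ) < n := by exact_mod_cast hn
  have D0 : 0 < D := by positivity
  obtain ⟨x0, hx0⟩ := hK.2.2
  have hx0 : x0 ∈ K := interior_subset hx0
  have h1 : ∀ i, K ⊆ band (‖w i‖⁻¹ • w i) (⟪‖w i‖⁻¹ • w i, x0⟫ - D) (2 * D) := by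
    intro i x hx
    have a1 : ‖x - x0‖ ≤ D := by
      rw [hD, le_div_iff₀ hs]; exact Pool.Agent.Lib.MP_fedf83_gt.P.diam_le hn hK hx hx0
    have a2 := abs_real_inner_le_norm (‖w i‖⁻¹ • w i) (x - x0)
    have hu : ‖‖w i‖⁻¹ • w i‖ = 1 := norm_smul_inv_norm (hw i)
    rw [hu, one_mul, inner_sub_right, abs_le] at a2
    constructor <;> linarith [a2.1, a2.2]
  have h2 : ENNReal.ofReal (1 / 10) * volume K ≤
      ENNReal.ofReal (2 * D) * (ENNReal.ofReal a * volume K) := by
    refine hfrac.trans ((lintegral_mono fun x => min_le_right _ _).trans ?_)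
    rw [lintegral_finsetSum _ fun i _ => measurable_line (hP i) _]
    refine le_trans (Finset.sum_le_sum fun i _ => ?_)
      ((Finset.mul_sum _ _ _).symm.trans_le (mul_le_mul_right hcost _))
    rw [← band_cost (P i) (hP i) (hw i) (⟪‖w i‖⁻¹ • w i, x0⟫ - D) (2 * D)]
    exact lintegral_mono_set (h1 i)
  rw [← mul_assoc, ENNReal.mul_le_mul_iff_left (vol_ne_zero hK) hK.1.measure_ne_top,
    ← ENNReal.ofReal_mul (by positivity), ENNReal.ofReal_le_ofReal_iff (by positivity)] at h2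
  rw [← ENNReal.ofReal_toReal (sigma_lt_top hn hK.1).ne,
    ← ENNReal.ofReal_toReal hK.1.measure_ne_top, ← ENNReal.ofReal_mul (by positivity)]
  refine ENNReal.ofReal_le_ofReal ?_
  rw [← hs', ← hv']
  have : D * s = 4 * n * v := by rw [hD]; field_simp
  nlinarith

theorem exists_split (a b : ℕ) : ∃ φ : E (a + b) ≃L[ℝ] E a × E b, MeasurePreserving φ ∧
    ∀ z, ‖z‖ ^ 2 = ‖(φ z).1‖ ^ 2 + ‖(φ z).2‖ ^ 2 := by
  have h : finrank ℝ (WithLp 2 (E a × E b)) = a + b := by
    rw [(WithLp.linearEquiv 2 ℝ (E a × E b)).finrank_eq, finrank_prod]; simp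
  let J : E (a + b) ≃ₗᵢ[ℝ] WithLp 2 (E a × E b) :=
    ((stdOrthonormalBasis ℝ (WithLp 2 (E a × E b))).reindex (finCongr h)).repr.symm
  refine ⟨J.toContinuousLinearEquiv.trans (WithLp.prodContinuousLinearEquiv 2 ℝ (E a) (E b)),
    (WithLp.volume_preserving_ofLp (E a) (E b)).comp J.measurePreserving, fun z => ?_⟩
  rw [← J.norm_map z, WithLp.prod_norm_sq_eq_of_L2]
  rfl

section prod
variable {a b : ℕ} {φ : E (a + b) ≃L[ℝ] E a × E b}

theorem vol_pre (h : MeasurePreserving φ) {A : Set (E a)} {B : Set (E b)} (hA : MeasurableSet A)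
    (hB : MeasurableSet B) : volume (φ ⁻¹' (A ×ˢ B)) = volume A * volume B := by
  rw [h.measure_preimage (hA.prod hB).nullMeasurableSet, Measure.volume_eq_prod, Measure.prod_prod]

theorem body_pre (φ : E (a + b) ≃L[ℝ] E a × E b) {A : Set (E a)} {B : Set (E b)} (hA : IsBody A)
    (hB : IsBody B) : IsBody (φ ⁻¹' (A ×ˢ B)) := by
  refine ⟨φ.toHomeomorph.isCompact_preimage.2 (hA.1.prod hB.1),
    (hA.2.1.prod hB.2.1).linear_preimage φ.toLinearEquiv.toLinearMap, ?_⟩
  obtain ⟨x, hx⟩ := hA.2.2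
  obtain ⟨y, hy⟩ := hB.2.2
  refine ⟨φ.symm (x, y), ?_⟩
  refine preimage_interior_subset_interior_preimage φ.continuous ?_
  rw [interior_prod_eq]
  simpa using ⟨hx, hy⟩

theorem cov_pre (h : MeasurePreserving φ)
    (hn : ∀ z, ‖z‖ ^ 2 = ‖(φ z).1‖ ^ 2 + ‖(φ z).2‖ ^ 2) {A : Set (E a)} {B U : Set (E b)}
    (hA : MeasurableSet A) (hU : MeasurableSet U) {c1 c2 : ℝ≥0∞} (h1 : Cov A c1)
    (h2 : Cov (B \ U) c2) : Cov (φ ⁻¹' (A ×ˢ B)) (c1 * volume U + volume A * c2) := by
  obtain ⟨I1, hI1, v1, C1, n1, m1, k1, t1⟩ := h1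
  obtain ⟨I2, hI2, v2, C2, n2, m2, k2, t2⟩ := h2
  refine ⟨I1 ⊕ I2, inferInstance,
    Sum.elim (fun i => φ.symm (v1 i, 0)) (fun i => φ.symm (0, v2 i)),
    Sum.elim (fun i => φ ⁻¹' (C1 i ×ˢ U)) (fun i => φ ⁻¹' (A ×ˢ C2 i)), ?_, ?_, ?_, ?_⟩
  · rintro (i | i)
    · have := hn (φ.symm (v1 i, 0))
      simp only [ContinuousLinearEquiv.apply_symm_apply, n1, norm_zero] at this
      exact (pow_eq_one_iff_of_nonneg (norm_nonneg _) two_ne_zero).1 (by simpa using this)
    · have := hn (φ.symm (0, v2 i))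
      simp only [ContinuousLinearEquiv.apply_symm_apply, n2, norm_zero] at this
      exact (pow_eq_one_iff_of_nonneg (norm_nonneg _) two_ne_zero).1 (by simpa using this)
  · rintro (i | i)
    exacts [φ.continuous.measurable ((m1 i).prod hU), φ.continuous.measurable (hA.prod (m2 i))]
  · rintro x ⟨hx1, hx2⟩
    by_cases hu : (φ x).2 ∈ U
    · obtain ⟨i, hi⟩ := k1 _ hx1
      refine ⟨Sum.inl i, hi.trans (le_of_eq ?_)⟩
      congr 1; ext t; simp [hu]
    · obtain ⟨i, hi⟩ := k2 _ ⟨hx2, hu⟩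
      refine ⟨Sum.inr i, hi.trans (le_of_eq ?_)⟩
      congr 1; ext t; simp [hx1]
  · rw [Fintype.sum_sum_type]
    simp only [Sum.elim_inl, Sum.elim_inr]
    refine add_le_add ?_ ?_
    · rw [Finset.sum_congr rfl fun i _ => vol_pre h (m1 i) hU, ← Finset.sum_mul]
      gcongr
    · rw [Finset.sum_congr rfl fun i _ => vol_pre h hA (m2 i), ← Finset.mul_sum]
      gcongr

theorem decay_pre (h : MeasurePreserving φ)
    (hn : ∀ z, ‖z‖ ^ 2 = ‖(φ z).1‖ ^ 2 + ‖(φ z).2‖ ^ 2) {A : Set (E a)} {B : Set (E b)}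
    (hA : MeasurableSet A) (hB : MeasurableSet B) {p q γ : ℝ} (hp : 0 ≤ p) (hq : 0 ≤ q)
    (hγ : 0 ≤ γ)
    (h1 : ∀ d, volume {z | z ∈ A ∧ z - d ∈ A} ≤
      ENNReal.ofReal (p * Real.exp (-(γ * ‖d‖))) * volume A)
    (h2 : ∀ d, volume {z | z ∈ B ∧ z - d ∈ B} ≤
      ENNReal.ofReal (q * Real.exp (-(γ * ‖d‖))) * volume B) (d : E (a + b)) :
    volume {z | z ∈ φ ⁻¹' (A ×ˢ B) ∧ z - d ∈ φ ⁻¹' (A ×ˢ B)} ≤
      ENNReal.ofReal (p * q * Real.exp (-(γ * ‖d‖))) * volume (φ ⁻¹' (A ×ˢ B)) := by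
  have e : {z | z ∈ φ ⁻¹' (A ×ˢ B) ∧ z - d ∈ φ ⁻¹' (A ×ˢ B)} =
      φ ⁻¹' ({z | z ∈ A ∧ z - (φ d).1 ∈ A} ×ˢ {z | z ∈ B ∧ z - (φ d).2 ∈ B}) := by
    ext z
    simp only [mem_ofPred_eq, mem_preimage, mem_prod, map_sub, Prod.fst_sub, Prod.snd_sub]
    tauto
  have mA : MeasurableSet {z | z ∈ A ∧ z - (φ d).1 ∈ A} :=
    hA.inter ((measurable_id.sub_const _) hA)
  have mB : MeasurableSet {z | z ∈ B ∧ z - (φ d).2 ∈ B} :=
    hB.inter ((measurable_id.sub_const _) hB)
  rw [e, vol_pre h mA mB, vol_pre h hA hB]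
  refine (mul_le_mul' (h1 _) (h2 _)).trans ?_
  rw [mul_mul_mul_comm, ← ENNReal.ofReal_mul (by positivity)]
  refine mul_le_mul_left (ENNReal.ofReal_le_ofReal ?_) _
  have a1 : ‖d‖ ≤ ‖(φ d).1‖ + ‖(φ d).2‖ := by
    refine abs_le_of_sq_le_sq' ?_ (by positivity) |>.2
    rw [hn d]
    nlinarith [norm_nonneg (φ d).1, norm_nonneg (φ d).2]
  rw [mul_mul_mul_comm, ← Real.exp_add]
  gcongr
  nlinarith

end prod

theorem tower {N : ℕ} {K U : Set (E N)} (hK : IsBody K) {γ α β ρ : ℝ} (hγ : 0 ≤ γ) (hα : 0 ≤ α)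
    (hβ : 0 ≤ β) (hρ : 0 ≤ ρ)
    (hd : ∀ d, volume {z | z ∈ K ∧ z - d ∈ K} ≤
      ENNReal.ofReal (2 * Real.exp (-(γ * ‖d‖))) * volume K)
    (hU : MeasurableSet U) (hv : volume U ≤ ENNReal.ofReal ρ * volume K)
    (h1 : Cov (K \ U) (ENNReal.ofReal (α * (1 - ρ)) * volume K)) (hρ1 : ρ ≤ 1)
    (h0 : Cov K (ENNReal.ofReal β * volume K)) (r : ℕ) :
    ∃ m : ℕ, m = N * (r + 1) ∧ ∃ Q : Set (E m), IsBody Q ∧
      (∀ d, volume {z | z ∈ Q ∧ z - d ∈ Q} ≤
        ENNReal.ofReal (2 ^ (r + 1) * Real.exp (-(γ * ‖d‖))) * volume Q) ∧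
      Cov Q (ENNReal.ofReal (α + ρ ^ r * β) * volume Q) := by
  induction r with
  | zero =>
    refine ⟨N, by simp, K, hK, by simpa using hd, h0.mono ?_⟩
    gcongr
    simpa using hα
  | succ r ih =>
    obtain ⟨m, hm, Q, hQ, d1, c1⟩ := ih
    obtain ⟨φ, hφ, hn⟩ := exists_split m N
    refine ⟨m + N, by rw [hm]; ring, φ ⁻¹' (Q ×ˢ K), body_pre φ hQ hK, fun d => ?_, ?_⟩
    · rw [pow_succ]
      exact decay_pre hφ hn hQ.1.measurableSet hK.1.measurableSet (by positivity) (by norm_num)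
        hγ d1 hd d
    · refine (cov_pre hφ hn hQ.1.measurableSet hU c1 h1).mono ?_
      rw [vol_pre hφ hQ.1.measurableSet hK.1.measurableSet]
      have a1 : 0 ≤ α * (1 - ρ) := mul_nonneg hα (by linarith)
      calc _ ≤ ENNReal.ofReal (α + ρ ^ r * β) * volume Q * (ENNReal.ofReal ρ * volume K) +
            volume Q * (ENNReal.ofReal (α * (1 - ρ)) * volume K) := by gcongr
        _ = (ENNReal.ofReal (α + ρ ^ r * β) * ENNReal.ofReal ρ + ENNReal.ofReal (α * (1 - ρ))) *
            (volume Q * volume K) := by ring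
        _ = _ := by
          rw [← ENNReal.ofReal_mul (by positivity), ← ENNReal.ofReal_add (by positivity) a1]
          congr 2; ring

/-- From a fractional cover of a tenth of one body to an upper bound for the constant. -/
theorem boost {N : ℕ} (hN : 1 ≤ N) {K : Set (E N)} (hK : IsBody K) {γ a : ℝ} (hγ : 0 < γ)
    (ha : 0 < a)
    (hd : ∀ d, volume {z | z ∈ K ∧ z - d ∈ K} ≤
      ENNReal.ofReal (2 * Real.exp (-(γ * ‖d‖))) * volume K)
    {ι : Type} [Fintype ι]
    (w : ι → E N) (hw : ∀ i, w i ≠ 0) (P : ι → E N → ℝ≥0∞) (hP : ∀ i, Measurable (P i))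
    (hcost : ∑ i, (∫⁻ x, P i x) / ‖w i‖ₑ ≤ ENNReal.ofReal a * volume K)
    (hfrac : ENNReal.ofReal (1 / 10) * volume K ≤
      ∫⁻ x in K, min 1 (∑ i, ∫⁻ t : ℝ, P i (x + t • w i)))
    {n : ℕ} (hn : 40 * N * (1 + Real.log N) ≤ n) :
    cst n (n - 1) ≤ ENNReal.ofReal (10 ^ 6 * (1 + Real.log N) * a / γ) := by
  obtain ⟨U, hU, hv, h1⟩ := rounding hK ha w hw P hP hcost hfrac
  have N1 : (1 : ℝ) ≤ N := by exact_mod_cast hN
  have l0 : 0 ≤ Real.log N := Real.log_nonneg N1
  have h0 : Cov K (ENNReal.ofReal (160 * N * a) * volume K) := by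
    refine (cov_self hN hK).mono ((mul_le_mul_right
      (sigma_le_frac hN hK ha w hw P hP hcost hfrac) _).trans (le_of_eq ?_))
    rw [← mul_assoc, show 160 * N * a = 2 * (80 * N * a) by ring,
      ENNReal.ofReal_mul (p := 2) (by norm_num), ENNReal.ofReal_ofNat]
  set r := ⌈34 * Real.log N⌉₊ with hr
  have r1 : 34 * Real.log N ≤ r := Nat.le_ceil _
  have r2 : (r : ℝ) < 34 * Real.log N + 1 := Nat.ceil_lt_add_one (by positivity)
  obtain ⟨m, hm, Q, hQ, d1, c1⟩ := tower (α := 4900 / 3 * a) (ρ := 97 / 100) hK hγ.le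
    (by positivity) (by positivity) (by norm_num) hd hU hv
    (by rw [show 4900 / 3 * a * (1 - 97 / 100) = 49 * a by ring]; exact h1) (by norm_num) h0 r
  have m1 : 1 ≤ m := by rw [hm]; exact Nat.mul_pos hN (Nat.succ_pos r)
  have mn : m ≤ n := by
    have : (m : ℝ) ≤ n := by
      rw [hm]; push_cast
      refine le_trans ?_ hn
      nlinarith
    exact_mod_cast this
  have p1 : (97 / 100 : ℝ) ^ r * N ≤ 1 := by
    have e1 : (97 / 100 : ℝ) ≤ Real.exp (-(3 / 100)) := by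
      linarith [Real.add_one_le_exp (-(3 / 100) : ℝ)]
    have e2 : (97 / 100 : ℝ) ^ r ≤ Real.exp (-Real.log N) := by
      refine (pow_le_pow_left₀ (by norm_num) e1 r).trans ?_
      rw [← Real.exp_nat_mul]
      exact Real.exp_le_exp.2 (by linarith)
    rw [Real.exp_neg, Real.exp_log (by linarith)] at e2
    calc _ ≤ (N : ℝ)⁻¹ * N := by gcongr
      _ = 1 := inv_mul_cancel₀ (by linarith)
  have c2 : Cov Q (ENNReal.ofReal (1800 * a) * volume Q) := by
    refine c1.mono ?_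
    gcongr
    nlinarith
  have s1 := sigma_ge m1 hQ (τ := (r + 2) / γ) (by positivity) (fun d hd => (d1 d).trans (by
    gcongr
    have e0 : (2⁻¹ : ℝ≥0∞) = ENNReal.ofReal 2⁻¹ := by
      rw [ENNReal.ofReal_inv_of_pos (by norm_num), ENNReal.ofReal_ofNat]
    rw [e0]
    refine ENNReal.ofReal_le_ofReal ?_
    rw [hd, mul_div_cancel₀ _ hγ.ne', Real.exp_neg, ← div_eq_mul_inv,
      div_le_iff₀ (Real.exp_pos _)]
    have e1 : (2 : ℝ) ^ (r + 2) ≤ Real.exp (r + 2) := by
      have : (2 : ℝ) ≤ Real.exp 1 := by linarith [Real.add_one_le_exp (1 : ℝ)]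
      refine (pow_le_pow_left₀ (by norm_num) this _).trans (le_of_eq ?_)
      rw [← Real.exp_nat_mul]; push_cast; rw [mul_one]
    rw [pow_succ] at e1
    linarith))
  have z1 : ENNReal.ofReal (1800 * a) * volume Q ≠ 0 :=
    mul_ne_zero (by simpa using ha) (vol_ne_zero hQ)
  have s2 := cst_le_of_cov hQ z1 c2
  have s3 : cst n (n - 1) ≤ cst m (m - 1) := by
    have := cst_codim_one_anti (k := m - 1) (n - 1) (by omega)
    rwa [show n - 1 + 1 = n by omega, show m - 1 + 1 = m by omega] at this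
  refine s3.trans (s2.trans (ENNReal.div_le_of_le_mul ?_))
  calc _ = ENNReal.ofReal (3600 * a) * volume Q := by
        rw [← add_mul, ← ENNReal.ofReal_add (by positivity) (by positivity)]
        congr 2; ring
    _ ≤ ENNReal.ofReal (3600 * a) * (ENNReal.ofReal (2 * ((r + 2) / γ)) * sigma (m - 1) Q) := by
        gcongr
    _ ≤ _ := by
        rw [← mul_assoc, ← ENNReal.ofReal_mul (by positivity)]
        gcongr
        rw [show 3600 * a * (2 * ((r + 2) / γ)) = 7200 * (r + 2) * a / γ by ring]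
        gcongr ?_ * a / γ
        linarith

end Pool.Agent.Lib.MP_fedf83_gt.U
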