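import Pool.Agent.Lib.MP_fedf83_gt.UProf
import Pool.Agent.Lib.MP_fedf83_gt.UKash
import Pool.Agent.Lib.MP_fedf83_gt.UBoost

/-! The upper bound from the fractional cover, and the limit exponent from both bounds. -/

namespace Pool.Agent.Lib.MP_fedf83_gt.U

open MeasureTheory Set Filter Topology Pool.Agent.Lib.MP_fedf83_gt.B
open scoped ENNReal RealInnerProductSpace

/-- Cheap fractional covers by weighted lines for the nearly maximal slab bodies. -/
def Frac : Prop := ∃ C : ℝ, 0 < C ∧ ∀ k : ℕ, 6000 ≤ k →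
  ∀ (a : Fin (9 * k) → E (8 * k)) (t : Fin (9 * k) → ℝ), Near a t →
    (∀ d : E (8 * k), ∑ c, ⟪a c, d⟫ ^ 2 ≤ 221 * ‖d‖ ^ 2) →
    ∃ (ι : Type) (_ : Fintype ι) (w : ι → E (8 * k)) (P : ι → E (8 * k) → ℝ≥0∞),
      (∀ i, w i ≠ 0) ∧ (∀ i, Measurable (P i)) ∧
      ∑ i, (∫⁻ x, P i x) / ‖w i‖ₑ ≤
        ENNReal.ofReal (C * (1 + Real.log k) / (k : ℝ) ^ (1 / 4 : ℝ)) * volume (Kt a t) ∧
      ENNReal.ofReal (1 / 10) * volume (Kt a t) ≤
        ∫⁻ x in Kt a t, min 1 (∑ i, ∫⁻ s : ℝ, P i (x + s • w i))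

theorem upper (hF : Frac) : ∃ C : ℝ, 0 < C ∧ ∀ᶠ n : ℕ in atTop,
    cst n (n - 1) ≤ ENNReal.ofReal (C * (1 + Real.log n) ^ 3 / (n : ℝ) ^ (3 / 4 : ℝ)) := by
  obtain ⟨C, C0, hC⟩ := hF
  obtain ⟨δ, δ0, -, hδ⟩ := UK.kashin
  refine ⟨10 ^ 6 * C * 3 / δ * 640, by positivity, ?_⟩
  filter_upwards [tendsto_natCast_atTop_atTop.eventually
    (Real.isLittleO_log_id_atTop.bound (c := 1 / 4000000) (by norm_num)),
    eventually_ge_atTop 4000000] with n h1 h2
  have n1 : (4000000 : ℝ) ≤ n := by exact_mod_cast h2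
  have l0 : 0 ≤ Real.log n := Real.log_nonneg (by linarith)
  rw [Real.norm_of_nonneg l0, id, Real.norm_of_nonneg (by linarith)] at h1
  obtain ⟨L, hL⟩ : ∃ L, L = 1 + Real.log n := ⟨_, rfl⟩
  have L1 : 1 ≤ L := by linarith
  have x1 : 6001 ≤ n / (320 * L) := by rw [le_div_iff₀ (by positivity)]; linarith
  obtain ⟨k, hk⟩ : ∃ k, k = ⌊n / (320 * L)⌋₊ := ⟨_, rfl⟩
  have k1 : (k : ℝ) ≤ n / (320 * L) := hk ▸ Nat.floor_le (by positivity)
  have k2 : n / (320 * L) < k + 1 := hk ▸ Nat.lt_floor_add_one _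
  have k3 : (6000 : ℝ) ≤ k := by linarith
  have k4 : 6000 ≤ k := by exact_mod_cast k3
  rw [le_div_iff₀ (by positivity)] at k1
  rw [div_lt_iff₀ (by positivity)] at k2
  have k5 : Real.log (8 * k : ℕ) ≤ Real.log n :=
    Real.log_le_log (by positivity) (by push_cast; nlinarith)
  have k6 : Real.log k ≤ Real.log n := Real.log_le_log (by positivity) (by nlinarith)
  have k7 : 0 ≤ Real.log k := Real.log_nonneg (by linarith)
  obtain ⟨a, a1, a2⟩ := hδ k (by omega)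
  obtain ⟨t, ht⟩ := exists_near (by positivity) a1 (by omega) (by omega)
  obtain ⟨ι, _, w, P, hw, hP, hc, hf⟩ := hC k k4 a t ht a2
  obtain ⟨r, hr⟩ : ∃ r : ℝ, r = (k : ℝ) ^ (1 / 4 : ℝ) := ⟨_, rfl⟩
  have r0 : 0 < r := hr ▸ by positivity
  have r4 : r ^ 4 = k := by
    rw [hr, ← Real.rpow_natCast, ← Real.rpow_mul (by positivity)]; norm_num
  have r2 : r ^ 2 ≤ √(8 * k) := Real.le_sqrt_of_sq_le (by nlinarith)
  rw [← hr] at hc
  refine (boost (γ := δ * r ^ 2 / 3) (by omega) ht.body (by positivity) (by positivity)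
    (fun d => (ht.cov d).trans ?_) w hw P hP hc hf (n := n) ?_).trans (ENNReal.ofReal_le_ofReal ?_)
  · have e : ((8 * k : ℕ) : ℝ) / (2 * (9 * k : ℕ)) = 4 / 9 := by
      push_cast; field_simp; norm_num
    rw [e]
    gcongr ENNReal.ofReal (?_ * Real.exp ?_) * _
    · norm_num
    · have := mul_le_mul_of_nonneg_right (mul_le_mul_of_nonneg_left r2 δ0.le) (norm_nonneg d)
      have : 0 ≤ δ * r ^ 2 * ‖d‖ := by positivity
      linarith [a1 d]
  · calc _ ≤ 40 * ((8 * k : ℕ) : ℝ) * L := by rw [hL]; gcongr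
      _ ≤ _ := by push_cast; linarith
  · have e : (n : ℝ) ^ (3 / 4 : ℝ) ≤ 640 * L * r ^ 3 := by
      rw [← pow_le_pow_iff_left₀ (by positivity) (by positivity) (by norm_num : 4 ≠ 0),
        ← Real.rpow_natCast, ← Real.rpow_mul (by positivity),
        show (3 / 4 * (4 : ℕ) : ℝ) = (3 : ℕ) by norm_num, Real.rpow_natCast]
      calc (n : ℝ) ^ 3 ≤ (640 * L * k) ^ 3 := by gcongr; nlinarith
        _ = 1 * ((640 * L) ^ 3 * (r ^ 3) ^ 4) := by rw [← r4]; ring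
        _ ≤ (640 * L) * ((640 * L) ^ 3 * (r ^ 3) ^ 4) := by gcongr; linarith
        _ = _ := by ring
    rw [← hL, le_div_iff₀ (by positivity)]
    calc _ ≤ 10 ^ 6 * L * (C * L / r) / (δ * r ^ 2 / 3) * (640 * L * r ^ 3) := by
          gcongr <;> linarith
      _ = _ := by field_simp

theorem upper_eps (hF : Frac) {ε : ℝ} (hε : 0 < ε) : ∀ᶠ n : ℕ in atTop,
    cst n (n - 1) ≤ ENNReal.ofReal ((n : ℝ) ^ (-(3 / 4) + ε)) := by
  obtain ⟨C, C0, h⟩ := upper hF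
  filter_upwards [h, tendsto_natCast_atTop_atTop.eventually
    ((isLittleO_log_rpow_rpow_atTop (3 : ℝ) hε).bound (c := 1 / (8 * C)) (by positivity)),
    eventually_ge_atTop 3] with n h1 h2 h3
  have n3 : (3 : ℝ) ≤ n := by exact_mod_cast h3
  have l1 : 1 ≤ Real.log n := by
    rw [Real.le_log_iff_exp_le (by linarith)]
    linarith [Real.exp_one_lt_d9]
  rw [Real.norm_of_nonneg (by positivity), Real.norm_of_nonneg (by positivity),
    show (3 : ℝ) = (3 : ℕ) by norm_num, Real.rpow_natCast, one_div, ← div_eq_inv_mul,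
    le_div_iff₀ (by positivity)] at h2
  refine h1.trans (ENNReal.ofReal_le_ofReal ?_)
  rw [Real.rpow_add (by linarith), Real.rpow_neg (by linarith), ← div_eq_inv_mul]
  gcongr
  calc C * (1 + Real.log n) ^ 3 ≤ C * (2 * Real.log n) ^ 3 := by gcongr; linarith
    _ ≤ _ := by linarith

theorem exponent {u : ℕ → ℝ≥0∞} {α : ℝ}
    (hl : ∀ ε : ℝ, 0 < ε → ∀ᶠ n : ℕ in atTop, ENNReal.ofReal ((n : ℝ) ^ (α - ε)) ≤ u n)
    (hu : ∀ ε : ℝ, 0 < ε → ∀ᶠ n : ℕ in atTop, u n ≤ ENNReal.ofReal ((n : ℝ) ^ (α + ε))) :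
    Tendsto (fun n : ℕ => Real.log (u n).toReal / Real.log n) atTop (𝓝 α) := by
  rw [Metric.tendsto_nhds]
  intro ε hε
  filter_upwards [hl (ε / 2) (by positivity), hu (ε / 2) (by positivity), eventually_ge_atTop 2]
    with n h1 h2 h3
  have n1 : (1 : ℝ) < n := by exact_mod_cast h3
  have l0 := Real.log_pos n1
  have h4 := ENNReal.toReal_le_of_le_ofReal (by positivity) h2
  have h5 := (ENNReal.ofReal_le_iff_le_toReal (ne_top_of_le_ne_top ENNReal.ofReal_ne_top h2)).1 h1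
  have p : 0 < (n : ℝ) ^ (α - ε / 2) := by positivity
  have h6 := Real.log_le_log (p.trans_le h5) h4
  have h7 := Real.log_le_log p h5
  rw [Real.log_rpow (by linarith)] at h6 h7
  rw [← div_le_iff₀ l0] at h6
  rw [← le_div_iff₀ l0] at h7
  rw [Real.dist_eq, abs_lt]
  constructor <;> linarith

end Pool.Agent.Lib.MP_fedf83_gt.U
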