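import Pool.Agent.Lib.MP_fedf83_gt.UFam
import Pool.Agent.Lib.MP_fedf83_gt.UUpper

/-! A cheap fractional cover by lines of a nearly maximal intersection of slabs. -/

namespace Pool.Agent.Lib.MP_fedf83_gt.UK

open MeasureTheory Set Filter Pool.Agent.Lib.MP_fedf83_gt.B Pool.Agent.Lib.MP_fedf83_gt.U
open scoped ENNReal RealInnerProductSpace

variable {M N : ℕ}

/-- The dominating factor. -/
noncomputable def dm (a : Fin M → E N) (t : Fin M → ℝ) (β κ : ℝ) (c : Fin M) (x : E N) : ℝ :=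
  if |⟪a c, x⟫| ≤ t c then 1 else
    Real.exp (-(β / 2)) * Real.exp (-(β * κ / 2 * (|⟪a c, x⟫| - t c)))

/-- The loss factor outside the slab. -/
noncomputable def xi (a : Fin M → E N) (t : Fin M → ℝ) (β κ : ℝ) (c : Fin M) (x : E N) : ℝ :=
  if |⟪a c, x⟫| ≤ t c then 1 else Real.exp (uu a t β κ c x / 8)

variable {a : Fin M → E N} {t : Fin M → ℝ} {β κ : ℝ}

theorem dm_nn (c : Fin M) (x : E N) : 0 ≤ dm a t β κ c x := by
  unfold dm
  split_ifs <;> positivity

theorem dm_int (h : Near a t) (hN : N ≤ M) (hl : 4 ≤ β * κ)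
    (hp : Real.exp (-(β / 2)) * M ≤ 1 / 10) :
    Integrable (fun x => ∏ c, dm a t β κ c x) ∧
      ∫ x, ∏ c, dm a t β κ c x ≤ 2 * volume.real (Kt a t) := by
  have fin := h.body.1.measure_ne_top (μ := volume)
  have m1 : Measurable fun x => ∏ c, dm a t β κ c x := Finset.measurable_prod _ fun c _ =>
    Measurable.ite (in_meas c) measurable_const (by fun_prop)
  have n1 : ∀ x, 0 ≤ ∏ c, dm a t β κ c x := fun x => Finset.prod_nonneg fun c _ => dm_nn c x
  have h1 := h.prof hN (Real.exp_pos (-(β / 2))).le (lam := β * κ / 2) (by linarith)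
  have h2 : ∫⁻ x, ENNReal.ofReal (∏ c, dm a t β κ c x) ≤
      ENNReal.ofReal (2 * volume.real (Kt a t)) := by
    rw [ENNReal.ofReal_mul zero_le_two, ofReal_measureReal fin]
    refine le_trans (le_of_eq ?_) (h1.trans (mul_le_mul_left (ENNReal.ofReal_le_ofReal ?_) _))
    · refine lintegral_congr fun x => ?_
      rw [ENNReal.ofReal_prod_of_nonneg fun c _ => dm_nn c x]
      refine Finset.prod_congr rfl fun c _ => ?_
      unfold dm
      split_ifs <;> simp
    · have e1 : Real.exp (5 * Real.exp (-(β / 2)) * M) ≤ Real.exp (1 / 2) :=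
        Real.exp_le_exp.2 (by linarith)
      have e2 : Real.exp (1 / 2) * Real.exp (1 / 2) < 2.7182818286 := by
        rw [← Real.exp_add, add_halves]
        exact Real.exp_one_lt_d9
      have e3 : Real.exp (1 / 2) ≤ 1.7 := by nlinarith [Real.exp_pos (1 / 2)]
      linarith
  refine ⟨(lintegral_ofReal_ne_top_iff_integrable m1.aestronglyMeasurable (ae_of_all _ n1)).1
    (ne_top_of_le_ne_top ENNReal.ofReal_ne_top h2), ?_⟩
  rw [integral_eq_lintegral_of_nonneg_ae (ae_of_all _ n1) m1.aestronglyMeasurable]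
  exact ENNReal.toReal_le_of_le_ofReal (by positivity) h2

theorem xi_one (β0 : 0 ≤ β) (c : Fin M) (x : E N) : 1 ≤ xi a t β κ c x := by
  unfold xi
  split_ifs
  · exact le_rfl
  · exact Real.one_le_exp (by linarith [uu_nn (a := a) (t := t) (κ := κ) β0 c x])

theorem xi_meas (c : Fin M) : Measurable (xi a t β κ c) := by
  have := uu_meas (a := a) (t := t) (β := β) (κ := κ) c
  exact Measurable.ite (in_meas c) measurable_const (by fun_prop)

theorem uu_xi (β1 : 1 ≤ β) (κ0 : 0 ≤ κ) (c : Fin M) (x : E N) :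
    uu a t β κ c x ≤ 8 * β * xi a t β κ c x := by
  unfold xi
  split_ifs with h
  · linarith [uu_in (β := β) (by linarith) κ0 h]
  · nlinarith [Real.add_one_le_exp (uu a t β κ c x / 8), Real.exp_pos (uu a t β κ c x / 8)]

theorem fac (β0 : 0 ≤ β) (κ0 : 0 ≤ κ) {ε : ℝ} (ε0 : 0 ≤ ε) (ε1 : ε ≤ 1 / 4) (c : Fin M) (x : E N) :
    (al a t β κ c x + Real.exp (-uu a t β κ c x)) *
      (xi a t β κ c x ^ 2 * Real.exp (ε * uu a t β κ c x)) ≤
      Real.exp (2 * ε * β) * dm a t β κ c x := by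
  unfold al xi dm
  split_ifs with h
  · have := mul_le_mul_of_nonneg_left (uu_in β0 κ0 h) ε0
    simp only [sub_add_cancel, one_pow, one_mul, mul_one]
    exact Real.exp_le_exp.2 (by linarith)
  · have h1 := uu_ge (a := a) (t := t) (κ := κ) β0 c x
    have h2 := mul_le_mul_of_nonneg_right ε1 (uu_nn (a := a) (t := t) (κ := κ) β0 c x)
    have h3 := mul_nonneg ε0 β0
    simp only [zero_add, sq, ← Real.exp_add]
    exact Real.exp_le_exp.2 (by linarith)

open Classical in
theorem core (h : Near a t) (hN : N ≤ M) (hMN : 8 * M ≤ 9 * N)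
    (hop : ∀ d : E N, ∑ c, ⟪a c, d⟫ ^ 2 ≤ 221 * ‖d‖ ^ 2) {m B L : ℕ} (hB : B + m ≤ N) (m0 : 0 < m)
    (B0 : 0 < B) (L0 : 0 < L) {η l ε s : ℝ} (β1 : 1 ≤ β) (κ0 : 0 ≤ κ) (hl : 4 ≤ β * κ)
    (hp : Real.exp (-(β / 2)) * M ≤ 1 / 10) (hu : 2 * β * Real.exp (-(κ / 258)) ≤ 0.004)
    (η0 : 0 < η) (θ1 : 15 * κ * η ≤ 1) (hε : 4 * (15 * κ * η) ^ 2 ≤ ε) (ε1 : ε ≤ 1 / 4)
    (ε2 : 2 * ε * β * M ≤ 1) (l0 : 0 < l)
    (he1 : L * (l + (5 * (2 * M) * (15 * κ * η) ^ 4 / m ^ 2 + 18 * (15 * κ * η) ^ 6 * (2 * M) ^ 2) /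
      (2 * l) * (384 * β ^ 2)) ≤ 0.1) (he2 : 160 ≤ m) (hg : 2 * M ≤ 3 * B) (s0 : 0 < s)
    (hs : s ^ 2 ≤ L * η ^ 2) :
    ∃ (ι : Type) (_ : Fintype ι) (w : ι → E N) (P : ι → E N → ℝ≥0∞), (∀ i, w i ≠ 0) ∧
      (∀ i, Measurable (P i)) ∧
      ∑ i, (∫⁻ x, P i x) / ‖w i‖ₑ ≤ ENNReal.ofReal (4 / s) * volume (Kt a t) ∧
      ENNReal.ofReal (1 / 10) * volume (Kt a t) ≤
        ∫⁻ x in Kt a t, min 1 (∑ i, ∫⁻ τ : ℝ, P i (x + τ • w i)) := by
  have β0 : 0 ≤ β := by linarith
  have ε0 : 0 ≤ ε := (by positivity : (0 : ℝ) ≤ 4 * (15 * κ * η) ^ 2).trans hε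
  have mp : (0 : ℝ) < m := by exact_mod_cast m0
  have Bp : (0 : ℝ) < B := by exact_mod_cast B0
  have fin := h.body.1.measure_ne_top (μ := volume)
  obtain ⟨iD, hD⟩ := dm_int h hN hl hp
  set V := volume.real (Kt a t) with hV
  have V0 : 0 ≤ V := measureReal_nonneg
  have eV : volume (Kt a t) = ENNReal.ofReal V := (ofReal_measureReal fin).symm
  have hb : ∀ J : Finset (Fin M), ∃ b : Fin m → E N, Orthonormal ℝ b ∧
      (J.card ≤ B → ∀ c ∈ J, ∀ i, ⟪a c, b i⟫ = 0) := fun J => by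
    by_cases hJ : J.card ≤ B
    · obtain ⟨b, h1, h2⟩ := exists_orth a J (m := m) (by omega)
      exact ⟨b, h1, fun _ => h2⟩
    · obtain ⟨b, h1, -⟩ := exists_orth a ∅ (m := m) (by simp; omega)
      exact ⟨b, h1, fun h => absurd h hJ⟩
  choose b b1 b2 using hb
  set u := uu a t β κ with hu'
  set α := al a t β κ with hα
  set ξ := xi a t β κ with hξ
  set w : Finset (Fin M) → Fin M × Bool → ℝ := fun J i =>
    if i.1 ∈ J then 0 else β * Real.exp (-(κ * t i.1)) with hw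
  set A : Finset (Fin M) → E N → ℝ := fun J x =>
    (if J.card ≤ B then 1 else 0) * ∏ c ∈ J, α c x with hA
  set U : Finset (Fin M) → E N → ℝ := fun J x => ∑ i, w J i * Real.exp ⟪st a κ i, x⟫ with hU
  set Y : E N → ℝ := fun x => 8 * β * ∏ c, ξ c x with hY
  set F : Finset (Fin M) → E N → ℝ := fun J x => A J x * Real.exp (-U J x) with hF
  have u0 : ∀ c x, 0 ≤ u c x := uu_nn β0
  have α0 : ∀ c x, 0 ≤ α c x := al_nn β0
  have ξ1 : ∀ c x, 1 ≤ ξ c x := xi_one β0
  have w0 : ∀ J i, 0 ≤ w J i := fun J i => by simp only [hw]; split_ifs <;> positivity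
  have A0 : ∀ J x, 0 ≤ A J x := fun J x =>
    mul_nonneg (by split_ifs <;> norm_num) (Finset.prod_nonneg fun c _ => α0 c x)
  have F0 : ∀ J x, 0 ≤ F J x := fun J x => mul_nonneg (A0 J x) (Real.exp_pos _).le
  have mA : ∀ J, Measurable (A J) := fun J =>
    (Finset.measurable_prod _ fun c _ => al_meas c).const_mul _
  have mU : ∀ J, Measurable (U J) := fun J => by simp only [hU]; fun_prop
  have mY : Measurable Y := (Finset.measurable_prod _ fun c _ => xi_meas c).const_mul _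
  have mF : ∀ J, Measurable (F J) := fun J => (mA J).mul (mU J).neg.exp
  have eU : ∀ J x, U J x = ∑ c ∈ Jᶜ, u c x := fun J x => by
    simp only [hU, hw, Fintype.sum_prod_type]
    rw [← Finset.sum_add_sum_compl J, Finset.sum_eq_zero fun c hc => by simp [hc], zero_add]
    refine Finset.sum_congr rfl fun c hc => ?_
    simp only [if_neg (Finset.mem_compl.1 hc)]
    rfl
  have eF : ∀ J x, F J x = (if J.card ≤ B then 1 else 0) *
      ((∏ c ∈ J, α c x) * ∏ c ∈ Jᶜ, Real.exp (-u c x)) := fun J x => by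
    simp only [hF, hA, eU, ← Finset.sum_neg_distrib, Real.exp_sum, mul_assoc]
  have sF : ∀ x, ∑ J, F J x ≤ ∏ c, (α c x + Real.exp (-u c x)) := fun x => by
    rw [Fintype.prod_add]
    refine Finset.sum_le_sum fun J _ => ?_
    rw [eF]
    exact mul_le_of_le_one_left (mul_nonneg (Finset.prod_nonneg fun c _ => α0 c x)
      (Finset.prod_nonneg fun c _ => (Real.exp_pos _).le)) (by split_ifs <;> norm_num)
  have g0 : ∀ c x, 0 ≤ α c x + Real.exp (-u c x) := fun c x =>
    add_nonneg (α0 c x) (Real.exp_pos _).le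
  obtain ⟨iF, hF1⟩ := dom iD mF F0 fun x => (sF x).trans
    (Finset.prod_le_prod (fun c _ => g0 c x) fun c _ => by
      have h1 := fac (a := a) (t := t) β0 κ0 le_rfl (by norm_num) c x
      simp only [mul_zero, zero_mul, Real.exp_zero, mul_one, one_mul] at h1
      exact (le_mul_of_one_le_right (g0 c x) (one_le_pow₀ (ξ1 c x))).trans h1)
  obtain ⟨iT, hT1⟩ := dom (f := fun J x => F J x * (Y x ^ 2 * Real.exp (ε * U J x)))
    (iD.const_mul (192 * β ^ 2)) (fun J => (mF J).mul ((mY.pow_const 2).mul ((mU J).const_mul ε).exp))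
    (fun J x => mul_nonneg (F0 J x) (by positivity)) fun x => by
      have a1 : ∀ J, Y x ^ 2 * Real.exp (ε * U J x) ≤
          64 * β ^ 2 * ∏ c, (ξ c x ^ 2 * Real.exp (ε * u c x)) := fun J => by
        have : ε * U J x ≤ ∑ c, ε * u c x := by
          rw [← Finset.mul_sum, eU]
          exact mul_le_mul_of_nonneg_left (Finset.sum_le_sum_of_subset_of_nonneg
            (Finset.subset_univ _) fun c _ _ => u0 c x) ε0
        refine (mul_le_mul_of_nonneg_left (Real.exp_le_exp.2 this) (sq_nonneg _)).trans (le_of_eq ?_)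
        rw [Finset.prod_mul_distrib, Finset.prod_pow, Real.exp_sum, hY]
        ring
      have a2 : (∏ c, (α c x + Real.exp (-u c x))) * ∏ c, (ξ c x ^ 2 * Real.exp (ε * u c x)) ≤
          3 * ∏ c, dm a t β κ c x := by
        rw [← Finset.prod_mul_distrib]
        refine (Finset.prod_le_prod (fun c _ => mul_nonneg (g0 c x) (by positivity))
          fun c _ => fac β0 κ0 ε0 ε1 c x).trans ?_
        rw [Finset.prod_mul_distrib, Finset.prod_const, Finset.card_univ, Fintype.card_fin,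
          ← Real.exp_nat_mul]
        refine mul_le_mul_of_nonneg_right ?_ (Finset.prod_nonneg fun c _ => dm_nn c x)
        exact (Real.exp_le_exp.2 (by linarith)).trans (Real.exp_one_lt_d9.le.trans (by norm_num))
      refine (Finset.sum_le_sum fun J _ => mul_le_mul_of_nonneg_left (a1 J) (F0 J x)).trans ?_
      rw [← Finset.sum_mul]
      have a3 : 0 ≤ 64 * β ^ 2 * ∏ c, (ξ c x ^ 2 * Real.exp (ε * u c x)) := by positivity
      refine (mul_le_mul_of_nonneg_right (sF x) a3).trans ?_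
      have := mul_le_mul_of_nonneg_left a2 (show 0 ≤ 64 * β ^ 2 by positivity)
      linarith
  rw [integral_const_mul] at hT1
  set ρ := 5 * (2 * M) * (15 * κ * η) ^ 4 / m ^ 2 + 18 * (15 * κ * η) ^ 6 * (2 * M : ℝ) ^ 2 with hρ
  have ρ0 : 0 ≤ ρ := by positivity
  have c0 : (0 : ℝ) < 1 / (2 * m) := by positivity
  have nb : ∀ J r s, ‖st (b J) r s‖ ^ 2 = r ^ 2 := fun J r s => by
    rw [st_norm, (b1 J).1, one_pow, mul_one]
  have step : ∀ J r, r ^ 2 ≤ η ^ 2 →
      ∫ x, |1 / (2 * m : ℝ) * ∑ s, F J (x + st (b J) r s) - F J x| ≤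
        l / 2 * (∫ x, F J x) + ρ / (2 * l) * ∫ x, F J x * (Y x ^ 2 * Real.exp (ε * U J x)) := by
    intro J r hr
    refine step_exp (st (b J) r) (st a κ) (w J) (e := η ^ 2) (Λ := 15 * κ) c0 (st_card m0) l0 mp
      (sq_nonneg _) (by positivity) θ1 (by ring) hε (by simp [mul_comm]) (fun s => (nb J r s).le.trans hr)
      (st_sum _ _) (st_bessel (b1 J) hr) (w0 J) (fun i => ?_) (fun z => ?_) (mA J) (A0 J)
      (fun x s => ?_) (fun x => ?_) (fun x i => ?_) (iF J) (iT J)
    · rw [st_norm]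
      nlinarith [row_norm (by norm_num) hop i.1, sq_nonneg κ]
    · rw [st_sq]
      nlinarith [mul_le_mul_of_nonneg_left (hop z) (sq_nonneg κ), mul_nonneg (sq_nonneg κ) (sq_nonneg ‖z‖)]
    · simp only [hA]
      split_ifs with hJ
      · congr 1
        refine Finset.prod_congr rfl fun c hc => al_add x ?_
        rw [st, real_inner_smul_right, b2 J hJ c hc, mul_zero]
      · simp
    · have := Finset.one_le_prod (s := Finset.univ) fun c _ => ξ1 c x
      simp only [hY]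
      nlinarith
    · have a1 : w J i * Real.exp ⟪st a κ i, x⟫ ≤ u i.1 x := by
        simp only [hw]
        split_ifs
        · rw [zero_mul]
          exact u0 _ _
        · exact Finset.single_le_sum (f := fun b : Bool =>
            β * Real.exp (-(κ * t i.1)) * Real.exp ⟪st a κ (i.1, b), x⟫)
            (fun _ _ => by positivity) (Finset.mem_univ i.2)
      refine a1.trans ((uu_xi β1 κ0 _ _).trans (mul_le_mul_of_nonneg_left ?_ (by positivity)))
      rw [← Finset.mul_prod_erase _ _ (Finset.mem_univ i.1)]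
      exact le_mul_of_one_le_right (zero_le_one.trans (ξ1 _ _))
        (Finset.one_le_prod fun c _ => ξ1 c x)
  have inK : ∀ x ∈ Kt a t, ∀ c, α c x + Real.exp (-u c x) = 1 := fun x hx c => by
    simp only [hα, al, if_pos (hx c), hu', sub_add_cancel]
  have m160 : (160 : ℝ) ≤ m := by exact_mod_cast he2
  have e2 : 8 / (m : ℝ) ≤ 0.05 := by rw [div_le_iff₀ mp]; linarith
  have H1 : ∀ τ ∈ Icc (0 : ℝ) 1, ∑ J, ∫ x, |(1 / (2 * m : ℝ)) ^ L * ∑ ω : Fin L → Fin m × Bool,
      F J (x + τ • wk (st (b J) η) ω) - F J x| ≤ 0.1 * V := by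
    intro τ hτ
    have hr : (τ * η) ^ 2 ≤ η ^ 2 := by
      rw [mul_pow]
      exact mul_le_of_le_one_left (sq_nonneg _) (pow_le_one₀ hτ.1 hτ.2)
    have a1 : ∀ J, ∫ x, |(1 / (2 * m : ℝ)) ^ L * ∑ ω : Fin L → Fin m × Bool,
        F J (x + τ • wk (st (b J) η) ω) - F J x| ≤ L * (l / 2 * (∫ x, F J x) +
          ρ / (2 * l) * ∫ x, F J x * (Y x ^ 2 * Real.exp (ε * U J x))) := fun J => by
      simp only [← wk_smul, st_smul]
      exact (walk_l1 _ c0.le (st_card m0) (iF J) L).trans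
        (mul_le_mul_of_nonneg_left (step J _ hr) (Nat.cast_nonneg _))
    refine (Finset.sum_le_sum fun J _ => a1 J).trans ?_
    rw [← Finset.mul_sum, Finset.sum_add_distrib, ← Finset.mul_sum, ← Finset.mul_sum]
    have a2 := hT1.trans (mul_le_mul_of_nonneg_left hD (by positivity))
    calc _ ≤ L * (l / 2 * (2 * V) + ρ / (2 * l) * (192 * β ^ 2 * (2 * V))) := by
          have := hF1.trans hD
          gcongr
      _ = L * (l + ρ / (2 * l) * (384 * β ^ 2)) * V := by ring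
      _ ≤ _ := mul_le_mul_of_nonneg_right he1 V0
  have H5 : ENNReal.ofReal (0.37 * V) ≤ ∫⁻ x in Kt a t, ENNReal.ofReal (∑ J, F J x) := by
    have mα : ∀ c, Measurable fun x => ENNReal.ofReal (α c x) := fun c =>
      (al_meas c).ennreal_ofReal
    have a1 := h.card hMN (u := 0.004) (by norm_num) (fun c x => ENNReal.ofReal (α c x))
      (fun c x => ENNReal.ofReal_le_one.2 (al_le_one c x)) fun c x hx => by
        refine ENNReal.ofReal_le_ofReal ((al_le β0 c x).trans ((uu_le β0 κ0 c x).trans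
          (le_trans ?_ hu)))
        have : κ * (|⟪a c, x⟫| - t c) ≤ -(κ / 258) := by nlinarith
        gcongr
    have a2 : volume (Kt a t) ≤ (∫⁻ x in Kt a t, ENNReal.ofReal (∑ J, F J x)) +
        ENNReal.ofReal (1 / B) * ∑ c, ∫⁻ x in Kt a t, ENNReal.ofReal (α c x) := by
      rw [← lintegral_finsetSum _ fun c _ => mα c,
        ← lintegral_const_mul _ (Finset.measurable_sum _ fun c _ => mα c),
        ← lintegral_add_right _ ((Finset.measurable_sum _ fun c _ => mα c).const_mul _),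
        ← setLIntegral_one]
      refine setLIntegral_mono' (Kt_meas a t) fun x hx => ?_
      rw [← ENNReal.ofReal_sum_of_nonneg fun c _ => α0 c x, ← ENNReal.ofReal_mul (by positivity),
        ← ENNReal.ofReal_add (Finset.sum_nonneg fun J _ => F0 J x)
          (mul_nonneg (by positivity) (Finset.sum_nonneg fun c _ => α0 c x))]
      refine ENNReal.one_le_ofReal.2 ((good_mass (fun c => α0 c x) (fun c => (Real.exp_pos _).le)
        (inK x hx) B0).trans (le_of_eq ?_))
      simp only [eF, ← Finset.sum_div]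
      ring
    have a3 := a2.trans (add_le_add le_rfl (mul_le_mul_right a1 _))
    rw [eV, ← ENNReal.ofReal_mul (by positivity), ← ENNReal.ofReal_mul (by positivity),
      ← tsub_le_iff_right, ← ENNReal.ofReal_sub _ (by positivity)] at a3
    refine (ENNReal.ofReal_le_ofReal ?_).trans a3
    have a4 : 1 / (B : ℝ) * ((0.416 + 0.004) * M) ≤ 0.63 := by
      have : (2 * M : ℝ) ≤ 3 * B := by exact_mod_cast hg
      rw [one_div_mul_eq_div, div_le_iff₀ Bp]
      linarith
    nlinarith [mul_le_mul_of_nonneg_right a4 V0]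
  obtain ⟨w', P, r1, r2, r3, r4⟩ := cover_of (Ω := Fin L → Fin m × Bool) (by omega) (Kt_meas a t) F
    (fun J ω => wk (st (b J) η) ω) (q := (1 / (2 * m : ℝ)) ^ L) (s2 := L * η ^ 2) (e1 := 0.1 * V)
    (e2 := 0.05) (D := 2 * V) (g := 0.37 * V) (by positivity) (card_paths (st_card m0) L) s0 hs
    (by norm_num) (by positivity) mF F0 iF H1
    (fun J => (walk_bad _ c0.le (st_card m0) (by positivity) mp (nb J η) (st_sum _ _)
      (st_bessel (b1 J) le_rfl) L0).trans e2) (hF1.trans hD)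
    (fun x hx => (sF x).trans (by simp [inK x hx])) H5
  refine ⟨_, inferInstance, w', P, r1, r2, r3.trans (le_of_eq ?_), le_trans ?_ r4⟩
  · rw [eV, ← ENNReal.ofReal_mul (by positivity)]
    congr 1
    ring
  · rw [eV, ← ENNReal.ofReal_mul (by positivity)]
    exact ENNReal.ofReal_le_ofReal (by linarith)

theorem frac : Frac := by
  refine ⟨16 * 10 ^ 7, by norm_num, fun k hk a t h hop => ?_⟩
  have K6 : (6000 : ℝ) ≤ k := by exact_mod_cast hk
  have K0 : (0 : ℝ) < k := by linarith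
  have g0 : 0 ≤ Real.log k := Real.log_nonneg (by linarith)
  have g1 := Real.log_le_sub_one_of_pos K0
  obtain ⟨r, hr⟩ : ∃ r, r = (k : ℝ) ^ (1 / 4 : ℝ) := ⟨_, rfl⟩
  have r0 : 0 < r := hr ▸ Real.rpow_pos_of_pos K0 _
  have r4 : r ^ 4 = k := by
    rw [hr, ← Real.rpow_natCast, ← Real.rpow_mul K0.le]
    norm_num
  obtain ⟨β, hβ⟩ : ∃ β, β = 4 * (1 + Real.log k) := ⟨_, rfl⟩
  have β4 : 4 ≤ β := by linarith
  have βK : β ≤ 4 * k := by linarith
  have β0 : 0 < β := by linarith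
  obtain ⟨z, hz⟩ : ∃ z, z = √(1000 * β) := ⟨_, rfl⟩
  have z2 : z ^ 2 = 1000 * β := hz ▸ Real.sq_sqrt (by positivity)
  have z0 : 0 ≤ z := hz ▸ Real.sqrt_nonneg _
  have z1 : 1 ≤ z := by nlinarith
  obtain ⟨s, hs⟩ : ∃ s, s = r / (10 ^ 7 * β) := ⟨_, rfl⟩
  have s0 : 0 < s := hs ▸ by positivity
  obtain ⟨L, hL⟩ : ∃ L : ℕ, L = ⌈6000 * (k : ℝ) ^ 3 * ((15 * (258 * z)) ^ 2 * s ^ 2)⌉₊ + 1 := ⟨_, rfl⟩
  have L0 : 0 < L := by omega
  have Lp : (0 : ℝ) < L := by exact_mod_cast L0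
  have L1 : 6000 * (k : ℝ) ^ 3 * ((15 * (258 * z)) ^ 2 * s ^ 2) ≤ L := by
    rw [hL]
    push_cast
    exact (Nat.le_ceil _).trans (by linarith)
  obtain ⟨η, hη⟩ : ∃ η, η = s / √L := ⟨_, rfl⟩
  have η0 : 0 < η := hη ▸ by positivity
  have η2 : L * η ^ 2 = s ^ 2 := by
    rw [hη, div_pow, Real.sq_sqrt Lp.le]
    field_simp
  obtain ⟨q, hq⟩ : ∃ q, q = (15 * (258 * z) * η) ^ 2 := ⟨_, rfl⟩
  have q0 : 0 < q := hq ▸ by positivity
  have q1 : L * q = (15 * (258 * z)) ^ 2 * s ^ 2 := by rw [hq, ← η2]; ring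
  have q2 : 6000 * (k : ℝ) ^ 3 * q ≤ 1 := by
    rw [← q1] at L1
    exact le_of_mul_le_mul_left (by linarith) Lp
  have k2 : (k : ℝ) ^ 2 ≤ k ^ 3 := pow_le_pow_right₀ (by linarith) (by norm_num)
  have k3 : (1 : ℝ) ≤ k ^ 3 := one_le_pow₀ (by linarith)
  obtain ⟨ι, i, w, P, h1, h2, h3, h4⟩ := core (β := β) (κ := 258 * z) h (by omega) (by omega) hop
    (m := 2 * k) (B := 6 * k) (L := L) (by omega) (by omega) (by omega) L0 (η := η)
    (l := 70 * β * q / r ^ 2) (ε := 1 / (18 * β * k)) (s := s) (by linarith) (by positivity)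
    (by nlinarith)
    (by
      have e1 : Real.exp (-(β / 2)) ≤ (k : ℝ)⁻¹ * (k : ℝ)⁻¹ := by
        rw [← Real.exp_log K0, ← Real.exp_neg, ← Real.exp_add]
        exact Real.exp_le_exp.2 (by linarith)
      refine (mul_le_mul_of_nonneg_right e1 (Nat.cast_nonneg _)).trans ?_
      push_cast
      field_simp
      linarith)
    (by
      rw [show 258 * z / 258 = z by ring, Real.exp_neg, ← div_eq_mul_inv,
        div_le_iff₀ (Real.exp_pos _)]
      linarith [Real.quadratic_le_exp_of_nonneg z0])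
    η0 (abs_le_of_sq_le_sq' (by rw [← hq]; nlinarith) zero_le_one).2
    (by
      rw [← hq, le_div_iff₀ (by positivity)]
      have : β * k ≤ 4 * k ^ 3 := by nlinarith
      nlinarith [mul_le_mul_of_nonneg_left this q0.le, mul_pos q0 (pow_pos K0 3)])
    (by
      rw [div_le_div_iff₀ (by positivity) (by norm_num)]
      nlinarith)
    (by
      push_cast
      field_simp
      norm_num)
    (by positivity)
    (by
      have a4 : (15 * (258 * z) * η) ^ 4 = q ^ 2 := by rw [hq]; ring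
      have a6 : (15 * (258 * z) * η) ^ 6 = q ^ 3 := by rw [hq]; ring
      rw [a4, a6]
      push_cast
      have a1 : 5 * (2 * (9 * (k : ℝ))) * q ^ 2 / (2 * k) ^ 2 + 18 * q ^ 3 * (2 * (9 * k)) ^ 2 ≤
          24 * q ^ 2 / r ^ 4 := by
        rw [r4]
        field_simp
        nlinarith [mul_pos q0 (pow_pos K0 3)]
      calc _ ≤ L * (70 * β * q / r ^ 2 +
            24 * q ^ 2 / r ^ 4 / (2 * (70 * β * q / r ^ 2)) * (384 * β ^ 2)) := by gcongr
        _ = (70 + 24 * 384 / 140) * β / r ^ 2 * (L * q) := by field_simp; ring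
        _ = (70 + 24 * 384 / 140) * (15 * 258) ^ 2 * 1000 / 10 ^ 14 := by
            rw [q1, mul_pow, mul_pow, z2, hs]
            field_simp
        _ ≤ _ := by norm_num)
    (by omega) (by omega) s0 η2.ge
  refine ⟨ι, i, w, P, h1, h2, h3.trans (le_of_eq ?_), h4⟩
  rw [← hr, hs, hβ]
  congr 2
  field_simp
  ring

/-- The upper bound with exponent `-3/4` up to logarithms. -/
theorem upper_log : ∃ C : ℝ, 0 < C ∧ ∀ᶠ n : ℕ in atTop,
    cst n (n - 1) ≤ ENNReal.ofReal (C * (1 + Real.log n) ^ 3 / (n : ℝ) ^ (3 / 4 : ℝ)) :=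
  upper frac

theorem upper_pow {ε : ℝ} (hε : 0 < ε) : ∀ᶠ n : ℕ in atTop,
    cst n (n - 1) ≤ ENNReal.ofReal ((n : ℝ) ^ (-(3 / 4) + ε)) :=
  upper_eps frac hε

end Pool.Agent.Lib.MP_fedf83_gt.UK
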