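import Pool.Agent.Lib.MP_fedf83_gt.Defs

/-! From the two eventual bounds to the limit of the exponent. -/

namespace Pool.Agent.Lib.MP_fedf83_gt.Z

open Filter Topology

theorem log_nat : Tendsto (fun n : ℕ => Real.log n) atTop atTop :=
  Real.tendsto_log_atTop.comp tendsto_natCast_atTop_atTop

theorem const_div (a : ℝ) : Tendsto (fun n : ℕ => a / Real.log n) atTop (𝓝 0) :=
  tendsto_const_nhds.div_atTop log_nat

theorem loglog_div :
    Tendsto (fun n : ℕ => Real.log (1 + Real.log n) / Real.log n) atTop (𝓝 0) := by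
  have h := (Real.tendsto_pow_log_div_mul_add_atTop 1 (-1) 1 one_ne_zero).comp
    (tendsto_atTop_add_const_left atTop 1 log_nat)
  refine h.congr fun n => ?_
  simp

/-- The exponent of a sequence squeezed between the two bounds. -/
theorem exponent (x : ℕ → ENNReal) (e : ℝ) (m : ℕ)
    (hL : ∀ ε : ℝ, 0 < ε → ∃ a : ℝ, 0 < a ∧
      ∀ᶠ n : ℕ in atTop, ENNReal.ofReal (a / (n : ℝ) ^ (e + ε)) ≤ x n)
    (hU : ∃ C : ℝ, 0 < C ∧
      ∀ᶠ n : ℕ in atTop, x n ≤ ENNReal.ofReal (C * (1 + Real.log n) ^ m / (n : ℝ) ^ e)) :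
    Tendsto (fun n : ℕ => Real.log (x n).toReal / Real.log n) atTop (𝓝 (-e)) := by
  obtain ⟨C, C0, hU⟩ := hU
  have hpos : ∀ᶠ n : ℕ in atTop, 0 < Real.log n := log_nat.eventually_gt_atTop 0
  have hn : ∀ᶠ n : ℕ in atTop, (0 : ℝ) < n :=
    tendsto_natCast_atTop_atTop.eventually_gt_atTop 0
  have low : ∀ ε : ℝ, 0 < ε → ∃ a : ℝ, 0 < a ∧
      ∀ᶠ n : ℕ in atTop, a / (n : ℝ) ^ (e + ε) ≤ (x n).toReal := fun ε hε => by
    obtain ⟨a, a0, h⟩ := hL ε hε
    refine ⟨a, a0, ?_⟩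
    filter_upwards [h, hU] with n h1 h2
    exact (ENNReal.ofReal_le_iff_le_toReal (ne_top_of_le_ne_top ENNReal.ofReal_ne_top h2)).1 h1
  refine tendsto_order.2 ⟨fun b hb => ?_, fun b hb => ?_⟩
  · obtain ⟨a, a0, h⟩ := low ((-e - b) / 2) (by linarith)
    have h3 := (const_div (Real.log a)).eventually_const_lt
      (show -((-e - b) / 2) < 0 by linarith)
    filter_upwards [h, hpos, hn, h3] with n h1 l0 n0 h4
    have p0 : 0 < (n : ℝ) ^ (e + (-e - b) / 2) := Real.rpow_pos_of_pos n0 _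
    have h5 := Real.log_le_log (div_pos a0 p0) h1
    rw [Real.log_div a0.ne' p0.ne', Real.log_rpow n0] at h5
    rw [lt_div_iff₀ l0] at h4 ⊢
    nlinarith
  · obtain ⟨a, a0, h⟩ := low 1 one_pos
    have t := (const_div (Real.log C)).add (loglog_div.const_mul (m : ℝ))
    have h3 := t.eventually_lt_const (show 0 + (m : ℝ) * 0 < b + e by simp; linarith)
    filter_upwards [h, hU, hpos, hn, h3] with n h1 h2 l0 n0 h4
    have p0 : 0 < (n : ℝ) ^ e := Real.rpow_pos_of_pos n0 _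
    have q0 : 0 < (1 + Real.log n) ^ m := by positivity
    have x0 : 0 < (x n).toReal := lt_of_lt_of_le (div_pos a0 (Real.rpow_pos_of_pos n0 _)) h1
    have h6 : (x n).toReal ≤ C * (1 + Real.log n) ^ m / (n : ℝ) ^ e :=
      ENNReal.toReal_le_of_le_ofReal (by positivity) h2
    have h5 := Real.log_le_log x0 h6
    rw [Real.log_div (by positivity) p0.ne', Real.log_mul C0.ne' q0.ne', Real.log_pow,
      Real.log_rpow n0] at h5
    rw [← mul_div_assoc, ← add_div, div_lt_iff₀ l0] at h4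
    rw [div_lt_iff₀ l0]
    nlinarith

theorem final
    (hL : ∀ ε : ℝ, 0 < ε → ∃ a : ℝ, 0 < a ∧
      ∀ᶠ n : ℕ in atTop, ENNReal.ofReal (a / (n : ℝ) ^ (3 / 4 + ε)) ≤ c n (n - 1))
    (hU : ∃ C : ℝ, 0 < C ∧ ∀ᶠ n : ℕ in atTop,
      c n (n - 1) ≤ ENNReal.ofReal (C * (1 + Real.log n) ^ 3 / (n : ℝ) ^ (3 / 4 : ℝ))) :
    Tendsto (fun n : ℕ => Real.log (c n (n - 1)).toReal / Real.log n) atTop (𝓝 (-(3 / 4))) :=
  exponent (fun n => c n (n - 1)) (3 / 4) 3 hL hU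

end Pool.Agent.Lib.MP_fedf83_gt.Z
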