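import Pool.Agent.Lib.MP_fedf83_gt.LLower
import Pool.Agent.Lib.MP_fedf83_gt.LLam
import Pool.Agent.Lib.MP_fedf83_gt.LNoise
import Pool.Agent.Lib.MP_fedf83_gt.LPart
import Pool.Agent.Lib.MP_fedf83_gt.LPhase
import Pool.Agent.Lib.MP_fedf83_gt.UUpper
import Pool.Agent.Lib.MP_fedf83_gt.ZFinal

/-! The lower bound without hypotheses, and the exponent from the fractional cover. -/

namespace Pool.Agent.Lib.MP_fedf83_gt.Z

open Filter Topology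

theorem lower (ε : ℝ) (e0 : 0 < ε) : ∃ a : ℝ, 0 < a ∧ ∀ n : ℕ, 1 ≤ n →
    ENNReal.ofReal (a / (n : ℝ) ^ (3 / 4 + ε)) ≤ c n (n - 1) :=
  P.lower
    (fun δ d0 => by
      obtain ⟨q, hq, C, C1, h⟩ := P.phase d0
      exact ⟨q, C, hq, C1, h⟩)
    (fun _ _ _ _ _ iso _ _ _ hq M1 h => P.lam_of_phase iso.bd hq M1 h)
    (fun _ _ _ _ _ iso hn J hJ _ _ _ T0 B0 hm hΨ => P.noise iso hn J hJ T0 B0 hm hΨ)
    (fun _ _ _ _ _ iso J hJ _ _ s0 s1 hΨ hA => P.partner iso J hJ s0 s1 hΨ hA) ε e0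

theorem exponent_of_frac (hF : U.Frac) :
    Tendsto (fun n : ℕ => Real.log (c n (n - 1)).toReal / Real.log n) atTop (𝓝 (-(3 / 4))) :=
  final (fun ε e0 => by
    obtain ⟨a, a0, h⟩ := lower ε e0
    exact ⟨a, a0, (eventually_ge_atTop 1).mono h⟩) (U.upper hF)

end Pool.Agent.Lib.MP_fedf83_gt.Z
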