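import Pool.Agent.Lib.MP_fedf83_gt.KUp2
import Pool.Agent.Lib.MP_fedf83_gt.KFrame
import Pool.Agent.Lib.MP_fedf83_gt.KLowIn
import Pool.Agent.Lib.MP_fedf83_gt.KLower
import Pool.Agent.Lib.MP_fedf83_gt.ZLow
import Pool.Agent.Lib.MP_fedf83_gt.UFrac

/-! The exponent in every fixed codimension. -/

namespace Pool.Agent.Lib.MP_fedf83_gt.Z

open Filter Topology

theorem lowerK {k : ℕ} (hk : 2 ≤ k) (ε : ℝ) (e0 : 0 < ε) : ∃ a : ℝ, 0 < a ∧ ∀ n : ℕ, k ≤ n →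
    ENNReal.ofReal (a / (n : ℝ) ^ ((k : ℝ) - 1 / 2 + ε)) ≤ c n (n - k) := by
  obtain ⟨A, A0, G, G0, h⟩ := FL.axes_in k (by omega)
  exact FL.lower_of_axes hk A0 G0 h ε e0

theorem exponentK {k : ℕ} (hk : 2 ≤ k) :
    Tendsto (fun n : ℕ => Real.log (c n (n - k)).toReal / Real.log n) atTop
      (𝓝 (-((k : ℝ) - 1 / 2))) :=
  exponent (fun n => c n (n - k)) _ (3 * k) (fun ε e0 => by
    obtain ⟨a, a0, h⟩ := lowerK hk ε e0
    exact ⟨a, a0, (eventually_ge_atTop k).mono h⟩) (U.upperK_log (by omega) (P.frame (by omega)))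

theorem exponent_all (k : ℕ) (hk : 1 ≤ k) :
    Tendsto (fun n : ℕ => Real.log (c n (n - k)).toReal / Real.log n) atTop
      (𝓝 (if k = 1 then -(3 / 4) else -((k : ℝ) - 1 / 2))) := by
  split_ifs with h
  · subst h
    exact exponent_of_frac UK.frac
  · exact exponentK (by omega)

end Pool.Agent.Lib.MP_fedf83_gt.Z
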