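import Pool.Agent.Lib.MP_fedf83_gt.UBoost

/-! Sections by flats of a fixed dimension and shadows along them. -/

namespace Pool.Agent.Lib.MP_fedf83_gt.FL

open MeasureTheory Set Module Pool.Agent.Lib.MP_fedf83_gt.B
open scoped ENNReal RealInnerProductSpace Pointwise

variable {n k : ℕ}

/-- Orthonormal frames. -/
abbrev Fr (k n : ℕ) := E k →ₗᵢ[ℝ] E n

/-- The orthogonal complement of a frame. -/
noncomputable def base (U : Fr k n) : Submodule ℝ (E n) := (LinearMap.range U.toLinearMap)ᗮ

/-- The volume of the section by the flat through `x`. -/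
noncomputable def sec (U : Fr k n) (S : Set (E n)) (x : E n) : ℝ≥0∞ :=
  volume {v : E k | x + U v ∈ S}

/-- The volume of the shadow along a frame. -/
noncomputable def sh (U : Fr k n) (S : Set (E n)) : ℝ≥0∞ := projVol (base U) S

theorem base_rank (U : Fr k n) : finrank ℝ (base U) = n - k := by
  have h := (LinearMap.range U.toLinearMap).finrank_add_finrank_orthogonal
  rw [LinearMap.finrank_range_of_inj U.injective] at h
  simp only [finrank_euclideanSpace, Fintype.card_fin] at h
  unfold base
  omega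

theorem base_orth (U : Fr k n) : (base U)ᗮ = LinearMap.range U.toLinearMap :=
  Submodule.orthogonal_orthogonal _

theorem exists_range (Y : Submodule ℝ (E n)) (hY : finrank ℝ Y = k) :
    ∃ U : Fr k n, LinearMap.range U.toLinearMap = Y := by
  let e : E k ≃ₗᵢ[ℝ] Y := ((stdOrthonormalBasis ℝ Y).reindex (finCongr hY)).repr.symm
  refine ⟨Y.subtypeₗᵢ.comp e.toLinearIsometry, ?_⟩
  ext x
  constructor
  · rintro ⟨y, rfl⟩; exact (e y).2
  · intro hx
    exact ⟨e.symm ⟨x, hx⟩, by simp⟩

theorem exists_base (hk : k ≤ n) (L : Submodule ℝ (E n)) (hL : finrank ℝ L = n - k) :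
    ∃ U : Fr k n, base U = L := by
  have h := L.finrank_add_finrank_orthogonal
  simp only [finrank_euclideanSpace, Fintype.card_fin] at h
  obtain ⟨U, hU⟩ := exists_range (k := k) Lᗮ (by omega)
  exact ⟨U, by rw [base, hU, Submodule.orthogonal_orthogonal]⟩

theorem exists_fr (hk : k ≤ n) : Nonempty (Fr k n) := by
  obtain ⟨f, hf⟩ := exists_linearIndependent_of_le_finrank (R := ℝ) (M := E n) (n := k)
    (by simpa using hk)
  obtain ⟨U, -⟩ := exists_range (k := k) _ ((finrank_span_eq_card hf).trans (by simp))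
  exact ⟨U⟩

theorem fub (U : Fr k n) {f : E n → ℝ≥0∞} (hf : Measurable f) :
    ∫⁻ x, f x = ∫⁻ y : base U, ∫⁻ v : E k, f (y + U v) := by
  have h := ((base U).measurePreserving_measurableEquivProd (0 : E n)).symm
  rw [InnerProductSpace.euclideanHausdorffMeasure_eq_volume] at h
  let e : E k ≃ₗᵢ[ℝ] (base U)ᗮ :=
    U.equivRange.trans (LinearIsometryEquiv.ofEq _ _ (base_orth U).symm)
  rw [← h.lintegral_comp hf, Measure.volume_eq_prod,
    lintegral_prod _ (by exact (hf.comp (MeasurableEquiv.measurable _)).aemeasurable)]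
  refine lintegral_congr fun y => ?_
  rw [← e.measurePreserving.lintegral_comp
    (by exact (hf.comp (MeasurableEquiv.measurable _)).comp measurable_prodMk_left)]
  refine lintegral_congr fun v => ?_
  simp [e]

theorem proj_add (U : Fr k n) (x : E n) (v : E k) :
    (base U).orthogonalProjectionOnto (x + U v) = (base U).orthogonalProjectionOnto x := by
  rw [map_add, (Submodule.orthogonalProjectionOnto_eq_zero_iff (v := U v)).2
    (by rw [base_orth]; exact ⟨v, rfl⟩), add_zero]

theorem decomp (U : Fr k n) (x : E n) :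
    ∃ s : E k, x = ((base U).orthogonalProjectionOnto x : E n) + U s := by
  have hx : x - (base U).starProjection x ∈ (base U)ᗮ :=
    (base U).sub_starProjection_mem_orthogonal x
  rw [base_orth] at hx
  obtain ⟨s, hs⟩ := hx
  refine ⟨s, ?_⟩
  have : U s = x - (base U).starProjection x := hs
  rw [this, Submodule.starProjection_apply]
  abel

theorem flat_shift (U : Fr k n) (f : E n → ℝ≥0∞) (x : E n) (s : E k) :
    ∫⁻ v, f (x + U s + U v) = ∫⁻ v, f (x + U v) := by
  rw [← lintegral_add_left_eq_self (fun v : E k => f (x + U v)) s]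
  simp only [map_add, add_assoc]

theorem measurable_flat (U : Fr k n) {f : E n → ℝ≥0∞} (hf : Measurable f) :
    Measurable fun x : E n => ∫⁻ v, f (x + U v) :=
  Measurable.lintegral_prod_right' (f := fun p : E n × E k => f (p.1 + U p.2))
    (hf.comp (measurable_fst.add (U.continuous.measurable.comp measurable_snd)))

theorem sec_eq (U : Fr k n) {S : Set (E n)} (hS : MeasurableSet S) (x : E n) :
    sec U S x = ∫⁻ v, S.indicator 1 (x + U v) := by
  have m : MeasurableSet {v : E k | x + U v ∈ S} :=
    (measurable_const.add U.continuous.measurable) hS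
  rw [sec, ← lintegral_indicator_one m]
  rfl

theorem sec_shift (U : Fr k n) (S : Set (E n)) (x : E n) (s : E k) :
    sec U S (x + U s) = sec U S x := by
  have : {v : E k | x + U s + U v ∈ S} = (fun v => s + v) ⁻¹' {v : E k | x + U v ∈ S} := by
    ext v
    simp [add_assoc]
  rw [sec, this, measure_preimage_add, sec]

theorem sec_proj (U : Fr k n) (S : Set (E n)) (x : E n) :
    sec U S ((base U).orthogonalProjectionOnto x) = sec U S x := by
  obtain ⟨s, hs⟩ := decomp U x
  conv_rhs => rw [hs, sec_shift]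

theorem measurable_sec (U : Fr k n) {S : Set (E n)} (hS : MeasurableSet S) :
    Measurable (sec U S) := by
  have : sec U S = fun x => ∫⁻ v, S.indicator 1 (x + U v) := funext (sec_eq U hS)
  rw [this]
  exact measurable_flat U (measurable_one.indicator hS)

theorem vol_eq (U : Fr k n) {S : Set (E n)} (hS : MeasurableSet S) :
    volume S = ∫⁻ y : base U, sec U S y := by
  rw [← lintegral_indicator_one hS, fub U (measurable_one.indicator hS)]
  simp only [sec_eq U hS]

theorem sh_le (U : Fr k n) {K C : Set (E n)} (hC : MeasurableSet C) (a : ℝ≥0∞)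
    (h : ∀ x ∈ K, a ≤ sec U C x) : a * sh U K ≤ volume C := by
  rw [vol_eq U hC]
  refine le_trans ?_ (mul_meas_ge_le_lintegral
    ((measurable_sec U hC).comp measurable_subtype_coe) a)
  refine mul_le_mul_right (measure_mono ?_) _
  rintro _ ⟨x, hx, rfl⟩
  exact (h x hx).trans (sec_proj U C x).ge

theorem lint_le_sh (U : Fr k n) {K : Set (E n)} {f : base U → ℝ≥0∞} (a : ℝ≥0∞)
    (h1 : ∀ y, y ∉ (base U).orthogonalProjectionOnto '' K → f y = 0) (h2 : ∀ y, f y ≤ a) :
    ∫⁻ y, f y ≤ a * sh U K := by
  set A := toMeasurable volume ((base U).orthogonalProjectionOnto '' K)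
  have hA : MeasurableSet A := measurableSet_toMeasurable _ _
  calc ∫⁻ y, f y ≤ ∫⁻ y, A.indicator (fun _ => a) y := by
        refine lintegral_mono fun y => ?_
        by_cases hy : y ∈ A
        · simp [hy, h2]
        · rw [h1 y fun h => hy (subset_toMeasurable _ _ h)]; exact zero_le
    _ = a * volume A := by rw [lintegral_indicator_const hA]
    _ = _ := by rw [measure_toMeasurable]; rfl

theorem sec_zero (U : Fr k n) {K C : Set (E n)} (hCK : C ⊆ K) (y : base U)
    (hy : y ∉ (base U).orthogonalProjectionOnto '' K) : sec U C y = 0 := by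
  have : {v : E k | (y : E n) + U v ∈ C} = ∅ := by
    ext v
    simp only [mem_ofPred_eq, mem_empty_iff_false, iff_false]
    intro hv
    exact hy ⟨_, hCK hv, by rw [proj_add]; simp⟩
  rw [sec, this, measure_empty]

theorem le_sh (U : Fr k n) {K C : Set (E n)} (hC : MeasurableSet C) (hCK : C ⊆ K) (a : ℝ≥0∞)
    (h : ∀ x, sec U C x ≤ a) : volume C ≤ a * sh U K := by
  rw [vol_eq U hC]
  exact lint_le_sh U a (sec_zero U hCK) fun y => h y

theorem sigma_le_sh (U : Fr k n) (K : Set (E n)) : sigma (n - k) K ≤ sh U K :=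
  iInf₂_le (f := fun (L : Submodule ℝ (E n)) (_ : finrank ℝ L = n - k) => projVol L K) _
    (base_rank U)

theorem le_sigma_sh (hk : k ≤ n) {K : Set (E n)} {a : ℝ≥0∞} (h : ∀ U : Fr k n, a ≤ sh U K) :
    a ≤ sigma (n - k) K := by
  refine le_iInf₂ fun L hL => ?_
  obtain ⟨U, rfl⟩ := exists_base hk L hL
  exact h U

theorem cover_lower (hk : k ≤ n) {S : Set (E n)} (hS : MeasurableSet S) {Δ : ℝ≥0∞} (h0 : Δ ≠ 0)
    (h1 : Δ ≠ ⊤) (h : ∀ (U : Fr k n) (x : E n), sec U S x ≤ Δ)
    {ι : Type} [Countable ι] (G : ι → Set (E n)) (hG : ∀ i, MeasurableSet (G i))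
    (hc : S ⊆ ⋃ i, G i) : volume S ≤ Δ * ∑' i, sigma (n - k) (G i) := by
  have key : ∀ i, volume (G i ∩ S) ≤ Δ * sigma (n - k) (G i) := by
    intro i
    rw [← ENNReal.div_le_iff' h0 h1]
    refine le_sigma_sh hk fun U => ?_
    rw [ENNReal.div_le_iff' h0 h1]
    exact le_sh U ((hG i).inter hS) inter_subset_left Δ fun x =>
      le_trans (measure_mono fun t ht => ht.2) (h U x)
  calc volume S ≤ volume (⋃ i, G i ∩ S) := by
        refine measure_mono fun x hx => ?_
        obtain ⟨i, hi⟩ := mem_iUnion.1 (hc hx)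
        exact mem_iUnion.2 ⟨i, hi, hx⟩
    _ ≤ ∑' i, volume (G i ∩ S) := measure_iUnion_le _
    _ ≤ ∑' i, Δ * sigma (n - k) (G i) := ENNReal.tsum_le_tsum key
    _ = _ := ENNReal.tsum_mul_left

/-- An injective linear parametrisation is an orthonormal one up to a constant. -/
theorem exists_jac (M : E k →ₗ[ℝ] E n) (hM : Function.Injective M) :
    ∃ (U : Fr k n) (J : ℝ≥0∞), (∀ (f : E n → ℝ≥0∞), Measurable f → ∀ x,
      ∫⁻ v, f (x + M v) = J * ∫⁻ v, f (x + U v)) ∧
      (∀ (f : E n → ℝ≥0∞), Measurable f → ∀ x, J * ∫⁻ v, f (x + U v) = ∫⁻ v, f (x + M v)) ∧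
      J * volume (Metric.closedBall (0 : E k) 1) = volume {v | ‖M v‖ ≤ 1} := by
  obtain ⟨U, hU⟩ := exists_range (k := k) (LinearMap.range M)
    (by rw [LinearMap.finrank_range_of_inj hM]; simp)
  have h1 : ∀ v, ∃ w, U w = M v := fun v => by
    have : M v ∈ LinearMap.range U.toLinearMap := by rw [hU]; exact ⟨v, rfl⟩
    exact this
  choose b hb using h1
  let A : E k →ₗ[ℝ] E k :=
    { toFun := b
      map_add' := fun x y => U.injective (by rw [map_add, hb, hb, hb, map_add])
      map_smul' := fun c x => U.injective (by rw [map_smul, hb, hb, map_smul]; rfl) }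
  have hA : Function.Injective A := fun x y h => hM (by rw [← hb, ← hb]; exact congrArg U h)
  have hd : LinearMap.det A ≠ 0 := by
    rw [Ne, LinearMap.det_eq_zero_iff_ker_ne_bot, not_not]
    exact LinearMap.ker_eq_bot.2 hA
  have key : ∀ (f : E n → ℝ≥0∞), Measurable f → ∀ x, ∫⁻ v, f (x + M v) =
      ENNReal.ofReal |(LinearMap.det A)⁻¹| * ∫⁻ v, f (x + U v) := fun f hf x => by
    have m : Measurable fun v : E k => f (x + U v) :=
      hf.comp (measurable_const.add U.continuous.measurable)
    rw [← smul_eq_mul, ← lintegral_smul_measure,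
      ← Measure.map_linearMap_addHaar_eq_smul_addHaar _ hd,
      lintegral_map m A.continuous_of_finiteDimensional.measurable]
    refine lintegral_congr fun v => ?_
    rw [← hb]; rfl
  refine ⟨U, _, key, fun f hf x => (key f hf x).symm, ?_⟩
  have mb : MeasurableSet (Metric.closedBall (0 : E n) 1) := measurableSet_closedBall
  have := key _ (measurable_one.indicator mb) 0
  rw [← sec_eq U mb] at this
  have e1 : sec U (Metric.closedBall 0 1) 0 = volume (Metric.closedBall (0 : E k) 1) := by
    unfold sec; congr 1; ext v; simp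
  have m2 : MeasurableSet {v | ‖M v‖ ≤ 1} :=
    (isClosed_le (M.continuous_of_finiteDimensional.norm) continuous_const).measurableSet
  rw [← e1, ← this, ← lintegral_indicator_one m2]
  refine lintegral_congr fun v => ?_
  by_cases hv : ‖M v‖ ≤ 1 <;> simp [indicator, hv]

end Pool.Agent.Lib.MP_fedf83_gt.FL
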