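import Pool.Agent.Lib.MP_fedf83_gt.PGau

/-! Gaussian frames: law of a linear combination, dilation, tails. -/

namespace Pool.Agent.Lib.MP_fedf83_gt.P

open MeasureTheory ProbabilityTheory Set Pool.Agent.Lib.MP_fedf83_gt.B
open scoped ENNReal RealInnerProductSpace

variable {m k : ℕ}

theorem gam_eq (m : ℕ) : gam m = stdGaussian (E m) := by
  refine Measure.ext_of_charFun (funext fun t => ?_)
  have z := ZG_pos m
  have hZ : ((ZG m : ℝ) : ℂ) = ((Real.pi : ℂ) / (1 / 2 : ℂ)) ^ (Module.finrank ℝ (E m) / 2 : ℂ) := by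
    rw [← GaussianFourier.integral_cexp_neg_mul_sq_norm (V := E m) (b := (1 / 2 : ℂ)) (by norm_num),
      ZG, ← integral_complex_ofReal]
    refine integral_congr_ae (ae_of_all _ fun g => ?_)
    simp only [ph]
    push_cast
    congr 1
    ring
  have h := GaussianFourier.integral_cexp_neg_mul_sq_norm_add (V := E m) (b := (1 / 2 : ℂ))
    (by norm_num) Complex.I t
  rw [← hZ] at h
  rw [charFun_stdGaussian, charFun_apply, gam, integral_withDensity_eq_integral_toReal_smul
    (continuous_ph.measurable.div_const _).ennreal_ofReal (by simp)]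
  have e : ∀ g : E m, (ENNReal.ofReal (ph g / ZG m)).toReal • Complex.exp (⟪g, t⟫ * Complex.I) =
      Complex.exp (-(1 / 2 : ℂ) * ‖g‖ ^ 2 + Complex.I * ⟪t, g⟫) / (ZG m : ℂ) := fun g => by
    rw [ENNReal.toReal_ofReal (div_pos (ph_pos g) z).le, Complex.real_smul, Complex.exp_add, ph,
      real_inner_comm]
    push_cast
    rw [mul_comm Complex.I, show -((‖g‖ : ℂ) ^ 2 / 2) = -(1 / 2) * (‖g‖ : ℂ) ^ 2 by ring]
    ring
  simp only [e]
  have z' : (ZG m : ℂ) ≠ 0 := by exact_mod_cast z.ne'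
  rw [integral_div, h, mul_div_cancel_left₀ _ z', Complex.I_sq]
  congr 1
  ring

/-- The linear map with the given columns. -/
noncomputable def cols (ξ : Fin k → E m) : E k →L[ℝ] E m :=
  ∑ i, (EuclideanSpace.proj i : E k →L[ℝ] ℝ).smulRight (ξ i)

theorem cols_apply (ξ : Fin k → E m) (v : E k) : cols ξ v = ∑ i, v i • ξ i := by
  simp [cols]

theorem cols_cont : Continuous fun p : (Fin k → E m) × E k => cols p.1 p.2 := by
  simp only [cols_apply]
  fun_prop

theorem cols_law (v : E k) {f : E m → ℝ≥0∞} (hf : Measurable f) :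
    ∫⁻ ξ : Fin k → E m, f (cols ξ v) ∂Measure.pi (fun _ => stdGaussian (E m)) =
      ∫⁻ η, f (‖v‖ • η) ∂stdGaussian (E m) := by
  have m1 : Measurable fun ξ : Fin k → E m => cols ξ v :=
    (cols_cont.comp (continuous_id.prodMk continuous_const)).measurable
  have e : (Measure.pi fun _ : Fin k => stdGaussian (E m)).map (fun ξ => cols ξ v) =
      (stdGaussian (E m)).map (‖v‖ • ·) := by
    refine Measure.ext_of_charFun (funext fun t => ?_)
    rw [charFun_map_smul, charFun_apply, integral_map m1.aemeasurable (by fun_prop)]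
    simp_rw [cols_apply, sum_inner, Complex.ofReal_sum, Finset.sum_mul, Complex.exp_sum,
      integral_fintype_prod_eq_prod
        (f := fun i (x : E m) => Complex.exp (⟪v i • x, t⟫ * Complex.I)),
      real_inner_smul_left, ← real_inner_smul_right, ← charFun_apply, charFun_stdGaussian,
      ← Complex.exp_sum]
    congr 1
    rw [← Finset.sum_div, Finset.sum_neg_distrib]
    simp only [norm_smul, ← Complex.ofReal_pow, ← Complex.ofReal_sum, mul_pow, norm_norm,
      ← Finset.sum_mul, EuclideanSpace.norm_sq_eq]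
  rw [← lintegral_map hf m1, e, lintegral_map hf (measurable_const_smul _)]

theorem dilate {s : ℝ} (s0 : 0 < s) {f : E m → ℝ≥0∞} (hf : Measurable f) :
    ∫⁻ η, f (s⁻¹ • η) ∂stdGaussian (E m) = ∫⁻ y, ENNReal.ofReal
      (Real.exp (m * Real.log s - ‖y‖ ^ 2 * (s ^ 2 - 1) / 2)) * f y ∂stdGaussian (E m) := by
  have md : Measurable fun g : E m => ENNReal.ofReal (ph g / ZG m) :=
    (continuous_ph.measurable.div_const _).ennreal_ofReal
  have z := ZG_pos m
  rw [← gam_eq, gam, lintegral_withDensity_eq_lintegral_mul _ md (by fun_prop),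
    lintegral_withDensity_eq_lintegral_mul _ md (by fun_prop)]
  have mF : Measurable fun y : E m => ENNReal.ofReal (ph (s • y) / ZG m) * f y :=
    (md.comp (measurable_const_smul s)).mul hf
  have h := lintegral_map (μ := volume) mF (measurable_const_smul s⁻¹)
  rw [Measure.map_addHaar_smul _ (inv_ne_zero s0.ne'), lintegral_smul_measure, smul_eq_mul,
    ← lintegral_const_mul _ mF] at h
  simp only [smul_inv_smul₀ s0.ne'] at h
  simp only [Pi.mul_apply]
  rw [← h]
  refine lintegral_congr fun y => ?_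
  rw [← mul_assoc, ← mul_assoc, ← ENNReal.ofReal_mul (abs_nonneg _),
    ← ENNReal.ofReal_mul (div_pos (ph_pos _) z).le]
  congr 2
  rw [inv_pow, inv_inv, abs_of_pos (pow_pos s0 _), finrank_euclideanSpace, Fintype.card_fin,
    Real.exp_sub, ← Real.log_pow, Real.exp_log (pow_pos s0 _), ph, ph, norm_smul, mul_pow,
    Real.norm_eq_abs, sq_abs, show -(s ^ 2 * ‖y‖ ^ 2 / 2) =
      -(‖y‖ ^ 2 / 2) - ‖y‖ ^ 2 * (s ^ 2 - 1) / 2 by ring, Real.exp_sub]
  ring

theorem dilate_le {s c : ℝ} (s0 : 0 < s) {f : E m → ℝ≥0∞} (hf : Measurable f) {S : Set (E m)}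
    (hS : MeasurableSet S) (h : ∀ y ∈ S, -c ≤ m * Real.log s - ‖y‖ ^ 2 * (s ^ 2 - 1) / 2) :
    ∫⁻ y in S, f y ∂stdGaussian (E m) ≤
      ENNReal.ofReal (Real.exp c) * ∫⁻ η, f (s⁻¹ • η) ∂stdGaussian (E m) := by
  rw [dilate s0 hf, ← lintegral_const_mul _ (by fun_prop), ← lintegral_indicator hS]
  refine lintegral_mono fun y => ?_
  by_cases hy : y ∈ S
  · rw [indicator_of_mem hy, ← mul_assoc, ← ENNReal.ofReal_mul (Real.exp_pos _).le, ← Real.exp_add]
    refine le_mul_of_one_le_left' (ENNReal.one_le_ofReal.2 (Real.one_le_exp ?_))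
    linarith [h y hy]
  · rw [indicator_of_notMem hy]
    exact zero_le

theorem log_up {d : ℝ} (d0 : 0 ≤ d) : d - d ^ 2 ≤ Real.log (1 + d) := by
  refine le_trans ?_ (Real.one_sub_inv_le_log_of_pos (by linarith))
  have : (1 + d)⁻¹ ≤ 1 - d + d ^ 2 := by
    rw [inv_eq_one_div, div_le_iff₀ (by linarith)]
    nlinarith [pow_nonneg d0 3]
  linarith

theorem log_down {d : ℝ} (d0 : 0 ≤ d) (d1 : d ≤ 1 / 2) : -d - 2 * d ^ 2 ≤ Real.log (1 - d) := by
  refine le_trans ?_ (Real.one_sub_inv_le_log_of_pos (by linarith))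
  have : (1 - d)⁻¹ ≤ 1 + d + 2 * d ^ 2 := by
    rw [inv_eq_one_div, div_le_iff₀ (by linarith)]
    nlinarith [sq_nonneg d]
  linarith

theorem sq_tail {r L : ℝ} (hr : r ^ 2 = m) (r2 : 2 ≤ r) (L0 : 0 ≤ L) :
    stdGaussian (E m) {η | L * r < |‖η‖ ^ 2 - m|} ≤ ENNReal.ofReal (2 * Real.exp (3 - L / 2)) := by
  have r0 : 0 < r := by linarith
  obtain ⟨q, hq⟩ : ∃ q, q = r⁻¹ := ⟨_, rfl⟩
  have q0 : 0 < q := hq ▸ inv_pos.2 r0
  have e : r * q = 1 := by rw [hq]; field_simp
  have q1 : q ≤ 1 / 2 := by nlinarith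
  have e2 : (m : ℝ) * q ^ 2 = 1 := by rw [← hr, ← mul_pow, e, one_pow]
  have m0 : (0 : ℝ) ≤ m := Nat.cast_nonneg _
  have h1 := dilate_le (m := m) (s := 1 - q) (c := 3 - L / 2) (by linarith) (f := fun _ => 1)
    measurable_const (S := {η | m + L * r < ‖η‖ ^ 2})
    (measurableSet_lt measurable_const (by fun_prop)) (fun y hy => by
      have a1 := mul_le_mul_of_nonneg_left (log_down q0.le q1) m0
      have a2 := mul_le_mul_of_nonneg_right (le_of_lt hy) (show 0 ≤ q - q ^ 2 / 2 by nlinarith)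
      have a3 : L * r * (q - q ^ 2 / 2) = L * (1 - q / 2) := by
        linear_combination L * (1 - q / 2) * e
      nlinarith)
  have h2 := dilate_le (m := m) (s := 1 + q) (c := 3 - L / 2) (by linarith) (f := fun _ => 1)
    measurable_const (S := {η | ‖η‖ ^ 2 < m - L * r})
    (measurableSet_lt (by fun_prop) measurable_const) (fun y hy => by
      have a1 := mul_le_mul_of_nonneg_left (log_up q0.le) m0
      have a2 := mul_le_mul_of_nonneg_right (le_of_lt hy) (show 0 ≤ q + q ^ 2 / 2 by positivity)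
      have a3 : L * r * (q + q ^ 2 / 2) = L * (1 + q / 2) := by
        linear_combination L * (1 + q / 2) * e
      nlinarith)
  simp only [lintegral_const, one_mul, measure_univ, mul_one, Measure.restrict_apply_univ] at h1 h2
  rw [two_mul, ENNReal.ofReal_add (Real.exp_pos _).le (Real.exp_pos _).le]
  refine le_trans (le_trans (measure_mono fun η hη => ?_) (measure_union_le _ _)) (add_le_add h1 h2)
  rcases lt_abs.1 (show L * r < |‖η‖ ^ 2 - m| from hη) with h | h
  · exact Or.inl (show m + L * r < ‖η‖ ^ 2 by linarith)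
  · exact Or.inr (show ‖η‖ ^ 2 < m - L * r by linarith)

/-- Frames that are nearly orthogonal. -/
def Bad (k m : ℕ) (δ : ℝ) : Set (Fin k → E m) := ⋃ p : Fin k × Fin k,
  {ξ | 4 * δ < |‖cols ξ (EuclideanSpace.single p.1 1 + EuclideanSpace.single p.2 1)‖ ^ 2 -
    m * ‖(EuclideanSpace.single p.1 1 + EuclideanSpace.single p.2 1 : E k)‖ ^ 2|}

theorem set_meas (v : E k) (a b : ℝ) :
    MeasurableSet {ξ : Fin k → E m | a < |‖cols ξ v‖ ^ 2 - b|} := by
  have : Continuous fun ξ : Fin k → E m => cols ξ v :=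
    cols_cont.comp (continuous_id.prodMk continuous_const)
  exact measurableSet_lt measurable_const (by fun_prop)

theorem Bad_meas (δ : ℝ) : MeasurableSet (Bad k m δ) :=
  MeasurableSet.iUnion fun _ => set_meas _ _ _

theorem Bad_le {r L : ℝ} (hr : r ^ 2 = m) (r2 : 2 ≤ r) (L0 : 0 ≤ L) :
    Measure.pi (fun _ => stdGaussian (E m)) (Bad k m (L * r)) ≤
      ENNReal.ofReal (k ^ 2 * (2 * Real.exp (3 - L / 2))) := by
  refine (measure_iUnion_fintype_le _ _).trans ?_
  refine (Finset.sum_le_card_nsmul _ _ (ENNReal.ofReal (2 * Real.exp (3 - L / 2))) ?_).trans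
    (le_of_eq ?_)
  · intro p _
    set v : E k := EuclideanSpace.single p.1 1 + EuclideanSpace.single p.2 1 with hv
    have v2 : ‖v‖ ≤ 2 := (norm_add_le _ _).trans (by simp; norm_num)
    have mT : MeasurableSet {y : E m | 4 * (L * r) < |‖y‖ ^ 2 - m * ‖v‖ ^ 2|} :=
      measurableSet_lt measurable_const (by fun_prop)
    have mU : MeasurableSet {η : E m | L * r < |‖η‖ ^ 2 - m|} :=
      measurableSet_lt measurable_const (by fun_prop)
    have h := cols_law v (measurable_one.indicator mT)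
    refine le_trans ?_ (sq_tail hr r2 L0)
    rw [← lintegral_indicator_one (set_meas _ _ _), ← lintegral_indicator_one mU]
    refine le_trans (le_of_eq ?_) (h.le.trans (lintegral_mono fun η => ?_))
    · rfl
    · by_cases hη : η ∈ {η : E m | L * r < |‖η‖ ^ 2 - m|}
      · rw [indicator_of_mem hη]
        exact indicator_le_self' (fun _ _ => zero_le) _
      · rw [indicator_of_notMem]
        · exact zero_le
        simp only [mem_ofPred_eq, not_lt] at hη ⊢
        rw [norm_smul, mul_pow, norm_norm, mul_comm (m : ℝ), ← mul_sub, abs_mul,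
          abs_of_nonneg (sq_nonneg _)]
        exact mul_le_mul (by nlinarith [norm_nonneg v]) hη (abs_nonneg _) (by norm_num)
  · rw [Finset.card_univ, Fintype.card_prod, Fintype.card_fin, nsmul_eq_mul,
      ENNReal.ofReal_mul (p := (k : ℝ) ^ 2) (by positivity), sq, ← Nat.cast_mul,
      ENNReal.ofReal_natCast]

theorem good_norm {δ : ℝ} {ξ : Fin k → E m} (h : ξ ∉ Bad k m δ) (hδ : 6 * k * δ ≤ m) (v : E k) :
    m / 2 * ‖v‖ ^ 2 ≤ ‖cols ξ v‖ ^ 2 := by
  simp only [Bad, mem_iUnion, mem_ofPred_eq, not_exists, not_lt] at h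
  set b : Fin k → Fin k → ℝ := fun i j => ⟪ξ i, ξ j⟫ - if i = j then (m : ℝ) else 0 with hb
  have c1 : ∀ i, cols ξ (EuclideanSpace.single i 1) = ξ i := fun i => by
    simp [cols_apply, Pi.single_apply]
  have h1 : ∀ i j, |b i i + 2 * b i j + b j j| ≤ 4 * δ := fun i j => by
    refine le_trans (le_of_eq ?_) (h (i, j))
    congr 1
    simp only [hb, map_add, c1, norm_add_sq_real, real_inner_self_eq_norm_sq, if_true,
      PiLp.norm_single, EuclideanSpace.inner_single_left, PiLp.single_apply]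
    by_cases hij : i = j <;> simp [hij] <;> ring
  have h2 : ∀ i j, |b i j| ≤ 3 * δ := fun i j => by
    have a1 := abs_le.1 (h1 i i)
    have a2 := abs_le.1 (h1 j j)
    have a3 := abs_le.1 (h1 i j)
    rw [abs_le]
    constructor <;> linarith [a1.1, a1.2, a2.1, a2.2, a3.1, a3.2]
  have n2 : ‖v‖ ^ 2 = ∑ i, v i ^ 2 := by simp [EuclideanSpace.norm_sq_eq]
  have e : ‖cols ξ v‖ ^ 2 = ∑ i, ∑ j, v i * v j * b i j + m * ‖v‖ ^ 2 := by
    rw [← real_inner_self_eq_norm_sq, cols_apply, sum_inner, n2, Finset.mul_sum,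
      ← Finset.sum_add_distrib]
    refine Finset.sum_congr rfl fun i _ => ?_
    simp only [inner_sum, real_inner_smul_left, real_inner_smul_right, hb, mul_sub, mul_ite,
      mul_zero, Finset.sum_sub_distrib, Finset.sum_ite_eq, Finset.mem_univ, if_true]
    rw [show ∀ a c d : ℝ, a - c + d = a + (d - c) from fun _ _ _ => by ring,
      show m * v i ^ 2 - v i * v i * m = 0 by ring, add_zero]
    exact Finset.sum_congr rfl fun j _ => by ring
  have l : -(3 * δ * k * ‖v‖ ^ 2) ≤ ∑ i, ∑ j, v i * v j * b i j := by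
    have : ∑ i : Fin k, ∑ j : Fin k, -(3 * δ / 2 * (v i ^ 2 + v j ^ 2)) = -(3 * δ * k * ‖v‖ ^ 2) := by
      simp only [Finset.sum_neg_distrib, ← Finset.mul_sum, Finset.sum_add_distrib, Finset.sum_const,
        Finset.card_univ, Fintype.card_fin, nsmul_eq_mul, ← n2]
      ring
    rw [← this]
    refine Finset.sum_le_sum fun i _ => Finset.sum_le_sum fun j _ => ?_
    have a := abs_le.1 (h2 i j)
    nlinarith [mul_nonneg (sub_nonneg.2 a.2) (sq_nonneg (v i - v j)),
      mul_nonneg (sub_nonneg.2 a.1) (sq_nonneg (v i + v j))]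
  nlinarith [mul_le_mul_of_nonneg_right hδ (sq_nonneg ‖v‖)]

end Pool.Agent.Lib.MP_fedf83_gt.P
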