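import Pool.Agent.Lib.MP_fedf83_gt.KDec
import Pool.Agent.Lib.MP_fedf83_gt.KUpper

/-! The explicit Gaussian is the standard Gaussian of the library. -/

namespace Pool.Agent.Lib.MP_fedf83_gt.P

open MeasureTheory ProbabilityTheory Pool.Agent.Lib.MP_fedf83_gt.B
open scoped ENNReal RealInnerProductSpace

theorem gam_std (n : ℕ) : gam n = stdGaussian (E n) := by
  have k : ∀ t : E n, ∫ g : E n, (ph g : ℂ) * Complex.exp (⟪g, t⟫ * Complex.I) =
      (Real.pi / (1 / 2 : ℂ)) ^ (Module.finrank ℝ (E n) / 2 : ℂ) * Complex.exp (-‖t‖ ^ 2 / 2) :=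
    fun t => by
      have := GaussianFourier.integral_cexp_neg_mul_sq_norm_add (V := E n) (b := 1 / 2)
        (by norm_num) Complex.I t
      rw [Complex.I_sq] at this
      refine (integral_congr_ae (ae_of_all _ fun g => ?_)).trans (this.trans (by congr 2; ring))
      simp only [ph, Complex.ofReal_exp, ← Complex.exp_add, real_inner_comm t g]
      congr 1
      push_cast
      ring
  have z : (ZG n : ℂ) = (Real.pi / (1 / 2 : ℂ)) ^ (Module.finrank ℝ (E n) / 2 : ℂ) := by
    have := k 0
    simp only [inner_zero_right, Complex.ofReal_zero, zero_mul, Complex.exp_zero, mul_one,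
      norm_zero] at this
    rw [ZG, ← integral_complex_ofReal, this]
    simp
  refine Measure.ext_of_charFun (funext fun t => ?_)
  rw [charFun_stdGaussian, charFun_apply, gam, integral_withDensity_eq_integral_toReal_smul
    (continuous_ph.measurable.div_const _).ennreal_ofReal (by simp)]
  have z0 : (ZG n : ℂ) ≠ 0 := Complex.ofReal_ne_zero.2 (ZG_pos n).ne'
  rw [← mul_right_inj' z0, ← integral_const_mul, z, ← k, ← z]
  refine integral_congr_ae (ae_of_all _ fun g => ?_)
  simp only [ENNReal.toReal_ofReal (div_pos (ph_pos g) (ZG_pos n)).le, Complex.real_smul]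
  push_cast
  field_simp

theorem deconv_std : U.Deconv := by
  simpa only [U.Deconv, gam_std] using KD.deconv

end Pool.Agent.Lib.MP_fedf83_gt.P
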