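import Pool.Agent.Lib.MP_fedf83_gt.BCore

/-! Deviation of the Gaussian norm and the Gram matrix of independent Gaussian vectors. -/

namespace Pool.Agent.Lib.MP_fedf83_gt.KP

open MeasureTheory ProbabilityTheory Set Pool.Agent.Lib.MP_fedf83_gt.B
open scoped ENNReal RealInnerProductSpace

theorem sq_memLp : MemLp (fun x : ℝ => x ^ 2) 2 (gaussianReal 0 1) := by
  rw [memLp_two_iff_integrable_sq (by fun_prop)]
  have := (memLp_id_gaussianReal' (μ := 0) (v := 1) (4 : ℕ) (by simp)).integrable_norm_pow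
    (by norm_num)
  refine this.congr (ae_of_all _ fun x => ?_)
  simp only [id, Real.norm_eq_abs]
  rw [← pow_mul, Even.pow_abs (by norm_num)]

theorem sq_mean : ∫ x : ℝ, x ^ 2 ∂gaussianReal 0 1 = 1 := by
  have := variance_eq_integral (μ := gaussianReal 0 1) (X := fun x : ℝ => x) (by fun_prop)
  simpa [variance_fun_id_gaussianReal] using this.symm

theorem mp_toLp (m : ℕ) : MeasurePreserving (WithLp.toLp 2)
    (Measure.pi fun _ : Fin m => gaussianReal 0 1) (stdGaussian (E m)) :=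
  ⟨by fun_prop, map_pi_eq_stdGaussian⟩

theorem pi_memLp (m : ℕ) (i : Fin m) :
    MemLp (fun ω : Fin m → ℝ => ω i ^ 2) 2 (Measure.pi fun _ => gaussianReal 0 1) :=
  sq_memLp.comp_measurePreserving (measurePreserving_eval _ i)

theorem pi_mean (m : ℕ) :
    ∫ ω : Fin m → ℝ, ∑ i, ω i ^ 2 ∂(Measure.pi fun _ => gaussianReal 0 1) = m := by
  rw [integral_finsetSum _ fun i _ => (pi_memLp m i).integrable (by norm_num)]
  have : ∀ i : Fin m, ∫ ω : Fin m → ℝ, ω i ^ 2 ∂(Measure.pi fun _ => gaussianReal 0 1) = 1 :=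
    fun i => by
      have h := integral_map (μ := Measure.pi fun _ : Fin m => gaussianReal 0 1)
        (measurable_pi_apply i).aemeasurable (f := fun x : ℝ => x ^ 2) (by fun_prop)
      rw [← h, ← sq_mean]
      exact congrArg (fun ν => ∫ x : ℝ, x ^ 2 ∂ν) (measurePreserving_eval _ i).map_eq
  simp [this]

theorem norm_sq_lint (m : ℕ) :
    ∫⁻ a, ENNReal.ofReal (‖a‖ ^ 2) ∂stdGaussian (E m) = ENNReal.ofReal m := by
  rw [← (mp_toLp m).lintegral_comp (by fun_prop), ← pi_mean m,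
    ofReal_integral_eq_lintegral_ofReal
      (integrable_finsetSum _ fun i _ => (pi_memLp m i).integrable (by norm_num))
      (ae_of_all _ fun ω => Finset.sum_nonneg fun i _ => sq_nonneg _)]
  simp [EuclideanSpace.real_norm_sq_eq]

/-- Chebyshev bound for the squared norm of a Gaussian vector. -/
theorem chi_dev : ∃ c : ℝ, 0 < c ∧ ∀ (m : ℕ) (t : ℝ), 0 < t →
    stdGaussian (E m) {η | t ≤ |‖η‖ ^ 2 - m|} ≤ ENNReal.ofReal (c * m / t ^ 2) := by
  have v0 := variance_nonneg (fun x : ℝ => x ^ 2) (gaussianReal 0 1)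
  refine ⟨Var[fun x : ℝ => x ^ 2; gaussianReal 0 1] + 1, by linarith, fun m t t0 => ?_⟩
  have ms : MeasurableSet {η : E m | t ≤ |‖η‖ ^ 2 - m|} :=
    (isClosed_le continuous_const (by fun_prop)).measurableSet
  have h1 := meas_ge_le_variance_div_sq (memLp_finsetSum Finset.univ fun i _ => pi_memLp m i) t0
  have h2 := variance_sum_pi (μ := fun _ : Fin m => gaussianReal 0 1)
    (X := fun _ x => x ^ 2) fun _ => sq_memLp
  rw [show (∑ i, fun ω : Fin m → ℝ => ω i ^ 2) = fun ω => ∑ i, ω i ^ 2 from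
    funext fun ω => by simp] at h2
  rw [h2, pi_mean] at h1
  rw [← (mp_toLp m).measure_preimage ms.nullMeasurableSet]
  refine le_trans (le_of_eq ?_) (h1.trans (ENNReal.ofReal_le_ofReal ?_))
  · congr 1
    ext ω
    simp [EuclideanSpace.real_norm_sq_eq]
  · simp only [Finset.sum_const, Finset.card_univ, Fintype.card_fin, nsmul_eq_mul]
    refine div_le_div_of_nonneg_right ?_ (sq_nonneg _)
    nlinarith [Nat.cast_nonneg (α := ℝ) m]

theorem lin_dev {m : ℕ} (a : E m) {t : ℝ} (t0 : 0 < t) :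
    stdGaussian (E m) {b | t ≤ |⟪a, b⟫|} ≤ ENNReal.ofReal (‖a‖ ^ 2 / t ^ 2) := by
  have h := meas_ge_le_variance_div_sq (μ := stdGaussian (E m)) (X := innerSL ℝ a)
    (IsGaussian.memLp_dual _ _ 2 (by simp)) t0
  rw [variance_dual_stdGaussian, integral_strongDual_stdGaussian, innerSL_apply_norm] at h
  simpa using h

theorem pair_dev {k m : ℕ} {i j : Fin k} (hij : i ≠ j) {t : ℝ} (t0 : 0 < t) :
    (Measure.pi fun _ : Fin k => stdGaussian (E m)) {ξ | t ≤ |⟪ξ i, ξ j⟫|} ≤
      ENNReal.ofReal (m / t ^ 2) := by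
  have ms : MeasurableSet {p : E m × E m | t ≤ |⟪p.1, p.2⟫|} :=
    (isClosed_le continuous_const (by fun_prop)).measurableSet
  have h := (iIndepFun_pi (μ := fun _ : Fin k => stdGaussian (E m)) (X := fun _ => id)
    fun _ => aemeasurable_id).indepFun hij
  replace h := (indepFun_iff_map_prod_eq_prod_map_map (measurable_pi_apply i).aemeasurable
    (measurable_pi_apply j).aemeasurable).1 h
  have e1 := (measurePreserving_eval (fun _ : Fin k => stdGaussian (E m)) i).map_eq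
  have e2 := (measurePreserving_eval (fun _ : Fin k => stdGaussian (E m)) j).map_eq
  rw [show (fun ω : Fin k → E m => ω i) = Function.eval i from rfl,
    show (fun ω : Fin k → E m => ω j) = Function.eval j from rfl, e1, e2] at h
  have h2 := congrArg (fun ν => ν {p : E m × E m | t ≤ |⟪p.1, p.2⟫|}) h
  simp only at h2
  rw [Measure.map_apply (by fun_prop) ms, Measure.prod_apply ms] at h2
  refine h2.le.trans ((lintegral_mono fun a => lin_dev a t0).trans (le_of_eq ?_))
  simp only [ENNReal.ofReal_div_of_pos (pow_pos t0 2), div_eq_mul_inv (ENNReal.ofReal _)]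
  rw [lintegral_mul_const _ (by fun_prop), norm_sq_lint]

theorem gram_det {k m : ℕ} {ξ : Fin k → E m} {M ε : ℝ}
    (h1 : ∀ i, |‖ξ i‖ ^ 2 - M| ≤ ε) (h2 : ∀ i j, i ≠ j → |⟪ξ i, ξ j⟫| ≤ ε) (v : E k) :
    (M - k * ε) * ‖v‖ ^ 2 ≤ ‖∑ i, v i • ξ i‖ ^ 2 := by
  have h : ∀ i j, (if i = j then M * v i ^ 2 else 0) - ε / 2 * v i ^ 2 - ε / 2 * v j ^ 2 ≤
      v j * (v i * ⟪ξ i, ξ j⟫) := fun i j => by
    by_cases hij : i = j
    · subst hij
      rw [if_pos rfl, real_inner_self_eq_norm_sq]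
      nlinarith [(abs_le.1 (h1 i)).1, sq_nonneg (v i)]
    · rw [if_neg hij]
      obtain ⟨a, b⟩ := abs_le.1 (h2 i j hij)
      nlinarith [mul_nonneg (sub_nonneg.2 b) (sq_nonneg (v i - v j)),
        mul_nonneg (sub_nonneg.2 a) (sq_nonneg (v i + v j))]
  rw [← real_inner_self_eq_norm_sq (∑ i, v i • ξ i)]
  simp only [sum_inner, inner_sum, real_inner_smul_left, real_inner_smul_right]
  refine le_trans (le_of_eq ?_)
    (Finset.sum_le_sum fun j _ => Finset.sum_le_sum fun i _ => h i j)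
  simp only [Finset.sum_sub_distrib, Finset.sum_ite_eq', Finset.mem_univ, if_true,
    Finset.sum_const, Finset.card_univ, Fintype.card_fin, nsmul_eq_mul, ← Finset.mul_sum,
    EuclideanSpace.real_norm_sq_eq]
  ring

/-- Independent Gaussian vectors are almost orthogonal. -/
theorem gram (k : ℕ) {δ : ℝ} (δ0 : 0 < δ) : ∃ m0 : ℕ, ∀ m, m0 ≤ m →
    (Measure.pi fun _ : Fin k => stdGaussian (E m))
      {ξ | ¬ ∀ v : E k, √(m / 2) * ‖v‖ ≤ ‖∑ i, v i • ξ i‖} ≤ ENNReal.ofReal δ := by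
  obtain ⟨c, c0, hc⟩ := chi_dev
  obtain ⟨m0, hm0⟩ := exists_nat_ge (4 * (c + 1) * (k + 1 : ℝ) ^ 4 / δ + 1)
  refine ⟨m0, fun m hm => ?_⟩
  have k0 : (0 : ℝ) ≤ k := Nat.cast_nonneg k
  have m1 : 4 * (c + 1) * (k + 1 : ℝ) ^ 4 / δ + 1 ≤ m := hm0.trans (by exact_mod_cast hm)
  have q0 : 0 ≤ 4 * (c + 1) * (k + 1 : ℝ) ^ 4 / δ := by positivity
  have m0 : (0 : ℝ) < m := by linarith
  set ε : ℝ := m / (2 * (k + 1)) with hε
  have ε0 : 0 < ε := by positivity
  let B : Fin k × Fin k → Set (Fin k → E m) := fun p =>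
    if p.1 = p.2 then {ξ | ε ≤ |‖ξ p.1‖ ^ 2 - m|} else {ξ | ε ≤ |⟪ξ p.1, ξ p.2⟫|}
  have hB : ∀ p, (Measure.pi fun _ : Fin k => stdGaussian (E m)) (B p) ≤
      ENNReal.ofReal ((c + 1) * m / ε ^ 2) := fun p => by
    by_cases hp : p.1 = p.2
    · have ms : MeasurableSet {η : E m | ε ≤ |‖η‖ ^ 2 - m|} :=
        (isClosed_le continuous_const (by fun_prop)).measurableSet
      simp only [B, if_pos hp]
      refine ((measurePreserving_eval (fun _ : Fin k => stdGaussian (E m)) p.1).measure_preimage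
        ms.nullMeasurableSet).le.trans ((hc m ε ε0).trans (ENNReal.ofReal_le_ofReal ?_))
      gcongr
      linarith
    · simp only [B, if_neg hp]
      refine (pair_dev hp ε0).trans (ENNReal.ofReal_le_ofReal ?_)
      gcongr
      nlinarith
  refine (measure_mono (t := ⋃ p, B p) fun ξ hξ => ?_).trans ((measure_iUnion_fintype_le _ _).trans
    ((Finset.sum_le_sum fun p _ => hB p).trans ?_))
  · by_contra hn
    simp only [mem_iUnion, not_exists] at hn
    refine hξ fun v => ?_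
    have h := gram_det (M := m) (ξ := ξ) (ε := ε)
      (fun i => le_of_lt (by simpa [B] using hn (i, i)))
      (fun i j hij => le_of_lt (by simpa [B, hij] using hn (i, j))) v
    refine abs_le_of_sq_le_sq' ?_ (norm_nonneg _) |>.2
    rw [mul_pow, Real.sq_sqrt (by positivity)]
    refine le_trans (mul_le_mul_of_nonneg_right ?_ (sq_nonneg _)) h
    have : (k + 1) * ε = m / 2 := by rw [hε]; field_simp
    nlinarith
  · rw [Finset.sum_const, Finset.card_univ, Fintype.card_prod, Fintype.card_fin, nsmul_eq_mul,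
      ← ENNReal.ofReal_natCast, ← ENNReal.ofReal_mul (by positivity)]
    refine ENNReal.ofReal_le_ofReal ?_
    have e : (c + 1) * m / ε ^ 2 = 4 * (c + 1) * (k + 1) ^ 2 / m := by rw [hε]; field_simp; ring
    have a1 : 4 * (c + 1) * (k + 1 : ℝ) ^ 4 ≤ δ * m := by
      rw [← div_le_iff₀' δ0]
      linarith
    rw [e, ← mul_div_assoc, div_le_iff₀ m0]
    push_cast
    refine le_trans ?_ a1
    have : (k : ℝ) * k ≤ (k + 1) ^ 2 := by nlinarith
    calc _ ≤ (k + 1 : ℝ) ^ 2 * (4 * (c + 1) * (k + 1) ^ 2) := by gcongr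
      _ = _ := by ring

end Pool.Agent.Lib.MP_fedf83_gt.KP
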