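import Pool.Agent.Lib.MP_fedf83_gt.ZLow

/-! The variance and overlap bounds without hypotheses. -/

namespace Pool.Agent.Lib.MP_fedf83_gt.P

open MeasureTheory Set Pool.Agent.Lib.MP_fedf83_gt.B
open scoped ENNReal RealInnerProductSpace

variable {n : ℕ}

theorem HD.mono {L M : ℝ} (h : HD n L) (hLM : L ≤ M) : HD n M := by
  intro μ _ K R iso J hJ
  obtain ⟨d, a, a0, h1, h2, h3⟩ := h μ K R iso J hJ
  have : L * (J.card : ℝ) ^ (1 / 4 : ℝ) * (n : ℝ) ^ (3 / 4 : ℝ) ≤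
      M * (J.card : ℝ) ^ (1 / 4 : ℝ) * (n : ℝ) ^ (3 / 4 : ℝ) := by gcongr
  exact ⟨d, a, a0, h1.trans this, h2, (Real.exp_le_exp.2 (neg_le_neg this)).trans h3⟩

theorem supply {ε : ℝ} (e0 : 0 < ε) : ∃ C : ℝ, 1 ≤ C ∧ ∀ n : ℕ, 1 ≤ n →
    PI n (C * (n : ℝ) ^ ε) ∧ HP n (C * (n : ℝ) ^ ε) ∧ HD n (C * (n : ℝ) ^ ε) := by
  obtain ⟨C0, C00, hl⟩ := levels
  have d0 : 0 < ε / 23 := by linarith
  obtain ⟨q, hq, C, C1, h⟩ := phase d0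
  set D : ℝ := 1 + 1 / (ε / 23) with hD
  have D1 : 1 ≤ D := by
    have : 0 < 1 / (ε / 23) := by positivity
    linarith
  have c3 : 1 ≤ C ^ 3 := one_le_pow₀ C1
  have p0 : 0 ≤ C0 * (4 * 10 ^ 10 * C ^ 7) ^ 3 * D ^ 2 := by positivity
  refine ⟨10 ^ 8 * C ^ 3 + C0 * (4 * 10 ^ 10 * C ^ 7) ^ 3 * D ^ 2, by linarith, fun n hn => ?_⟩
  have n1 : (1 : ℝ) ≤ n := by exact_mod_cast hn
  have n0 : (0 : ℝ) < n := by linarith
  set y : ℝ := (n : ℝ) ^ (ε / 23) with hy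
  have y1 : 1 ≤ y := Real.one_le_rpow n1 d0.le
  have ey : (n : ℝ) ^ ε = y ^ 23 := by
    rw [hy, ← Real.rpow_natCast, ← Real.rpow_mul n0.le]
    congr 1
    push_cast
    ring
  have l0 := Real.log_nonneg n1
  have lg : 1 + Real.log n ≤ D * y := one_add_log_le n1 d0
  have M1 : 1 ≤ C * y := one_le_mul_of_one_le_of_one_le C1 y1
  have y3 : y ^ 3 ≤ y ^ 23 := pow_le_pow_right₀ y1 (by norm_num)
  have y0 : 0 ≤ y ^ 23 := by positivity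
  have hP : PI n ((10 ^ 8 * C ^ 3 + C0 * (4 * 10 ^ 10 * C ^ 7) ^ 3 * D ^ 2) * (n : ℝ) ^ ε) := by
    refine (boot hn hq M1 (h n hn)).mono ?_
    rw [ey, mul_pow]
    nlinarith [mul_le_mul_of_nonneg_left y3 (zero_le_one.trans c3), mul_nonneg p0 y0]
  have hN := np_of (fun _ _ _ _ _ iso _ _ _ hq M1 h => lam_of_phase iso.bd hq M1 h)
    (fun _ _ _ _ _ iso hn J hJ _ _ _ T0 B0 hm hΨ => noise iso hn J hJ T0 B0 hm hΨ)
    (fun _ _ _ _ _ iso J hJ _ _ s0 s1 hΨ hA => partner iso J hJ s0 s1 hΨ hA) hn hq M1 (h n hn)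
  have Ψ1 : 1 ≤ 4 * 10 ^ 10 * (C * y) ^ 7 := by linarith [one_le_pow₀ (n := 7) M1]
  have hH : HD n (C0 * (4 * 10 ^ 10 * (C * y) ^ 7) ^ 3 * (1 + Real.log n) ^ 2) :=
    fun μ _ K R iso J hJ => hl n hn μ K R iso J hJ _ Ψ1 (hN μ K R iso J hJ).1 (hN μ K R iso J hJ).2
  refine ⟨hP, hP.hp, hH.mono ?_⟩
  calc _ ≤ C0 * (4 * 10 ^ 10 * (C * y) ^ 7) ^ 3 * (D * y) ^ 2 := by gcongr
    _ = C0 * (4 * 10 ^ 10 * C ^ 7) ^ 3 * D ^ 2 * y ^ 23 := by ring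
    _ ≤ _ := by
      rw [ey]
      gcongr
      linarith

end Pool.Agent.Lib.MP_fedf83_gt.P
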