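import Pool.Agent.Lib.MP_fedf83_gt.KGam
import Pool.Agent.Lib.MP_fedf83_gt.KBoost3

/-! The power form of the upper bound in codimension `k`, given the frame step. -/

namespace Pool.Agent.Lib.MP_fedf83_gt.U

open MeasureTheory Set Filter Topology Pool.Agent.Lib.MP_fedf83_gt.B
open scoped ENNReal RealInnerProductSpace

theorem upperK_log {k : ℕ} (hk : 1 ≤ k) (hF : Frame k) :
    ∃ C : ℝ, 0 < C ∧ ∀ᶠ n : ℕ in atTop, cst n (n - k) ≤
      ENNReal.ofReal (C * (1 + Real.log n) ^ (3 * k) / (n : ℝ) ^ ((k : ℝ) - 1 / 2)) := by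
  obtain ⟨C, C0, h⟩ := upperK P.deconv_std hF (FL.boostK_std hk)
  refine ⟨C, C0, ?_⟩
  filter_upwards [h, eventually_ge_atTop 1] with n h1 h2
  have n0 : (0 : ℝ) < n := by exact_mod_cast h2
  rw [Real.rpow_sub n0, Real.rpow_natCast, ← Real.sqrt_eq_rpow, div_div_eq_mul_div]
  exact h1

end Pool.Agent.Lib.MP_fedf83_gt.U
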