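import Pool.Agent.Lib.MP_fedf83_gt.PConc

/-! Uniform order calculus for one small Gaussian tilt. -/

namespace Pool.Agent.Lib.MP_fedf83_gt.P

open MeasureTheory Set Pool.Agent.Lib.MP_fedf83_gt.B
open scoped ENNReal RealInnerProductSpace

variable {n : ℕ} {ι : Type}

/-- Uniform order `σ ^ k` with exponential growth in the Gaussian variable. -/
def Big (σ : ι → ℝ) (k : ℕ) (F : ι → E n → ℝ) : Prop :=
  (∀ i, 0 ≤ σ i ∧ σ i ≤ 1) ∧
    ∃ C D : ℝ, 0 ≤ C ∧ 0 ≤ D ∧ ∀ i g, |F i g| ≤ C * σ i ^ k * Real.exp (D * ‖g‖)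

variable {σ : ι → ℝ} {k l : ℕ} {F G : ι → E n → ℝ}

theorem Big.of_le (h : Big σ k G) (hF : ∀ i g, |F i g| ≤ |G i g|) : Big σ k F := by
  obtain ⟨hσ, C, D, C0, D0, h⟩ := h
  exact ⟨hσ, C, D, C0, D0, fun i g => (hF i g).trans (h i g)⟩

theorem Big.congr (h : Big σ k G) (hF : ∀ i g, F i g = G i g) : Big σ k F :=
  h.of_le fun i g => by rw [hF]

theorem Big.abs (h : Big σ k F) : Big σ k fun i g => |F i g| := h.of_le fun i g => by simp

theorem Big.neg (h : Big σ k F) : Big σ k fun i g => -F i g := h.of_le fun i g => by simp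

theorem Big.mono (h : Big σ k F) (hl : l ≤ k) : Big σ l F := by
  obtain ⟨hσ, C, D, C0, D0, h⟩ := h
  refine ⟨hσ, C, D, C0, D0, fun i g => (h i g).trans ?_⟩
  have := pow_le_pow_of_le_one (hσ i).1 (hσ i).2 hl
  gcongr

theorem Big.add (h : Big σ k F) (h' : Big σ k G) : Big σ k fun i g => F i g + G i g := by
  obtain ⟨hσ, C, D, C0, D0, h⟩ := h
  obtain ⟨-, C', D', C0', D0', h'⟩ := h'
  refine ⟨hσ, C + C', D + D', by positivity, by positivity, fun i g => ?_⟩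
  have s0 := pow_nonneg (hσ i).1 k
  have e1 : Real.exp (D * ‖g‖) ≤ Real.exp ((D + D') * ‖g‖) := by gcongr; linarith
  have e2 : Real.exp (D' * ‖g‖) ≤ Real.exp ((D + D') * ‖g‖) := by gcongr; linarith
  have := mul_le_mul_of_nonneg_left e1 (mul_nonneg C0 s0)
  have := mul_le_mul_of_nonneg_left e2 (mul_nonneg C0' s0)
  have := abs_add_le (F i g) (G i g)
  have := h i g
  have := h' i g
  nlinarith

theorem Big.sub (h : Big σ k F) (h' : Big σ k G) : Big σ k fun i g => F i g - G i g :=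
  (h.add h'.neg).congr fun i g => by ring

theorem Big.mul (h : Big σ k F) (h' : Big σ l G) : Big σ (k + l) fun i g => F i g * G i g := by
  obtain ⟨hσ, C, D, C0, D0, h⟩ := h
  obtain ⟨-, C', D', C0', D0', h'⟩ := h'
  refine ⟨hσ, C * C', D + D', by positivity, by positivity, fun i g => ?_⟩
  rw [abs_mul, add_mul, Real.exp_add, pow_add]
  refine (mul_le_mul (h i g) (h' i g) (abs_nonneg _) ((abs_nonneg _).trans (h i g))).trans
    (le_of_eq (by ring))

theorem big_bdd (hσ : ∀ i, 0 ≤ σ i ∧ σ i ≤ 1) {c : ι → ℝ} {H : ℝ} (h : ∀ i, |c i| ≤ H) :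
    Big σ 0 fun i (_ : E n) => c i :=
  ⟨hσ, |H|, 0, abs_nonneg _, le_rfl, fun i g => by simpa using (h i).trans (le_abs_self H)⟩

theorem big_const (hσ : ∀ i, 0 ≤ σ i ∧ σ i ≤ 1) (c : ℝ) : Big σ 0 fun _ (_ : E n) => c :=
  big_bdd hσ (H := |c|) fun _ => le_rfl

theorem big_zero (hσ : ∀ i, 0 ≤ σ i ∧ σ i ≤ 1) (k : ℕ) : Big σ k fun _ (_ : E n) => 0 :=
  ⟨hσ, 0, 0, le_rfl, le_rfl, fun i g => by simp⟩

theorem big_sig (hσ : ∀ i, 0 ≤ σ i ∧ σ i ≤ 1) : Big σ 1 fun i (_ : E n) => σ i :=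
  ⟨hσ, 1, 0, zero_le_one, le_rfl, fun i g => by simp [abs_of_nonneg (hσ i).1]⟩

theorem big_lin (hσ : ∀ i, 0 ≤ σ i ∧ σ i ≤ 1) {c : ι → E n} {H : ℝ} (h : ∀ i, ‖c i‖ ≤ H) :
    Big σ 0 fun i g => ⟪g, c i⟫ :=
  ⟨hσ, |H|, 1, abs_nonneg _, zero_le_one, fun i g => by
    have h1 := abs_real_inner_le_norm g (c i)
    have h2 := Real.add_one_le_exp ‖g‖
    have h3 := (h i).trans (le_abs_self H)
    have := norm_nonneg g
    have := norm_nonneg (c i)
    simp only [pow_zero, mul_one, one_mul]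
    nlinarith⟩

theorem big_sum (hσ : ∀ i, 0 ≤ σ i ∧ σ i ≤ 1) {κ : Type} (S : Finset κ) {F : κ → ι → E n → ℝ}
    (h : ∀ j, Big σ k (F j)) : Big σ k fun i g => ∑ j ∈ S, F j i g := by
  classical
  induction S using Finset.induction_on with
  | empty => simpa using big_zero hσ k
  | insert a S ha ih => exact ((h a).add ih).congr fun i g => by rw [Finset.sum_insert ha]

/-- An integrable majorant with small integral. -/
theorem Big.dom (h : Big σ k F) : ∃ C : ℝ, 0 ≤ C ∧ ∀ i, ∃ W : E n → ℝ, Integrable W (gam n) ∧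
    (∀ g, F i g ≤ W g) ∧ ∫ g, W g ∂gam n ≤ C * σ i ^ k := by
  obtain ⟨hσ, C, D, C0, D0, h⟩ := h
  refine ⟨C * ∫ g, Real.exp (D * ‖g‖) ∂gam n,
    mul_nonneg C0 (integral_nonneg fun g => (Real.exp_pos _).le), fun i =>
      ⟨fun g => C * σ i ^ k * Real.exp (D * ‖g‖), (gam_int_exp D).const_mul _,
        fun g => (le_abs_self _).trans (h i g), ?_⟩⟩
  rw [integral_const_mul]
  exact le_of_eq (by ring)

theorem ee_two {R s : ℝ} (s0 : 0 ≤ s) (s1 : s ≤ 1) {x : E n} (hx : ‖x‖ ≤ R) (g : E n) :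
    |ee (s • x) g - 1 - s * ⟪g, x⟫| ≤
      (4 * Real.exp (R ^ 2) + R ^ 2) * s ^ 2 * Real.exp (2 * |R| * ‖g‖) := by
  have R0 : 0 ≤ R := (norm_nonneg x).trans hx
  rw [abs_of_nonneg R0]
  set z := s * ⟪g, x⟫ - s ^ 2 * ‖x‖ ^ 2 / 2 with hz
  have e : ee (s • x) g = Real.exp z := by
    rw [ee, inner_smul_right, norm_smul, mul_pow, Real.norm_eq_abs, sq_abs]
  have x2 : ‖x‖ ^ 2 ≤ R ^ 2 := pow_le_pow_left₀ (norm_nonneg x) hx 2
  set w := R * ‖g‖ + R ^ 2 / 2 with hw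
  have w0 : 0 ≤ w := by positivity
  have h1 : |z| ≤ s * w := by
    have h2 : |⟪g, x⟫| ≤ R * ‖g‖ := (abs_real_inner_le_norm g x).trans (by
      rw [mul_comm]; exact mul_le_mul_of_nonneg_right hx (norm_nonneg g))
    have h3 := abs_le.1 h2
    have h4 : s ^ 2 * ‖x‖ ^ 2 ≤ s * R ^ 2 := by
      have : s ^ 2 ≤ s := by nlinarith
      exact mul_le_mul this x2 (sq_nonneg _) s0
    have h5 : 0 ≤ s ^ 2 * ‖x‖ ^ 2 := by positivity
    have h6 : 0 ≤ s * R ^ 2 := by positivity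
    rw [abs_le]
    constructor <;> nlinarith [mul_le_mul_of_nonneg_left h3.1 s0, mul_le_mul_of_nonneg_left h3.2 s0]
  have h2 : z ^ 2 ≤ s ^ 2 * w ^ 2 := by
    rw [← sq_abs, ← mul_pow]
    exact pow_le_pow_left₀ (abs_nonneg _) h1 2
  have h3 : Real.exp |z| ≤ Real.exp w := Real.exp_le_exp.2 (h1.trans (by nlinarith))
  have h4 : w ^ 2 ≤ 4 * Real.exp w := by
    have := Real.add_one_le_exp (w / 2)
    have h5 : Real.exp w = Real.exp (w / 2) ^ 2 := by rw [sq, ← Real.exp_add]; ring_nf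
    rw [h5]
    nlinarith
  have h5 : Real.exp w * Real.exp w = Real.exp (R ^ 2) * Real.exp (2 * R * ‖g‖) := by
    rw [← Real.exp_add, ← Real.exp_add, hw]; ring_nf
  have h6 : z ^ 2 * Real.exp |z| ≤ s ^ 2 * (4 * (Real.exp w * Real.exp w)) :=
    (mul_le_mul (h2.trans (mul_le_mul_of_nonneg_left h4 (sq_nonneg s))) h3 (Real.exp_pos _).le
      (by positivity)).trans (le_of_eq (by ring))
  have h7 : 1 ≤ Real.exp (2 * R * ‖g‖) := Real.one_le_exp (by positivity)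
  have h8 := abs_le.1 ((exp_two_le z).trans h6)
  have h9 : s ^ 2 * ‖x‖ ^ 2 ≤ s ^ 2 * (R ^ 2 * Real.exp (2 * R * ‖g‖)) :=
    mul_le_mul_of_nonneg_left (x2.trans (le_mul_of_one_le_right (sq_nonneg R) h7)) (sq_nonneg s)
  have h10 : 0 ≤ s ^ 2 * ‖x‖ ^ 2 := by positivity
  rw [h5] at h8
  rw [e, abs_le]
  constructor <;> nlinarith [h8.1, h8.2]

/-- A uniformly bounded family of probability measures with step sizes. -/
structure Fam (μ : ι → Measure (E n)) (σ : ι → ℝ) (R : ℝ) : Prop where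
  pr : ∀ i, IsProbabilityMeasure (μ i)
  bd : ∀ i, Bd (μ i) R
  sg : ∀ i, 0 ≤ σ i ∧ σ i ≤ 1

variable {μ : ι → Measure (E n)} {R H : ℝ} {f : ι → E n → ℝ}

theorem Fam.mean (φ : Fam μ σ R) (k : ∀ i, Ker (μ i) (f i) H R) :
    Big σ 0 fun i (_ : E n) => ∫ x, f i x ∂μ i :=
  big_bdd φ.sg (H := H) fun i => by
    have := φ.pr i
    simpa using norm_integral_le_of_norm_le_const (μ := μ i) (f := f i) (C := H) (k i).bh

theorem Fam.vec_le (φ : Fam μ σ R) (k : ∀ i, Ker (μ i) (f i) H R) (i : ι) :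
    ‖∫ x, f i x • x ∂μ i‖ ≤ H * R := by
  have := φ.pr i
  simpa using norm_integral_le_of_norm_le_const (μ := μ i) (f := fun x => f i x • x)
    (C := H * R) (by
      filter_upwards [(k i).bh, (k i).bd] with x h1 h2
      rw [norm_smul]
      exact mul_le_mul h1 h2 (norm_nonneg _) ((abs_nonneg _).trans h1))

theorem Fam.lin (φ : Fam μ σ R) (k : ∀ i, Ker (μ i) (f i) H R) :
    Big σ 0 fun i g => ⟪g, ∫ x, f i x • x ∂μ i⟫ := big_lin φ.sg (φ.vec_le k)

theorem Fam.two (φ : Fam μ σ R) (k : ∀ i, Ker (μ i) (f i) H R) :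
    Big σ 2 fun i g => AA (μ i) (f i) (σ i) g - ∫ x, f i x ∂μ i -
      σ i * ⟪g, ∫ x, f i x • x ∂μ i⟫ := by
  refine ⟨φ.sg, |H| * (4 * Real.exp (R ^ 2) + R ^ 2), 2 * |R|, by positivity, by positivity,
    fun i g => ?_⟩
  have := φ.pr i
  have j1 := (k i).int' (f := fun x => ee (σ i • x) g) (by fun_prop)
  have j3 := ((k i).int' (f := fun x => ⟪x, g⟫) (by fun_prop)).const_mul (σ i)
  beta_reduce
  rw [real_inner_comm, (k i).inner_int, AA, ← integral_const_mul, ← integral_sub j1 (k i).int0,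
    ← integral_sub (isub j1 (k i).int0) j3]
  have := norm_integral_le_of_norm_le_const (μ := μ i)
    (f := fun x => f i x * ee (σ i • x) g - f i x - σ i * (f i x * ⟪x, g⟫))
    (C := |H| * (4 * Real.exp (R ^ 2) + R ^ 2) * σ i ^ 2 * Real.exp (2 * |R| * ‖g‖)) (by
      filter_upwards [(k i).bh, (k i).bd] with x h1 h2
      rw [show f i x * ee (σ i • x) g - f i x - σ i * (f i x * ⟪x, g⟫) =
        f i x * (ee (σ i • x) g - 1 - σ i * ⟪g, x⟫) by rw [real_inner_comm]; ring,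
        Real.norm_eq_abs, abs_mul, mul_assoc, mul_assoc, ← mul_assoc _ (σ i ^ 2)]
      exact mul_le_mul (h1.trans (le_abs_self H)) (ee_two (φ.sg i).1 (φ.sg i).2 h2 g)
        (abs_nonneg _) (abs_nonneg _))
  simpa using this

theorem Fam.one (φ : Fam μ σ R) (k : ∀ i, Ker (μ i) (f i) H R) :
    Big σ 1 fun i g => AA (μ i) (f i) (σ i) g - ∫ x, f i x ∂μ i :=
  (((φ.two k).mono one_le_two).add ((big_sig φ.sg).mul (φ.lin k))).congr fun i g => by ring

theorem Fam.k1 (φ : Fam μ σ R) (i : ι) : Ker (μ i) (fun _ => 1) 1 R :=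
  ⟨measurable_const, ae_of_all _ fun x => by simp, φ.bd i⟩

theorem Fam.z1 (φ : Fam μ σ R) : Big σ 1 fun i g => AA (μ i) (fun _ => 1) (σ i) g - 1 :=
  (φ.one (f := fun _ _ => 1) φ.k1).congr fun i g => by have := φ.pr i; simp

theorem Fam.z0 (φ : Fam μ σ R) : Big σ 0 fun i g => AA (μ i) (fun _ => 1) (σ i) g :=
  ((φ.z1.mono zero_le_one).add (big_const φ.sg 1)).congr fun i g => by ring

theorem AA_one_ge {ν : Measure (E n)} [IsProbabilityMeasure ν] (hR : Bd ν R) {s : ℝ} (s0 : 0 ≤ s)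
    (s1 : s ≤ 1) (g : E n) :
    Real.exp (-(R ^ 2 / 2 + |R| * ‖g‖)) ≤ AA ν (fun _ => 1) s g := by
  have := integral_mono_ae (integrable_const (Real.exp (-(R ^ 2 / 2 + |R| * ‖g‖))))
    (hR.int (f := fun x => ee (s • x) g) (by fun_prop)) (by
      filter_upwards [hR] with x hx
      have h1 : ‖s • x‖ ≤ R := by
        rw [norm_smul, Real.norm_of_nonneg s0]
        nlinarith [norm_nonneg x]
      have h2 := pow_le_pow_left₀ (norm_nonneg _) h1 2
      have h3 := (abs_le.1 (abs_real_inner_le_norm g (s • x))).1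
      have h4 := mul_le_mul_of_nonneg_left (h1.trans (le_abs_self R)) (norm_nonneg g)
      rw [ee, Real.exp_le_exp]
      nlinarith)
  simpa [AA] using this

theorem Fam.zpos (φ : Fam μ σ R) (i : ι) (g : E n) : 0 < AA (μ i) (fun _ => 1) (σ i) g := by
  have := φ.pr i
  exact (Real.exp_pos _).trans_le (AA_one_ge (φ.bd i) (φ.sg i).1 (φ.sg i).2 g)

theorem Fam.zinv (φ : Fam μ σ R) : Big σ 0 fun i g => (AA (μ i) (fun _ => 1) (σ i) g)⁻¹ :=
  ⟨φ.sg, Real.exp (R ^ 2 / 2), |R|, (Real.exp_pos _).le, abs_nonneg _, fun i g => by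
    have := φ.pr i
    rw [abs_of_pos (inv_pos.2 (φ.zpos i g)), pow_zero, mul_one, ← Real.exp_add]
    have h := inv_anti₀ (Real.exp_pos _) (AA_one_ge (φ.bd i) (φ.sg i).1 (φ.sg i).2 g)
    rwa [Real.exp_neg, inv_inv] at h⟩

/-- The covariance vector of a function with the identity. -/
noncomputable def cv (ν : Measure (E n)) (h : E n → ℝ) : E n :=
  ∫ x, h x • x ∂ν - (∫ x, h x ∂ν) • ∫ x, x ∂ν

theorem Fam.cvl (φ : Fam μ σ R) (k : ∀ i, Ker (μ i) (f i) H R) :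
    Big σ 0 fun i g => ⟪g, cv (μ i) (f i)⟫ :=
  ((φ.lin k).sub ((φ.mean k).mul (φ.lin (f := fun _ _ => 1) φ.k1))).congr fun i g => by
    simp [cv, inner_sub_right, inner_smul_right]

/-- First order expansion of the tilted mean. -/
theorem Fam.post (φ : Fam μ σ R) (k : ∀ i, Ker (μ i) (f i) H R) :
    Big σ 2 fun i g => AA (μ i) (f i) (σ i) g / AA (μ i) (fun _ => 1) (σ i) g -
      ∫ x, f i x ∂μ i - σ i * ⟪g, cv (μ i) (f i)⟫ := by
  have h := ((((φ.two k).sub (((φ.two (f := fun _ _ => 1) φ.k1).mul (φ.mean k)))).sub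
    ((φ.z1.mul (big_sig φ.sg)).mul (φ.cvl k))).mul φ.zinv)
  refine h.congr fun i g => ?_
  have := φ.pr i
  have z := (φ.zpos i g).ne'
  simp only [cv, inner_sub_right, inner_smul_right, integral_const, probReal_univ, smul_eq_mul,
    mul_one, one_smul]
  field_simp
  ring

theorem Fam.post1 (φ : Fam μ σ R) (k : ∀ i, Ker (μ i) (f i) H R) :
    Big σ 1 fun i g => AA (μ i) (f i) (σ i) g / AA (μ i) (fun _ => 1) (σ i) g -
      ∫ x, f i x ∂μ i :=
  (((φ.post k).mono one_le_two).add ((big_sig φ.sg).mul (φ.cvl k))).congr fun i g => by ring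

/-- One step bound for the square of a tilted mean, in weight form. -/
theorem step_sq (n : ℕ) (R H : ℝ) : ∃ C : ℝ, 0 ≤ C ∧ ∀ (ν : Measure (E n)) [IsProbabilityMeasure ν]
    (h : E n → ℝ) (s : ℝ), Ker ν h H R → 0 ≤ s → s ≤ 1 →
      ∫ g, (AA ν h s g / AA ν (fun _ => 1) s g) ^ 2 * AA ν (fun _ => 1) s g ∂gam n ≤
        (∫ x, h x ∂ν) ^ 2 + s ^ 2 * ‖cv ν h‖ ^ 2 + C * s ^ 3 := by
  let ι := {p : Measure (E n) × (E n → ℝ) × ℝ //
    IsProbabilityMeasure p.1 ∧ Ker p.1 p.2.1 H R ∧ 0 ≤ p.2.2 ∧ p.2.2 ≤ 1}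
  have φ : Fam (fun i : ι => i.1.1) (fun i => i.1.2.2) R :=
    ⟨fun i => i.2.1, fun i => i.2.2.1.bd, fun i => i.2.2.2⟩
  have k : ∀ i : ι, Ker i.1.1 i.1.2.1 H R := fun i => i.2.2.1
  have L := (big_sig φ.sg).mul (φ.cvl k)
  obtain ⟨C, C0, hC⟩ := ((((φ.post k).mul ((φ.post1 k).add L)).mul φ.z0).add
    ((L.mul L).mul φ.z1)).dom
  refine ⟨C, C0, fun ν _ h s kk s0 s1 => ?_⟩
  obtain ⟨W, iW, hW, eW⟩ := hC ⟨(ν, h, s), inferInstance, kk, s0, s1⟩
  have z := φ.zpos ⟨(ν, h, s), inferInstance, kk, s0, s1⟩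
  simp only at hW eW z
  set b := ∫ x, h x ∂ν with hb
  have k1 := ker_one kk.bd
  have i1 := (kk.gr s).int.const_mul (2 * b)
  have i2 := (k1.gr s).int.const_mul (b ^ 2)
  have i3 : Integrable (fun g : E n => s ^ 2 * ⟪g, cv ν h⟫ ^ 2) (gam n) := by
    simpa only [pow_two] using ((gr_lin _).mul (gr_lin _)).int.const_mul (s * s)
  have := integral_mono_of_nonneg
    (f := fun g => (AA ν h s g / AA ν (fun _ => 1) s g) ^ 2 * AA ν (fun _ => 1) s g)
    (ae_of_all _ fun g => mul_nonneg (sq_nonneg _) (z g).le)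
    (iadd (iadd (isub i1 i2) i3) iW) (ae_of_all _ fun g => by
      have h1 := hW g
      have h2 : AA ν h s g = AA ν h s g / AA ν (fun _ => 1) s g * AA ν (fun _ => 1) s g :=
        (div_mul_cancel₀ _ (z g).ne').symm
      simp only
      generalize AA ν h s g / AA ν (fun _ => 1) s g = m at h1 h2 ⊢
      rw [h2]
      nlinarith)
  rw [integral_add (iadd (isub i1 i2) i3) iW, integral_add (isub i1 i2) i3, integral_sub i1 i2,
    integral_const_mul, integral_const_mul, integral_const_mul, kk.mean, k1.mean, ← hb] at this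
  simp only [integral_const, probReal_univ, smul_eq_mul, mul_one] at this
  have h3 := mul_le_mul_of_nonneg_left (gam_sq (cv ν h)) (sq_nonneg s)
  have h4 : C * s ^ (2 + 1 + 0) = C * s ^ 3 := rfl
  linarith

end Pool.Agent.Lib.MP_fedf83_gt.P
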