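import Pool.Agent.Lib.MP_fedf83_gt.PDar

/-! From Gaussian noise and partners to one translation that keeps a large part of the body. -/

namespace Pool.Agent.Lib.MP_fedf83_gt.P

open MeasureTheory Set Pool.Agent.Lib.MP_fedf83_gt.B
open scoped ENNReal RealInnerProductSpace

set_option linter.unusedSectionVars false

variable {n : ℕ} {μ : Measure (E n)} [IsProbabilityMeasure μ] {K : Set (E n)} {R : ℝ}

theorem lev_shift {W : Set (E n)} (hW : MeasurableSet W) (a : E n)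
    (h : 1 / 2 ≤ (gam n).real {g | g + a ∈ W}) :
    Real.exp (-‖a‖ ^ 2) / 4 ≤ (gam n).real W := by
  have gI : Gr (W.indicator (1 : E n → ℝ)) := ⟨measurable_one.indicator hW, 1, 0, fun g => by
    by_cases h : g ∈ W <;> simp [h]⟩
  have h1 : (gam n).real {g | g + a ∈ W} = ∫ g, ee a g * W.indicator 1 g ∂gam n := by
    rw [gam_shift]
    exact (integral_indicator_one ((measurable_add_const a) hW)).symm
  set l := Real.exp (-‖a‖ ^ 2) / 2 with hl
  have l0 : 0 < l := by positivity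
  have h3 : ∫ g, 2 * l * (ee a g * W.indicator 1 g) ∂gam n ≤
      ∫ g, (l ^ 2 * (ee a g * ee a g) + W.indicator 1 g) ∂gam n := by
    refine integral_mono (((gr_ee _).mul gI).int.const_mul _)
      ((((gr_ee _).mul (gr_ee _)).int.const_mul _).add gI.int) fun g => ?_
    by_cases hg : g ∈ W
    · simp only [indicator_of_mem hg, Pi.one_apply]
      nlinarith [sq_nonneg (l * ee a g - 1)]
    · simp only [indicator_of_notMem hg]
      nlinarith [sq_nonneg (l * ee a g)]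
  rw [integral_add (((gr_ee _).mul (gr_ee _)).int.const_mul _) gI.int, integral_const_mul,
    integral_const_mul, ← h1, gam_ee_ee, integral_indicator_one hW, real_inner_self_eq_norm_sq]
    at h3
  have h4 : l * Real.exp (‖a‖ ^ 2) = 1 / 2 := by
    rw [hl, div_mul_eq_mul_div, ← Real.exp_add]; simp
  have h5 : l ^ 2 * Real.exp (‖a‖ ^ 2) = l / 2 := by rw [sq, mul_assoc, h4]; ring
  have h6 := mul_le_mul_of_nonneg_left h l0.le
  have : Real.exp (-‖a‖ ^ 2) / 4 = l / 2 := by rw [hl]; ring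
  linarith

theorem lev_closed {X : Type} [TopologicalSpace X] {F : X → E n → Prop} (r : ℝ)
    (hF : IsClosed {p : X × E n | F p.1 p.2}) : IsClosed {x | ∃ u, ‖u‖ ≤ r ∧ F x u} := by
  have : CompactSpace (Metric.closedBall (0 : E n) r) :=
    isCompact_iff_compactSpace.mp (isCompact_closedBall 0 r)
  have h1 : IsClosed {p : X × Metric.closedBall (0 : E n) r | F p.1 p.2} :=
    hF.preimage (continuous_fst.prodMk (continuous_subtype_val.comp continuous_snd))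
  convert isClosedMap_fst_of_compactSpace _ h1 using 1
  ext x
  constructor
  · rintro ⟨u, hu, h⟩
    exact ⟨(x, ⟨u, by simpa using hu⟩), h, rfl⟩
  · rintro ⟨⟨y, u, hu⟩, h, rfl⟩
    exact ⟨u, by simpa using hu, h⟩

/-- The points that `D` moves into `(1 + a) K` up to an error of size `r`. -/
def Lev (K : Set (E n)) (P : E n →L[ℝ] E n) (a m r : ℝ) (D : E n) : Set (E n) :=
  {x | ∃ u, ‖u‖ ≤ r ∧ ((1 + a)⁻¹ • (x + D - u) ∈ K ∧ m ≤ ‖P (D - u)‖)}

theorem lev_closed_two (hK : IsClosed K) (P : E n →L[ℝ] E n) (a m r s : ℝ) (D : E n) :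
    IsClosed {p : E n × E n | p.1 ∈ Lev K P a m r (D + s • p.2)} := by
  refine lev_closed (F := fun (p : E n × E n) u =>
    (1 + a)⁻¹ • (p.1 + (D + s • p.2) - u) ∈ K ∧ m ≤ ‖P (D + s • p.2 - u)‖) r ?_
  have h1 := hK.preimage (f := fun y : (E n × E n) × E n =>
    (1 + a)⁻¹ • (y.1.1 + (D + s • y.1.2) - y.2)) (by fun_prop)
  have h2 := isClosed_le (f := fun _ : (E n × E n) × E n => m)
    (g := fun y => ‖P (D + s • y.1.2 - y.2)‖) continuous_const (by fun_prop)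
  exact h1.inter h2

theorem lev_meas (hK : IsClosed K) (P : E n →L[ℝ] E n) (a m r : ℝ) (D : E n) :
    MeasurableSet (Lev K P a m r D) := by
  have := (lev_closed_two hK P a m r 0 D).preimage
    (f := fun x : E n => (x, (0 : E n))) (by fun_prop)
  simpa using this.measurableSet

theorem lev_comb (hv : Convex ℝ K) {a η : ℝ} (a0 : 0 ≤ a) (η0 : 0 < η) {y z : E n}
    (hy : (1 + a)⁻¹ • y ∈ K) (hz : z ∈ K) : (1 + (a + η))⁻¹ • (y + η • z) ∈ K := by
  have p : 0 < 1 + (a + η) := by linarith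
  have p1 : 0 < 1 + a := by linarith
  have := hv hy hz (a := (1 + a) / (1 + (a + η))) (b := η / (1 + (a + η))) (by positivity)
    (by positivity) (by field_simp; ring)
  convert this using 1
  rw [smul_add, smul_smul, smul_smul]
  congr 2
  · field_simp
  · field_simp

theorem lev_mem (hv : Convex ℝ K) (P : E n →L[ℝ] E n) {a m η s ρ β : ℝ}
    (a0 : 0 ≤ a) (η0 : 0 < η) (s0 : 0 < s) {D x u g z : E n} (h1 : (1 + a)⁻¹ • (x + D - u) ∈ K)
    (h2 : m ≤ ‖P (D - u)‖) (hz : z ∈ K) (b1 : ‖P z‖ ≤ β) (b2 : ‖s • g - z‖ ≤ ρ) :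
    x ∈ Lev K P (a + η) (m - η * β) (η * ρ) (D + (η * s) • (g + -((η * s)⁻¹ • u))) := by
  have p : 0 < η * s := mul_pos η0 s0
  have e1 : (η * s) • (g + -((η * s)⁻¹ • u)) = η • s • g - u := by
    rw [smul_add, smul_neg, smul_smul _ _ u, mul_inv_cancel₀ p.ne', one_smul, smul_smul,
      sub_eq_add_neg]
  rw [e1]
  refine ⟨η • (s • g - z), ?_, ?_, ?_⟩
  · rw [norm_smul, Real.norm_of_nonneg η0.le]
    exact mul_le_mul_of_nonneg_left b2 η0.le
  · have e2 : x + (D + (η • s • g - u)) - η • (s • g - z) = x + D - u + η • z := by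
      rw [smul_sub]; abel
    rw [e2]
    exact lev_comb hv a0 η0 h1 hz
  · have e2 : D + (η • s • g - u) - η • (s • g - z) = D - u + η • z := by
      rw [smul_sub]; abel
    rw [e2, map_add, map_smul]
    have t1 := norm_sub_le (P (D - u) + η • P z) (η • P z)
    rw [add_sub_cancel_right, norm_smul, Real.norm_of_nonneg η0.le] at t1
    linarith [mul_le_mul_of_nonneg_left b1 η0.le]

theorem lev_num {x y : ℝ} (h : x ≤ y) : Real.exp (-(2 + y)) ≤ Real.exp (-x) / 4 := by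
  have n2 : Real.exp (-2) ≤ 1 / 4 := by
    rw [Real.exp_neg, ← one_div]
    refine one_div_le_one_div_of_le (by norm_num) ?_
    have := Real.add_one_le_exp (1 : ℝ)
    have e : Real.exp 2 = Real.exp 1 * Real.exp 1 := by rw [← Real.exp_add]; norm_num
    nlinarith
  rw [neg_add, Real.exp_add]
  have n3 := Real.exp_le_exp.2 (neg_le_neg h)
  nlinarith [Real.exp_pos (-y), Real.exp_pos (-2 : ℝ)]

theorem lev_step (hc : IsClosed K) (hv : Convex ℝ K) (P : E n →L[ℝ] E n) {a m r η s ρ β : ℝ}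
    (a0 : 0 ≤ a) (η0 : 0 < η) (s0 : 0 < s)
    (hU : 1 / 2 ≤ (gam n).real {g | ∃ z ∈ K, ‖P z‖ ≤ β ∧ ‖s • g - z‖ ≤ ρ}) (D : E n) :
    ∃ D', Real.exp (-(2 + r ^ 2 / (η * s) ^ 2)) * μ.real (Lev K P a m r D) ≤
      μ.real (Lev K P (a + η) (m - η * β) (η * ρ) D') := by
  have hS := lev_closed_two hc P (a + η) (m - η * β) (η * ρ) (η * s) D
  have p : 0 < η * s := mul_pos η0 s0
  have hm := fun x u g z => lev_mem hv P (m := m) (ρ := ρ) (β := β) a0 η0 s0 (D := D) (x := x)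
    (u := u) (g := g) (z := z)
  generalize Lev K P (a + η) (m - η * β) (η * ρ) = L at hS hm ⊢
  have key : ∀ x ∈ Lev K P a m r D, Real.exp (-(2 + r ^ 2 / (η * s) ^ 2)) ≤ (gam n).real
      {g | x ∈ L (D + (η * s) • g)} := by
    rintro x ⟨u, hu, h1, h2⟩
    have hW : MeasurableSet {g : E n | x ∈ L (D + (η * s) • g)} :=
      (hS.preimage (f := fun g : E n => (x, g)) (by fun_prop)).measurableSet
    have sub : {g | ∃ z ∈ K, ‖P z‖ ≤ β ∧ ‖s • g - z‖ ≤ ρ} ⊆ {g | g + -((η * s)⁻¹ • u) ∈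
        {g : E n | x ∈ L (D + (η * s) • g)}} := by
      rintro g ⟨z, hz, b1, b2⟩
      exact hm x u g z h1 h2 hz b1 b2
    refine le_trans (lev_num ?_) (lev_shift hW _ (hU.trans (measureReal_mono sub)))
    rw [norm_neg, norm_smul, Real.norm_of_nonneg (inv_pos.2 p).le, ← div_pow, inv_mul_eq_div]
    exact pow_le_pow_left₀ (by positivity) (div_le_div_of_nonneg_right hu p.le) 2
  obtain ⟨g, hg⟩ := exists_section (μ := μ) (ν := gam n) hS.measurableSet (lev_meas hc P a m r D)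
    (Real.exp_pos _).le key
  exact ⟨D + (η * s) • g, hg⟩

theorem lev_iter (hc : IsClosed K) (hv : Convex ℝ K) (P : E n →L[ℝ] E n) {m r η T v β : ℝ}
    (η0 : 0 < η) (T0 : 0 < T)
    (hU : ∀ S, 0 < S → S ≤ T →
      1 / 2 ≤ (gam n).real {g | ∃ z ∈ K, ‖P z‖ ≤ β ∧ ‖√S • g - z‖ ≤ S * v}) (j : ℕ) :
    ∃ D, Real.exp (-(r ^ 2 / (η ^ 2 * T) + (j + 1) * (2 + 2 * (T * v ^ 2)))) *
        μ.real (Lev K P 0 m r 0) ≤
      μ.real (Lev K P ((j + 1) * η) (m - (j + 1) * (η * β)) (η * (T / 2 ^ j * v)) D) := by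
  have tv : 0 ≤ T * v ^ 2 := by positivity
  induction j with
  | zero =>
    obtain ⟨D, hD⟩ := lev_step (μ := μ) hc hv P (a := 0) (m := m) (r := r) le_rfl η0
      (Real.sqrt_pos.2 T0) (hU T T0 le_rfl) 0
    refine ⟨D, ?_⟩
    simp only [Nat.cast_zero, zero_add, one_mul, pow_zero, div_one] at hD ⊢
    refine le_trans (mul_le_mul_of_nonneg_right (Real.exp_le_exp.2 ?_) measureReal_nonneg) hD
    rw [mul_pow, Real.sq_sqrt T0.le]
    linarith
  | succ j ih =>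
    obtain ⟨D, hD⟩ := ih
    have p : (0 : ℝ) < 2 ^ j := by positivity
    have p1 : (1 : ℝ) ≤ 2 ^ j := one_le_pow₀ (by norm_num)
    have S0 : 0 < T / 2 ^ (j + 1) := by positivity
    have S1 : T / 2 ^ (j + 1) ≤ T := div_le_self T0.le (one_le_pow₀ (by norm_num))
    obtain ⟨D', hD'⟩ := lev_step (μ := μ) hc hv P (a := (j + 1) * η) (m := m - (j + 1) * (η * β))
      (r := η * (T / 2 ^ j * v)) (by positivity) η0 (Real.sqrt_pos.2 S0) (hU _ S0 S1) D
    refine ⟨D', ?_⟩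
    have e1 : ((j + 1 : ℕ) + 1 : ℝ) * η = (j + 1) * η + η := by push_cast; ring
    have e2 : m - ((j + 1 : ℕ) + 1 : ℝ) * (η * β) = m - (j + 1) * (η * β) - η * β := by
      push_cast; ring
    rw [e1, e2]
    refine le_trans ?_ hD'
    refine le_trans ?_ (mul_le_mul_of_nonneg_left hD (Real.exp_pos _).le)
    rw [← mul_assoc (Real.exp _) (Real.exp _), ← Real.exp_add]
    refine mul_le_mul_of_nonneg_right (Real.exp_le_exp.2 ?_) measureReal_nonneg
    have e3 : (η * (T / 2 ^ j * v)) ^ 2 / (η * √(T / 2 ^ (j + 1))) ^ 2 = 2 * (T * v ^ 2) / 2 ^ j := by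
      rw [mul_pow η (√_), Real.sq_sqrt S0.le, pow_succ (2 : ℝ) j]
      field_simp
    have e4 : 2 * (T * v ^ 2) / 2 ^ j ≤ 2 * (T * v ^ 2) := div_le_self (by positivity) p1
    rw [e3]
    push_cast
    linarith

/-- The coordinate projection onto the coordinates in `J`. -/
noncomputable def lmask (J : Finset (Fin n)) : E n →L[ℝ] E n :=
  LinearMap.toContinuousLinearMap
    { toFun := fun v => WithLp.toLp 2 fun j => if j ∈ J then v j else 0
      map_add' := fun v w => by ext j; by_cases h : j ∈ J <;> simp [h]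
      map_smul' := fun c v => by ext j; by_cases h : j ∈ J <;> simp [h] }

theorem lmask_sq (J : Finset (Fin n)) (v : E n) : ‖lmask J v‖ ^ 2 = ∑ j ∈ J, v j ^ 2 := by
  rw [EuclideanSpace.real_norm_sq_eq]
  simp [lmask, ite_pow, Finset.sum_ite_mem]

theorem lmask_le (J : Finset (Fin n)) (v : E n) : ‖lmask J v‖ ≤ ‖v‖ := by
  refine (sq_le_sq₀ (norm_nonneg _) (norm_nonneg _)).1 ?_
  rw [lmask_sq, EuclideanSpace.real_norm_sq_eq]
  exact Finset.sum_le_sum_of_subset_of_nonneg (Finset.subset_univ _) fun _ _ _ => sq_nonneg _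

theorem Iso.ball_mem (h : Iso μ K R) {z : E n} (hz : ‖z‖ ≤ 1 / 16000) : z ∈ K := by
  by_contra h0
  obtain ⟨v, hv, c, h1, h2⟩ := sep_unit h.cl h.cv h.nonempty h0
  have := real_inner_le_norm z v
  rw [hv, mul_one] at this
  linarith [h.supp hv h1]

theorem lev_core (h : Iso μ K R) (J : Finset (Fin n)) {q w u B : ℝ} (q1 : 1 ≤ q) (w1 : 1 ≤ w)
    (u0 : 0 < u) (u1 : u ≤ 1) (hB : u * n = B) (hk : q ^ 2 = u ^ 3 * B) (j : ℕ)
    (hj : 16000 * (n : ℝ) ≤ 2 ^ j) (hn : 1 ≤ (n : ℝ))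
    (hN : ∀ T, 0 < T → T ≤ 1 / w ^ 2 → 1 / 2 ≤ (gam n).real
      {g | ∃ z ∈ K, ∑ i ∈ J, z i ^ 2 ≤ w ^ 2 * q ^ 2 ∧ ‖√T • g - z‖ ^ 2 ≤ T ^ 2 * n * w ^ 2})
    (hP : Real.exp (-(w ^ 2 * q ^ 2)) ≤ μ.real
      {x | ∃ x0 ∈ K, ‖x - x0‖ ^ 2 ≤ w ^ 2 * q ^ 2 ∧ q ^ 2 / 256 ≤ ∑ i ∈ J, (x i - x0 i) ^ 2}) :
    ∃ (d : E n) (a : ℝ), 0 ≤ a ∧ a * n ≤ B ∧ q ^ 2 / 1024 ≤ ∑ i ∈ J, d i ^ 2 ∧
      Real.exp (-(1029 * (j + 2) ^ 2 * (w ^ 2) ^ 3 * B)) ≤
        μ.real {x | x ∈ K ∧ (1 + a)⁻¹ • (x + d) ∈ K} := by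
  have w0 : 0 < w := by linarith
  have q0 : 0 < q := by linarith
  have j0 : (0 : ℝ) ≤ j := Nat.cast_nonneg j
  have B0 : 0 < B := by rw [← hB]; positivity
  have u3 : u ^ 3 ≤ 1 := pow_le_one₀ u0.le u1
  have qB : q ^ 2 ≤ B := by nlinarith
  have B1 : 1 ≤ B := le_trans (one_le_pow₀ q1) qB
  set η := u / (32 * (j + 2) * w) with hη
  have η0 : 0 < η := by positivity
  set T := u / w ^ 2 with hT
  have T0 : 0 < T := by positivity
  set v := √n * w with hv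
  have v0 : 0 ≤ v := by positivity
  have v2 : v ^ 2 = n * w ^ 2 := by rw [hv, mul_pow, Real.sq_sqrt (by positivity)]
  obtain ⟨D, hD⟩ := lev_iter (μ := μ) h.cl h.cv (lmask J) (m := q / 16) (r := w * q) (v := v)
    (β := w * q) η0 T0 (fun S S0 S1 => (hN S S0 (S1.trans
      (div_le_div_of_nonneg_right u1 (by positivity)))).trans (measureReal_mono (by
      rintro g ⟨z, hz, b1, b2⟩
      refine ⟨z, hz, (sq_le_sq₀ (norm_nonneg _) (by positivity)).1 ?_,
        (sq_le_sq₀ (norm_nonneg _) (by positivity)).1 ?_⟩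
      · rw [lmask_sq, mul_pow]; exact b1
      · rw [mul_pow, v2, ← mul_assoc]; exact b2))) j
  have h0 : Real.exp (-(w ^ 2 * q ^ 2)) ≤ μ.real (Lev K (lmask J) 0 (q / 16) (w * q) 0) := by
    refine hP.trans (measureReal_mono ?_)
    rintro x ⟨x0, hx, b1, b2⟩
    refine ⟨x - x0, (sq_le_sq₀ (norm_nonneg _) (by positivity)).1 (by rw [mul_pow]; exact b1),
      by simpa using hx, (sq_le_sq₀ (by positivity) (norm_nonneg _)).1 ?_⟩
    rw [zero_sub, map_neg, norm_neg, lmask_sq, div_pow]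
    norm_num
    exact b2
  have r1 : T / 2 ^ j * v ≤ 1 / 16000 := by
    have s1 : √(n : ℝ) ≤ n := Real.sqrt_le_iff.2 ⟨by positivity, by nlinarith⟩
    have s2 : T * w ≤ 1 := by
      rw [hT, div_mul_eq_mul_div, div_le_one (by positivity)]
      nlinarith
    have s3 : T * v ≤ n := by
      rw [hv, mul_comm (√_) w, ← mul_assoc]
      nlinarith [Real.sqrt_nonneg (n : ℝ), mul_pos T0 w0]
    rw [div_mul_eq_mul_div, div_le_div_iff₀ (by positivity) (by norm_num)]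
    linarith
  have c1 : (w * q) ^ 2 / (η ^ 2 * T) = 1024 * (j + 2) ^ 2 * (w ^ 2) ^ 3 * B := by
    rw [mul_pow, hk, hη, hT]
    field_simp
    norm_num
  have c2 : T * v ^ 2 = B := by
    rw [v2, hT, ← hB]
    field_simp
  have w2 : 1 ≤ w ^ 2 := one_le_pow₀ w1
  have w3 : w ^ 2 ≤ (w ^ 2) ^ 3 := le_self_pow₀ w2 (by norm_num)
  have low : Real.exp (-(1029 * (j + 2) ^ 2 * (w ^ 2) ^ 3 * B)) ≤ μ.real (Lev K (lmask J)
      ((j + 1) * η) (q / 16 - (j + 1) * (η * (w * q))) (η * (T / 2 ^ j * v)) D) := by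
    refine le_trans ?_ hD
    refine le_trans ?_ (mul_le_mul_of_nonneg_left h0 (Real.exp_pos _).le)
    rw [← Real.exp_add, c1, c2]
    refine Real.exp_le_exp.2 ?_
    set Z := (w ^ 2) ^ 3 * B with hZ
    have z1 : B ≤ Z := by rw [hZ]; nlinarith
    have z2 : w ^ 2 * q ^ 2 ≤ Z := mul_le_mul w3 qB (by positivity) (by positivity)
    have z3 : ((j : ℝ) + 1) * (2 + 2 * B) ≤ (j + 2) ^ 2 * (4 * Z) :=
      mul_le_mul (by nlinarith) (by linarith) (by positivity) (by positivity)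
    have z4 : Z ≤ (j + 2) ^ 2 * Z := le_mul_of_one_le_left (by linarith) (by nlinarith)
    have e1 : 1029 * ((j : ℝ) + 2) ^ 2 * (w ^ 2) ^ 3 * B = 1029 * ((j + 2) ^ 2 * Z) := by
      rw [hZ]; ring
    have e2 : 1024 * ((j : ℝ) + 2) ^ 2 * (w ^ 2) ^ 3 * B = 1024 * ((j + 2) ^ 2 * Z) := by
      rw [hZ]; ring
    rw [e1, e2]
    linarith
  have e5 : ((j : ℝ) + 2) * (η * w) = u / 32 := by
    rw [hη]
    field_simp
  refine ⟨D, (j + 1) * η + η, by positivity, ?_, ?_, low.trans ?_⟩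
  · have : ((j : ℝ) + 1) * η + η ≤ u := by
      have : ((j : ℝ) + 2) * η ≤ (j + 2) * (η * w) :=
        mul_le_mul_of_nonneg_left (le_mul_of_one_le_right η0.le w1) (by positivity)
      linarith
    rw [← hB]
    exact mul_le_mul_of_nonneg_right this (by positivity)
  · obtain ⟨x, y, hy, -, b⟩ : (Lev K (lmask J) ((j + 1) * η) (q / 16 - (j + 1) * (η * (w * q)))
        (η * (T / 2 ^ j * v)) D).Nonempty := by
      rw [nonempty_iff_ne_empty]
      intro he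
      rw [he, measureReal_empty] at low
      exact absurd low (not_le.2 (Real.exp_pos _))
    rw [map_sub] at b
    have t1 := norm_sub_le (lmask J D) (lmask J y)
    have t2 := lmask_le J y
    have t3 : η * (T / 2 ^ j * v) ≤ η * (w * q) :=
      mul_le_mul_of_nonneg_left (by nlinarith) η0.le
    have t4 : ((j : ℝ) + 1) * (η * (w * q)) + η * (w * q) = u / 32 * q := by rw [← e5]; ring
    have t5 : q / 32 ≤ ‖lmask J D‖ := by nlinarith
    rw [← lmask_sq]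
    have := pow_le_pow_left₀ (by positivity) t5 2
    rw [div_pow] at this
    norm_num at this
    exact this
  · refine ENNReal.toReal_mono (measure_ne_top _ _) (measure_mono_ae ?_)
    filter_upwards [h.mem] with x hx
    rintro ⟨y, hy, b, -⟩
    refine ⟨hx, ?_⟩
    have hz : η⁻¹ • y ∈ K := h.ball_mem (by
      rw [norm_smul, Real.norm_of_nonneg (inv_pos.2 η0).le, inv_mul_le_iff₀ η0]
      exact hy.trans (mul_le_mul_of_nonneg_left r1 η0.le))
    have := lev_comb h.cv (by positivity) η0 b hz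
    rwa [smul_smul η, mul_inv_cancel₀ η0.ne', one_smul, sub_add_cancel] at this

theorem levels : ∃ C : ℝ, 0 < C ∧ ∀ n : ℕ, 1 ≤ n → ∀ (μ : Measure (E n)) [IsProbabilityMeasure μ]
    (K : Set (E n)) (R : ℝ), Iso μ K R → ∀ J : Finset (Fin n), J.Nonempty → ∀ Ψ : ℝ, 1 ≤ Ψ →
    (∀ T : ℝ, 0 < T → T ≤ 1 / Ψ → 1 / 2 ≤ (gam n).real
      {g | ∃ z ∈ K, ∑ i ∈ J, z i ^ 2 ≤ Ψ * J.card ∧ ‖√T • g - z‖ ^ 2 ≤ T ^ 2 * n * Ψ}) →
    Real.exp (-(Ψ * J.card)) ≤ μ.real
      {x | ∃ x0 ∈ K, ‖x - x0‖ ^ 2 ≤ Ψ * J.card ∧ (J.card : ℝ) / 256 ≤ ∑ i ∈ J, (x i - x0 i) ^ 2} →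
    ∃ (d : E n) (a : ℝ), 0 ≤ a ∧
      a * n ≤ C * Ψ ^ 3 * (1 + Real.log n) ^ 2 * (J.card : ℝ) ^ (1 / 4 : ℝ) * (n : ℝ) ^ (3 / 4 : ℝ) ∧
      (J.card : ℝ) / 1024 ≤ ∑ i ∈ J, d i ^ 2 ∧
      Real.exp (-(C * Ψ ^ 3 * (1 + Real.log n) ^ 2 * (J.card : ℝ) ^ (1 / 4 : ℝ) *
        (n : ℝ) ^ (3 / 4 : ℝ))) ≤ μ.real {x | x ∈ K ∧ (1 + a)⁻¹ • (x + d) ∈ K} := by
  refine ⟨300000, by norm_num, fun n hn μ _ K R h J hJ Ψ Ψ1 hN hP => ?_⟩
  have n1 : (1 : ℝ) ≤ n := by exact_mod_cast hn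
  have n0 : (0 : ℝ) < n := by linarith
  have k1 : (1 : ℝ) ≤ J.card := by exact_mod_cast hJ.card_pos
  have k0 : (0 : ℝ) < J.card := by linarith
  have kn : (J.card : ℝ) ≤ n := by exact_mod_cast (Finset.card_le_univ J).trans_eq (by simp)
  set a := (J.card : ℝ) ^ (1 / 4 : ℝ) with ha
  set b := (n : ℝ) ^ (1 / 4 : ℝ) with hb
  have a0 : 0 < a := by positivity
  have b0 : 0 < b := by positivity
  have a4 : a ^ 4 = J.card := by
    rw [ha, ← Real.rpow_natCast, ← Real.rpow_mul k0.le]; norm_num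
  have b4 : b ^ 4 = n := by
    rw [hb, ← Real.rpow_natCast, ← Real.rpow_mul n0.le]; norm_num
  have b3 : (n : ℝ) ^ (3 / 4 : ℝ) = b ^ 3 := by
    rw [hb, ← Real.rpow_natCast, ← Real.rpow_mul n0.le]; norm_num
  have ab : a ≤ b := Real.rpow_le_rpow k0.le kn (by norm_num)
  have e1 : (√Ψ) ^ 2 = Ψ := Real.sq_sqrt (by linarith)
  have e2 : (√(J.card : ℝ)) ^ 2 = J.card := Real.sq_sqrt k0.le
  have l0 : 0 ≤ Real.log n := Real.log_nonneg n1
  have hj : 16000 * (n : ℝ) ≤ 2 ^ (Nat.log 2 n + 15) := by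
    have : (n : ℝ) < 2 ^ (Nat.log 2 n + 1) := by
      exact_mod_cast Nat.lt_pow_succ_log_self (by norm_num) n
    have e : (2 : ℝ) ^ (Nat.log 2 n + 15) = 2 ^ (Nat.log 2 n + 1) * 2 ^ 14 := by ring
    rw [e]
    nlinarith
  have hl : (Nat.log 2 n : ℝ) ≤ 2 * Real.log n := by
    have h1 : (2 : ℝ) ^ Nat.log 2 n ≤ n := by exact_mod_cast Nat.pow_log_le_self 2 (by omega)
    have h2 := Real.log_le_log (by positivity) h1
    rw [Real.log_pow] at h2
    nlinarith [Real.log_two_gt_d9, (Nat.cast_nonneg (Nat.log 2 n) : (0 : ℝ) ≤ _)]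
  obtain ⟨d, c, c0, c1, c2, c3⟩ := lev_core h J (q := √(J.card : ℝ)) (w := √Ψ) (u := a / b)
    (B := a * b ^ 3) (Real.one_le_sqrt.2 k1) (Real.one_le_sqrt.2 Ψ1) (by positivity)
    ((div_le_one b0).2 ab) (by rw [← b4]; field_simp) (by rw [e2, ← a4]; field_simp)
    (Nat.log 2 n + 15) hj n1 (by rw [e1, e2]; exact hN) (by rw [e1, e2]; exact hP)
  rw [e2] at c2
  rw [e1] at c3
  have p3 : 1 ≤ Ψ ^ 3 := one_le_pow₀ Ψ1
  have p2 : 1 ≤ (1 + Real.log n) ^ 2 := one_le_pow₀ (by linarith)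
  have B0 : 0 < a * b ^ 3 := by positivity
  rw [b3]
  refine ⟨d, c, c0, c1.trans ?_, c2, le_trans (Real.exp_le_exp.2 (neg_le_neg ?_)) c3⟩
  · rw [mul_assoc _ a]
    refine le_mul_of_one_le_left B0.le ?_
    nlinarith [mul_le_mul p3 p2 zero_le_one (by linarith)]
  · rw [mul_assoc _ a]
    refine mul_le_mul_of_nonneg_right ?_ B0.le
    have s1 : (((Nat.log 2 n + 15 : ℕ) : ℝ) + 2) ^ 2 ≤ (17 * (1 + Real.log n)) ^ 2 :=
      pow_le_pow_left₀ (by positivity) (by push_cast; linarith) 2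
    rw [mul_pow] at s1
    nlinarith [mul_le_mul_of_nonneg_right s1 (by linarith : 0 ≤ Ψ ^ 3),
      mul_pos (by linarith : 0 < Ψ ^ 3) (by linarith : 0 < (1 + Real.log n) ^ 2)]

end Pool.Agent.Lib.MP_fedf83_gt.P
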