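import Pool.Agent.Lib.MP_fedf83_gt.LMom
import Pool.Agent.Lib.MP_fedf83_gt.LMarkov
import Pool.Agent.Lib.MP_fedf83_gt.LStep

/-! Polynomial growth in time of the expected trace of a power of the covariance matrix. -/

namespace Pool.Agent.Lib.MP_fedf83_gt.P

open MeasureTheory Set Pool.Agent.Lib.MP_fedf83_gt.B Matrix
open scoped ENNReal RealInnerProductSpace

variable {n : ℕ} {μ : Measure (E n)} [IsProbabilityMeasure μ] {R : ℝ}

theorem phase_two (hl : LC μ) (hR : Bd μ R) (m : ℕ) {a b : ℝ} (a0 : 0 < a) (hab : a ≤ b) :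
    EX μ (√b) (fun p => trace (covM p ^ (m + 3))) ≤
      (b / a) ^ (4 * (m + 3).choose 2) * EX μ (√a) fun p => trace (covM p ^ (m + 3)) := by
  obtain ⟨C, C0, hC⟩ := step_S2 n (m + 3) R
  set N := 4 * (m + 3).choose 2 with hN
  have v0 : ∀ s, 0 ≤ EX μ s fun p => trace (covM p ^ (m + 3)) := fun s =>
    EX_nonneg hR fun θ => by
      have := hR.tilt_prob (s ^ 2) θ
      exact (hR.tilt _ θ).trace_pow_nonneg _
  have key := slope (v := fun t => (EX μ (√t) fun p => trace (covM p ^ (m + 3))) / t ^ N)
    (C := C / a ^ N) hab fun t h ht h0 h1 _ => by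
      have t0 : 0 < t := a0.trans_le ht
      have f := flow hR (reg_trace hR (m + 3)) ((reg_trace hR (m + 3)).const_mul (N / t)) t0.le h0
        (c := C * (h * √h)) fun θ => by
          have := hR.tilt_prob t θ
          have h2 := hC (tilt μ t θ) (√h) (hR.tilt t θ) (Real.sqrt_nonneg _)
            (Real.sqrt_le_one.2 h1)
          have h3 := chen t0 (hl.slc_tilt hR t θ) (hR.tilt t θ) m
          rw [pow_succ (√h) 2, Real.sq_sqrt h0.le] at h2
          refine h2.trans ?_
          have h4 := mul_le_mul_of_nonneg_left (mul_le_mul_of_nonneg_left h3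
            (Nat.cast_nonneg ((m + 3).choose 2))) h0.le
          have e : ((N : ℕ) : ℝ) = 4 * ((m + 3).choose 2 : ℕ) := by rw [hN]; push_cast; ring
          have e2 : h * ((N : ℝ) / t * trace (covM (tilt μ t θ) ^ (m + 3))) =
              h * (((m + 3).choose 2 : ℕ) * (4 / t * trace (covM (tilt μ t θ) ^ (m + 3)))) := by
            rw [e]; ring
          rw [e2]
          exact add_le_add (add_le_add le_rfl h4) le_rfl
      rw [EX_const_mul] at f
      have hv := v0 (√t)
      generalize (EX μ (√t) fun p => trace (covM p ^ (m + 3))) = x at *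
      generalize (EX μ (√(t + h)) fun p => trace (covM p ^ (m + 3))) = y at *
      have p1 : 0 < (t + h) ^ N := by positivity
      have b1 : 1 + (N : ℝ) * (h / t) ≤ (1 + h / t) ^ N :=
        one_add_mul_le_pow (by have : 0 < h / t := by positivity
                               linarith) N
      have e3 : (t + h) ^ N = t ^ N * (1 + h / t) ^ N := by
        rw [← mul_pow]; congr 1; field_simp
      have b2 : a ^ N ≤ (t + h) ^ N := pow_le_pow_left₀ a0.le (by linarith) N
      rw [div_le_iff₀ p1, add_mul]
      refine f.trans (add_le_add ?_ ?_)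
      · rw [e3, ← mul_assoc (x / t ^ N), div_mul_cancel₀ _ (pow_pos t0 N).ne']
        refine le_trans (le_of_eq ?_) (mul_le_mul_of_nonneg_left b1 hv)
        ring
      · refine le_trans (le_of_eq ?_) (mul_le_mul_of_nonneg_left b2 (by positivity))
        field_simp
  have b0 : 0 < b := a0.trans_le hab
  rw [div_le_iff₀ (by positivity)] at key
  refine key.trans (le_of_eq ?_)
  rw [div_pow]
  ring

end Pool.Agent.Lib.MP_fedf83_gt.P
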