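import Pool.Agent.Lib.MP_fedf83_gt.PConc

/-! The Poincare inequality for quadratic functions under strongly log-concave measures. -/

namespace Pool.Agent.Lib.MP_fedf83_gt.P

open MeasureTheory Set Pool.Agent.Lib.MP_fedf83_gt.B
open scoped ENNReal RealInnerProductSpace

variable {n : ℕ}

/-- Midpoint `t`-strong log-concavity of a measure, in functional form. -/
def SLC (t : ℝ) (μ : Measure (E n)) : Prop :=
  ∀ f g h : E n → ℝ, Measurable f → Measurable g → Measurable h →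
    (∀ x, 0 ≤ f x) → (∀ x, 0 ≤ g x) → (∀ x, 0 ≤ h x) →
    Integrable f μ → Integrable g μ → Integrable h μ →
    (∀ x y, f x * g y ≤ Real.exp (t * ‖x - y‖ ^ 2 / 4) * h ((1 / 2 : ℝ) • (x + y)) ^ 2) →
    (∫ x, f x ∂μ) * (∫ x, g x ∂μ) ≤ (∫ x, h x ∂μ) ^ 2

theorem two_add_sq_le (z : ℝ) : 2 + z ^ 2 ≤ Real.exp z + Real.exp (-z) := by
  have h : ∀ w : ℝ, 0 ≤ w → 2 + (2 * w) ^ 2 ≤ Real.exp (2 * w) + Real.exp (-(2 * w)) := by
    intro w hw
    have h1 : w ≤ Real.sinh w := Real.self_le_sinh_iff.2 hw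
    rw [Real.sinh_eq] at h1
    have h2 : Real.exp (2 * w) = Real.exp w * Real.exp w := by rw [← Real.exp_add]; ring_nf
    have h3 : Real.exp (-(2 * w)) = Real.exp (-w) * Real.exp (-w) := by
      rw [← Real.exp_add]; ring_nf
    have h4 : Real.exp w * Real.exp (-w) = 1 := by rw [← Real.exp_add]; simp
    rw [h2, h3]
    nlinarith
  rcases le_total 0 z with hz | hz
  · have := h (z / 2) (by linarith)
    rwa [show 2 * (z / 2) = z by ring] at this
  · have := h (-z / 2) (by linarith)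
    rw [show 2 * (-z / 2) = -z by ring, neg_neg, neg_sq] at this
    linarith

/-- The weight of a Gaussian tilt at two points and at their midpoint. -/
theorem tilt_mid (t : ℝ) (θ x y : E n) :
    Real.exp (⟪θ, x⟫ - t * ‖x‖ ^ 2 / 2) * Real.exp (⟪θ, y⟫ - t * ‖y‖ ^ 2 / 2) *
        Real.exp (t * ‖x - y‖ ^ 2 / 4) =
      Real.exp (⟪θ, (1 / 2 : ℝ) • (x + y)⟫ - t * ‖(1 / 2 : ℝ) • (x + y)‖ ^ 2 / 2) ^ 2 := by
  rw [← Real.exp_add, ← Real.exp_add, sq (Real.exp _), ← Real.exp_add]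
  congr 1
  rw [norm_smul, mul_pow, inner_smul_right, inner_add_right, norm_add_sq_real, norm_sub_sq_real]
  norm_num
  ring

/-- Weight form of the Poincare inequality. -/
theorem poin_core {μ : Measure (E n)} [IsFiniteMeasure μ] {t R : ℝ} (t0 : 0 < t) (hR : Bd μ R)
    {w : E n → ℝ} (cw : Continuous w) (w0 : ∀ x, 0 ≤ w x)
    (hs : ∀ F G H : E n → ℝ, Continuous F → Continuous G → Continuous H →
      (∀ x, 0 ≤ F x) → (∀ x, 0 ≤ G x) → (∀ x, 0 ≤ H x) →
      (∀ x y, F x * G y ≤ Real.exp (t * ‖x - y‖ ^ 2 / 4) * H ((1 / 2 : ℝ) • (x + y)) ^ 2) →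
      (∫ x, w x * F x ∂μ) * (∫ x, w x * G x ∂μ) ≤ (∫ x, w x * H x ∂μ) ^ 2)
    {f : E n → ℝ} {G : E n → E n} (cf : Continuous f) (cG : Continuous G)
    (hfG : ∀ x y, f x - f y = ⟪G ((1 / 2 : ℝ) • (x + y)), x - y⟫) :
    (∫ x, w x ∂μ) * (∫ x, w x * f x ^ 2 ∂μ) - (∫ x, w x * f x ∂μ) ^ 2 ≤
      (∫ x, w x ∂μ) * (∫ x, w x * ‖G x‖ ^ 2 ∂μ) / t := by
  set Z := ∫ x, w x ∂μ with hZ
  have Z0 : 0 ≤ Z := integral_nonneg w0
  rcases Z0.eq_or_lt with hz | hz
  · rw [← hz]
    simp only [zero_mul, zero_sub, zero_div]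
    nlinarith [sq_nonneg (∫ x, w x * f x ∂μ)]
  set S1 := ∫ x, w x * f x ∂μ with hS1
  set S2 := ∫ x, w x * f x ^ 2 ∂μ with hS2
  set Q := ∫ x, w x * ‖G x‖ ^ 2 ∂μ with hQ
  set m := S1 / Z with hm
  set C := ∫ x, w x * ((‖G x‖ ^ 2) ^ 2 * Real.exp (‖G x‖ ^ 2)) ∂μ with hC
  have Q0 : 0 ≤ Q := integral_nonneg fun x => mul_nonneg (w0 x) (by positivity)
  have C0 : 0 ≤ C := integral_nonneg fun x => mul_nonneg (w0 x) (by positivity)
  have iw : Integrable w μ := hR.int cw
  have i1 : Integrable (fun x => w x * f x) μ := hR.int (by fun_prop)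
  have i2 : Integrable (fun x => w x * f x ^ 2) μ := hR.int (by fun_prop)
  have iQ : Integrable (fun x => w x * ‖G x‖ ^ 2) μ := hR.int (by fun_prop)
  have iC : Integrable (fun x => w x * ((‖G x‖ ^ 2) ^ 2 * Real.exp (‖G x‖ ^ 2))) μ :=
    hR.int (by fun_prop)
  have mZ : m * Z = S1 := by rw [hm]; field_simp
  have lin : ∀ a b c : ℝ, ∫ x, (a * w x + b * (w x * f x) + c * (w x * f x ^ 2)) ∂μ =
      a * Z + b * S1 + c * S2 := fun a b c => by
    rw [integral_add (iadd (iw.const_mul a) (i1.const_mul b)) (i2.const_mul c),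
      integral_add (iw.const_mul a) (i1.const_mul b), integral_const_mul, integral_const_mul,
      integral_const_mul]
  have ilin : ∀ a b c : ℝ,
      Integrable (fun x => a * w x + b * (w x * f x) + c * (w x * f x ^ 2)) μ := fun a b c =>
    iadd (iadd (iw.const_mul a) (i1.const_mul b)) (i2.const_mul c)
  have main : ∀ s : ℝ, 0 < s → s ≤ 1 →
      2 * t * (Z * S2 - S1 ^ 2) ≤ 2 * Z * Q + s * (2 * Z * C + (Q + C) ^ 2) := by
    intro s s0 s1
    set e := √(2 * t * s) with he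
    have e2 : e ^ 2 = 2 * t * s := Real.sq_sqrt (by positivity)
    have key := hs (fun x => Real.exp (e * (f x - m))) (fun x => Real.exp (-(e * (f x - m))))
      (fun x => Real.exp (s * ‖G x‖ ^ 2)) (by fun_prop) (by fun_prop) (by fun_prop)
      (fun x => (Real.exp_pos _).le) (fun x => (Real.exp_pos _).le)
      (fun x => (Real.exp_pos _).le) (fun x y => by
        rw [← Real.exp_add, sq (Real.exp _), ← Real.exp_add, ← Real.exp_add]
        refine Real.exp_le_exp.2 ?_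
        have h1 := hfG x y
        have h2 := real_inner_le_norm (G ((1 / 2 : ℝ) • (x + y))) (x - y)
        set g := ‖G ((1 / 2 : ℝ) • (x + y))‖
        set d := ‖x - y‖
        have e0 : 0 ≤ e := Real.sqrt_nonneg _
        have h3 : e * (f x - f y) ≤ e * (g * d) := mul_le_mul_of_nonneg_left (h1 ▸ h2) e0
        have h4 : t * (e * (g * d)) ≤ t * (t * d ^ 2 / 4 + 2 * s * g ^ 2) := by
          have : t * (t * d ^ 2 / 4 + 2 * s * g ^ 2) = (t * d) ^ 2 / 4 + e ^ 2 * g ^ 2 := by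
            rw [e2]; ring
          rw [this]
          nlinarith [sq_nonneg (t * d / 2 - e * g)]
        have h5 := le_of_mul_le_mul_left h4 t0
        linarith)
    have ia : Integrable (fun x => w x * Real.exp (e * (f x - m))) μ := hR.int (by fun_prop)
    have ib : Integrable (fun x => w x * Real.exp (-(e * (f x - m)))) μ := hR.int (by fun_prop)
    have ic : Integrable (fun x => w x * Real.exp (s * ‖G x‖ ^ 2)) μ := hR.int (by fun_prop)
    set a := ∫ x, w x * Real.exp (e * (f x - m)) ∂μ with ha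
    set b := ∫ x, w x * Real.exp (-(e * (f x - m))) ∂μ with hb
    set c := ∫ x, w x * Real.exp (s * ‖G x‖ ^ 2) ∂μ with hc
    have a1 : Z ≤ a := by
      have := integral_mono (ilin (1 - e * m) e 0) ia fun x => by
        have := mul_le_mul_of_nonneg_left (Real.add_one_le_exp (e * (f x - m))) (w0 x)
        simp only
        linarith
      rw [lin] at this
      have h2 : e * m * Z = e * S1 := by rw [mul_assoc, mZ]
      linarith
    have b1 : Z ≤ b := by
      have := integral_mono (ilin (1 + e * m) (-e) 0) ib fun x => by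
        have := mul_le_mul_of_nonneg_left (Real.add_one_le_exp (-(e * (f x - m)))) (w0 x)
        simp only
        linarith
      rw [lin] at this
      have h2 : e * m * Z = e * S1 := by rw [mul_assoc, mZ]
      linarith
    have ab : 2 * Z + e ^ 2 * (S2 - m * S1) ≤ a + b := by
      have := integral_mono (ilin (2 + e ^ 2 * m ^ 2) (-(2 * e ^ 2 * m)) (e ^ 2)) (iadd ia ib)
        fun x => by
          have := mul_le_mul_of_nonneg_left (two_add_sq_le (e * (f x - m))) (w0 x)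
          simp only
          linarith
      rw [lin, integral_add ia ib] at this
      have h2 : e ^ 2 * m ^ 2 * Z = e ^ 2 * m * S1 := by rw [← mZ]; ring
      linarith
    have c1 : c ≤ Z + s * Q + s ^ 2 * C := by
      have := integral_mono ic (iadd (iadd iw (iQ.const_mul s)) (iC.const_mul (s ^ 2))) fun x => by
        have q0 : 0 ≤ ‖G x‖ ^ 2 := by positivity
        have h1 := (le_abs_self _).trans (exp_two_le (s * ‖G x‖ ^ 2))
        rw [abs_of_nonneg (by positivity)] at h1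
        have h2 : Real.exp (s * ‖G x‖ ^ 2) ≤ Real.exp (‖G x‖ ^ 2) :=
          Real.exp_le_exp.2 (by nlinarith)
        have h3 := mul_le_mul_of_nonneg_left h2 (sq_nonneg (s * ‖G x‖ ^ 2))
        have h4 : Real.exp (s * ‖G x‖ ^ 2) ≤ 1 + s * ‖G x‖ ^ 2 +
            s ^ 2 * ((‖G x‖ ^ 2) ^ 2 * Real.exp (‖G x‖ ^ 2)) := by
          rw [mul_pow] at h1 h3
          linarith
        have := mul_le_mul_of_nonneg_left h4 (w0 x)
        simp only
        linarith
      rwa [integral_add (iadd iw (iQ.const_mul s)) (iC.const_mul _),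
        integral_add iw (iQ.const_mul s), integral_const_mul, integral_const_mul] at this
    have c0 : 0 ≤ c := integral_nonneg fun x => mul_nonneg (w0 x) (Real.exp_pos _).le
    have h1 : Z * (a + b) - Z ^ 2 ≤ a * b := by nlinarith [mul_nonneg (sub_nonneg.2 a1) (sub_nonneg.2 b1)]
    have h2 : c ^ 2 ≤ (Z + s * Q + s ^ 2 * C) ^ 2 := pow_le_pow_left₀ c0 c1 2
    have h3 := mul_le_mul_of_nonneg_left ab hz.le
    have h4 : Z * (e ^ 2 * (S2 - m * S1)) = s * (2 * t * (Z * S2 - S1 ^ 2)) := by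
      rw [e2, ← mZ]; ring
    have h5 : (Q + s * C) ^ 2 ≤ (Q + C) ^ 2 :=
      pow_le_pow_left₀ (by positivity) (by nlinarith) 2
    have h6 : s * (2 * t * (Z * S2 - S1 ^ 2)) ≤
        s * (2 * Z * Q + s * (2 * Z * C + (Q + C) ^ 2)) := by
      have h7 := mul_le_mul_of_nonneg_left h5 (sq_nonneg s)
      have h8 : (Z + s * Q + s ^ 2 * C) ^ 2 =
          Z ^ 2 + s * (2 * Z * Q) + s ^ 2 * (2 * Z * C) + s ^ 2 * (Q + s * C) ^ 2 := by ring
      nlinarith
    exact le_of_mul_le_mul_left h6 s0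
  have fin : 2 * t * (Z * S2 - S1 ^ 2) ≤ 2 * Z * Q := by
    set D := 2 * Z * C + (Q + C) ^ 2 with hD
    have D0 : 0 ≤ D := by positivity
    refine le_of_forall_pos_le_add fun ε ε0 => ?_
    have := main (min 1 (ε / (D + 1))) (lt_min one_pos (by positivity)) (min_le_left _ _)
    have h2 : min 1 (ε / (D + 1)) * D ≤ ε := by
      refine (mul_le_mul_of_nonneg_right (min_le_right _ _) D0).trans ?_
      rw [div_mul_eq_mul_div, div_le_iff₀ (by positivity)]
      nlinarith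
    linarith
  rw [le_div_iff₀ t0]
  linarith

/-- Poincare inequality for the Gaussian tilt of a log-concave measure, with explicit weights. -/
theorem poin_tilt {μ : Measure (E n)} [IsFiniteMeasure μ] (hl : LC μ) {t R : ℝ} (t0 : 0 < t)
    (hR : Bd μ R) (θ : E n) {f : E n → ℝ} {G : E n → E n} (cf : Continuous f) (cG : Continuous G)
    (hfG : ∀ x y, f x - f y = ⟪G ((1 / 2 : ℝ) • (x + y)), x - y⟫) :
    (∫ x, Real.exp (⟪θ, x⟫ - t * ‖x‖ ^ 2 / 2) ∂μ) *
        (∫ x, Real.exp (⟪θ, x⟫ - t * ‖x‖ ^ 2 / 2) * f x ^ 2 ∂μ) -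
        (∫ x, Real.exp (⟪θ, x⟫ - t * ‖x‖ ^ 2 / 2) * f x ∂μ) ^ 2 ≤
      (∫ x, Real.exp (⟪θ, x⟫ - t * ‖x‖ ^ 2 / 2) ∂μ) *
        (∫ x, Real.exp (⟪θ, x⟫ - t * ‖x‖ ^ 2 / 2) * ‖G x‖ ^ 2 ∂μ) / t := by
  refine poin_core t0 hR (w := fun x => Real.exp (⟪θ, x⟫ - t * ‖x‖ ^ 2 / 2)) (by fun_prop)
    (fun x => (Real.exp_pos _).le) (fun F G' H c1 c2 c3 p1 p2 p3 h => ?_) cf cG hfG
  refine hl _ _ _ (by fun_prop) (by fun_prop) (by fun_prop)
    (fun x => mul_nonneg (Real.exp_pos _).le (p1 x))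
    (fun x => mul_nonneg (Real.exp_pos _).le (p2 x))
    (fun x => mul_nonneg (Real.exp_pos _).le (p3 x)) (hR.int (by fun_prop))
    (hR.int (by fun_prop)) (hR.int (by fun_prop)) fun x y => ?_
  rw [mul_pow, ← tilt_mid t θ x y, mul_mul_mul_comm, mul_assoc _ (Real.exp (t * ‖x - y‖ ^ 2 / 4))]
  exact mul_le_mul_of_nonneg_left (h x y) (by positivity)

/-- Poincare inequality for a strongly log-concave probability measure. -/
theorem poin {μ : Measure (E n)} [IsProbabilityMeasure μ] {t R : ℝ} (t0 : 0 < t) (hl : SLC t μ)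
    (hR : Bd μ R) {f : E n → ℝ} {G : E n → E n} (cf : Continuous f) (cG : Continuous G)
    (hfG : ∀ x y, f x - f y = ⟪G ((1 / 2 : ℝ) • (x + y)), x - y⟫) :
    (∫ x, f x ^ 2 ∂μ) - (∫ x, f x ∂μ) ^ 2 ≤ (∫ x, ‖G x‖ ^ 2 ∂μ) / t := by
  have := poin_core t0 hR (w := fun _ => 1) continuous_const (fun _ => zero_le_one)
    (fun F G' H c1 c2 c3 p1 p2 p3 h => by
      simp only [one_mul]
      exact hl _ _ _ c1.measurable c2.measurable c3.measurable p1 p2 p3 (hR.int c1) (hR.int c2)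
        (hR.int c3) h) cf cG hfG
  simpa using this

theorem SLC.lc {μ : Measure (E n)} {t : ℝ} (t0 : 0 ≤ t) (hl : SLC t μ) : LC μ := by
  intro f g h mf mg mh f0 g0 h0 i1 i2 i3 H
  refine hl f g h mf mg mh f0 g0 h0 i1 i2 i3 fun x y => (H x y).trans ?_
  exact le_mul_of_one_le_left (sq_nonneg _) (Real.one_le_exp (by positivity))

theorem LC.slc_zero {μ : Measure (E n)} (hl : LC μ) : SLC 0 μ := by
  intro f g h mf mg mh f0 g0 h0 i1 i2 i3 H
  exact hl f g h mf mg mh f0 g0 h0 i1 i2 i3 fun x y => by simpa using H x y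

/-- The gradient identity for a symmetric quadratic form centred at `a`, plus a linear form. -/
theorem quad_mid (H : E n →L[ℝ] E n) (hH : ∀ x y, ⟪H x, y⟫ = ⟪x, H y⟫) (a b x y : E n) :
    (⟪H (x - a), x - a⟫ + ⟪b, x⟫) - (⟪H (y - a), y - a⟫ + ⟪b, y⟫) =
      ⟪(2 : ℝ) • H ((1 / 2 : ℝ) • (x + y) - a) + b, x - y⟫ := by
  have e1 : (1 / 2 : ℝ) • (x + y) - a = (1 / 2 : ℝ) • ((x - a) + (y - a)) := by module
  have e2 : x - y = (x - a) - (y - a) := by abel
  have e3 : ⟪b, x⟫ - ⟪b, y⟫ = ⟪b, (x - a) - (y - a)⟫ := by rw [← e2, inner_sub_right]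
  rw [e1, e2]
  generalize x - a = u at *
  generalize y - a = v at *
  have e4 : ⟪H v, u⟫ = ⟪H u, v⟫ := by rw [hH v u, real_inner_comm]
  rw [map_smul, smul_smul, map_add, inner_add_left, ← e3]
  norm_num
  rw [inner_add_left, inner_sub_right, inner_sub_right, e4]
  ring

end Pool.Agent.Lib.MP_fedf83_gt.P
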