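import Mathlib

open MeasureTheory Set Matrix
open scoped ENNReal BigOperators

set_option linter.unusedSectionVars false
set_option linter.unusedSimpArgs false

namespace Pool.Agent.Lib.MP_fedf83_gt

noncomputable section

/-- The unit cube. -/
def cube (ι : Type) : Set (ι → ℝ) := {x | ∀ i, x i ∈ Icc (0:ℝ) 1}

lemma cube_eq (ι : Type) : cube ι = Set.pi univ (fun _ => Icc (0:ℝ) 1) := by
  ext x; simp only [cube, mem_ofPred_eq, mem_pi, mem_univ, true_imp_iff]

lemma measurableSet_cube (ι : Type) [Fintype ι] : MeasurableSet (cube ι) := by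
  rw [cube_eq]; exact MeasurableSet.univ_pi (fun _ => measurableSet_Icc)

lemma volume_cube (ι : Type) [Fintype ι] : volume (cube ι) = 1 := by
  rw [cube_eq, volume_pi_pi]; simp

lemma vol_mulVec_image {α : Type} [Fintype α] [DecidableEq α] (A : Matrix α α ℝ)
    (S : Set (α → ℝ)) :
    volume (A.mulVec '' S) = ENNReal.ofReal |A.det| * volume S := by
  have h := Measure.addHaar_image_linearMap (volume : Measure (α → ℝ)) (Matrix.toLin' A) S
  rw [LinearMap.det_toLin'] at h
  have e : (Matrix.toLin' A : (α → ℝ) → (α → ℝ)) = A.mulVec := by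
    funext x; simp
  rwa [e] at h

variable {l ι : Type} [Fintype l] [Fintype ι] [DecidableEq l] [DecidableEq ι]

/-- chosen enumeration of a subset of the right size -/
def enum (s : Finset ι) (h : s.card = Fintype.card l) : l ≃ {i // i ∈ s} :=
  Fintype.equivOfCardEq (by simp [h])

/-- the square minor -/
def minor (M : Matrix l ι ℝ) (s : Finset ι) (h : s.card = Fintype.card l) : Matrix l l ℝ :=
  M.submatrix id (fun a => (enum s h a : ι))

/-- absolute value of the minor, zero for subsets of the wrong size -/
def D (M : Matrix l ι ℝ) (s : Finset ι) : ℝ :=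
  if h : s.card = Fintype.card l then |(minor M s h).det| else 0

lemma D_nonneg (M : Matrix l ι ℝ) (s : Finset ι) : 0 ≤ D M s := by
  unfold D; split_ifs <;> simp

lemma exists_generic (M : Matrix l ι ℝ) :
    ∃ (c : ι → ℝ) (μ : Finset ι → ι → ℝ), ∀ s, D M s ≠ 0 →
      (∀ j ∈ s, μ s j = 0) ∧ (∀ i, i ∉ s → μ s i ≠ 0) ∧
      (∀ x, M.mulVec x = 0 → ∑ i, c i * x i = ∑ i, μ s i * x i) := by
  classical
  let W : Finset ι → (ι → ℝ) →ₗ[ℝ] (l → ℝ) := fun s =>
    if h : s.card = Fintype.card l then
      (Matrix.toLin' ((minor M s h)ᵀ)⁻¹).comp (LinearMap.funLeft ℝ ℝ (fun a => (enum s h a : ι)))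
    else 0
  let m : Finset ι → (ι → ℝ) →ₗ[ℝ] (ι → ℝ) := fun s =>
    LinearMap.id - (Matrix.toLin' Mᵀ).comp (W s)
  let f : Finset ι × ι → Module.Dual ℝ (ι → ℝ) := fun p =>
    if p.2 ∈ p.1 then LinearMap.proj p.2 else (LinearMap.proj p.2).comp (m p.1)
  obtain ⟨c, hc⟩ := Module.Dual.exists_forall_ne_zero_of_forall_exists f (by
    rintro ⟨s, i⟩
    refine ⟨Pi.single i 1, ?_⟩
    by_cases hi : i ∈ s
    · simp [f, hi]
    · have hW : W s (Pi.single i 1) = 0 := by
        by_cases h : s.card = Fintype.card l
        · have : LinearMap.funLeft ℝ ℝ (fun a => (enum s h a : ι)) (Pi.single i (1:ℝ)) = 0 := by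
            funext a
            have : (enum s h a : ι) ≠ i := fun e => hi (e ▸ (enum s h a).2)
            simp [LinearMap.funLeft_apply, Pi.single_apply, this]
          simp only [W, dif_pos h, LinearMap.comp_apply, this, map_zero]
        · simp [W, dif_neg h]
      simp [f, hi, m, hW])
  refine ⟨c, fun s => m s c, fun s hs => ?_⟩
  have h : s.card = Fintype.card l := by
    by_contra h; exact hs (by simp [D, h])
  have hdet : (minor M s h).det ≠ 0 := by
    intro e; exact hs (by simp [D, h, e])
  refine ⟨fun j hj => ?_, fun i hi => ?_, fun x hx => ?_⟩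
  · obtain ⟨a, ha⟩ := (enum s h).surjective ⟨j, hj⟩
    have hj' : j = (enum s h a : ι) := by rw [ha]
    have hu : IsUnit ((minor M s h)ᵀ).det := by
      rw [Matrix.det_transpose]; exact isUnit_iff_ne_zero.2 hdet
    have key : ((minor M s h)ᵀ).mulVec (W s c) = fun a => c (enum s h a) := by
      simp only [W, dif_pos h, LinearMap.comp_apply, Matrix.toLin'_apply]
      rw [Matrix.mulVec_mulVec, Matrix.mul_nonsing_inv _ hu, Matrix.one_mulVec]
      rfl
    have k2 := congrFun key a
    simp only [m, LinearMap.sub_apply, LinearMap.id_apply, LinearMap.comp_apply,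
      Matrix.toLin'_apply, Pi.sub_apply]
    rw [hj', ← k2]
    simp [Matrix.mulVec, dotProduct, minor]
  · have := hc (s, i)
    simpa [f, hi] using this
  · simp only [m, LinearMap.sub_apply, LinearMap.id_apply, LinearMap.comp_apply,
      Matrix.toLin'_apply, Pi.sub_apply, sub_mul, Finset.sum_sub_distrib]
    have : ∑ i, (Mᵀ.mulVec (W s c)) i * x i = 0 := by
      have := Matrix.dotProduct_mulVec (W s c) M x
      rw [hx, dotProduct_zero, ← Matrix.mulVec_transpose] at this
      simpa [dotProduct] using this.symm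
    rw [this, sub_zero]

theorem zonotope_lower (M : Matrix l ι ℝ) :
    ENNReal.ofReal (∑ s, D M s) ≤ volume (M.mulVec '' cube ι) := by
  classical
  obtain ⟨c, μ, hμ⟩ := exists_generic M
  let ε : Finset ι → ι → ℝ := fun s i => if 0 < μ s i then 0 else 1
  let F : Finset ι → Set (ι → ℝ) := fun s =>
    {x | (∀ j ∈ s, x j ∈ Ioo (0:ℝ) 1) ∧ ∀ i, i ∉ s → x i = ε s i}
  have hF : ∀ s, F s ⊆ cube ι := by
    intro s x hx i
    by_cases hi : i ∈ s
    · exact Ioo_subset_Icc_self (hx.1 i hi)
    · rw [hx.2 i hi]; simp only [ε]; split_ifs <;> simp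
  let G : Finset (Finset ι) := Finset.univ.filter (fun s => D M s ≠ 0)
  have hterm : ∀ s, D M s ≠ 0 → ∀ x ∈ F s, ∀ y ∈ cube ι, ∀ i, 0 ≤ μ s i * (y i - x i) := by
    intro s hs x hx y hy i
    by_cases hi : i ∈ s
    · rw [(hμ s hs).1 i hi]; simp
    · rw [hx.2 i hi]
      simp only [ε]
      split_ifs with h
      · exact mul_nonneg h.le (by simpa using (hy i).1)
      · exact mul_nonneg_of_nonpos_of_nonpos (not_lt.1 h) (by simpa using (hy i).2)
  have hsub : ∀ s s', D M s ≠ 0 → D M s' ≠ 0 → ∀ x ∈ F s, ∀ y ∈ F s',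
      M.mulVec x = M.mulVec y → s' ⊆ s := by
    intro s s' hs hs' x hx y hy hxy i hi
    by_contra hi'
    have h1 : ∑ i, c i * (y - x) i = ∑ i, μ s i * (y - x) i :=
      (hμ s hs).2.2 _ (by rw [Matrix.mulVec_sub, hxy, sub_self])
    have h2 : ∑ i, c i * (x - y) i = ∑ i, μ s' i * (x - y) i :=
      (hμ s' hs').2.2 _ (by rw [Matrix.mulVec_sub, hxy, sub_self])
    have h3 : 0 ≤ ∑ i, μ s' i * (x - y) i :=
      Finset.sum_nonneg (fun i _ => hterm s' hs' y hy x (hF s hx) i)
    have h4 : ∑ i, c i * (y - x) i = - ∑ i, c i * (x - y) i := by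
      rw [← Finset.sum_neg_distrib]; refine Finset.sum_congr rfl (fun i _ => ?_)
      simp only [Pi.sub_apply]; ring
    have h5 : ∑ i, μ s i * (y - x) i = 0 := by
      apply le_antisymm
      · rw [← h1, h4, h2]; linarith
      · exact Finset.sum_nonneg (fun i _ => hterm s hs x hx y (hF s' hy) i)
    have h6 := (Finset.sum_eq_zero_iff_of_nonneg
      (fun i _ => hterm s hs x hx y (hF s' hy) i)).1 h5 i (Finset.mem_univ _)
    rcases mul_eq_zero.1 h6 with h7 | h7
    · exact (hμ s hs).2.1 i hi' h7
    · have h8 : y i = x i := by simpa [sub_eq_zero] using h7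
      have h9 := hy.1 i hi
      rw [h8, hx.2 i hi'] at h9
      simp only [ε] at h9
      split_ifs at h9 <;> simp at h9
  have himg : ∀ s (h : s.card = Fintype.card l), M.mulVec '' F s =
      (fun z => M.mulVec (fun i => if i ∈ s then 0 else ε s i) + z) ''
        ((minor M s h).mulVec '' Set.pi univ (fun _ => Ioo (0:ℝ) 1)) := by
    intro s h
    have hsplit : ∀ x : ι → ℝ, (∀ i, i ∉ s → x i = ε s i) → M.mulVec x =
        M.mulVec (fun i => if i ∈ s then 0 else ε s i) +
          (minor M s h).mulVec (fun a => x (enum s h a)) := by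
      intro x hx
      funext b
      simp only [Matrix.mulVec, dotProduct, Pi.add_apply, minor, Matrix.submatrix_apply, id]
      have e1 : ∑ a, M b (enum s h a : ι) * x (enum s h a) = ∑ i ∈ s, M b i * x i := by
        rw [← Finset.sum_coe_sort s]
        exact (enum s h).sum_comp (fun i : {i // i ∈ s} => M b i * x i)
      rw [e1, ← Finset.sum_add_sum_compl s, add_comm]
      congr 1
      rw [← Finset.sum_add_sum_compl s (fun i => M b i * if i ∈ s then 0 else ε s i)]
      rw [Finset.sum_eq_zero (s := s) (fun i hi => by simp [hi]), zero_add]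
      refine Finset.sum_congr rfl (fun i hi => ?_)
      have hi' : i ∉ s := by simpa using hi
      simp [hi', hx i hi']
    ext y
    constructor
    · rintro ⟨x, hx, rfl⟩
      refine ⟨_, ⟨fun a => x (enum s h a), fun a _ => hx.1 _ (enum s h a).2, rfl⟩, ?_⟩
      exact (hsplit x hx.2).symm
    · rintro ⟨_, ⟨z, hz, rfl⟩, rfl⟩
      refine ⟨fun i => if hi : i ∈ s then z ((enum s h).symm ⟨i, hi⟩) else ε s i, ⟨?_, ?_⟩, ?_⟩
      · intro j hj; simp only [dif_pos hj]; exact hz _ (mem_univ _)
      · intro i hi; simp only [dif_neg hi]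
      · rw [hsplit _ (fun i hi => by simp only [dif_neg hi])]
        congr 2
        funext a
        simp only [dif_pos (enum s h a).2]
        simp
  have hcard : ∀ s, D M s ≠ 0 → s.card = Fintype.card l := by
    intro s hs; by_contra h; exact hs (by simp [D, h])
  have hvol : ∀ s, D M s ≠ 0 → volume (M.mulVec '' F s) = ENNReal.ofReal (D M s) := by
    intro s hs
    have h := hcard s hs
    rw [himg s h, image_add_left, measure_preimage_add, vol_mulVec_image, volume_pi_pi]
    simp [D, h]
  have hmeas : ∀ s, D M s ≠ 0 → MeasurableSet (M.mulVec '' F s) := by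
    intro s hs
    have h := hcard s hs
    have hdet : (minor M s h).det ≠ 0 := by
      intro e; exact hs (by simp [D, h, e])
    rw [himg s h]
    apply IsOpen.measurableSet
    apply isOpenMap_add_left
    have hsurj : Function.Surjective (Matrix.toLin' (minor M s h)) := by
      intro y
      refine ⟨(minor M s h)⁻¹.mulVec y, ?_⟩
      rw [Matrix.toLin'_apply, Matrix.mulVec_mulVec,
        Matrix.mul_nonsing_inv _ (isUnit_iff_ne_zero.2 hdet), Matrix.one_mulVec]
    have ho := (Matrix.toLin' (minor M s h)).isOpenMap_of_finiteDimensional hsurj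
      (Set.pi univ (fun _ => Ioo (0:ℝ) 1)) (isOpen_set_pi finite_univ (fun _ _ => isOpen_Ioo))
    have e : (Matrix.toLin' (minor M s h) : (l → ℝ) → (l → ℝ)) = (minor M s h).mulVec := by
      funext x; simp
    rwa [e] at ho
  have hsum : ∑ s, D M s = ∑ s ∈ G, D M s := by
    simp only [G]; rw [Finset.sum_filter_ne_zero]
  rw [hsum, ENNReal.ofReal_sum_of_nonneg (fun s _ => D_nonneg M s)]
  calc ∑ s ∈ G, ENNReal.ofReal (D M s) = ∑ s ∈ G, volume (M.mulVec '' F s) :=
        Finset.sum_congr rfl (fun s hs => (hvol s (Finset.mem_filter.1 hs).2).symm)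
    _ = volume (⋃ s ∈ G, M.mulVec '' F s) := by
        rw [measure_biUnion_finset]
        · intro s hs s' hs' hne
          rw [Function.onFun, Set.disjoint_left]
          rintro _ ⟨x, hx, rfl⟩ ⟨y, hy, hxy⟩
          have a1 := (Finset.mem_filter.1 hs).2
          have a2 := (Finset.mem_filter.1 hs').2
          exact hne (Finset.Subset.antisymm (hsub s' s a2 a1 y hy x hx hxy)
            (hsub s s' a1 a2 x hx y hy hxy.symm))
        · intro s hs; exact hmeas s (Finset.mem_filter.1 hs).2
    _ ≤ _ := measure_mono (by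
        intro y hy
        simp only [mem_iUnion] at hy
        obtain ⟨s, _, x, hx, rfl⟩ := hy
        exact ⟨x, hF s hx, rfl⟩)

lemma hadamard {k : Type} [Fintype k] [DecidableEq k] (A : Matrix k k ℝ)
    (h : ∀ j, ∑ i, A i j ^ 2 ≤ 1) : |A.det| ≤ 1 := by
  classical
  let e := Fintype.equivFin k
  let v : Fin (Fintype.card k) → EuclideanSpace ℝ k := fun j => WithLp.toLp 2 (fun i => A i (e.symm j))
  have hfin : Module.finrank ℝ (EuclideanSpace ℝ k) = Fintype.card k := by simp
  have : Fact (Module.finrank ℝ (EuclideanSpace ℝ k) = Fintype.card k) := ⟨hfin⟩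
  let b : OrthonormalBasis (Fin (Fintype.card k)) ℝ (EuclideanSpace ℝ k) :=
    (EuclideanSpace.basisFun k ℝ).reindex e
  let o : Orientation ℝ (EuclideanSpace ℝ k) (Fin (Fintype.card k)) := b.toBasis.orientation
  have h1 := o.abs_volumeForm_apply_le v
  rw [o.volumeForm_robust' b] at h1
  have h2 : b.toBasis.det v = (A.submatrix e.symm e.symm).det := by
    rw [Module.Basis.det_apply]
    congr 1
  rw [h2, Matrix.det_submatrix_equiv_self] at h1
  refine h1.trans (Finset.prod_le_one (fun _ _ => norm_nonneg _) (fun j _ => ?_))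
  rw [EuclideanSpace.norm_eq]
  rw [Real.sqrt_le_one]
  simpa [v] using h (e.symm j)

theorem laplace_bound {k : Type} [Fintype k] [DecidableEq k] (A : Matrix (l ⊕ k) ι ℝ)
    (ε : l ⊕ k ≃ ι) (h : ∀ j, ∑ i : k, A (Sum.inr i) j ^ 2 ≤ 1) :
    |(A.submatrix id ε).det| ≤ ∑ s, D (A.submatrix Sum.inl id) s := by
  classical
  let top : l ⊕ k → l ⊕ k → ℝ := fun p r => if r.isLeft then A r (ε p) else 0
  let bot : l ⊕ k → l ⊕ k → ℝ := fun p r => if r.isLeft then 0 else A r (ε p)
  have e1 : (A.submatrix id ε).det = Matrix.detRowAlternating (top + bot) := by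
    rw [← Matrix.det_transpose]
    show Matrix.detRowAlternating _ = _
    congr 1
    funext p r
    simp only [top, bot, Pi.add_apply]
    cases r <;> simp
  rw [e1, AlternatingMap.map_add_univ]
  refine (Finset.abs_sum_le_sum_abs _ _).trans ?_
  rw [← (Equiv.finsetCongr ε).sum_comp]
  refine Finset.sum_le_sum (fun t _ => ?_)
  set s : Finset ι := Equiv.finsetCongr ε t with hs
  have hmem : ∀ p, ε p ∈ s ↔ p ∈ t := by
    intro p; simp [hs]
  have hcardι : Fintype.card ι = Fintype.card l + Fintype.card k := by
    rw [← Fintype.card_congr ε]; simp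
  by_cases hc : s.card = Fintype.card l
  · have hc' : Fintype.card k = Fintype.card {i // i ∉ s} := by
      rw [Fintype.card_subtype_compl]; simp [hc, hcardι]
    let e' : k ≃ {i // i ∉ s} := Fintype.equivOfCardEq hc'
    let η : l ⊕ k ≃ l ⊕ k :=
      ((Equiv.sumCongr (enum s hc) e').trans (Equiv.sumCompl (fun i => i ∈ s))).trans ε.symm
    have hN : (Matrix.of (t.piecewise top bot)).submatrix η (Equiv.refl _) =
        Matrix.fromBlocks (minor (A.submatrix Sum.inl id) s hc)ᵀ 0 0
          (Matrix.of (fun (b : k) (r : k) => A (Sum.inr r) (e' b : ι))) := by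
      ext p r
      rcases p with a | b
      · have hm : η (Sum.inl a) ∈ t := by
          rw [← hmem]; simp [η]
        have he : ε (η (Sum.inl a)) = (enum s hc a : ι) := by simp [η]
        rcases r with r | r
        · simp [Finset.piecewise, hm, top, he, minor]
        · simp [Finset.piecewise, hm, top]
      · have hm : η (Sum.inr b) ∉ t := by
          rw [← hmem]; simpa [η] using (e' b).2
        have he : ε (η (Sum.inr b)) = (e' b : ι) := by simp [η]
        rcases r with r | r
        · simp [Finset.piecewise, hm, bot]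
        · simp [Finset.piecewise, hm, bot, he]
    have h1 : |Matrix.detRowAlternating (t.piecewise top bot)| =
        |((Matrix.of (t.piecewise top bot)).submatrix η (Equiv.refl _)).det| := by
      rw [Matrix.abs_det_submatrix_equiv_equiv]; rfl
    rw [h1, hN, Matrix.det_fromBlocks_zero₂₁, abs_mul, Matrix.det_transpose]
    simp only [D, dif_pos hc]
    refine mul_le_of_le_one_right (abs_nonneg _) ?_
    rw [← Matrix.det_transpose]
    exact hadamard _ (fun j => by simpa using h _)
  · have : Matrix.detRowAlternating (t.piecewise top bot) = 0 := by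
      show (Matrix.of (t.piecewise top bot)).det = 0
      rw [← Matrix.det_transpose, Matrix.det_apply]
      refine Finset.sum_eq_zero (fun σ _ => ?_)
      by_contra hne
      have hp : ∀ p, (t.piecewise top bot) p (σ p) ≠ 0 := by
        intro p hp
        apply hne
        rw [Finset.prod_eq_zero (Finset.mem_univ p) (by simpa using hp), smul_zero]
      have ht : ∀ p, p ∈ t ↔ (σ p).isLeft := by
        intro p
        have := hp p
        by_cases hpt : p ∈ t
        · simp only [Finset.piecewise, hpt, if_true, top] at this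
          simp only [hpt, true_iff]
          by_contra hh; exact this (by simp [hh])
        · simp only [Finset.piecewise, hpt, if_false, bot] at this
          simp only [hpt, false_iff]
          intro hh; exact this (by simp [hh])
      apply hc
      have : s.card = t.card := by simp [hs]
      rw [this, ← Finset.card_univ (α := l),
        ← Finset.card_map (s := Finset.univ) (Function.Embedding.inl : l ↪ l ⊕ k),
        ← Finset.card_map (s := t) σ.toEmbedding]
      congr 1
      ext r
      simp only [Finset.mem_map, Equiv.coe_toEmbedding, Finset.mem_univ, true_and,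
        Function.Embedding.inl_apply]
      constructor
      · rintro ⟨p, hp, rfl⟩
        have := (ht p).1 hp
        rcases hh : σ p with a | b
        · exact ⟨a, rfl⟩
        · simp [hh] at this
      · rintro ⟨a, rfl⟩
        exact ⟨σ.symm (Sum.inl a), (ht _).2 (by simp), by simp⟩
    rw [this, abs_zero]; exact D_nonneg _ _

/-- Projection of a parallelotope with short edges. -/
theorem proj_lower {k : Type} [Fintype k] [DecidableEq k] (O : Matrix (l ⊕ k) ι ℝ)
    (ε : l ⊕ k ≃ ι) (hO : O * Oᵀ = 1) (T : Matrix ι ι ℝ) (hT : ∀ j, ∑ i, T i j ^ 2 ≤ 1) :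
    ENNReal.ofReal |T.det| ≤ volume ((O.submatrix Sum.inl id * T).mulVec '' cube ι) := by
  classical
  have hO' : (O.submatrix id ε) * (O.submatrix id ε)ᵀ = 1 := by
    rw [← hO, Matrix.transpose_submatrix, Matrix.submatrix_mul_equiv]; rfl
  have hO'' : (O.submatrix id ε)ᵀ * (O.submatrix id ε) = 1 := mul_eq_one_comm.1 hO'
  have hdet : |(O.submatrix id ε).det| = 1 := by
    have := congrArg Matrix.det hO'
    rw [Matrix.det_mul, Matrix.det_transpose, Matrix.det_one] at this
    rcases mul_self_eq_one_iff.1 this with h | h <;> simp [h]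
  have hOO : Oᵀ * O = 1 := by
    ext i j
    have := congrFun (congrFun hO'' (ε.symm i)) (ε.symm j)
    simp only [Matrix.mul_apply, Matrix.transpose_apply, Matrix.submatrix_apply, id,
      Equiv.apply_symm_apply, Matrix.one_apply, EmbeddingLike.apply_eq_iff_eq] at this
    simpa [Matrix.mul_apply, Matrix.one_apply] using this
  have h1 : |((O * T).submatrix id ε).det| = |T.det| := by
    have : (O * T).submatrix id ε = O.submatrix id ε * T.submatrix ε ε := by
      rw [Matrix.submatrix_mul_equiv]
    rw [this, Matrix.det_mul, abs_mul, hdet, one_mul, Matrix.det_submatrix_equiv_self]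
  have h2 := laplace_bound (O * T) ε (fun j => by
    have e1 : ∑ r, (O * T) r j ^ 2 = ∑ i, T i j ^ 2 := by
      have : ((O * T)ᵀ * (O * T)) j j = (Tᵀ * T) j j := by
        rw [Matrix.transpose_mul, Matrix.mul_assoc, ← Matrix.mul_assoc Oᵀ, hOO, Matrix.one_mul]
      rw [Matrix.mul_apply, Matrix.mul_apply] at this
      simpa only [Matrix.transpose_apply, sq] using this
    refine le_trans ?_ (e1.le.trans (hT j))
    rw [Fintype.sum_sum_type]
    exact le_add_of_nonneg_left (Finset.sum_nonneg (fun _ _ => sq_nonneg _)))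
  rw [h1] at h2
  have e : (O * T).submatrix Sum.inl id = O.submatrix Sum.inl id * T := by
    ext a j; simp [Matrix.mul_apply]
  rw [e] at h2
  exact (ENNReal.ofReal_le_ofReal h2).trans (zonotope_lower _)

end

end Pool.Agent.Lib.MP_fedf83_gt
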