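import Pool.Agent.Lib.MP_fedf83_gt.PKer

/-! Concentration for log-concave measures through one Gaussian tilt, and thin shells. -/

namespace Pool.Agent.Lib.MP_fedf83_gt.P

open MeasureTheory Set Pool.Agent.Lib.MP_fedf83_gt.B
open scoped ENNReal RealInnerProductSpace

set_option linter.unusedSectionVars false

variable {n : ℕ} {μ : Measure (E n)} [IsProbabilityMeasure μ]

theorem exp_one_le (z : ℝ) : |Real.exp z - 1| ≤ |z| * Real.exp |z| := by
  have h1 := Real.add_one_le_exp z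
  have h2 := Real.add_one_le_exp (-z)
  have h3 : Real.exp z * Real.exp (-z) = 1 := by rw [← Real.exp_add]; simp
  have h4 := Real.exp_pos z
  rcases le_total 0 z with h | h
  · rw [abs_of_nonneg h, abs_of_nonneg (by linarith)]
    nlinarith
  · have h5 : Real.exp z ≤ 1 := Real.exp_le_one_iff.2 h
    rw [abs_of_nonpos h, abs_of_nonpos (by linarith)]
    nlinarith

theorem exp_two_le (z : ℝ) : |Real.exp z - 1 - z| ≤ z ^ 2 * Real.exp |z| := by
  have h1 := Real.add_one_le_exp z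
  have h2 := Real.add_one_le_exp (-z)
  have h3 : Real.exp z * Real.exp (-z) = 1 := by rw [← Real.exp_add]; simp
  have h4 := Real.exp_pos z
  have h5 : z * (Real.exp z - 1) ≤ |z| * (|z| * Real.exp |z|) := by
    refine (le_abs_self _).trans ?_
    rw [abs_mul]
    exact mul_le_mul_of_nonneg_left (exp_one_le z) (abs_nonneg z)
  rw [← mul_assoc, abs_mul_abs_self, ← sq] at h5
  rw [abs_of_nonneg (by linarith)]
  nlinarith

theorem ee_mid (a b g : E n) :
    ee a g * ee b g = ee ((1 / 2 : ℝ) • (a + b)) g ^ 2 * Real.exp (-(‖a - b‖ ^ 2 / 4)) := by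
  simp only [ee, sq (Real.exp _), ← Real.exp_add, inner_smul_right, inner_add_right, norm_smul,
    mul_pow, norm_add_sq_real, norm_sub_sq_real, Real.norm_eq_abs, sq_abs]
  congr 1
  ring

theorem ker_ind {R : ℝ} (hR : Bd μ R) {S : Set (E n)} (hS : MeasurableSet S) :
    Ker μ (S.indicator 1) 1 R :=
  ⟨measurable_one.indicator hS, ae_of_all _ fun x => by by_cases h : x ∈ S <;> simp [h], hR⟩

theorem ker_one {R : ℝ} (hR : Bd μ R) : Ker μ (fun _ => 1) 1 R :=
  ⟨measurable_const, ae_of_all _ fun x => by simp, hR⟩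

theorem exp_five : (81 : ℝ) < Real.exp 5 := by
  have h := Real.exp_one_gt_d9
  have : Real.exp 5 = Real.exp 1 ^ 5 := by rw [← Real.exp_nat_mul]; norm_num
  rw [this]
  refine lt_of_lt_of_le (by norm_num) (pow_le_pow_left₀ (by norm_num : (0 : ℝ) ≤ 2.7) ?_ 5)
  linarith

theorem conc (hl : LC μ) {r l ρ : ℝ} (hR : Bd μ r) (r0 : 0 < r) (l0 : 0 < l)
    (h2 : ∀ a, ∫ x, ⟪x, a⟫ ^ 2 ∂μ ≤ l ^ 2 * ‖a‖ ^ 2) (ρ0 : 0 ≤ ρ) (hρ : 10 ^ 6 * (l * r) ≤ ρ ^ 2)
    {S T : Set (E n)} (hS : MeasurableSet S) (hT : MeasurableSet T) (h0 : 1 / 4 ≤ μ.real S)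
    (h1 : 1 / 4 ≤ μ.real T) : ∃ x ∈ S, ∃ y ∈ T, ‖x - y‖ < ρ := by
  by_contra hc
  push Not at hc
  set v := l * r with hv
  have v0 : 0 < v := by positivity
  set s := √(1 / (50000 * v)) with hs
  have s2 : s ^ 2 = 1 / (50000 * v) := Real.sq_sqrt (by positivity)
  have hδ : ∀ᵐ x ∂μ, ∫ y, |Real.exp (s ^ 2 * ⟪y, x⟫) - 1| ∂μ ≤ 1 / 192 := by
    filter_upwards [hR] with x hx
    have hb := borell hl hR x v0 ((h2 x).trans (by
      rw [hv, mul_pow]
      exact mul_le_mul_of_nonneg_left (pow_le_pow_left₀ (norm_nonneg x) hx 2) (sq_nonneg l)))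
    have := integral_mono (hR.int (f := fun y => |Real.exp (s ^ 2 * ⟪y, x⟫) - 1|) (by fun_prop))
      ((hR.int (f := fun y => Real.exp (|⟪y, x⟫| / (8 * v))) (by fun_prop)).const_mul
        (16 / 50000)) fun y => by
      refine (exp_one_le _).trans ?_
      set w := |⟪y, x⟫| / (16 * v) with hw
      have w0 : 0 ≤ w := by positivity
      have e1 : |s ^ 2 * ⟪y, x⟫| = 16 / 50000 * w := by
        rw [abs_mul, s2, abs_of_pos (by positivity), hw]
        field_simp
      have e2 : |⟪y, x⟫| / (8 * v) = w + w := by rw [hw]; field_simp; ring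
      rw [e1, e2, Real.exp_add, mul_assoc]
      refine mul_le_mul_of_nonneg_left (mul_le_mul ?_ (Real.exp_le_exp.2 (by linarith))
        (Real.exp_pos _).le (Real.exp_pos _).le) (by norm_num)
      linarith [Real.add_one_le_exp w]
    rw [integral_const_mul] at this
    linarith
  have k0 := ker_ind hR hS
  have k1 := ker_ind hR hT
  have k2 := ker_one hR
  have v0' := k0.var_one s hδ
  have v1' := k1.var_one s hδ
  have v2' := k2.var_one s hδ
  have isq : ∀ {h : E n → ℝ}, Ker μ h 1 r → ∀ b : ℝ,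
      Integrable (fun g => (AA μ h s g - b) ^ 2) (gam n) := fun {h} k b => by
    have e1 : ∀ g, (AA μ h s g - b) ^ 2 =
        AA μ h s g * AA μ h s g - 2 * b * AA μ h s g + b ^ 2 := fun g => by ring
    simp only [e1]
    exact iadd (isub ((k.gr s).mul (k.gr s)).int ((k.gr s).int.const_mul _)) (integrable_const _)
  rw [integral_indicator_one hS] at v0'
  rw [integral_indicator_one hT] at v1'
  simp only [integral_const, probReal_univ, smul_eq_mul, mul_one] at v2'
  obtain ⟨g, hg⟩ := exists_le_integral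
    (iadd (iadd (isq k0 (μ.real S)) (isq k1 (μ.real T))) (isq k2 1))
  rw [integral_add (iadd (isq k0 _) (isq k1 _)) (isq k2 _), integral_add (isq k0 _) (isq k1 _)]
    at hg
  have q0 := sq_nonneg (AA μ (S.indicator 1) s g - μ.real S)
  have q1 := sq_nonneg (AA μ (T.indicator 1) s g - μ.real T)
  have q2 := sq_nonneg (AA μ (fun _ => 1) s g - 1)
  have a0 : 1 / 8 ≤ AA μ (S.indicator 1) s g := by nlinarith
  have a1 : 1 / 8 ≤ AA μ (T.indicator 1) s g := by nlinarith
  have a2 : AA μ (fun _ => 1) s g ≤ 9 / 8 := by nlinarith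
  have ce : Continuous fun x : E n => ee (s • x) g := by fun_prop
  have i0 : ∀ (U : Set (E n)) x, 0 ≤ U.indicator (1 : E n → ℝ) x := fun U x =>
    indicator_nonneg (fun _ _ => zero_le_one) x
  have key := hl (fun x => S.indicator 1 x * ee (s • x) g) (fun x => T.indicator 1 x * ee (s • x) g)
    (fun x => Real.exp (-(5 / 2)) * ee (s • x) g) (k0.mh.mul ce.measurable)
    (k1.mh.mul ce.measurable) (ce.measurable.const_mul _)
    (fun x => mul_nonneg (i0 _ x) (ee_pos _ _).le) (fun x => mul_nonneg (i0 _ x) (ee_pos _ _).le)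
    (fun x => (mul_pos (Real.exp_pos _) (ee_pos _ _)).le) (k0.int' ce) (k1.int' ce)
    ((hR.int ce).const_mul _) (fun x y => by
      by_cases hx : x ∈ S
      · by_cases hy : y ∈ T
        · simp only [indicator_of_mem hx, indicator_of_mem hy, Pi.one_apply, one_mul]
          rw [ee_mid, ← smul_add, ← smul_sub, smul_comm, mul_pow, mul_comm, sq (Real.exp _),
            ← Real.exp_add]
          refine mul_le_mul_of_nonneg_right (Real.exp_le_exp.2 ?_) (sq_nonneg _)
          rw [norm_smul, mul_pow, Real.norm_eq_abs, sq_abs, s2]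
          have h3 : 10 ^ 6 * v ≤ ‖x - y‖ ^ 2 := hρ.trans (pow_le_pow_left₀ ρ0 (hc x hx y hy) 2)
          have h4 : 20 ≤ 1 / (50000 * v) * ‖x - y‖ ^ 2 := by
            rw [one_div, inv_mul_eq_div, le_div_iff₀ (by positivity)]
            linarith
          linarith
        · simp only [indicator_of_notMem hy, zero_mul, mul_zero]; positivity
      · simp only [indicator_of_notMem hx, zero_mul]; positivity)
  rw [integral_const_mul, mul_pow, sq (Real.exp _), ← Real.exp_add] at key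
  have e3 : ∫ x, ee (s • x) g ∂μ = AA μ (fun _ => 1) s g := by simp [AA]
  have a3 : 0 ≤ AA μ (fun _ => 1) s g := e3 ▸ integral_nonneg fun x => (ee_pos _ _).le
  rw [e3] at key
  change AA μ (S.indicator 1) s g * AA μ (T.indicator 1) s g ≤ _ at key
  have e4 : Real.exp (-(5 / 2) + -(5 / 2)) * Real.exp 5 = 1 := by
    rw [← Real.exp_add]; norm_num
  have e5 := Real.exp_pos (-(5 / 2) + -(5 / 2) : ℝ)
  have a4 : AA μ (fun _ => 1) s g ^ 2 ≤ 81 / 64 := by nlinarith
  have a5 : 1 / 64 ≤ AA μ (S.indicator 1) s g * AA μ (T.indicator 1) s g := by nlinarith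
  nlinarith [exp_five, mul_le_mul_of_nonneg_left a4 e5.le]

theorem shell (hl : LC μ) {r l ρ : ℝ} (hR : Bd μ r) (r0 : 0 < r) (l0 : 0 < l)
    (h2 : ∀ a, ∫ x, ⟪x, a⟫ ^ 2 ∂μ ≤ l ^ 2 * ‖a‖ ^ 2) (ρ0 : 0 < ρ)
    (hρ : 10 ^ 6 * (l * r) ≤ ρ ^ 2) :
    ∃ a : ℝ, 0 ≤ a ∧ a ≤ r ∧ 1 / 2 ≤ μ.real {x | a ≤ ‖x‖ ∧ ‖x‖ ≤ a + 2 * ρ} := by
  classical
  have mlt : ∀ t : ℝ, MeasurableSet {x : E n | ‖x‖ < t} := fun t =>
    (isOpen_lt continuous_norm continuous_const).measurableSet
  have full : ∀ t : ℝ, r < t → μ.real {x : E n | ‖x‖ < t} = 1 := fun t ht => by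
    rw [Measure.real, (prob_compl_eq_zero_iff (mlt t)).1, ENNReal.toReal_one]
    refine measure_mono_null (fun x hx => ?_) (ae_iff.1 hR)
    simp only [mem_compl_iff, mem_ofPred_eq, not_lt, not_le] at hx ⊢
    linarith
  have hex : ∃ j : ℕ, 1 / 4 ≤ μ.real {x : E n | ‖x‖ < (j + 1) * ρ} := by
    obtain ⟨j, hj⟩ := exists_nat_gt (r / ρ)
    rw [div_lt_iff₀ ρ0] at hj
    exact ⟨j, by rw [full _ (by nlinarith)]; norm_num⟩
  set j := Nat.find hex with hj
  have j1 : 1 / 4 ≤ μ.real {x : E n | ‖x‖ < (j + 1) * ρ} := Nat.find_spec hex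
  have j2 : μ.real {x : E n | ‖x‖ < j * ρ} < 1 / 4 := by
    rcases Nat.eq_zero_or_pos j with h | h
    · have : {x : E n | ‖x‖ < j * ρ} = ∅ := by
        ext x
        simp [h]
      rw [this]
      simp
    · have := Nat.find_min hex (m := j - 1) (by omega)
      rw [Nat.cast_sub h] at this
      simpa using this
  have j3 : μ.real {x : E n | ‖x‖ < (j + 2) * ρ}ᶜ < 1 / 4 := by
    by_contra hc
    obtain ⟨x, hx, y, hy, h⟩ := conc hl hR r0 l0 h2 ρ0.le hρ (mlt _) (mlt _).compl j1 (not_lt.1 hc)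
    simp only [mem_compl_iff, mem_ofPred_eq, not_lt] at hx hy
    have := norm_sub_norm_le y x
    rw [norm_sub_rev] at this
    nlinarith
  refine ⟨j * ρ, by positivity, ?_, ?_⟩
  · by_contra hc
    rw [full _ (not_le.1 hc)] at j2
    linarith
  · have : (univ : Set (E n)) ⊆ {x | j * ρ ≤ ‖x‖ ∧ ‖x‖ ≤ j * ρ + 2 * ρ} ∪
        ({x : E n | ‖x‖ < j * ρ} ∪ {x : E n | ‖x‖ < (j + 2) * ρ}ᶜ) := by
      intro x _
      simp only [mem_union, mem_ofPred_eq, mem_compl_iff, not_lt]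
      by_cases a : ‖x‖ < j * ρ
      · exact Or.inr (Or.inl a)
      · by_cases b : (j + 2) * ρ ≤ ‖x‖
        · exact Or.inr (Or.inr b)
        · exact Or.inl ⟨not_lt.1 a, by nlinarith⟩
    have h3 := (measureReal_mono this (measure_ne_top μ _)).trans (measureReal_union_le _ _)
    have h4 := measureReal_union_le (μ := μ) {x : E n | ‖x‖ < j * ρ} {x : E n | ‖x‖ < (j + 2) * ρ}ᶜ
    rw [probReal_univ] at h3
    linarith

theorem shell_chord {a b : ℝ} (a0 : 0 ≤ a) (hab : a ≤ b) (v : E n) (hv : ‖v‖ = 1) (x : E n) :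
    volume {t : ℝ | a ≤ ‖x + t • v‖ ∧ ‖x + t • v‖ ≤ b} ≤ ENNReal.ofReal (2 * √(b ^ 2 - a ^ 2)) := by
  set β := ⟪x, v⟫ with hβ
  set w := √(b ^ 2 - a ^ 2) with hw
  have w0 : 0 ≤ w := Real.sqrt_nonneg _
  have w2 : w ^ 2 = b ^ 2 - a ^ 2 := Real.sq_sqrt (by nlinarith)
  set m := √(a ^ 2 - (‖x‖ ^ 2 - β ^ 2)) with hm
  have m0 : 0 ≤ m := Real.sqrt_nonneg _
  have m2 : a ^ 2 - (‖x‖ ^ 2 - β ^ 2) ≤ m ^ 2 := by
    rw [hm, Real.sq_sqrt']
    exact le_max_left _ _
  have : {t : ℝ | a ≤ ‖x + t • v‖ ∧ ‖x + t • v‖ ≤ b} ⊆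
      Icc (m - β) (m + w - β) ∪ Icc (-(m + w) - β) (-m - β) := by
    rintro t ⟨h1, h2⟩
    have e : ‖x + t • v‖ ^ 2 = (t + β) ^ 2 + (‖x‖ ^ 2 - β ^ 2) := by
      rw [norm_add_sq_real, inner_smul_right, norm_smul, hv, mul_one, Real.norm_eq_abs, sq_abs]
      ring
    have h3 := pow_le_pow_left₀ a0 h1 2
    have h4 := pow_le_pow_left₀ (norm_nonneg _) h2 2
    have h5 : m ≤ |t + β| := Real.sqrt_le_iff.2 ⟨abs_nonneg _, by rw [sq_abs]; linarith⟩
    have h6 : |t + β| ≤ m + w := abs_le_of_sq_le_sq (by nlinarith [mul_nonneg m0 w0]) (by linarith)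
    rcases abs_cases (t + β) with h | h
    · left; rw [h.1] at h5 h6; constructor <;> linarith
    · right; rw [h.1] at h5 h6; constructor <;> linarith
  refine (measure_mono this).trans ((measure_union_le _ _).trans ?_)
  rw [Real.volume_Icc, Real.volume_Icc, ← ENNReal.ofReal_add (by linarith) (by linarith)]
  exact ENNReal.ofReal_le_ofReal (by linarith)

end Pool.Agent.Lib.MP_fedf83_gt.P
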