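import Pool.Agent.Lib.MP_fedf83_gt.PDar

/-! Decay of the covariogram in terms of the least shadow, and isotropic coordinates. -/

namespace Pool.Agent.Lib.MP_fedf83_gt.P

open MeasureTheory Set Module Pool.Agent.Lib.MP_fedf83_gt.B
open scoped ENNReal RealInnerProductSpace Pointwise

variable {n : ℕ} {K : Set (E n)}

theorem cov_decay (hn : 1 ≤ n) (hK : IsBody K) (d : E n) :
    volume {z | z ∈ K ∧ z - d ∈ K} ≤
      ex (-(‖d‖ * (sigma (n - 1) K).toReal / (2 * (volume K).toReal))) * volume K := by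
  have hm := hK.1.measurableSet
  have cv := hK.2.1
  rcases eq_or_ne d 0 with rfl | hd
  · simp [ex_zero]
  obtain ⟨x0, ε, hε, hb⟩ := exists_closedBall hK
  set A := ‖d‖ * (sigma (n - 1) K).toReal / (2 * (volume K).toReal) with hA
  have V0 := vol_toReal_pos hK
  have A0 : 0 ≤ A := by positivity
  have M0 := vol_ne_zero hK
  have M1 := hK.1.measure_ne_top (μ := volume)
  have n1 : (1 : ℝ) ≤ n := by exact_mod_cast hn
  have d0 : 0 < ‖d‖ := norm_pos_iff.2 hd
  set η : ℝ := 1 / (2 * n) with hη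
  have η0 : 0 < η := by positivity
  have η1 : η ≤ 1 / 2 := one_div_le_one_div_of_le (by norm_num) (by linarith)
  set r := min (1 / 2) (η * ε / ‖d‖) with hr
  have r0 : 0 < r := lt_min (by norm_num) (by positivity)
  have r1 : r < 1 := (min_le_left _ _).trans_lt (by norm_num)
  have r2 : r * ‖d‖ ≤ η * ε := (le_div_iff₀ d0).1 (min_le_right _ _)
  have mS : ∀ w : E n, MeasurableSet {z | z ∈ K ∧ z - w ∈ K} := fun w =>
    hm.inter ((measurable_sub_const w) hm)
  have h1 : d ∈ (ℝ ∙ d)ᗮᗮ := Submodule.le_orthogonal_orthogonal _ (Submodule.mem_span_singleton_self d)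
  have h2 : finrank ℝ (ℝ ∙ d)ᗮᗮ = 1 := by
    rw [Submodule.orthogonal_orthogonal, finrank_span_singleton hd]
  have h3 := sdiff_shift_ge (ℝ ∙ d)ᗮ hd h1 h2 hK.1 hK.2.1 (r := r)
    (K' := (fun k => (1 - η) • k + η • x0) '' K) (by
      rintro _ ⟨k, hk, rfl⟩
      refine ⟨hK.2.1 hk (hb (Metric.mem_closedBall_self hε.le)) (by linarith) η0.le (by ring), ?_⟩
      have : x0 + (r / η) • d ∈ K := hb (by
        rw [mem_closedBall_iff_norm, add_sub_cancel_left, norm_smul, Real.norm_eq_abs,
          abs_of_pos (by positivity), div_mul_eq_mul_div, div_le_iff₀ η0]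
        linarith)
      have := cv hk this (a := 1 - η) (b := η) (by linarith) η0.le (by ring)
      rwa [smul_add, smul_smul, mul_div_cancel₀ _ η0.ne', ← add_assoc] at this)
  rw [vol_proj_affine _ _ (by linarith), finrank_orth_span hd] at h3
  have h4 : (1 / 2 : ℝ) ≤ (1 - η) ^ (n - 1) := by
    have := one_add_mul_le_pow (a := -η) (by linarith) (n - 1)
    rw [Nat.cast_sub hn] at this
    have e : η * n = 1 / 2 := by rw [hη]; field_simp
    rw [sub_eq_add_neg 1 η]
    push_cast at this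
    nlinarith
  have h5 : sigma (n - 1) K ≤ volume ((ℝ ∙ d)ᗮ.orthogonalProjectionOnto '' K) :=
    iInf₂_le_of_le (ℝ ∙ d)ᗮ (finrank_orth_span hd) le_rfl
  set x := r * A with hx
  have x0' : 0 ≤ x := by positivity
  have h6 : ENNReal.ofReal x * volume K ≤ volume {z | z ∈ K ∧ z - r • d ∉ K} := by
    refine le_trans (le_of_eq ?_) (le_trans (mul_le_mul_right (mul_le_mul_right
      (mul_le_mul' (ENNReal.ofReal_le_ofReal h4) h5) _) _) h3)
    rw [← ENNReal.ofReal_toReal M1, ← ENNReal.ofReal_toReal (sigma_lt_top hn hK.1).ne,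
      ← ofReal_norm, ← ENNReal.ofReal_mul x0', ← ENNReal.ofReal_mul (by norm_num),
      ← ENNReal.ofReal_mul r0.le, ← ENNReal.ofReal_mul d0.le, hx, hA]
    congr 1
    field_simp
  have h7 : volume {z | z ∈ K ∧ z - r • d ∈ K} + volume {z | z ∈ K ∧ z - r • d ∉ K} = volume K :=
    measure_inter_add_sdiff K ((measurable_sub_const (r • d)) hm)
  have h8 : volume {z | z ∈ K ∧ z - r • d ∈ K} ≤ ex (-x) * volume K := by
    have : volume K ≤ ex (-x) * volume K + ENNReal.ofReal x * volume K := by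
      rw [← add_mul]
      refine le_mul_of_one_le_left' ?_
      rw [ex, ← ENNReal.ofReal_add (Real.exp_pos _).le x0', ENNReal.one_le_ofReal]
      linarith [Real.add_one_le_exp (-x)]
    exact ENNReal.le_of_add_le_add_right (ENNReal.mul_ne_top (by simp) M1)
      (((add_le_add le_rfl h6).trans h7.le).trans this)
  have h9 := pl_euclidean n r r0 r1 (K.indicator 1) ({z | z ∈ K ∧ z - d ∈ K}.indicator 1)
    ({z | z ∈ K ∧ z - r • d ∈ K}.indicator 1) (measurable_one.indicator hm)
    (measurable_one.indicator (mS _)) (measurable_one.indicator (mS _)) (fun a b => by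
      by_cases ha : a ∈ K
      · by_cases hb' : b ∈ {z | z ∈ K ∧ z - d ∈ K}
        · have : (1 - r) • a + r • b ∈ {z | z ∈ K ∧ z - r • d ∈ K} := by
            refine ⟨hK.2.1 ha hb'.1 (by linarith) r0.le (by ring), ?_⟩
            have := cv ha hb'.2 (a := 1 - r) (b := r) (by linarith) r0.le (by ring)
            rwa [smul_sub, ← add_sub_assoc] at this
          simp [indicator_of_mem ha, indicator_of_mem hb', indicator_of_mem this]
        · simp [indicator_of_notMem hb', r0]
      · simp [indicator_of_notMem ha, r1])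
  rw [lintegral_indicator_one hm, lintegral_indicator_one (mS _), lintegral_indicator_one (mS _)]
    at h9
  have h10 : ex (-x) * volume K = volume K ^ (1 - r) * (ex (-A) * volume K) ^ r := by
    rw [ENNReal.mul_rpow_of_nonneg _ _ r0.le, ex_rpow, mul_left_comm,
      ← ENNReal.rpow_add_of_nonneg _ _ (by linarith) r0.le]
    simp [hx]
  have h11 := h9.trans h8
  rwa [h10, ENNReal.mul_le_mul_iff_right (by simp [M0, M1])
    (ENNReal.rpow_ne_top_of_nonneg (by linarith) M1), ENNReal.rpow_le_rpow_iff r0] at h11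

/-- A homothetic copy of a large part of `K` inside `K ∩ (K + d)` bounds the length of `d`. -/
theorem norm_le_of_part (hn : 1 ≤ n) (hK : IsBody K) {S : Set (E n)} {a L M : ℝ} (a0 : 0 < a)
    (w d : E n) (hS : ∀ x ∈ S, a • x + w ∈ K ∧ a • x + w - d ∈ K)
    (hL : ex (-L) * volume K ≤ volume S) (hM : Real.exp (-M) ≤ a ^ n) :
    ‖d‖ * (sigma (n - 1) K).toReal ≤ 2 * (L + M) * (volume K).toReal := by
  have V0 := vol_toReal_pos hK
  have h1 : (fun z => z + w) '' (a • S) ⊆ {z | z ∈ K ∧ z - d ∈ K} := by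
    rintro _ ⟨_, ⟨x, hx, rfl⟩, rfl⟩
    exact hS x hx
  have h2 := (measure_mono h1).trans (cov_decay hn hK d)
  rw [image_add_right, measure_preimage_add_right, Measure.addHaar_smul_of_nonneg _ a0.le,
    finrank_euclideanSpace, Fintype.card_fin] at h2
  have h3 := (mul_le_mul' (ENNReal.ofReal_le_ofReal hM) hL).trans h2
  change ex (-M) * _ ≤ _ at h3
  rw [← mul_assoc, ← ex_add, ENNReal.mul_le_mul_iff_left (vol_ne_zero hK) hK.1.measure_ne_top,
    ex_le_ex, ← neg_add, neg_le_neg_iff, div_le_iff₀ (by positivity)] at h3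
  linarith

theorem diam_le (hn : 1 ≤ n) (hK : IsBody K) {p q : E n} (hp : p ∈ K) (hq : q ∈ K) :
    ‖p - q‖ * (sigma (n - 1) K).toReal ≤ 4 * n * (volume K).toReal := by
  have cv := hK.2.1
  have := norm_le_of_part hn hK (S := K) (a := 1 / 2) (L := 0) (M := n) (by norm_num)
    ((1 / 2 : ℝ) • p) ((1 / 2 : ℝ) • (p - q)) (fun x hx =>
      ⟨hK.2.1 hx hp (by norm_num) (by norm_num) (by norm_num), by
        have := cv hx hq (a := 1 / 2) (b := 1 / 2) (by norm_num) (by norm_num) (by norm_num)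
        convert this using 1
        module⟩) (by simp [ex_zero]) (by
      rw [show (-(n : ℝ)) = n * (-1) by ring, Real.exp_nat_mul]
      refine pow_le_pow_left₀ (Real.exp_pos _).le ?_ n
      rw [Real.exp_neg, inv_le_comm₀ (Real.exp_pos _) (by norm_num)]
      linarith [Real.add_one_le_exp (1 : ℝ)])
  rw [norm_smul, Real.norm_eq_abs, abs_of_pos (by norm_num)] at this
  linarith

theorem exists_iso {μ : Measure (E n)} [IsProbabilityMeasure μ] {R : ℝ} (hR : Bd μ R)
    (hpos : ∀ v : E n, v ≠ 0 → 0 < ∫ x, ⟪x, v⟫ ^ 2 ∂μ) :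
    ∃ M : E n ≃L[ℝ] E n, ∀ a, ∫ x, ⟪x, M a⟫ ^ 2 ∂μ = ‖a‖ ^ 2 := by
  have ii : ∀ v w : E n, Integrable (fun x : E n => ⟪x, v⟫ * ⟪x, w⟫) μ := fun v w =>
    hR.int (by fun_prop)
  let Bf : LinearMap.BilinForm ℝ (E n) := LinearMap.mk₂ ℝ (fun v w => ∫ x, ⟪x, v⟫ * ⟪x, w⟫ ∂μ)
    (fun v v' w => by simp only [inner_add_right, add_mul]; exact integral_add (ii _ _) (ii _ _))
    (fun c v w => by simp only [inner_smul_right, mul_assoc, integral_const_mul, smul_eq_mul])
    (fun v w w' => by simp only [inner_add_right, mul_add]; exact integral_add (ii _ _) (ii _ _))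
    (fun c v w => by
      simp only [inner_smul_right, mul_left_comm _ c, integral_const_mul, smul_eq_mul])
  have hB : ∀ v w, Bf v w = ∫ x, ⟪x, v⟫ * ⟪x, w⟫ ∂μ := fun v w => rfl
  have sy : LinearMap.IsSymm Bf := ⟨fun v w => by simp only [hB, mul_comm, RingHom.id_apply]⟩
  obtain ⟨b, hb⟩ := LinearMap.BilinForm.exists_orthogonal_basis sy
  have e : finrank ℝ (E n) = n := by simp
  let b' := b.reindex (finCongr e)
  have p : ∀ i, 0 < Bf (b' i) (b' i) := fun i => by
    simpa only [hB, sq] using hpos _ (b'.ne_zero i)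
  let c := b'.unitsSMul fun i => Units.mk0 (√(Bf (b' i) (b' i)))⁻¹
    (inv_ne_zero (Real.sqrt_pos.2 (p i)).ne')
  have hc : ∀ i j, Bf (c i) (c j) = if i = j then 1 else 0 := fun i j => by
    simp only [c, Basis.unitsSMul_apply, Units.smul_def, Units.val_mk0, map_smul,
      LinearMap.smul_apply, smul_eq_mul]
    split_ifs with hij
    · subst hij
      have := Real.mul_self_sqrt (p i).le
      have := (Real.sqrt_pos.2 (p i)).ne'
      field_simp
      nlinarith
    · have : Bf (b' i) (b' j) = 0 := by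
        simp only [b', Basis.reindex_apply]
        exact hb (fun h => hij ((finCongr e).symm.injective h))
      simp [this]
  refine ⟨((WithLp.linearEquiv 2 ℝ (Fin n → ℝ)).trans c.equivFun.symm).toContinuousLinearEquiv,
    fun a => ?_⟩
  simp only [sq ⟪_, _⟫, ← hB, EuclideanSpace.real_norm_sq_eq]
  simp [map_sum, hc, sq]

end Pool.Agent.Lib.MP_fedf83_gt.P
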