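import Pool.Agent.Lib.MP_fedf83_gt.PM

/-! A weak form of Dar's inequality: two large parts overlap after a translation. -/

namespace Pool.Agent.Lib.MP_fedf83_gt.P

open MeasureTheory Set Pool.Agent.Lib.MP_fedf83_gt.B
open scoped ENNReal RealInnerProductSpace

set_option linter.unusedSectionVars false

variable {n : ℕ} {μ : Measure (E n)} [IsProbabilityMeasure μ] {K : Set (E n)} {R : ℝ}

theorem ph_mid (p q : E n) :
    ph p * ph q = ph ((1 / 2 : ℝ) • (p + q)) ^ 2 * Real.exp (-(‖p - q‖ ^ 2 / 4)) := by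
  simp only [ph, sq (Real.exp _), ← Real.exp_add, norm_smul,
    mul_pow, norm_add_sq_real, norm_sub_sq_real, Real.norm_eq_abs, sq_abs]
  congr 1
  ring

theorem lc_gam {F G H : E n → ℝ} (hF : Gr F) (hG : Gr G) (hH : Gr H) (F0 : ∀ g, 0 ≤ F g)
    (G0 : ∀ g, 0 ≤ G g) (H0 : ∀ g, 0 ≤ H g)
    (h : ∀ a b, ph a * F a * (ph b * G b) ≤
      (ph ((1 / 2 : ℝ) • (a + b)) * H ((1 / 2 : ℝ) • (a + b))) ^ 2) :
    (∫ g, F g ∂gam n) * ∫ g, G g ∂gam n ≤ (∫ g, H g ∂gam n) ^ 2 := by
  have := lc_volume (fun g => ph g * F g) (fun g => ph g * G g) (fun g => ph g * H g)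
    (continuous_ph.measurable.mul hF.1) (continuous_ph.measurable.mul hG.1)
    (continuous_ph.measurable.mul hH.1) (fun g => mul_nonneg (ph_pos g).le (F0 g))
    (fun g => mul_nonneg (ph_pos g).le (G0 g)) (fun g => mul_nonneg (ph_pos g).le (H0 g))
    ((gam_integrable_iff _).1 hF.int) ((gam_integrable_iff _).1 hG.int)
    ((gam_integrable_iff _).1 hH.int) h
  rw [gam_integral, gam_integral, gam_integral, div_mul_div_comm, div_pow, ← sq]
  exact div_le_div_of_nonneg_right this (sq_nonneg _)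

theorem Gr.pos {F : E n → ℝ} (h : Gr F) : Gr fun g => max (F g) 0 := by
  obtain ⟨hm, B, R, h⟩ := h
  refine ⟨hm.max measurable_const, B, R, fun g => le_trans ?_ (h g)⟩
  rw [abs_of_nonneg (le_max_right _ _)]
  exact max_le (le_abs_self _) (abs_nonneg _)

theorem ind_nonneg (U : Set (E n)) (x : E n) : 0 ≤ U.indicator (1 : E n → ℝ) x :=
  indicator_nonneg (fun _ _ => zero_le_one) x

theorem AA_nonneg {h : E n → ℝ} (h0 : ∀ x, 0 ≤ h x) (s : ℝ) (g : E n) : 0 ≤ AA μ h s g :=
  integral_nonneg fun x => mul_nonneg (h0 x) (ee_pos _ _).le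

theorem inner_step (hl : LC μ) (hR : Bd μ R) {S T : Set (E n)} (hS : MeasurableSet S)
    (hT : MeasurableSet T) {s ρ : ℝ} (ρ0 : 0 ≤ ρ) (a b : E n)
    (hd : ∀ x ∈ S, ∀ y ∈ T, |s| * ρ ≤ ‖a - s • x - (b - s • y)‖) :
    ph a * AA μ (S.indicator 1) s a * (ph b * AA μ (T.indicator 1) s b) ≤
      (ph ((1 / 2 : ℝ) • (a + b)) * (Real.exp (-(s ^ 2 * ρ ^ 2 / 8)) *
        AA μ (fun _ => 1) s ((1 / 2 : ℝ) • (a + b)))) ^ 2 := by
  set m := (1 / 2 : ℝ) • (a + b) with hm
  have k0 := ker_ind hR hS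
  have k1 := ker_ind hR hT
  have ce : ∀ g : E n, Continuous fun x : E n => ph (g - s • x) := fun g => by fun_prop
  have key := hl (fun x => S.indicator 1 x * ph (a - s • x))
    (fun x => T.indicator 1 x * ph (b - s • x))
    (fun x => Real.exp (-(s ^ 2 * ρ ^ 2 / 8)) * ph (m - s • x)) (k0.mh.mul (ce _).measurable)
    (k1.mh.mul (ce _).measurable) ((ce _).measurable.const_mul _)
    (fun x => mul_nonneg (ind_nonneg _ x) (ph_pos _).le)
    (fun x => mul_nonneg (ind_nonneg _ x) (ph_pos _).le)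
    (fun x => (mul_pos (Real.exp_pos _) (ph_pos _)).le) (k0.int' (ce _)) (k1.int' (ce _))
    ((hR.int (ce _)).const_mul _) (fun x y => by
      by_cases hx : x ∈ S
      · by_cases hy : y ∈ T
        · simp only [indicator_of_mem hx, indicator_of_mem hy, Pi.one_apply, one_mul]
          have e : (1 / 2 : ℝ) • (a - s • x + (b - s • y)) = m - s • (1 / 2 : ℝ) • (x + y) := by
            rw [hm]; module
          rw [ph_mid, e, mul_pow, mul_comm, sq (Real.exp _), ← Real.exp_add]
          refine mul_le_mul_of_nonneg_right (Real.exp_le_exp.2 ?_) (sq_nonneg _)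
          have h3 := pow_le_pow_left₀ (by positivity) (hd x hx y hy) 2
          rw [mul_pow, sq_abs] at h3
          linarith
        · simp only [indicator_of_notMem hy, zero_mul, mul_zero]; positivity
      · simp only [indicator_of_notMem hx, zero_mul]; positivity)
  simp only [← ph_mul_ee, mul_left_comm _ (ph _), integral_const_mul] at key
  simp only [AA, one_mul]
  exact le_trans (le_of_eq (by ring)) key

theorem dar_one (hl : LC μ) (hR : Bd μ R) {S T : Set (E n)} (hS : MeasurableSet S)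
    (hT : MeasurableSet T) {r s ρ p : ℝ} (hr : ∀ x ∈ T, ‖x‖ ≤ r) (p0 : 0 < p)
    (pS : p ≤ μ.real S) (pT : p ≤ μ.real T) (s0 : 0 < s) (ρ0 : 0 ≤ ρ)
    (hρ : 2 < p ^ 2 * Real.exp (s ^ 2 * ρ ^ 2 / 4)) :
    ∃ d, p ^ 2 / 16 * Real.exp (-(s ^ 2 * r ^ 2)) ≤
      μ.real {x | x ∈ T ∧ x + d ∈ Metric.thickening ρ S} := by
  by_contra hc
  push Not at hc
  set X := Real.exp (s ^ 2 * r ^ 2) with hX
  have X0 : 0 < X := Real.exp_pos _
  have X1 : Real.exp (-(s ^ 2 * r ^ 2)) = X⁻¹ := Real.exp_neg _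
  rw [X1] at hc
  set L := 4 / p * X with hL
  have L0 : 0 < L := by positivity
  have k0 := ker_ind hR hS
  have k1 := ker_ind hR hT
  have k2 := ker_one hR
  let h2 : E n → ℝ := fun x => T.indicator 1 x * Real.exp (s ^ 2 * ‖x‖ ^ 2)
  have h20 : ∀ x, 0 ≤ h2 x := fun x => mul_nonneg (ind_nonneg _ x) (Real.exp_pos _).le
  have h21 : ∀ x, h2 x ≤ X := fun x => by
    by_cases hx : x ∈ T
    · simp only [h2, indicator_of_mem hx, Pi.one_apply, one_mul]
      exact Real.exp_le_exp.2 (mul_le_mul_of_nonneg_left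
        (pow_le_pow_left₀ (norm_nonneg x) (hr x hx) 2) (sq_nonneg s))
    · simp only [h2, indicator_of_notMem hx, zero_mul]; exact X0.le
  have k3 : Ker μ h2 X R := ⟨k1.mh.mul (by fun_prop),
    ae_of_all _ fun x => by rw [abs_of_nonneg (h20 x)]; exact h21 x, hR⟩
  let G : E n → ℝ := fun g =>
    AA μ (T.indicator 1) s g + (-(p / 8) + -(1 / (2 * L)) * AA μ h2 (2 * s) g)
  have g2 := (gr_const (-(1 / (2 * L)))).mul (k3.gr (2 * s))
  have g3 := (gr_const (-(p / 8))).add g2
  have gG : Gr G := (k1.gr s).add g3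
  have key := lc_gam (k0.gr s) gG.pos ((gr_const (Real.exp (-(s ^ 2 * ρ ^ 2 / 8)))).mul (k2.gr s))
    (AA_nonneg (ind_nonneg _) s) (fun g => le_max_right _ _)
    (fun g => mul_nonneg (Real.exp_pos _).le (AA_nonneg (fun _ => zero_le_one) s g)) (fun a b => by
      set d := s⁻¹ • (a - b) with hd
      set F := {x | x ∈ T ∧ x + d ∈ Metric.thickening ρ S} with hF
      have mF : MeasurableSet F :=
        hT.inter ((measurable_add_const d) Metric.isOpen_thickening.measurableSet)
      refine le_trans ?_ (inner_step hl hR hS (hT.diff mF) ρ0 a b fun x hx y hy => ?_)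
      · refine mul_le_mul_of_nonneg_left (mul_le_mul_of_nonneg_left
          (max_le ?_ (AA_nonneg (ind_nonneg _) s b)) (ph_pos b).le)
          (mul_nonneg (ph_pos a).le (AA_nonneg (ind_nonneg _) s a))
        have c1 : Continuous fun x : E n => ee (s • x) b := by fun_prop
        have c2 : Continuous fun x : E n => ee ((2 * s) • x) b := by fun_prop
        have i1 := (ker_ind hR (hT.diff mF)).int' c1
        have i2 := (ker_ind hR mF).int0.const_mul (L / 2)
        have i3 := (k3.int' c2).const_mul (1 / (2 * L))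
        have := integral_mono (k1.int' c1) (iadd (iadd i1 i2) i3) fun x => by
          have e0 := ee_pos (s • x) b
          have e1 : 0 ≤ 1 / (2 * L) * (h2 x * ee ((2 * s) • x) b) :=
            mul_nonneg (by positivity) (mul_nonneg (h20 x) (ee_pos _ _).le)
          by_cases hx : x ∈ T
          · by_cases hx' : x ∈ F
            · have e2 : h2 x * ee ((2 * s) • x) b = ee (s • x) b ^ 2 := by
                simp only [h2, indicator_of_mem hx, Pi.one_apply, one_mul, ee, sq (Real.exp _),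
                  ← Real.exp_add, inner_smul_right, norm_smul, mul_pow, Real.norm_eq_abs, sq_abs]
                congr 1
                ring
              simp only [indicator_of_mem hx, indicator_of_mem hx', Pi.one_apply, one_mul, e2,
                indicator_of_notMem (show x ∉ T \ F from fun h => h.2 hx'), zero_mul, zero_add,
                mul_one]
              have e3 : L / 2 + 1 / (2 * L) * ee (s • x) b ^ 2 - ee (s • x) b =
                  (L - ee (s • x) b) ^ 2 / (2 * L) := by field_simp; ring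
              have e4 : 0 ≤ (L - ee (s • x) b) ^ 2 / (2 * L) := by positivity
              linarith
            · simp only [indicator_of_mem hx, indicator_of_notMem hx', Pi.one_apply, one_mul,
                indicator_of_mem (show x ∈ T \ F from ⟨hx, hx'⟩), mul_zero, add_zero]
              linarith
          · simp only [indicator_of_notMem hx, zero_mul,
              indicator_of_notMem (show x ∉ T \ F from fun h => hx h.1),
              indicator_of_notMem (show x ∉ F from fun h => hx h.1), mul_zero, add_zero, zero_add]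
            exact e1
        rw [integral_add (iadd i1 i2) i3, integral_add i1 i2, integral_const_mul,
          integral_const_mul, integral_indicator_one mF] at this
        have e5 : L / 2 * (p ^ 2 / 16 * X⁻¹) = p / 8 := by rw [hL]; field_simp; ring
        have e6 := mul_le_mul_of_nonneg_left (hc d).le (show 0 ≤ L / 2 by positivity)
        simp only [G, AA]
        linarith
      · have e : a - s • x - (b - s • y) = s • (y + d - x) := by
          rw [hd, smul_sub, smul_add, smul_smul, mul_inv_cancel₀ s0.ne', one_smul]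
          abel
        rw [e, norm_smul, Real.norm_eq_abs]
        refine mul_le_mul_of_nonneg_left ?_ (abs_nonneg s)
        by_contra hlt
        exact hy.2 ⟨hy.1, Metric.mem_thickening_iff.2 ⟨x, hx, by
          rw [dist_eq_norm]; exact not_le.1 hlt⟩⟩)
  have b1 : p / 2 ≤ ∫ g, max (G g) 0 ∂gam n := by
    refine le_trans ?_ (integral_mono gG.int gG.pos.int fun g => le_max_left _ _)
    rw [integral_add (k1.gr s).int g3.int, integral_add (integrable_const _) g2.int,
      integral_const_mul, k1.mean, k3.mean, integral_indicator_one hT]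
    simp only [integral_const, probReal_univ, smul_eq_mul, one_mul]
    have : ∫ x, h2 x ∂μ ≤ X := by
      simpa using integral_mono k3.int0 (integrable_const X) h21
    have e7 : 1 / (2 * L) * X = p / 8 := by rw [hL]; field_simp; ring
    nlinarith [mul_le_mul_of_nonneg_left this (show 0 ≤ 1 / (2 * L) by positivity)]
  rw [integral_const_mul, k0.mean, k2.mean, integral_indicator_one hS] at key
  simp only [integral_const, probReal_univ, smul_eq_mul, mul_one] at key
  have e8 : Real.exp (-(s ^ 2 * ρ ^ 2 / 8)) ^ 2 * Real.exp (s ^ 2 * ρ ^ 2 / 4) = 1 := by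
    rw [sq, ← Real.exp_add, ← Real.exp_add, ← Real.exp_zero]
    congr 1
    ring
  have b2 : p * (p / 2) ≤ Real.exp (-(s ^ 2 * ρ ^ 2 / 8)) ^ 2 :=
    (mul_le_mul pS b1 (by positivity) (p0.le.trans pS)).trans key
  nlinarith [mul_le_mul_of_nonneg_right b2 (Real.exp_pos (s ^ 2 * ρ ^ 2 / 4)).le]

theorem exists_section {ν : Measure (E n)} [IsProbabilityMeasure ν] {S : Set (E n × E n)}
    (hS : MeasurableSet S) {F : Set (E n)} (hF : MeasurableSet F) {q : ℝ} (q0 : 0 ≤ q)
    (h : ∀ x ∈ F, q ≤ ν.real {g | (x, g) ∈ S}) :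
    ∃ g, q * μ.real F ≤ μ.real {x | (x, g) ∈ S} := by
  have h1 : ENNReal.ofReal q * μ F ≤ μ.prod ν S := by
    rw [Measure.prod_apply hS, ← lintegral_indicator_const hF]
    refine lintegral_mono fun x => ?_
    by_cases hx : x ∈ F
    · rw [indicator_of_mem hx]
      exact ENNReal.ofReal_le_of_le_toReal (h x hx)
    · rw [indicator_of_notMem hx]; exact zero_le
  have h2 : μ.prod ν S ≠ ⊤ := measure_ne_top _ _
  rw [Measure.prod_apply_symm hS] at h1 h2
  obtain ⟨g, hg⟩ := exists_lintegral_le h2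
  refine ⟨g, ?_⟩
  have := ENNReal.toReal_mono (measure_ne_top _ _) (h1.trans hg)
  rwa [ENNReal.toReal_mul, ENNReal.toReal_ofReal q0] at this

theorem Iso.side_ball (h : Iso μ K R) {r : ℝ} (r0 : 0 < r) (hr : 10 ^ 10 * (n : ℝ) ≤ r ^ 2)
    {u : E n} (hu : ‖u‖ = 1) :
    1 / (2 * 10 ^ 8) ≤ μ.real {x | x ∈ K ∧ ‖x‖ ≤ r ∧ 1 / 16000 ≤ ⟪x, u⟫} := by
  have h1 : {x : E n | 1 / 16000 ≤ ⟪x, u⟫} ≤ᵐ[μ]
      ({x | x ∈ K ∧ ‖x‖ ≤ r ∧ 1 / 16000 ≤ ⟪x, u⟫} ∪ (Metric.closedBall (0 : E n) r)ᶜ : Set _) := by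
    filter_upwards [h.mem] with x hx hx'
    by_cases hb : ‖x‖ ≤ r
    · exact Or.inl ⟨hx, hb, hx'⟩
    · exact Or.inr (by simpa using hb)
  have h2 := ENNReal.toReal_mono (measure_ne_top _ _) (measure_mono_ae h1)
  have h3 := le_trans h2 (measureReal_union_le (μ := μ) _ _)
  have h4 := h.side hu
  have h5 := h.tail r0 hr
  rw [Measure.real] at h4
  linarith

theorem exp_fifty : (10 : ℝ) ^ 19 < Real.exp 50 := by
  have : Real.exp 50 = Real.exp 5 ^ 10 := by rw [← Real.exp_nat_mul]; norm_num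
  rw [this]
  exact lt_of_lt_of_le (by norm_num) (pow_le_pow_left₀ (by norm_num) exp_five.le 10)

theorem Iso.dar (h : Iso μ K R) {u : E n} (hu : ‖u‖ = 1) {t : ℝ} (t1 : 1 ≤ t)
    (ht : (n : ℝ) ≤ t ^ 16) : ∃ d : E n, ⟪d, u⟫ ≤ -(1 / 16000) ∧
      Real.exp (-(10 ^ 27 * t ^ 15)) ≤ μ.real {x | x ∈ K ∧ (1 + 2 / (5 * t))⁻¹ • (x + d) ∈ K} := by
  have t0 : 0 < t := by linarith
  set r := 10 ^ 5 * t ^ 8 with hr
  have r0 : 0 < r := by positivity
  have r2 : 10 ^ 10 * (n : ℝ) ≤ r ^ 2 := by rw [hr]; nlinarith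
  have mA : ∀ v : E n, MeasurableSet {x | x ∈ K ∧ ‖x‖ ≤ r ∧ 1 / 16000 ≤ ⟪x, v⟫} := fun v =>
    (h.cl.inter ((isClosed_le continuous_norm continuous_const).inter
      (isClosed_le (g := fun x : E n => ⟪x, v⟫) continuous_const (by fun_prop)))).measurableSet
  have q1 : √(1 / t) ^ 2 = 1 / t := Real.sq_sqrt (by positivity)
  have q2 : √(200 * t) ^ 2 = 200 * t := Real.sq_sqrt (by positivity)
  obtain ⟨d, hd⟩ := dar_one h.lc h.bd (mA (-u)) (mA u) (r := r) (s := √(1 / t))
    (ρ := √(200 * t)) (p := 1 / (2 * 10 ^ 8)) (fun x hx => hx.2.1) (by positivity)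
    (h.side_ball r0 r2 (by rw [norm_neg, hu])) (h.side_ball r0 r2 hu)
    (Real.sqrt_pos.2 (by positivity)) (Real.sqrt_nonneg _) (by
      rw [q1, q2, show 1 / t * (200 * t) / 4 = 50 by field_simp; norm_num]
      nlinarith [exp_fifty])
  rw [q1, show 1 / t * r ^ 2 = 10 ^ 10 * t ^ 15 by rw [hr]; field_simp] at hd
  set F := {x | x ∈ {x | x ∈ K ∧ ‖x‖ ≤ r ∧ 1 / 16000 ≤ ⟪x, u⟫} ∧ x + d ∈
    Metric.thickening √(200 * t) {x | x ∈ K ∧ ‖x‖ ≤ r ∧ 1 / 16000 ≤ ⟪x, -u⟫}} with hF
  have mF : MeasurableSet F :=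
    (mA u).inter ((measurable_add_const d) Metric.isOpen_thickening.measurableSet)
  obtain ⟨U, mU, sU, hU, pU⟩ := h.exists_U (s := 1 / (10 ^ 4 * t ^ 6)) r0 (by
      rw [hr, show (1 / (10 ^ 4 * t ^ 6)) ^ 4 * (10 ^ 5 * t ^ 8) ^ 3 = (1 / 10 : ℝ) by field_simp]
      norm_num) (by
      rw [hr, show 16 * (10 ^ 5 * t ^ 8) * (1 / (10 ^ 4 * t ^ 6)) ^ 2 = 16 / (1000 * t ^ 4) by
        field_simp; norm_num, div_le_one (by positivity)]
      nlinarith [one_le_pow₀ t1 (n := 4)]) hu
  set C := cov h.bd r with hC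
  have cC : Continuous C := C.continuous_of_finiteDimensional
  set s := 1 / (10 ^ 12 * t ^ 7) with hs
  have s0 : 0 < s := by positivity
  have s1 : s ≤ 1 / 10 ^ 12 :=
    one_div_le_one_div_of_le (by positivity) (by nlinarith [one_le_pow₀ t1 (n := 7)])
  set η := 2 / (5 * t) with hη
  have η0 : 0 < η := by positivity
  let S : Set (E n × E n) := {p | p.1 ∈ F ∧ (1 + η)⁻¹ • (p.1 + (d + s • C p.2)) ∈ K ∧
    ⟪p.1 + (d + s • C p.2), u⟫ ≤ 0}
  have mS : MeasurableSet S := (measurable_fst mF).inter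
    ((h.cl.preimage (f := fun p : E n × E n => (1 + η)⁻¹ • (p.1 + (d + s • C p.2)))
      (by fun_prop)).inter (isClosed_le (f := fun p : E n × E n => ⟪p.1 + (d + s • C p.2), u⟫)
      (by fun_prop) continuous_const)).measurableSet
  obtain ⟨g, hg⟩ := exists_section (μ := μ) (ν := gam n) mS mF
    (q := Real.exp (-(4 * 10 ^ 26 * t ^ 15)) * (1 / 2)) (by positivity) fun x hx => by
      obtain ⟨y, hy, hxy⟩ := Metric.mem_thickening_iff.1 hx.2
      rw [dist_eq_norm] at hxy
      obtain ⟨θ, h1, h2⟩ := h.cov_surj r0 r2 (x + d - y)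
      refine le_trans ?_ ((gam_shift_set mU sU (s⁻¹ • θ)).trans
        (measureReal_mono (fun g hg => ?_) (measure_ne_top _ _)))
      · refine mul_le_mul (Real.exp_le_exp.2 ?_) hU (by norm_num) (Real.exp_pos _).le
        have h3 : ‖θ‖ ^ 2 ≤ 800 * t := by
          have := pow_le_pow_left₀ (norm_nonneg θ) (h2.trans
            (mul_le_mul_of_nonneg_left hxy.le (by norm_num : (0 : ℝ) ≤ 2))) 2
          rw [mul_pow, q2] at this
          linarith
        rw [norm_smul, mul_pow, Real.norm_eq_abs, sq_abs, hs, one_div, inv_inv]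
        nlinarith [mul_le_mul_of_nonneg_left h3 (sq_nonneg (10 ^ 12 * t ^ 7))]
      · obtain ⟨a1, a2⟩ := pU _ hg
        have e : x + (d + s • C g) = y + s • C (g + s⁻¹ • θ) := by
          rw [map_add, map_smul, smul_add, smul_smul, mul_inv_cancel₀ s0.ne', one_smul, hC, h1]
          abel
        refine ⟨hx, ?_, ?_⟩
        · change (1 + η)⁻¹ • (x + (d + s • C g)) ∈ K
          have := h.cv hy.1 a2 (a := (1 + η)⁻¹) (b := (1 + η)⁻¹ * η) (by positivity)
            (by positivity) (by field_simp)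
          rw [smul_smul, mul_assoc, show η * (1 / (10 ^ 4 * t ^ 6) / 40000000) = s by
            rw [hη, hs]; field_simp; norm_num, ← smul_smul, ← smul_add] at this
          rwa [e]
        · change ⟪x + (d + s • C g), u⟫ ≤ 0
          have a3 := hy.2.2
          rw [inner_neg_right] at a3
          rw [e, inner_add_left, inner_smul_left]
          simp only [conj_trivial]
          nlinarith [mul_le_mul_of_nonneg_left a1 s0.le]
  have low : Real.exp (-(10 ^ 27 * t ^ 15)) ≤ μ.real {x | (x, g) ∈ S} := by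
    refine le_trans ?_ ((mul_le_mul_of_nonneg_left hd (by positivity)).trans hg)
    have a1 : Real.exp (-50) ≤ 1 / 2 * ((1 / (2 * 10 ^ 8)) ^ 2 / 16) := by
      rw [Real.exp_neg, inv_le_comm₀ (Real.exp_pos _) (by positivity)]
      nlinarith [exp_fifty]
    have a2 : Real.exp (-(10 ^ 27 * t ^ 15)) ≤ Real.exp (-(4 * 10 ^ 26 * t ^ 15)) *
        (Real.exp (-50) * Real.exp (-(10 ^ 10 * t ^ 15))) := by
      rw [← Real.exp_add, ← Real.exp_add, Real.exp_le_exp]
      nlinarith [one_le_pow₀ t1 (n := 15)]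
    refine a2.trans ?_
    rw [mul_assoc (Real.exp _) (1 / 2), ← mul_assoc (1 / 2)]
    gcongr
  obtain ⟨x, hx⟩ : {x | (x, g) ∈ S}.Nonempty := by
    by_contra hc
    rw [not_nonempty_iff_eq_empty.1 hc, measureReal_empty] at low
    linarith [Real.exp_pos (-(10 ^ 27 * t ^ 15))]
  refine ⟨d + s • C g, ?_, low.trans (measureReal_mono (fun y hy => ⟨hy.1.1.1, hy.2.1⟩)
    (measure_ne_top _ _))⟩
  have a1 : 1 / 16000 ≤ ⟪x, u⟫ := hx.1.1.2.2
  have a2 : ⟪x + (d + s • C g), u⟫ ≤ 0 := hx.2.2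
  rw [inner_add_left] at a2
  linarith

end Pool.Agent.Lib.MP_fedf83_gt.P
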