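import Pool.Agent.Lib.MP_fedf83_gt.PGau

/-! Second moments of Gaussian tilts. -/

namespace Pool.Agent.Lib.MP_fedf83_gt.P

open MeasureTheory Set Pool.Agent.Lib.MP_fedf83_gt.B
open scoped ENNReal RealInnerProductSpace

variable {n : ℕ} {μ : Measure (E n)} [IsProbabilityMeasure μ] {h : E n → ℝ} {s H R : ℝ}

theorem isub {X : Type} [MeasurableSpace X] {ν : Measure X} {f g : X → ℝ} (hf : Integrable f ν)
    (hg : Integrable g ν) : Integrable (fun x => f x - g x) ν := hf.sub hg

theorem iadd {X : Type} [MeasurableSpace X] {ν : Measure X} {f g : X → ℝ} (hf : Integrable f ν)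
    (hg : Integrable g ν) : Integrable (fun x => f x + g x) ν := hf.add hg

/-- The tilted integral of a weight. -/
noncomputable def AA (μ : Measure (E n)) (h : E n → ℝ) (s : ℝ) (g : E n) : ℝ :=
  ∫ x, h x * ee (s • x) g ∂μ

/-- A bounded weight for a measure with bounded support. -/
structure Ker (μ : Measure (E n)) (h : E n → ℝ) (H R : ℝ) : Prop where
  mh : Measurable h
  bh : ∀ᵐ x ∂μ, |h x| ≤ H
  bd : Bd μ R

theorem Ker.int (k : Ker μ h H R) {F : Type} [NormedAddCommGroup F] [NormedSpace ℝ F]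
    [SecondCountableTopology F] {f : E n → F} (hf : Continuous f) :
    Integrable (fun x => h x • f x) μ := by
  refine ((k.bd.int hf).norm.const_mul H).mono'
    (k.mh.aestronglyMeasurable.smul hf.aestronglyMeasurable) ?_
  filter_upwards [k.bh] with x hx
  rw [norm_smul]
  exact mul_le_mul_of_nonneg_right hx (norm_nonneg _)

theorem Ker.int' (k : Ker μ h H R) {f : E n → ℝ} (hf : Continuous f) :
    Integrable (fun x => h x * f x) μ := k.int hf

theorem Ker.int0 (k : Ker μ h H R) : Integrable h μ := by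
  simpa using k.int' (f := fun _ => 1) continuous_const

theorem Ker.gr (k : Ker μ h H R) (s : ℝ) : Gr (AA μ h s) := by
  have mh := k.mh
  refine ⟨?_, H, |s| * R, fun g => ?_⟩
  · refine (StronglyMeasurable.integral_prod_right (f := fun g x => h x * ee (s • x) g)
      (Measurable.stronglyMeasurable ?_)).measurable
    change Measurable fun p : E n × E n => h p.2 * ee (s • p.2) p.1
    fun_prop
  · have := norm_integral_le_of_norm_le_const (μ := μ) (f := fun x => h x * ee (s • x) g)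
      (C := H * Real.exp (|s| * R * ‖g‖)) (by
        filter_upwards [k.bh, k.bd] with x h1 h2
        rw [Real.norm_eq_abs, abs_mul, abs_of_pos (ee_pos _ _)]
        refine mul_le_mul h1 (ee_le ?_ g) (ee_pos _ _).le ((abs_nonneg _).trans h1)
        rw [norm_smul]
        exact mul_le_mul_of_nonneg_left h2 (abs_nonneg s))
    simpa [AA] using this

theorem Ker.swap (k : Ker μ h H R) (s : ℝ) {ψ : E n → ℝ} (hψ : Gr ψ) :
    ∫ g, AA μ h s g * ψ g ∂gam n = ∫ x, h x * ∫ g, ee (s • x) g * ψ g ∂gam n ∂μ := by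
  have mh := k.mh
  obtain ⟨mψ, B, S, hb⟩ := hψ
  simp only [AA, ← integral_mul_const, ← integral_const_mul, mul_assoc]
  refine integral_integral_swap ?_
  refine (((gam_int_exp (|s| * R + S)).const_mul (H * B)).mul_prod
    (integrable_const (1 : ℝ))).mono' (Measurable.aestronglyMeasurable ?_) ?_
  · change Measurable fun p : E n × E n => h p.2 * (ee (s • p.2) p.1 * ψ p.1)
    fun_prop
  · filter_upwards [Measure.quasiMeasurePreserving_snd.ae k.bh,
      Measure.quasiMeasurePreserving_snd.ae k.bd] with p h1 h2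
    change ‖h p.2 * (ee (s • p.2) p.1 * ψ p.1)‖ ≤ _
    rw [Real.norm_eq_abs, abs_mul, abs_mul, abs_of_pos (ee_pos _ _), mul_one, add_mul,
      Real.exp_add, mul_assoc]
    refine mul_le_mul h1 ?_ (mul_nonneg (ee_pos _ _).le (abs_nonneg _)) ((abs_nonneg _).trans h1)
    rw [mul_left_comm]
    refine mul_le_mul (ee_le ?_ _) (hb _) (abs_nonneg _) (Real.exp_pos _).le
    rw [norm_smul]
    exact mul_le_mul_of_nonneg_left h2 (abs_nonneg s)

theorem Ker.mean (k : Ker μ h H R) (s : ℝ) : ∫ g, AA μ h s g ∂gam n = ∫ x, h x ∂μ := by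
  simpa [gam_ee] using k.swap s (gr_const 1)

theorem Ker.esq (k : Ker μ h H R) (s : ℝ) : ∫ g, AA μ h s g * AA μ h s g ∂gam n =
    ∫ x, h x * ∫ y, h y * Real.exp (s ^ 2 * ⟪y, x⟫) ∂μ ∂μ := by
  rw [k.swap s (k.gr s)]
  congr with x
  congr 1
  simp only [mul_comm (ee (s • x) _)]
  rw [k.swap s (gr_ee _)]
  simp only [gam_ee_ee, inner_smul_left, inner_smul_right, conj_trivial, ← mul_assoc, ← pow_two]

/-- Integrability of the outer integrand of a double integral with a continuous kernel. -/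
theorem Ker.outer (k : Ker μ h H R) {κ : ℝ → ℝ} (hκ : Continuous κ) :
    Integrable (fun x => h x * ∫ y, h y * κ ⟪y, x⟫ ∂μ) μ := by
  have mh := k.mh
  have mκ := hκ.measurable
  obtain ⟨C, hC⟩ := (isCompact_Icc (a := -(R * R)) (b := R * R)).exists_bound_of_continuousOn
    hκ.continuousOn
  refine (integrable_const (H * (H * C))).mono' (Measurable.aestronglyMeasurable (mh.mul ?_)) ?_
  · refine (StronglyMeasurable.integral_prod_right (f := fun x y => h y * κ ⟪y, x⟫)
      (Measurable.stronglyMeasurable ?_)).measurable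
    change Measurable fun p : E n × E n => h p.2 * κ ⟪p.2, p.1⟫
    fun_prop
  · filter_upwards [k.bh, k.bd] with x h1 h2
    rw [norm_mul]
    refine mul_le_mul h1 ?_ (norm_nonneg _) ((abs_nonneg _).trans h1)
    have := norm_integral_le_of_norm_le_const (μ := μ) (f := fun y => h y * κ ⟪y, x⟫)
      (C := H * C) (by
        filter_upwards [k.bh, k.bd] with y h3 h4
        rw [norm_mul]
        refine mul_le_mul h3 (hC _ (abs_le.1 ((abs_real_inner_le_norm y x).trans ?_)))
          (norm_nonneg _) ((abs_nonneg _).trans h3)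
        exact mul_le_mul h4 h2 (norm_nonneg _) ((norm_nonneg _).trans h4))
    simpa using this

theorem Ker.var_one (k : Ker μ h 1 R) (s : ℝ) {δ : ℝ}
    (hδ : ∀ᵐ x ∂μ, ∫ y, |Real.exp (s ^ 2 * ⟪y, x⟫) - 1| ∂μ ≤ δ) :
    ∫ g, (AA μ h s g - ∫ x, h x ∂μ) ^ 2 ∂gam n ≤ δ := by
  set b := ∫ x, h x ∂μ with hb
  have e1 : ∀ g, (AA μ h s g - b) ^ 2 =
      AA μ h s g * AA μ h s g - 2 * b * AA μ h s g + b ^ 2 := fun g => by ring
  have i1 := ((k.gr s).mul (k.gr s)).int
  have i2 := (k.gr s).int.const_mul (2 * b)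
  simp only [e1]
  rw [integral_add (isub i1 i2) (integrable_const _), integral_sub i1 i2, integral_const_mul,
    k.mean, k.esq, ← hb]
  simp only [integral_const, probReal_univ, smul_eq_mul, one_mul]
  have o1 := k.outer (κ := fun t => Real.exp (s ^ 2 * t)) (by fun_prop)
  have h1 : ∫ x, (h x * ∫ y, h y * Real.exp (s ^ 2 * ⟪y, x⟫) ∂μ - b * h x) ∂μ ≤ ∫ _, δ ∂μ := by
    refine integral_mono_ae (o1.sub (k.int0.const_mul b)) (integrable_const _) ?_
    filter_upwards [k.bh, hδ] with x h1 h2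
    have h3 : |∫ y, h y * Real.exp (s ^ 2 * ⟪y, x⟫) ∂μ - b| ≤ δ := by
      rw [hb, ← integral_sub (k.int' (by fun_prop)) k.int0, ← Real.norm_eq_abs]
      refine le_trans (norm_integral_le_of_norm_le (k.bd.int
        (f := fun y => |Real.exp (s ^ 2 * ⟪y, x⟫) - 1|) (by fun_prop)) ?_) h2
      filter_upwards [k.bh] with y hy
      rw [← mul_sub_one, Real.norm_eq_abs, abs_mul]
      exact mul_le_of_le_one_left (abs_nonneg _) hy
    rw [mul_comm b, ← mul_sub]
    refine (le_abs_self _).trans ?_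
    rw [abs_mul]
    exact (mul_le_of_le_one_left (abs_nonneg _) h1).trans h3
  rw [integral_sub o1 (k.int0.const_mul b), integral_const_mul, ← hb] at h1
  simp only [integral_const, probReal_univ, smul_eq_mul, one_mul] at h1
  nlinarith

theorem Ker.inner_int (k : Ker μ h H R) (c : E n) :
    ⟪∫ y, h y • y ∂μ, c⟫ = ∫ y, h y * ⟪y, c⟫ ∂μ := by
  rw [real_inner_comm, ← integral_inner (k.int (f := fun y => y) continuous_id)]
  simp only [inner_smul_right, real_inner_comm]

theorem Ker.var_two (k : Ker μ h H R) (s : ℝ) :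
    ∫ g, (AA μ h s g - ∫ x, h x ∂μ - s * ⟪g, ∫ x, h x • x ∂μ⟫) ^ 2 ∂gam n ≤
      ∫ x, h x * ∫ y, h y * (Real.exp (s ^ 2 * ⟪y, x⟫) - 1 - s ^ 2 * ⟪y, x⟫) ∂μ ∂μ := by
  set b := ∫ x, h x ∂μ with hb
  set c := ∫ x, h x • x ∂μ with hc
  have e1 : ∀ g, (AA μ h s g - b - s * ⟪g, c⟫) ^ 2 =
      AA μ h s g * AA μ h s g - 2 * b * AA μ h s g - 2 * s * (AA μ h s g * ⟪g, c⟫) +
        2 * b * s * ⟪g, c⟫ + s ^ 2 * ⟪g, c⟫ ^ 2 + b ^ 2 := fun g => by ring
  have i1 := ((k.gr s).mul (k.gr s)).int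
  have i2 := (k.gr s).int.const_mul (2 * b)
  have i3 := ((k.gr s).mul (gr_lin c)).int.const_mul (2 * s)
  have i4 := (gr_lin c).int.const_mul (2 * b * s)
  have i5 : Integrable (fun g : E n => s ^ 2 * ⟪g, c⟫ ^ 2) (gam n) := by
    simpa only [pow_two] using ((gr_lin c).mul (gr_lin c)).int.const_mul (s * s)
  have hcc : ∫ x, h x * ⟪x, c⟫ ∂μ = ‖c‖ ^ 2 := by
    rw [← k.inner_int, ← hc, real_inner_self_eq_norm_sq]
  simp only [e1]
  rw [integral_add (iadd (iadd (isub (isub i1 i2) i3) i4) i5) (integrable_const _),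
    integral_add (iadd (isub (isub i1 i2) i3) i4) i5, integral_add (isub (isub i1 i2) i3) i4,
    integral_sub (isub i1 i2) i3, integral_sub i1 i2, integral_const_mul, integral_const_mul,
    integral_const_mul, integral_const_mul, k.mean, k.esq, k.swap s (gr_lin c), gam_lin, ← hb]
  simp only [integral_const, probReal_univ, smul_eq_mul, one_mul, gam_ee_lin, inner_smul_left,
    conj_trivial, mul_left_comm _ s]
  rw [integral_const_mul, hcc]
  have o1 := k.outer (κ := fun t => Real.exp (s ^ 2 * t)) (by fun_prop)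
  have e2 : ∀ x, h x * ∫ y, h y * (Real.exp (s ^ 2 * ⟪y, x⟫) - 1 - s ^ 2 * ⟪y, x⟫) ∂μ =
      h x * ∫ y, h y * Real.exp (s ^ 2 * ⟪y, x⟫) ∂μ - b * h x - s ^ 2 * (h x * ⟪x, c⟫) := by
    intro x
    have j1 := k.int' (f := fun y => Real.exp (s ^ 2 * ⟪y, x⟫)) (by fun_prop)
    have j3 := (k.int' (f := fun y => ⟪y, x⟫) (by fun_prop)).const_mul (s ^ 2)
    have e3 : ∀ y, h y * (Real.exp (s ^ 2 * ⟪y, x⟫) - 1 - s ^ 2 * ⟪y, x⟫) =
        h y * Real.exp (s ^ 2 * ⟪y, x⟫) - h y - s ^ 2 * (h y * ⟪y, x⟫) := fun y => by ring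
    simp only [e3]
    rw [integral_sub (isub j1 k.int0) j3, integral_sub j1 k.int0, integral_const_mul,
      ← k.inner_int, ← hc, ← hb, real_inner_comm]
    ring
  simp only [e2]
  rw [integral_sub (isub o1 (k.int0.const_mul b)) ((k.int' (by fun_prop)).const_mul _),
    integral_sub o1 (k.int0.const_mul b), integral_const_mul, integral_const_mul, hcc, ← hb]
  nlinarith [mul_le_mul_of_nonneg_left (gam_sq c) (sq_nonneg s)]

end Pool.Agent.Lib.MP_fedf83_gt.P
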