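import Pool.Agent.Lib.MP_fedf83_gt.BAsym

/-! Midpoint log-concave measures and the exponential moment of linear forms. -/

namespace Pool.Agent.Lib.MP_fedf83_gt.P

open MeasureTheory Set Pool.Agent.Lib.MP_fedf83_gt.B
open scoped ENNReal RealInnerProductSpace

variable {n : ℕ}

/-- Midpoint log-concavity of a measure, in functional form. -/
def LC (μ : Measure (E n)) : Prop :=
  ∀ f g h : E n → ℝ, Measurable f → Measurable g → Measurable h →
    (∀ x, 0 ≤ f x) → (∀ x, 0 ≤ g x) → (∀ x, 0 ≤ h x) →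
    Integrable f μ → Integrable g μ → Integrable h μ →
    (∀ x y, f x * g y ≤ h ((1 / 2 : ℝ) • (x + y)) ^ 2) →
    (∫ x, f x ∂μ) * (∫ x, g x ∂μ) ≤ (∫ x, h x ∂μ) ^ 2

theorem half_iff {a b c : ℝ} (ha : 0 ≤ a) (hb : 0 ≤ b) (hc : 0 ≤ c) :
    ENNReal.ofReal a ^ (1 - 1 / 2 : ℝ) * ENNReal.ofReal b ^ (1 / 2 : ℝ) ≤ ENNReal.ofReal c ↔
      a * b ≤ c ^ 2 := by
  rw [show (1 - 1 / 2 : ℝ) = 1 / 2 by norm_num,
    ← ENNReal.mul_rpow_of_nonneg _ _ (by norm_num), ← ENNReal.ofReal_mul ha,
    ENNReal.ofReal_rpow_of_nonneg (mul_nonneg ha hb) (by norm_num),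
    ENNReal.ofReal_le_ofReal_iff hc, ← Real.sqrt_eq_rpow, Real.sqrt_le_left hc]

theorem lc_volume : LC (volume : Measure (E n)) := by
  intro f g h mf mg mh f0 g0 h0 i1 i2 i3 H
  have := pl_euclidean n (1 / 2) (by norm_num) (by norm_num) (fun x => ENNReal.ofReal (f x))
    (fun x => ENNReal.ofReal (g x)) (fun x => ENNReal.ofReal (h x)) mf.ennreal_ofReal
    mg.ennreal_ofReal mh.ennreal_ofReal (fun x y => by
      rw [half_iff (f0 x) (g0 y) (h0 _)]
      convert H x y using 3
      rw [smul_add]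
      norm_num)
  rw [← ofReal_integral_eq_lintegral_ofReal i1 (ae_of_all _ f0),
    ← ofReal_integral_eq_lintegral_ofReal i2 (ae_of_all _ g0),
    ← ofReal_integral_eq_lintegral_ofReal i3 (ae_of_all _ h0),
    half_iff (integral_nonneg f0) (integral_nonneg g0) (integral_nonneg h0)] at this
  exact this

theorem lc_cond {K : Set (E n)} (hK : IsBody K) : LC (ProbabilityTheory.cond volume K) := by
  intro f g h mf mg mh f0 g0 h0 i1 i2 i3 H
  have hm := hK.1.measurableSet
  have a0 : (volume K)⁻¹ ≠ 0 := ENNReal.inv_ne_zero.2 hK.1.measure_ne_top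
  have a1 : (volume K)⁻¹ ≠ ⊤ := ENNReal.inv_ne_top.2 (vol_ne_zero hK)
  unfold ProbabilityTheory.cond at i1 i2 i3 ⊢
  rw [integrable_smul_measure a0 a1] at i1 i2 i3
  have := lc_volume (K.indicator f) (K.indicator g) (K.indicator h) (mf.indicator hm)
    (mg.indicator hm) (mh.indicator hm) (fun x => indicator_nonneg (fun y _ => f0 y) x)
    (fun x => indicator_nonneg (fun y _ => g0 y) x) (fun x => indicator_nonneg (fun y _ => h0 y) x)
    ((integrable_indicator_iff hm).2 i1) ((integrable_indicator_iff hm).2 i2)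
    ((integrable_indicator_iff hm).2 i3) (fun x y => by
      by_cases hx : x ∈ K
      · by_cases hy : y ∈ K
        · have : (1 / 2 : ℝ) • (x + y) ∈ K := by
            rw [smul_add]
            exact hK.2.1 hx hy (by norm_num) (by norm_num) (by norm_num)
          rw [indicator_of_mem hx, indicator_of_mem hy, indicator_of_mem this]
          exact H x y
        · rw [indicator_of_notMem hy, mul_zero]; positivity
      · rw [indicator_of_notMem hx, zero_mul]; positivity)
  rw [integral_indicator hm, integral_indicator hm, integral_indicator hm] at this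
  simp only [integral_smul_measure, smul_eq_mul]
  have b0 : 0 ≤ (volume K)⁻¹.toReal := ENNReal.toReal_nonneg
  nlinarith [mul_le_mul_of_nonneg_left this (mul_nonneg b0 b0)]

theorem LC.map {μ : Measure (E n)} (hl : LC μ) (T : E n →L[ℝ] E n) : LC (μ.map T) := by
  intro f g h mf mg mh f0 g0 h0 i1 i2 i3 H
  have mT : Measurable T := T.continuous.measurable
  rw [integral_map mT.aemeasurable mf.aestronglyMeasurable,
    integral_map mT.aemeasurable mg.aestronglyMeasurable,
    integral_map mT.aemeasurable mh.aestronglyMeasurable]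
  rw [integrable_map_measure mf.aestronglyMeasurable mT.aemeasurable] at i1
  rw [integrable_map_measure mg.aestronglyMeasurable mT.aemeasurable] at i2
  rw [integrable_map_measure mh.aestronglyMeasurable mT.aemeasurable] at i3
  exact hl _ _ _ (mf.comp mT) (mg.comp mT) (mh.comp mT) (fun x => f0 _) (fun x => g0 _)
    (fun x => h0 _) i1 i2 i3 (fun x y => by
      simpa only [Function.comp, map_smul, map_add] using H (T x) (T y))

/-- The measure lives in the ball of radius `R`. -/
def Bd (μ : Measure (E n)) (R : ℝ) : Prop := ∀ᵐ x ∂μ, ‖x‖ ≤ R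

theorem Bd.int {μ : Measure (E n)} [IsFiniteMeasure μ] {R : ℝ} (h : Bd μ R) {F : Type}
    [NormedAddCommGroup F] [SecondCountableTopology F] {f : E n → F} (hf : Continuous f) :
    Integrable f μ := by
  obtain ⟨C, hC⟩ := (isCompact_closedBall (0 : E n) R).exists_bound_of_continuousOn
    hf.continuousOn
  refine (integrable_const C).mono' hf.aestronglyMeasurable ?_
  filter_upwards [h] with x hx using hC x (by simpa using hx)

theorem half_exp (m : ℕ) : Real.exp ((m : ℝ) / 2) ≤ 2 ^ m := by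
  have h1 : Real.exp (1 / 2) ≤ 2 := by
    have : Real.exp (1 / 2) ^ 2 = Real.exp 1 := by rw [← Real.exp_nat_mul]; norm_num
    have h2 := Real.exp_one_lt_d9
    nlinarith [Real.exp_pos (1 / 2 : ℝ)]
  rw [show (m : ℝ) / 2 = m * (1 / 2) by ring, Real.exp_nat_mul]
  exact pow_le_pow_left₀ (Real.exp_pos _).le h1 m

theorem borell_one {μ : Measure (E n)} [IsProbabilityMeasure μ] (hl : LC μ) {R : ℝ} (hR : Bd μ R)
    (a : E n) {v : ℝ} (hv : 0 < v) (h2 : ∫ x, ⟪x, a⟫ ^ 2 ∂μ ≤ v ^ 2) :
    ∫ x, Real.exp (⟪x, a⟫ / (8 * v)) ∂μ ≤ 7 := by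
  have cφ : Continuous fun x : E n => ⟪x, a⟫ := by fun_prop
  have ms : ∀ t : ℝ, MeasurableSet {x : E n | t ≤ ⟪x, a⟫} := fun t =>
    (isClosed_le continuous_const cφ).measurableSet
  let I : ℝ → E n → ℝ := fun t => {x : E n | t ≤ ⟪x, a⟫}.indicator 1
  have I0 : ∀ t x, 0 ≤ I t x := fun t x => indicator_nonneg (fun _ _ => zero_le_one) x
  have Im : ∀ t, Measurable (I t) := fun t => measurable_one.indicator (ms t)
  have Ii : ∀ t, Integrable (I t) μ := fun t => (integrable_const 1).indicator (ms t)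
  have I1 : ∀ t x, t ≤ ⟪x, a⟫ → I t x = 1 := fun t x h => indicator_of_mem (by exact h) _
  have I2 : ∀ t x, ¬ t ≤ ⟪x, a⟫ → I t x = 0 := fun t x h => indicator_of_notMem (by exact h) _
  let F : ℕ → ℝ := fun k => ∫ x, I ((4 * k - 2) * v) x ∂μ
  have F0 : ∀ k, 0 ≤ F k := fun k => integral_nonneg (I0 _)
  have isq : Integrable (fun x : E n => ⟪x, a⟫ ^ 2 / (4 * v ^ 2)) μ := hR.int (by fun_prop)
  have esq : ∫ x, ⟪x, a⟫ ^ 2 / (4 * v ^ 2) ∂μ ≤ 1 / 4 := by
    rw [integral_div, div_le_iff₀ (by positivity)]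
    linarith
  have hF1 : F 1 ≤ 1 / 4 := by
    refine le_trans (integral_mono (Ii _) isq fun x => ?_) esq
    by_cases h : (4 * (1 : ℕ) - 2 : ℝ) * v ≤ ⟪x, a⟫
    · rw [I1 _ _ h, le_div_iff₀ (by positivity)]
      push_cast at h
      nlinarith
    · rw [I2 _ _ h]; positivity
  have hF0 : 3 / 4 ≤ F 0 := by
    have : ∫ x, (1 - I ((4 * (0 : ℕ) - 2) * v) x) ∂μ ≤ 1 / 4 := by
      refine le_trans (integral_mono ((integrable_const 1).sub (Ii _)) isq fun x => ?_) esq
      by_cases h : (4 * (0 : ℕ) - 2 : ℝ) * v ≤ ⟪x, a⟫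
      · simp only [I1 _ _ h, sub_self]; positivity
      · simp only [I2 _ _ h, sub_zero]
        rw [le_div_iff₀ (by positivity)]
        push_cast at h
        nlinarith
    rw [integral_sub (integrable_const 1) (Ii _)] at this
    simp only [integral_const, probReal_univ, smul_eq_mul, mul_one] at this
    change 1 - F 0 ≤ 1 / 4 at this
    linarith
  have hlc : ∀ k, F k * F (k + 2) ≤ F (k + 1) ^ 2 := fun k => by
    refine hl _ _ _ (Im _) (Im _) (Im _) (I0 _) (I0 _) (I0 _) (Ii _) (Ii _) (Ii _) fun x y => ?_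
    by_cases hx : (4 * k - 2 : ℝ) * v ≤ ⟪x, a⟫
    · by_cases hy : (4 * ((k + 2 : ℕ) : ℝ) - 2 : ℝ) * v ≤ ⟪y, a⟫
      · rw [I1 _ _ hx, I1 _ _ hy, I1]
        · norm_num
        · rw [inner_smul_left, inner_add_left]
          push_cast at hy ⊢
          simp only [conj_trivial]
          nlinarith
      · rw [I2 _ _ hy, mul_zero]; positivity
    · rw [I2 _ _ hx, zero_mul]; positivity
  have hmono : ∀ k, F (k + 1) ≤ F k := fun k => by
    refine integral_mono (Ii _) (Ii _) fun x => ?_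
    by_cases h : (4 * ((k + 1 : ℕ) : ℝ) - 2 : ℝ) * v ≤ ⟪x, a⟫
    · rw [I1 _ _ h, I1]
      push_cast at h
      nlinarith
    · rw [I2 _ _ h]; exact I0 _ _
  have hthird : ∀ k, F (k + 1) ≤ F k / 3 := fun k => by
    induction k with
    | zero => simp only [zero_add]; linarith
    | succ k ih =>
      rcases (F0 k).eq_or_lt with h | h
      · have := hmono (k + 1)
        have := F0 (k + 1)
        rw [← h] at ih
        linarith
      · have h1 := hlc k
        have h3 := F0 (k + 1)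
        by_contra hc
        push Not at hc
        nlinarith
  have hpow : ∀ k, F k ≤ (1 / 3) ^ k := fun k => by
    induction k with
    | zero =>
      have := integral_mono (Ii ((4 * (0 : ℕ) - 2) * v)) (integrable_const (1 : ℝ)) fun x => by
        by_cases h : (4 * (0 : ℕ) - 2 : ℝ) * v ≤ ⟪x, a⟫
        · rw [I1 _ _ h]
        · rw [I2 _ _ h]; exact zero_le_one
      simp only [integral_const, probReal_univ, smul_eq_mul, mul_one] at this
      rw [pow_zero]
      exact this
    | succ k ih => rw [pow_succ]; linarith [hthird k]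
  have ie : Integrable (fun x : E n => Real.exp (⟪x, a⟫ / (8 * v))) μ := hR.int (by fun_prop)
  let J : ℕ → E n → ℝ := fun m =>
    {x : E n | (4 * m - 2 : ℝ) * v ≤ ⟪x, a⟫}ᶜ.indicator fun x => Real.exp (⟪x, a⟫ / (8 * v))
  have Ji : ∀ m, Integrable (J m) μ := fun m => ie.indicator (ms _).compl
  have J1 : ∀ (m : ℕ) x, ¬ (4 * m - 2 : ℝ) * v ≤ ⟪x, a⟫ → J m x = Real.exp (⟪x, a⟫ / (8 * v)) :=
    fun m x h => indicator_of_mem (by exact h) _
  have J2 : ∀ (m : ℕ) x, (4 * m - 2 : ℝ) * v ≤ ⟪x, a⟫ → J m x = 0 :=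
    fun m x h => indicator_of_notMem (by simpa using h) _
  have hG : ∀ m, ∫ x, J m x ∂μ ≤ 1 + 6 * (1 - (2 / 3) ^ m) := fun m => by
    induction m with
    | zero =>
      have := integral_mono (Ji 0) (integrable_const (1 : ℝ)) fun x => by
        by_cases h : (4 * (0 : ℕ) - 2 : ℝ) * v ≤ ⟪x, a⟫
        · rw [J2 _ _ h]; exact zero_le_one
        · rw [J1 _ _ h, Real.exp_le_one_iff]
          push_cast at h
          exact div_nonpos_of_nonpos_of_nonneg (by nlinarith) (by positivity)
      simpa using this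
    | succ m ih =>
      have := integral_mono (Ji (m + 1))
        ((Ji m).add ((Ii ((4 * m - 2) * v)).const_mul (2 ^ (m + 1)))) fun x => by
        simp only [Pi.add_apply]
        by_cases h : (4 * ((m + 1 : ℕ) : ℝ) - 2 : ℝ) * v ≤ ⟪x, a⟫
        · rw [J2 _ _ h]
          have := I0 ((4 * m - 2) * v) x
          have : 0 ≤ J m x := indicator_nonneg (fun _ _ => (Real.exp_pos _).le) x
          positivity
        · rw [J1 _ _ h]
          by_cases h' : (4 * m - 2 : ℝ) * v ≤ ⟪x, a⟫
          · rw [J2 _ _ h', I1 _ _ h', zero_add, mul_one]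
            refine le_trans (Real.exp_le_exp.2 ?_) (half_exp (m + 1))
            rw [div_le_div_iff₀ (by positivity) (by norm_num)]
            push_cast at h ⊢
            nlinarith
          · rw [J1 _ _ h', I2 _ _ h', mul_zero, add_zero]
      rw [integral_add' (Ji m) ((Ii _).const_mul _), integral_const_mul] at this
      have h3 := mul_le_mul_of_nonneg_left (hpow m) (show (0 : ℝ) ≤ 2 ^ (m + 1) by positivity)
      have h4 : (2 : ℝ) ^ (m + 1) * (1 / 3) ^ m = 2 * (2 / 3) ^ m := by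
        rw [pow_succ, mul_comm _ (2 : ℝ), mul_assoc, ← mul_pow]; norm_num
      change _ ≤ _ + 2 ^ (m + 1) * F m at this
      rw [pow_succ (2 / 3 : ℝ)]
      linarith
  obtain ⟨m, hm⟩ := exists_nat_gt ((R * ‖a‖ / v + 2) / 4)
  have e : ∫ x, Real.exp (⟪x, a⟫ / (8 * v)) ∂μ = ∫ x, J m x ∂μ := by
    refine integral_congr_ae ?_
    filter_upwards [hR] with x hx
    rw [J1]
    have h1 : ⟪x, a⟫ ≤ R * ‖a‖ :=
      (real_inner_le_norm x a).trans (mul_le_mul_of_nonneg_right hx (norm_nonneg a))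
    have h3 : R * ‖a‖ / v < 4 * m - 2 := by linarith
    rw [div_lt_iff₀ hv] at h3
    linarith
  have := hG m
  have h5 : (0 : ℝ) ≤ (2 / 3) ^ m := by positivity
  linarith

theorem borell {μ : Measure (E n)} [IsProbabilityMeasure μ] (hl : LC μ) {R : ℝ} (hR : Bd μ R)
    (a : E n) {v : ℝ} (hv : 0 < v) (h2 : ∫ x, ⟪x, a⟫ ^ 2 ∂μ ≤ v ^ 2) :
    ∫ x, Real.exp (|⟪x, a⟫| / (8 * v)) ∂μ ≤ 14 := by
  have h3 := borell_one hl hR a hv h2
  have h4 := borell_one hl hR (-a) hv (by simpa using h2)
  have i1 : Integrable (fun x : E n => Real.exp (⟪x, a⟫ / (8 * v))) μ := hR.int (by fun_prop)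
  have i2 : Integrable (fun x : E n => Real.exp (⟪x, -a⟫ / (8 * v))) μ := hR.int (by fun_prop)
  have := integral_mono (hR.int (f := fun x : E n => Real.exp (|⟪x, a⟫| / (8 * v))) (by fun_prop))
    (i1.add i2) fun x => by
      simp only [Pi.add_apply, inner_neg_right]
      rcases abs_cases ⟪x, a⟫ with h | h
      · rw [h.1]; linarith [Real.exp_pos (-⟪x, a⟫ / (8 * v))]
      · rw [h.1]; linarith [Real.exp_pos (⟪x, a⟫ / (8 * v))]
  rw [integral_add' i1 i2] at this
  linarith

end Pool.Agent.Lib.MP_fedf83_gt.P
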