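import Pool.Agent.Lib.MP_fedf83_gt.PCov

/-! The polynomial improvement of the lower bound in codimension one. -/

namespace Pool.Agent.Lib.MP_fedf83_gt.P

open MeasureTheory Set Module Pool.Agent.Lib.MP_fedf83_gt.B
open scoped ENNReal RealInnerProductSpace Pointwise

variable {n : ℕ} {K : Set (E n)}

/-- The uniform distribution on `K`. -/
noncomputable abbrev un (K : Set (E n)) : Measure (E n) := ProbabilityTheory.cond volume K

theorem un_prob (hK : IsBody K) : IsProbabilityMeasure (un K) :=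
  ProbabilityTheory.cond_isProbabilityMeasure_of_finite (vol_ne_zero hK) hK.1.measure_ne_top

theorem un_mem (hK : IsBody K) : ∀ᵐ x ∂un K, x ∈ K :=
  ProbabilityTheory.ae_cond_mem hK.1.measurableSet

theorem un_vol (hK : IsBody K) {S : Set (E n)} (hS : S ⊆ K) {a : ℝ} (h : a ≤ (un K).real S) :
    ENNReal.ofReal a * volume K ≤ volume S := by
  have := un_prob hK
  have h1 := (ENNReal.ofReal_le_iff_le_toReal (measure_ne_top _ _)).2 h
  rw [ProbabilityTheory.cond_apply hK.1.measurableSet, inter_eq_right.2 hS] at h1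
  refine (mul_le_mul_left h1 _).trans (le_of_eq ?_)
  rw [mul_right_comm, ENNReal.inv_mul_cancel (vol_ne_zero hK) hK.1.measure_ne_top, one_mul]

theorem un_pos (hK : IsBody K) {R : ℝ} (hR : Bd (un K) R) (v : E n) (hv : v ≠ 0) :
    0 < ∫ x, ⟪x, v⟫ ^ 2 ∂un K := by
  have := un_prob hK
  rw [integral_pos_iff_support_of_nonneg (f := fun x : E n => ⟪x, v⟫ ^ 2) (fun x => sq_nonneg _)
    (hR.int (by fun_prop))]
  have h1 : volume ((ℝ ∙ v)ᗮ : Set (E n)) = 0 := Measure.addHaar_submodule _ _ (by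
    rw [Ne, Submodule.orthogonal_eq_top_iff, Submodule.span_singleton_eq_bot]
    exact hv)
  have h2 : un K (Function.support fun x : E n => ⟪x, v⟫ ^ 2)ᶜ = 0 := by
    refine ProbabilityTheory.cond_absolutelyContinuous (measure_mono_null (fun x hx => ?_) h1)
    simp only [mem_compl_iff, Function.mem_support, not_not, pow_eq_zero_iff two_ne_zero] at hx
    exact Submodule.mem_orthogonal_singleton_iff_inner_left.2 hx
  by_contra hc
  have h3 := measure_union_le (μ := un K) (Function.support fun x : E n => ⟪x, v⟫ ^ 2)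
    (Function.support fun x : E n => ⟪x, v⟫ ^ 2)ᶜ
  rw [union_compl_self, measure_univ, h2, nonpos_iff_eq_zero.1 (not_lt.1 hc)] at h3
  simp at h3

theorem var_le (hn : 1 ≤ n) (hK : IsBody K) (h0 : ∀ a, ∫ x, ⟪x, a⟫ ∂un K = 0) {t : ℝ}
    (t1 : 1 ≤ t) (ht : (n : ℝ) ≤ t ^ 16) : (0 : E n) ∈ K ∧ ∀ v : E n, ∫ x, ⟪x, v⟫ ^ 2 ∂un K ≤
      (10 ^ 32 * t ^ 15 * ((volume K).toReal / (sigma (n - 1) K).toReal)) ^ 2 * ‖v‖ ^ 2 := by
  have := un_prob hK
  have t0 : 0 < t := by linarith
  obtain ⟨R, hR'⟩ := hK.1.isBounded.exists_norm_le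
  have hR : Bd (un K) R := (un_mem hK).mono hR'
  obtain ⟨M, hM⟩ := exists_iso hR (un_pos hK hR)
  set T := ContinuousLinearMap.adjoint (M : E n →L[ℝ] E n) with hT
  have hTM : ∀ x a, ⟪T x, a⟫ = ⟪x, M a⟫ := fun x a =>
    ContinuousLinearMap.adjoint_inner_left _ _ _
  have mT : Measurable T := T.continuous.measurable
  have inj : Function.Injective T := by
    refine (injective_iff_map_eq_zero T).2 fun x hx => ?_
    have := hTM x (M.symm x)
    rw [hx, inner_zero_left, M.apply_symm_apply] at this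
    exact inner_self_eq_zero.1 this.symm
  have surj : Function.Surjective T :=
    (LinearMap.injective_iff_surjective (f := (T : E n →ₗ[ℝ] E n))).1 inj
  have cT := (hK.1.image T.continuous).isClosed
  have : IsProbabilityMeasure ((un K).map T) := Measure.isProbabilityMeasure_map mT.aemeasurable
  have iso : Iso ((un K).map T) (T '' K) (‖T‖ * R) :=
    { lc := (lc_cond hK).map T
      bd := (ae_map_iff mT.aemeasurable
        (isClosed_le continuous_norm continuous_const).measurableSet).2 (hR.mono fun x hx =>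
          (T.le_opNorm x).trans (mul_le_mul_of_nonneg_left hx (norm_nonneg T)))
      mem := (ae_map_iff mT.aemeasurable cT.measurableSet).2
        ((un_mem hK).mono fun x hx => mem_image_of_mem T hx)
      cl := cT
      cv := hK.2.1.linear_image (T : E n →ₗ[ℝ] E n)
      m1 := fun a => by
        rw [integral_map mT.aemeasurable (Continuous.aestronglyMeasurable (by fun_prop))]
        simp only [hTM, h0]
      m2 := fun a => by
        rw [integral_map mT.aemeasurable (Continuous.aestronglyMeasurable (by fun_prop))]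
        simp only [hTM, hM] }
  have z0 : (0 : E n) ∈ K := by
    have := iso.zero_mem
    rwa [← map_zero T, inj.mem_set_image] at this
  refine ⟨z0, fun v => ?_⟩
  rcases eq_or_ne v 0 with rfl | v0
  · simp
  set a := M.symm v with ha
  have a0 : a ≠ 0 := by simpa [ha] using v0
  have a1 : 0 < ‖a‖ := norm_pos_iff.2 a0
  have a2 : M a = v := M.apply_symm_apply v
  obtain ⟨d, h1, h2⟩ := iso.dar (norm_smul_inv_norm (𝕜 := ℝ) a0) t1 ht
  obtain ⟨D, rfl⟩ := surj d
  set η := 2 / (5 * t) with hη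
  have η0 : 0 < η := by positivity
  have η1 : η ≤ 1 := by rw [hη, div_le_one (by positivity)]; linarith
  rw [hTM, map_smul, a2, inner_smul_right, RCLike.ofReal_real_eq_id, id, inv_mul_eq_div,
    div_le_iff₀ a1] at h1
  have mS : MeasurableSet {x | x ∈ T '' K ∧ (1 + η)⁻¹ • (x + T D) ∈ T '' K} :=
    (cT.inter (cT.preimage (f := fun x : E n => (1 + η)⁻¹ • (x + T D))
      (by fun_prop))).measurableSet
  rw [map_measureReal_apply mT mS] at h2
  have e : T ⁻¹' {x | x ∈ T '' K ∧ (1 + η)⁻¹ • (x + T D) ∈ T '' K} =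
      {x | x ∈ K ∧ (1 + η)⁻¹ • (x + D) ∈ K} := by
    ext x
    simp only [mem_preimage, mem_ofPred_eq, ← map_add, ← map_smul, inj.mem_set_image]
  rw [e] at h2
  have i0 : 0 < (1 + η)⁻¹ := by positivity
  have h3 := norm_le_of_part hn hK (L := 10 ^ 27 * t ^ 15) (M := t ^ 15) i0 ((1 + η)⁻¹ • D)
    ((1 + η)⁻¹ • D) (S := {x | x ∈ K ∧ (1 + η)⁻¹ • (x + D) ∈ K}) (fun x hx =>
      ⟨by rw [← smul_add]; exact hx.2, by
        rw [add_sub_cancel_right]
        exact hK.2.1.smul_mem_of_zero_mem z0 hx.1 ⟨i0.le, inv_le_one_of_one_le₀ (by linarith)⟩⟩)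
    (un_vol hK (fun x hx => hx.1) h2) (by
      have b1 : Real.exp (-η) ≤ (1 + η)⁻¹ := by
        rw [Real.exp_neg]
        exact inv_anti₀ (by linarith) (by linarith [Real.add_one_le_exp η])
      refine le_trans ?_ (pow_le_pow_left₀ (Real.exp_pos _).le b1 n)
      rw [← Real.exp_nat_mul, Real.exp_le_exp, mul_neg, neg_le_neg_iff, hη, mul_div_assoc',
        div_le_iff₀ (by positivity)]
      nlinarith [pow_pos t0 16])
  have V0 := vol_toReal_pos hK
  have σ0 := sigma_toReal_pos hn hK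
  rw [norm_smul, Real.norm_eq_abs, abs_of_pos i0] at h3
  have h4 : 1 / 2 ≤ (1 + η)⁻¹ := by rw [le_inv_comm₀ (by norm_num) (by linarith)]; linarith
  have h5 : ‖a‖ / 16000 ≤ ‖D‖ * ‖v‖ := by
    have := (abs_le.1 (abs_real_inner_le_norm D v)).1
    linarith
  have h6 : ‖D‖ ≤ 4 * (10 ^ 27 + 1) * t ^ 15 * ((volume K).toReal / (sigma (n - 1) K).toReal) := by
    rw [mul_div_assoc', le_div_iff₀ σ0]
    nlinarith [mul_le_mul_of_nonneg_right h4 (mul_nonneg (norm_nonneg D) σ0.le)]
  rw [← a2, hM, a2, ← mul_pow]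
  refine pow_le_pow_left₀ a1.le ?_ 2
  have h7 : 0 ≤ t ^ 15 * ((volume K).toReal / (sigma (n - 1) K).toReal) * ‖v‖ := by positivity
  nlinarith [mul_le_mul_of_nonneg_right h6 (norm_nonneg v)]

theorem good_centered (hn : 1 ≤ n) (hK : IsBody K) (h0 : ∀ a, ∫ x, ⟪x, a⟫ ∂un K = 0) {θ : ℝ}
    (θ1 : 1 ≤ θ) (hθ : (n : ℝ) ≤ θ ^ 64) : ∃ S ⊆ K, MeasurableSet S ∧
      ENNReal.ofReal (1 / 2) * volume K ≤ volume S ∧ ∀ v : E n, ‖v‖ = 1 → ∀ x,
        volume {t : ℝ | x + t • v ∈ S} ≤
          ENNReal.ofReal (10 ^ 20 * θ ^ 63 * ((volume K).toReal / (sigma (n - 1) K).toReal)) := by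
  have := un_prob hK
  have θ0 : 0 < θ := by linarith
  obtain ⟨z0, hv⟩ := var_le hn hK h0 (t := θ ^ 4) (one_le_pow₀ θ1) (by rwa [← pow_mul])
  have V0 := vol_toReal_pos hK
  have σ0 := sigma_toReal_pos hn hK
  have hd : ∀ x ∈ K, ‖x‖ ≤ 4 * θ ^ 64 * ((volume K).toReal / (sigma (n - 1) K).toReal) := by
    intro x hx
    have := diam_le hn hK hx z0
    rw [sub_zero] at this
    rw [mul_div_assoc', le_div_iff₀ σ0]
    nlinarith
  set W := (volume K).toReal / (sigma (n - 1) K).toReal with hW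
  have W0 : 0 < W := by positivity
  set ρ := 2 * 10 ^ 19 * θ ^ 62 * W with hρ
  have ρ0 : 0 < ρ := by positivity
  obtain ⟨a, a0, a1, a2⟩ := shell (lc_cond hK) ((un_mem hK).mono hd) (by positivity)
    (by positivity) hv ρ0 (le_of_eq (by rw [hρ]; ring))
  have mS : MeasurableSet {x : E n | a ≤ ‖x‖ ∧ ‖x‖ ≤ a + 2 * ρ} :=
    ((isClosed_le continuous_const continuous_norm).inter
      (isClosed_le continuous_norm continuous_const)).measurableSet
  refine ⟨K ∩ {x | a ≤ ‖x‖ ∧ ‖x‖ ≤ a + 2 * ρ}, inter_subset_left, hK.1.measurableSet.inter mS,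
    un_vol hK inter_subset_left (a2.trans (le_of_eq ?_)), fun v hv x => ?_⟩
  · refine measureReal_congr ?_
    filter_upwards [un_mem hK] with x hx
    exact propext ⟨fun h => ⟨hx, h⟩, fun h => h.2⟩
  · refine le_trans (measure_mono fun t ht => ht.2) ((shell_chord a0 (by linarith) v hv x).trans
      (ENNReal.ofReal_le_ofReal ?_))
    have b1 : θ ^ 62 ≤ θ ^ 64 := pow_le_pow_right₀ θ1 (by norm_num)
    have b2 : a + ρ ≤ 3 * 10 ^ 19 * (θ ^ 64 * W) := by
      nlinarith [mul_le_mul_of_nonneg_right b1 W0.le, mul_pos (pow_pos θ0 64) W0]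
    have b3 : (a + 2 * ρ) ^ 2 - a ^ 2 ≤ (5 * 10 ^ 19 * (θ ^ 63 * W)) ^ 2 := by
      have e1 : ρ * (θ ^ 64 * W) = 2 * 10 ^ 19 * (θ ^ 63 * W) ^ 2 := by rw [hρ]; ring
      nlinarith [mul_le_mul_of_nonneg_left b2 ρ0.le, sq_nonneg (θ ^ 63 * W)]
    have := Real.sqrt_le_iff.2 ⟨by positivity, b3⟩
    linarith

theorem good (hn : 1 ≤ n) (hK : IsBody K) {θ : ℝ} (θ1 : 1 ≤ θ) (hθ : (n : ℝ) ≤ θ ^ 64) :
    ∃ S ⊆ K, MeasurableSet S ∧
      ENNReal.ofReal (1 / 2) * volume K ≤ volume S ∧ ∀ v : E n, ‖v‖ = 1 → ∀ x,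
        volume {t : ℝ | x + t • v ∈ S} ≤
          ENNReal.ofReal (10 ^ 20 * θ ^ 63 * ((volume K).toReal / (sigma (n - 1) K).toReal)) := by
  have := un_prob hK
  obtain ⟨R, hR'⟩ := hK.1.isBounded.exists_norm_le
  have hR : Bd (un K) R := (un_mem hK).mono hR'
  set b := ∫ x, x ∂un K with hb
  have hK' : IsBody ((fun k => k + -b) '' K) := by
    refine ⟨hK.1.image (by fun_prop), ?_, ?_⟩
    · simpa only [add_comm] using hK.2.1.translate (-b)
    · have := (Homeomorph.addRight (-b)).image_interior K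
      simp only [Homeomorph.coe_addRight] at this
      rw [← this]
      exact hK.2.2.image _
  have e1 : volume ((fun k => k + -b) '' K) = volume K := by
    rw [image_add_right, measure_preimage_add_right]
  have e2 : sigma (n - 1) ((fun k => k + -b) '' K) = sigma (n - 1) K := by
    unfold sigma projVol
    refine iInf_congr fun L => iInf_congr fun _ => ?_
    simpa using vol_proj_affine L K zero_le_one (-b)
  obtain ⟨S, h1, h2, h3, h4⟩ := good_centered hn hK' (fun a => by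
    have e3 : ∫ x, ⟪x, a⟫ ∂un ((fun k => k + -b) '' K) = ∫ x, ⟪x + -b, a⟫ ∂un K := by
      simp only [un, ProbabilityTheory.cond, integral_smul_measure, e1]
      rw [(measurePreserving_add_right volume (-b)).setIntegral_image_emb
        (measurableEmbedding_addRight (-b))]
    have e4 : ∫ x, ⟪x, a⟫ ∂un K = ⟪b, a⟫ := by
      rw [hb, real_inner_comm, ← integral_inner (hR.int (f := fun x => x) continuous_id)]
      simp only [real_inner_comm]
    rw [e3]
    simp only [inner_add_left]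
    rw [integral_add (hR.int (by fun_prop)) (integrable_const _), e4]
    simp) θ1 hθ
  rw [e1] at h3
  rw [e1, e2] at h4
  refine ⟨(fun k => k + -b) ⁻¹' S, fun x hx => ?_, measurable_add_const _ h2, ?_, fun v hv x => ?_⟩
  · exact (add_left_injective (-b)).mem_set_image.1 (h1 hx)
  · rwa [measure_preimage_add_right]
  · simpa only [mem_preimage, add_right_comm] using h4 v hv (x + -b)

theorem poly (hn : 1 ≤ n) :
    ENNReal.ofReal (1 / (2 * 10 ^ 20) * (n : ℝ) ^ (-(63 / 64) : ℝ)) ≤ cst n (n - 1) := by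
  have n1 : (1 : ℝ) ≤ n := by exact_mod_cast hn
  have n0 : (0 : ℝ) < n := by linarith
  set θ := (n : ℝ) ^ (1 / 64 : ℝ) with hθ
  have θ1 : 1 ≤ θ := Real.one_le_rpow n1 (by norm_num)
  have θ2 : θ ^ 64 = n := by
    rw [hθ, ← Real.rpow_natCast, ← Real.rpow_mul n0.le]; norm_num
  have θ3 : (n : ℝ) ^ (-(63 / 64) : ℝ) = (θ ^ 63)⁻¹ := by
    rw [hθ, ← Real.rpow_natCast, ← Real.rpow_mul n0.le, ← Real.rpow_neg n0.le]; norm_num
  have := le_cst_of_good hn (a := 1 / 2) (β := 10 ^ 20 * θ ^ 63 / n) (by positivity) fun K hK => by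
    simpa only [div_mul_cancel₀ _ n0.ne', mul_div_assoc _ (volume K).toReal] using
      good hn hK θ1 θ2.ge
  rw [div_mul_cancel₀ _ n0.ne'] at this
  refine le_trans (le_of_eq ?_) this
  rw [θ3]
  congr 1
  field_simp

end Pool.Agent.Lib.MP_fedf83_gt.P
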