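import Pool.Agent.Lib.MP_fedf83_gt.TreeB

/-! The staircase cover of the corner simplex. -/

namespace Pool.Agent.Lib.MP_fedf83_gt.St

open MeasureTheory Set B Tr
open scoped InnerProductSpace ENNReal

variable {n l k : ℕ}

/-- the linear map of a square matrix -/
noncomputable def mlin (A : Matrix (Fin l) (Fin l) ℝ) : E l →ₗ[ℝ] E l :=
  Matrix.toLin (EuclideanSpace.basisFun (Fin l) ℝ).toBasis
    (EuclideanSpace.basisFun (Fin l) ℝ).toBasis A

theorem mlin_apply (A : Matrix (Fin l) (Fin l) ℝ) (y : E l) (i : Fin l) :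
    mlin A y i = ∑ j, A i j * y j := by
  simp [mlin, Matrix.toLin_apply, Matrix.mulVec, dotProduct, Pi.single_apply]

theorem vol_mlin (A : Matrix (Fin l) (Fin l) ℝ) (S : Set (E l)) :
    volume (mlin A '' S) = ENNReal.ofReal |A.det| * volume S := by
  rw [Measure.addHaar_image_linearMap, mlin, LinearMap.det_toLin]

theorem spx_pos : volume (spx l) ≠ 0 :=
  ((isOpen_interior.measure_pos volume spx_body.2.2).trans_le (measure_mono interior_subset)).ne'

theorem spx_fin : volume (spx l) ≠ ∞ := spx_body.1.measure_lt_top.ne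

theorem minor (hn : 0 < n) (B : Fin n → Fin l → ℝ)
    (h : ∀ i j, ∑ k, B k i * B k j = if i = j then 1 else 0) :
    ∃ f : Fin l → Fin n, 1 / √(n : ℝ) ^ l ≤ |(Matrix.of fun i j => B (f j) i).det| := by
  have : Nonempty (Fin n) := ⟨⟨0, hn⟩⟩
  obtain ⟨f, hf⟩ := Finite.exists_max fun f : Fin l → Fin n =>
    |(Matrix.of fun i j => B (f j) i).det|
  refine ⟨f, ?_⟩
  have n0 : (0 : ℝ) < n := by positivity
  have e : (1 : ℝ) = ∑ g : Fin l → Fin n,
      (∏ j, B (g j) j) * (Matrix.of fun i j => B (g j) i).det := by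
    have e1 : (Matrix.of fun i j => ∑ k, B k i * B k j) = (1 : Matrix (Fin l) (Fin l) ℝ) := by
      ext i j
      rw [Matrix.of_apply, h, Matrix.one_apply]
    rw [← Matrix.det_one (n := Fin l) (R := ℝ), ← e1]
    simp only [Matrix.det_apply', Matrix.of_apply, Finset.prod_univ_sum, Fintype.piFinset_univ,
      Finset.mul_sum]
    rw [Finset.sum_comm]
    refine Finset.sum_congr rfl fun g _ => Finset.sum_congr rfl fun σ _ => ?_
    rw [Finset.prod_mul_distrib]
    ring
  have c : ∀ j, ∑ k, |B k j| ≤ √(n : ℝ) := fun j => by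
    refine Real.le_sqrt_of_sq_le (sq_sum_le_card_mul_sum_sq.trans (le_of_eq ?_))
    have := h j j
    rw [if_pos rfl] at this
    simp only [sq, abs_mul_abs_self, this, Finset.card_univ, Fintype.card_fin, mul_one]
  rw [div_le_iff₀ (by positivity)]
  calc (1 : ℝ) = |∑ g : Fin l → Fin n,
        (∏ j, B (g j) j) * (Matrix.of fun i j => B (g j) i).det| := by rw [← e, abs_one]
    _ ≤ ∑ g : Fin l → Fin n, (∏ j, |B (g j) j|) * |(Matrix.of fun i j => B (f j) i).det| := by
        refine (Finset.abs_sum_le_sum_abs _ _).trans (Finset.sum_le_sum fun g _ => ?_)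
        rw [abs_mul, Finset.abs_prod]
        exact mul_le_mul_of_nonneg_left (hf g) (Finset.prod_nonneg fun _ _ => abs_nonneg _)
    _ = (∏ j, ∑ k, |B k j|) * |(Matrix.of fun i j => B (f j) i).det| := by
        rw [← Finset.sum_mul, Finset.prod_univ_sum, Fintype.piFinset_univ]
    _ ≤ √(n : ℝ) ^ l * |(Matrix.of fun i j => B (f j) i).det| := by
        refine mul_le_mul_of_nonneg_right ?_ (abs_nonneg _)
        refine (Finset.prod_le_prod (fun j _ => Finset.sum_nonneg fun _ _ => abs_nonneg _)
          fun j _ => c j).trans (le_of_eq ?_)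
        simp
    _ = _ := mul_comm _ _

theorem spx_sig (hn : 0 < n) :
    ENNReal.ofReal (1 / √(n : ℝ) ^ l) * volume (spx l) ≤ sigma l (spx n) := by
  refine le_sigma_frame _ _ fun U => ?_
  let b := EuclideanSpace.basisFun (Fin l) ℝ
  have hi : ∀ i j, ∑ k, U (b i) k * U (b j) k = if i = j then 1 else 0 := fun i j => by
    rw [← orthonormal_iff_ite.1 b.orthonormal i j, ← U.inner_map_map, PiLp.inner_apply]
    simp [mul_comm]
  obtain ⟨f, h⟩ := minor hn (fun k i => U (b i) k) hi
  calc _ ≤ ENNReal.ofReal |(Matrix.of fun i j => U (b i) (f j)).det| * volume (spx l) := by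
        gcongr
    _ = volume (mlin (Matrix.of fun i j => U (b i) (f j)) '' spx l) := (vol_mlin ..).symm
    _ ≤ _ := by
      refine measure_mono ?_
      rintro _ ⟨y, hy, rfl⟩
      refine ⟨∑ j, EuclideanSpace.single (f j) (y j), ⟨fun k => ?_, ?_⟩, ?_⟩
      · simp only [WithLp.ofLp_sum, Finset.sum_apply, PiLp.single_apply]
        refine Finset.sum_nonneg fun j _ => ?_
        split_ifs
        exacts [hy.1 j, le_rfl]
      · simp only [WithLp.ofLp_sum, Finset.sum_apply, PiLp.single_apply]
        rw [Finset.sum_comm]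
        simpa using hy.2
      · ext i
        rw [adj_apply, inner_sum, mlin_apply]
        refine Finset.sum_congr rfl fun j _ => ?_
        rw [EuclideanSpace.inner_single_right]
        simp [b, mul_comm]

/-- one step of the staircase -/
def cy (A : Finset (Fin n)) (g : Fin k → Fin n) (a d : ℝ) : Set (E n) :=
  {x | ‖x‖ ≤ 2 ∧ a ≤ ms A x ∧ (∀ r, 0 ≤ x (g r)) ∧ ms A x + ∑ r, x (g r) ≤ a + d}

theorem cy_body {A : Finset (Fin n)} {g : Fin k → Fin n} {a d : ℝ} (hA : A.Nonempty)
    (hg : Function.Injective g) (hd : ∀ r, g r ∉ A) (a0 : 0 ≤ a) (d0 : 0 < d) (h1 : a + d ≤ 1) :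
    IsBody (cy A g a d) := by
  have := @ms_cont n A
  refine ⟨(isCompact_closedBall 0 2).of_isClosed_subset ?_ fun t h =>
    mem_closedBall_zero_iff.2 h.1, ?_, ?_⟩
  · simp only [cy, ofPred_and, ofPred_forall]
    refine IsClosed.inter ?_ (IsClosed.inter ?_ (IsClosed.inter (isClosed_iInter fun r => ?_) ?_)) <;>
      exact isClosed_le (by fun_prop) (by fun_prop)
  · rintro x ⟨h0, h1, h2, h3⟩ y ⟨g0, g1, g2, g3⟩ s t hs ht hst
    refine ⟨mem_closedBall_zero_iff.1 (convex_closedBall 0 2 (mem_closedBall_zero_iff.2 h0)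
      (mem_closedBall_zero_iff.2 g0) hs ht hst), ?_, fun r =>
        add_nonneg (mul_nonneg hs (h2 r)) (mul_nonneg ht (g2 r)), ?_⟩
    · have e : a = s * a + t * a := by rw [← add_mul, hst, one_mul]
      rw [ms_lin]
      linarith [mul_le_mul_of_nonneg_left h1 hs, mul_le_mul_of_nonneg_left g1 ht]
    · have e : a + d = s * (a + d) + t * (a + d) := by rw [← add_mul, hst, one_mul]
      simp only [ms_lin, PiLp.add_apply, PiLp.smul_apply, smul_eq_mul, Finset.sum_add_distrib,
        ← Finset.mul_sum]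
      linarith [mul_le_mul_of_nonneg_left h3 hs, mul_le_mul_of_nonneg_left g3 ht]
  · have ho : IsOpen {x : E n | ‖x‖ < 2 ∧ a < ms A x ∧ (∀ r, 0 < x (g r)) ∧
        ms A x + ∑ r, x (g r) < a + d} := by
      simp only [ofPred_and, ofPred_forall]
      refine IsOpen.inter ?_ (IsOpen.inter ?_ (IsOpen.inter
        (isOpen_iInter_of_finite fun r => ?_) ?_)) <;>
        exact isOpen_lt (by fun_prop) (by fun_prop)
    have c0 : (0 : ℝ) < A.card := by exact_mod_cast hA.card_pos
    let G : Finset (Fin n) := Finset.univ.image g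
    have hG : G.card = k := by simp [G, Finset.card_image_of_injective _ hg]
    have hAG : Disjoint A G := Finset.disjoint_right.2 fun i hi => by
      obtain ⟨r, -, rfl⟩ := Finset.mem_image.1 hi
      exact hd r
    let x : E n := ((a + d / 3) / A.card) • ind A + (d / (3 * (k + 1))) • ind G
    have x1 : ms A x = a + d / 3 := by
      rw [ms_lin, ms_self, ms_disj hAG]
      field_simp
      ring
    have x2 : ∀ r, x (g r) = d / (3 * (k + 1)) := fun r => by
      simp [x, ind, hd r, G]
    have x3 : (k : ℝ) * (d / (3 * (k + 1))) < d / 3 := by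
      rw [← mul_div_assoc, div_lt_div_iff₀ (by positivity) (by positivity)]
      nlinarith
    have xs : x ∈ spx n := by
      refine ⟨fun i => ?_, ?_⟩
      · simp only [x, ind, PiLp.add_apply, PiLp.smul_apply, smul_eq_mul]
        split_ifs <;> positivity
      · have u : ∀ X : Finset (Fin n), ms Finset.univ (ind X) = X.card := fun X => by
          simp [ms, ind]
        change ms Finset.univ x ≤ 1
        rw [ms_lin, u, u, hG, div_mul_cancel₀ _ c0.ne']
        linarith
    refine ⟨x, interior_maximal (s := cy A g a d) ?_ ho ⟨?_, ?_, fun r => ?_, ?_⟩⟩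
    · exact fun x h => ⟨h.1.le, h.2.1.le, fun r => (h.2.2.1 r).le, h.2.2.2.le⟩
    · linarith [spx_norm xs]
    · linarith
    · rw [x2]
      positivity
    · simp only [x1, x2, Finset.sum_const, Finset.card_univ, Fintype.card_fin, nsmul_eq_mul]
      linarith

theorem cy_sigma {A : Finset (Fin n)} {g : Fin k → Fin n} {a d : ℝ} (hA : A.Nonempty)
    (hg : Function.Injective g) (hd : ∀ r, g r ∉ A) (d0 : 0 < d) :
    sigma (k + 1) (cy A g a d) ≤
      ENNReal.ofReal (d ^ (k + 1) / √(A.card : ℝ)) * volume (spx (k + 1)) := by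
  have c0 : (0 : ℝ) < A.card := by exact_mod_cast hA.card_pos
  obtain ⟨p, ep, p0, hp⟩ : ∃ p : ℝ, p = √(A.card : ℝ) ∧ 0 < p ∧ p * p = A.card :=
    ⟨_, rfl, by positivity, Real.mul_self_sqrt c0.le⟩
  rw [← ep]
  let u : E n := p⁻¹ • ind A
  have iu : ∀ x, ⟪u, x⟫_ℝ = ms A x / p := fun x => by
    rw [real_inner_smul_left, inner_ind, inv_mul_eq_div]
  let w : Fin k → E n := fun r => EuclideanSpace.single (g r) 1
  have iw : ∀ r x, ⟪w r, x⟫_ℝ = x (g r) := fun r x => by
    simp [w, EuclideanSpace.inner_single_left]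
  have ho : Orthonormal ℝ (Fin.cons u w : Fin (k + 1) → E n) := by
    have wu : ∀ r, ⟪w r, u⟫_ℝ = 0 := fun r => by simp [iw, u, ind, hd r]
    rw [orthonormal_iff_ite]
    intro i j
    refine Fin.cases ?_ (fun i => ?_) i <;> refine Fin.cases ?_ (fun j => ?_) j
    · rw [Fin.cons_zero, if_pos rfl, iu, ← inner_ind, real_inner_smul_right, inner_ind, ms_self,
        ← hp]
      field_simp
    · rw [Fin.cons_zero, Fin.cons_succ, if_neg (Fin.succ_ne_zero j).symm, real_inner_comm, wu]
    · rw [Fin.cons_zero, Fin.cons_succ, if_neg (Fin.succ_ne_zero i), wu]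
    · rw [Fin.cons_succ, Fin.cons_succ, iw]
      simp [w, PiLp.single_apply, hg.eq_iff]
  obtain ⟨U, hU⟩ := frame_ex ho
  refine (sigma_le_frame U _).trans ?_
  let D : Fin (k + 1) → ℝ := Fin.cons (d / p) fun _ => d
  calc _ ≤ volume ((fun z => z + EuclideanSpace.single (0 : Fin (k + 1)) (-(a / p))) ⁻¹'
        (mlin (Matrix.diagonal D) '' spx (k + 1))) := by
        refine measure_mono ?_
        rintro _ ⟨x, ⟨-, h1, h2, h3⟩, rfl⟩
        refine ⟨WithLp.toLp 2 (Fin.cons ((ms A x - a) / d) fun r => x (g r) / d), ⟨?_, ?_⟩, ?_⟩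
        · intro i
          refine Fin.cases ?_ (fun i => ?_) i
          · exact div_nonneg (sub_nonneg.2 h1) d0.le
          · exact div_nonneg (h2 i) d0.le
        · rw [Fin.sum_univ_succ]
          simp only [Fin.cons_zero, Fin.cons_succ]
          rw [← Finset.sum_div, ← add_div, div_le_one d0]
          linarith
        · ext i
          rw [PiLp.add_apply, hU, mlin_apply]
          simp only [Matrix.diagonal_apply, ite_mul, zero_mul, Finset.sum_ite_eq, Finset.mem_univ,
            if_true]
          refine Fin.cases ?_ (fun i => ?_) i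
          · simp only [D, Fin.cons_zero, iu, PiLp.single_apply, if_true]
            field_simp
            ring
          · simp only [D, Fin.cons_succ, iw, PiLp.single_apply, if_neg (Fin.succ_ne_zero i)]
            field_simp
            ring
    _ = _ := by
        rw [measure_preimage_add_right, vol_mlin, Matrix.det_diagonal, Fin.prod_univ_succ]
        simp only [D, Fin.cons_zero, Fin.cons_succ, Finset.prod_const, Finset.card_univ,
          Fintype.card_fin]
        rw [abs_of_pos (by positivity)]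
        congr 2
        ring

/-- the first `m` coordinates -/
def pre (n m : ℕ) : Finset (Fin n) := Finset.univ.filter fun i => i.1 < m

theorem pre_card {m : ℕ} (h : m ≤ n) : (pre n m).card = m := by
  rw [pre, Fin.card_filter_val_lt]
  omega

theorem pre_add {m : ℕ} (h : m + k ≤ n) (x : E n) :
    ms (pre n (m + k)) x = ms (pre n m) x + ∑ r : Fin k, x ⟨m + r, by omega⟩ := by
  have e : pre n (m + k) = pre n m ∪ Finset.univ.image fun r : Fin k =>
      (⟨m + r, by omega⟩ : Fin n) := by
    ext i
    simp only [pre, Finset.mem_filter, Finset.mem_univ, true_and, Finset.mem_union,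
      Finset.mem_image]
    refine ⟨fun hi => ?_, ?_⟩
    · by_cases c : i.1 < m
      · exact .inl c
      · exact .inr ⟨⟨i.1 - m, by omega⟩, Fin.ext (by simp; omega)⟩
    · rintro (c | ⟨r, rfl⟩)
      · omega
      · simp
  unfold ms
  rw [e, Finset.sum_union, Finset.sum_image]
  · intro r _ s _ c
    exact Fin.ext (by simpa using c)
  · refine Finset.disjoint_right.2 fun i hi => ?_
    obtain ⟨r, -, rfl⟩ := Finset.mem_image.1 hi
    simp [pre]

theorem sum_sqrt (M : ℕ) : ∑ j : Fin M, 1 / √((j : ℝ) + 1) ≤ 2 * √(M : ℝ) := by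
  induction M with
  | zero => simp
  | succ M ih =>
    rw [Fin.sum_univ_castSucc]
    simp only [Fin.val_castSucc, Fin.val_last, Nat.cast_succ]
    have a := Real.mul_self_sqrt (show (0 : ℝ) ≤ M by positivity)
    have b := Real.mul_self_sqrt (show (0 : ℝ) ≤ M + 1 by positivity)
    have p : 0 < √((M : ℝ) + 1) := by positivity
    have : 1 / √((M : ℝ) + 1) ≤ 2 * √((M : ℝ) + 1) - 2 * √(M : ℝ) := by
      rw [div_le_iff₀ p]
      nlinarith [sq_nonneg (√((M : ℝ) + 1) - √(M : ℝ))]
    linarith

theorem stair {M : ℕ} (hk : 0 < k) (hM : 0 < M) (h : (M + 1) * k ≤ n) :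
    cst n (k + 1) ≤ ENNReal.ofReal (2 * √(M : ℝ) * (√(n : ℝ) / M) ^ (k + 1)) := by
  have M0 : (0 : ℝ) < M := by positivity
  have hn : 0 < n := lt_of_lt_of_le (by positivity) h
  have n0 : (0 : ℝ) < n := by positivity
  have b : ∀ j, j < M → (j + 1) * k + k ≤ n := fun j hj => by nlinarith
  let g : Fin M → Fin k → Fin n := fun j r => ⟨(j + 1) * k + r, by have := b j j.2; omega⟩
  have hg : ∀ j, Function.Injective (g j) := fun j r s c => Fin.ext (by simpa [g] using c)
  have hd : ∀ (j : Fin M) r, g j r ∉ pre n ((j + 1) * k) := fun j r => by simp [g, pre]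
  have hc : ∀ j : Fin M, (pre n ((j + 1) * k)).card = (j + 1) * k := fun j =>
    pre_card (by have := b j j.2; omega)
  have hA : ∀ j : Fin M, (pre n ((j + 1) * k)).Nonempty := fun j =>
    Finset.card_pos.1 (by rw [hc]; positivity)
  refine (cst_le_of_cover spx_body
    (fun j : Fin M => cy (pre n ((j + 1) * k)) (g j) (j / M) (1 / M))
    (fun j => cy_body (hA j) (hg j) (hd j) (by positivity) (by positivity) ?_)
    fun t ht => ?_).trans ?_
  · rw [← add_div, div_le_one M0]
    exact_mod_cast j.2
  · by_contra c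
    have st : ∀ j, j < M → (j : ℝ) / M ≤ ms (pre n ((j + 1) * k)) t →
        ((j + 1 : ℕ) : ℝ) / M < ms (pre n ((j + 1 + 1) * k)) t := fun j hj h0 => by
      by_contra! h1
      refine c (mem_iUnion.2 ⟨⟨j, hj⟩, by linarith [spx_norm ht], h0, fun r => ht.1 _, ?_⟩)
      rw [add_mul (j + 1) 1 k, one_mul, pre_add (b j hj), Nat.cast_succ, add_div] at h1
      exact h1
    have all : ∀ j, j < M → ((j + 1 : ℕ) : ℝ) / M < ms (pre n ((j + 1 + 1) * k)) t := by
      intro j
      induction j with
      | zero =>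
        refine fun hj => st 0 hj ?_
        rw [Nat.cast_zero, zero_div]
        exact Finset.sum_nonneg fun i _ => ht.1 i
      | succ j ih => exact fun hj => st _ hj (ih (by omega)).le
    have e := all (M - 1) (by omega)
    rw [Nat.sub_add_cancel hM, div_self M0.ne'] at e
    have : ms (pre n ((M + 1) * k)) t ≤ ∑ i, t i :=
      Finset.sum_le_sum_of_subset_of_nonneg (Finset.subset_univ _) fun i _ _ => ht.1 i
    linarith [ht.2]
  · have s : ∑' j : Fin M, sigma (k + 1) (cy (pre n ((j + 1) * k)) (g j) (j / M) (1 / M)) ≤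
        ENNReal.ofReal (2 * √(M : ℝ) * (1 / M) ^ (k + 1)) * volume (spx (k + 1)) := by
      rw [tsum_fintype]
      refine (Finset.sum_le_sum fun j _ => cy_sigma (hA j) (hg j) (hd j) (by positivity)).trans ?_
      rw [← Finset.sum_mul, ← ENNReal.ofReal_sum_of_nonneg fun _ _ => by positivity]
      gcongr
      refine le_trans (Finset.sum_le_sum fun j _ => ?_) ((Finset.sum_mul ..).ge.trans
        (mul_le_mul_of_nonneg_right (sum_sqrt M) (by positivity)))
      rw [hc, one_div_mul_eq_div]
      gcongr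
      push_cast
      have : (1 : ℝ) ≤ k := by exact_mod_cast hk
      nlinarith [show (0 : ℝ) ≤ j by positivity]
    refine (ENNReal.div_le_div s (spx_sig hn)).trans ?_
    rw [ENNReal.mul_div_mul_right _ _ spx_pos spx_fin,
      ← ENNReal.ofReal_div_of_pos (by positivity)]
    refine ENNReal.ofReal_le_ofReal (le_of_eq ?_)
    rw [div_pow, div_pow, one_pow]
    field_simp

end Pool.Agent.Lib.MP_fedf83_gt.St
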