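import Pool.Agent.Lib.MP_fedf83_gt.Stair
import Pool.Agent.Lib.MP_fedf83_gt.Final

/-! The power bound that is uniform in the dimension of the projections. -/

namespace Pool.Agent.Lib.MP_fedf83_gt.St

open MeasureTheory Set B Tr
open scoped ENNReal

theorem small {n l k : ℕ} (hk : 1 ≤ k) (hl : k + 1 ≤ l) (h : (2 * l) ^ 4 ≤ n) :
    cst n l ≤ ENNReal.ofReal (2 * (4 * k + 4) ^ (2 * k + 2) / √(n : ℝ) ^ k) := by
  obtain ⟨q, rfl⟩ : ∃ q, l = q + 1 := ⟨l - 1, by omega⟩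
  have h4 : 16 * (q + 1) ≤ n := by
    refine le_trans ?_ h
    rw [mul_pow]
    exact Nat.mul_le_mul (by norm_num) (Nat.le_self_pow (by norm_num) _)
  obtain ⟨M, hM, h1, h2⟩ : ∃ M, 0 < M ∧ (M + 1) * q ≤ n ∧ n ≤ 2 * (q + 1) * M := by
    have a := Nat.div_mul_le_self n (q + 1)
    have b := Nat.lt_mul_div_succ n (show 0 < q + 1 by omega)
    have c : 16 ≤ n / (q + 1) := (Nat.le_div_iff_mul_le (by omega)).2 h4
    obtain ⟨M, e⟩ : ∃ M, n / (q + 1) = M + 1 := ⟨n / (q + 1) - 1, by omega⟩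
    rw [e] at a b c
    exact ⟨M, by omega, by nlinarith, by nlinarith⟩
  refine (stair (by omega) hM h1).trans (ENNReal.ofReal_le_ofReal ?_)
  have n0 : (0 : ℝ) < n := by exact_mod_cast (by omega : 0 < n)
  have M0 : (0 : ℝ) < M := by positivity
  have Mn : √(M : ℝ) ≤ √(n : ℝ) := Real.sqrt_le_sqrt (by exact_mod_cast (by nlinarith : M ≤ n))
  have ss := Real.mul_self_sqrt n0.le
  have s4 : (2 * (q + 1) : ℝ) ^ 2 ≤ √(n : ℝ) := by
    refine Real.le_sqrt_of_sq_le ?_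
    rw [← pow_mul]
    exact_mod_cast h
  have s0 : 0 < √(n : ℝ) := by positivity
  have h2' : (n : ℝ) ≤ 2 * (q + 1) * M := by exact_mod_cast h2
  generalize √(n : ℝ) = s at *
  have a : s / M ≤ 2 * (q + 1) / s := by
    rw [div_le_div_iff₀ M0 s0]
    linarith
  obtain ⟨r, rfl⟩ : ∃ r, q = k + r := ⟨q - k, by omega⟩
  have L1 : (1 : ℝ) ≤ 2 * ((k + r : ℕ) + 1) := by
    linarith [show (0 : ℝ) ≤ (k + r : ℕ) by positivity]
  have b : (2 * ((k + r : ℕ) + 1) : ℝ) ^ (k + r + 1) ≤ (4 * k + 4) ^ (2 * k + 2) * s ^ r := by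
    have k1 : (1 : ℝ) ≤ 4 * k + 4 := by linarith [show (0 : ℝ) ≤ k by positivity]
    have s1 : 1 ≤ s := (one_le_pow₀ L1).trans s4
    rcases le_total r (k + 1) with c | c
    · refine le_trans ?_ (le_mul_of_one_le_right (by positivity) (one_le_pow₀ s1))
      refine (pow_le_pow_left₀ (by positivity) (b := (4 * k + 4 : ℝ)) ?_ _).trans
        (pow_le_pow_right₀ k1 (by omega))
      have : (r : ℝ) ≤ k + 1 := by exact_mod_cast c
      push_cast
      linarith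
    · refine le_trans ?_ (le_mul_of_one_le_left (by positivity) (one_le_pow₀ k1))
      refine (pow_le_pow_right₀ L1 (show k + r + 1 ≤ 2 * r by omega)).trans ?_
      rw [pow_mul]
      exact pow_le_pow_left₀ (by positivity) s4 _
  calc _ ≤ 2 * s * (2 * ((k + r : ℕ) + 1) / s) ^ (k + r + 1) := by gcongr
    _ = 2 * (2 * ((k + r : ℕ) + 1)) ^ (k + r + 1) / (s ^ r * s ^ k) := by
        rw [div_pow]
        field_simp
        ring
    _ ≤ 2 * ((4 * k + 4) ^ (2 * k + 2) * s ^ r) / (s ^ r * s ^ k) := by gcongr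
    _ = _ := by field_simp

theorem power (k : ℕ) (hk : 1 ≤ k) : ∃ C : ℝ, ∀ n l : ℕ, k + 1 ≤ l → l + k ≤ n →
    cst n l ≤ ENNReal.ofReal (C / √(n : ℝ) ^ k) := by
  refine ⟨2 * (4 * k + 4) ^ (2 * k + 2) + (648 ^ 4 * (4 * k) ^ 2 * 4) ^ k +
    (648 * √(5 * k : ℝ)) ^ k, fun n l h1 h2 => ?_⟩
  have n0 : (0 : ℝ) < n := by exact_mod_cast (by omega : 0 < n)
  have l0 : (0 : ℝ) < l := by exact_mod_cast (by omega : 0 < l)
  have k0 : (0 : ℝ) < k := by positivity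
  have s0 : 0 < √(n : ℝ) := by positivity
  have p1 : (0 : ℝ) ≤ 2 * (4 * k + 4) ^ (2 * k + 2) := by positivity
  have p2 : (0 : ℝ) ≤ (648 ^ 4 * (4 * k) ^ 2 * 4) ^ k := by positivity
  have p3 : (0 : ℝ) ≤ (648 * √(5 * k : ℝ)) ^ k := by positivity
  rcases le_total ((2 * l) ^ 4) n with h | h
  · refine (small hk h1 h).trans (ENNReal.ofReal_le_ofReal ?_)
    gcongr
    linarith
  rcases le_total (l + 4 * k) n with g | g
  · refine (upper n l (4 * k) (by omega) (by omega) g).trans (ENNReal.ofReal_le_ofReal ?_)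
    refine le_trans (b := (648 ^ 4 * (4 * k) ^ 2 * 4) ^ k / √(n : ℝ) ^ k) ?_ (by gcongr; linarith)
    rw [pow_mul, ← div_pow]
    refine pow_le_pow_left₀ (by positivity) ?_ _
    have a : √(n : ℝ) ≤ (2 * l) ^ 2 := by
      rw [Real.sqrt_le_left (by positivity), ← pow_mul]
      exact_mod_cast h
    rw [mul_pow, show √(((4 * k : ℕ) : ℝ) / l) ^ 4 = (√(((4 * k : ℕ) : ℝ) / l) ^ 2) ^ 2 by ring,
      Real.sq_sqrt (by positivity), le_div_iff₀ s0]
    push_cast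
    calc _ ≤ 648 ^ 4 * (4 * k / l : ℝ) ^ 2 * (2 * l) ^ 2 := by gcongr
      _ = _ := by
        field_simp
        ring
  · refine (upper n l k (by omega) hk h2).trans (ENNReal.ofReal_le_ofReal ?_)
    refine le_trans (b := (648 * √(5 * k : ℝ)) ^ k / √(n : ℝ) ^ k) ?_ (by gcongr; linarith)
    rw [← div_pow]
    refine pow_le_pow_left₀ (by positivity) ?_ _
    rw [mul_div_assoc, ← Real.sqrt_div (by positivity)]
    gcongr 648 * √?_
    have : (n : ℝ) ≤ 5 * l := by exact_mod_cast (by omega : n ≤ 5 * l)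
    rw [div_le_div_iff₀ l0 n0]
    nlinarith

theorem power' (k : ℕ) (hk : 1 ≤ k) : ∃ C : ℝ, ∀ n l : ℕ, k + 1 ≤ l → l + k ≤ n →
    c n l ≤ ENNReal.ofReal (C * (n : ℝ) ^ (-(k : ℝ) / 2)) := by
  obtain ⟨C, h⟩ := power k hk
  refine ⟨C, fun n l h1 h2 => (h n l h1 h2).trans (le_of_eq ?_)⟩
  have n0 : (0 : ℝ) ≤ n := by positivity
  rw [neg_div, Real.rpow_neg n0, Real.sqrt_eq_rpow, ← Real.rpow_natCast, ← Real.rpow_mul n0,
    div_eq_mul_inv]
  congr 4
  ring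

end Pool.Agent.Lib.MP_fedf83_gt.St
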