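import Pool.Agent.Lib.MP_fedf83_gt.BSucc

/-! Frames, the standard triangle, the corner simplex. -/

namespace Pool.Agent.Lib.MP_fedf83_gt.Tr

open MeasureTheory Set B
open scoped InnerProductSpace ENNReal

variable {n l : ℕ}

theorem frame_ex {v : Fin l → E n} (hv : Orthonormal ℝ v) :
    ∃ U : E l →ₗᵢ[ℝ] E n, ∀ x i, LinearMap.adjoint U.toLinearMap x i = ⟪v i, x⟫_ℝ := by
  let b := EuclideanSpace.basisFun (Fin l) ℝ
  let f : E l →ₗ[ℝ] E n := b.toBasis.constr ℝ v
  have hf : f ∘ b.toBasis = v := funext fun i => b.toBasis.constr_basis ℝ v i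
  refine ⟨f.isometryOfOrthonormal (v := b.toBasis) b.orthonormal (hf ▸ hv), fun x i => ?_⟩
  rw [← congrFun hf i, ← EuclideanSpace.basisFun_inner, LinearMap.adjoint_inner_right]
  rfl

theorem adj_apply (U : E l →ₗᵢ[ℝ] E n) (x : E n) (i : Fin l) :
    LinearMap.adjoint U.toLinearMap x i = ⟪U (EuclideanSpace.basisFun (Fin l) ℝ i), x⟫_ℝ := by
  rw [← EuclideanSpace.basisFun_inner, LinearMap.adjoint_inner_right]
  rfl

/-- the standard triangle -/
def tri : Set (E 2) := {y | 0 ≤ y 0 ∧ 0 ≤ y 1 ∧ y 0 + y 1 ≤ 1}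

theorem tri_pos : volume tri ≠ 0 := by
  have ho : IsOpen {y : E 2 | 0 < y 0 ∧ 0 < y 1 ∧ y 0 + y 1 < 1} := by
    simp only [ofPred_and]
    refine IsOpen.inter ?_ (IsOpen.inter ?_ ?_) <;> exact isOpen_lt (by fun_prop) (by fun_prop)
  have hs : {y : E 2 | 0 < y 0 ∧ 0 < y 1 ∧ y 0 + y 1 < 1} ⊆ tri :=
    fun y h => ⟨h.1.le, h.2.1.le, h.2.2.le⟩
  refine ((ho.measure_pos volume ⟨WithLp.toLp 2 fun _ => 1 / 4, ?_⟩).trans_le
    (measure_mono hs)).ne'
  norm_num

theorem tri_fin : volume tri ≠ ∞ := by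
  refine ((measure_mono (t := Metric.closedBall 0 1) fun y h => ?_).trans_lt
    measure_closedBall_lt_top).ne
  rw [mem_closedBall_zero_iff, ← sq_le_one_iff₀ (norm_nonneg y), EuclideanSpace.real_norm_sq_eq,
    Fin.sum_univ_two]
  obtain ⟨h0, h1, h2⟩ := h
  nlinarith [mul_nonneg h0 h1]

/-- the linear map of a two by two matrix -/
noncomputable def lin (a b c d : ℝ) : E 2 →ₗ[ℝ] E 2 :=
  Matrix.toLin (EuclideanSpace.basisFun (Fin 2) ℝ).toBasis
    (EuclideanSpace.basisFun (Fin 2) ℝ).toBasis !![a, b; c, d]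

theorem lin0 (a b c d : ℝ) (y : E 2) : lin a b c d y 0 = a * y 0 + b * y 1 := by
  simp [lin, Matrix.toLin_apply, Matrix.mulVec, dotProduct, Fin.sum_univ_two]

theorem lin1 (a b c d : ℝ) (y : E 2) : lin a b c d y 1 = c * y 0 + d * y 1 := by
  simp [lin, Matrix.toLin_apply, Matrix.mulVec, dotProduct, Fin.sum_univ_two]

theorem vol_lin (a b c d : ℝ) :
    volume (lin a b c d '' tri) = ENNReal.ofReal |a * d - b * c| * volume tri := by
  rw [Measure.addHaar_image_linearMap, lin, LinearMap.det_toLin, Matrix.det_fin_two_of]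

/-- the corner simplex -/
def spx (n : ℕ) : Set (E n) := {t | (∀ i, 0 ≤ t i) ∧ ∑ i, t i ≤ 1}

theorem spx_norm {t : E n} (h : t ∈ spx n) : ‖t‖ ≤ 1 := by
  rw [← sq_le_one_iff₀ (norm_nonneg t), EuclideanSpace.real_norm_sq_eq]
  refine (Finset.sum_le_sum fun i _ => ?_).trans h.2
  have := (Finset.single_le_sum (fun j _ => h.1 j) (Finset.mem_univ i)).trans h.2
  nlinarith [h.1 i]

theorem spx_body : IsBody (spx n) := by
  have hc : IsClosed (spx n) := by
    simp only [spx, ofPred_and, ofPred_forall]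
    exact (isClosed_iInter fun i => isClosed_le (by fun_prop) (by fun_prop)).inter
      (isClosed_le (by fun_prop) (by fun_prop))
  refine ⟨(isCompact_closedBall 0 1).of_isClosed_subset hc fun t h =>
    mem_closedBall_zero_iff.2 (spx_norm h), ?_, ?_⟩
  · intro x hx y hy a b ha hb hab
    refine ⟨fun i => add_nonneg (mul_nonneg ha (hx.1 i)) (mul_nonneg hb (hy.1 i)), ?_⟩
    simp only [PiLp.add_apply, PiLp.smul_apply, smul_eq_mul, Finset.sum_add_distrib,
      ← Finset.mul_sum]
    nlinarith [mul_le_mul_of_nonneg_left hx.2 ha, mul_le_mul_of_nonneg_left hy.2 hb]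
  · have ho : IsOpen {t : E n | (∀ i, 0 < t i) ∧ ∑ i, t i < 1} := by
      simp only [ofPred_and, ofPred_forall]
      exact (isOpen_iInter_of_finite fun i => isOpen_lt (by fun_prop) (by fun_prop)).inter
        (isOpen_lt (by fun_prop) (by fun_prop))
    have hs : {t : E n | (∀ i, 0 < t i) ∧ ∑ i, t i < 1} ⊆ spx n :=
      fun t h => ⟨fun i => (h.1 i).le, h.2.le⟩
    refine ⟨WithLp.toLp 2 fun _ => 1 / ((n : ℝ) + 1), interior_maximal hs ho
      ⟨fun _ => by positivity, ?_⟩⟩
    simp only [Finset.sum_const, Finset.card_univ, Fintype.card_fin, nsmul_eq_mul]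
    rw [mul_one_div, div_lt_one (by positivity)]
    linarith

theorem lagr (u v : Fin n → ℝ) (hu : ∑ i, u i * u i = 1) (hv : ∑ i, v i * v i = 1)
    (h : ∑ i, u i * v i = 0) : ∃ i j, 1.414 / (n : ℝ) ≤ |u i * v j - u j * v i| := by
  by_contra! c
  have e : ∑ i, ∑ j, (u i * v j - u j * v i) ^ 2 = 2 := by
    have : ∀ i j, (u i * v j - u j * v i) ^ 2 =
        u i * u i * (v j * v j) + v i * v i * (u j * u j) - 2 * (u i * v i) * (u j * v j) :=
      fun i j => by ring
    simp only [this, Finset.sum_sub_distrib, Finset.sum_add_distrib, ← Finset.mul_sum, hu, hv, h,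
      mul_one, mul_zero]
    norm_num
  have k : ∑ i, ∑ j, (u i * v j - u j * v i) ^ 2 ≤ ∑ _i : Fin n, ∑ _j : Fin n,
      (1.414 / (n : ℝ)) ^ 2 := Finset.sum_le_sum fun i _ => Finset.sum_le_sum fun j _ => by
    rw [← sq_abs]
    exact pow_le_pow_left₀ (abs_nonneg _) (c i j).le 2
  simp only [Finset.sum_const, Finset.card_univ, Fintype.card_fin, nsmul_eq_mul] at k
  rcases Nat.eq_zero_or_pos n with rfl | hn
  · simp at hu
  · have : (0 : ℝ) < n := by positivity
    rw [e, show (n : ℝ) * (n * (1.414 / n) ^ 2) = 1.414 ^ 2 by field_simp] at k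
    norm_num at k

theorem spx_sigma : ENNReal.ofReal (1.414 / n) * volume tri ≤ sigma 2 (spx n) := by
  refine le_sigma_frame _ _ fun U => ?_
  let b := EuclideanSpace.basisFun (Fin 2) ℝ
  have hi : ∀ i j, ∑ k, U (b i) k * U (b j) k = if i = j then 1 else 0 := fun i j => by
    rw [← orthonormal_iff_ite.1 b.orthonormal i j, ← U.inner_map_map, PiLp.inner_apply]
    simp [mul_comm]
  obtain ⟨i, j, h⟩ := lagr (fun k => U (b 0) k) (fun k => U (b 1) k) (hi 0 0) (hi 1 1) (hi 0 1)
  calc _ ≤ ENNReal.ofReal |U (b 0) i * U (b 1) j - U (b 0) j * U (b 1) i| * volume tri := by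
        gcongr
    _ = volume (lin (U (b 0) i) (U (b 0) j) (U (b 1) i) (U (b 1) j) '' tri) := (vol_lin ..).symm
    _ ≤ _ := by
      refine measure_mono ?_
      rintro _ ⟨y, hy, rfl⟩
      refine ⟨EuclideanSpace.single i (y 0) + EuclideanSpace.single j (y 1), ⟨fun k => ?_, ?_⟩, ?_⟩
      · have := hy.1
        have := hy.2.1
        simp only [PiLp.add_apply, PiLp.single_apply]
        split_ifs <;> positivity
      · simpa [Finset.sum_add_distrib, PiLp.single_apply] using hy.2.2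
      · ext k
        rw [adj_apply, inner_add_right, EuclideanSpace.inner_single_right,
          EuclideanSpace.inner_single_right]
        fin_cases k
        · simp [lin0, b, mul_comm]
        · simp [lin1, b, mul_comm]

end Pool.Agent.Lib.MP_fedf83_gt.Tr
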