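import Pool.Agent.Lib.MP_fedf83_gt.TreeA

/-! The cylinders of a ternary tree on the coordinates cover the simplex. -/

namespace Pool.Agent.Lib.MP_fedf83_gt.Tr

open MeasureTheory Set B
open scoped InnerProductSpace ENNReal

variable {n : ℕ} {A B C : Finset (Fin n)} {D : ℝ}

/-- the indicator vector -/
def ind (A : Finset (Fin n)) : E n := WithLp.toLp 2 fun i => if i ∈ A then 1 else 0

/-- the mass on a set of coordinates -/
def ms (A : Finset (Fin n)) (x : E n) : ℝ := ∑ i ∈ A, x i

theorem inner_ind (A : Finset (Fin n)) (x : E n) : ⟪ind A, x⟫_ℝ = ms A x := by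
  simp [PiLp.inner_apply, ind, ms]

theorem ms_self : ms A (ind A) = A.card := by
  have : ms A (ind A) = ∑ _i ∈ A, (1 : ℝ) := Finset.sum_congr rfl fun i hi => if_pos hi
  simp [this]

theorem ms_disj (h : Disjoint A B) : ms A (ind B) = 0 :=
  Finset.sum_eq_zero fun _ hi => if_neg (Finset.disjoint_left.1 h hi)

theorem ms_cont : Continuous (ms A) := by
  unfold ms
  fun_prop

theorem ms_lin (a b : ℝ) (x y : E n) : ms A (a • x + b • y) = a * ms A x + b * ms A y := by
  simp [ms, Finset.sum_add_distrib, Finset.mul_sum]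

/-- no part is much lighter than the mean -/
def cyl (A B C : Finset (Fin n)) (D : ℝ) : Set (E n) :=
  {x | ‖x‖ ≤ 1 ∧ ms A x + ms B x + ms C x ≤ 3 * ms A x + D ∧
    ms A x + ms B x + ms C x ≤ 3 * ms B x + D ∧ ms A x + ms B x + ms C x ≤ 3 * ms C x + D}

theorem cyl_body (hD : 0 < D) : IsBody (cyl A B C D) := by
  have := @ms_cont n A
  have := @ms_cont n B
  have := @ms_cont n C
  refine ⟨(isCompact_closedBall 0 1).of_isClosed_subset ?_ fun t h =>
    mem_closedBall_zero_iff.2 h.1, ?_, ?_⟩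
  · simp only [cyl, ofPred_and]
    refine IsClosed.inter ?_ (IsClosed.inter ?_ (IsClosed.inter ?_ ?_)) <;>
      exact isClosed_le (by fun_prop) (by fun_prop)
  · rintro x ⟨h0, h1, h2, h3⟩ y ⟨g0, g1, g2, g3⟩ a b ha hb hab
    have e : D = a * D + b * D := by rw [← add_mul, hab, one_mul]
    refine ⟨mem_closedBall_zero_iff.1 (convex_closedBall 0 1 (mem_closedBall_zero_iff.2 h0)
      (mem_closedBall_zero_iff.2 g0) ha hb hab), ?_, ?_, ?_⟩ <;> simp only [ms_lin]
    · linarith [mul_le_mul_of_nonneg_left h1 ha, mul_le_mul_of_nonneg_left g1 hb]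
    · linarith [mul_le_mul_of_nonneg_left h2 ha, mul_le_mul_of_nonneg_left g2 hb]
    · linarith [mul_le_mul_of_nonneg_left h3 ha, mul_le_mul_of_nonneg_left g3 hb]
  · have ho : IsOpen {x : E n | ‖x‖ < 1 ∧ ms A x + ms B x + ms C x < 3 * ms A x + D ∧
        ms A x + ms B x + ms C x < 3 * ms B x + D ∧
          ms A x + ms B x + ms C x < 3 * ms C x + D} := by
      simp only [ofPred_and]
      refine IsOpen.inter ?_ (IsOpen.inter ?_ (IsOpen.inter ?_ ?_)) <;>
        exact isOpen_lt (by fun_prop) (by fun_prop)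
    refine ⟨0, interior_maximal (s := cyl A B C D) ?_ ho (by simp [ms, hD])⟩
    exact fun x h => ⟨h.1.le, h.2.1.le, h.2.2.1.le, h.2.2.2.le⟩

theorem cyl_sigma {m : ℕ} (hm : 0 < m) (hA : A.card = m) (hB : B.card = m) (hC : C.card = m)
    (hAB : Disjoint A B) (hAC : Disjoint A C) (hBC : Disjoint B C) (hD : 0 < D) :
    sigma 2 (cyl A B C D) ≤ ENNReal.ofReal (6 * D ^ 2 / (3.46 * m)) * volume tri := by
  have m0 : (0 : ℝ) < m := by positivity
  obtain ⟨p, p0, hp⟩ : ∃ p : ℝ, 0 < p ∧ p * p = 2 * m :=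
    ⟨√(2 * m), by positivity, Real.mul_self_sqrt (by positivity)⟩
  obtain ⟨q, q0, hq⟩ : ∃ q : ℝ, 0 < q ∧ q * q = 6 * m :=
    ⟨√(6 * m), by positivity, Real.mul_self_sqrt (by positivity)⟩
  have hpq : 3.46 * m ≤ p * q := by
    refine (mul_self_le_mul_self_iff (by positivity) (by positivity)).2 ?_
    rw [mul_mul_mul_comm p q p q, hp, hq]
    nlinarith [mul_pos m0 m0]
  let u : E n := p⁻¹ • (ind A - ind B)
  let v : E n := q⁻¹ • (ind A + ind B - (2 : ℝ) • ind C)
  have iu : ∀ x, ⟪u, x⟫_ℝ = (ms A x - ms B x) / p := fun x => by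
    rw [real_inner_smul_left, inner_sub_left, inner_ind, inner_ind, inv_mul_eq_div]
  have iv : ∀ x, ⟪v, x⟫_ℝ = (ms A x + ms B x - 2 * ms C x) / q := fun x => by
    rw [real_inner_smul_left, inner_sub_left, inner_add_left, real_inner_smul_left, inner_ind,
      inner_ind, inner_ind, inv_mul_eq_div]
  have mu : ∀ X, ms X u = (ms X (ind A) - ms X (ind B)) / p := fun X => by
    rw [← inner_ind, real_inner_smul_right, inner_sub_right, inner_ind, inner_ind,
      inv_mul_eq_div]
  have mv : ∀ X, ms X v = (ms X (ind A) + ms X (ind B) - 2 * ms X (ind C)) / q := fun X => by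
    rw [← inner_ind, real_inner_smul_right, inner_sub_right, inner_add_right,
      real_inner_smul_right, inner_ind, inner_ind, inner_ind, inv_mul_eq_div]
  have ho : Orthonormal ℝ ![u, v] := by
    have uu : ⟪u, u⟫_ℝ = 1 := by
      rw [iu, mu, mu, ms_self, ms_self, ms_disj hAB, ms_disj hAB.symm, hA, hB]
      field_simp
      nlinarith
    have vv : ⟪v, v⟫_ℝ = 1 := by
      rw [iv, mv, mv, mv, ms_self, ms_self, ms_self, ms_disj hAB, ms_disj hAB.symm, ms_disj hAC,
        ms_disj hAC.symm, ms_disj hBC, ms_disj hBC.symm, hA, hB, hC]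
      field_simp
      nlinarith
    have uv : ⟪u, v⟫_ℝ = 0 := by
      rw [iu, mv, mv, ms_self, ms_self, ms_disj hAB, ms_disj hAB.symm, ms_disj hAC, ms_disj hBC,
        hA, hB]
      simp
    rw [orthonormal_iff_ite]
    intro i j
    fin_cases i <;> fin_cases j
    · exact uu
    · exact uv
    · exact (real_inner_comm _ _).trans uv
    · exact vv
  obtain ⟨U, hU⟩ := frame_ex ho
  refine (sigma_le_frame U _).trans ?_
  calc _ ≤ volume ((fun z => z + EuclideanSpace.single (1 : Fin 2) (2 * D / q)) ⁻¹'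
        (lin (D / p) (-(D / p)) (3 * D / q) (3 * D / q) '' tri)) := by
        refine measure_mono ?_
        rintro _ ⟨x, ⟨-, h1, h2, h3⟩, rfl⟩
        refine ⟨WithLp.toLp 2 ![(3 * ms A x + D - (ms A x + ms B x + ms C x)) / (3 * D),
          (3 * ms B x + D - (ms A x + ms B x + ms C x)) / (3 * D)], ⟨?_, ?_, ?_⟩, ?_⟩
        · exact div_nonneg (sub_nonneg.2 h1) (by positivity)
        · exact div_nonneg (sub_nonneg.2 h2) (by positivity)
        · change _ / _ + _ / _ ≤ _
          rw [← add_div, div_le_one (by positivity)]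
          linarith
        · ext k
          rw [PiLp.add_apply, hU]
          fin_cases k
          · simp [lin0, iu]
            field_simp
            ring
          · simp [lin1, iv]
            field_simp
            ring
    _ = ENNReal.ofReal (6 * D ^ 2 / (p * q)) * volume tri := by
        rw [measure_preimage_add_right, vol_lin, ← abs_of_pos (a := 6 * D ^ 2 / (p * q))
          (by positivity)]
        congr 3
        field_simp
        ring
    _ ≤ _ := by gcongr

theorem tree {d : ℝ} (hd : 0 < d) (j : ℕ) : ∀ S : Finset (Fin n), S.card = 3 ^ j →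
    ∃ I : List (Set (E n)), (∀ X ∈ I, IsBody X) ∧
      (I.map (sigma 2)).sum ≤ ENNReal.ofReal (j * 3 ^ j * (18 * d ^ 2 / 3.46)) * volume tri ∧
      ∀ t : E n, ‖t‖ ≤ 1 → (∀ X ∈ I, t ∉ X) → ∃ i, 3 ^ j * (t i + j * d) ≤ ms S t := by
  induction j with
  | zero =>
    intro S hS
    obtain ⟨i, rfl⟩ := Finset.card_eq_one.1 hS
    exact ⟨[], by simp, by simp, fun t _ _ => ⟨i, by simp [ms]⟩⟩
  | succ j ih =>
    intro S hS
    have p0 : 0 < 3 ^ j := by positivity
    obtain ⟨A, hAS, hA⟩ := Finset.exists_subset_card_eq (s := S) (n := 3 ^ j) (by omega)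
    have c1 : (S \ A).card = 2 * 3 ^ j := by
      rw [Finset.card_sdiff_of_subset hAS]
      omega
    obtain ⟨B, hBS, hB⟩ := Finset.exists_subset_card_eq (s := S \ A) (n := 3 ^ j) (by omega)
    have hC : ((S \ A) \ B).card = 3 ^ j := by
      rw [Finset.card_sdiff_of_subset hBS]
      omega
    have hs : ∀ t, ms S t = ms A t + ms B t + ms ((S \ A) \ B) t := fun t => by
      unfold ms
      rw [← Finset.sum_sdiff hAS, ← Finset.sum_sdiff hBS]
      ring
    have hAB : Disjoint A B := Finset.disjoint_sdiff.mono_right hBS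
    have hAC : Disjoint A ((S \ A) \ B) := Finset.disjoint_sdiff.mono_right Finset.sdiff_subset
    have hBC : Disjoint B ((S \ A) \ B) := Finset.disjoint_sdiff
    generalize (S \ A) \ B = C at hC hs hAC hBC
    obtain ⟨I1, a1, a2, a3⟩ := ih A hA
    obtain ⟨I2, b1, b2, b3⟩ := ih B hB
    obtain ⟨I3, e1, e2, e3⟩ := ih C hC
    have hD : (0 : ℝ) < 3 * d * 3 ^ j := by positivity
    refine ⟨cyl A B C (3 * d * 3 ^ j) :: (I1 ++ I2 ++ I3), ?_, ?_, fun t ht h => ?_⟩
    · simp only [List.mem_cons, List.mem_append]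
      rintro X (rfl | (h | h) | h)
      exacts [cyl_body hD, a1 X h, b1 X h, e1 X h]
    · simp only [List.map_cons, List.map_append, List.sum_cons, List.sum_append]
      refine (add_le_add (cyl_sigma p0 hA hB hC hAB hAC hBC hD)
        (add_le_add (add_le_add a2 b2) e2)).trans (le_of_eq ?_)
      rw [← add_mul, ← add_mul, ← add_mul, ← ENNReal.ofReal_add (by positivity) (by positivity),
        ← ENNReal.ofReal_add (by positivity) (by positivity),
        ← ENNReal.ofReal_add (by positivity) (by positivity)]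
      congr 2
      push_cast
      field_simp
      ring
    · simp only [List.mem_cons, List.mem_append] at h
      obtain ⟨i1, k1⟩ := a3 t ht fun X hX => h X (.inr (.inl (.inl hX)))
      obtain ⟨i2, k2⟩ := b3 t ht fun X hX => h X (.inr (.inl (.inr hX)))
      obtain ⟨i3, k3⟩ := e3 t ht fun X hX => h X (.inr (.inr hX))
      have h0 := h _ (.inl rfl)
      simp only [cyl, mem_ofPred_eq, ht, true_and, not_and_or, not_le] at h0
      simp only [hs, pow_succ, Nat.cast_succ]
      rcases h0 with g | g | g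
      · exact ⟨i1, by linarith⟩
      · exact ⟨i2, by linarith⟩
      · exact ⟨i3, by linarith⟩

theorem two_pow {L : ℕ} (hL : 0 < L) : cst (3 ^ L) 2 ≤ ENNReal.ofReal (4 / L) := by
  have L0 : (0 : ℝ) < L := by positivity
  have hd : (0 : ℝ) < 1.04 / (3 ^ L * L) := by positivity
  obtain ⟨I, h1, h2, h3⟩ := tree (n := 3 ^ L) hd L Finset.univ (by simp)
  refine (cst_le_of_cover spx_body (fun i : Fin I.length => I[i.1])
    (fun i => h1 _ (List.getElem_mem _)) fun t ht => ?_).trans ?_
  · by_contra c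
    obtain ⟨i, hi⟩ := h3 t (spx_norm ht) fun X hX hx => by
      obtain ⟨k, hk, rfl⟩ := List.getElem_of_mem hX
      exact c (mem_iUnion.2 ⟨⟨k, hk⟩, hx⟩)
    have e : (3 : ℝ) ^ L * (L * (1.04 / (3 ^ L * L))) = 1.04 := by field_simp
    have := mul_nonneg (show (0 : ℝ) ≤ 3 ^ L by positivity) (ht.1 i)
    have : ms Finset.univ t ≤ 1 := ht.2
    rw [mul_add, e] at hi
    linarith
  · rw [tsum_fintype, Fin.sum_univ_fun_getElem]
    refine (ENNReal.div_le_div h2 spx_sigma).trans ?_
    rw [ENNReal.mul_div_mul_right _ _ tri_pos tri_fin,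
      ← ENNReal.ofReal_div_of_pos (by positivity)]
    refine ENNReal.ofReal_le_ofReal ?_
    push_cast
    rw [show L * (3 : ℝ) ^ L * (18 * (1.04 / (3 ^ L * L)) ^ 2 / 3.46) / (1.414 / 3 ^ L) =
      18 * 1.04 ^ 2 / (3.46 * 1.414) / L by field_simp]
    gcongr
    norm_num

end Pool.Agent.Lib.MP_fedf83_gt.Tr
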