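import Pool.Agent.Lib.MP_fedf83_gt.TreeB
import Pool.Agent.Lib.MP_fedf83_gt.Final

/-! Blocks for the ball, and the bound that is uniform in the dimension of the projections. -/

namespace Pool.Agent.Lib.MP_fedf83_gt.Tr

open MeasureTheory Set B Metric
open scoped InnerProductSpace ENNReal

variable {n l : ℕ}

theorem anti {k : ℕ} (hl : l ≤ k) (h : k ≤ n) : cst n l ≤ cst k l := by
  induction n, h using Nat.le_induction with
  | base => exact le_rfl
  | succ n h ih => exact (cst_succ_same (hl.trans h)).trans ih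

theorem two_log (hn : 3 ≤ n) : cst n 2 ≤ ENNReal.ofReal (4 / Nat.log 3 n) := by
  have hL : 0 < Nat.log 3 n := Nat.log_pos (by norm_num) hn
  refine (anti ?_ (Nat.pow_log_le_self 3 (by omega))).trans (two_pow hL)
  exact le_trans (by norm_num) (Nat.le_self_pow hL.ne' 3)

theorem ball_body (A : E n →ₗ[ℝ] E l) {r : ℝ} (hr : 0 < r) :
    IsBody (closedBall (0 : E n) 1 ∩ A ⁻¹' closedBall 0 r) := by
  have hA := A.continuous_of_finiteDimensional
  refine ⟨(isCompact_closedBall 0 1).inter_right (isClosed_closedBall.preimage hA),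
    (convex_closedBall 0 1).inter ((convex_closedBall 0 r).linear_preimage A), 0, ?_⟩
  exact interior_maximal (inter_subset_inter ball_subset_closedBall
    (preimage_mono ball_subset_closedBall)) (isOpen_ball.inter (isOpen_ball.preimage hA))
    (by simp [hr])

theorem ball_sigma : volume (ball (0 : E l) 1) ≤ sigma l (closedBall (0 : E n) 1) := by
  refine le_sigma_frame _ _ fun U => measure_mono fun y hy => ⟨U y, ?_, ?_⟩
  · rw [mem_closedBall_zero_iff, U.norm_map]
    exact (mem_ball_zero_iff.1 hy).le
  · refine ext_inner_left ℝ fun z => ?_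
    rw [LinearMap.adjoint_inner_right]
    exact U.inner_map_map z y

theorem blocks {m : ℕ} (hm : 0 < m) (hl : 3 ≤ l) (h : m * l ≤ n) :
    cst n l ≤ ENNReal.ofReal (1 / √(m : ℝ)) := by
  have m1 : (1 : ℝ) ≤ m := by exact_mod_cast hm
  obtain ⟨r, hr, r0, r1, rm⟩ : ∃ r : ℝ, r = 1 / √(m : ℝ) ∧ 0 < r ∧ r ≤ 1 ∧ m * r ^ 2 = 1 := by
    refine ⟨_, rfl, by positivity, (div_le_one (by positivity)).2 (Real.one_le_sqrt.2 m1), ?_⟩
    rw [div_pow, Real.sq_sqrt (by positivity)]
    field_simp
  rw [← hr]
  let e : Fin m × Fin l → Fin n := fun p => Fin.castLE h (finProdFinEquiv p)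
  have he : Function.Injective e := (Fin.castLE_injective h).comp finProdFinEquiv.injective
  have ho : Orthonormal ℝ fun p : Fin m × Fin l =>
      EuclideanSpace.basisFun (Fin n) ℝ (e p) := (EuclideanSpace.basisFun _ ℝ).orthonormal.comp e he
  choose U hU using fun b : Fin m => frame_ex (ho.comp (fun i => (b, i)) (Prod.mk_right_injective b))
  have hK : IsBody (closedBall (0 : E n) 1) :=
    ⟨isCompact_closedBall 0 1, convex_closedBall 0 1, 0,
      interior_maximal ball_subset_closedBall isOpen_ball (mem_ball_self one_pos)⟩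
  refine (cst_le_of_cover hK (fun b => closedBall (0 : E n) 1 ∩
    LinearMap.adjoint (U b).toLinearMap ⁻¹' closedBall 0 r) (fun b => ball_body _ r0)
    fun x hx => ?_).trans ?_
  · by_contra c
    have k := ho.sum_inner_products_le x (s := Finset.univ)
    have x1 : ‖x‖ ^ 2 ≤ 1 := (sq_le_one_iff₀ (norm_nonneg x)).2 (mem_closedBall_zero_iff.1 hx)
    have : Nonempty (Fin m) := ⟨⟨0, hm⟩⟩
    have g : ∑ _b : Fin m, r ^ 2 < ∑ b : Fin m, ∑ i : Fin l,
        ‖⟪EuclideanSpace.basisFun (Fin n) ℝ (e (b, i)), x⟫_ℝ‖ ^ 2 := by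
      refine Finset.sum_lt_sum_of_nonempty Finset.univ_nonempty fun b _ => ?_
      have : r < ‖LinearMap.adjoint (U b).toLinearMap x‖ := by
        by_contra! g
        exact c (mem_iUnion.2 ⟨b, hx, mem_closedBall_zero_iff.2 g⟩)
      refine (pow_lt_pow_left₀ this r0.le two_ne_zero).trans_eq ?_
      rw [EuclideanSpace.norm_sq_eq]
      exact Finset.sum_congr rfl fun i _ => by rw [hU]; rfl
    rw [Fintype.sum_prod_type] at k
    simp only [Finset.sum_const, Finset.card_univ, Fintype.card_fin, nsmul_eq_mul] at g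
    linarith
  · have s : ∑' b, sigma l (closedBall (0 : E n) 1 ∩
        LinearMap.adjoint (U b).toLinearMap ⁻¹' closedBall 0 r) ≤
        ENNReal.ofReal r * volume (ball (0 : E l) 1) := by
      rw [tsum_fintype]
      calc _ ≤ ∑ _b : Fin m, ENNReal.ofReal (r ^ 3) * volume (ball (0 : E l) 1) := by
            refine Finset.sum_le_sum fun b _ => (sigma_le_frame (U b) _).trans
              ((measure_mono (t := closedBall 0 r) ?_).trans ?_)
            · rintro _ ⟨x, hx, rfl⟩
              exact hx.2
            · rw [Measure.addHaar_closedBall _ _ r0.le, finrank_euclideanSpace_fin]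
              gcongr ENNReal.ofReal ?_ * _
              exact pow_le_pow_of_le_one r0.le r1 hl
        _ = _ := by
            rw [Finset.sum_const, Finset.card_univ, Fintype.card_fin, nsmul_eq_mul, ← mul_assoc,
              ← ENNReal.ofReal_natCast, ← ENNReal.ofReal_mul (by positivity),
              show m * r ^ 3 = m * r ^ 2 * r by ring, rm, one_mul]
    refine (ENNReal.div_le_div s ball_sigma).trans (le_of_eq ?_)
    exact ENNReal.mul_div_cancel_right (measure_ball_pos _ _ one_pos).ne' measure_ball_lt_top.ne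

theorem log_sqrt {x : ℝ} (hx : 0 < x) : Real.log x ≤ 2 * √x := by
  have := Real.log_le_sub_one_of_pos (Real.sqrt_pos.2 hx)
  rw [Real.log_sqrt hx.le] at this
  linarith

theorem uniform (h1 : 2 ≤ l) (h2 : l ≤ n - 1) :
    cst n l ≤ ENNReal.ofReal (2600 / Real.log n) := by
  have n3 : 3 ≤ n := by omega
  have n0 : (1 : ℝ) < n := by exact_mod_cast (by omega : 1 < n)
  have lg := Real.log_pos n0
  rcases h1.eq_or_lt with rfl | h3
  · refine (two_log n3).trans (ENNReal.ofReal_le_ofReal ?_)
    have hL : (1 : ℝ) ≤ Nat.log 3 n := by exact_mod_cast Nat.log_pos (by norm_num) n3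
    have a : (n : ℝ) ≤ 3 ^ (Nat.log 3 n + 1) := by
      exact_mod_cast (Nat.lt_pow_succ_log_self (by norm_num) n).le
    have b := Real.log_le_log (by linarith) a
    have d := Real.log_le_sub_one_of_pos (show (0 : ℝ) < 3 by norm_num)
    rw [Real.log_pow] at b
    push_cast at b
    rw [div_le_div_iff₀ (by linarith) lg]
    nlinarith
  · have hm : 0 < n / l := Nat.div_pos (by omega) (by omega)
    have hn : n ≤ l * (2 * (n / l)) := by
      have := Nat.lt_mul_div_succ n (show 0 < l by omega)
      nlinarith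
    have hml := Nat.div_mul_le_self n l
    generalize n / l = m at hm hn hml
    have l0 : (0 : ℝ) < l := by exact_mod_cast (by omega : 0 < l)
    have m0 : (0 : ℝ) < m := by exact_mod_cast hm
    have b : Real.log n ≤ 2 * √(l : ℝ) + 2 * √(2 * m : ℝ) := by
      refine (Real.log_le_log (y := l * (2 * m)) (by linarith) (by exact_mod_cast hn)).trans ?_
      rw [Real.log_mul l0.ne' (by positivity)]
      exact add_le_add (log_sqrt l0) (log_sqrt (by positivity))
    rcases le_total (2 * m : ℝ) l with g | g
    · refine (upper n l 1 (by omega) le_rfl (by omega)).trans (ENNReal.ofReal_le_ofReal ?_)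
      have := Real.sqrt_le_sqrt g
      rw [pow_one, Nat.cast_one, Real.sqrt_div zero_le_one, Real.sqrt_one, mul_one_div,
        div_le_div_iff₀ (by positivity) lg]
      linarith [Real.sqrt_nonneg (l : ℝ)]
    · refine (blocks hm h3 hml).trans (ENNReal.ofReal_le_ofReal ?_)
      have := Real.sqrt_le_sqrt g
      have e : √(2 * m : ℝ) ≤ 2 * √(m : ℝ) := by
        rw [Real.sqrt_le_left (by positivity), mul_pow, Real.sq_sqrt m0.le]
        linarith
      rw [div_le_div_iff₀ (by positivity) lg]
      linarith [Real.sqrt_nonneg (m : ℝ)]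

end Pool.Agent.Lib.MP_fedf83_gt.Tr
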