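import Pool.Agent.Lib.MP_fedf83_gt.UWalk
import Pool.Agent.Lib.MP_fedf83_gt.PConc

/-! The one step bound for a doubly exponential weight, by a chi-square computation. -/

namespace Pool.Agent.Lib.MP_fedf83_gt.UK

open MeasureTheory Set Pool.Agent.Lib.MP_fedf83_gt.B
open scoped ENNReal RealInnerProductSpace

variable {n : ℕ} {S I : Type} [Fintype S] [Fintype I]

theorem p_two {x θ : ℝ} (h : |x| ≤ θ) (θ1 : θ ≤ 1) : |1 - Real.exp (-x) - x| ≤ x ^ 2 := by
  have := Real.abs_exp_sub_one_sub_id_le (x := -x) (by rw [abs_neg]; linarith)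
  rw [neg_sq] at this
  rw [← abs_neg]
  convert this using 2
  ring

theorem p_one {x θ : ℝ} (h : |x| ≤ θ) (θ1 : θ ≤ 1) : |1 - Real.exp (-x)| ≤ 2 * θ := by
  have := Real.abs_exp_sub_one_le (x := -x) (by rw [abs_neg]; linarith)
  rw [abs_neg] at this
  rw [abs_sub_comm]
  linarith

theorem p_mul {x y θ : ℝ} (hx : |x| ≤ θ) (hy : |y| ≤ θ) (θ1 : θ ≤ 1) :
    |(1 - Real.exp (-x)) * (1 - Real.exp (-y)) - x * y| ≤ 3 * θ ^ 3 := by
  have θ0 : 0 ≤ θ := (abs_nonneg _).trans hx
  have x2 : x ^ 2 ≤ θ ^ 2 := by rw [← sq_abs]; exact pow_le_pow_left₀ (abs_nonneg _) hx 2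
  have y2 : y ^ 2 ≤ θ ^ 2 := by rw [← sq_abs]; exact pow_le_pow_left₀ (abs_nonneg _) hy 2
  have h1 := (p_two hx θ1).trans x2
  have h2 := (p_two hy θ1).trans y2
  have h3 := p_one hy θ1
  have : (1 - Real.exp (-x)) * (1 - Real.exp (-y)) - x * y =
      (1 - Real.exp (-x) - x) * (1 - Real.exp (-y)) + x * (1 - Real.exp (-y) - y) := by ring
  rw [this]
  refine (abs_add_le _ _).trans ?_
  rw [abs_mul, abs_mul]
  have h4 := mul_le_mul h1 h3 (abs_nonneg _) (by positivity)
  have h5 := mul_le_mul hx h2 (abs_nonneg _) θ0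
  nlinarith

theorem sum3 (f : S → S → I → ℝ) : ∑ s, ∑ s', ∑ i, f s s' i = ∑ i, ∑ s, ∑ s', f s s' i := by
  calc _ = ∑ s, ∑ i, ∑ s', f s s' i := Finset.sum_congr rfl fun s _ => Finset.sum_comm
    _ = _ := Finset.sum_comm

theorem avg_exp {U : I → ℝ} {x : I → S → ℝ} {c θ m R Um nI : ℝ} (c0 : 0 ≤ c)
    (hc : c * Fintype.card S = 1) (θ0 : 0 ≤ θ) (θ1 : θ ≤ 1) (U0 : ∀ i, 0 ≤ U i)
    (U1 : ∀ i, U i ≤ Um) (Um0 : 0 ≤ Um) (hI : (Fintype.card I : ℝ) = nI) (hx : ∀ i s, |x i s| ≤ θ)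
    (hz : ∀ i, ∑ s, x i s = 0) (h2 : ∀ i, c * ∑ s, x i s ^ 2 ≤ θ ^ 2 / m)
    (hR : ∑ i, ∑ j, (c * ∑ s, x i s * x j s) ^ 2 ≤ R * θ ^ 4) :
    c ^ 2 * ∑ s, ∑ s', Real.exp (∑ i, U i * ((1 - Real.exp (-x i s)) * (1 - Real.exp (-x i s')))) ≤
      1 + (Um * nI * (θ ^ 2 / m) ^ 2 + Um ^ 2 * (2 * R * θ ^ 4 + 18 * θ ^ 6 * nI ^ 2) *
        Real.exp (4 * θ ^ 2 * ∑ i, U i)) := by
  set p : I → S → ℝ := fun i s => 1 - Real.exp (-x i s) with hp
  set Bf : S → S → ℝ := fun s s' => ∑ i, U i * (p i s * p i s') with hB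
  set X := Real.exp (4 * θ ^ 2 * ∑ i, U i) with hX
  have b1 : ∀ s s', |Bf s s'| ≤ 4 * θ ^ 2 * ∑ i, U i := fun s s' => by
    rw [Finset.mul_sum]
    refine (Finset.abs_sum_le_sum_abs _ _).trans (Finset.sum_le_sum fun i _ => ?_)
    rw [abs_mul, abs_of_nonneg (U0 i), abs_mul, mul_comm]
    refine mul_le_mul_of_nonneg_right ?_ (U0 i)
    have := mul_le_mul (p_one (hx i s) θ1) (p_one (hx i s') θ1) (abs_nonneg _) (by positivity)
    nlinarith
  have b2 : ∀ s s', Real.exp (Bf s s') ≤ 1 + Bf s s' + Bf s s' ^ 2 * X := fun s s' => by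
    have h := (abs_le.1 (P.exp_two_le (Bf s s'))).2
    have h' := mul_le_mul_of_nonneg_left (Real.exp_le_exp.2 (b1 s s')) (sq_nonneg (Bf s s'))
    linarith
  have m1 : c ^ 2 * ∑ s, ∑ s', Bf s s' = ∑ i, U i * (c * ∑ s, p i s) ^ 2 := by
    have : ∀ i, U i * (c * ∑ s, p i s) ^ 2 = c ^ 2 * ∑ s, ∑ s', U i * (p i s * p i s') := fun i => by
      rw [mul_pow, sq (∑ s, p i s), Finset.sum_mul_sum]
      simp only [← Finset.mul_sum]
      ring
    rw [Finset.sum_congr rfl fun i _ => this i, ← Finset.mul_sum, hB, sum3]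
  have m2 : c ^ 2 * ∑ s, ∑ s', Bf s s' ^ 2 = ∑ i, ∑ j, U i * U j * (c * ∑ s, p i s * p j s) ^ 2 := by
    have h1 : ∀ i j, U i * U j * (c * ∑ s, p i s * p j s) ^ 2 =
        c ^ 2 * ∑ s, ∑ s', U i * (p i s * p i s') * (U j * (p j s * p j s')) := fun i j => by
      rw [mul_pow, sq (∑ s, p i s * p j s), Finset.sum_mul_sum, mul_left_comm]
      congr 1
      simp only [Finset.mul_sum]
      exact Finset.sum_congr rfl fun s _ => Finset.sum_congr rfl fun s' _ => by ring
    have h2 : ∀ s s', Bf s s' ^ 2 =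
        ∑ i, ∑ j, U i * (p i s * p i s') * (U j * (p j s * p j s')) := fun s s' => by
      rw [sq, hB, Finset.sum_mul_sum]
    simp only [h1, h2]
    rw [sum3, Finset.mul_sum]
    refine Finset.sum_congr rfl fun i _ => ?_
    rw [sum3, Finset.mul_sum]
  have m3 : ∀ i, (c * ∑ s, p i s) ^ 2 ≤ (θ ^ 2 / m) ^ 2 := fun i => by
    have h1 : ∑ s, p i s = ∑ s, (p i s - x i s) := by
      rw [Finset.sum_sub_distrib (f := fun s => p i s), hz, sub_zero]
    have h3 : |c * ∑ s, p i s| ≤ θ ^ 2 / m := by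
      rw [abs_mul, abs_of_nonneg c0, h1]
      refine le_trans (mul_le_mul_of_nonneg_left ((Finset.abs_sum_le_sum_abs _ _).trans
        (Finset.sum_le_sum fun s _ => p_two (hx i s) θ1)) c0) (h2 i)
    rw [← sq_abs]
    exact pow_le_pow_left₀ (abs_nonneg _) h3 2
  have m4 : ∀ i j, (c * ∑ s, p i s * p j s) ^ 2 ≤
      2 * (c * ∑ s, x i s * x j s) ^ 2 + 18 * θ ^ 6 := fun i j => by
    have h3 : |c * ∑ s, p i s * p j s - c * ∑ s, x i s * x j s| ≤ 3 * θ ^ 3 := by
      rw [← mul_sub, ← Finset.sum_sub_distrib, abs_mul, abs_of_nonneg c0]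
      refine le_trans (mul_le_mul_of_nonneg_left ((Finset.abs_sum_le_sum_abs _ _).trans
        (Finset.sum_le_sum fun s _ => p_mul (hx i s) (hx j s) θ1)) c0) (le_of_eq ?_)
      simp only [Finset.sum_const, Finset.card_univ, nsmul_eq_mul]
      rw [← mul_assoc, hc, one_mul]
    have h4 := pow_le_pow_left₀ (abs_nonneg _) h3 2
    rw [sq_abs] at h4
    nlinarith [sq_nonneg (c * ∑ s, p i s * p j s - 2 * (c * ∑ s, x i s * x j s))]
  have t1 : c ^ 2 * ∑ s, ∑ s', Bf s s' ≤ Um * nI * (θ ^ 2 / m) ^ 2 := by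
    rw [m1]
    calc _ ≤ ∑ _i : I, Um * (θ ^ 2 / m) ^ 2 := Finset.sum_le_sum fun i _ =>
          mul_le_mul (U1 i) (m3 i) (sq_nonneg _) Um0
      _ = _ := by
          simp only [Finset.sum_const, Finset.card_univ, nsmul_eq_mul, hI]
          ring
  have t2 : c ^ 2 * ∑ s, ∑ s', Bf s s' ^ 2 ≤ Um ^ 2 * (2 * R * θ ^ 4 + 18 * θ ^ 6 * nI ^ 2) := by
    rw [m2]
    calc _ ≤ ∑ i, ∑ j, Um ^ 2 * (2 * (c * ∑ s, x i s * x j s) ^ 2 + 18 * θ ^ 6) :=
          Finset.sum_le_sum fun i _ => Finset.sum_le_sum fun j _ =>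
            mul_le_mul (by rw [sq]; exact mul_le_mul (U1 i) (U1 j) (U0 j) Um0) (m4 i j)
              (sq_nonneg _) (sq_nonneg _)
      _ ≤ _ := by
          simp only [← Finset.mul_sum, Finset.sum_add_distrib, Finset.sum_const, Finset.card_univ,
            nsmul_eq_mul, hI]
          refine mul_le_mul_of_nonneg_left ?_ (sq_nonneg _)
          nlinarith
  have X0 : 0 ≤ X := (Real.exp_pos _).le
  calc _ ≤ c ^ 2 * ∑ s, ∑ s', (1 + Bf s s' + Bf s s' ^ 2 * X) :=
        mul_le_mul_of_nonneg_left (Finset.sum_le_sum fun s _ => Finset.sum_le_sum fun s' _ => b2 s s')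
          (sq_nonneg _)
    _ = 1 + (c ^ 2 * ∑ s, ∑ s', Bf s s' + (c ^ 2 * ∑ s, ∑ s', Bf s s' ^ 2) * X) := by
        simp only [Finset.sum_add_distrib, ← Finset.sum_mul, Finset.sum_const, Finset.card_univ,
          nsmul_eq_mul]
        linear_combination (c * Fintype.card S + 1) * hc
    _ ≤ _ := by
        have := mul_le_mul_of_nonneg_right t2 X0
        linarith

theorem step_l1 (v : S → E n) {c ρ l : ℝ} (c0 : 0 < c) (hc : c * Fintype.card S = 1) (l0 : 0 < l)
    {A G Θ : E n → ℝ} {H : S → S → E n → ℝ} (A0 : ∀ x, 0 ≤ A x) (G0 : ∀ x, 0 < G x)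
    (hA : ∀ x s, A (x + v s) = A x) (H0 : ∀ s s' x, 0 ≤ H s s' x)
    (mH : ∀ s s', Measurable fun x => A x * G x * H s s' x)
    (hH : ∀ s s' x, G (x + v s) * G (x + v s') = G x * (G (x + (v s + v s')) * H s s' (x + (v s + v s'))))
    (hΘ : ∀ x, A x ≠ 0 → c ^ 2 * ∑ s, ∑ s', H s s' x ≤ 1 + ρ * Θ x)
    (iF : Integrable fun x => A x * G x) (iΘ : Integrable fun x => A x * G x * Θ x) :
    ∫ x, |c * ∑ s, A (x + v s) * G (x + v s) - A x * G x| ≤
      l / 2 * (∫ x, A x * G x) + ρ / (2 * l) * ∫ x, A x * G x * Θ x := by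
  have F0 : ∀ x, 0 ≤ A x * G x := fun x => mul_nonneg (A0 x) (G0 x).le
  have key : ∀ x, c ^ 2 * ∑ s, ∑ s', A x * G x * H s s' x ≤ A x * G x + ρ * (A x * G x * Θ x) := by
    intro x
    by_cases h : A x = 0
    · simp [h]
    have := mul_le_mul_of_nonneg_left (hΘ x h) (F0 x)
    simp only [← Finset.mul_sum]
    linarith
  have iH : ∀ s s', Integrable fun x => A x * G x * H s s' x := fun s s' => by
    refine ((iF.add (iΘ.const_mul ρ)).const_mul (c ^ 2)⁻¹).mono' (mH s s').aestronglyMeasurable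
      (ae_of_all _ fun x => ?_)
    rw [Real.norm_eq_abs, abs_of_nonneg (mul_nonneg (F0 x) (H0 s s' x)), Pi.add_apply,
      le_inv_mul_iff₀ (by positivity)]
    refine le_trans (mul_le_mul_of_nonneg_left ?_ (sq_nonneg c)) (key x)
    exact (Finset.single_le_sum (f := fun s' => A x * G x * H s s' x)
      (fun j _ => mul_nonneg (F0 x) (H0 s j x)) (Finset.mem_univ s')).trans
      (Finset.single_le_sum (f := fun s => ∑ s', A x * G x * H s s' x)
        (fun i _ => Finset.sum_nonneg fun j _ => mul_nonneg (F0 x) (H0 i j x)) (Finset.mem_univ s))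
  have iT : Integrable fun x => c * ∑ s, A (x + v s) * G (x + v s) :=
    (integrable_finsetSum _ fun s _ => iF.comp_add_right (v s)).const_mul _
  have eT : ∫ x, c * ∑ s, A (x + v s) * G (x + v s) = ∫ x, A x * G x := by
    rw [integral_const_mul, integral_finsetSum _ fun s _ => iF.comp_add_right (v s)]
    simp only [integral_add_right_eq_self (fun x => A x * G x), Finset.sum_const, Finset.card_univ,
      nsmul_eq_mul]
    rw [← mul_assoc, hc, one_mul]
  set Q : E n → ℝ := fun x => c ^ 2 * ∑ s, ∑ s',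
    A (x + (v s + v s')) * G (x + (v s + v s')) * H s s' (x + (v s + v s')) with hQ
  have iQ : Integrable Q := (integrable_finsetSum _ fun s _ => integrable_finsetSum _ fun s' _ =>
    (iH s s').comp_add_right (v s + v s')).const_mul _
  have eQ : ∫ x, Q x ≤ (∫ x, A x * G x) + ρ * ∫ x, A x * G x * Θ x := by
    have : ∫ x, Q x = ∫ x, c ^ 2 * ∑ s, ∑ s', A x * G x * H s s' x := by
      rw [hQ, integral_const_mul, integral_const_mul,
        integral_finsetSum _ fun s _ => integrable_finsetSum _ fun s' _ =>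
          (iH s s').comp_add_right (v s + v s'),
        integral_finsetSum _ fun s _ => integrable_finsetSum _ fun s' _ => iH s s']
      congr 1
      refine Finset.sum_congr rfl fun s _ => ?_
      rw [integral_finsetSum _ fun s' _ => (iH s s').comp_add_right (v s + v s'),
        integral_finsetSum _ fun s' _ => iH s s']
      exact Finset.sum_congr rfl fun s' _ =>
        integral_add_right_eq_self (fun x => A x * G x * H s s' x) _
    rw [this, ← integral_const_mul ρ, ← integral_add iF (iΘ.const_mul ρ)]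
    exact integral_mono ((integrable_finsetSum _ fun s _ => integrable_finsetSum _ fun s' _ =>
      iH s s').const_mul _) (iF.add (iΘ.const_mul ρ)) key
  have pt : ∀ x, |c * ∑ s, A (x + v s) * G (x + v s) - A x * G x| ≤
      l / 2 * (A x * G x) + 1 / (2 * l) * (Q x - 2 * (c * ∑ s, A (x + v s) * G (x + v s)) + A x * G x) := by
    intro x
    set T := c * ∑ s, G (x + v s) with hT
    have e1 : c * ∑ s, A (x + v s) * G (x + v s) = A x * T := by
      simp only [hA, ← Finset.mul_sum, hT]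
      ring
    have e2 : Q x * G x = A x * T ^ 2 := by
      have : ∀ s s', A (x + (v s + v s')) = A x := fun s s' => by rw [← add_assoc, hA, hA]
      rw [hT, mul_pow, sq (∑ s, G (x + v s)), Finset.sum_mul_sum]
      simp only [hQ, hH, this, mul_assoc, ← Finset.mul_sum]
      ring
    have g0 := G0 x
    have e3 : Q x = A x * (T ^ 2 / G x) := by
      rw [← mul_div_assoc, eq_div_iff g0.ne', e2]
    rw [e1, e3, ← mul_sub, abs_mul, abs_of_nonneg (A0 x)]
    have e4 : |T - G x| ≤ l / 2 * G x + 1 / (2 * l) * (T ^ 2 / G x - 2 * T + G x) := by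
      have e5 : T ^ 2 / G x - 2 * T + G x = |T - G x| ^ 2 / G x := by
        rw [sq_abs]
        field_simp
        ring
      have e6 : l / 2 * G x + 1 / (2 * l) * (|T - G x| ^ 2 / G x) - |T - G x| =
          (|T - G x| - l * G x) ^ 2 / (2 * l * G x) := by
        field_simp
        ring
      rw [e5, ← sub_nonneg, e6]
      positivity
    have := mul_le_mul_of_nonneg_left e4 (A0 x)
    linarith
  have i3 : Integrable fun x => Q x - 2 * (c * ∑ s, A (x + v s) * G (x + v s)) :=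
    iQ.sub (iT.const_mul 2)
  have i4 : Integrable fun x => Q x - 2 * (c * ∑ s, A (x + v s) * G (x + v s)) + A x * G x := i3.add iF
  have i5 : Integrable fun x => l / 2 * (A x * G x) +
      1 / (2 * l) * (Q x - 2 * (c * ∑ s, A (x + v s) * G (x + v s)) + A x * G x) :=
    (iF.const_mul _).add (i4.const_mul _)
  refine (integral_mono (iT.sub iF).abs i5 pt).trans ?_
  rw [integral_add (iF.const_mul _) (i4.const_mul _), integral_const_mul, integral_const_mul,
    integral_add i3 iF, integral_sub iQ (iT.const_mul 2), integral_const_mul 2, eT]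
  have h1 : 1 / (2 * l) * ((∫ x, Q x) - 2 * (∫ x, A x * G x) + ∫ x, A x * G x) ≤
      1 / (2 * l) * (ρ * ∫ x, A x * G x * Θ x) :=
    mul_le_mul_of_nonneg_left (by linarith) (by positivity)
  have h2 : 1 / (2 * l) * (ρ * ∫ x, A x * G x * Θ x) = ρ / (2 * l) * ∫ x, A x * G x * Θ x := by ring
  linarith

end Pool.Agent.Lib.MP_fedf83_gt.UK
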