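import Pool.Agent.Lib.MP_fedf83_gt.UChi

/-! From small `L1` drift to a fractional cover by lines; the one step bound for exponentials. -/

namespace Pool.Agent.Lib.MP_fedf83_gt.UK

open MeasureTheory Set Pool.Agent.Lib.MP_fedf83_gt.B
open scoped ENNReal RealInnerProductSpace

variable {n : ℕ} {S I : Type} [Fintype S] [Fintype I]

theorem step_exp (v : S → E n) (ℓ : I → E n) (w : I → ℝ) {c e m Λ θ ε l nI : ℝ} (c0 : 0 < c)
    (hc : c * Fintype.card S = 1) (l0 : 0 < l) (m0 : 0 < m) (e0 : 0 ≤ e) (θ0 : 0 ≤ θ) (θ1 : θ ≤ 1)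
    (hθ : θ ^ 2 = Λ ^ 2 * e) (hε : 4 * θ ^ 2 ≤ ε) (hI : (Fintype.card I : ℝ) = nI)
    (h1 : ∀ s, ‖v s‖ ^ 2 ≤ e) (h2 : ∑ s, v s = 0)
    (h3 : ∀ W : E n, c * ∑ s, ⟪W, v s⟫ ^ 2 ≤ e / m * ‖W‖ ^ 2) (w0 : ∀ i, 0 ≤ w i)
    (hl : ∀ i, ‖ℓ i‖ ^ 2 ≤ Λ ^ 2) (hop : ∀ z : E n, ∑ i, ⟪ℓ i, z⟫ ^ 2 ≤ 2 * Λ ^ 2 * ‖z‖ ^ 2)
    {A Y : E n → ℝ} (mA : Measurable A) (A0 : ∀ x, 0 ≤ A x) (hA : ∀ x s, A (x + v s) = A x)
    (Y1 : ∀ x, 1 ≤ Y x) (hY : ∀ x i, w i * Real.exp ⟪ℓ i, x⟫ ≤ Y x)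
    (iF : Integrable fun x => A x * Real.exp (-∑ i, w i * Real.exp ⟪ℓ i, x⟫))
    (iΘ : Integrable fun x => A x * Real.exp (-∑ i, w i * Real.exp ⟪ℓ i, x⟫) *
      (Y x ^ 2 * Real.exp (ε * ∑ i, w i * Real.exp ⟪ℓ i, x⟫))) :
    ∫ x, |c * ∑ s, A (x + v s) * Real.exp (-∑ i, w i * Real.exp ⟪ℓ i, x + v s⟫) -
        A x * Real.exp (-∑ i, w i * Real.exp ⟪ℓ i, x⟫)| ≤
      l / 2 * (∫ x, A x * Real.exp (-∑ i, w i * Real.exp ⟪ℓ i, x⟫)) +
        (5 * nI * θ ^ 4 / m ^ 2 + 18 * θ ^ 6 * nI ^ 2) / (2 * l) *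
          ∫ x, A x * Real.exp (-∑ i, w i * Real.exp ⟪ℓ i, x⟫) *
            (Y x ^ 2 * Real.exp (ε * ∑ i, w i * Real.exp ⟪ℓ i, x⟫)) := by
  have n0 : 0 ≤ nI := hI ▸ Nat.cast_nonneg _
  have hx : ∀ i s, |⟪ℓ i, v s⟫| ≤ θ := fun i s => by
    refine abs_le_of_sq_le_sq' ?_ θ0 |> abs_le.2
    have h := pow_le_pow_left₀ (abs_nonneg _) (abs_real_inner_le_norm (ℓ i) (v s)) 2
    rw [sq_abs, mul_pow] at h
    rw [hθ]
    exact h.trans (mul_le_mul (hl i) (h1 s) (sq_nonneg _) (sq_nonneg _))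
  have hz : ∀ i, ∑ s, ⟪ℓ i, v s⟫ = 0 := fun i => by rw [← inner_sum, h2, inner_zero_right]
  have q2 : ∀ i, c * ∑ s, ⟪ℓ i, v s⟫ ^ 2 ≤ θ ^ 2 / m := fun i => by
    refine (h3 _).trans ?_
    rw [hθ]
    calc _ ≤ e / m * Λ ^ 2 := mul_le_mul_of_nonneg_left (hl i) (by positivity)
      _ = _ := by ring
  have qR : ∑ i, ∑ j, (c * ∑ s, ⟪ℓ i, v s⟫ * ⟪ℓ j, v s⟫) ^ 2 ≤ 2 * nI / m ^ 2 / 2 * 2 * θ ^ 4 := by
    rw [Finset.sum_comm]
    have : ∀ j, ∑ i, (c * ∑ s, ⟪ℓ i, v s⟫ * ⟪ℓ j, v s⟫) ^ 2 ≤ 2 / m ^ 2 * θ ^ 4 := fun j => by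
      set z : E n := c • ∑ s, ⟪ℓ j, v s⟫ • v s with hzz
      have z1 : ∀ y : E n, ⟪y, z⟫ = c * ∑ s, ⟪y, v s⟫ * ⟪ℓ j, v s⟫ := fun y => by
        rw [hzz, inner_smul_right, inner_sum]
        simp only [inner_smul_right, mul_comm]
      have z2 : ‖z‖ ^ 2 ≤ e / m * (θ ^ 2 / m) := by
        have a1 : (‖z‖ ^ 2) ^ 2 ≤ (c * ∑ s, ⟪z, v s⟫ ^ 2) * (c * ∑ s, ⟪ℓ j, v s⟫ ^ 2) := by
          rw [← real_inner_self_eq_norm_sq, z1, mul_pow]
          have := mul_le_mul_of_nonneg_left (Finset.sum_mul_sq_le_sq_mul_sq Finset.univ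
            (fun s => ⟪z, v s⟫) fun s => ⟪ℓ j, v s⟫) (sq_nonneg c)
          linarith
        have a2 := a1.trans (mul_le_mul (h3 z) (q2 j) (by positivity) (by positivity))
        by_cases z0 : ‖z‖ ^ 2 = 0
        · rw [z0]; positivity
        have zp : 0 < ‖z‖ ^ 2 := lt_of_le_of_ne (sq_nonneg _) (Ne.symm z0)
        refine le_of_mul_le_mul_left ?_ zp
        linarith
      simp only [← z1]
      refine (hop z).trans ((mul_le_mul_of_nonneg_left z2 (by positivity)).trans (le_of_eq ?_))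
      rw [show θ ^ 4 = θ ^ 2 * θ ^ 2 by ring]
      nth_rewrite 2 [hθ]
      ring
    refine (Finset.sum_le_sum fun j _ => this j).trans (le_of_eq ?_)
    simp only [Finset.sum_const, Finset.card_univ, nsmul_eq_mul, hI]
    ring
  refine step_l1 v (ρ := 5 * nI * θ ^ 4 / m ^ 2 + 18 * θ ^ 6 * nI ^ 2) c0 hc l0
    (G := fun x => Real.exp (-∑ i, w i * Real.exp ⟪ℓ i, x⟫))
    (Θ := fun x => Y x ^ 2 * Real.exp (ε * ∑ i, w i * Real.exp ⟪ℓ i, x⟫))
    (H := fun s s' x => Real.exp (∑ i, w i * Real.exp ⟪ℓ i, x⟫ *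
      ((1 - Real.exp (-⟪ℓ i, v s⟫)) * (1 - Real.exp (-⟪ℓ i, v s'⟫))))) A0
    (fun x => Real.exp_pos _) hA (fun _ _ _ => (Real.exp_pos _).le) (fun s s' => by fun_prop)
    (fun s s' x => ?_) (fun x _ => ?_) iF iΘ
  · simp only [← Real.exp_add]
    congr 1
    simp only [← Finset.sum_neg_distrib, ← Finset.sum_add_distrib]
    refine Finset.sum_congr rfl fun i _ => ?_
    simp only [inner_add_right, Real.exp_add, Real.exp_neg]
    have := (Real.exp_pos ⟪ℓ i, v s⟫).ne'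
    have := (Real.exp_pos ⟪ℓ i, v s'⟫).ne'
    field_simp
    ring
  · have U0 : ∀ i, 0 ≤ w i * Real.exp ⟪ℓ i, x⟫ := fun i => mul_nonneg (w0 i) (Real.exp_pos _).le
    have y1 := Y1 x
    refine (avg_exp (x := fun i s => ⟪ℓ i, v s⟫) c0.le hc θ0 θ1 U0 (hY x) (by linarith) hI hx hz q2
      qR).trans (add_le_add le_rfl ?_)
    have S0 : 0 ≤ ∑ i, w i * Real.exp ⟪ℓ i, x⟫ := Finset.sum_nonneg fun i _ => U0 i
    have X1 : Real.exp (4 * θ ^ 2 * ∑ i, w i * Real.exp ⟪ℓ i, x⟫) ≤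
        Real.exp (ε * ∑ i, w i * Real.exp ⟪ℓ i, x⟫) :=
      Real.exp_le_exp.2 (mul_le_mul_of_nonneg_right hε S0)
    have X2 : 1 ≤ Real.exp (ε * ∑ i, w i * Real.exp ⟪ℓ i, x⟫) :=
      Real.one_le_exp (mul_nonneg ((by positivity : (0 : ℝ) ≤ 4 * θ ^ 2).trans hε) S0)
    set X := Real.exp (ε * ∑ i, w i * Real.exp ⟪ℓ i, x⟫)
    have y2 : Y x ≤ Y x ^ 2 * X := by nlinarith
    have a1 : Y x * nI * (θ ^ 2 / m) ^ 2 ≤ Y x ^ 2 * X * nI * (θ ^ 2 / m) ^ 2 := by gcongr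
    have a2 := mul_le_mul_of_nonneg_left X1 (show 0 ≤ Y x ^ 2 *
      (2 * (2 * nI / m ^ 2 / 2 * 2) * θ ^ 4 + 18 * θ ^ 6 * nI ^ 2) by positivity)
    refine (add_le_add a1 a2).trans (le_of_eq ?_)
    ring

open Classical in
theorem cover_of {J Ω : Type} [Fintype J] [Fintype Ω] (hn : 1 ≤ n) {K : Set (E n)}
    (mK : MeasurableSet K) (F : J → E n → ℝ) (W : J → Ω → E n) {q s2 s e1 e2 D g : ℝ} (q0 : 0 ≤ q)
    (hq : q * Fintype.card Ω = 1) (s0 : 0 < s) (hs : s ^ 2 ≤ s2) (e20 : 0 ≤ e2) (he : 0 ≤ e1 + e2 * D)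
    (mF : ∀ j, Measurable (F j)) (F0 : ∀ j x, 0 ≤ F j x) (iF : ∀ j, Integrable (F j))
    (h1 : ∀ τ ∈ Icc (0 : ℝ) 1, ∑ j, ∫ x, |q * ∑ ω, F j (x + τ • W j ω) - F j x| ≤ e1)
    (h2 : ∀ j, q * ∑ ω, (if s2 / 2 ≤ ‖W j ω‖ ^ 2 then (0 : ℝ) else 1) ≤ e2)
    (h3 : ∑ j, ∫ x, F j x ≤ D) (h4 : ∀ x ∈ K, ∑ j, F j x ≤ 1)
    (h5 : ENNReal.ofReal g ≤ ∫⁻ x in K, ENNReal.ofReal (∑ j, F j x)) :
    ∃ (w : J × Ω → E n) (P : J × Ω → E n → ℝ≥0∞), (∀ i, w i ≠ 0) ∧ (∀ i, Measurable (P i)) ∧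
      ∑ i, (∫⁻ x, P i x) / ‖w i‖ₑ ≤ ENNReal.ofReal (2 * D / s) ∧
      ENNReal.ofReal (g - (e1 + e2 * D)) ≤
        ∫⁻ x in K, min 1 (∑ i, ∫⁻ t : ℝ, P i (x + t • w i)) := by
  have I0 : ∀ j, 0 ≤ ∫ x, F j x := fun j => integral_nonneg (F0 j)
  set u : E n := EuclideanSpace.single ⟨0, hn⟩ 1 with hu
  have u0 : u ≠ 0 := by
    rw [← norm_ne_zero_iff, hu]
    simp
  have big : ∀ j ω, s2 / 2 ≤ ‖W j ω‖ ^ 2 → s / 2 ≤ ‖W j ω‖ := fun j ω h =>
    (abs_le_of_sq_le_sq' (by nlinarith [sq_nonneg s]) (norm_nonneg _)).2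
  set χ : J → Ω → ℝ := fun j ω => if s2 / 2 ≤ ‖W j ω‖ ^ 2 then 0 else 1 with hχ
  have χ0 : ∀ j ω, 0 ≤ χ j ω := fun j ω => by simp only [hχ]; split_ifs <;> norm_num
  have χ1 : ∀ j ω, 0 ≤ 1 - χ j ω := fun j ω => by simp only [hχ]; split_ifs <;> norm_num
  refine ⟨fun i => if s2 / 2 ≤ ‖W i.1 i.2‖ ^ 2 then W i.1 i.2 else u,
    fun i x => ENNReal.ofReal (q * (1 - χ i.1 i.2) * F i.1 x), fun i => ?_, fun i => by
      have := mF i.1
      fun_prop, ?_, ?_⟩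
  · dsimp only
    split_ifs with h
    · rw [← norm_pos_iff]
      linarith [big _ _ h]
    · exact u0
  · calc _ ≤ ∑ i : J × Ω, ENNReal.ofReal (2 / s * (q * ∫ x, F i.1 x)) := by
          refine Finset.sum_le_sum fun i _ => ?_
          by_cases h : s2 / 2 ≤ ‖W i.1 i.2‖ ^ 2
          · simp only [hχ, if_pos h, sub_zero, mul_one]
            have hb := big _ _ h
            rw [← ofReal_integral_eq_lintegral_ofReal ((iF _).const_mul q)
              (ae_of_all _ fun x => mul_nonneg q0 (F0 _ x)), integral_const_mul, ← ofReal_norm,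
              ← ENNReal.ofReal_div_of_pos (by linarith)]
            refine ENNReal.ofReal_le_ofReal ?_
            rw [div_le_iff₀ (by linarith)]
            have h0 := mul_nonneg q0 (I0 i.1)
            calc _ = 2 / s * (q * ∫ x, F i.1 x) * (s / 2) := by field_simp
              _ ≤ _ := by gcongr
          · simp [hχ, if_neg h]
      _ ≤ _ := by
          rw [← ENNReal.ofReal_sum_of_nonneg fun i _ => by have := I0 i.1; positivity]
          refine ENNReal.ofReal_le_ofReal ?_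
          rw [← Finset.mul_sum, ← Finset.mul_sum, Fintype.sum_prod_type]
          simp only [Finset.sum_const, Finset.card_univ, nsmul_eq_mul, ← Finset.mul_sum]
          rw [← mul_assoc q, hq, one_mul, mul_div_right_comm]
          gcongr
  · set r : E n → ℝ → ℝ := fun x τ => ∑ j, (|q * ∑ ω, F j (x + τ • W j ω) - F j x| +
      q * ∑ ω, χ j ω * F j (x + τ • W j ω)) with hr
    have mr : Measurable fun p : E n × ℝ => ENNReal.ofReal (r p.1 p.2) := by
      simp only [hr]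
      fun_prop
    have r0 : ∀ x τ, 0 ≤ r x τ := fun x τ => Finset.sum_nonneg fun j _ => add_nonneg (abs_nonneg _)
      (mul_nonneg q0 (Finset.sum_nonneg fun ω _ => mul_nonneg (χ0 j ω) (F0 j _)))
    have R1 : ∫⁻ x, ∫⁻ τ in Icc (0 : ℝ) 1, ENNReal.ofReal (r x τ) ≤ ENNReal.ofReal (e1 + e2 * D) := by
      rw [lintegral_lintegral_swap mr.aemeasurable]
      calc _ ≤ ∫⁻ _ in Icc (0 : ℝ) 1, ENNReal.ofReal (e1 + e2 * D) := by
            refine setLIntegral_mono' measurableSet_Icc fun τ hτ => ?_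
            have i1 : ∀ j, Integrable fun x => |q * ∑ ω, F j (x + τ • W j ω) - F j x| := fun j =>
              (((integrable_finsetSum _ fun ω _ => (iF j).comp_add_right _).const_mul _).sub (iF j)).abs
            have i2 : ∀ j, Integrable fun x => q * ∑ ω, χ j ω * F j (x + τ • W j ω) := fun j =>
              (integrable_finsetSum _ fun ω _ => ((iF j).comp_add_right _).const_mul _).const_mul _
            have i3 : ∀ j, Integrable fun x => |q * ∑ ω, F j (x + τ • W j ω) - F j x| +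
                q * ∑ ω, χ j ω * F j (x + τ • W j ω) := fun j => (i1 j).add (i2 j)
            rw [← ofReal_integral_eq_lintegral_ofReal (f := fun x => r x τ)
              (integrable_finsetSum _ fun j _ => i3 j) (ae_of_all _ fun x => r0 x τ)]
            refine ENNReal.ofReal_le_ofReal ?_
            simp only [hr]
            rw [integral_finsetSum _ fun j _ => i3 j]
            have : ∀ j, ∫ x, (|q * ∑ ω, F j (x + τ • W j ω) - F j x| +
                q * ∑ ω, χ j ω * F j (x + τ • W j ω)) ≤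
                (∫ x, |q * ∑ ω, F j (x + τ • W j ω) - F j x|) + e2 * ∫ x, F j x := fun j => by
              rw [integral_add (i1 j) (i2 j), integral_const_mul,
                integral_finsetSum _ fun ω _ => ((iF j).comp_add_right _).const_mul _]
              simp only [integral_const_mul, integral_add_right_eq_self (F j), ← Finset.sum_mul]
              rw [← mul_assoc]
              exact add_le_add le_rfl (mul_le_mul_of_nonneg_right (h2 j) (I0 j))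
            refine (Finset.sum_le_sum fun j _ => this j).trans ?_
            rw [Finset.sum_add_distrib, ← Finset.mul_sum]
            exact add_le_add (h1 τ hτ) (mul_le_mul_of_nonneg_left h3 e20)
        _ = _ := by simp
    rw [ENNReal.ofReal_sub _ he, tsub_le_iff_right]
    refine h5.trans (le_trans ?_ (add_le_add le_rfl ((setLIntegral_le_lintegral K _).trans R1)))
    rw [← lintegral_add_right _ mr.lintegral_prod_right']
    refine setLIntegral_mono' mK fun x hx => ?_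
    rw [min_add]
    refine le_min (le_add_right (ENNReal.ofReal_le_one.2 (h4 x hx))) ?_
    have mP : ∀ i : J × Ω, Measurable fun t : ℝ =>
        ENNReal.ofReal (q * (1 - χ i.1 i.2) * F i.1 (x + t • W i.1 i.2)) := fun i => by
      have := mF i.1
      fun_prop
    calc _ = ∫⁻ _ in Icc (0 : ℝ) 1, ENNReal.ofReal (∑ j, F j x) := by simp
      _ ≤ ∫⁻ τ in Icc (0 : ℝ) 1, (∑ i : J × Ω,
            ENNReal.ofReal (q * (1 - χ i.1 i.2) * F i.1 (x + τ • W i.1 i.2)) + ENNReal.ofReal (r x τ)) := by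
          refine lintegral_mono fun τ => ?_
          have p0 : ∀ i : J × Ω, 0 ≤ q * (1 - χ i.1 i.2) * F i.1 (x + τ • W i.1 i.2) := fun i =>
            mul_nonneg (mul_nonneg q0 (χ1 _ _)) (F0 _ _)
          rw [← ENNReal.ofReal_sum_of_nonneg fun i _ => p0 i,
            ← ENNReal.ofReal_add (Finset.sum_nonneg fun i _ => p0 i) (r0 x τ)]
          refine ENNReal.ofReal_le_ofReal ?_
          rw [Fintype.sum_prod_type, hr, ← Finset.sum_add_distrib]
          refine Finset.sum_le_sum fun j _ => ?_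
          have a1 := neg_abs_le (q * ∑ ω, F j (x + τ • W j ω) - F j x)
          have a2 : ∑ ω, q * (1 - χ j ω) * F j (x + τ • W j ω) +
              q * ∑ ω, χ j ω * F j (x + τ • W j ω) = q * ∑ ω, F j (x + τ • W j ω) := by
            rw [Finset.mul_sum, Finset.mul_sum, ← Finset.sum_add_distrib]
            exact Finset.sum_congr rfl fun ω _ => by ring
          linarith
      _ ≤ _ := by
          rw [lintegral_add_left (Finset.measurable_sum _ fun i _ => mP i),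
            lintegral_finsetSum _ fun i _ => mP i]
          refine add_le_add (Finset.sum_le_sum fun i _ => ?_) le_rfl
          refine (setLIntegral_le_lintegral _ _).trans (lintegral_mono fun t => ?_)
          by_cases h : s2 / 2 ≤ ‖W i.1 i.2‖ ^ 2
          · simp only [if_pos h, le_refl]
          · simp [hχ, if_neg h]

end Pool.Agent.Lib.MP_fedf83_gt.UK
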