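import Pool.Agent.Lib.MP_fedf83_gt.BCore

/-! Random walks with finitely many steps: the `L1` drift of a function and the length. -/

namespace Pool.Agent.Lib.MP_fedf83_gt.UK

open MeasureTheory Set Pool.Agent.Lib.MP_fedf83_gt.B
open scoped ENNReal RealInnerProductSpace

variable {n : ℕ} {S : Type} [Fintype S]

/-- The end point of a walk. -/
noncomputable def wk (v : S → E n) {L : ℕ} (ω : Fin L → S) : E n := ∑ l, v (ω l)

theorem sum_cons {L : ℕ} (g : (Fin (L + 1) → S) → ℝ) :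
    ∑ ω, g ω = ∑ ω : Fin L → S, ∑ s, g (Fin.cons s ω) := by
  rw [← (Fin.consEquiv fun _ : Fin (L + 1) => S).sum_comp, Fintype.sum_prod_type, Finset.sum_comm]
  rfl

omit [Fintype S] in
theorem wk_cons (v : S → E n) {L : ℕ} (s : S) (ω : Fin L → S) :
    wk v (Fin.cons s ω : Fin (L + 1) → S) = wk v ω + v s := by
  simp [wk, Fin.sum_univ_succ, add_comm]

omit [Fintype S] in
theorem wk_smul (v : S → E n) (r : ℝ) {L : ℕ} (ω : Fin L → S) :
    wk (fun s => r • v s) ω = r • wk v ω := by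
  simp [wk, Finset.smul_sum]

theorem card_paths {c : ℝ} (hc : c * Fintype.card S = 1) (L : ℕ) :
    c ^ L * Fintype.card (Fin L → S) = 1 := by
  rw [Fintype.card_fun, Fintype.card_fin]
  push_cast
  rw [← mul_pow, hc, one_pow]

theorem walk_l1 (v : S → E n) {c : ℝ} (c0 : 0 ≤ c) (hc : c * Fintype.card S = 1) {f : E n → ℝ}
    (hf : Integrable f) (L : ℕ) :
    ∫ x, |c ^ L * ∑ ω : Fin L → S, f (x + wk v ω) - f x| ≤
      L * ∫ x, |c * ∑ s, f (x + v s) - f x| := by
  have iA : ∀ L : ℕ, Integrable fun x => c ^ L * ∑ ω : Fin L → S, f (x + wk v ω) - f x := fun L =>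
    ((integrable_finsetSum _ fun ω _ => hf.comp_add_right _).const_mul _).sub hf
  have ig : Integrable fun x => c * ∑ s, f (x + v s) - f x :=
    ((integrable_finsetSum _ fun s _ => hf.comp_add_right _).const_mul _).sub hf
  set g : E n → ℝ := fun x => c * ∑ s, f (x + v s) - f x with hg
  induction L with
  | zero => simp [wk]
  | succ L ih =>
    have i2 : Integrable fun x => c ^ L * ∑ ω : Fin L → S, |g (x + wk v ω)| :=
      (integrable_finsetSum _ fun ω _ => ig.abs.comp_add_right _).const_mul _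
    have e2 : ∫ x, c ^ L * ∑ ω : Fin L → S, |g (x + wk v ω)| = ∫ x, |g x| := by
      rw [integral_const_mul, integral_finsetSum _ fun ω _ => ig.abs.comp_add_right _]
      simp only [integral_add_right_eq_self (fun x => |g x|), Finset.sum_const, Finset.card_univ,
        nsmul_eq_mul]
      rw [← mul_assoc, card_paths hc, one_mul]
    calc _ ≤ ∫ x, (|c ^ L * ∑ ω : Fin L → S, f (x + wk v ω) - f x| +
          c ^ L * ∑ ω : Fin L → S, |g (x + wk v ω)|) := by
          refine integral_mono (iA _).abs ((iA _).abs.add i2) fun x => ?_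
          have h1 : c ^ (L + 1) * ∑ ω : Fin (L + 1) → S, f (x + wk v ω) - f x =
              (c ^ L * ∑ ω : Fin L → S, f (x + wk v ω) - f x) +
                c ^ L * ∑ ω : Fin L → S, g (x + wk v ω) := by
            rw [sum_cons]
            simp only [hg, wk_cons, ← add_assoc, Finset.sum_sub_distrib, ← Finset.mul_sum]
            ring
          dsimp only
          rw [h1]
          refine (abs_add_le _ _).trans (add_le_add le_rfl ?_)
          rw [abs_mul, abs_of_nonneg (pow_nonneg c0 L)]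
          exact mul_le_mul_of_nonneg_left (Finset.abs_sum_le_sum_abs _ _) (pow_nonneg c0 L)
      _ ≤ _ := by
          rw [integral_add (iA _).abs i2, e2]
          push_cast
          linarith

theorem walk_mom (v : S → E n) {c e m : ℝ} (c0 : 0 ≤ c) (hc : c * Fintype.card S = 1)
    (m0 : 0 < m) (h1 : ∀ s, ‖v s‖ ^ 2 = e) (h2 : ∑ s, v s = 0)
    (h3 : ∀ W : E n, c * ∑ s, ⟪W, v s⟫ ^ 2 ≤ e / m * ‖W‖ ^ 2) (L : ℕ) :
    c ^ L * ∑ ω : Fin L → S, ‖wk v ω‖ ^ 2 = L * e ∧
      c ^ L * ∑ ω : Fin L → S, (‖wk v ω‖ ^ 2 - L * e) ^ 2 ≤ 2 * e ^ 2 * L ^ 2 / m := by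
  have z : ∀ W : E n, ∑ s, ⟪W, v s⟫ = 0 := fun W => by rw [← inner_sum, h2, inner_zero_right]
  induction L with
  | zero => simp [wk]
  | succ L ih =>
    have a1 : ∀ W : E n, c * ∑ s, ‖W + v s‖ ^ 2 = ‖W‖ ^ 2 + e := fun W => by
      simp only [norm_add_sq_real, h1, Finset.sum_add_distrib, ← Finset.mul_sum, z,
        Finset.sum_const, Finset.card_univ, nsmul_eq_mul]
      linear_combination (‖W‖ ^ 2 + e) * hc
    have a2 : ∀ W : E n, c * ∑ s, (‖W + v s‖ ^ 2 - (L + 1 : ℕ) * e) ^ 2 ≤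
        (‖W‖ ^ 2 - L * e) ^ 2 + 4 * (e / m) * ‖W‖ ^ 2 := fun W => by
      have : ∀ s, (‖W + v s‖ ^ 2 - (L + 1 : ℕ) * e) ^ 2 = (‖W‖ ^ 2 - L * e) ^ 2 +
          4 * (‖W‖ ^ 2 - L * e) * ⟪W, v s⟫ + 4 * ⟪W, v s⟫ ^ 2 := fun s => by
        rw [norm_add_sq_real, h1]
        push_cast
        ring
      simp only [this, Finset.sum_add_distrib, ← Finset.mul_sum, z, Finset.sum_const,
        Finset.card_univ, nsmul_eq_mul]
      have h4 := h3 W
      have h5 : c * (Fintype.card S * (‖W‖ ^ 2 - L * e) ^ 2) = (‖W‖ ^ 2 - L * e) ^ 2 := by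
        rw [← mul_assoc, hc, one_mul]
      nlinarith
    have cp := card_paths hc L
    constructor
    · rw [sum_cons, pow_succ, mul_assoc, Finset.mul_sum]
      simp only [wk_cons, a1, Finset.sum_add_distrib, Finset.sum_const, Finset.card_univ,
        nsmul_eq_mul]
      push_cast
      linear_combination ih.1 + e * cp
    · rw [sum_cons, pow_succ, mul_assoc, Finset.mul_sum]
      simp only [wk_cons]
      refine (mul_le_mul_of_nonneg_left (Finset.sum_le_sum fun ω _ => a2 _) (pow_nonneg c0 L)).trans ?_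
      rw [Finset.sum_add_distrib, ← Finset.mul_sum, mul_add, mul_left_comm, ih.1]
      have h6 : 2 * e ^ 2 * (L : ℝ) ^ 2 / m + 4 * (e / m) * (L * e) ≤ 2 * e ^ 2 * (L + 1 : ℕ) ^ 2 / m := by
        push_cast
        have : 2 * e ^ 2 * ((L : ℝ) + 1) ^ 2 / m =
            2 * e ^ 2 * (L : ℝ) ^ 2 / m + 4 * (e / m) * (L * e) + 2 * e ^ 2 / m := by ring
        rw [this]
        have : 0 ≤ 2 * e ^ 2 / m := by positivity
        linarith
      linarith [ih.2]

open Classical in
theorem walk_bad (v : S → E n) {c e m : ℝ} (c0 : 0 ≤ c) (hc : c * Fintype.card S = 1) (e0 : 0 < e)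
    (m0 : 0 < m) (h1 : ∀ s, ‖v s‖ ^ 2 = e) (h2 : ∑ s, v s = 0)
    (h3 : ∀ W : E n, c * ∑ s, ⟪W, v s⟫ ^ 2 ≤ e / m * ‖W‖ ^ 2) {L : ℕ} (L0 : 0 < L) :
    c ^ L * ∑ ω : Fin L → S, (if L * e / 2 ≤ ‖wk v ω‖ ^ 2 then (0 : ℝ) else 1) ≤ 8 / m := by
  have h := (walk_mom v c0 hc m0 h1 h2 h3 L).2
  have Lp : (0 : ℝ) < L := by exact_mod_cast L0
  have q0 : 0 < (L * e / 2) ^ 2 := by positivity
  refine le_of_mul_le_mul_left ?_ q0
  rw [mul_left_comm, Finset.mul_sum]
  refine le_trans (mul_le_mul_of_nonneg_left (Finset.sum_le_sum fun ω _ => ?_) (pow_nonneg c0 L))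
    (h.trans (le_of_eq (by ring)))
  split_ifs with hh
  · rw [mul_zero]
    exact sq_nonneg _
  · push Not at hh
    have := mul_pos Lp e0
    nlinarith

end Pool.Agent.Lib.MP_fedf83_gt.UK
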