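import Pool.Agent.Lib.MP_fedf83_gt.Final

/-! The former hand-in UpperBound. -/

namespace Pool.Agent.Lib.MP_fedf83_gt.UpperBoundOld

theorem bound (n l j : ℕ) (hl : 1 ≤ l) (hj : 1 ≤ j) (h : l + j ≤ n) :
    c n l ≤ ENNReal.ofReal ((648 * √((j : ℝ) / l)) ^ j) :=
  upper n l j hl hj h

end Pool.Agent.Lib.MP_fedf83_gt.UpperBoundOld
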